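import Pool.Agent.Helper74.TS.OneLowD
import Pool.Agent.Helper5.TS.Gain

/-!
# At most one cell of kind B per row and at most one row per cell

`VB A P a z x y C`: the cap of the far cell `C = (a; z)` on the row `x` is violated (any height of
`C`). A cell violates at most one of its two caps (`not_both`), and a row has at most one cell whose
cap it violates (`not_two`).
-/

set_option autoImplicit false

namespace Pool.Agent.Helper74.TS

open Pool.Agent.Helper84.TS Pool.Agent.Helper23.TS Pool.Agent.Helper36.TS Pool.Agent.Helper44.TS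
open Pool.Agent.Helper90.TS

/-- the cap of the far cell `C = (a; z)` on the row `x` is violated (`y` the third row) -/
structure VB (A : Fin 4 → Fin 4 → Option (Fin 4 → ℝ)) (P : Fin 4 → Fin 4 → ℝ) (a z x y : Fin 4)
    (C : Fin 4 → ℝ) : Prop where
  hn : [a, z, x, y].Nodup
  hC : A a z = some C
  cap : (C y + (C a - 1)) + (P x x - 1) < -P x z

theorem KB.vb {A : Fin 4 → Fin 4 → Option (Fin 4 → ℝ)} {P : Fin 4 → Fin 4 → ℝ}
    {a z x y : Fin 4} {C : Fin 4 → ℝ} (k : KB A P a z x y C) : VB A P a z x y C :=
  ⟨k.hn, k.hC, k.cap⟩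

section

variable {A : Fin 4 → Fin 4 → Option (Fin 4 → ℝ)} {P : Fin 4 → Fin 4 → ℝ} {a z x y : Fin 4}

/-- the consequences of a violated cap -/
theorem VB.out (h : OLB A P a) {C : Fin 4 → ℝ} (k : VB A P a z x y C) :
    -P x z + -P x y ≤ (C a - 1) + (P x x - 1) ∧ 1 - (C a - 1) ≤ -P x a ∧ 0 ≤ C a - 1 := by
  have hza : z ≠ a := (nodup_ne k.hn).1
  have hxa : x ≠ a := (nodup_ne k.hn).2.1
  have hnx : [x, z, a, y].Nodup := by
    have := k.hn
    clear * - this; revert this; revert a z x y; decide
  have hzx : z ≠ x := (nodup_ne hnx).1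
  have hs : Sep C (P x) := h.of.sep a z x x C (P x) k.hC (h.mn x hxa)
    (fun e => hxa (by rw [Prod.mk.injEq] at e; exact e.1.symm))
  have hcC := h.of.cell a z C k.hC
  have hcx := h.of.cell x x _ (h.mn x hxa)
  have h1 := h.of.main x _ (h.mn x hxa) z hzx
  have h2 := h.of.far a z C hza k.hC
  have h0 := (cell_lin hcC k.hn).2.1
  rcases wk_cap_le hcC hcx k.hn hs (by linarith) with h3 | h3
  · exact absurd h3 (not_le.2 k.cap)
  · exact ⟨h3.1, h3.2, by linarith⟩

private theorem aux {C : Fin 4 → ℝ} (h : OLB A P a) (k : VB A P a z x y C)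
    (l : VB A P a z y x C) (ho : -P y z ≤ -P x z) : False := by
  have n := nodup_ne k.hn
  have nx : [a, x, y, z].Nodup := by
    have := k.hn
    clear * - this; revert this; revert a z x y; decide
  have hzx : z ≠ x := by
    have := k.hn
    clear * - this; revert this; revert a z x y; decide
  have o1 := k.out h
  have o2 := l.out h
  have hp := h.pair nx
  have hm : 1 - (C a - 1) ≤ min (-P x a) (-P y a) := le_min o1.2.1 o2.2.1
  rw [min_eq_right ho] at hp
  have c := cell_lin (h.of.cell a z C k.hC) k.hn
  have hf := h.of.far a z C n.1 k.hC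
  have he := h.entry n.2.1 hzx
  have k1 := k.cap
  have k2 := l.cap
  linarith

/-- **a cell violates at most one cap** -/
theorem not_both (h : OLB A P a) {C : Fin 4 → ℝ} (k : VB A P a z x y C)
    (l : VB A P a z y x C) : False := by
  rcases le_total (-P y z) (-P x z) with ho | ho
  · exact aux h k l ho
  · exact aux h l k ho

/-- **a row violates at most one cap** -/
theorem not_two (h : OLB A P a) {C D : Fin 4 → ℝ} (k : VB A P a z x y C)
    (l : VB A P a y x z D) : False := by
  have n := nodup_ne k.hn
  have n' := nodup_ne l.hn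
  have hzy : z ≠ y := by
    have := k.hn
    clear * - this; revert this; revert a z x y; decide
  have o1 := k.out h
  have o2 := l.out h
  have c1 := cell_lin (h.of.cell a z C k.hC) k.hn
  have c2 := cell_lin (h.of.cell a y D l.hC) l.hn
  have d0 := h.d0 n.2.1
  have k1 := k.cap
  have k2 := l.cap
  rcases Pool.Agent.Helper5.TS.support h.of k.hC l.hC n.1 n.2.2 hzy with hs | hs
  · linarith
  · linarith

/-- the other cell of a row with a violated cap -/
theorem VB.other (h : OLB A P a) {C : Fin 4 → ℝ} (k : VB A P a z x y C) {D : Fin 4 → ℝ}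
    (hD : A a y = some D) : -P x y ≤ (D z + (D a - 1)) + (P x x - 1) := by
  by_contra hc
  have hn : [a, y, x, z].Nodup := by
    have := k.hn
    clear * - this; revert this; revert a z x y; decide
  exact not_two h k ⟨hn, hD, not_le.1 hc⟩

/-- the other row of a cell with a violated cap -/
theorem VB.row (h : OLB A P a) {C : Fin 4 → ℝ} (k : VB A P a z x y C) :
    -P y z ≤ (C x + (C a - 1)) + (P y y - 1) := by
  by_contra hc
  have hn : [a, z, y, x].Nodup := by
    have := k.hn
    clear * - this; revert this; revert a z x y; decide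
  exact not_both h k ⟨hn, k.hC, not_le.1 hc⟩

end

/-- **`OL2B` with one witness for both rows: impossible.** -/
theorem ol2Bss : OL2Bss := fun _ _ _ _ _ _ _ h _ _ k l _ _ _ => (not_both h k.vb l.vb).elim

end Pool.Agent.Helper74.TS
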