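import Pool.Agent.Helper74.TS.T2111
import Pool.Agent.Helper44.TS.H1

/-!
# Four main cells with sum of the heights at least 2: the total is at most 291/100

So in the frame with four main cells of heights at most `3/5` and far cells of volume at most `9/25`
the type (2,1,1,1) is no problem.
-/

set_option autoImplicit false

namespace Pool.Agent.Helper74.TS

open Pool.Agent.Helper84.TS Pool.Agent.Helper23.TS Pool.Agent.Helper36.TS Pool.Agent.Helper44.TS

variable {A : Fin 4 → Fin 4 → Option (Fin 4 → ℝ)} {P : Fin 4 → Fin 4 → ℝ}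

private theorem bb_lin74 {y : ℝ} (h0 : 0 ≤ y) (h1 : y ≤ 3 / 5) : bb y ≤ 13 / 25 * y := by
  unfold bb
  nlinarith [mul_nonneg h0 (sub_nonneg.2 h1), mul_nonneg (mul_nonneg h0 h0) (sub_nonneg.2 h1)]

/-- a far cell of a class with main cell `v`: its volume is at most `9/25` and at most `13/25 w`, with
`w ≤ v j + d` -/
private theorem far74 (h : OF A) {i j : Fin 4} (hj : j ≠ i) {v F : Fin 4 → ℝ}
    (hv : A i i = some v) (hF : A i j = some F) :
    fcl i F ≤ bb (2 + F j) ∧ 0 ≤ 2 + F j ∧ 2 + F j ≤ v j + (v i - 1) := by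
  have cF := h.cell i j F hF
  have fF := h.far i j F hj hF
  exact ⟨far_bb' cF hj fF, (far_W cF hj fF).1,
    own' (h.cell i i v hv) cF (sep' h hj.symm hv hF) hj (h.main i v hv) fF⟩

/-- **The value of a class with main cell `v`**: at most the bound of the main cell plus `9/25`. -/
theorem vv_le_main (h : OF A) {i : Fin 4} {v : Fin 4 → ℝ} (hv : A i i = some v)
    (hd : v i - 1 ≤ 3 / 5) (hF : ∀ j F, j ≠ i → A i j = some F → fcl i F ≤ 9 / 25) :
    VV A i ≤ (1 - (v i - 1)) * (1 - 2 / 3 * (v i - 1)) + 9 / 25 := by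
  obtain ⟨j, k, l, hn⟩ := exists_rest3 i
  have n := nodup_ne hn
  have cv := h.cell i i v hv
  have mv := h.main i v hv
  have hm := main_d cv mv
  obtain ⟨a1, a2, a3, a4, a5, a6, a7, a8, a9⟩ := cell_lin cv hn
  have mj := mv j n.1
  have mk := mv k n.2.1
  have ml := mv l n.2.2
  rw [Pool.Agent.Helper44.TS.VV_eq hn, hv]
  simp only [fo]
  rcases hj : A i j with _ | F <;> rcases hk : A i k with _ | G <;> rcases hl : A i l with _ | H <;>
    simp only [add_zero]
  · linarith
  · have := hF l H n.2.2 hl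
    linarith
  · have := hF k G n.2.1 hk
    linarith
  · obtain ⟨g1, g2, g3⟩ := far74 h n.2.1 hv hk
    obtain ⟨e1, e2, e3⟩ := far74 h n.2.2 hv hl
    have b1 := bb_lin74 g2 (by linarith)
    have b2 := bb_lin74 e2 (by linarith)
    linarith
  · have := hF j F n.1 hj
    linarith
  · obtain ⟨g1, g2, g3⟩ := far74 h n.1 hv hj
    obtain ⟨e1, e2, e3⟩ := far74 h n.2.2 hv hl
    have b1 := bb_lin74 g2 (by linarith)
    have b2 := bb_lin74 e2 (by linarith)
    linarith
  · obtain ⟨g1, g2, g3⟩ := far74 h n.1 hv hj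
    obtain ⟨e1, e2, e3⟩ := far74 h n.2.1 hv hk
    have b1 := bb_lin74 g2 (by linarith)
    have b2 := bb_lin74 e2 (by linarith)
    linarith
  · obtain ⟨g1, g2, g3⟩ := far74 h n.1 hv hj
    obtain ⟨e1, e2, e3⟩ := far74 h n.2.1 hv hk
    obtain ⟨f1, f2, f3⟩ := far74 h n.2.2 hv hl
    have b1 := bb_lin74 g2 (by linarith)
    have b2 := bb_lin74 e2 (by linarith)
    have b3 := bb_lin74 f2 (by linarith)
    linarith

/-- the main bound is below its chord on `[0, 3/5]` -/
private theorem chord74 {d : ℝ} (h0 : 0 ≤ d) (h1 : d ≤ 3 / 5) :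
    (1 - d) * (1 - 2 / 3 * d) ≤ 1 - 19 / 15 * d := by
  nlinarith [mul_nonneg h0 (sub_nonneg.2 h1)]

/-- **Large heights**: four main cells of heights at most `3/5` and sum at least `2`, all far cells
of volume at most `9/25`: the total is at most `291/100`. -/
theorem total_of_two_le (h : OF A) (hP : ∀ i, A i i = some (P i)) (hd : ∀ i, P i i - 1 ≤ 3 / 5)
    (hF : ∀ i j F, j ≠ i → A i j = some F → fcl i F ≤ 9 / 25) (h2 : 2 ≤ ∑ m, (P m m - 1)) :
    ∑ i, VV A i ≤ 291 / 100 := by
  have key : ∀ i, VV A i ≤ 1 - 19 / 15 * (P i i - 1) + 9 / 25 := by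
    intro i
    have h1 := vv_le_main h (hP i) (hd i) (hF i)
    have h0 : 0 ≤ P i i - 1 := by
      have := (h.cell i i _ (hP i)).one
      linarith
    have h3 := chord74 h0 (hd i)
    linarith
  rw [Fin.sum_univ_four] at h2 ⊢
  linarith [key 0, key 1, key 2, key 3]

/-- **The type (2,1,1,1)** in the frame with four main cells of heights at most `3/5` and far cells
of volume at most `9/25`: the total is at most `291/100`. -/
theorem type_2111_le (h : OF A) (hP : ∀ i, A i i = some (P i)) (hd : ∀ i, P i i - 1 ≤ 3 / 5)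
    (hF : ∀ i j F, j ≠ i → A i j = some F → fcl i F ≤ 9 / 25) {t : Fin 4 → Fin 4}
    (hl : ∀ m i, i ≠ m → -P (t m) m ≤ -P i m) {i : Fin 4} (ht : ∀ m, m ≠ i → t m = i) :
    ∑ i, VV A i ≤ 291 / 100 := by
  by_cases h2 : 2 ≤ ∑ m, (P m m - 1)
  · exact total_of_two_le h hP hd hF h2
  · push Not at h2
    exact (not_type_2111' h (s := fun i => i) hP h2 hl ht).elim

/-- the same for far cells with `w ≤ 13/20` -/
theorem type_2111_le' (h : OF A) (hP : ∀ i, A i i = some (P i)) (hd : ∀ i, P i i - 1 ≤ 3 / 5)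
    (hw : ∀ i j F, j ≠ i → A i j = some F → 2 + F j ≤ 13 / 20) {t : Fin 4 → Fin 4}
    (hl : ∀ m i, i ≠ m → -P (t m) m ≤ -P i m) {i : Fin 4} (ht : ∀ m, m ≠ i → t m = i) :
    ∑ i, VV A i ≤ 291 / 100 := by
  refine type_2111_le h hP hd (fun i j F hj hF => ?_) hl ht
  have cF := h.cell i j F hF
  have fF := h.far i j F hj hF
  have h1 := far_bb' cF hj fF
  have h2 := (far_W cF hj fF).1
  have h3 := hw i j F hj hF
  refine h1.trans ?_
  unfold bb
  nlinarith [mul_nonneg h2 (sub_nonneg.2 h3), mul_nonneg (mul_nonneg h2 h2) (sub_nonneg.2 h3)]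

end Pool.Agent.Helper74.TS
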