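import Pool.Agent.Helper74.TS.ColLow

/-!
# The generic column: the far cell belongs to a class that is not the lowest one
-/

set_option autoImplicit false

namespace Pool.Agent.Helper74.TS

open Pool.Agent.Helper36.TS Pool.Agent.Helper83.TS Pool.Agent.Helper78.TS

section

variable {X de ni di no dO κ K W w A B ue ui uo : ℝ}

/-- the far class `i`, kind A for the class `o`, `ui ≤ uo` -/
theorem lo_KA (H : Lo X de ni di no dO κ K W) (w0 : 0 ≤ w) (w1 : w ≤ 13 / 20)
    (re : Row de ue) (ri : Row di ui) (eo : En no dO uo) (hei : ue ≤ ui) (ho : ui ≤ di - w)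
    (hA : 0 ≤ A) (hB : 0 ≤ B) (h1 : w ≤ A + B) (h2 : A + B ≤ 1 + w) (po : uo ≤ 1 - B + dO) :
    sx X de ue + sx (ni - κ) di ui + sx no dO uo + vl w A B ≤ W := by
  have hm := H.m
  have hdi := ri.d0
  have hdi1 := ri.d1
  have hdO := eo.d0
  have hdi2 := mul_nonneg hdi (by linarith : 0 ≤ 1 - di)
  have hlo := re.lo
  have g1 := sx_le_mj (X := X) (d := de) (u := ue) (D := di) (s := di - ue) hdi (by linarith) rfl
    re.hi
  have g2 : sx (ni - κ) di ui ≤ mj (ni - κ) (1 - di) di w := by
    have e1 := sx_mono (c := ni - κ) (d := di) (u := ui) (b := di - w) (by linarith) (by linarith)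
      ri.lo ri.hi ho (by nlinarith [mul_nonneg w0 (by linarith : 0 ≤ 1 - di)])
    have e2 := sx_le_mj (X := ni - κ) (d := di) (u := di - w) (D := di) (s := w) hdi w0 (by ring)
      (by linarith)
    exact e1.trans e2
  have g3 := sx_le_st eo
  have s0 : w ≤ di - ue := by linarith
  have s1 : di - ue ≤ 1 + di - de := by linarith
  have u0 := le_max_right uo 0
  have u1 : max uo 0 ≤ 1 := max_le eo.hi zero_le_one
  rcases le_total B 1 with hB1 | hB1
  · have pu : max uo 0 ≤ 1 - B + dO := max_le po (by linarith)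
    have hv := vl_mono_l (w := w) (A := A) (A' := 1 + w - B) (B := B) w0 hA hB h1 (by linarith)
    rcases le_total w B with hwB | hwB
    · have i := H.a1 w B _ _ w0 w1 s0 s1 u0 u1 pu hwB hB1
      rw [vl_b (by linarith : w ≤ 1 + w - B) hwB] at hv
      linarith
    · have i := H.a2 w B _ _ w0 w1 s0 s1 u0 u1 pu hB hwB
      have hv2 := vl_a' (w := w) (A := 1 + w - B) (B := B) hB (by linarith) hwB (by linarith)
      linarith
  · have pu : max uo 0 ≤ 1 - 1 + dO := max_le (by linarith) (by linarith)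
    have hv := vl_f w0 w1 hA hB1 h2
    have i := H.a1 w 1 _ _ w0 w1 s0 s1 u0 u1 pu (by linarith) le_rfl
    linarith

/-- no volume -/
theorem lo_K0 (H : Lo X de ni di no dO κ K W) (w0 : 0 ≤ w) (w1 : w ≤ 13 / 20)
    (re : Row de ue) (ri : Row di ui) (eo : En no dO uo) (hei : ue ≤ ui) (ho : ui ≤ di - w) :
    sx X de ue + sx (ni - κ) di ui + sx no dO uo ≤ W := by
  have := lo_KA H w0 w1 re ri eo hei ho (A := w) (B := 0) w0 le_rfl (by linarith) (by linarith)
    (by linarith [eo.hi, eo.d0])
  have e : vl w w 0 = 0 := by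
    have := vl_e (w := w) (A := w) w0 le_rfl
    rwa [sub_self] at this
  rw [e] at this
  linarith

/-- the far class `i`, `ui ≤ uo` -/
theorem lo_up (H : Lo X de ni di no dO κ K W) (hK : 0 ≤ K) (w0 : 0 ≤ w) (w1 : w ≤ 13 / 20)
    (re : Row de ue) (ri : Row di ui) (eo : En no dO uo) (hei : ue ≤ ui) (ho : ui ≤ di - w)
    (hA : 0 ≤ A) (hB : 0 ≤ B) (h1 : w ≤ A + B) (h2 : A + B ≤ 1 + w) {so : ℝ}
    (po : uo ≤ 1 - B + dO ∨ uo + A + B - 1 ≤ so) (hso : 0 ≤ so) :
    sx X de ue + sx (ni - κ) di ui + sx no dO uo + vl w A B ≤ W + K * so := by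
  have ks := mul_nonneg hK hso
  rcases le_total uo (1 - B + dO) with pc | pc
  · have := lo_KA H w0 w1 re ri eo hei ho hA hB h1 h2 pc
    linarith
  rcases po with po | po
  · have := lo_KA H w0 w1 re ri eo hei ho hA hB h1 h2 po
    linarith
  have hdO := eo.d0
  have huo1 := eo.hi
  rcases le_total 0 uo with hu | hu
  · have hdi := ri.d0
    have hdi1 := ri.d1
    have hdi2 := mul_nonneg hdi (by linarith : 0 ≤ 1 - di)
    have hm := H.m
    have hlo := re.lo
    have k0 := lo_K0 H w0 w1 re ri eo hei ho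
    -- the right end
    have hc := vl_vm (w := w) (A := A) (B := 1 + w - A) w0 w1 hA (by linarith) (by linarith)
      (by linarith)
    have g1 := sx_le_mj (X := X) (d := de) (u := ue) (D := di) (s := di - ue) hdi (by linarith) rfl
      re.hi
    have g2 : sx (ni - κ) di ui ≤ mj (ni - κ) (1 - di) di w := by
      have e1 := sx_mono (c := ni - κ) (d := di) (u := ui) (b := di - w) (by linarith)
        (by linarith) ri.lo ri.hi ho (by nlinarith [mul_nonneg w0 (by linarith : 0 ≤ 1 - di)])
      have e2 := sx_le_mj (X := ni - κ) (d := di) (u := di - w) (D := di) (s := w) hdi w0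
        (by ring) (by linarith)
      exact e1.trans e2
    have r := H.b w (di - ue) uo w0 w1 (by linarith) (by linarith) hu huo1
    rw [← sx_eq_st hu huo1] at r
    have er : vl w A (1 + w - A) - K * ((uo + A - 1) + (1 + w - A)) ≤
        W - (sx X de ue + sx (ni - κ) di ui + sx no dO uo) := by
      have e : K * ((uo + A - 1) + (1 + w - A)) = K * (uo + w) := by ring
      linarith
    have fin : vl w A B - K * ((uo + A - 1) + B) ≤
        W - (sx X de ue + sx (ni - κ) di ui + sx no dO uo) := by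
      rcases le_total (w - A) (1 + dO - uo) with h | h
      · refine vl_conv (t1 := 1 + dO - uo) (by linarith) (by linarith : B ≤ 1 + w - A) ?_ er
        have k := lo_KA H w0 w1 re ri eo hei ho (A := A) (B := 1 + dO - uo) hA (by linarith)
          (by linarith) (by linarith) (by linarith)
        have := mul_nonneg hK (by linarith : 0 ≤ A + dO)
        have e : K * (uo + A - 1 + (1 + dO - uo)) = K * (A + dO) := by ring
        linarith
      · refine vl_conv (t1 := w - A) (by linarith) (by linarith : B ≤ 1 + w - A) ?_ er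
        rw [vl_e hA (by linarith)]
        have := mul_nonneg hK (by linarith : 0 ≤ uo + w - 1)
        have e : K * (uo + A - 1 + (w - A)) = K * (uo + w - 1) := by ring
        linarith
    have e : K * (uo + A - 1 + B) = K * (uo + A + B - 1) := by ring
    have := mul_le_mul_of_nonneg_left po hK
    linarith
  · -- `B ≥ 1 + dO`: the volume is at most `w² - w³/3`, the slot at most `0`
    have hdi := ri.d0
    have hdi1 := ri.d1
    have hdi2 := mul_nonneg hdi (by linarith : 0 ≤ 1 - di)
    have hm := H.m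
    have hlo := re.lo
    have hv := vl_f w0 w1 hA (by linarith : 1 ≤ B) h2
    have g1 := sx_le_mj (X := X) (d := de) (u := ue) (D := di) (s := di - ue) hdi (by linarith) rfl
      re.hi
    have g2 : sx (ni - κ) di ui ≤ mj (ni - κ) (1 - di) di w := by
      have e1 := sx_mono (c := ni - κ) (d := di) (u := ui) (b := di - w) (by linarith)
        (by linarith) ri.lo ri.hi ho (by nlinarith [mul_nonneg w0 (by linarith : 0 ≤ 1 - di)])
      have e2 := sx_le_mj (X := ni - κ) (d := di) (u := di - w) (D := di) (s := w) hdi w0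
        (by ring) (by linarith)
      exact e1.trans e2
    have g3 := sx_le_st eo
    rw [max_eq_right hu, st_zero] at g3
    have i := H.a1 w 1 (di - ue) 0 w0 w1 (by linarith) (by linarith) le_rfl zero_le_one
      (by linarith) (by linarith) le_rfl
    rw [st_zero] at i
    linarith

/-- the far class `i`, `uo ≤ ui` -/
theorem lo_down (H : Lo X de ni di no dO κ K W) (hκ : 0 ≤ κ) (w0 : 0 ≤ w) (w1 : w ≤ 13 / 20)
    (re : Row de ue) (ri : Row di ui) (ro : Row dO uo) (hei : ue ≤ ui) (ho : ui ≤ di - w)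
    (hA : 0 ≤ A) (hB : 0 ≤ B) (h1 : w ≤ A + B) (h2 : A + B ≤ 1 + w) (hou : uo ≤ ui) :
    sx X de ue + sx ni di ui + sx (no - κ) dO uo + vl w A B ≤ W := by
  have hm := H.m
  have hdi := ri.d0
  have hdi1 := ri.d1
  have hdi2 := mul_nonneg hdi (by linarith : 0 ≤ 1 - di)
  have hlo := re.lo
  have hloo := ro.lo
  have g1 := sx_le_mj (X := X) (d := de) (u := ue) (D := di) (s := di - ue) hdi (by linarith) rfl
    re.hi
  have g2 : sx ni di ui ≤ mj ni (1 - di) di w := by
    have e1 := sx_mono (c := ni) (d := di) (u := ui) (b := di - w) (by linarith)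
      (by linarith) ri.lo ri.hi ho (by nlinarith [mul_nonneg w0 (by linarith : 0 ≤ 1 - di)])
    have e2 := sx_le_mj (X := ni) (d := di) (u := di - w) (D := di) (s := w) hdi w0
      (by ring) (by linarith)
    exact e1.trans e2
  have g3 := sx_le_mj (X := no - κ) (d := dO) (u := uo) (D := di) (s := di - uo) hdi
    (by linarith) rfl ro.hi
  have hv := vl_vm w0 w1 hA hB h1 h2
  have i := H.c w (di - ue) (di - uo) w0 w1 (by linarith) (by linarith) (by linarith)
    (by linarith)
  linarith

end

section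

variable {ne na nb ka kb K La Lb Lab W de da db : ℝ}

/-- the kind of the pair `i, o` of a far cell of the class `i` (not the lowest class `e`) -/
theorem kind_lo {f w d al be ui ue uo di de dO se so : ℝ} (ri : Row di ui)
    (ro : Row dO uo) (hio : ui ≤ uo) (F : FarC f w d al be ui ue uo di de dO se so)
    (ho : w ≤ -ui + max (di - d) 0) :
    uo ≤ 1 - (1 - be) + dO ∨ uo + (1 - al) + (1 - be) - 1 ≤ so := by
  have hmy : min uo (2 - w) = uo := min_eq_left (by linarith [ro.hi, F.w1])
  have hdi := ri.d0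
  rcases F.capy with h | h
  · rw [hmy] at h
    left
    linarith
  · right
    have h1 := F.sum
    have h2 := F.d0
    rw [hmy, min_eq_left hio] at h
    rcases max_cases (di - d) 0 with ⟨e, -⟩ | ⟨e, -⟩ <;> rw [e] at ho <;> linarith

/-- the field `fa` of `ColR` -/
theorem fa_of_col (H : Col (ne - ka - kb) de na da nb db K La Lb Lab W)
    (ue ua ub f w d al be se sb : ℝ) (re : Row de ue) (ra : Row da ua) (rb : Row db ub)
    (h1 : ue ≤ ua) (_ : ue ≤ ub) (F : FarC f w d al be ua ue ub da de db se sb)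
    (ho : w ≤ -ua + max (da - d) 0) (hw : w ≤ 13 / 20) (_ : f ≤ 9 / 25) (he0 : 0 ≤ se)
    (hb0 : 0 ≤ sb) :
    Cval ne na nb ka kb K de da db ue ua ub + f ≤ W + La * se + Lab * sb := by
  obtain ⟨c1, c2, c3, c4⟩ := Col_nn H ra.d0 ra.d1 rb.d0 rb.d1
  obtain ⟨f1, f2, f3, f4, f5, f6⟩ := farC_vl F
  have hd0 := F.d0
  have hda := ra.d0
  have hmax : max (da - d) 0 ≤ da := max_le (by linarith) hda
  have ho' : ua ≤ da - w := by linarith
  have k1 := mul_nonneg H.hKa he0
  have k2 := mul_nonneg H.hKab hb0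
  rcases le_total ub ua with h | h
  · rw [Cval_le h]
    have := lo_down H.la H.hκ F.w0.le hw re ra rb h1 ho' f2.le f3.le f4.le f5 h
    linarith
  · rw [Cval_ge h]
    have := lo_up H.la H.hKab F.w0.le hw re ra ⟨c4, rb.d0, rb.d1.le, rb.lo, rb.hi⟩ h1 ho' f2.le
      f3.le f4.le f5 (kind_lo ra rb h F ho) hb0
    linarith

/-- the field `fb` of `ColR` -/
theorem fb_of_col (H : Col (ne - ka - kb) de na da nb db K La Lb Lab W)
    (ue ua ub f w d al be se sa : ℝ) (re : Row de ue) (ra : Row da ua) (rb : Row db ub)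
    (_ : ue ≤ ua) (h2 : ue ≤ ub) (F : FarC f w d al be ub ue ua db de da se sa)
    (ho : w ≤ -ub + max (db - d) 0) (hw : w ≤ 13 / 20) (_ : f ≤ 9 / 25) (he0 : 0 ≤ se)
    (ha0 : 0 ≤ sa) :
    Cval ne na nb ka kb K de da db ue ua ub + f ≤ W + Lb * se + Lab * sa := by
  obtain ⟨c1, c2, c3, c4⟩ := Col_nn H ra.d0 ra.d1 rb.d0 rb.d1
  obtain ⟨f1, f2, f3, f4, f5, f6⟩ := farC_vl F
  have hd0 := F.d0
  have hdb := rb.d0
  have hmax : max (db - d) 0 ≤ db := max_le (by linarith) hdb
  have ho' : ub ≤ db - w := by linarith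
  have k1 := mul_nonneg H.hKb he0
  have k2 := mul_nonneg H.hKab ha0
  rcases le_total ub ua with h | h
  · rw [Cval_le h]
    have := lo_up H.lb H.hKab F.w0.le hw re rb ⟨c3, ra.d0, ra.d1.le, ra.lo, ra.hi⟩ h2 ho' f2.le
      f3.le f4.le f5 (kind_lo rb ra h F ho) ha0
    linarith
  · rw [Cval_ge h]
    have := lo_down H.lb H.hκ F.w0.le hw re rb ra h2 ho' f2.le f3.le f4.le f5 h
    linarith

/-- **The generic column in real variables**: the polynomial inequalities `Col` give `ColR`. -/
theorem colR_of_col (H : Col (ne - ka - kb) de na da nb db K La Lb Lab W) :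
    ColR ne na nb ka kb K La Lb Lab W de da db where
  none := none_of_col H
  low := low_of_col H
  fa := fa_of_col H
  fb := fb_of_col H
  la := H.hKa
  lb := H.hKb
  lab := H.hKab

/-- **The generic column.** At most one far cell in the column `m`, `e` its lowest class. -/
theorem column {A : Fin 4 → Fin 4 → Option (Fin 4 → ℝ)} {P : Fin 4 → Fin 4 → ℝ}
    {Ka Kb Kab kap : ℝ} {m e a b : Fin 4} (hB : Pool.Agent.Helper84.TS.Base A P)
    (hO : ∀ x y F G, x ≠ m → y ≠ m → A x m = some F → A y m = some G → x = y)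
    (hn : [m, e, a, b].Nodup) (hl : Pool.Agent.Helper84.TS.Low P m e)
    (H : Col (ne - ka - kb) (P e e - 1) na (P a a - 1) nb (P b b - 1) kap Ka Kb Kab W) :
    ColI A P m e a b ne na nb ka kb kap Ka Kb Kab W :=
  colR_of hB hO hn hl (colR_of_col H)

/-- `Col` in the form of `Gives` -/
theorem gives_col : Gives (fun ne na nb kea keb kab Lea Leb Lab W de da db =>
    Col (ne - kea - keb) de na da nb db kab Lea Leb Lab W) := by
  intro A P hB hO m e a b hn hl nue nua nub kea keb kab Lea Leb Lab W hC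
  exact gives_colR A P hB hO m e a b hn hl nue nua nub kea keb kab Lea Leb Lab W
    (colR_of_col hC)

end

end Pool.Agent.Helper74.TS
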