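import Pool.Agent.Helper74.TS.OneLowB

/-!
# `CaseOneLow`: four cases left

`OL0`: `S` is empty; `OL1A`, `OL1B`: `S = {p}`; `OL2B`: `S = {p, r}`. The case `S = {p, r, s}` is done
(`ol3`). In all cases the sum of the three heights is less than `9/10`, and not all the entries of the
column `a` are at least `9/20`.
-/

set_option autoImplicit false

namespace Pool.Agent.Helper74.TS

open Pool.Agent.Helper84.TS Pool.Agent.Helper23.TS Pool.Agent.Helper36.TS Pool.Agent.Helper44.TS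

/-- the sum of the heights is less than `9/10` -/
def Hsm (P : Fin 4 → Fin 4 → ℝ) (p r s : Fin 4) : Prop :=
  (P p p - 1) + (P r r - 1) + (P s s - 1) < 9 / 10

/-- `S` is empty -/
def OL0' : Prop := ∀ (A : Fin 4 → Fin 4 → Option (Fin 4 → ℝ)) (P : Fin 4 → Fin 4 → ℝ)
  (a p r s : Fin 4), OLB A P a → [a, p, r, s].Nodup → Hsm P p r s → (∀ x, ¬ InS A P a x) →
  (-P p a < 9 / 20 ∨ -P r a < 9 / 20 ∨ -P s a < 9 / 20) → ∑ i, VV A i ≤ 613 / 200

/-- `S = {p}`, `p` is lowest in the columns `r` and `s` -/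
def OL1A : Prop := ∀ (A : Fin 4 → Fin 4 → Option (Fin 4 → ℝ)) (P : Fin 4 → Fin 4 → ℝ)
  (a p r s : Fin 4), OLB A P a → [a, p, r, s].Nodup → Hsm P p r s → InS A P a p →
  ¬ InS A P a r → ¬ InS A P a s → (-P r a < 9 / 20 ∨ -P s a < 9 / 20) →
  -P p s ≤ -P r s → -P p r ≤ -P s r → ∑ i, VV A i ≤ 613 / 200

/-- `S = {p}`, `r` is lowest in the column `s` -/
def OL1B : Prop := ∀ (A : Fin 4 → Fin 4 → Option (Fin 4 → ℝ)) (P : Fin 4 → Fin 4 → ℝ)
  (a p r s : Fin 4), OLB A P a → [a, p, r, s].Nodup → Hsm P p r s → InS A P a p →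
  ¬ InS A P a r → ¬ InS A P a s → (-P r a < 9 / 20 ∨ -P s a < 9 / 20) →
  -P r s ≤ -P p s → ∑ i, VV A i ≤ 613 / 200

/-- `S = {p, r}`, `r` is lowest in the column `s` -/
def OL2B : Prop := ∀ (A : Fin 4 → Fin 4 → Option (Fin 4 → ℝ)) (P : Fin 4 → Fin 4 → ℝ)
  (a p r s : Fin 4), OLB A P a → [a, p, r, s].Nodup → Hsm P p r s → InS A P a p → InS A P a r →
  ¬ InS A P a s → -P s a < 9 / 20 → -P r s ≤ -P p s → ∑ i, VV A i ≤ 613 / 200

section

variable {A : Fin 4 → Fin 4 → Option (Fin 4 → ℝ)} {P : Fin 4 → Fin 4 → ℝ} {a : Fin 4}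

private theorem sa : ∀ {a p r s : Fin 4}, [a, p, r, s].Nodup → [a, p, s, r].Nodup := by decide

private theorem sb : ∀ {a p r s : Fin 4}, [a, p, r, s].Nodup → [a, r, p, s].Nodup := by decide

/-- the heights and the column `a` -/
theorem OLB.red (h : OLB A P a) {p r s : Fin 4} (hn : [a, p, r, s].Nodup)
    (H : Hsm P p r s → (-P p a < 9 / 20 ∨ -P r a < 9 / 20 ∨ -P s a < 9 / 20) →
      ∑ i, VV A i ≤ 613 / 200) : ∑ i, VV A i ≤ 613 / 200 := by
  rcases le_or_gt (9 / 10) ((P p p - 1) + (P r r - 1) + (P s s - 1)) with h1 | h1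
  · exact h.heights hn h1
  rcases le_or_gt (9 / 20) (-P p a) with h2 | h2
  · rcases le_or_gt (9 / 20) (-P r a) with h3 | h3
    · rcases le_or_gt (9 / 20) (-P s a) with h4 | h4
      · exact h.three_big hn h2 h3 h4
      · exact H h1 (Or.inr (Or.inr h4))
    · exact H h1 (Or.inr (Or.inl h3))
  · exact H h1 (Or.inl h2)

/-- the case `S = {p}` -/
theorem one_case' (hA : OL1A) (hB : OL1B) (h : OLB A P a)
    {p r s : Fin 4} (hn : [a, p, r, s].Nodup) (kp : InS A P a p) (kr : ¬ InS A P a r)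
    (ks : ¬ InS A P a s) : ∑ i, VV A i ≤ 613 / 200 := by
  refine h.red hn fun h1 h2 => ?_
  have hp := kp.big h
  have h3 : -P r a < 9 / 20 ∨ -P s a < 9 / 20 := by
    rcases h2 with h2 | h2
    · linarith
    · exact h2
  rcases le_total (-P r s) (-P p s) with h4 | h4
  · exact hB A P a p r s h hn h1 kp kr ks h3 h4
  rcases le_total (-P s r) (-P p r) with h5 | h5
  · exact hB A P a p s r h (sa hn) (by unfold Hsm at h1 ⊢; linarith) kp ks kr h3.symm h5
  · exact hA A P a p r s h hn h1 kp kr ks h3 h4 h5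

/-- the case `S = {p, r}` -/
theorem two_case' (h2 : OL2B) (h : OLB A P a) {p r s : Fin 4} (hn : [a, p, r, s].Nodup)
    (kp : InS A P a p) (kr : InS A P a r) (ks : ¬ InS A P a s) : ∑ i, VV A i ≤ 613 / 200 := by
  refine h.red hn fun h1 h3 => ?_
  have hp := kp.big h
  have hr := kr.big h
  have h4 : -P s a < 9 / 20 := by
    rcases h3 with h3 | h3 | h3
    · linarith
    · linarith
    · exact h3
  rcases le_total (-P r s) (-P p s) with h5 | h5
  · exact h2 A P a p r s h hn h1 kp kr ks h4 h5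
  · exact h2 A P a r p s h (sb hn) (by unfold Hsm at h1 ⊢; linarith) kr kp ks h4 h5

/-- **All cases.** -/
theorem ol_all' (h0 : OL0') (hA : OL1A) (hB : OL1B) (h2 : OL2B) (h : OLB A P a) {b c l : Fin 4}
    (hn : [a, b, c, l].Nodup) : ∑ i, VV A i ≤ 613 / 200 := by
  by_cases kb : InS A P a b <;> by_cases kc : InS A P a c <;> by_cases kl : InS A P a l
  · exact three_case ol3 h hn kb kc kl
  · exact two_case' h2 h hn kb kc kl
  · exact two_case' h2 h (sa hn) kb kl kc
  · exact one_case' hA hB h hn kb kc kl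
  · exact two_case' h2 h (sa (sb hn)) kc kl kb
  · exact one_case' hA hB h (sb hn) kc kb kl
  · exact one_case' hA hB h (sb (sa hn)) kl kb kc
  · refine h.red hn fun h1 h3 => h0 A P a b c l h hn h1 (fun x hx => ?_) h3
    rcases mem4 hn x with rfl | rfl | rfl | rfl
    · exact not_inS_self hx
    · exact kb hx
    · exact kc hx
    · exact kl hx

end

/-- **`CaseOneLow` from four cases.** -/
theorem caseOneLow_of' (h0 : OL0') (hA : OL1A) (hB : OL1B) (h2 : OL2B) : CaseOneLow := by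
  classical
  intro A hA' a b c l hn ha hb hc hl
  have hgood : ∀ x, x ≠ a → Good A x := by
    intro x hx
    rcases mem4 hn x with rfl | rfl | rfl | rfl
    · exact absurd rfl hx
    · exact hb
    · exact hc
    · exact hl
  obtain ⟨P, hP⟩ : ∃ P : Fin 4 → Fin 4 → ℝ, ∀ x, x ≠ a → A x x = some (P x) ∧ P x x - 1 < 3 / 5 ∧
      ∀ j F, j ≠ x → A x j = some F → 2 + F j ≤ 13 / 20 := by
    refine ⟨fun x => if hx : x = a then 0 else (hgood x hx).choose, fun x hx => ?_⟩
    simp only [dif_neg hx]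
    exact (hgood x hx).choose_spec
  exact ol_all' h0 hA hB h2
    ⟨hA', ha, fun x hx => (hP x hx).1, fun x hx => (hP x hx).2.1,
      fun x j F hx hj hF => (hP x hx).2.2 j F hj hF⟩ hn

end Pool.Agent.Helper74.TS
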