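import Pool.Agent.Helper74.TS.Col0
import Pool.Agent.Helper78.TS.Asm

/-!
# The generic column: the far cell belongs to the lowest class, or there is no far cell
-/

set_option autoImplicit false

namespace Pool.Agent.Helper74.TS

open Pool.Agent.Helper36.TS Pool.Agent.Helper83.TS Pool.Agent.Helper78.TS

section

variable {X de ca da cb db Ka Kb W : ℝ}

theorem RI_swap (h : RI X de ca da cb db W) : RI X de cb db ca da W := by
  intro w A B s u v h1 h2 h3 h4 h5 h6 h7 h8 h9 h10 h11 h12 h13 h14 h15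
  have := h w B A s v u h1 h2 h4 h3 h5 h6 h9 h10 h7 h8 h12 h11 (by linarith) h15 h14
  linarith

theorem NP_swap (h : NP X de ca da cb db W) : NP X de cb db ca da W := by
  intro s u v h1 h2 h3 h4 h5 h6
  have := h s v u h1 h2 h5 h6 h3 h4
  linarith

theorem BB_swap (h : BB X de ca da cb db Ka Kb W) : BB X de cb db ca da Kb Ka W := by
  intro w s u v h1 h2 h3 h4 h5 h6 h7 h8
  have := h w s v u h1 h2 h3 h4 h7 h8 h5 h6
  linarith

theorem Br_swap (h : Br X de ca da cb db Ka Kb W) : Br X de cb db ca da Kb Ka W :=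
  ⟨RI_swap h.rI, h.rIII, h.rII, NP_swap h.n, h.ya, h.yb, h.ka, h.kb, BB_swap h.bb⟩

variable {w s A B ua ub : ℝ}

private theorem max_le_cap {u C : ℝ} (h : u ≤ C) (hC : 0 ≤ C) : max u 0 ≤ C := max_le h hC

private theorem KA_neg (H : Br X de ca da cb db Ka Kb W) (ea : En ca da ua) (eb : En cb db ub)
    (D : Dm w s) (hA : 0 ≤ A) (h1 : w ≤ A + B) (h2 : A + B ≤ 1 + w)
    (pa : ua ≤ 1 - A + da) (pb : ub ≤ 1 - B + db) (hn : 1 - B + db < 0) :
    mj X (1 - de) de s + sx ca da ua + sx cb db ub + vl w A B ≤ W := by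
  obtain ⟨w0, w1, ws, s1⟩ := D
  have hdb := eb.d0
  have hda := ea.d0
  have hub : ub ≤ 0 := by linarith
  have ga := sx_le_st ea
  have gb := sx_le_lin (c := cb) eb.lo hub
  have gb' := mul_le_mul_of_nonneg_left pb eb.hc
  have u0 := le_max_right ua 0
  have u1 : max ua 0 ≤ 1 := max_le_cap ea.hi zero_le_one
  have pu : max ua 0 ≤ 1 - A + da := max_le_cap pa (by linarith)
  have hv := vl_a (w := w) hA (by linarith) (by linarith) h1
  have i1 := H.rII w A (1 + db) s (max ua 0) 0 w0 w1 hA (by linarith) ws s1 u0 u1 le_rfl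
    zero_le_one pu (by linarith) (by linarith) (by linarith) (by linarith)
  have i2 := H.yb w A s (max ua 0) w0 w1 hA (by linarith) ws s1 u0 u1 pu
  rw [st_zero] at i1
  rcases le_total (w * A) cb with h | h
  · have h3 := mul_nonneg (sub_nonneg.2 h) (by linarith : 0 ≤ B - (1 + db))
    nlinarith
  · have h3 := mul_nonneg (sub_nonneg.2 h) (by linarith : 0 ≤ 1 + w - A - B)
    nlinarith

/-- **Kind A for both classes.** -/
theorem KA (H : Br X de ca da cb db Ka Kb W) (ea : En ca da ua) (eb : En cb db ub)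
    (D : Dm w s) (hA : 0 ≤ A) (hB : 0 ≤ B) (h1 : w ≤ A + B) (h2 : A + B ≤ 1 + w)
    (pa : ua ≤ 1 - A + da) (pb : ub ≤ 1 - B + db) :
    mj X (1 - de) de s + sx ca da ua + sx cb db ub + vl w A B ≤ W := by
  rcases lt_or_ge (1 - B + db) 0 with nb | nb
  · exact KA_neg H ea eb D hA h1 h2 pa pb nb
  · rcases lt_or_ge (1 - A + da) 0 with na | na
    · have := KA_neg (Br_swap H) eb ea D hB (by linarith) (by linarith) pb pa na
      rw [vl_comm w B A] at this
      linarith
    · obtain ⟨w0, w1, ws, s1⟩ := D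
      have ga := sx_le_st ea
      have gb := sx_le_st eb
      have u0 := le_max_right ua 0
      have u1 : max ua 0 ≤ 1 := max_le_cap ea.hi zero_le_one
      have pu : max ua 0 ≤ 1 - A + da := max_le_cap pa na
      have v0 := le_max_right ub 0
      have v1 : max ub 0 ≤ 1 := max_le_cap eb.hi zero_le_one
      have pv : max ub 0 ≤ 1 - B + db := max_le_cap pb nb
      rcases le_total w A with hwA | hwA
      · rcases le_total w B with hwB | hwB
        · have i := H.rI w A B s _ _ w0 w1 hA hB ws s1 u0 u1 v0 v1 pu pv h2 hwA hwB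
          rw [vl_b hwA hwB]
          linarith
        · have i := H.rIII w B A s _ _ w0 w1 hB hA ws s1 v0 v1 u0 u1 pv pu (by linarith) hwB
            (by linarith)
          have hv := vl_a' (w := w) hB (by linarith) hwB h1
          linarith
      · rcases le_total A B with hAB | hAB
        · have i := H.rII w A B s _ _ w0 w1 hA hB ws s1 u0 u1 v0 v1 pu pv h2 hwA hAB
          have hv := vl_a (w := w) hA hAB hwA h1
          linarith
        · have i := H.rIII w B A s _ _ w0 w1 hB hA ws s1 v0 v1 u0 u1 pv pu (by linarith)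
            (by linarith) hAB
          have hv := vl_a' (w := w) hB hAB (by linarith) h1
          linarith

/-- the value with no far cell -/
theorem KA_zero (H : Br X de ca da cb db Ka Kb W) (ea : En ca da ua) (eb : En cb db ub)
    (s0 : 0 ≤ s) (s1 : s ≤ 1) : mj X (1 - de) de s + sx ca da ua + sx cb db ub ≤ W := by
  have := KA H ea eb (w := 0) (A := 0) (B := 0) ⟨le_rfl, by norm_num, s0, s1⟩ le_rfl le_rfl
    (by norm_num) (by norm_num) (by linarith [ea.hi, ea.d0]) (by linarith [eb.hi, eb.d0])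
  rw [vl_zero] at this
  linarith

end

section

variable {X de co dO cl dl K W w s A uo v : ℝ}

/-- kind B at the end `B = 1 + w - A` -/
theorem kb_end (H : KB X de co dO cl dl K W) (eo : En co dO uo) (D : Dm w s) (hA : 0 ≤ A)
    (hA1 : A ≤ 1 + w) (po : uo ≤ 1 - A + dO) (hv : 0 ≤ v) (hv1 : v ≤ 1) :
    mj X (1 - de) de s + sx co dO uo + st cl dl v - K * (v + w) + vl w A (1 + w - A) ≤ W := by
  obtain ⟨w0, w1, ws, s1⟩ := D
  have go := sx_le_st eo
  have hdo := eo.d0
  have u0 := le_max_right uo 0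
  have u1 : max uo 0 ≤ 1 := max_le_cap eo.hi zero_le_one
  rcases H with H | ⟨H1, H2, H3, H4⟩
  · have i := H w s (max uo 0) v w0 w1 ws s1 u0 u1 hv hv1
    have hc := vl_vm (w := w) (A := A) (B := 1 + w - A) w0 w1 hA (by linarith) (by linarith)
      (by linarith)
    linarith
  · rcases lt_or_ge (1 - A + dO) 0 with na | na
    · have i := H4 w s v w0 w1 ws s1 hv hv1
      have hc := vl_vm (w := w) (A := A) (B := 1 + w - A) w0 w1 hA (by linarith) (by linarith)
        (by linarith)
      rw [max_eq_right (by linarith : uo ≤ 0), st_zero] at go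
      linarith
    · have pu : max uo 0 ≤ 1 - A + dO := max_le_cap po na
      rcases le_total w A with hwA | hwA
      · rcases le_total A 1 with hA1' | hA1'
        · have i := H1 w A s _ v w0 w1 hA hA1 ws s1 u0 u1 hv hv1 pu hwA hA1'
          rw [vl_b hwA (by linarith)]
          linarith
        · have i := H3 w A s _ v w0 w1 hA hA1 ws s1 u0 u1 hv hv1 pu hA1'
          have hc := vl_a' (w := w) (A := A) (B := 1 + w - A) (by linarith) (by linarith)
            (by linarith) (by linarith)
          linarith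
      · have i := H2 w A s _ v w0 w1 hA hA1 ws s1 u0 u1 hv hv1 pu hwA
        have hc := vl_a (w := w) (A := A) (B := 1 + w - A) hA (by linarith) hwA (by linarith)
        linarith

/-- kind B at the end, the other slot empty -/
theorem kb_zero (H : KB X de co dO cl dl K W) (D : Dm w s) (hv : 0 ≤ v) (hv1 : v ≤ 1) :
    mj X (1 - de) de s + st cl dl v - K * (v + w) + vm w ≤ W := by
  obtain ⟨w0, w1, ws, s1⟩ := D
  rcases H with H | ⟨-, -, -, H4⟩
  · have i := H w s 0 v w0 w1 ws s1 le_rfl zero_le_one hv hv1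
    rw [st_zero] at i
    linarith
  · exact H4 w s v w0 w1 ws s1 hv hv1

end

section

variable {X de ca da cb db Ka Kb W w s A B ua ub : ℝ}

/-- **(ii)** `b` of kind B with `ub ≥ 0`, `a` of kind A -/
theorem KBb (H : Br X de ca da cb db Ka Kb W) (hKb : 0 ≤ Kb) (ea : En ca da ua)
    (eb : En cb db ub) (D : Dm w s) (hA : 0 ≤ A) (h1 : w ≤ A + B)
    (h2 : A + B ≤ 1 + w) (pa : ua ≤ 1 - A + da) (pb : 1 - B + db ≤ ub) (hub : 0 ≤ ub) :
    mj X (1 - de) de s + sx ca da ua + sx cb db ub + vl w A B - Kb * (ub + A + B - 1) ≤ W := by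
  have hdb := eb.d0
  have hub1 := eb.hi
  have w0 := D.w0
  have w1 := D.w1
  -- the right end
  have r := kb_end H.kb ea D hA (by
    rcases le_total 0 B with h | h
    · linarith
    · linarith) pa hub hub1
  rw [← sx_eq_st hub hub1] at r
  have er : vl w A (1 + w - A) - Kb * ((ub + A - 1) + (1 + w - A)) ≤
      W - (mj X (1 - de) de s + sx ca da ua + sx cb db ub) := by linarith
  have fin : vl w A B - Kb * ((ub + A - 1) + B) ≤
      W - (mj X (1 - de) de s + sx ca da ua + sx cb db ub) := by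
    rcases le_total (w - A) (1 + db - ub) with h | h
    · refine vl_conv (t1 := 1 + db - ub) (by linarith) (by linarith : B ≤ 1 + w - A) ?_ er
      have k := KA H ea eb D (A := A) (B := 1 + db - ub) hA (by linarith) (by linarith)
        (by linarith) pa (by linarith)
      have := mul_nonneg hKb (by linarith : 0 ≤ A + db)
      have e : Kb * (ub + A - 1 + (1 + db - ub)) = Kb * (A + db) := by ring
      linarith
    · refine vl_conv (t1 := w - A) (by linarith) (by linarith : B ≤ 1 + w - A) ?_ er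
      have k := KA_zero H ea eb (s := s) (by linarith [D.ws]) D.s1
      rw [vl_e hA (by linarith)]
      have := mul_nonneg hKb (by linarith : 0 ≤ ub + w - 1)
      have e : Kb * (ub + A - 1 + (w - A)) = Kb * (ub + w - 1) := by ring
      linarith
  have e : Kb * (ub + A - 1 + B) = Kb * (ub + A + B - 1) := by ring
  linarith

/-- **(ii)** `b` of kind B with `ub ≤ 0`, `a` of kind A; the slack is used with the multiple
`L = min Kb cb` -/
theorem KBb_neg (H : Br X de ca da cb db Ka Kb W) (hKb : 0 ≤ Kb) (hcb : 0 ≤ cb)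
    (ea : En ca da ua) (hdb : 0 ≤ db) (D : Dm w s) (hA : 0 ≤ A) (h2 : A + B ≤ 1 + w)
    (pa : ua ≤ 1 - A + da) (hB : 1 + db ≤ B) :
    mj X (1 - de) de s + sx ca da ua + vl w A B - min Kb cb * (A + B - 1) ≤ W := by
  obtain ⟨w0, w1, ws, s1⟩ := D
  have hda := ea.d0
  have ga := sx_le_st ea
  have u0 := le_max_right ua 0
  have u1 : max ua 0 ≤ 1 := max_le_cap ea.hi zero_le_one
  have pu : max ua 0 ≤ 1 - A + da := max_le_cap pa (by linarith)
  have hv := vl_a (w := w) hA (by linarith) (by linarith) (by linarith : w ≤ A + B)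
  have i1 := H.rII w A (1 + db) s (max ua 0) 0 w0 w1 hA (by linarith) ws s1 u0 u1 le_rfl
    zero_le_one pu (by linarith) (by linarith) (by linarith) (by linarith)
  rw [st_zero] at i1
  -- the right end
  have i2 : mj X (1 - de) de s + st ca da (max ua 0) - min Kb cb * w + w * A * (1 + w - A)
      - w ^ 2 * A / 3 ≤ W := by
    rcases le_total Kb cb with h | h
    · rw [min_eq_left h]
      rcases H.kb with H' | ⟨-, H2, -, -⟩
      · have i := H' w s (max ua 0) 0 w0 w1 ws s1 u0 u1 le_rfl zero_le_one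
        rw [st_zero] at i
        have := wA_vm w0 w1 (by linarith : A ≤ w)
        linarith
      · have i := H2 w A s (max ua 0) 0 w0 w1 hA (by linarith) ws s1 u0 u1 le_rfl zero_le_one pu
          (by linarith)
        rw [st_zero] at i
        linarith
    · rw [min_eq_right h]
      have i := H.yb w A s (max ua 0) w0 w1 hA (by linarith) ws s1 u0 u1 pu
      have := mul_nonneg hcb (by linarith : 0 ≤ db + A)
      linarith
  have L0 : 0 ≤ min Kb cb := le_min hKb hcb
  generalize min Kb cb = L at *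
  have hLa := mul_nonneg L0 (by linarith : 0 ≤ A + db)
  rcases le_total (w * A) L with h | h
  · have h3 := mul_nonneg (sub_nonneg.2 h) (by linarith : 0 ≤ B - (1 + db))
    nlinarith
  · have h3 := mul_nonneg (sub_nonneg.2 h) (by linarith : 0 ≤ 1 + w - A - B)
    nlinarith

/-- **(ii)** complete: `b` of kind B with a slack `sb`, `a` of kind A -/
theorem case_AB (H : Br X de ca da cb db Ka Kb W) (hKb : 0 ≤ Kb) (ea : En ca da ua)
    (eb : En cb db ub) (D : Dm w s) {sb : ℝ} (hA : 0 ≤ A) (h1 : w ≤ A + B)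
    (h2 : A + B ≤ 1 + w) (pa : ua ≤ 1 - A + da) (pb : 1 - B + db ≤ ub)
    (hs : ub + A + B - 1 ≤ sb) (hs0 : 0 ≤ sb) :
    mj X (1 - de) de s + sx ca da ua + sx cb db ub + vl w A B ≤ W + Kb * sb := by
  rcases le_total 0 ub with hub | hub
  · have k := KBb H hKb ea eb D hA h1 h2 pa pb hub
    have := mul_le_mul_of_nonneg_left hs hKb
    linarith
  · have hdb := eb.d0
    have k := KBb_neg H hKb eb.hc ea eb.d0 D hA h2 pa (by linarith)
    have g := sx_le_lin (c := cb) eb.lo hub
    have L0 : 0 ≤ min Kb cb := le_min hKb eb.hc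
    have L1 : min Kb cb * sb ≤ Kb * sb := mul_le_mul_of_nonneg_right (min_le_left _ _) hs0
    have L2 := mul_le_mul_of_nonneg_left hs L0
    have L3 : (cb - min Kb cb) * ub ≤ 0 :=
      mul_nonpos_of_nonneg_of_nonpos (sub_nonneg.2 (min_le_right _ _)) hub
    nlinarith

/-- **(iv)** both of kind B, both entries nonnegative -/
theorem BBpos (H : Br X de ca da cb db Ka Kb W) (hKa : 0 ≤ Ka) (hKb : 0 ≤ Kb)
    (ea : En ca da ua) (eb : En cb db ub) (D : Dm w s) (hA : 0 ≤ A) (hB : 0 ≤ B)
    (h1 : w ≤ A + B) (h2 : A + B ≤ 1 + w) (pa : 1 - A + da ≤ ua) (pb : 1 - B + db ≤ ub)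
    (hua : 0 ≤ ua) (hub : 0 ≤ ub) :
    mj X (1 - de) de s + sx ca da ua + sx cb db ub + vl w A B - Ka * (ua + A + B - 1)
      - Kb * (ub + A + B - 1) ≤ W := by
  have hda := ea.d0
  have hdb := eb.d0
  have hua1 := ea.hi
  have hub1 := eb.hi
  have w0 := D.w0
  have w1 := D.w1
  -- the right end
  have r := H.bb w s ua ub w0 w1 D.ws D.s1 hua hua1 hub hub1
  rw [← sx_eq_st hua hua1, ← sx_eq_st hub hub1] at r
  have hc := vl_vm (w := w) (A := 1 + w - B) (B := B) w0 w1 (by linarith) hB (by linarith)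
    (by linarith)
  have er : vl w (1 + w - B) B - (Ka + Kb) * ((B - 1) + (1 + w - B)) ≤
      W - (mj X (1 - de) de s + sx ca da ua + sx cb db ub) + Ka * ua + Kb * ub := by
    have e : (Ka + Kb) * ((B - 1) + (1 + w - B)) = Ka * w + Kb * w := by ring
    linarith
  have fin : vl w A B - (Ka + Kb) * ((B - 1) + A) ≤
      W - (mj X (1 - de) de s + sx ca da ua + sx cb db ub) + Ka * ua + Kb * ub := by
    rcases le_total (w - B) (1 + da - ua) with h | h
    · refine vl_conv' (t1 := 1 + da - ua) (by linarith) (by linarith : A ≤ 1 + w - B) ?_ er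
      have k := KBb H hKb ea eb D (A := 1 + da - ua) (B := B) (by linarith) (by linarith)
        (by linarith) (by linarith) pb hub
      have := mul_nonneg hKa (by linarith : 0 ≤ B + da)
      have e : (Ka + Kb) * (B - 1 + (1 + da - ua)) = Ka * (B + da) + Kb * (B + da) - Ka * ua
        - Kb * ua := by ring
      have e2 : Kb * (ub + (1 + da - ua) + B - 1) = Kb * (B + da) - Kb * ua + Kb * ub := by ring
      linarith
    · refine vl_conv' (t1 := w - B) (by linarith) (by linarith : A ≤ 1 + w - B) ?_ er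
      have k := KA_zero H ea eb (s := s) (by linarith [D.ws]) D.s1
      rw [vl_comm, vl_e hB (by linarith)]
      have k1 := mul_nonneg hKa (by linarith : 0 ≤ ua + w - 1)
      have k2 := mul_nonneg hKb (by linarith : 0 ≤ ub + w - 1)
      have e : (Ka + Kb) * (B - 1 + (w - B)) = Ka * (w - 1) + Kb * (w - 1) := by ring
      linarith
  have e : (Ka + Kb) * ((B - 1) + A) = Ka * (A + B - 1) + Kb * (A + B - 1) := by ring
  linarith

/-- **(iv)** both of kind B, `ub ≤ 0` -/
theorem BBneg (H : Br X de ca da cb db Ka Kb W) (hKa : 0 ≤ Ka) (hKb : 0 ≤ Kb)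
    (ea : En ca da ua) (eb : En cb db ub) (D : Dm w s) {sa sb : ℝ} (hA : 0 ≤ A)
    (h2 : A + B ≤ 1 + w) (pa : 1 - A + da ≤ ua) (pb : 1 - B + db ≤ ub)
    (hub : ub ≤ 0) (ha : ua + A + B - 1 ≤ sa) (hb : ub + A + B - 1 ≤ sb) (hb0 : 0 ≤ sb) :
    mj X (1 - de) de s + sx ca da ua + sx cb db ub + vl w A B ≤ W + Ka * sa + Kb * sb := by
  have hda := ea.d0
  have hdb := eb.d0
  have hua1 := ea.hi
  have w0 := D.w0
  have w1 := D.w1
  have hB1 : 1 + db ≤ B := by linarith
  have hua : 0 ≤ ua := by linarith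
  have g := sx_le_lin (c := cb) eb.lo hub
  have L0 : 0 ≤ min Kb cb := le_min hKb eb.hc
  have L1 : min Kb cb * sb ≤ Kb * sb := mul_le_mul_of_nonneg_right (min_le_left _ _) hb0
  have L2 := mul_le_mul_of_nonneg_left hb L0
  have L3 : (cb - min Kb cb) * ub ≤ 0 :=
    mul_nonpos_of_nonneg_of_nonpos (sub_nonneg.2 (min_le_right _ _)) hub
  have L4 := mul_le_mul_of_nonneg_left ha hKa
  have hneg : ∀ A', 0 ≤ A' → A' + B ≤ 1 + w → ua ≤ 1 - A' + da →
      mj X (1 - de) de s + sx ca da ua + vl w A' B - min Kb cb * (A' + B - 1) ≤ W :=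
    fun A' a1 a2 a3 => KBb_neg H hKb eb.hc ea hdb D a1 a2 a3 hB1
  have r := kb_zero H.ka D hua hua1
  rw [← sx_eq_st hua hua1] at r
  generalize min Kb cb = L at *
  have hBw : B ≤ 1 + w := by linarith
  have hc := vl_vm (w := w) (A := 1 + w - B) (B := B) w0 w1 (by linarith) (by linarith)
    (by linarith) (by linarith)
  have er : vl w (1 + w - B) B - (Ka + L) * ((B - 1) + (1 + w - B)) ≤
      W - (mj X (1 - de) de s + sx ca da ua) + Ka * ua := by
    have e : (Ka + L) * ((B - 1) + (1 + w - B)) = Ka * w + L * w := by ring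
    have := mul_nonneg L0 w0
    linarith
  have fin : vl w A B - (Ka + L) * ((B - 1) + A) ≤
      W - (mj X (1 - de) de s + sx ca da ua) + Ka * ua := by
    refine vl_conv' (t1 := 1 + da - ua) (by linarith) (by linarith : A ≤ 1 + w - B) ?_ er
    have k := hneg (1 + da - ua) (by linarith) (by linarith) (by linarith)
    have := mul_nonneg hKa (by linarith : 0 ≤ B + da)
    have e : (Ka + L) * (B - 1 + (1 + da - ua)) = Ka * (B + da) - Ka * ua
      + L * (1 + da - ua + B - 1) := by ring
    linarith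
  have e : (Ka + L) * ((B - 1) + A) = Ka * (A + B - 1) + L * (A + B - 1) := by ring
  nlinarith

/-- **The far cell belongs to the lowest class**, one branch. -/
theorem low_branch (H : Br X de ca da cb db Ka Kb W) (hKa : 0 ≤ Ka) (hKb : 0 ≤ Kb)
    (ea : En ca da ua) (eb : En cb db ub) (D : Dm w s) {sa sb : ℝ} (hA : 0 ≤ A) (hB : 0 ≤ B)
    (h1 : w ≤ A + B) (h2 : A + B ≤ 1 + w)
    (pa : ua ≤ 1 - A + da ∨ ua + A + B - 1 ≤ sa) (pb : ub ≤ 1 - B + db ∨ ub + A + B - 1 ≤ sb)
    (ha0 : 0 ≤ sa) (hb0 : 0 ≤ sb) :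
    mj X (1 - de) de s + sx ca da ua + sx cb db ub + vl w A B ≤ W + Ka * sa + Kb * sb := by
  have ka := mul_nonneg hKa ha0
  have kb := mul_nonneg hKb hb0
  have hda := ea.d0
  have hdb := eb.d0
  have hua1 := ea.hi
  have hub1 := eb.hi
  have w1 := D.w1
  rcases le_total ua (1 - A + da) with ca' | ca'
  · rcases le_total ub (1 - B + db) with cb' | cb'
    · have := KA H ea eb D hA hB h1 h2 ca' cb'
      linarith
    · rcases pb with pb | pb
      · have := KA H ea eb D hA hB h1 h2 ca' pb
        linarith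
      · have := case_AB H hKb ea eb D hA h1 h2 ca' cb' pb hb0
        linarith
  · rcases pa with pa | pa
    · rcases le_total ub (1 - B + db) with cb' | cb'
      · have := KA H ea eb D hA hB h1 h2 pa cb'
        linarith
      · rcases pb with pb | pb
        · have := KA H ea eb D hA hB h1 h2 pa pb
          linarith
        · have := case_AB H hKb ea eb D hA h1 h2 pa cb' pb hb0
          linarith
    · rcases le_total ub (1 - B + db) with cb' | cb'
      · have := case_AB (Br_swap H) hKa eb ea D hB (by linarith) (by linarith) cb' ca'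
          (by linarith : ua + B + A - 1 ≤ sa) ha0
        rw [vl_comm w B A] at this
        linarith
      · rcases pb with pb | pb
        · have := case_AB (Br_swap H) hKa eb ea D hB (by linarith) (by linarith) pb ca'
            (by linarith : ua + B + A - 1 ≤ sa) ha0
          rw [vl_comm w B A] at this
          linarith
        · rcases le_total 0 ub with hub | hub
          · rcases le_total 0 ua with hua | hua
            · have := BBpos H hKa hKb ea eb D hA hB h1 h2 ca' cb' hua hub
              have t1 := mul_le_mul_of_nonneg_left pa hKa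
              have t2 := mul_le_mul_of_nonneg_left pb hKb
              linarith
            · have := BBneg (Br_swap H) hKb hKa eb ea D hB (by linarith) cb' ca' hua
                (by linarith : ub + B + A - 1 ≤ sb) (by linarith : ua + B + A - 1 ≤ sa) ha0
              rw [vl_comm w B A] at this
              linarith
          · have := BBneg H hKa hKb ea eb D hA h2 ca' cb' hub pa pb hb0
            linarith

/-- **No far cell**, one branch. -/
theorem none_branch (H : Br X de ca da cb db Ka Kb W) (ea : En ca da ua) (eb : En cb db ub)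
    {ue : ℝ} (de0 : 0 ≤ de) (lo : -(1 - de) ≤ ue) (hi : ue ≤ 1) :
    sx X de ue + sx ca da ua + sx cb db ub ≤ W := by
  rcases le_total ue de with h | h
  · have k := KA_zero H ea eb (s := de - ue) (by linarith) (by linarith)
    have := sx_le_mj (X := X) (d := de) (u := ue) (D := de) (s := de - ue) de0 (by linarith) rfl
      hi
    linarith
  · have ga := sx_le_st ea
    have gb := sx_le_st eb
    have k := H.n ue _ _ (de0.trans h) hi (le_max_right ua 0) (max_le_cap ea.hi zero_le_one)
      (le_max_right ub 0) (max_le_cap eb.hi zero_le_one)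
    rw [← sx_eq_st (de0.trans h) hi] at k
    linarith

end

section

variable {ne na nb ka kb K La Lb Lab W de da db : ℝ}

/-- the column in the branch `ub ≤ ua` -/
theorem Cval_le {ue ua ub : ℝ} (h : ub ≤ ua) : Cval ne na nb ka kb K de da db ue ua ub =
    sx (ne - ka - kb) de ue + sx na da ua + sx (nb - K) db ub := by
  rw [Cval, min_eq_right h, sx_sub, sx_sub, sx_sub]
  ring

/-- the column in the branch `ua ≤ ub` -/
theorem Cval_ge {ue ua ub : ℝ} (h : ua ≤ ub) : Cval ne na nb ka kb K de da db ue ua ub =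
    sx (ne - ka - kb) de ue + sx (na - K) da ua + sx nb db ub := by
  rw [Cval, min_eq_left h, sx_sub, sx_sub, sx_sub]
  ring

/-- the multipliers of the slots are nonnegative -/
theorem Col_nn (H : Col (ne - ka - kb) de na da nb db K La Lb Lab W) (ha : 0 ≤ da)
    (ha1 : da < 3 / 5) (hb : 0 ≤ db) (hb1 : db < 3 / 5) :
    0 ≤ na - K ∧ 0 ≤ nb - K ∧ 0 ≤ na ∧ 0 ≤ nb := by
  have h1 := H.la.m
  have h2 := H.lb.m
  have h3 := mul_nonneg ha (by linarith : 0 ≤ 1 - da)
  have h4 := mul_nonneg hb (by linarith : 0 ≤ 1 - db)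
  have h5 := H.hκ
  exact ⟨by linarith, by linarith, by linarith, by linarith⟩

/-- the field `none` of `ColR` -/
theorem none_of_col (H : Col (ne - ka - kb) de na da nb db K La Lb Lab W) (ue ua ub : ℝ)
    (re : Row de ue) (ra : Row da ua) (rb : Row db ub) (_ : ue ≤ ua) (_ : ue ≤ ub) :
    Cval ne na nb ka kb K de da db ue ua ub ≤ W := by
  obtain ⟨c1, c2, c3, c4⟩ := Col_nn H ra.d0 ra.d1 rb.d0 rb.d1
  rcases le_total ub ua with h | h
  · rw [Cval_le h]
    exact none_branch H.br0 ⟨c3, ra.d0, ra.d1.le, ra.lo, ra.hi⟩ ⟨c2, rb.d0, rb.d1.le, rb.lo, rb.hi⟩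
      re.d0 re.lo re.hi
  · rw [Cval_ge h]
    exact none_branch H.br1 ⟨c1, ra.d0, ra.d1.le, ra.lo, ra.hi⟩ ⟨c4, rb.d0, rb.d1.le, rb.lo, rb.hi⟩
      re.d0 re.lo re.hi

/-- the field `low` of `ColR` -/
theorem low_of_col (H : Col (ne - ka - kb) de na da nb db K La Lb Lab W)
    (ue ua ub f w d al be sa sb : ℝ) (re : Row de ue) (ra : Row da ua) (rb : Row db ub)
    (_ : ue ≤ ua) (h2 : ue ≤ ub) (F : FarC f w d al be ue ua ub de da db sa sb)
    (ho : w ≤ -ue + max (de - d) 0) (hw : w ≤ 13 / 20) (_ : f ≤ 9 / 25) (ha0 : 0 ≤ sa)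
    (hb0 : 0 ≤ sb) :
    Cval ne na nb ka kb K de da db ue ua ub + f ≤ W + La * sa + Lb * sb := by
  obtain ⟨c1, c2, c3, c4⟩ := Col_nn H ra.d0 ra.d1 rb.d0 rb.d1
  obtain ⟨f1, f2, f3, f4, f5, f6⟩ := farC_vl F
  have hd0 := F.d0
  have hde := re.d0
  have hlo := re.lo
  have hmax : max (de - d) 0 ≤ de := max_le (by linarith) hde
  have D : Dm w (de - ue) := ⟨F.w0.le, hw, by linarith, by linarith⟩
  have hue := sx_le_mj (X := ne - ka - kb) (d := de) (u := ue) (D := de) (s := de - ue) hde
    (by linarith [D.w0, D.ws]) rfl re.hi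
  have hmx : min ua (2 - w) = ua := min_eq_left (by linarith [ra.hi])
  have hmy : min ub (2 - w) = ub := min_eq_left (by linarith [rb.hi])
  have pa : ua ≤ 1 - (1 - al) + da ∨ ua + (1 - al) + (1 - be) - 1 ≤ sa := by
    rcases F.capx with h | h
    · rw [hmx] at h
      left
      linarith
    · right
      exact slack_kindB F hde ra.hi ho h
  have pb : ub ≤ 1 - (1 - be) + db ∨ ub + (1 - al) + (1 - be) - 1 ≤ sb := by
    rcases F.capy with h | h
    · rw [hmy] at h
      left
      linarith
    · right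
      have := F.sum
      rw [hmy, min_eq_left h2] at h
      rcases max_cases (de - d) 0 with ⟨e, -⟩ | ⟨e, -⟩ <;> rw [e] at ho <;> linarith
  rcases le_total ub ua with h | h
  · rw [Cval_le h]
    have := low_branch H.br0 H.hKa H.hKb ⟨c3, ra.d0, ra.d1.le, ra.lo, ra.hi⟩
      ⟨c2, rb.d0, rb.d1.le, rb.lo, rb.hi⟩ D f2.le f3.le f4.le f5 pa pb ha0 hb0
    linarith
  · rw [Cval_ge h]
    have := low_branch H.br1 H.hKa H.hKb ⟨c1, ra.d0, ra.d1.le, ra.lo, ra.hi⟩
      ⟨c4, rb.d0, rb.d1.le, rb.lo, rb.hi⟩ D f2.le f3.le f4.le f5 pa pb ha0 hb0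
    linarith

end

end Pool.Agent.Helper74.TS
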