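import Pool.Agent.Helper83.Cert.Check

set_option autoImplicit false
set_option maxRecDepth 100000

namespace Pool.Agent.Helper74.TS.RX

open Pool.Agent.Helper83.Cert

theorem x2N {d a b : ℝ} (h1 : 0 ≤ d) (ha : 0 ≤ a) (hb : 0 ≤ b) (h2 : 0 ≤ 3 / 5 - d) (h3 : 0 ≤ -d + a) (h4 : 0 ≤ -d + b) (h5 : 0 ≤ 1 - a - b) :
    0 ≤ 46 / 75 + 42 / 25 * d - 37 / 25 * a - 29 / 25 * b - d ^ 2 + a ^ 2 + a * b + b ^ 2 - 1 / 3 * d ^ 3 + d ^ 2 * a + d ^ 2 * b - d * a ^ 2 - d * a * b - d * b ^ 2 := by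
  have h := cert (y := yv d a b 0 0 0 0 0 0)
    (gs := [(.v 2),
      (.v 3),
      (.v 5),
      (.add (.c (3)) (.mul (.c (-5)) (.v 2))),
      (.add (.mul (.c (-1)) (.v 2)) (.v 3)),
      (.add (.mul (.c (-1)) (.v 2)) (.v 5)),
      (.add (.c (1)) (.add (.mul (.c (-1)) (.v 3)) (.mul (.c (-1)) (.v 5))))])
    (p := .mul (.c 2000000000) (.add (.add (.add (.c (46)) (.add (.mul (.c (126)) (.v 2)) (.mul (.c (-111)) (.v 3)))) (.add (.add (.mul (.c (-75)) (.mul (.v 2) (.v 2))) (.mul (.c (-87)) (.v 5))) (.add (.mul (.c (-25)) (.mul (.mul (.v 2) (.v 2)) (.v 2))) (.mul (.c (75)) (.mul (.v 3) (.v 3)))))) (.add (.add (.mul (.c (75)) (.mul (.mul (.v 2) (.v 2)) (.v 3))) (.add (.mul (.c (75)) (.mul (.v 3) (.v 5))) (.mul (.c (-75)) (.mul (.mul (.v 2) (.v 3)) (.v 3))))) (.add (.add (.mul (.c (75)) (.mul (.mul (.v 2) (.v 2)) (.v 5))) (.mul (.c (75)) (.mul (.v 5) (.v 5)))) (.add (.mul (.c (-75)) (.mul (.mul (.v 2) (.v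 3)) (.v 5))) (.mul (.c (-75)) (.mul (.mul (.v 2) (.v 5)) (.v 5))))))))
    (e := (.add (.add (.add (.mul (.pp [(1, 10829100)]) (.sq [(1, -11), (3, -4), (5, 50)])) (.add (.mul (.g 0) (.add (.add (.pp [(1, 117865350000)]) (.add (.mul (.g 5) (.add (.add (.pp [(1, 38341200000)]) (.mul (.g 6) (.add (.pp [(1, 123215850000)]) (.add (.mul (.g 5) (.pp [(1, 583800000)])) (.mul (.g 6) (.pp [(1, 7741050000)])))))) (.add (.mul (.g 0) (.add (.pp [(1, 25095900000)]) (.mul (.g 4) (.pp [(1, 24450000)])))) (.mul (.g 5) (.mul (.g 5) (.pp [(1, 13050000)])))))) (.mul (.g 0) (.add (.pp [(1, 13266450000)]) (.mul (.g 4) (.add (.pp [(1, 24921600000)]) (.mul (.g 6) (.pp [(1, 567750000)])))))))) (.add (.add (.mul (.g 6) (.add (.pp [(1, 170862450000)]) (.mul (.g 6) (.pp [(1, 104162850000)])))) (.mul (.g 1) (.mul (.g 1) (.mul (.g 1) (.pp [(1, 22041000000)]))))) (.add (.mul (.g 2) (.mul (.g 2) (.pp [(1, 24847350000)]))) (.mul (.g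 4) (.mul (.g 4) (.mul (.g 4) (.pp [(1, 13050000)])))))))) (.mul (.g 4) (.add (.add (.mul (.pp [(1, 3943755)]) (.sq [(1, -29), (5, 100)])) (.mul (.pp [(1, 2528520)]) (.sq [(1, -49), (3, 100), (5, -14)]))) (.add (.mul (.g 6) (.add (.mul (.pp [(1, 595095)]) (.sq [(1, -45), (3, 100), (5, -47)])) (.mul (.g 6) (.mul (.g 6) (.pp [(1, 1928550000)]))))) (.add (.mul (.g 2) (.mul (.pp [(1, 46155)]) (.sq [(1, -21), (3, 1), (5, 100)]))) (.mul (.g 4) (.mul (.pp [(1, 834630)]) (.sq [(1, -85), (3, 100), (5, 89)]))))))))) (.add (.add (.mul (.g 1) (.add (.add (.mul (.pp [(1, 23849280)]) (.sq [(1, -12), (3, 25), (5, -15)])) (.mul (.g 1) (.mul (.pp [(1, 2892045)]) (.sq [(1, -85), (3, 100), (5, 89)])))) (.add (.mul (.g 3) (.mul (.pp [(1, 4237632)]) (.sq [(1, -12), (3, 25), (5, -15)]))) (.mul (.g 6) (.mul (.g 6) (.mul (.g 6) (.pp [(1, 119431650000)]))))))) (.mul (.g 2) (.add (.mul (.pp [(1, 10922400)]) (.sq [(1, -4), (3, -2),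 (5, 25)])) (.add (.mul (.g 6) (.add (.mul (.pp [(1, 8958900)]) (.sq [(1, -88), (3, 83), (5, 100)])) (.mul (.pp [(1, 728880)]) (.sq [(1, -3), (3, 22), (5, -25)])))) (.mul (.g 3) (.mul (.pp [(1, 3185040)]) (.sq [(1, -4), (3, -2), (5, 25)]))))))) (.add (.mul (.g 5) (.add (.mul (.pp [(1, 14136810)]) (.sq [(1, -79), (3, 100), (5, 84)])) (.mul (.pp [(1, 11150865)]) (.sq [(1, -60), (3, 100), (5, -1)])))) (.mul (.g 6) (.mul (.g 6) (.mul (.g 6) (.mul (.g 6) (.pp [(1, 90043050000)])))))))) (.pp [(1, 646628900), (2, 1587060), (3, 1344006), (4, 1448250), (5, 1342950), (6, 1602165), (8, 1450000), (9, 1531500), (10, 1453950), (12, 1410000), (15, 1809930), (16, 1650000), (18, 1239000), (20, 1701900), (24, 1350000), (25, 1682040), (27, 1710000), (30, 1337640), (36, 1650000), (40, 1350000), (45, 1585650), (50, 1644150), (54, 1650000), (60, 1386000), (75, 1322115), (81, 1350000), (90, 1697955), (100, 1495770), (125, 1409775),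 (135, 1235865), (150, 1633605), (225, 1360200), (250, 1385145), (375, 1536855), (625, 1500000)])))
    (by decide +kernel) (yv_nonneg h1 ha hb (le_refl 0) (le_refl 0) (le_refl 0) (le_refl 0) (le_refl 0) (le_refl 0))
    (by
      simp only [List.forall_mem_cons, exadd, exsub, exmul, exc, exv2, exv3, exv5]
      push_cast
      refine ⟨?_, ?_, ?_, ?_, ?_, ?_, ?_, fun _ hh => absurd hh List.not_mem_nil⟩
      · linarith only [h1]
      · linarith only [ha]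
      · linarith only [hb]
      · linarith only [h2]
      · linarith only [h3]
      · linarith only [h4]
      · linarith only [h5]
    )
  simp only [exadd, exsub, exmul, exc, exv2, exv3, exv5] at h
  push_cast at h
  linarith only [h]

theorem x2P1 {d a b : ℝ} (h1 : 0 ≤ d) (ha : 0 ≤ a) (hb : 0 ≤ b) (h2 : 0 ≤ 3 / 5 - d) (h4 : 0 ≤ d - a) (h5 : 0 ≤ -d + a + b) (h6 : 0 ≤ 1 - b) :
    0 ≤ 46 / 75 + 143 / 100 * d - 123 / 100 * a - 29 / 25 * b - 3 / 2 * d ^ 2 + d * a + 1 / 2 * a ^ 2 + a * b + b ^ 2 - 1 / 4 * d ^ 3 + 3 / 4 * d ^ 2 * a + d ^ 2 * b - 3 / 4 * d * a ^ 2 - d * a * b - d * b ^ 2 - 1 / 12 * a ^ 3 := by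
  have h := cert (y := yv d a b 0 0 0 0 0 0)
    (gs := [(.v 2),
      (.v 3),
      (.v 5),
      (.add (.c (3)) (.mul (.c (-5)) (.v 2))),
      (.add (.v 2) (.mul (.c (-1)) (.v 3))),
      (.add (.mul (.c (-1)) (.v 2)) (.add (.v 3) (.v 5))),
      (.add (.c (1)) (.mul (.c (-1)) (.v 5)))])
    (p := .mul (.c 250000) (.add (.add (.add (.add (.c (184)) (.mul (.c (429)) (.v 2))) (.add (.mul (.c (-369)) (.v 3)) (.mul (.c (-450)) (.mul (.v 2) (.v 2))))) (.add (.add (.mul (.c (-348)) (.v 5)) (.mul (.c (300)) (.mul (.v 2) (.v 3)))) (.add (.mul (.c (-75)) (.mul (.mul (.v 2) (.v 2)) (.v 2))) (.mul (.c (150)) (.mul (.v 3) (.v 3)))))) (.add (.add (.add (.mul (.c (225)) (.mul (.mul (.v 2) (.v 2)) (.v 3))) (.mul (.c (300)) (.mul (.v 3) (.v 5)))) (.add (.mul (.c (-225)) (.mul (.mul (.v 2) (.v 3)) (.v 3))) (.mul (.c (300)) (.mul (.mul (.v 2) (.v 2)) (.v 5))))) (.add (.add (.mul (.c (300)) (.mul (.v 5) (.v 5))) (.mul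 (.c (-25)) (.mul (.mul (.v 3) (.v 3)) (.v 3)))) (.add (.mul (.c (-300)) (.mul (.mul (.v 2) (.v 3)) (.v 5))) (.mul (.c (-300)) (.mul (.mul (.v 2) (.v 5)) (.v 5))))))))
    (e := (.add (.add (.add (.mul (.g 4) (.add (.add (.pp [(1, 7079475)]) (.add (.mul (.g 4) (.add (.add (.mul (.g 4) (.add (.mul (.g 4) (.pp [(1, 1034325)])) (.mul (.g 6) (.pp [(1, 18009225)])))) (.mul (.g 1) (.mul (.g 1) (.pp [(1, 11849475)])))) (.add (.mul (.g 3) (.mul (.g 3) (.pp [(1, 954168)]))) (.mul (.g 5) (.pp [(1, 20160675)]))))) (.mul (.g 6) (.add (.pp [(1, 64902225)]) (.add (.mul (.g 6) (.add (.mul (.g 5) (.pp [(1, 8440050)])) (.mul (.g 6) (.pp [(1, 25835550)])))) (.mul (.g 1) (.mul (.g 1) (.pp [(1, 21399675)])))))))) (.add (.mul (.g 3) (.add (.pp [(1, 12561765)]) (.mul (.g 3) (.pp [(1, 143952)])))) (.add (.mul (.g 5) (.mul (.g 5) (.add (.mul (.g 0) (.pp [(1, 3300225)])) (.mul (.g 5) (.pp [(1, 12884550)]))))) (.mul (.g 1) (.pp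 [(1, 8166750)])))))) (.mul (.g 6) (.add (.mul (.g 6) (.add (.mul (.g 6) (.add (.mul (.g 3) (.pp [(1, 9930060)])) (.add (.mul (.g 5) (.pp [(1, 7211100)])) (.mul (.g 6) (.pp [(1, 1210350)]))))) (.add (.mul (.g 0) (.mul (.g 3) (.pp [(1, 6102675)]))) (.mul (.g 1) (.mul (.g 1) (.pp [(1, 30515400)])))))) (.add (.mul (.g 1) (.add (.pp [(1, 37336275)]) (.mul (.g 1) (.mul (.g 3) (.pp [(1, 5001045)]))))) (.mul (.g 5) (.add (.mul (.g 0) (.mul (.g 2) (.pp [(1, 34216950)]))) (.mul (.g 5) (.mul (.g 5) (.pp [(1, 756075)]))))))))) (.add (.mul (.g 0) (.add (.mul (.g 3) (.add (.add (.pp [(1, 3001485)]) (.mul (.g 0) (.mul (.g 2) (.pp [(1, 5001645)])))) (.add (.mul (.g 1) (.mul (.g 1) (.pp [(1, 750)]))) (.mul (.g 5) (.mul (.g 5) (.pp [(1, 7141470)])))))) (.mul (.g 0) (.mul (.g 2) (.mul (.g 2) (.pp [(1, 16857450)])))))) (.add (.mul (.g 2) (.mul (.g 2) (.add (.mul (.g 1) (.add (.mul (.g 1) (.pp [(1, 18845625)])) (.mul (.g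 2) (.pp [(1, 4967550)])))) (.mul (.g 2) (.mul (.g 2) (.pp [(1, 6756075)])))))) (.mul (.g 3) (.mul (.g 5) (.mul (.g 5) (.mul (.g 5) (.pp [(1, 4080480)])))))))) (.pp [(1, 14999470), (2, 807), (3, 738), (4, 723), (5, 840), (6, 789), (8, 795), (9, 753), (10, 675), (12, 645), (15, 750), (16, 750), (18, 825), (20, 765), (24, 675), (25, 660), (27, 710), (30, 870), (36, 900), (40, 675), (45, 615), (50, 810), (54, 675), (60, 900), (75, 705), (81, 750), (90, 600), (100, 825), (125, 765), (135, 825), (150, 525), (225, 900), (250, 675), (375, 825), (625, 750)])))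
    (by decide +kernel) (yv_nonneg h1 ha hb (le_refl 0) (le_refl 0) (le_refl 0) (le_refl 0) (le_refl 0) (le_refl 0))
    (by
      simp only [List.forall_mem_cons, exadd, exsub, exmul, exc, exv2, exv3, exv5]
      push_cast
      refine ⟨?_, ?_, ?_, ?_, ?_, ?_, ?_, fun _ hh => absurd hh List.not_mem_nil⟩
      · linarith only [h1]
      · linarith only [ha]
      · linarith only [hb]
      · linarith only [h2]
      · linarith only [h4]
      · linarith only [h5]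
      · linarith only [h6]
    )
  simp only [exadd, exsub, exmul, exc, exv2, exv3, exv5] at h
  push_cast at h
  linarith only [h]

theorem x2Q1 {d t b w : ℝ} (h1 : 0 ≤ d) (ht : 0 ≤ t) (hb : 0 ≤ b) (hw : 0 ≤ w) (h2 : 0 ≤ 3 / 5 - d) (h4 : 0 ≤ 1 - d - t) (h5 : 0 ≤ -d - t + b) (h6 : 0 ≤ 1 - b) (h7 : 0 ≤ d + t - w) (h8 : 0 ≤ 13 / 20 - w) :
    0 ≤ 46 / 75 + 42 / 25 * d + 37 / 25 * t - 29 / 25 * b - 1 / 4 * w - d ^ 2 + t ^ 2 - t * b + b ^ 2 - 1 / 2 * w ^ 2 - 1 / 3 * d ^ 3 - d ^ 2 * t + d ^ 2 * b - d * t ^ 2 + d * t * b - d * b ^ 2 - 1 / 3 * t ^ 3 + 1 / 12 * w ^ 3 := by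
  have h := cert (y := yv d t b w 0 0 0 0 0)
    (gs := [(.v 2),
      (.v 3),
      (.v 5),
      (.v 7),
      (.add (.c (3)) (.mul (.c (-5)) (.v 2))),
      (.add (.c (1)) (.add (.mul (.c (-1)) (.v 2)) (.mul (.c (-1)) (.v 3)))),
      (.add (.mul (.c (-1)) (.v 2)) (.add (.mul (.c (-1)) (.v 3)) (.v 5))),
      (.add (.c (1)) (.mul (.c (-1)) (.v 5))),
      (.add (.v 2) (.add (.v 3) (.mul (.c (-1)) (.v 7)))),
      (.add (.c (13)) (.mul (.c (-20)) (.v 7)))])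
    (p := .mul (.c 1000000000) (.add (.add (.add (.add (.c (184)) (.mul (.c (504)) (.v 2))) (.add (.mul (.c (444)) (.v 3)) (.mul (.c (-300)) (.mul (.v 2) (.v 2))))) (.add (.add (.mul (.c (-348)) (.v 5)) (.mul (.c (-75)) (.v 7))) (.add (.mul (.c (-100)) (.mul (.mul (.v 2) (.v 2)) (.v 2))) (.add (.mul (.c (300)) (.mul (.v 3) (.v 3))) (.mul (.c (-300)) (.mul (.mul (.v 2) (.v 2)) (.v 3))))))) (.add (.add (.add (.mul (.c (-300)) (.mul (.v 3) (.v 5))) (.mul (.c (-300)) (.mul (.mul (.v 2) (.v 3)) (.v 3)))) (.add (.mul (.c (300)) (.mul (.mul (.v 2) (.v 2)) (.v 5))) (.mul (.c (300)) (.mul (.v 5) (.v 5))))) (.add (.add (.mul (.c (-100)) (.mul (.mul (.v 3) (.v 3)) (.v 3))) (.mul (.c (300)) (.mul (.mul (.v 2) (.v 3)) (.v 5)))) (.add (.mul (.c (-150)) (.mul (.v 7) (.v 7))) (.add (.mul (.c (-300)) (.mul (.mul (.v 2) (.v 5)) (.v 5))) (.mul (.c (25)) (.mul (.mul (.v 7) (.v 7)) (.v 7)))))))))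
    (e := (.add (.add (.add (.mul (.g 1) (.add (.add (.mul (.g 8) (.add (.add (.mul (.g 1) (.add (.add (.mul (.g 1) (.pp [(1, 155368500000)])) (.mul (.g 4) (.pp [(1, 8575800000)]))) (.add (.mul (.g 5) (.pp [(1, 336030300000)])) (.add (.mul (.g 6) (.pp [(1, 43419000000)])) (.mul (.g 9) (.pp [(1, 5301870000)])))))) (.mul (.g 6) (.add (.mul (.g 3) (.pp [(1, 294045000000)])) (.add (.mul (.g 6) (.pp [(1, 28320600000)])) (.mul (.g 8) (.pp [(1, 252414300000)])))))) (.add (.mul (.g 0) (.add (.mul (.g 0) (.pp [(1, 827933400000)])) (.mul (.g 4) (.pp [(1, 125888940000)])))) (.mul (.g 8) (.add (.mul (.g 3) (.pp [(1, 19897200000)])) (.mul (.g 8) (.pp [(1, 14499900000)]))))))) (.add (.mul (.g 0) (.add (.add (.mul (.g 4) (.add (.mul (.g 2) (.pp [(1, 8162100000)])) (.add (.mul (.g 7) (.pp [(1, 25687260000)])) (.mul (.g 9) (.pp [(1, 586389000)]))))) (.mul (.g 1) (.mul (.g 1) (.pp [(1, 79756500000)])))) (.add (.mul (.g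 2) (.mul (.g 3) (.pp [(1, 289184700000)]))) (.add (.mul (.g 5) (.pp [(1, 59863800000)])) (.mul (.g 6) (.pp [(1, 116208600000)])))))) (.mul (.g 1) (.add (.mul (.g 1) (.add (.mul (.g 4) (.pp [(1, 15950700000)])) (.mul (.g 5) (.pp [(1, 118699500000)])))) (.add (.mul (.g 3) (.add (.mul (.g 2) (.pp [(1, 212695200000)])) (.mul (.g 6) (.pp [(1, 69414900000)])))) (.mul (.g 5) (.mul (.g 6) (.pp [(1, 325131900000)])))))))) (.add (.mul (.g 6) (.add (.mul (.pp [(1, 787890)]) (.sq [(1, 78), (2, 100), (3, 70), (5, 39), (7, 70)])) (.mul (.g 6) (.add (.mul (.g 3) (.pp [(1, 166818900000)])) (.mul (.g 9) (.pp [(1, 9212685000)])))))) (.add (.mul (.g 3) (.mul (.g 5) (.mul (.g 5) (.pp [(1, 48137700000)])))) (.mul (.g 7) (.pp [(1, 390972000000)])))))) (.add (.mul (.g 0) (.add (.add (.mul (.g 4) (.add (.pp [(1, 898140000)]) (.add (.mul (.g 2) (.add (.mul (.g 5) (.pp [(1, 50476500000)])) (.add (.mul (.g 6) (.pp [(1, 1015920000)]))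 (.mul (.g 8) (.pp [(1, 80687520000)]))))) (.mul (.g 3) (.mul (.g 4) (.pp [(1, 1102488000)])))))) (.add (.mul (.g 7) (.add (.pp [(1, 144815700000)]) (.add (.mul (.g 5) (.mul (.g 7) (.pp [(1, 31640700000)]))) (.mul (.g 6) (.pp [(1, 158987100000)]))))) (.mul (.g 8) (.add (.mul (.pp [(1, 17154210)]) (.sq [(1, 1), (2, -46), (3, 100), (5, 9), (7, -21)])) (.add (.mul (.pp [(1, 7054680)]) (.sq [(1, 100), (2, -29), (3, -29), (5, 87), (7, -29)])) (.mul (.g 0) (.mul (.g 9) (.pp [(1, 830340000)])))))))) (.add (.add (.mul (.g 0) (.mul (.g 0) (.mul (.g 6) (.pp [(1, 88334700000)])))) (.mul (.g 3) (.mul (.g 3) (.mul (.g 3) (.pp [(1, 21322200000)]))))) (.add (.mul (.g 5) (.pp [(1, 199056300000)])) (.mul (.g 9) (.pp [(1, 1872300000)])))))) (.mul (.g 3) (.add (.add (.mul (.g 9) (.add (.pp [(1, 2420910000)]) (.mul (.g 9) (.add (.mul (.g 2) (.pp [(1, 14139000)])) (.mul (.g 9) (.pp [(1, 372825)])))))) (.mul (.g 3) (.add (.mul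 (.pp [(1, 403950)]) (.sq [(1, 12), (2, 54), (3, -31), (5, 18), (7, 100)])) (.mul (.g 2) (.mul (.g 3) (.pp [(1, 7039800000)])))))) (.add (.mul (.g 8) (.add (.pp [(1, 122192100000)]) (.mul (.pp [(1, 6271530)]) (.sq [(1, 25), (2, 43), (3, 100), (5, 2), (7, -13)])))) (.mul (.g 5) (.mul (.pp [(1, 14033280)]) (.sq [(1, -7), (2, 5), (3, 100), (5, -20), (7, 38)])))))))) (.add (.add (.mul (.g 6) (.add (.mul (.g 6) (.add (.add (.pp [(1, 10077900000)]) (.mul (.pp [(1, 658620)]) (.sq [(1, 100), (2, -74), (3, -39), (5, 51), (7, -3)]))) (.add (.mul (.pp [(1, 706830)]) (.sq [(1, 29), (2, -10), (3, 83), (5, -27), (7, 100)])) (.add (.mul (.g 4) (.mul (.g 5) (.pp [(1, 7025160000)]))) (.mul (.g 6) (.mul (.g 7) (.pp [(1, 2231400000)]))))))) (.add (.mul (.g 2) (.mul (.g 4) (.mul (.g 5) (.pp [(1, 11946180000)])))) (.mul (.g 9) (.mul (.pp [(1, 30708)]) (.sq [(1, -17), (2, 100), (3, 56), (5, -83), (7, -2)])))))) (.mul (.g 8)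 (.add (.mul (.pp [(1, 2003010)]) (.sq [(2, 100), (3, -81), (5, -27), (7, -55)])) (.add (.mul (.g 2) (.add (.mul (.pp [(1, 8715090)]) (.sq [(1, -16), (2, 100), (3, -39), (7, 37)])) (.add (.mul (.pp [(1, 1811370)]) (.sq [(1, 100), (2, 81), (3, 22), (5, -38), (7, -38)])) (.mul (.g 4) (.mul (.g 4) (.pp [(1, 8927280000)])))))) (.mul (.g 7) (.add (.pp [(1, 91897200000)]) (.mul (.pp [(1, 1435050)]) (.sq [(1, -53), (2, 100), (3, 45), (5, 87), (7, -7)])))))))) (.add (.mul (.g 5) (.add (.mul (.g 2) (.mul (.pp [(1, 39251880)]) (.sq [(1, -4), (2, 50), (3, 37), (5, 19), (7, 19)]))) (.add (.mul (.g 5) (.mul (.pp [(1, 22522890)]) (.sq [(1, -5), (2, 18), (3, 100), (5, 32), (7, -37)]))) (.mul (.g 7) (.mul (.pp [(1, 2476560)]) (.sq [(1, -84), (2, -68), (3, 4), (5, 100), (7, 49)])))))) (.mul (.g 7) (.mul (.g 7) (.pp [(1, 141229200000)])))))) (.pp [(1, 24733120390), (2, 2745126), (3, 3004686), (4, 2937150), (5, 3140124),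 (6, 2862834), (7, 3270825), (8, 3135080), (9, 2977284), (10, 3324138), (12, 3401220), (14, 3214812), (15, 2836194), (16, 2903280), (18, 3355164), (20, 2498160), (21, 2845662), (24, 2740200), (25, 2720682), (27, 3074024), (28, 2954700), (30, 2123256), (35, 2692818), (36, 2777310), (40, 2567670), (42, 2970384), (45, 2730672), (49, 2738040), (50, 2962716), (54, 2788500), (56, 2883990), (60, 2827290), (63, 3181224), (70, 3145128), (75, 3320640), (81, 2848110), (84, 2742870), (90, 3631260), (98, 2917236), (100, 3661500), (105, 3246144), (125, 3126744), (126, 2306400), (135, 3170640), (140, 3684270), (147, 3092556), (150, 3723000), (175, 3007272), (189, 2807160), (196, 3070710), (210, 3555060), (225, 3141930), (245, 3133284), (250, 2678790), (294, 2771670), (315, 3365280), (343, 3321880), (350, 2757030), (375, 2724960), (441, 2778900), (490, 3033060), (525, 2622120), (625, 3050310), (686, 3273060), (735, 3145560),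 (875, 3092790), (1029, 2923110), (1225, 3007320), (1715, 2976120), (2401, 2988570)])))
    (by decide +kernel) (yv_nonneg h1 ht hb hw (le_refl 0) (le_refl 0) (le_refl 0) (le_refl 0) (le_refl 0))
    (by
      simp only [List.forall_mem_cons, exadd, exsub, exmul, exc, exv2, exv3, exv5, exv7]
      push_cast
      refine ⟨?_, ?_, ?_, ?_, ?_, ?_, ?_, ?_, ?_, ?_, fun _ hh => absurd hh List.not_mem_nil⟩
      · linarith only [h1]
      · linarith only [ht]
      · linarith only [hb]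
      · linarith only [hw]
      · linarith only [h2]
      · linarith only [h4]
      · linarith only [h5]
      · linarith only [h6]
      · linarith only [h7]
      · linarith only [h8]
    )
  simp only [exadd, exsub, exmul, exc, exv2, exv3, exv5, exv7] at h
  push_cast at h
  linarith only [h]

theorem x2P2 {d a b : ℝ} (h1 : 0 ≤ d) (ha : 0 ≤ a) (hb : 0 ≤ b) (h2 : 0 ≤ 3 / 5 - d) (h4 : 0 ≤ d - a) (h5 : 0 ≤ -d + a + b) (h6 : 0 ≤ 1 - b) :
    0 ≤ 46 / 75 + 143 / 100 * d - 91 / 100 * a - 37 / 25 * b - 3 / 2 * d ^ 2 + d * a + 1 / 2 * a ^ 2 + a * b + b ^ 2 - 1 / 4 * d ^ 3 + 3 / 4 * d ^ 2 * a + d ^ 2 * b - 3 / 4 * d * a ^ 2 - d * a * b - d * b ^ 2 - 1 / 12 * a ^ 3 := by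
  have h := cert (y := yv d a b 0 0 0 0 0 0)
    (gs := [(.v 2),
      (.v 3),
      (.v 5),
      (.add (.c (3)) (.mul (.c (-5)) (.v 2))),
      (.add (.v 2) (.mul (.c (-1)) (.v 3))),
      (.add (.mul (.c (-1)) (.v 2)) (.add (.v 3) (.v 5))),
      (.add (.c (1)) (.mul (.c (-1)) (.v 5)))])
    (p := .mul (.c 250000) (.add (.add (.add (.add (.c (184)) (.mul (.c (429)) (.v 2))) (.add (.mul (.c (-273)) (.v 3)) (.mul (.c (-450)) (.mul (.v 2) (.v 2))))) (.add (.add (.mul (.c (-444)) (.v 5)) (.mul (.c (300)) (.mul (.v 2) (.v 3)))) (.add (.mul (.c (-75)) (.mul (.mul (.v 2) (.v 2)) (.v 2))) (.mul (.c (150)) (.mul (.v 3) (.v 3)))))) (.add (.add (.add (.mul (.c (225)) (.mul (.mul (.v 2) (.v 2)) (.v 3))) (.mul (.c (300)) (.mul (.v 3) (.v 5)))) (.add (.mul (.c (-225)) (.mul (.mul (.v 2) (.v 3)) (.v 3))) (.mul (.c (300)) (.mul (.mul (.v 2) (.v 2)) (.v 5))))) (.add (.add (.mul (.c (300)) (.mul (.v 5) (.v 5))) (.mul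 (.c (-25)) (.mul (.mul (.v 3) (.v 3)) (.v 3)))) (.add (.mul (.c (-300)) (.mul (.mul (.v 2) (.v 3)) (.v 5))) (.mul (.c (-300)) (.mul (.mul (.v 2) (.v 5)) (.v 5))))))))
    (e := (.add (.add (.add (.mul (.g 4) (.add (.add (.mul (.g 4) (.add (.mul (.g 1) (.add (.mul (.g 1) (.pp [(1, 34090125)])) (.mul (.g 2) (.pp [(1, 10699725)])))) (.add (.mul (.g 3) (.add (.mul (.g 2) (.pp [(1, 6634365)])) (.mul (.g 3) (.pp [(1, 1224462)])))) (.mul (.g 5) (.add (.mul (.g 4) (.pp [(1, 3694650)])) (.mul (.g 6) (.pp [(1, 448950)]))))))) (.add (.mul (.g 1) (.add (.pp [(1, 7894275)]) (.mul (.g 1) (.add (.mul (.g 1) (.pp [(1, 22728000)])) (.mul (.g 6) (.pp [(1, 25623900)])))))) (.mul (.g 3) (.add (.pp [(1, 12221340)]) (.mul (.g 3) (.pp [(1, 511731)])))))) (.add (.mul (.g 6) (.add (.pp [(1, 2972100)]) (.mul (.g 6) (.mul (.g 6) (.pp [(1, 43305375)]))))) (.add (.mul (.g 0) (.mul (.g 2) (.mul (.g 2) (.pp [(1, 26267700)])))) (.mul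 (.g 5) (.mul (.g 5) (.mul (.g 5) (.pp [(1, 7668225)])))))))) (.mul (.g 6) (.add (.mul (.g 6) (.add (.add (.mul (.g 6) (.add (.mul (.g 3) (.pp [(1, 12067890)])) (.add (.mul (.g 5) (.pp [(1, 19296300)])) (.mul (.g 6) (.pp [(1, 9547425)]))))) (.mul (.g 0) (.mul (.g 3) (.pp [(1, 5819895)])))) (.add (.mul (.g 1) (.mul (.g 1) (.pp [(1, 32056875)]))) (.mul (.g 2) (.pp [(1, 16503750)]))))) (.add (.mul (.g 0) (.add (.pp [(1, 71100600)]) (.mul (.g 2) (.mul (.g 2) (.pp [(1, 14755050)]))))) (.mul (.g 1) (.add (.mul (.g 2) (.mul (.g 2) (.pp [(1, 26661750)]))) (.mul (.g 5) (.mul (.g 5) (.pp [(1, 18924225)]))))))))) (.add (.mul (.g 3) (.add (.mul (.g 0) (.add (.add (.pp [(1, 3592575)]) (.mul (.g 0) (.mul (.g 0) (.pp [(1, 1287645)])))) (.add (.mul (.g 1) (.pp [(1, 4228905)])) (.mul (.g 5) (.mul (.g 5) (.pp [(1, 591945)])))))) (.mul (.g 1) (.mul (.g 1) (.add (.mul (.g 2) (.pp [(1, 1970895)])) (.mul (.g 3) (.pp [(1, 257379)])))))))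 (.add (.mul (.g 2) (.add (.mul (.g 1) (.mul (.g 2) (.pp [(1, 26440425)]))) (.mul (.g 5) (.mul (.g 5) (.mul (.g 5) (.pp [(1, 9748125)])))))) (.mul (.g 0) (.mul (.g 0) (.mul (.g 0) (.mul (.g 5) (.pp [(1, 9851475)])))))))) (.pp [(1, 248905), (2, 666), (3, 774), (4, 822), (5, 660), (6, 696), (8, 765), (9, 831), (10, 945), (12, 675), (15, 675), (16, 750), (18, 795), (20, 675), (24, 675), (25, 840), (27, 725), (30, 870), (36, 825), (40, 750), (45, 570), (50, 555), (54, 750), (60, 750), (75, 825), (81, 750), (90, 750), (100, 750), (125, 720), (135, 750), (150, 750), (225, 825), (250, 825), (375, 750), (625, 750)])))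
    (by decide +kernel) (yv_nonneg h1 ha hb (le_refl 0) (le_refl 0) (le_refl 0) (le_refl 0) (le_refl 0) (le_refl 0))
    (by
      simp only [List.forall_mem_cons, exadd, exsub, exmul, exc, exv2, exv3, exv5]
      push_cast
      refine ⟨?_, ?_, ?_, ?_, ?_, ?_, ?_, fun _ hh => absurd hh List.not_mem_nil⟩
      · linarith only [h1]
      · linarith only [ha]
      · linarith only [hb]
      · linarith only [h2]
      · linarith only [h4]
      · linarith only [h5]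
      · linarith only [h6]
    )
  simp only [exadd, exsub, exmul, exc, exv2, exv3, exv5] at h
  push_cast at h
  linarith only [h]

theorem x2Q2 {d t b w : ℝ} (h1 : 0 ≤ d) (ht : 0 ≤ t) (hb : 0 ≤ b) (hw : 0 ≤ w) (h2 : 0 ≤ 3 / 5 - d) (h4 : 0 ≤ 1 - d - t) (h5 : 0 ≤ -d - t + b) (h6 : 0 ≤ 1 - b) (h7 : 0 ≤ d + t - w) (h8 : 0 ≤ 13 / 20 - w) :
    0 ≤ 46 / 75 + 42 / 25 * d + 29 / 25 * t - 37 / 25 * b - 1 / 4 * w - d ^ 2 + t ^ 2 - t * b + b ^ 2 - 1 / 2 * w ^ 2 - 1 / 3 * d ^ 3 - d ^ 2 * t + d ^ 2 * b - d * t ^ 2 + d * t * b - d * b ^ 2 - 1 / 3 * t ^ 3 + 1 / 12 * w ^ 3 := by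
  have h := cert (y := yv d t b w 0 0 0 0 0)
    (gs := [(.v 2),
      (.v 3),
      (.v 5),
      (.v 7),
      (.add (.c (3)) (.mul (.c (-5)) (.v 2))),
      (.add (.c (1)) (.add (.mul (.c (-1)) (.v 2)) (.mul (.c (-1)) (.v 3)))),
      (.add (.mul (.c (-1)) (.v 2)) (.add (.mul (.c (-1)) (.v 3)) (.v 5))),
      (.add (.c (1)) (.mul (.c (-1)) (.v 5))),
      (.add (.v 2) (.add (.v 3) (.mul (.c (-1)) (.v 7)))),
      (.add (.c (13)) (.mul (.c (-20)) (.v 7)))])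
    (p := .mul (.c 2000000000) (.add (.add (.add (.add (.c (184)) (.mul (.c (504)) (.v 2))) (.add (.mul (.c (348)) (.v 3)) (.mul (.c (-300)) (.mul (.v 2) (.v 2))))) (.add (.add (.mul (.c (-444)) (.v 5)) (.mul (.c (-75)) (.v 7))) (.add (.mul (.c (-100)) (.mul (.mul (.v 2) (.v 2)) (.v 2))) (.add (.mul (.c (300)) (.mul (.v 3) (.v 3))) (.mul (.c (-300)) (.mul (.mul (.v 2) (.v 2)) (.v 3))))))) (.add (.add (.add (.mul (.c (-300)) (.mul (.v 3) (.v 5))) (.mul (.c (-300)) (.mul (.mul (.v 2) (.v 3)) (.v 3)))) (.add (.mul (.c (300)) (.mul (.mul (.v 2) (.v 2)) (.v 5))) (.mul (.c (300)) (.mul (.v 5) (.v 5))))) (.add (.add (.mul (.c (-100)) (.mul (.mul (.v 3) (.v 3)) (.v 3))) (.mul (.c (300)) (.mul (.mul (.v 2) (.v 3)) (.v 5)))) (.add (.mul (.c (-150)) (.mul (.v 7) (.v 7))) (.add (.mul (.c (-300)) (.mul (.mul (.v 2) (.v 5)) (.v 5))) (.mul (.c (25)) (.mul (.mul (.v 7) (.v 7)) (.v 7)))))))))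
    (e := (.add (.add (.add (.mul (.g 8) (.add (.add (.add (.mul (.g 1) (.add (.add (.mul (.g 1) (.add (.mul (.g 1) (.pp [(1, 186370800000)])) (.add (.mul (.g 3) (.pp [(1, 308249400000)])) (.mul (.g 6) (.pp [(1, 66744000000)]))))) (.mul (.g 0) (.add (.mul (.g 0) (.pp [(1, 1073200800000)])) (.mul (.g 4) (.pp [(1, 251913000000)]))))) (.add (.mul (.g 6) (.add (.mul (.g 3) (.pp [(1, 603616200000)])) (.mul (.g 8) (.pp [(1, 172449600000)])))) (.add (.mul (.g 7) (.mul (.g 9) (.pp [(1, 45041430000)]))) (.mul (.g 8) (.mul (.g 8) (.pp [(1, 301882800000)]))))))) (.mul (.g 0) (.add (.mul (.g 0) (.add (.mul (.g 6) (.pp [(1, 332600400000)])) (.mul (.g 8) (.pp [(1, 173975400000)])))) (.add (.mul (.g 2) (.add (.mul (.g 4) (.pp [(1, 14415720000)])) (.mul (.g 5) (.pp [(1, 436568400000)])))) (.mul (.g 6) (.pp [(1, 63618600000)])))))) (.add (.mul (.g 7) (.add (.add (.pp [(1, 334380000000)]) (.mul (.pp [(1, 21844800)]) (.sq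 [(1, -23), (2, -60), (3, 81), (5, 32), (7, 100)]))) (.add (.mul (.g 2) (.mul (.g 2) (.pp [(1, 2472600000)]))) (.mul (.g 4) (.mul (.g 7) (.pp [(1, 44117040000)])))))) (.mul (.g 5) (.add (.pp [(1, 42429000000)]) (.add (.mul (.pp [(1, 18720)]) (.sq [(1, -7), (2, 86), (3, 60), (5, 100), (7, 27)])) (.mul (.pp [(1, 12783300)]) (.sq [(1, 100), (2, 19), (3, 42), (5, -46), (7, 44)]))))))) (.add (.add (.mul (.g 9) (.add (.mul (.pp [(1, 872847)]) (.sq [(1, 28), (2, 100), (3, -55), (5, -44), (7, -19)])) (.add (.mul (.g 3) (.pp [(1, 9647130000)])) (.mul (.g 6) (.mul (.g 8) (.pp [(1, 5989020000)])))))) (.mul (.g 3) (.pp [(1, 357399000000)]))) (.add (.mul (.g 6) (.mul (.pp [(1, 52892160)]) (.sq [(1, 12), (2, 9), (3, 100), (5, 13), (7, -50)]))) (.mul (.g 8) (.mul (.pp [(1, 394740)]) (.sq [(1, -16), (2, 2), (3, 39), (5, 52), (7, 100)]))))))) (.add (.mul (.g 7) (.add (.add (.mul (.g 7) (.add (.add (.mul (.pp [(1, 11559240)])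 (.sq [(1, -75), (2, -5), (3, 100), (5, 94), (7, 94)])) (.mul (.g 3) (.add (.pp [(1, 194002800000)]) (.mul (.g 5) (.pp [(1, 707516400000)]))))) (.add (.mul (.g 7) (.add (.pp [(1, 76626600000)]) (.mul (.g 2) (.pp [(1, 199685400000)])))) (.add (.mul (.g 0) (.mul (.g 6) (.pp [(1, 76068600000)]))) (.mul (.g 1) (.pp [(1, 78800400000)])))))) (.mul (.g 1) (.add (.mul (.pp [(1, 45513240)]) (.sq [(1, 100), (2, 51), (3, -33), (5, -97), (7, 17)])) (.add (.mul (.g 0) (.add (.mul (.g 2) (.pp [(1, 156604800000)])) (.mul (.g 4) (.pp [(1, 64228320000)])))) (.mul (.g 1) (.add (.mul (.g 3) (.pp [(1, 523508400000)])) (.mul (.g 9) (.pp [(1, 29136720000)])))))))) (.add (.mul (.g 6) (.add (.mul (.pp [(1, 33487800)]) (.sq [(1, -56), (2, -100), (3, -53), (5, 73), (7, 7)])) (.mul (.g 3) (.add (.mul (.g 2) (.pp [(1, 41292600000)])) (.mul (.g 3) (.pp [(1, 385429800000)])))))) (.add (.mul (.g 0) (.pp [(1, 302859600000)])) (.mul (.g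 5) (.mul (.pp [(1, 28076880)]) (.sq [(1, -84), (2, -68), (3, 4), (5, 100), (7, 49)]))))))) (.mul (.g 0) (.add (.add (.mul (.g 0) (.add (.mul (.g 5) (.add (.pp [(1, 192810000000)]) (.mul (.g 0) (.pp [(1, 153412800000)])))) (.mul (.g 2) (.mul (.g 9) (.pp [(1, 607230000)]))))) (.mul (.g 1) (.add (.mul (.g 1) (.mul (.g 1) (.pp [(1, 6000000)]))) (.add (.mul (.g 3) (.mul (.g 4) (.pp [(1, 101976000000)]))) (.mul (.g 6) (.pp [(1, 28624800000)])))))) (.add (.mul (.g 2) (.mul (.g 4) (.add (.mul (.g 5) (.pp [(1, 163285320000)])) (.mul (.g 6) (.pp [(1, 13916760000)]))))) (.mul (.g 9) (.add (.pp [(1, 1610250000)]) (.mul (.pp [(1, 5856)]) (.sq [(1, 78), (2, 80), (3, 80), (5, 100), (7, 47)]))))))))) (.add (.mul (.g 3) (.add (.mul (.g 4) (.add (.add (.mul (.pp [(1, 2967288)]) (.sq [(1, 2), (2, -75), (3, 100), (5, 7), (7, -17)])) (.mul (.g 1) (.add (.mul (.g 1) (.pp [(1, 8286720000)])) (.mul (.g 4) (.pp [(1, 563424000)])))))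 (.add (.mul (.g 3) (.mul (.g 3) (.pp [(1, 38318760000)]))) (.mul (.g 6) (.mul (.g 6) (.pp [(1, 5284680000)])))))) (.add (.mul (.g 6) (.add (.mul (.pp [(1, 6645240)]) (.sq [(1, 42), (2, 100), (3, -33), (5, -60), (7, -6)])) (.mul (.pp [(1, 2460)]) (.sq [(1, 83), (2, 100), (3, 100), (5, 100), (7, 100)])))) (.mul (.g 9) (.add (.mul (.g 1) (.mul (.g 1) (.pp [(1, 9869940000)]))) (.mul (.g 3) (.mul (.g 3) (.pp [(1, 512760000)])))))))) (.add (.mul (.g 1) (.add (.mul (.g 1) (.add (.mul (.g 5) (.add (.mul (.g 4) (.pp [(1, 30682560000)])) (.mul (.g 5) (.pp [(1, 20674200000)])))) (.mul (.g 6) (.mul (.g 6) (.pp [(1, 280909200000)]))))) (.mul (.g 6) (.mul (.g 6) (.mul (.g 9) (.pp [(1, 6268170000)])))))) (.mul (.g 6) (.add (.mul (.g 2) (.mul (.pp [(1, 14034720)]) (.sq [(1, -45), (2, -60), (3, -24), (5, 100), (7, -11)]))) (.mul (.g 6) (.mul (.pp [(1, 32106720)]) (.sq [(1, 48), (2, 100), (3, 3), (5, -65), (7, 33)]))))))))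 (.pp [(1, 28242209720), (2, 6493104), (3, 5676336), (4, 6426840), (5, 5442480), (6, 6258600), (7, 5345808), (8, 6178540), (9, 6816840), (10, 5321664), (12, 6767580), (14, 5861508), (15, 7243584), (16, 6510420), (18, 5587485), (20, 5124720), (21, 6484284), (24, 6834600), (25, 7081080), (27, 5177005), (28, 6025140), (30, 4399560), (35, 7858404), (36, 6711120), (40, 5909040), (42, 4728690), (45, 4931520), (49, 6352968), (50, 6117384), (54, 6360120), (56, 5432820), (60, 5837880), (63, 5752485), (70, 5843448), (75, 4040064), (81, 5973180), (84, 6683820), (90, 6558120), (98, 5204277), (100, 6886440), (105, 4577088), (125, 5047080), (126, 6228780), (135, 6450720), (140, 3302880), (147, 5672019), (150, 7148160), (175, 5371080), (189, 6402780), (196, 5645760), (210, 4146480), (225, 6624360), (245, 5972064), (250, 5803560), (294, 4198920), (315, 6009960), (343, 6340115), (350, 7192920), (375, 6641520), (441, 4788600),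 (490, 6598440), (525, 7181280), (625, 6349560), (686, 6393540), (735, 5829360), (875, 6090960), (1029, 6491700), (1225, 6524760), (1715, 5671680), (2401, 5844660)])))
    (by decide +kernel) (yv_nonneg h1 ht hb hw (le_refl 0) (le_refl 0) (le_refl 0) (le_refl 0) (le_refl 0))
    (by
      simp only [List.forall_mem_cons, exadd, exsub, exmul, exc, exv2, exv3, exv5, exv7]
      push_cast
      refine ⟨?_, ?_, ?_, ?_, ?_, ?_, ?_, ?_, ?_, ?_, fun _ hh => absurd hh List.not_mem_nil⟩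
      · linarith only [h1]
      · linarith only [ht]
      · linarith only [hb]
      · linarith only [hw]
      · linarith only [h2]
      · linarith only [h4]
      · linarith only [h5]
      · linarith only [h6]
      · linarith only [h7]
      · linarith only [h8]
    )
  simp only [exadd, exsub, exmul, exc, exv2, exv3, exv5, exv7] at h
  push_cast at h
  linarith only [h]

theorem x2P3 {d a b : ℝ} (h1 : 0 ≤ d) (ha : 0 ≤ a) (hb : 0 ≤ b) (h2 : 0 ≤ 3 / 5 - d) (h4 : 0 ≤ d - a) (h5 : 0 ≤ -d + a + b) (h6 : 0 ≤ 1 - b) :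
    0 ≤ 34 / 75 + 127 / 100 * d - 59 / 100 * a - 33 / 25 * b - 3 / 2 * d ^ 2 + d * a + 1 / 2 * a ^ 2 + a * b + b ^ 2 - 1 / 4 * d ^ 3 + 3 / 4 * d ^ 2 * a + d ^ 2 * b - 3 / 4 * d * a ^ 2 - d * a * b - d * b ^ 2 - 1 / 12 * a ^ 3 := by
  have h := cert (y := yv d a b 0 0 0 0 0 0)
    (gs := [(.v 2),
      (.v 3),
      (.v 5),
      (.add (.c (3)) (.mul (.c (-5)) (.v 2))),
      (.add (.v 2) (.mul (.c (-1)) (.v 3))),
      (.add (.mul (.c (-1)) (.v 2)) (.add (.v 3) (.v 5))),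
      (.add (.c (1)) (.mul (.c (-1)) (.v 5)))])
    (p := .mul (.c 500000000) (.add (.add (.add (.add (.c (136)) (.mul (.c (381)) (.v 2))) (.add (.mul (.c (-177)) (.v 3)) (.mul (.c (-450)) (.mul (.v 2) (.v 2))))) (.add (.add (.mul (.c (-396)) (.v 5)) (.mul (.c (300)) (.mul (.v 2) (.v 3)))) (.add (.mul (.c (-75)) (.mul (.mul (.v 2) (.v 2)) (.v 2))) (.mul (.c (150)) (.mul (.v 3) (.v 3)))))) (.add (.add (.add (.mul (.c (225)) (.mul (.mul (.v 2) (.v 2)) (.v 3))) (.mul (.c (300)) (.mul (.v 3) (.v 5)))) (.add (.mul (.c (-225)) (.mul (.mul (.v 2) (.v 3)) (.v 3))) (.mul (.c (300)) (.mul (.mul (.v 2) (.v 2)) (.v 5))))) (.add (.add (.mul (.c (300)) (.mul (.v 5) (.v 5))) (.mul (.c (-25)) (.mul (.mul (.v 3) (.v 3)) (.v 3)))) (.add (.mul (.c (-300)) (.mul (.mul (.v 2) (.v 3)) (.v 5))) (.mul (.c (-300)) (.mul (.mul (.v 2) (.v 5)) (.v 5))))))))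
    (e := (.add (.add (.add (.mul (.pp [(1, 104868240)]) (.sq [(1, -17), (5, 25)])) (.mul (.g 3) (.add (.add (.mul (.pp [(1, 24545184)]) (.sq [(1, -17), (5, 25)])) (.mul (.g 0) (.add (.add (.pp [(1, 6003120000)]) (.mul (.g 0) (.add (.mul (.g 0) (.pp [(1, 360000)])) (.mul (.g 6) (.pp [(1, 7499550000)]))))) (.add (.mul (.g 1) (.pp [(1, 2502810000)])) (.add (.mul (.g 4) (.mul (.g 5) (.pp [(1, 810000)]))) (.mul (.g 6) (.mul (.g 6) (.pp [(1, 13314660000)])))))))) (.add (.mul (.g 1) (.add (.mul (.g 1) (.add (.mul (.g 1) (.pp [(1, 1620000)])) (.mul (.g 2) (.pp [(1, 7500750000)])))) (.mul (.g 5) (.mul (.g 5) (.pp [(1, 1710000)]))))) (.add (.mul (.g 4) (.add (.pp [(1, 8029920000)]) (.add (.mul (.g 2) (.mul (.g 4) (.pp [(1, 19999830000)]))) (.mul (.g 3) (.pp [(1, 2499912000)]))))) (.mul (.g 5) (.mul (.pp [(1, 1208349)]) (.sq [(1, -59), (5, 100)])))))))) (.add (.mul (.g 6) (.add (.add (.mul (.pp [(1, 14501880)])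 (.sq [(1, -31), (5, 50)])) (.mul (.g 4) (.add (.mul (.g 5) (.add (.mul (.g 2) (.pp [(1, 125450100000)])) (.add (.mul (.g 4) (.pp [(1, 62500200000)])) (.mul (.g 6) (.pp [(1, 56795550000)]))))) (.add (.mul (.g 1) (.mul (.g 1) (.pp [(1, 75011550000)]))) (.mul (.g 6) (.mul (.g 6) (.pp [(1, 61451550000)]))))))) (.add (.mul (.g 0) (.add (.pp [(1, 36045150000)]) (.mul (.g 6) (.add (.pp [(1, 36546450000)]) (.mul (.g 2) (.pp [(1, 190520400000)])))))) (.add (.mul (.g 1) (.add (.mul (.g 1) (.mul (.g 6) (.pp [(1, 66577350000)]))) (.mul (.g 2) (.mul (.g 2) (.pp [(1, 130105950000)]))))) (.mul (.g 5) (.mul (.pp [(1, 150)]) (.sq [(1, -41), (5, 100)]))))))) (.add (.mul (.g 1) (.add (.add (.pp [(1, 6919950000)]) (.mul (.g 2) (.add (.mul (.g 2) (.add (.pp [(1, 29847600000)]) (.mul (.g 4) (.pp [(1, 60223950000)])))) (.mul (.g 4) (.mul (.g 5) (.pp [(1, 12509250000)])))))) (.add (.mul (.g 1) (.mul (.g 1) (.mul (.g 1) (.pp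 [(1, 2250000)])))) (.mul (.g 5) (.pp [(1, 65216700000)]))))) (.mul (.g 4) (.mul (.g 4) (.mul (.g 4) (.mul (.g 5) (.pp [(1, 3750000)])))))))) (.pp [(1, 2476097432), (2, 1373637), (3, 1527243), (4, 1445655), (5, 1317123), (6, 1524345), (8, 1500000), (9, 1500000), (10, 1955595), (12, 1260000), (15, 1236750), (16, 1500000), (18, 1740000), (20, 1521000), (24, 1650000), (25, 1638750), (27, 1360000), (30, 1479000), (36, 1350000), (40, 1500000), (45, 1500000), (50, 1029000), (54, 1650000), (60, 1650000), (75, 1770000), (81, 1500000), (90, 1200000), (100, 1500000), (125, 1500000), (135, 1650000), (150, 1500000), (225, 1500000), (250, 1650000), (375, 1350000), (625, 1500000)])))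
    (by decide +kernel) (yv_nonneg h1 ha hb (le_refl 0) (le_refl 0) (le_refl 0) (le_refl 0) (le_refl 0) (le_refl 0))
    (by
      simp only [List.forall_mem_cons, exadd, exsub, exmul, exc, exv2, exv3, exv5]
      push_cast
      refine ⟨?_, ?_, ?_, ?_, ?_, ?_, ?_, fun _ hh => absurd hh List.not_mem_nil⟩
      · linarith only [h1]
      · linarith only [ha]
      · linarith only [hb]
      · linarith only [h2]
      · linarith only [h4]
      · linarith only [h5]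
      · linarith only [h6]
    )
  simp only [exadd, exsub, exmul, exc, exv2, exv3, exv5] at h
  push_cast at h
  linarith only [h]

theorem x2Q3 {d t b w : ℝ} (h1 : 0 ≤ d) (ht : 0 ≤ t) (hb : 0 ≤ b) (hw : 0 ≤ w) (h2 : 0 ≤ 3 / 5 - d) (h4 : 0 ≤ 1 - d - t) (h5 : 0 ≤ -d - t + b) (h6 : 0 ≤ 1 - b) (h7 : 0 ≤ d + t - w) (h8 : 0 ≤ 13 / 20 - w) :
    0 ≤ 34 / 75 + 38 / 25 * d + 21 / 25 * t - 33 / 25 * b - 1 / 4 * w - d ^ 2 + t ^ 2 - t * b + b ^ 2 - 1 / 2 * w ^ 2 - 1 / 3 * d ^ 3 - d ^ 2 * t + d ^ 2 * b - d * t ^ 2 + d * t * b - d * b ^ 2 - 1 / 3 * t ^ 3 + 1 / 12 * w ^ 3 := by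
  have h := cert (y := yv d t b w 0 0 0 0 0)
    (gs := [(.v 2),
      (.v 3),
      (.v 5),
      (.v 7),
      (.add (.c (3)) (.mul (.c (-5)) (.v 2))),
      (.add (.c (1)) (.add (.mul (.c (-1)) (.v 2)) (.mul (.c (-1)) (.v 3)))),
      (.add (.mul (.c (-1)) (.v 2)) (.add (.mul (.c (-1)) (.v 3)) (.v 5))),
      (.add (.c (1)) (.mul (.c (-1)) (.v 5))),
      (.add (.v 2) (.add (.v 3) (.mul (.c (-1)) (.v 7)))),
      (.add (.c (13)) (.mul (.c (-20)) (.v 7)))])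
    (p := .mul (.c 40000000000) (.add (.add (.add (.add (.c (136)) (.mul (.c (456)) (.v 2))) (.add (.mul (.c (252)) (.v 3)) (.mul (.c (-300)) (.mul (.v 2) (.v 2))))) (.add (.add (.mul (.c (-396)) (.v 5)) (.mul (.c (-75)) (.v 7))) (.add (.mul (.c (-100)) (.mul (.mul (.v 2) (.v 2)) (.v 2))) (.add (.mul (.c (300)) (.mul (.v 3) (.v 3))) (.mul (.c (-300)) (.mul (.mul (.v 2) (.v 2)) (.v 3))))))) (.add (.add (.add (.mul (.c (-300)) (.mul (.v 3) (.v 5))) (.mul (.c (-300)) (.mul (.mul (.v 2) (.v 3)) (.v 3)))) (.add (.mul (.c (300)) (.mul (.mul (.v 2) (.v 2)) (.v 5))) (.mul (.c (300)) (.mul (.v 5) (.v 5))))) (.add (.add (.mul (.c (-100)) (.mul (.mul (.v 3) (.v 3)) (.v 3))) (.mul (.c (300)) (.mul (.mul (.v 2) (.v 3)) (.v 5)))) (.add (.mul (.c (-150)) (.mul (.v 7) (.v 7))) (.add (.mul (.c (-300)) (.mul (.mul (.v 2) (.v 5)) (.v 5))) (.mul (.c (25)) (.mul (.mul (.v 7) (.v 7)) (.v 7)))))))))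
    (e := (.add (.add (.add (.mul (.pp [(1, 685603200)]) (.sq [(1, -68), (2, -11), (3, -17), (5, 100), (7, -28)])) (.add (.mul (.g 8) (.add (.add (.add (.mul (.g 3) (.add (.add (.add (.pp [(1, 2002992000000)]) (.mul (.pp [(1, 51658800)]) (.sq [(1, -4), (2, 32), (3, -45), (5, -13), (7, 100)]))) (.add (.mul (.g 4) (.add (.pp [(1, 2262991200000)]) (.mul (.g 0) (.pp [(1, 1704386400000)])))) (.mul (.g 3) (.mul (.g 3) (.pp [(1, 680280000000)]))))) (.add (.add (.mul (.g 5) (.mul (.g 8) (.pp [(1, 12698268000000)]))) (.mul (.g 6) (.mul (.g 6) (.pp [(1, 402180000000)])))) (.add (.mul (.g 7) (.pp [(1, 4912068000000)])) (.mul (.g 9) (.mul (.g 9) (.pp [(1, 2833620000)]))))))) (.mul (.g 7) (.add (.add (.pp [(1, 4579896000000)]) (.mul (.pp [(1, 856675200)]) (.sq [(1, 32), (2, 13), (3, -11), (5, -50), (7, 48)]))) (.add (.mul (.pp [(1, 64656000)]) (.sq [(1, -13), (2, -63), (3, 53), (5, 22), (7, 100)])) (.add (.mul (.g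 2) (.add (.mul (.g 2) (.pp [(1, 1284132000000)])) (.mul (.g 9) (.pp [(1, 67933800000)])))) (.mul (.g 6) (.mul (.g 7) (.pp [(1, 3456996000000)])))))))) (.add (.mul (.g 5) (.add (.add (.mul (.pp [(1, 13041600)]) (.sq [(1, 96), (2, 100), (3, -5), (5, 78), (7, 56)])) (.mul (.pp [(1, 116698800)]) (.sq [(1, -18), (2, 100), (3, -29), (5, -61), (7, -66)]))) (.add (.mul (.g 8) (.add (.mul (.g 8) (.pp [(1, 4568592000000)])) (.mul (.g 9) (.pp [(1, 285624000000)])))) (.mul (.g 1) (.mul (.g 5) (.pp [(1, 3463584000000)])))))) (.mul (.g 0) (.add (.mul (.pp [(1, 292576800)]) (.sq [(1, 1), (2, -47), (3, 100), (5, 8), (7, -25)])) (.add (.mul (.g 4) (.mul (.g 9) (.pp [(1, 93622920000)]))) (.mul (.g 8) (.mul (.g 8) (.pp [(1, 3911880000000)])))))))) (.add (.add (.mul (.g 1) (.add (.mul (.g 1) (.mul (.g 1) (.pp [(1, 430548000000)]))) (.mul (.g 6) (.mul (.g 6) (.pp [(1, 503544000000)]))))) (.mul (.g 8) (.add (.mul (.pp [(1,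 124860000)]) (.sq [(1, -7), (2, 36), (3, 37), (5, 39), (7, 100)])) (.mul (.pp [(1, 437013600)]) (.sq [(1, -81), (2, 15), (3, 15), (5, 100), (7, -16)]))))) (.add (.mul (.g 2) (.mul (.pp [(1, 9422400)]) (.sq [(1, -8), (2, -45), (3, 50), (7, -32)]))) (.add (.mul (.g 4) (.mul (.pp [(1, 158961600)]) (.sq [(1, 14), (2, -31), (3, 50), (5, 15), (7, -15)]))) (.mul (.g 9) (.mul (.pp [(1, 7668420)]) (.sq [(1, 43), (2, 15), (3, 100), (5, -51)])))))))) (.mul (.g 0) (.add (.add (.mul (.g 7) (.add (.add (.pp [(1, 1315140000000)]) (.add (.mul (.pp [(1, 30800400)]) (.sq [(1, 100), (2, 63), (3, 37), (5, -87), (7, 100)])) (.mul (.pp [(1, 5712000)]) (.sq [(1, -6), (2, -93), (3, 100), (5, -5), (7, 55)])))) (.add (.add (.mul (.g 1) (.add (.mul (.g 2) (.pp [(1, 33132000000)])) (.add (.mul (.g 7) (.pp [(1, 178164000000)])) (.mul (.g 9) (.pp [(1, 551178000000)]))))) (.mul (.g 6) (.add (.mul (.g 2) (.pp [(1, 13548960000000)]))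 (.add (.mul (.g 6) (.pp [(1, 3047280000000)])) (.mul (.g 7) (.pp [(1, 21696360000000)])))))) (.add (.mul (.g 0) (.add (.mul (.g 4) (.pp [(1, 45088800000)])) (.mul (.g 9) (.pp [(1, 456438600000)])))) (.mul (.g 7) (.mul (.g 7) (.pp [(1, 4874964000000)]))))))) (.add (.mul (.g 9) (.add (.pp [(1, 112676400000)]) (.add (.mul (.g 3) (.add (.mul (.g 0) (.pp [(1, 506409600000)])) (.add (.mul (.g 1) (.pp [(1, 650509800000)])) (.mul (.g 9) (.pp [(1, 9603510000)]))))) (.mul (.g 4) (.pp [(1, 93381360000)]))))) (.mul (.g 1) (.add (.mul (.pp [(1, 7242000)]) (.sq [(1, 53), (2, 27), (3, 51), (5, 50), (7, 100)])) (.mul (.g 1) (.add (.mul (.g 0) (.pp [(1, 245616000000)])) (.mul (.g 5) (.pp [(1, 460680000000)])))))))) (.add (.mul (.g 6) (.add (.mul (.pp [(1, 2551200)]) (.sq [(1, 73), (2, 32), (3, -100), (5, 56), (7, 25)])) (.add (.mul (.g 3) (.mul (.g 6) (.pp [(1, 1019424000000)]))) (.mul (.g 5) (.mul (.g 5) (.pp [(1, 1740000000)]))))))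 (.add (.mul (.g 0) (.mul (.g 5) (.mul (.g 5) (.pp [(1, 1851300000000)])))) (.mul (.g 4) (.mul (.pp [(1, 4929360)]) (.sq [(1, -21), (2, 38), (3, -61), (5, 11), (7, 100)]))))))))) (.add (.mul (.g 9) (.add (.add (.mul (.pp [(1, 417637440)]) (.sq [(1, -18), (3, -1), (5, 25), (7, -1)])) (.add (.mul (.pp [(1, 26526840)]) (.sq [(1, 31), (2, -20), (3, 100), (5, -65), (7, -43)])) (.mul (.g 7) (.add (.mul (.pp [(1, 3796560)]) (.sq [(1, 31), (2, 25), (3, 19), (5, -37), (7, 50)])) (.mul (.pp [(1, 1139040)]) (.sq [(1, -41), (2, -2), (3, -100), (5, 93), (7, 15)])))))) (.add (.add (.mul (.g 1) (.mul (.pp [(1, 22605120)]) (.sq [(1, 9), (3, 50), (5, -35), (7, 50)]))) (.mul (.g 2) (.mul (.pp [(1, 1501560)]) (.sq [(1, -66), (2, -9), (3, -6), (5, 100), (7, -15)])))) (.add (.mul (.g 3) (.mul (.pp [(1, 4154400)]) (.sq [(1, -75), (2, -32), (3, -4), (5, 100), (7, 8)]))) (.mul (.g 9) (.mul (.pp [(1, 319707)]) (.sq [(1, 5), (2,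 88), (3, 100), (5, -49), (7, 77)]))))))) (.add (.mul (.g 3) (.add (.mul (.g 7) (.mul (.g 7) (.add (.mul (.g 1) (.pp [(1, 2575512000000)])) (.mul (.g 7) (.pp [(1, 3868248000000)]))))) (.add (.mul (.g 2) (.mul (.pp [(1, 386726400)]) (.sq [(1, -62), (2, -5), (3, -28), (5, 100), (7, -32)]))) (.mul (.g 3) (.mul (.pp [(1, 376424400)]) (.sq [(1, -75), (2, -11), (3, -13), (5, 100), (7, -24)])))))) (.mul (.g 2) (.mul (.g 7) (.mul (.pp [(1, 12000)]) (.sq [(1, -81), (2, -46), (3, 7), (5, 100), (7, -39)]))))))) (.pp [(1, 105609466525), (2, 117618060), (3, 116619540), (4, 121638648), (5, 133605630), (6, 113660040), (7, 118195830), (8, 119059580), (9, 116047200), (10, 135115992), (12, 99989580), (14, 116223384), (15, 143464320), (16, 120124800), (18, 83962320), (20, 125224320), (21, 127263960), (24, 125182800), (25, 109972677), (27, 103005200), (28, 108605460), (30, 151736520), (35, 102121158), (36, 141825600), (40,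 121318800), (42, 126168000), (45, 125029200), (49, 120722493), (50, 106755420), (54, 142419600), (56, 108030000), (60, 129357600), (63, 143977200), (70, 136061640), (75, 95325660), (81, 124330800), (84, 91837200), (90, 128768400), (98, 116959680), (100, 114854400), (105, 119640000), (125, 120418800), (126, 95868000), (135, 129549600), (140, 143760000), (147, 115888800), (150, 102043200), (175, 146960700), (189, 114237600), (196, 120110400), (210, 127936800), (225, 106369200), (245, 100573560), (250, 121568400), (294, 123160800), (315, 110740800), (343, 128052760), (350, 110962800), (375, 134304000), (441, 108736800), (490, 127872000), (525, 132025200), (625, 120000000), (686, 127236000), (735, 129362400), (875, 103944000), (1029, 120283200), (1225, 131646000), (1715, 108552000), (2401, 120574800)])))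
    (by decide +kernel) (yv_nonneg h1 ht hb hw (le_refl 0) (le_refl 0) (le_refl 0) (le_refl 0) (le_refl 0))
    (by
      simp only [List.forall_mem_cons, exadd, exsub, exmul, exc, exv2, exv3, exv5, exv7]
      push_cast
      refine ⟨?_, ?_, ?_, ?_, ?_, ?_, ?_, ?_, ?_, ?_, fun _ hh => absurd hh List.not_mem_nil⟩
      · linarith only [h1]
      · linarith only [ht]
      · linarith only [hb]
      · linarith only [hw]
      · linarith only [h2]
      · linarith only [h4]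
      · linarith only [h5]
      · linarith only [h6]
      · linarith only [h7]
      · linarith only [h8]
    )
  simp only [exadd, exsub, exmul, exc, exv2, exv3, exv5, exv7] at h
  push_cast at h
  linarith only [h]

theorem x2T12 {d a b : ℝ} (h1 : 0 ≤ d) (ha : 0 ≤ a) (hb : 0 ≤ b) (h2 : 0 ≤ 3 / 5 - d) (h4 : 0 ≤ d - a) (h6 : 0 ≤ d - b) (h7 : 0 ≤ -d + a + b) :
    0 ≤ 46 / 75 + 59 / 50 * d - 123 / 100 * a - 91 / 100 * b - 2 * d ^ 2 + d * a + d * b + 1 / 2 * a ^ 2 + a * b + 1 / 2 * b ^ 2 - 1 / 6 * d ^ 3 + 3 / 4 * d ^ 2 * a + 3 / 4 * d ^ 2 * b - 3 / 4 * d * a ^ 2 - d * a * b - 3 / 4 * d * b ^ 2 - 1 / 12 * a ^ 3 - 1 / 12 * b ^ 3 := by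
  have h := cert (y := yv d a b 0 0 0 0 0 0)
    (gs := [(.v 2),
      (.v 3),
      (.v 5),
      (.add (.c (3)) (.mul (.c (-5)) (.v 2))),
      (.add (.v 2) (.mul (.c (-1)) (.v 3))),
      (.add (.v 2) (.mul (.c (-1)) (.v 5))),
      (.add (.mul (.c (-1)) (.v 2)) (.add (.v 3) (.v 5)))])
    (p := .mul (.c 1250000) (.add (.add (.add (.add (.c (184)) (.mul (.c (354)) (.v 2))) (.add (.mul (.c (-369)) (.v 3)) (.mul (.c (-600)) (.mul (.v 2) (.v 2))))) (.add (.add (.mul (.c (-273)) (.v 5)) (.mul (.c (300)) (.mul (.v 2) (.v 3)))) (.add (.mul (.c (-50)) (.mul (.mul (.v 2) (.v 2)) (.v 2))) (.add (.mul (.c (150)) (.mul (.v 3) (.v 3))) (.mul (.c (300)) (.mul (.v 2) (.v 5))))))) (.add (.add (.add (.mul (.c (225)) (.mul (.mul (.v 2) (.v 2)) (.v 3))) (.mul (.c (300)) (.mul (.v 3) (.v 5)))) (.add (.mul (.c (-225)) (.mul (.mul (.v 2) (.v 3)) (.v 3))) (.mul (.c (225)) (.mul (.mul (.v 2) (.v 2)) (.v 5))))) (.add (.add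 (.mul (.c (150)) (.mul (.v 5) (.v 5))) (.mul (.c (-25)) (.mul (.mul (.v 3) (.v 3)) (.v 3)))) (.add (.mul (.c (-300)) (.mul (.mul (.v 2) (.v 3)) (.v 5))) (.add (.mul (.c (-225)) (.mul (.mul (.v 2) (.v 5)) (.v 5))) (.mul (.c (-25)) (.mul (.mul (.v 5) (.v 5)) (.v 5)))))))))
    (e := (.add (.add (.add (.mul (.g 4) (.add (.add (.pp [(1, 93743250)]) (.add (.mul (.g 1) (.add (.add (.pp [(1, 137475375)]) (.mul (.g 1) (.add (.pp [(1, 20835000)]) (.mul (.g 1) (.pp [(1, 3000)]))))) (.add (.mul (.g 5) (.mul (.g 5) (.pp [(1, 3000)]))) (.mul (.g 6) (.pp [(1, 8250)]))))) (.mul (.g 4) (.add (.mul (.g 4) (.add (.pp [(1, 10414875)]) (.add (.mul (.g 4) (.pp [(1, 1875)])) (.mul (.g 5) (.pp [(1, 3000)]))))) (.mul (.g 2) (.mul (.g 2) (.pp [(1, 4125)]))))))) (.add (.add (.mul (.g 0) (.mul (.g 2) (.pp [(1, 62516625)]))) (.mul (.g 3) (.pp [(1, 122503425)]))) (.add (.mul (.g 5) (.pp [(1, 31335000)])) (.mul (.g 6) (.mul (.g 6)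 (.mul (.g 6) (.pp [(1, 3750)])))))))) (.mul (.g 3) (.add (.add (.pp [(1, 2009400)]) (.add (.mul (.g 3) (.add (.add (.pp [(1, 8998095)]) (.mul (.g 5) (.add (.pp [(1, 16252245)]) (.mul (.g 5) (.pp [(1, 5209080)]))))) (.add (.mul (.g 3) (.mul (.g 3) (.pp [(1, 148188)]))) (.mul (.g 6) (.mul (.g 6) (.pp [(1, 5208375)])))))) (.mul (.g 0) (.add (.mul (.g 0) (.mul (.g 0) (.pp [(1, 18525600)]))) (.mul (.g 1) (.mul (.g 1) (.pp [(1, 26047050)]))))))) (.add (.add (.mul (.g 1) (.mul (.g 1) (.pp [(1, 51047025)]))) (.mul (.g 2) (.mul (.g 2) (.mul (.g 2) (.pp [(1, 2775)]))))) (.add (.mul (.g 5) (.pp [(1, 64994475)])) (.mul (.g 6) (.mul (.g 6) (.mul (.g 6) (.pp [(1, 1425)]))))))))) (.add (.mul (.g 5) (.add (.mul (.g 2) (.add (.pp [(1, 31216125)]) (.mul (.g 2) (.add (.pp [(1, 31258125)]) (.mul (.g 2) (.pp [(1, 375)])))))) (.mul (.g 6) (.add (.mul (.g 0) (.mul (.g 0) (.pp [(1, 260434875)]))) (.add (.mul (.g 5) (.mul (.g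 5) (.pp [(1, 4500)]))) (.mul (.g 6) (.pp [(1, 8250)]))))))) (.mul (.g 6) (.mul (.g 6) (.add (.pp [(1, 124955250)]) (.mul (.g 6) (.mul (.g 6) (.pp [(1, 1125)])))))))) (.pp [(1, 130985717), (2, 4215), (3, 3525), (4, 3330), (5, 3630), (6, 3750), (8, 3875), (9, 3675), (10, 3840), (12, 4050), (15, 3750), (16, 4125), (18, 3675), (20, 4125), (24, 3750), (25, 3780), (27, 3850), (30, 3525), (36, 3000), (40, 2625), (45, 3675), (50, 3600), (54, 4125), (60, 4125), (75, 3675), (81, 3750), (90, 4125), (100, 4500), (125, 3775), (135, 3750), (150, 4125), (225, 3375), (250, 3375), (375, 3750), (625, 3750)])))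
    (by decide +kernel) (yv_nonneg h1 ha hb (le_refl 0) (le_refl 0) (le_refl 0) (le_refl 0) (le_refl 0) (le_refl 0))
    (by
      simp only [List.forall_mem_cons, exadd, exsub, exmul, exc, exv2, exv3, exv5]
      push_cast
      refine ⟨?_, ?_, ?_, ?_, ?_, ?_, ?_, fun _ hh => absurd hh List.not_mem_nil⟩
      · linarith only [h1]
      · linarith only [ha]
      · linarith only [hb]
      · linarith only [h2]
      · linarith only [h4]
      · linarith only [h6]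
      · linarith only [h7]
    )
  simp only [exadd, exsub, exmul, exc, exv2, exv3, exv5] at h
  push_cast at h
  linarith only [h]

theorem x2T13 {d a b : ℝ} (h1 : 0 ≤ d) (ha : 0 ≤ a) (hb : 0 ≤ b) (h2 : 0 ≤ 3 / 5 - d) (h4 : 0 ≤ d - a) (h6 : 0 ≤ d - b) (h7 : 0 ≤ -d + a + b) :
    0 ≤ 34 / 75 + 51 / 50 * d - 107 / 100 * a - 59 / 100 * b - 2 * d ^ 2 + d * a + d * b + 1 / 2 * a ^ 2 + a * b + 1 / 2 * b ^ 2 - 1 / 6 * d ^ 3 + 3 / 4 * d ^ 2 * a + 3 / 4 * d ^ 2 * b - 3 / 4 * d * a ^ 2 - d * a * b - 3 / 4 * d * b ^ 2 - 1 / 12 * a ^ 3 - 1 / 12 * b ^ 3 := by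
  have h := cert (y := yv d a b 0 0 0 0 0 0)
    (gs := [(.v 2),
      (.v 3),
      (.v 5),
      (.add (.c (3)) (.mul (.c (-5)) (.v 2))),
      (.add (.v 2) (.mul (.c (-1)) (.v 3))),
      (.add (.v 2) (.mul (.c (-1)) (.v 5))),
      (.add (.mul (.c (-1)) (.v 2)) (.add (.v 3) (.v 5)))])
    (p := .mul (.c 6250000) (.add (.add (.add (.add (.c (136)) (.mul (.c (306)) (.v 2))) (.add (.mul (.c (-321)) (.v 3)) (.mul (.c (-600)) (.mul (.v 2) (.v 2))))) (.add (.add (.mul (.c (-177)) (.v 5)) (.mul (.c (300)) (.mul (.v 2) (.v 3)))) (.add (.mul (.c (-50)) (.mul (.mul (.v 2) (.v 2)) (.v 2))) (.add (.mul (.c (150)) (.mul (.v 3) (.v 3))) (.mul (.c (300)) (.mul (.v 2) (.v 5))))))) (.add (.add (.add (.mul (.c (225)) (.mul (.mul (.v 2) (.v 2)) (.v 3))) (.mul (.c (300)) (.mul (.v 3) (.v 5)))) (.add (.mul (.c (-225)) (.mul (.mul (.v 2) (.v 3)) (.v 3))) (.mul (.c (225)) (.mul (.mul (.v 2) (.v 2)) (.v 5))))) (.add (.add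 (.mul (.c (150)) (.mul (.v 5) (.v 5))) (.mul (.c (-25)) (.mul (.mul (.v 3) (.v 3)) (.v 3)))) (.add (.mul (.c (-300)) (.mul (.mul (.v 2) (.v 3)) (.v 5))) (.add (.mul (.c (-225)) (.mul (.mul (.v 2) (.v 5)) (.v 5))) (.mul (.c (-25)) (.mul (.mul (.v 5) (.v 5)) (.v 5)))))))))
    (e := (.add (.add (.add (.mul (.g 3) (.add (.add (.pp [(1, 127809000)]) (.add (.mul (.g 3) (.add (.mul (.g 5) (.add (.pp [(1, 141128325)]) (.mul (.g 5) (.pp [(1, 53766375)])))) (.add (.mul (.g 3) (.mul (.g 3) (.pp [(1, 1378323)]))) (.mul (.g 6) (.mul (.g 6) (.pp [(1, 32946525)])))))) (.mul (.g 0) (.add (.pp [(1, 6465375)]) (.add (.mul (.g 0) (.mul (.g 0) (.pp [(1, 188491125)]))) (.mul (.g 1) (.mul (.g 1) (.pp [(1, 224886375)])))))))) (.add (.mul (.g 1) (.add (.mul (.g 1) (.pp [(1, 327996375)])) (.mul (.g 5) (.mul (.g 5) (.pp [(1, 27763125)]))))) (.add (.mul (.g 4) (.pp [(1, 553192875)])) (.mul (.g 6) (.mul (.g 6) (.mul (.g 6) (.pp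 [(1, 26208375)])))))))) (.mul (.g 4) (.add (.add (.pp [(1, 346691250)]) (.mul (.g 1) (.add (.pp [(1, 983998125)]) (.add (.mul (.g 1) (.add (.pp [(1, 27757500)]) (.mul (.g 5) (.pp [(1, 23116875)])))) (.mul (.g 4) (.mul (.g 4) (.pp [(1, 7689375)]))))))) (.add (.mul (.g 4) (.add (.mul (.g 4) (.add (.pp [(1, 156268125)]) (.mul (.g 5) (.pp [(1, 185060625)])))) (.mul (.g 2) (.mul (.g 2) (.pp [(1, 3883125)]))))) (.mul (.g 6) (.mul (.g 6) (.add (.pp [(1, 50868750)]) (.mul (.g 6) (.pp [(1, 107934375)]))))))))) (.add (.mul (.g 2) (.add (.pp [(1, 163886250)]) (.add (.mul (.g 2) (.add (.add (.mul (.g 0) (.add (.pp [(1, 876916875)]) (.mul (.g 2) (.pp [(1, 77028750)])))) (.mul (.g 5) (.add (.pp [(1, 100736250)]) (.mul (.g 2) (.pp [(1, 53975625)]))))) (.add (.mul (.g 1) (.mul (.g 1) (.pp [(1, 265942500)]))) (.mul (.g 6) (.mul (.g 6) (.pp [(1, 53956875)])))))) (.mul (.g 5) (.pp [(1, 483907500)]))))) (.mul (.g 6) (.add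 (.mul (.g 5) (.add (.mul (.g 0) (.mul (.g 0) (.pp [(1, 2295005625)]))) (.mul (.g 6) (.pp [(1, 134158125)])))) (.add (.mul (.g 1) (.mul (.g 1) (.mul (.g 1) (.pp [(1, 115605000)])))) (.mul (.g 6) (.pp [(1, 640972500)]))))))) (.pp [(1, 354928837), (2, 18495), (3, 19875), (4, 16350), (5, 18675), (6, 19950), (8, 20125), (9, 17775), (10, 19950), (12, 20625), (15, 17550), (16, 18750), (18, 17625), (20, 20625), (24, 16875), (25, 18900), (27, 19250), (30, 13500), (36, 18750), (40, 16875), (45, 20250), (50, 16125), (54, 18750), (60, 24375), (75, 20250), (81, 18750), (90, 15000), (100, 20625), (125, 19250), (135, 20625), (150, 15000), (225, 20625), (250, 16875), (375, 20625), (625, 18750)])))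
    (by decide +kernel) (yv_nonneg h1 ha hb (le_refl 0) (le_refl 0) (le_refl 0) (le_refl 0) (le_refl 0) (le_refl 0))
    (by
      simp only [List.forall_mem_cons, exadd, exsub, exmul, exc, exv2, exv3, exv5]
      push_cast
      refine ⟨?_, ?_, ?_, ?_, ?_, ?_, ?_, fun _ hh => absurd hh List.not_mem_nil⟩
      · linarith only [h1]
      · linarith only [ha]
      · linarith only [hb]
      · linarith only [h2]
      · linarith only [h4]
      · linarith only [h6]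
      · linarith only [h7]
    )
  simp only [exadd, exsub, exmul, exc, exv2, exv3, exv5] at h
  push_cast at h
  linarith only [h]

theorem x2T23 {d a b : ℝ} (h1 : 0 ≤ d) (ha : 0 ≤ a) (hb : 0 ≤ b) (h2 : 0 ≤ 3 / 5 - d) (h4 : 0 ≤ d - a) (h6 : 0 ≤ d - b) (h7 : 0 ≤ -d + a + b) :
    0 ≤ 2 / 15 + 7 / 10 * d - 43 / 100 * a - 27 / 100 * b - 2 * d ^ 2 + d * a + d * b + 1 / 2 * a ^ 2 + a * b + 1 / 2 * b ^ 2 - 1 / 6 * d ^ 3 + 3 / 4 * d ^ 2 * a + 3 / 4 * d ^ 2 * b - 3 / 4 * d * a ^ 2 - d * a * b - 3 / 4 * d * b ^ 2 - 1 / 12 * a ^ 3 - 1 / 12 * b ^ 3 := by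
  have h := cert (y := yv d a b 0 0 0 0 0 0)
    (gs := [(.v 2),
      (.v 3),
      (.v 5),
      (.add (.c (3)) (.mul (.c (-5)) (.v 2))),
      (.add (.v 2) (.mul (.c (-1)) (.v 3))),
      (.add (.v 2) (.mul (.c (-1)) (.v 5))),
      (.add (.mul (.c (-1)) (.v 2)) (.add (.v 3) (.v 5)))])
    (p := .mul (.c 6250000) (.add (.add (.add (.add (.c (40)) (.mul (.c (210)) (.v 2))) (.add (.mul (.c (-129)) (.v 3)) (.mul (.c (-600)) (.mul (.v 2) (.v 2))))) (.add (.add (.mul (.c (-81)) (.v 5)) (.mul (.c (300)) (.mul (.v 2) (.v 3)))) (.add (.mul (.c (-50)) (.mul (.mul (.v 2) (.v 2)) (.v 2))) (.add (.mul (.c (150)) (.mul (.v 3) (.v 3))) (.mul (.c (300)) (.mul (.v 2) (.v 5))))))) (.add (.add (.add (.mul (.c (225)) (.mul (.mul (.v 2) (.v 2)) (.v 3))) (.mul (.c (300)) (.mul (.v 3) (.v 5)))) (.add (.mul (.c (-225)) (.mul (.mul (.v 2) (.v 3)) (.v 3))) (.mul (.c (225)) (.mul (.mul (.v 2) (.v 2)) (.v 5))))) (.add (.add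 (.mul (.c (150)) (.mul (.v 5) (.v 5))) (.mul (.c (-25)) (.mul (.mul (.v 3) (.v 3)) (.v 3)))) (.add (.mul (.c (-300)) (.mul (.mul (.v 2) (.v 3)) (.v 5))) (.add (.mul (.c (-225)) (.mul (.mul (.v 2) (.v 5)) (.v 5))) (.mul (.c (-25)) (.mul (.mul (.v 5) (.v 5)) (.v 5)))))))))
    (e := (.add (.add (.add (.mul (.g 3) (.add (.add (.add (.pp [(1, 16875)]) (.mul (.g 3) (.add (.mul (.g 3) (.add (.mul (.g 3) (.pp [(1, 1666917)])) (.mul (.g 4) (.pp [(1, 4861635)])))) (.add (.mul (.g 5) (.add (.pp [(1, 68757675)]) (.mul (.g 5) (.pp [(1, 20836200)])))) (.mul (.g 6) (.mul (.g 6) (.pp [(1, 20831625)]))))))) (.add (.mul (.g 0) (.add (.pp [(1, 76500)]) (.mul (.g 0) (.mul (.g 0) (.pp [(1, 202589250)]))))) (.mul (.g 4) (.add (.pp [(1, 506238000)]) (.mul (.g 4) (.mul (.g 4) (.pp [(1, 109957875)]))))))) (.add (.add (.mul (.g 5) (.add (.pp [(1, 262461000)]) (.mul (.g 5) (.mul (.g 5) (.pp [(1, 3750)]))))) (.mul (.g 6) (.mul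 (.g 6) (.add (.pp [(1, 62521125)]) (.mul (.g 6) (.pp [(1, 6750)])))))) (.add (.mul (.g 1) (.mul (.g 1) (.mul (.g 1) (.pp [(1, 109971375)])))) (.mul (.g 2) (.mul (.g 2) (.mul (.g 2) (.pp [(1, 13500)])))))))) (.mul (.g 6) (.add (.add (.pp [(1, 843708750)]) (.mul (.g 5) (.add (.mul (.g 6) (.add (.pp [(1, 26250)]) (.mul (.g 6) (.pp [(1, 5625)])))) (.add (.mul (.g 0) (.mul (.g 0) (.pp [(1, 1041667500)]))) (.mul (.g 5) (.mul (.g 5) (.pp [(1, 7500)]))))))) (.add (.mul (.g 2) (.add (.pp [(1, 374908125)]) (.mul (.g 2) (.mul (.g 2) (.pp [(1, 7500)]))))) (.add (.mul (.g 4) (.add (.mul (.g 4) (.mul (.g 4) (.pp [(1, 18750)]))) (.mul (.g 6) (.pp [(1, 26250)])))) (.mul (.g 1) (.pp [(1, 562432500)]))))))) (.add (.mul (.g 2) (.add (.pp [(1, 56223750)]) (.add (.mul (.g 1) (.add (.pp [(1, 187545000)]) (.mul (.g 4) (.mul (.g 4) (.pp [(1, 5625)]))))) (.mul (.g 2) (.mul (.g 5) (.add (.pp [(1, 156290625)]) (.mul (.g 2) (.pp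 [(1, 13125)])))))))) (.mul (.g 4) (.add (.mul (.g 0) (.add (.mul (.g 0) (.mul (.g 4) (.pp [(1, 1128590625)]))) (.mul (.g 1) (.pp [(1, 1614682500)])))) (.mul (.g 1) (.mul (.g 1) (.pp [(1, 156301875)]))))))) (.pp [(1, 114929098), (2, 18585), (3, 19395), (4, 16725), (5, 19575), (6, 17775), (8, 21250), (9, 19500), (10, 20475), (12, 18000), (15, 18375), (16, 15000), (18, 19875), (20, 15375), (24, 24375), (25, 18075), (27, 17375), (30, 20250), (36, 15000), (40, 30000), (45, 18000), (50, 21750), (54, 20625), (60, 7500), (75, 18000), (81, 18750), (90, 22500), (100, 5625), (125, 17375), (135, 18750), (150, 28125), (225, 16875), (250, 24375), (375, 16875), (625, 18750)])))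
    (by decide +kernel) (yv_nonneg h1 ha hb (le_refl 0) (le_refl 0) (le_refl 0) (le_refl 0) (le_refl 0) (le_refl 0))
    (by
      simp only [List.forall_mem_cons, exadd, exsub, exmul, exc, exv2, exv3, exv5]
      push_cast
      refine ⟨?_, ?_, ?_, ?_, ?_, ?_, ?_, fun _ hh => absurd hh List.not_mem_nil⟩
      · linarith only [h1]
      · linarith only [ha]
      · linarith only [hb]
      · linarith only [h2]
      · linarith only [h4]
      · linarith only [h6]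
      · linarith only [h7]
    )
  simp only [exadd, exsub, exmul, exc, exv2, exv3, exv5] at h
  push_cast at h
  linarith only [h]

theorem x3n {d q : ℝ} (hd : 0 ≤ d) (hq : 0 ≤ q) (hd1 : 0 ≤ 3 / 5 - d) (hdq : 0 ≤ -d + q) (hq1 : 0 ≤ 1 - q) (hlo : 0 ≤ -3 / 20 + d) :
    0 ≤ -187 / 1500 + 327 / 250 * d - 187 / 500 * q - 3 / 4 * d ^ 2 + 3 / 4 * q ^ 2 - 1 / 12 * d ^ 3 + 1 / 2 * d ^ 2 * q - 3 / 4 * d * q ^ 2 := by
  have h := cert (y := yv d q 0 0 0 0 0 0 0)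
    (gs := [(.v 2),
      (.v 3),
      (.add (.c (3)) (.mul (.c (-5)) (.v 2))),
      (.add (.mul (.c (-1)) (.v 2)) (.v 3)),
      (.add (.c (1)) (.mul (.c (-1)) (.v 3))),
      (.add (.c (-3)) (.mul (.c (20)) (.v 2)))])
    (p := .mul (.c 20000000) (.add (.add (.add (.c (-187)) (.mul (.c (1962)) (.v 2))) (.add (.mul (.c (-561)) (.v 3)) (.mul (.c (-1125)) (.mul (.v 2) (.v 2))))) (.add (.add (.mul (.c (-125)) (.mul (.mul (.v 2) (.v 2)) (.v 2))) (.mul (.c (1125)) (.mul (.v 3) (.v 3)))) (.add (.mul (.c (750)) (.mul (.mul (.v 2) (.v 2)) (.v 3))) (.mul (.c (-1125)) (.mul (.mul (.v 2) (.v 3)) (.v 3)))))))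
    (e := (.add (.add (.add (.mul (.pp [(1, 559305)]) (.sq [(1, -34), (2, -5), (3, 100)])) (.mul (.g 5) (.add (.add (.pp [(1, 625308000)]) (.mul (.g 3) (.add (.add (.pp [(1, 665514000)]) (.mul (.g 1) (.mul (.g 1) (.pp [(1, 835827000)])))) (.add (.mul (.g 3) (.mul (.g 3) (.pp [(1, 950479500)]))) (.mul (.g 4) (.mul (.g 4) (.pp [(1, 588789000)]))))))) (.add (.mul (.g 4) (.add (.mul (.g 1) (.add (.mul (.g 1) (.pp [(1, 879367500)])) (.mul (.g 4) (.pp [(1, 1298680500)])))) (.mul (.g 4) (.pp [(1, 1148991000)])))) (.add (.mul (.g 0) (.mul (.g 0) (.mul (.g 0) (.pp [(1, 65788500)])))) (.mul (.g 2) (.mul (.g 2) (.mul (.g 5) (.pp [(1, 343626)]))))))))) (.add (.mul (.g 4) (.add (.mul (.pp [(1, 5087304)]) (.sq [(1, -13), (2, -2), (3, 50)])) (.mul (.g 1) (.mul (.pp [(1, 22812096)]) (.sq [(1, -6), (2, -1), (3, 25)]))))) (.mul (.g 3) (.mul (.g 3) (.mul (.g 3) (.mul (.g 3) (.pp [(1, 14257260000)]))))))) (.pp [(1, 48752338),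 (2, 302592), (3, 292620), (4, 305109), (6, 264456), (8, 317000), (9, 317556), (12, 292620), (16, 300000), (18, 335652), (24, 270000), (27, 296700), (36, 342096), (54, 265200), (81, 300000)])))
    (by decide +kernel) (yv_nonneg hd hq (le_refl 0) (le_refl 0) (le_refl 0) (le_refl 0) (le_refl 0) (le_refl 0) (le_refl 0))
    (by
      simp only [List.forall_mem_cons, exadd, exsub, exmul, exc, exv2, exv3]
      push_cast
      refine ⟨?_, ?_, ?_, ?_, ?_, ?_, fun _ hh => absurd hh List.not_mem_nil⟩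
      · linarith only [hd]
      · linarith only [hq]
      · linarith only [hd1]
      · linarith only [hdq]
      · linarith only [hq1]
      · linarith only [hlo]
    )
  simp only [exadd, exsub, exmul, exc, exv2, exv3] at h
  push_cast at h
  linarith only [h]

theorem x3z1 {d q : ℝ} (hd : 0 ≤ d) (hq : 0 ≤ q) (hd1 : 0 ≤ 3 / 5 - d) (hdq : 0 ≤ d - q) (hlo : 0 ≤ -3 / 20 + d) :
    0 ≤ -187 / 1500 + 529 / 500 * d - 31 / 250 * q - 5 / 4 * d ^ 2 + d * q + 1 / 4 * q ^ 2 + 1 / 4 * d ^ 2 * q - 1 / 2 * d * q ^ 2 - 1 / 12 * q ^ 3 := by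
  have h := cert (y := yv d q 0 0 0 0 0 0 0)
    (gs := [(.v 2),
      (.v 3),
      (.add (.c (3)) (.mul (.c (-5)) (.v 2))),
      (.add (.v 2) (.mul (.c (-1)) (.v 3))),
      (.add (.c (-3)) (.mul (.c (20)) (.v 2)))])
    (p := .mul (.c 5000000) (.add (.add (.add (.c (-187)) (.mul (.c (1587)) (.v 2))) (.add (.mul (.c (-186)) (.v 3)) (.mul (.c (-1875)) (.mul (.v 2) (.v 2))))) (.add (.add (.mul (.c (1500)) (.mul (.v 2) (.v 3))) (.mul (.c (375)) (.mul (.v 3) (.v 3)))) (.add (.mul (.c (375)) (.mul (.mul (.v 2) (.v 2)) (.v 3))) (.add (.mul (.c (-750)) (.mul (.mul (.v 2) (.v 3)) (.v 3))) (.mul (.c (-125)) (.mul (.mul (.v 3) (.v 3)) (.v 3))))))))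
    (e := (.add (.add (.mul (.g 1) (.add (.add (.mul (.g 1) (.add (.mul (.g 2) (.add (.pp [(1, 875056500)]) (.mul (.g 1) (.pp [(1, 49500)])))) (.mul (.g 3) (.pp [(1, 625230000)])))) (.mul (.g 0) (.add (.pp [(1, 549180000)]) (.mul (.g 0) (.pp [(1, 1874902500)]))))) (.add (.mul (.g 3) (.add (.pp [(1, 750247500)]) (.mul (.g 3) (.mul (.g 3) (.pp [(1, 75000)]))))) (.mul (.g 4) (.pp [(1, 310024875)]))))) (.mul (.g 4) (.add (.pp [(1, 45177375)]) (.add (.mul (.g 2) (.add (.pp [(1, 93751425)]) (.add (.mul (.g 0) (.pp [(1, 3075)])) (.mul (.g 2) (.mul (.g 2) (.pp [(1, 51)])))))) (.mul (.g 3) (.mul (.g 3) (.mul (.g 3) (.pp [(1, 2625)])))))))) (.pp [(1, 44299081), (2, 75105), (3, 74625), (4, 84000), (6, 75000), (8, 66750), (9, 78000), (12, 73875), (16, 75000), (18, 76125), (24, 82500), (27, 73625), (36, 67500), (54, 75000), (81, 75000)])))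
    (by decide +kernel) (yv_nonneg hd hq (le_refl 0) (le_refl 0) (le_refl 0) (le_refl 0) (le_refl 0) (le_refl 0) (le_refl 0))
    (by
      simp only [List.forall_mem_cons, exadd, exsub, exmul, exc, exv2, exv3]
      push_cast
      refine ⟨?_, ?_, ?_, ?_, ?_, fun _ hh => absurd hh List.not_mem_nil⟩
      · linarith only [hd]
      · linarith only [hq]
      · linarith only [hd1]
      · linarith only [hdq]
      · linarith only [hlo]
    )
  simp only [exadd, exsub, exmul, exc, exv2, exv3] at h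
  push_cast at h
  linarith only [h]

theorem x3z2 {d t w : ℝ} (hd : 0 ≤ d) (ht : 0 ≤ t) (hw : 0 ≤ w) (hd1 : 0 ≤ 3 / 5 - d) (ht1 : 0 ≤ 1 - d - t) (hwt : 0 ≤ d + t - w) (hw1 : 0 ≤ 13 / 20 - w) (hlo : 0 ≤ -3 / 20 + d) :
    0 ≤ -187 / 1500 + 327 / 250 * d + 187 / 500 * t - 1 / 4 * w - 3 / 4 * d ^ 2 + 3 / 4 * t ^ 2 - 1 / 2 * w ^ 2 - 1 / 12 * d ^ 3 - 1 / 2 * d ^ 2 * t - 3 / 4 * d * t ^ 2 - 1 / 3 * t ^ 3 + 1 / 12 * w ^ 3 := by
  have h := cert (y := yv d t w 0 0 0 0 0 0)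
    (gs := [(.v 2),
      (.v 3),
      (.v 5),
      (.add (.c (3)) (.mul (.c (-5)) (.v 2))),
      (.add (.c (1)) (.add (.mul (.c (-1)) (.v 2)) (.mul (.c (-1)) (.v 3)))),
      (.add (.v 2) (.add (.v 3) (.mul (.c (-1)) (.v 5)))),
      (.add (.c (13)) (.mul (.c (-20)) (.v 5))),
      (.add (.c (-3)) (.mul (.c (20)) (.v 2)))])
    (p := .mul (.c 160000000) (.add (.add (.add (.c (-187)) (.add (.mul (.c (1962)) (.v 2)) (.mul (.c (561)) (.v 3)))) (.add (.mul (.c (-1125)) (.mul (.v 2) (.v 2))) (.add (.mul (.c (-375)) (.v 5)) (.mul (.c (-125)) (.mul (.mul (.v 2) (.v 2)) (.v 2)))))) (.add (.add (.mul (.c (1125)) (.mul (.v 3) (.v 3))) (.add (.mul (.c (-750)) (.mul (.mul (.v 2) (.v 2)) (.v 3))) (.mul (.c (-1125)) (.mul (.mul (.v 2) (.v 3)) (.v 3))))) (.add (.mul (.c (-750)) (.mul (.v 5) (.v 5))) (.add (.mul (.c (-500)) (.mul (.mul (.v 3) (.v 3)) (.v 3))) (.mul (.c (125)) (.mul (.mul (.v 5) (.v 5)) (.v 5))))))))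
    (e := (.add (.add (.add (.mul (.g 5) (.add (.add (.mul (.g 5) (.add (.add (.mul (.g 5) (.add (.mul (.g 4) (.pp [(1, 29882880000)])) (.mul (.g 5) (.pp [(1, 14560560000)])))) (.mul (.g 0) (.mul (.g 0) (.pp [(1, 15704400000)])))) (.add (.mul (.g 1) (.mul (.g 1) (.pp [(1, 15704400000)]))) (.add (.mul (.g 2) (.mul (.g 2) (.pp [(1, 1400400000)]))) (.mul (.g 3) (.pp [(1, 16673376000)])))))) (.mul (.g 2) (.add (.add (.pp [(1, 64345440000)]) (.mul (.g 2) (.mul (.g 2) (.pp [(1, 31157760000)])))) (.add (.mul (.g 3) (.pp [(1, 32872128000)])) (.mul (.g 6) (.pp [(1, 4469292000)])))))) (.add (.mul (.g 1) (.add (.pp [(1, 75941040000)]) (.mul (.g 4) (.add (.pp [(1, 77570160000)]) (.mul (.g 3) (.pp [(1, 12562560000)])))))) (.mul (.g 4) (.pp [(1, 70001760000)]))))) (.mul (.g 7) (.add (.add (.mul (.g 6) (.add (.pp [(1, 464038800)]) (.add (.mul (.g 2) (.add (.pp [(1, 229171200)]) (.mul (.g 4) (.pp [(1, 4418400)])))) (.mul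 (.g 3) (.add (.pp [(1, 33427920)]) (.mul (.g 6) (.pp [(1, 414732)]))))))) (.mul (.g 4) (.add (.pp [(1, 1721388000)]) (.mul (.g 4) (.add (.mul (.g 0) (.pp [(1, 1608588000)])) (.mul (.g 4) (.pp [(1, 1621308000)]))))))) (.add (.mul (.g 3) (.add (.pp [(1, 47001600)]) (.mul (.g 3) (.mul (.g 3) (.pp [(1, 113856)]))))) (.mul (.g 0) (.mul (.g 0) (.mul (.g 7) (.pp [(1, 386400)])))))))) (.add (.mul (.g 1) (.mul (.g 1) (.add (.add (.pp [(1, 462240000)]) (.mul (.g 1) (.add (.mul (.g 1) (.pp [(1, 124080000)])) (.mul (.g 4) (.pp [(1, 508560000)]))))) (.add (.mul (.g 6) (.add (.pp [(1, 1762296000)]) (.mul (.g 2) (.pp [(1, 741096000)])))) (.mul (.g 0) (.mul (.g 0) (.pp [(1, 3600000)]))))))) (.mul (.g 6) (.mul (.g 6) (.mul (.g 6) (.mul (.g 6) (.pp [(1, 94965)]))))))) (.pp [(1, 467416583), (2, 2395980), (3, 2304000), (4, 2569200), (5, 2503440), (6, 2640000), (8, 2200000), (9, 2436000), (10, 2210400), (12, 2076000), (15,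 2438400), (16, 2400000), (18, 2232000), (20, 2400000), (24, 2640000), (25, 2347200), (27, 2476000), (30, 2304000), (36, 2640000), (40, 2400000), (45, 2472000), (50, 2424000), (54, 2400000), (60, 2400000), (75, 2304000), (81, 2400000), (90, 2400000), (100, 2400000), (125, 2480000), (135, 2400000), (150, 2400000), (225, 2400000), (250, 2400000), (375, 2400000), (625, 2400000)])))
    (by decide +kernel) (yv_nonneg hd ht hw (le_refl 0) (le_refl 0) (le_refl 0) (le_refl 0) (le_refl 0) (le_refl 0))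
    (by
      simp only [List.forall_mem_cons, exadd, exsub, exmul, exc, exv2, exv3, exv5]
      push_cast
      refine ⟨?_, ?_, ?_, ?_, ?_, ?_, ?_, ?_, fun _ hh => absurd hh List.not_mem_nil⟩
      · linarith only [hd]
      · linarith only [ht]
      · linarith only [hw]
      · linarith only [hd1]
      · linarith only [ht1]
      · linarith only [hwt]
      · linarith only [hw1]
      · linarith only [hlo]
    )
  simp only [exadd, exsub, exmul, exc, exv2, exv3, exv5] at h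
  push_cast at h
  linarith only [h]

theorem x3m1 {d m q : ℝ} (hd : 0 ≤ d) (hm : 0 ≤ m) (hq : 0 ≤ q) (hd1 : 0 ≤ 3 / 5 - d) (hm1 : 0 ≤ d - m) (hq1 : 0 ≤ -d + m + q) (hq2 : 0 ≤ 1 - q) (hlo : 0 ≤ -3 / 20 + d) :
    0 ≤ 47 / 375 + 327 / 250 * d - 3 / 4 * m - 437 / 500 * q - 3 / 2 * d ^ 2 + d * m + 1 / 2 * m ^ 2 + m * q + q ^ 2 - 1 / 4 * d ^ 3 + 3 / 4 * d ^ 2 * m + d ^ 2 * q - 3 / 4 * d * m ^ 2 - d * m * q - d * q ^ 2 - 1 / 12 * m ^ 3 := by
  have h := cert (y := yv d m q 0 0 0 0 0 0)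
    (gs := [(.v 2),
      (.v 3),
      (.v 5),
      (.add (.c (3)) (.mul (.c (-5)) (.v 2))),
      (.add (.v 2) (.mul (.c (-1)) (.v 3))),
      (.add (.mul (.c (-1)) (.v 2)) (.add (.v 3) (.v 5))),
      (.add (.c (1)) (.mul (.c (-1)) (.v 5))),
      (.add (.c (-3)) (.mul (.c (20)) (.v 2)))])
    (p := .mul (.c 100000000) (.add (.add (.add (.add (.c (188)) (.mul (.c (1962)) (.v 2))) (.add (.mul (.c (-1125)) (.v 3)) (.mul (.c (-2250)) (.mul (.v 2) (.v 2))))) (.add (.add (.mul (.c (-1311)) (.v 5)) (.mul (.c (1500)) (.mul (.v 2) (.v 3)))) (.add (.mul (.c (-375)) (.mul (.mul (.v 2) (.v 2)) (.v 2))) (.mul (.c (750)) (.mul (.v 3) (.v 3)))))) (.add (.add (.add (.mul (.c (1125)) (.mul (.mul (.v 2) (.v 2)) (.v 3))) (.mul (.c (1500)) (.mul (.v 3) (.v 5)))) (.add (.mul (.c (-1125)) (.mul (.mul (.v 2) (.v 3)) (.v 3))) (.mul (.c (1500)) (.mul (.mul (.v 2) (.v 2)) (.v 5))))) (.add (.add (.mul (.c (1500)) (.mul (.v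 5) (.v 5))) (.mul (.c (-125)) (.mul (.mul (.v 3) (.v 3)) (.v 3)))) (.add (.mul (.c (-1500)) (.mul (.mul (.v 2) (.v 3)) (.v 5))) (.mul (.c (-1500)) (.mul (.mul (.v 2) (.v 5)) (.v 5))))))))
    (e := (.add (.add (.add (.mul (.pp [(1, 4198530)]) (.sq [(1, -45), (2, -7), (3, -7), (5, 100)])) (.add (.mul (.g 6) (.add (.add (.mul (.g 4) (.add (.add (.mul (.g 3) (.add (.pp [(1, 13676340000)]) (.add (.mul (.g 3) (.pp [(1, 2427126000)])) (.mul (.g 6) (.pp [(1, 1855380000)]))))) (.mul (.g 4) (.add (.mul (.g 5) (.pp [(1, 75970050000)])) (.mul (.g 6) (.pp [(1, 63111750000)]))))) (.add (.mul (.g 1) (.mul (.g 1) (.pp [(1, 89115300000)]))) (.mul (.g 6) (.mul (.g 6) (.pp [(1, 29240850000)])))))) (.mul (.g 7) (.add (.pp [(1, 630562500)]) (.add (.mul (.g 6) (.add (.mul (.g 5) (.pp [(1, 1948657500)])) (.mul (.g 7) (.pp [(1, 57025125)])))) (.mul (.g 0) (.mul (.g 3) (.pp [(1, 406650000)]))))))) (.add (.mul (.g 1) (.add (.mul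 (.g 2) (.mul (.g 2) (.pp [(1, 18168900000)]))) (.mul (.g 5) (.mul (.g 5) (.pp [(1, 15537300000)]))))) (.mul (.g 5) (.mul (.g 5) (.mul (.g 5) (.pp [(1, 1500000)]))))))) (.mul (.g 3) (.add (.add (.mul (.pp [(1, 3257937)]) (.sq [(1, -45), (2, -7), (3, -7), (5, 100)])) (.mul (.g 7) (.add (.add (.pp [(1, 1525045500)]) (.mul (.g 0) (.add (.mul (.g 0) (.pp [(1, 254637000)])) (.mul (.g 5) (.pp [(1, 406710000)]))))) (.add (.mul (.g 1) (.mul (.g 3) (.pp [(1, 35712900)]))) (.mul (.g 5) (.mul (.g 5) (.pp [(1, 214444500)]))))))) (.add (.mul (.g 5) (.mul (.g 5) (.add (.mul (.g 1) (.pp [(1, 274020000)])) (.mul (.g 5) (.pp [(1, 1947660000)]))))) (.mul (.g 4) (.mul (.g 4) (.mul (.g 4) (.pp [(1, 6806670000)]))))))))) (.add (.mul (.g 1) (.add (.add (.mul (.g 1) (.add (.mul (.g 1) (.mul (.g 7) (.pp [(1, 379995000)]))) (.mul (.g 2) (.mul (.g 4) (.pp [(1, 72074550000)]))))) (.mul (.g 2) (.mul (.g 2) (.pp [(1, 47071500000)]))))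 (.add (.mul (.g 4) (.mul (.g 4) (.mul (.g 4) (.pp [(1, 35000700000)])))) (.add (.mul (.g 5) (.mul (.g 5) (.mul (.g 5) (.pp [(1, 4468350000)])))) (.mul (.g 7) (.pp [(1, 5481345000)])))))) (.add (.mul (.g 4) (.add (.mul (.g 4) (.add (.pp [(1, 13132200000)]) (.mul (.g 5) (.mul (.g 5) (.pp [(1, 30530850000)]))))) (.mul (.g 0) (.mul (.g 0) (.mul (.g 2) (.pp [(1, 32098650000)])))))) (.mul (.g 5) (.mul (.g 7) (.pp [(1, 123255000)])))))) (.pp [(1, 5609880350), (2, 1358295), (3, 1589970), (4, 1630341), (5, 1571250), (6, 1488132), (8, 1702065), (9, 1405791), (10, 1550400), (12, 1251630), (15, 1349400), (16, 1350000), (18, 1837065), (20, 1146000), (24, 1650000), (25, 1419375), (27, 1405000), (30, 2046000), (36, 1350000), (40, 1650000), (45, 1290000), (50, 1605000), (54, 1500000), (60, 1200000), (75, 1462500), (81, 1500000), (90, 1800000), (100, 1500000), (125, 1492500), (135, 1350000), (150, 1500000), (225, 1500000),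 (250, 1500000), (375, 1500000), (625, 1500000)])))
    (by decide +kernel) (yv_nonneg hd hm hq (le_refl 0) (le_refl 0) (le_refl 0) (le_refl 0) (le_refl 0) (le_refl 0))
    (by
      simp only [List.forall_mem_cons, exadd, exsub, exmul, exc, exv2, exv3, exv5]
      push_cast
      refine ⟨?_, ?_, ?_, ?_, ?_, ?_, ?_, ?_, fun _ hh => absurd hh List.not_mem_nil⟩
      · linarith only [hd]
      · linarith only [hm]
      · linarith only [hq]
      · linarith only [hd1]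
      · linarith only [hm1]
      · linarith only [hq1]
      · linarith only [hq2]
      · linarith only [hlo]
    )
  simp only [exadd, exsub, exmul, exc, exv2, exv3, exv5] at h
  push_cast at h
  linarith only [h]

theorem x3m2 {d t q w : ℝ} (hd : 0 ≤ d) (ht : 0 ≤ t) (hq : 0 ≤ q) (hw : 0 ≤ w) (hd1 : 0 ≤ 3 / 5 - d) (ht1 : 0 ≤ 1 - d - t) (hq1 : 0 ≤ -d - t + q) (hq2 : 0 ≤ 1 - q) (hwt : 0 ≤ d + t - w) (hw1 : 0 ≤ 13 / 20 - w) (hlo : 0 ≤ -3 / 20 + d) :
    0 ≤ 47 / 375 + 779 / 500 * d + t - 437 / 500 * q - 1 / 4 * w - d ^ 2 + t ^ 2 - t * q + q ^ 2 - 1 / 2 * w ^ 2 - 1 / 3 * d ^ 3 - d ^ 2 * t + d ^ 2 * q - d * t ^ 2 + d * t * q - d * q ^ 2 - 1 / 3 * t ^ 3 + 1 / 12 * w ^ 3 := by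
  have h := cert (y := yv d t q w 0 0 0 0 0)
    (gs := [(.v 2),
      (.v 3),
      (.v 5),
      (.v 7),
      (.add (.c (3)) (.mul (.c (-5)) (.v 2))),
      (.add (.c (1)) (.add (.mul (.c (-1)) (.v 2)) (.mul (.c (-1)) (.v 3)))),
      (.add (.mul (.c (-1)) (.v 2)) (.add (.mul (.c (-1)) (.v 3)) (.v 5))),
      (.add (.c (1)) (.mul (.c (-1)) (.v 5))),
      (.add (.v 2) (.add (.v 3) (.mul (.c (-1)) (.v 7)))),
      (.add (.c (13)) (.mul (.c (-20)) (.v 7))),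
      (.add (.c (-3)) (.mul (.c (20)) (.v 2)))])
    (p := .mul (.c 400000000) (.add (.add (.add (.add (.c (188)) (.mul (.c (2337)) (.v 2))) (.add (.mul (.c (1500)) (.v 3)) (.mul (.c (-1500)) (.mul (.v 2) (.v 2))))) (.add (.add (.mul (.c (-1311)) (.v 5)) (.mul (.c (-375)) (.v 7))) (.add (.mul (.c (-500)) (.mul (.mul (.v 2) (.v 2)) (.v 2))) (.add (.mul (.c (1500)) (.mul (.v 3) (.v 3))) (.mul (.c (-1500)) (.mul (.mul (.v 2) (.v 2)) (.v 3))))))) (.add (.add (.add (.mul (.c (-1500)) (.mul (.v 3) (.v 5))) (.mul (.c (-1500)) (.mul (.mul (.v 2) (.v 3)) (.v 3)))) (.add (.mul (.c (1500)) (.mul (.mul (.v 2) (.v 2)) (.v 5))) (.mul (.c (1500)) (.mul (.v 5) (.v 5))))) (.add (.add (.mul (.c (-500)) (.mul (.mul (.v 3) (.v 3)) (.v 3))) (.mul (.c (1500)) (.mul (.mul (.v 2) (.v 3)) (.v 5)))) (.add (.mul (.c (-750)) (.mul (.v 7) (.v 7))) (.add (.mul (.c (-1500)) (.mul (.mul (.v 2) (.v 5)) (.v 5))) (.mul (.c (125)) (.mul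 (.mul (.v 7) (.v 7)) (.v 7)))))))))
    (e := (.add (.add (.add (.add (.mul (.pp [(1, 31407360)]) (.sq [(1, -51), (2, -13), (3, -15), (5, 100), (7, -28)])) (.mul (.g 8) (.add (.add (.add (.mul (.g 3) (.add (.add (.pp [(1, 272124600000)]) (.mul (.pp [(1, 3371940)]) (.sq [(2, 100), (3, 91), (5, -72), (7, -82)]))) (.add (.mul (.g 3) (.add (.mul (.g 6) (.pp [(1, 7438200000)])) (.mul (.g 7) (.pp [(1, 14947800000)])))) (.add (.mul (.g 6) (.mul (.g 6) (.pp [(1, 9228600000)]))) (.mul (.g 9) (.pp [(1, 4913490000)])))))) (.mul (.g 7) (.add (.add (.pp [(1, 204388200000)]) (.mul (.g 0) (.mul (.g 2) (.pp [(1, 6660600000)])))) (.add (.mul (.g 1) (.mul (.g 5) (.pp [(1, 21146400000)]))) (.add (.mul (.g 4) (.mul (.g 7) (.pp [(1, 6034680000)]))) (.mul (.g 8) (.mul (.g 9) (.pp [(1, 986520000)])))))))) (.add (.mul (.g 4) (.add (.pp [(1, 33716640000)]) (.add (.mul (.pp [(1, 122700)]) (.sq [(1, -4), (2, -11), (3, -93), (5,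 88), (7, 100)])) (.mul (.pp [(1, 124644)]) (.sq [(1, 34), (2, -33), (3, 42), (5, 100), (7, -86)]))))) (.mul (.g 8) (.add (.mul (.pp [(1, 1719000)]) (.sq [(1, -3), (2, -97), (3, -33), (5, -28), (7, 100)])) (.add (.mul (.pp [(1, 1086420)]) (.sq [(1, -50), (2, 100), (3, -2), (5, -7), (7, 71)])) (.mul (.g 6) (.mul (.g 8) (.pp [(1, 3770400000)])))))))) (.add (.add (.mul (.g 1) (.add (.pp [(1, 304264200000)]) (.mul (.g 0) (.mul (.g 0) (.pp [(1, 12885600000)]))))) (.mul (.g 5) (.add (.mul (.pp [(1, 1937340)]) (.sq [(1, -66), (2, 100), (3, -75), (5, -57), (7, -6)])) (.mul (.g 2) (.mul (.g 9) (.pp [(1, 410520000)])))))) (.add (.mul (.g 6) (.mul (.pp [(1, 35260800)]) (.sq [(1, -11), (2, 20), (3, 26), (5, 50), (7, 32)]))) (.mul (.g 10) (.mul (.pp [(1, 47265)]) (.sq [(1, 37), (2, -13), (3, -16), (5, -99), (7, -100)])))))))) (.add (.mul (.g 10) (.add (.add (.mul (.g 2) (.add (.add (.mul (.g 3) (.add (.mul (.g 3) (.pp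 [(1, 1378080000)])) (.mul (.g 10) (.pp [(1, 79570500)])))) (.mul (.g 4) (.add (.mul (.g 5) (.pp [(1, 769356000)])) (.mul (.g 10) (.pp [(1, 41749500)]))))) (.add (.mul (.g 7) (.add (.mul (.g 0) (.pp [(1, 709980000)])) (.mul (.g 6) (.pp [(1, 14797740000)])))) (.mul (.g 1) (.mul (.g 5) (.pp [(1, 6804540000)])))))) (.add (.mul (.g 4) (.add (.add (.pp [(1, 726456000)]) (.mul (.pp [(1, 3)]) (.sq [(1, -56), (2, 93), (3, -47), (5, -3), (7, 100)]))) (.add (.mul (.g 4) (.add (.mul (.g 3) (.pp [(1, 293814000)])) (.mul (.g 9) (.pp [(1, 16740600)])))) (.mul (.g 9) (.mul (.g 9) (.pp [(1, 1044525)])))))) (.mul (.g 6) (.add (.add (.mul (.g 3) (.mul (.g 3) (.pp [(1, 5289420000)]))) (.mul (.g 7) (.mul (.g 7) (.pp [(1, 13037760000)])))) (.add (.mul (.g 9) (.mul (.g 9) (.pp [(1, 13441875)]))) (.mul (.g 10) (.pp [(1, 493893000)]))))))) (.add (.mul (.g 5) (.add (.mul (.g 0) (.mul (.g 9) (.pp [(1, 9498000)]))) (.mul (.g 7)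 (.mul (.g 10) (.pp [(1, 24847500)]))))) (.add (.mul (.g 7) (.pp [(1, 6834900000)])) (.mul (.g 9) (.pp [(1, 1312551000)])))))) (.mul (.g 1) (.add (.add (.mul (.g 7) (.add (.add (.pp [(1, 164661600000)]) (.mul (.pp [(1, 766800)]) (.sq [(1, -23), (2, 32), (3, -46), (5, 100), (7, -86)]))) (.add (.mul (.g 1) (.mul (.g 4) (.pp [(1, 19834560000)]))) (.mul (.g 2) (.mul (.g 6) (.pp [(1, 23977800000)])))))) (.mul (.g 9) (.add (.mul (.g 9) (.add (.pp [(1, 11160000)]) (.add (.mul (.g 2) (.pp [(1, 17025000)])) (.mul (.g 4) (.pp [(1, 2519700)]))))) (.mul (.g 4) (.pp [(1, 183564000)]))))) (.add (.mul (.g 6) (.add (.mul (.pp [(1, 689820)]) (.sq [(1, 78), (2, 100), (3, 70), (5, 39), (7, 70)])) (.mul (.g 2) (.pp [(1, 74698200000)])))) (.add (.mul (.g 1) (.pp [(1, 99410400000)])) (.mul (.g 5) (.mul (.pp [(1, 282540)]) (.sq [(1, 77), (2, 100), (3, 75), (5, 82), (7, 75)]))))))))) (.add (.add (.mul (.g 6) (.add (.add (.mul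 (.pp [(1, 2750280)]) (.sq [(2, 100), (3, 64), (5, -59), (7, 18)])) (.mul (.g 6) (.add (.add (.mul (.pp [(1, 21000600)]) (.sq [(1, -21), (2, 6), (3, -1), (5, 16), (7, 100)])) (.mul (.g 2) (.mul (.g 7) (.pp [(1, 5382000000)])))) (.add (.mul (.g 3) (.mul (.g 9) (.pp [(1, 6623190000)]))) (.mul (.g 6) (.pp [(1, 77607600000)])))))) (.add (.mul (.g 3) (.add (.mul (.pp [(1, 392220)]) (.sq [(1, 28), (2, -83), (3, -4), (5, 80), (7, -100)])) (.mul (.pp [(1, 5947740)]) (.sq [(1, -46), (2, -82), (3, 33), (5, 57), (7, 100)])))) (.add (.mul (.g 4) (.mul (.pp [(1, 2235636)]) (.sq [(1, -30), (2, 26), (3, -16), (5, -3), (7, 100)]))) (.mul (.g 5) (.mul (.pp [(1, 5690160)]) (.sq [(1, 51), (2, -13), (3, -81), (5, -100), (7, -14)]))))))) (.mul (.g 7) (.add (.mul (.pp [(1, 14069940)]) (.sq [(1, -52), (2, 32), (3, -20), (5, 100), (7, -5)])) (.mul (.g 3) (.mul (.pp [(1, 139080)]) (.sq [(1, -59), (2, -83), (3, 100), (5, 80), (7,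 42)])))))) (.add (.mul (.g 4) (.mul (.pp [(1, 306672)]) (.sq [(1, -49), (2, 47), (3, -9), (5, 100), (7, -3)]))) (.mul (.g 5) (.mul (.g 5) (.mul (.pp [(1, 423720)]) (.sq [(1, 59), (2, -60), (3, -100), (5, -90), (7, -4)]))))))) (.pp [(1, 37253834441), (2, 5909607), (3, 6272454), (4, 6262377), (5, 6483297), (6, 5785968), (7, 6149973), (8, 5568250), (9, 5544135), (10, 5189424), (12, 6363153), (14, 5898090), (15, 5968224), (16, 6107760), (18, 7250943), (20, 6223344), (21, 6819984), (24, 5697180), (25, 5116203), (27, 6254380), (28, 7182981), (30, 5939136), (35, 6079470), (36, 4873620), (40, 5845200), (42, 6964992), (45, 6403320), (49, 5773020), (50, 6784410), (54, 5370960), (56, 4953840), (60, 5221080), (63, 6236976), (70, 5543070), (75, 6451539), (81, 5966760), (84, 4137540), (90, 5062800), (98, 5443320), (100, 6487980), (105, 4236480), (125, 6576348), (126, 4261800), (135, 5802600), (140, 6451740), (147,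 4740660), (150, 6029700), (175, 5908545), (189, 5556900), (196, 7900740), (210, 6308640), (225, 5312460), (245, 6798300), (250, 5995620), (294, 8671380), (315, 5913900), (343, 6440192), (350, 5735820), (375, 6510180), (441, 6242100), (490, 4767360), (525, 6575520), (625, 5846400), (686, 4843320), (735, 7041600), (875, 5776740), (1029, 5669160), (1225, 6067980), (1715, 5365320), (2401, 6281340)])))
    (by decide +kernel) (yv_nonneg hd ht hq hw (le_refl 0) (le_refl 0) (le_refl 0) (le_refl 0) (le_refl 0))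
    (by
      simp only [List.forall_mem_cons, exadd, exsub, exmul, exc, exv2, exv3, exv5, exv7]
      push_cast
      refine ⟨?_, ?_, ?_, ?_, ?_, ?_, ?_, ?_, ?_, ?_, ?_, fun _ hh => absurd hh List.not_mem_nil⟩
      · linarith only [hd]
      · linarith only [ht]
      · linarith only [hq]
      · linarith only [hw]
      · linarith only [hd1]
      · linarith only [ht1]
      · linarith only [hq1]
      · linarith only [hq2]
      · linarith only [hwt]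
      · linarith only [hw1]
      · linarith only [hlo]
    )
  simp only [exadd, exsub, exmul, exc, exv2, exv3, exv5, exv7] at h
  push_cast at h
  linarith only [h]

theorem x3zm {d a b : ℝ} (hd : 0 ≤ d) (ha : 0 ≤ a) (hb : 0 ≤ b) (hd1 : 0 ≤ 3 / 5 - d) (ha1 : 0 ≤ d - a) (hb1 : 0 ≤ d - b) (hab : 0 ≤ -d + a + b) (hlo : 0 ≤ -3 / 20 + d) :
    0 ≤ 47 / 375 + 529 / 500 * d - 78 / 125 * a - 3 / 4 * b - 2 * d ^ 2 + d * a + d * b + 1 / 2 * a ^ 2 + a * b + 1 / 2 * b ^ 2 - 1 / 6 * d ^ 3 + 3 / 4 * d ^ 2 * a + 3 / 4 * d ^ 2 * b - 3 / 4 * d * a ^ 2 - d * a * b - 3 / 4 * d * b ^ 2 - 1 / 12 * a ^ 3 - 1 / 12 * b ^ 3 := by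
  have h := cert (y := yv d a b 0 0 0 0 0 0)
    (gs := [(.v 2),
      (.v 3),
      (.v 5),
      (.add (.c (3)) (.mul (.c (-5)) (.v 2))),
      (.add (.v 2) (.mul (.c (-1)) (.v 3))),
      (.add (.v 2) (.mul (.c (-1)) (.v 5))),
      (.add (.mul (.c (-1)) (.v 2)) (.add (.v 3) (.v 5))),
      (.add (.c (-3)) (.mul (.c (20)) (.v 2)))])
    (p := .mul (.c 5000000) (.add (.add (.add (.add (.c (188)) (.mul (.c (1587)) (.v 2))) (.add (.mul (.c (-936)) (.v 3)) (.mul (.c (-3000)) (.mul (.v 2) (.v 2))))) (.add (.add (.mul (.c (-1125)) (.v 5)) (.mul (.c (1500)) (.mul (.v 2) (.v 3)))) (.add (.mul (.c (-250)) (.mul (.mul (.v 2) (.v 2)) (.v 2))) (.add (.mul (.c (750)) (.mul (.v 3) (.v 3))) (.mul (.c (1500)) (.mul (.v 2) (.v 5))))))) (.add (.add (.add (.mul (.c (1125)) (.mul (.mul (.v 2) (.v 2)) (.v 3))) (.mul (.c (1500)) (.mul (.v 3) (.v 5)))) (.add (.mul (.c (-1125)) (.mul (.mul (.v 2) (.v 3)) (.v 3))) (.mul (.c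 (1125)) (.mul (.mul (.v 2) (.v 2)) (.v 5))))) (.add (.add (.mul (.c (750)) (.mul (.v 5) (.v 5))) (.mul (.c (-125)) (.mul (.mul (.v 3) (.v 3)) (.v 3)))) (.add (.mul (.c (-1500)) (.mul (.mul (.v 2) (.v 3)) (.v 5))) (.add (.mul (.c (-1125)) (.mul (.mul (.v 2) (.v 5)) (.v 5))) (.mul (.c (-125)) (.mul (.mul (.v 5) (.v 5)) (.v 5)))))))))
    (e := (.add (.add (.add (.mul (.g 3) (.add (.add (.mul (.g 3) (.add (.add (.pp [(1, 38047500)]) (.mul (.g 3) (.add (.pp [(1, 995040)]) (.mul (.g 7) (.pp [(1, 108)]))))) (.add (.mul (.g 4) (.mul (.g 4) (.pp [(1, 5700)]))) (.add (.mul (.g 5) (.mul (.g 5) (.pp [(1, 125021100)]))) (.mul (.g 6) (.mul (.g 6) (.pp [(1, 125005500)]))))))) (.add (.mul (.g 1) (.add (.mul (.g 1) (.add (.pp [(1, 194043000)]) (.mul (.g 7) (.pp [(1, 31256325)])))) (.mul (.g 2) (.mul (.g 2) (.pp [(1, 3000)]))))) (.mul (.g 4) (.add (.pp [(1, 1195167000)]) (.mul (.g 4) (.pp [(1, 350284500)])))))) (.add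 (.mul (.g 6) (.add (.mul (.g 6) (.mul (.g 6) (.pp [(1, 19500)]))) (.mul (.g 7) (.pp [(1, 75009525)])))) (.add (.mul (.g 2) (.mul (.g 2) (.mul (.g 2) (.pp [(1, 49500)])))) (.mul (.g 5) (.pp [(1, 1590160500)])))))) (.mul (.g 6) (.add (.add (.mul (.g 2) (.add (.pp [(1, 2703525000)]) (.add (.mul (.g 2) (.mul (.g 5) (.pp [(1, 15000)]))) (.mul (.g 4) (.pp [(1, 52500)]))))) (.mul (.g 6) (.add (.pp [(1, 1273147500)]) (.add (.mul (.g 4) (.mul (.g 6) (.pp [(1, 22500)]))) (.mul (.g 5) (.pp [(1, 105000)])))))) (.add (.mul (.g 0) (.mul (.g 0) (.mul (.g 5) (.pp [(1, 6250695000)])))) (.add (.mul (.g 1) (.mul (.g 4) (.pp [(1, 625132500)]))) (.mul (.g 7) (.pp [(1, 59836125)]))))))) (.add (.mul (.g 1) (.add (.mul (.g 4) (.add (.mul (.g 0) (.add (.pp [(1, 2122477500)]) (.mul (.g 1) (.pp [(1, 127500)])))) (.add (.mul (.g 1) (.mul (.g 1) (.pp [(1, 52500)]))) (.mul (.g 5) (.pp [(1, 625035000)]))))) (.mul (.g 7) (.pp [(1, 79992750)]))))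 (.mul (.g 5) (.add (.mul (.g 2) (.add (.pp [(1, 2476995000)]) (.mul (.g 5) (.add (.mul (.g 4) (.pp [(1, 37500)])) (.mul (.g 5) (.pp [(1, 60000)])))))) (.mul (.g 5) (.mul (.g 5) (.pp [(1, 625177500)]))))))) (.pp [(1, 570715168), (2, 76740), (3, 73350), (4, 75675), (5, 75600), (6, 76725), (8, 68500), (9, 76125), (10, 64425), (12, 90000), (15, 81000), (16, 82500), (18, 67125), (20, 81000), (24, 67500), (25, 83100), (27, 74000), (30, 58500), (36, 67500), (40, 67500), (45, 79500), (50, 73500), (54, 82500), (60, 75000), (75, 78000), (81, 75000), (90, 90000), (100, 75000), (125, 75500), (135, 67500), (150, 82500), (225, 67500), (250, 75000), (375, 75000), (625, 75000)])))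
    (by decide +kernel) (yv_nonneg hd ha hb (le_refl 0) (le_refl 0) (le_refl 0) (le_refl 0) (le_refl 0) (le_refl 0))
    (by
      simp only [List.forall_mem_cons, exadd, exsub, exmul, exc, exv2, exv3, exv5]
      push_cast
      refine ⟨?_, ?_, ?_, ?_, ?_, ?_, ?_, ?_, fun _ hh => absurd hh List.not_mem_nil⟩
      · linarith only [hd]
      · linarith only [ha]
      · linarith only [hb]
      · linarith only [hd1]
      · linarith only [ha1]
      · linarith only [hb1]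
      · linarith only [hab]
      · linarith only [hlo]
    )
  simp only [exadd, exsub, exmul, exc, exv2, exv3, exv5] at h
  push_cast at h
  linarith only [h]

theorem x3ml {d a b : ℝ} (hd : 0 ≤ d) (ha : 0 ≤ a) (hb : 0 ≤ b) (hd1 : 0 ≤ 3 / 5 - d) (ha1 : 0 ≤ d - a) (hb1 : 0 ≤ d - b) (hab : 0 ≤ -d + a + b) (hlo : 0 ≤ -3 / 20 + d) :
    0 ≤ 377 / 1500 + 148 / 125 * d - 219 / 250 * a - 219 / 250 * b - 2 * d ^ 2 + d * a + d * b + 1 / 2 * a ^ 2 + a * b + 1 / 2 * b ^ 2 - 1 / 6 * d ^ 3 + 3 / 4 * d ^ 2 * a + 3 / 4 * d ^ 2 * b - 3 / 4 * d * a ^ 2 - d * a * b - 3 / 4 * d * b ^ 2 - 1 / 12 * a ^ 3 - 1 / 12 * b ^ 3 := by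
  have h := cert (y := yv d a b 0 0 0 0 0 0)
    (gs := [(.v 2),
      (.v 3),
      (.v 5),
      (.add (.c (3)) (.mul (.c (-5)) (.v 2))),
      (.add (.v 2) (.mul (.c (-1)) (.v 3))),
      (.add (.v 2) (.mul (.c (-1)) (.v 5))),
      (.add (.mul (.c (-1)) (.v 2)) (.add (.v 3) (.v 5))),
      (.add (.c (-3)) (.mul (.c (20)) (.v 2)))])
    (p := .mul (.c 20000000) (.add (.add (.add (.add (.c (377)) (.mul (.c (1776)) (.v 2))) (.add (.mul (.c (-1314)) (.v 3)) (.mul (.c (-3000)) (.mul (.v 2) (.v 2))))) (.add (.add (.mul (.c (-1314)) (.v 5)) (.mul (.c (1500)) (.mul (.v 2) (.v 3)))) (.add (.mul (.c (-250)) (.mul (.mul (.v 2) (.v 2)) (.v 2))) (.add (.mul (.c (750)) (.mul (.v 3) (.v 3))) (.mul (.c (1500)) (.mul (.v 2) (.v 5))))))) (.add (.add (.add (.mul (.c (1125)) (.mul (.mul (.v 2) (.v 2)) (.v 3))) (.mul (.c (1500)) (.mul (.v 3) (.v 5)))) (.add (.mul (.c (-1125)) (.mul (.mul (.v 2) (.v 3)) (.v 3))) (.mul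 (.c (1125)) (.mul (.mul (.v 2) (.v 2)) (.v 5))))) (.add (.add (.mul (.c (750)) (.mul (.v 5) (.v 5))) (.mul (.c (-125)) (.mul (.mul (.v 3) (.v 3)) (.v 3)))) (.add (.mul (.c (-1500)) (.mul (.mul (.v 2) (.v 3)) (.v 5))) (.add (.mul (.c (-1125)) (.mul (.mul (.v 2) (.v 5)) (.v 5))) (.mul (.c (-125)) (.mul (.mul (.v 5) (.v 5)) (.v 5)))))))))
    (e := (.add (.add (.add (.mul (.g 3) (.add (.add (.mul (.g 4) (.add (.add (.pp [(1, 2078664000)]) (.add (.mul (.g 4) (.add (.pp [(1, 4483962000)]) (.add (.mul (.g 3) (.pp [(1, 172144800)])) (.mul (.g 4) (.pp [(1, 430542000)]))))) (.mul (.g 2) (.mul (.g 2) (.pp [(1, 13704000)]))))) (.add (.mul (.g 3) (.mul (.g 3) (.pp [(1, 818058960)]))) (.add (.mul (.g 5) (.pp [(1, 5733834000)])) (.mul (.g 6) (.mul (.g 6) (.pp [(1, 402888000)]))))))) (.mul (.g 5) (.add (.add (.pp [(1, 2078664000)]) (.mul (.g 5) (.add (.pp [(1, 4417266000)]) (.add (.mul (.g 3) (.pp [(1, 194376000)]))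 (.mul (.g 5) (.pp [(1, 486120000)])))))) (.add (.mul (.g 1) (.mul (.g 1) (.pp [(1, 69282000)]))) (.add (.mul (.g 3) (.mul (.g 3) (.pp [(1, 818058960)]))) (.mul (.g 6) (.mul (.g 6) (.pp [(1, 347316000)])))))))) (.add (.mul (.g 7) (.mul (.g 7) (.add (.pp [(1, 5376165)]) (.add (.mul (.g 3) (.pp [(1, 9539517)])) (.mul (.g 6) (.pp [(1, 50089005)])))))) (.mul (.g 3) (.mul (.g 3) (.mul (.g 3) (.pp [(1, 7645344)]))))))) (.mul (.g 4) (.add (.add (.pp [(1, 99990000)]) (.mul (.g 1) (.add (.pp [(1, 1500000)]) (.add (.mul (.g 1) (.add (.mul (.g 1) (.pp [(1, 1389570000)])) (.mul (.g 2) (.pp [(1, 1111530000)])))) (.mul (.g 5) (.pp [(1, 333450000)])))))) (.add (.mul (.g 6) (.add (.mul (.g 6) (.add (.mul (.g 2) (.pp [(1, 1667280000)])) (.mul (.g 4) (.pp [(1, 1389270000)])))) (.mul (.g 5) (.pp [(1, 3333360000)])))) (.mul (.g 5) (.pp [(1, 12798210000)])))))) (.add (.mul (.g 5) (.add (.pp [(1, 99990000)]) (.add (.mul (.g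 2) (.add (.pp [(1, 1500000)]) (.mul (.g 2) (.add (.mul (.g 1) (.pp [(1, 2223060000)])) (.mul (.g 2) (.pp [(1, 1945320000)])))))) (.mul (.g 5) (.mul (.g 6) (.mul (.g 6) (.pp [(1, 1945020000)]))))))) (.mul (.g 6) (.mul (.g 7) (.mul (.g 7) (.pp [(1, 87874725)])))))) (.pp [(1, 6002869804), (2, 308355), (3, 298260), (4, 236850), (5, 298260), (6, 324825), (8, 364000), (9, 310800), (10, 310425), (12, 285000), (15, 288000), (16, 240000), (18, 300000), (20, 309000), (24, 390000), (25, 318000), (27, 290000), (30, 252000), (36, 180000), (40, 360000), (45, 312000), (50, 270000), (54, 360000), (60, 180000), (75, 312000), (81, 300000), (90, 420000), (100, 270000), (125, 308000), (135, 270000), (150, 360000), (225, 270000), (250, 300000), (375, 300000), (625, 300000)])))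
    (by decide +kernel) (yv_nonneg hd ha hb (le_refl 0) (le_refl 0) (le_refl 0) (le_refl 0) (le_refl 0) (le_refl 0))
    (by
      simp only [List.forall_mem_cons, exadd, exsub, exmul, exc, exv2, exv3, exv5]
      push_cast
      refine ⟨?_, ?_, ?_, ?_, ?_, ?_, ?_, ?_, fun _ hh => absurd hh List.not_mem_nil⟩
      · linarith only [hd]
      · linarith only [ha]
      · linarith only [hb]
      · linarith only [hd1]
      · linarith only [ha1]
      · linarith only [hb1]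
      · linarith only [hab]
      · linarith only [hlo]
    )
  simp only [exadd, exsub, exmul, exc, exv2, exv3, exv5] at h
  push_cast at h
  linarith only [h]

theorem x4n {d q : ℝ} (hd : 0 ≤ d) (hq : 0 ≤ q) (hd1 : 0 ≤ 3 / 5 - d) (hdq : 0 ≤ -d + q) (hq1 : 0 ≤ 1 - q) :
    0 ≤ 23 / 1500 + 521 / 500 * d - 23 / 125 * q - 3 / 4 * d ^ 2 + 3 / 4 * q ^ 2 - 1 / 12 * d ^ 3 + 1 / 2 * d ^ 2 * q - 3 / 4 * d * q ^ 2 := by
  have h := cert (y := yv d q 0 0 0 0 0 0 0)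
    (gs := [(.v 2),
      (.v 3),
      (.add (.c (3)) (.mul (.c (-5)) (.v 2))),
      (.add (.mul (.c (-1)) (.v 2)) (.v 3)),
      (.add (.c (1)) (.mul (.c (-1)) (.v 3)))])
    (p := .mul (.c 25000000) (.add (.add (.add (.c (23)) (.mul (.c (1563)) (.v 2))) (.add (.mul (.c (-276)) (.v 3)) (.mul (.c (-1125)) (.mul (.v 2) (.v 2))))) (.add (.add (.mul (.c (-125)) (.mul (.mul (.v 2) (.v 2)) (.v 2))) (.mul (.c (1125)) (.mul (.v 3) (.v 3)))) (.add (.mul (.c (750)) (.mul (.mul (.v 2) (.v 2)) (.v 3))) (.mul (.c (-1125)) (.mul (.mul (.v 2) (.v 3)) (.v 3)))))))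
    (e := (.add (.add (.add (.mul (.pp [(1, 1003200)]) (.sq [(1, -6), (3, 25)])) (.mul (.pp [(1, 43175880)]) (.sq [(1, -3), (3, 25)]))) (.add (.mul (.g 0) (.add (.mul (.g 4) (.add (.add (.pp [(1, 39086925000)]) (.mul (.g 0) (.add (.mul (.g 1) (.pp [(1, 12330300000)])) (.mul (.g 2) (.pp [(1, 1902765000)]))))) (.add (.mul (.g 3) (.add (.pp [(1, 22224712500)]) (.mul (.g 3) (.pp [(1, 5048550000)])))) (.mul (.g 1) (.mul (.g 4) (.pp [(1, 5048175000)])))))) (.add (.mul (.g 0) (.add (.mul (.g 0) (.mul (.g 2) (.pp [(1, 446640000)]))) (.mul (.g 3) (.mul (.g 3) (.pp [(1, 2232825000)]))))) (.mul (.g 3) (.pp [(1, 11608950000)]))))) (.add (.mul (.g 4) (.add (.mul (.pp [(1, 75)]) (.sq [(1, -13), (3, 100)])) (.mul (.g 1) (.mul (.g 1) (.mul (.g 1) (.pp [(1, 375000)])))))) (.mul (.g 2) (.mul (.pp [(1, 272916)]) (.sq [(1, -3), (3, 25)])))))) (.pp [(1, 142920473), (2, 356220), (3, 361875), (4, 367500), (6, 400500), (8, 355000),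 (9, 412500), (12, 382500), (16, 375000), (18, 375000), (24, 375000), (27, 375000), (36, 375000), (54, 375000), (81, 375000)])))
    (by decide +kernel) (yv_nonneg hd hq (le_refl 0) (le_refl 0) (le_refl 0) (le_refl 0) (le_refl 0) (le_refl 0) (le_refl 0))
    (by
      simp only [List.forall_mem_cons, exadd, exsub, exmul, exc, exv2, exv3]
      push_cast
      refine ⟨?_, ?_, ?_, ?_, ?_, fun _ hh => absurd hh List.not_mem_nil⟩
      · linarith only [hd]
      · linarith only [hq]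
      · linarith only [hd1]
      · linarith only [hdq]
      · linarith only [hq1]
    )
  simp only [exadd, exsub, exmul, exc, exv2, exv3] at h
  push_cast at h
  linarith only [h]

theorem x4z1 {d q : ℝ} (hd : 0 ≤ d) (hq : 0 ≤ q) (hd1 : 0 ≤ 3 / 5 - d) (hdq : 0 ≤ d - q) :
    0 ≤ 23 / 1500 + 99 / 125 * d + 33 / 500 * q - 5 / 4 * d ^ 2 + d * q + 1 / 4 * q ^ 2 + 1 / 4 * d ^ 2 * q - 1 / 2 * d * q ^ 2 - 1 / 12 * q ^ 3 := by
  have h := cert (y := yv d q 0 0 0 0 0 0 0)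
    (gs := [(.v 2),
      (.v 3),
      (.add (.c (3)) (.mul (.c (-5)) (.v 2))),
      (.add (.v 2) (.mul (.c (-1)) (.v 3)))])
    (p := .mul (.c 250000) (.add (.add (.add (.c (23)) (.mul (.c (1188)) (.v 2))) (.add (.mul (.c (99)) (.v 3)) (.mul (.c (-1875)) (.mul (.v 2) (.v 2))))) (.add (.add (.mul (.c (1500)) (.mul (.v 2) (.v 3))) (.mul (.c (375)) (.mul (.v 3) (.v 3)))) (.add (.mul (.c (375)) (.mul (.mul (.v 2) (.v 2)) (.v 3))) (.add (.mul (.c (-750)) (.mul (.mul (.v 2) (.v 3)) (.v 3))) (.mul (.c (-125)) (.mul (.mul (.v 3) (.v 3)) (.v 3))))))))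
    (e := (.add (.add (.add (.mul (.g 2) (.add (.mul (.g 3) (.add (.pp [(1, 79684425)]) (.mul (.g 3) (.add (.pp [(1, 9373500)]) (.add (.mul (.g 2) (.pp [(1, 1562880)])) (.mul (.g 3) (.pp [(1, 10417950)]))))))) (.add (.mul (.g 0) (.add (.pp [(1, 15004050)]) (.mul (.g 2) (.mul (.g 2) (.pp [(1, 277761)]))))) (.mul (.g 1) (.mul (.g 1) (.pp [(1, 37502250)])))))) (.mul (.g 1) (.add (.pp [(1, 263799375)]) (.add (.mul (.g 1) (.mul (.g 1) (.add (.mul (.g 0) (.pp [(1, 6499500)])) (.mul (.g 3) (.pp [(1, 19536000)]))))) (.mul (.g 3) (.pp [(1, 60946875)])))))) (.add (.mul (.g 0) (.add (.pp [(1, 5431125)]) (.mul (.g 0) (.mul (.g 0) (.mul (.g 0) (.pp [(1, 28201875)])))))) (.mul (.g 3) (.mul (.g 3) (.mul (.g 3) (.mul (.g 3) (.pp [(1, 19532250)]))))))) (.pp [(1, 5750000), (2, 3903), (3, 3900), (4, 3690), (6, 3840), (8, 3825), (9, 3705), (12, 3750), (16, 3750), (18, 3600), (24, 3750), (27, 3850), (36, 3750), (54, 3750),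 (81, 3750)])))
    (by decide +kernel) (yv_nonneg hd hq (le_refl 0) (le_refl 0) (le_refl 0) (le_refl 0) (le_refl 0) (le_refl 0) (le_refl 0))
    (by
      simp only [List.forall_mem_cons, exadd, exsub, exmul, exc, exv2, exv3]
      push_cast
      refine ⟨?_, ?_, ?_, ?_, fun _ hh => absurd hh List.not_mem_nil⟩
      · linarith only [hd]
      · linarith only [hq]
      · linarith only [hd1]
      · linarith only [hdq]
    )
  simp only [exadd, exsub, exmul, exc, exv2, exv3] at h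
  push_cast at h
  linarith only [h]

theorem x4z2 {d t w : ℝ} (hd : 0 ≤ d) (ht : 0 ≤ t) (hw : 0 ≤ w) (hd1 : 0 ≤ 3 / 5 - d) (ht1 : 0 ≤ 1 - d - t) (hwt : 0 ≤ d + t - w) (hw1 : 0 ≤ 13 / 20 - w) :
    0 ≤ 23 / 1500 + 521 / 500 * d + 23 / 125 * t - 1 / 4 * w - 3 / 4 * d ^ 2 + 3 / 4 * t ^ 2 - 1 / 2 * w ^ 2 - 1 / 12 * d ^ 3 - 1 / 2 * d ^ 2 * t - 3 / 4 * d * t ^ 2 - 1 / 3 * t ^ 3 + 1 / 12 * w ^ 3 := by
  have h := cert (y := yv d t w 0 0 0 0 0 0)
    (gs := [(.v 2),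
      (.v 3),
      (.v 5),
      (.add (.c (3)) (.mul (.c (-5)) (.v 2))),
      (.add (.c (1)) (.add (.mul (.c (-1)) (.v 2)) (.mul (.c (-1)) (.v 3)))),
      (.add (.v 2) (.add (.v 3) (.mul (.c (-1)) (.v 5)))),
      (.add (.c (13)) (.mul (.c (-20)) (.v 5)))])
    (p := .mul (.c 320000000) (.add (.add (.add (.c (23)) (.add (.mul (.c (1563)) (.v 2)) (.mul (.c (276)) (.v 3)))) (.add (.mul (.c (-1125)) (.mul (.v 2) (.v 2))) (.add (.mul (.c (-375)) (.v 5)) (.mul (.c (-125)) (.mul (.mul (.v 2) (.v 2)) (.v 2)))))) (.add (.add (.mul (.c (1125)) (.mul (.v 3) (.v 3))) (.add (.mul (.c (-750)) (.mul (.mul (.v 2) (.v 2)) (.v 3))) (.mul (.c (-1125)) (.mul (.mul (.v 2) (.v 3)) (.v 3))))) (.add (.mul (.c (-750)) (.mul (.v 5) (.v 5))) (.add (.mul (.c (-500)) (.mul (.mul (.v 3) (.v 3)) (.v 3))) (.mul (.c (125)) (.mul (.mul (.v 5) (.v 5)) (.v 5))))))))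
    (e := (.add (.add (.mul (.g 5) (.add (.add (.pp [(1, 1333440000)]) (.add (.mul (.g 2) (.add (.add (.mul (.g 5) (.add (.mul (.g 2) (.pp [(1, 25356000000)])) (.add (.mul (.g 3) (.pp [(1, 474528000)])) (.mul (.g 5) (.pp [(1, 70076640000)]))))) (.mul (.g 3) (.pp [(1, 67367328000)]))) (.add (.mul (.g 4) (.mul (.g 4) (.pp [(1, 50607360000)]))) (.mul (.g 6) (.pp [(1, 5441616000)]))))) (.mul (.g 1) (.add (.mul (.g 1) (.add (.pp [(1, 156976800000)]) (.mul (.g 4) (.pp [(1, 385920000)])))) (.add (.mul (.g 0) (.mul (.g 3) (.pp [(1, 210240000)]))) (.mul (.g 4) (.pp [(1, 437004480000)]))))))) (.add (.mul (.g 3) (.add (.pp [(1, 15827232000)]) (.mul (.g 0) (.add (.pp [(1, 31691040000)]) (.mul (.g 5) (.pp [(1, 170688000)])))))) (.add (.mul (.g 4) (.mul (.g 4) (.mul (.g 4) (.pp [(1, 39499680000)])))) (.mul (.g 5) (.mul (.g 5) (.mul (.g 5) (.pp [(1, 39880800000)])))))))) (.add (.mul (.g 6) (.add (.add (.mul (.g 0) (.add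 (.add (.pp [(1, 13128024000)]) (.mul (.g 2) (.add (.pp [(1, 16570992000)]) (.add (.mul (.g 0) (.pp [(1, 194592000)])) (.mul (.g 6) (.pp [(1, 5931600)])))))) (.add (.mul (.g 3) (.pp [(1, 595732800)])) (.mul (.g 4) (.pp [(1, 16655664000)]))))) (.mul (.g 1) (.mul (.g 1) (.add (.pp [(1, 3191568000)]) (.mul (.g 1) (.pp [(1, 52560000)])))))) (.add (.mul (.g 2) (.add (.mul (.g 2) (.mul (.g 2) (.pp [(1, 1479216000)]))) (.mul (.g 4) (.mul (.g 4) (.pp [(1, 190392000)]))))) (.mul (.g 6) (.mul (.g 6) (.mul (.g 6) (.pp [(1, 215121)]))))))) (.mul (.g 3) (.add (.mul (.g 0) (.add (.pp [(1, 472896000)]) (.add (.mul (.g 1) (.add (.pp [(1, 44640000)]) (.mul (.g 3) (.pp [(1, 49190400)])))) (.mul (.g 0) (.mul (.g 3) (.pp [(1, 18720000)])))))) (.add (.mul (.g 1) (.add (.mul (.g 1) (.mul (.g 1) (.pp [(1, 151392000)]))) (.mul (.g 2) (.mul (.g 2) (.pp [(1, 948096000)]))))) (.mul (.g 2) (.pp [(1, 1215072000)]))))))) (.pp [(1,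 1215929119), (2, 4972800), (3, 5184000), (4, 4344000), (5, 4170960), (6, 3638400), (8, 5696000), (9, 4176000), (10, 5511600), (12, 6624000), (15, 5280000), (16, 4320000), (18, 6336000), (20, 4392000), (24, 3840000), (25, 5114400), (27, 5264000), (30, 3888000), (36, 3840000), (40, 5280000), (45, 4680000), (50, 4656000), (54, 4320000), (60, 5760000), (75, 4800000), (81, 4800000), (90, 5280000), (100, 4320000), (125, 4624000), (135, 4800000), (150, 3840000), (225, 4320000), (250, 5280000), (375, 5280000), (625, 4800000)])))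
    (by decide +kernel) (yv_nonneg hd ht hw (le_refl 0) (le_refl 0) (le_refl 0) (le_refl 0) (le_refl 0) (le_refl 0))
    (by
      simp only [List.forall_mem_cons, exadd, exsub, exmul, exc, exv2, exv3, exv5]
      push_cast
      refine ⟨?_, ?_, ?_, ?_, ?_, ?_, ?_, fun _ hh => absurd hh List.not_mem_nil⟩
      · linarith only [hd]
      · linarith only [ht]
      · linarith only [hw]
      · linarith only [hd1]
      · linarith only [ht1]
      · linarith only [hwt]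
      · linarith only [hw1]
    )
  simp only [exadd, exsub, exmul, exc, exv2, exv3, exv5] at h
  push_cast at h
  linarith only [h]

theorem x4m1 {d m q : ℝ} (hd : 0 ≤ d) (hm : 0 ≤ m) (hq : 0 ≤ q) (hd1 : 0 ≤ 3 / 5 - d) (hm1 : 0 ≤ d - m) (hq1 : 0 ≤ -d + m + q) (hq2 : 0 ≤ 1 - q) :
    0 ≤ 199 / 750 + 521 / 500 * d - 3 / 4 * m - 171 / 250 * q - 3 / 2 * d ^ 2 + d * m + 1 / 2 * m ^ 2 + m * q + q ^ 2 - 1 / 4 * d ^ 3 + 3 / 4 * d ^ 2 * m + d ^ 2 * q - 3 / 4 * d * m ^ 2 - d * m * q - d * q ^ 2 - 1 / 12 * m ^ 3 := by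
  have h := cert (y := yv d m q 0 0 0 0 0 0)
    (gs := [(.v 2),
      (.v 3),
      (.v 5),
      (.add (.c (3)) (.mul (.c (-5)) (.v 2))),
      (.add (.v 2) (.mul (.c (-1)) (.v 3))),
      (.add (.mul (.c (-1)) (.v 2)) (.add (.v 3) (.v 5))),
      (.add (.c (1)) (.mul (.c (-1)) (.v 5)))])
    (p := .mul (.c 50000) (.add (.add (.add (.add (.c (398)) (.mul (.c (1563)) (.v 2))) (.add (.mul (.c (-1125)) (.v 3)) (.mul (.c (-2250)) (.mul (.v 2) (.v 2))))) (.add (.add (.mul (.c (-1026)) (.v 5)) (.mul (.c (1500)) (.mul (.v 2) (.v 3)))) (.add (.mul (.c (-375)) (.mul (.mul (.v 2) (.v 2)) (.v 2))) (.mul (.c (750)) (.mul (.v 3) (.v 3)))))) (.add (.add (.add (.mul (.c (1125)) (.mul (.mul (.v 2) (.v 2)) (.v 3))) (.mul (.c (1500)) (.mul (.v 3) (.v 5)))) (.add (.mul (.c (-1125)) (.mul (.mul (.v 2) (.v 3)) (.v 3))) (.mul (.c (1500)) (.mul (.mul (.v 2) (.v 2)) (.v 5))))) (.add (.add (.mul (.c (1500)) (.mul (.v 5) (.v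 5))) (.mul (.c (-125)) (.mul (.mul (.v 3) (.v 3)) (.v 3)))) (.add (.mul (.c (-1500)) (.mul (.mul (.v 2) (.v 3)) (.v 5))) (.mul (.c (-1500)) (.mul (.mul (.v 2) (.v 5)) (.v 5))))))))
    (e := (.add (.add (.add (.mul (.g 4) (.add (.add (.pp [(1, 9568650)]) (.add (.mul (.g 4) (.add (.mul (.g 6) (.add (.mul (.g 5) (.pp [(1, 652800)])) (.mul (.g 6) (.pp [(1, 41746800)])))) (.add (.mul (.g 0) (.mul (.g 3) (.pp [(1, 345)]))) (.mul (.g 4) (.mul (.g 4) (.pp [(1, 1453800)])))))) (.mul (.g 1) (.add (.pp [(1, 21320400)]) (.mul (.g 1) (.add (.pp [(1, 4291350)]) (.mul (.g 6) (.pp [(1, 34515675)])))))))) (.add (.add (.mul (.g 2) (.mul (.g 2) (.mul (.g 2) (.pp [(1, 5129625)])))) (.mul (.g 3) (.pp [(1, 7227450)]))) (.add (.mul (.g 5) (.mul (.g 5) (.mul (.g 5) (.pp [(1, 17660850)])))) (.mul (.g 6) (.mul (.g 6) (.mul (.g 6) (.pp [(1, 24999750)])))))))) (.add (.mul (.g 0) (.add (.add (.mul (.g 3) (.add (.pp [(1, 4406535)])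 (.add (.mul (.g 0) (.add (.mul (.g 3) (.pp [(1, 114993)])) (.mul (.g 6) (.pp [(1, 495)])))) (.mul (.g 5) (.mul (.g 5) (.pp [(1, 3450915)])))))) (.mul (.g 6) (.mul (.g 6) (.add (.mul (.g 0) (.pp [(1, 3921150)])) (.add (.mul (.g 5) (.pp [(1, 55695450)])) (.mul (.g 6) (.pp [(1, 8678850)]))))))) (.add (.mul (.g 1) (.mul (.g 2) (.mul (.g 2) (.pp [(1, 13331175)])))) (.mul (.g 5) (.pp [(1, 45339675)]))))) (.mul (.g 2) (.add (.mul (.g 2) (.mul (.g 2) (.add (.mul (.g 3) (.pp [(1, 4801695)])) (.add (.mul (.g 5) (.pp [(1, 1058475)])) (.mul (.g 6) (.pp [(1, 9292950)])))))) (.add (.mul (.g 1) (.mul (.g 1) (.add (.pp [(1, 7838250)]) (.mul (.g 3) (.pp [(1, 1095)]))))) (.mul (.g 6) (.mul (.g 6) (.mul (.g 6) (.pp [(1, 1301250)]))))))))) (.add (.mul (.g 1) (.mul (.g 1) (.add (.mul (.g 1) (.add (.mul (.g 1) (.pp [(1, 8628150)])) (.mul (.g 3) (.pp [(1, 2301345)])))) (.mul (.g 3) (.pp [(1, 5690955)]))))) (.add (.mul (.g 5)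 (.mul (.g 5) (.mul (.g 5) (.add (.mul (.g 3) (.pp [(1, 4601925)])) (.add (.mul (.g 5) (.pp [(1, 7578150)])) (.mul (.g 6) (.pp [(1, 11193750)]))))))) (.mul (.g 6) (.mul (.g 6) (.mul (.g 6) (.mul (.g 6) (.pp [(1, 13150500)])))))))) (.pp [(1, 6749500), (2, 795), (3, 750), (4, 678), (5, 750), (6, 825), (8, 810), (9, 735), (10, 675), (12, 585), (15, 750), (16, 750), (18, 945), (20, 600), (24, 675), (25, 750), (27, 665), (30, 960), (36, 825), (40, 750), (45, 690), (50, 930), (54, 750), (60, 900), (75, 675), (81, 750), (90, 525), (100, 900), (125, 690), (135, 825), (150, 450), (225, 900), (250, 600), (375, 900), (625, 825)])))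
    (by decide +kernel) (yv_nonneg hd hm hq (le_refl 0) (le_refl 0) (le_refl 0) (le_refl 0) (le_refl 0) (le_refl 0))
    (by
      simp only [List.forall_mem_cons, exadd, exsub, exmul, exc, exv2, exv3, exv5]
      push_cast
      refine ⟨?_, ?_, ?_, ?_, ?_, ?_, ?_, fun _ hh => absurd hh List.not_mem_nil⟩
      · linarith only [hd]
      · linarith only [hm]
      · linarith only [hq]
      · linarith only [hd1]
      · linarith only [hm1]
      · linarith only [hq1]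
      · linarith only [hq2]
    )
  simp only [exadd, exsub, exmul, exc, exv2, exv3, exv5] at h
  push_cast at h
  linarith only [h]

theorem x4m2 {d t q w : ℝ} (hd : 0 ≤ d) (ht : 0 ≤ t) (hq : 0 ≤ q) (hw : 0 ≤ w) (hd1 : 0 ≤ 3 / 5 - d) (ht1 : 0 ≤ 1 - d - t) (hq1 : 0 ≤ -d - t + q) (hq2 : 0 ≤ 1 - q) (hwt : 0 ≤ d + t - w) (hw1 : 0 ≤ 13 / 20 - w) :
    0 ≤ 199 / 750 + 323 / 250 * d + t - 171 / 250 * q - 1 / 4 * w - d ^ 2 + t ^ 2 - t * q + q ^ 2 - 1 / 2 * w ^ 2 - 1 / 3 * d ^ 3 - d ^ 2 * t + d ^ 2 * q - d * t ^ 2 + d * t * q - d * q ^ 2 - 1 / 3 * t ^ 3 + 1 / 12 * w ^ 3 := by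
  have h := cert (y := yv d t q w 0 0 0 0 0)
    (gs := [(.v 2),
      (.v 3),
      (.v 5),
      (.v 7),
      (.add (.c (3)) (.mul (.c (-5)) (.v 2))),
      (.add (.c (1)) (.add (.mul (.c (-1)) (.v 2)) (.mul (.c (-1)) (.v 3)))),
      (.add (.mul (.c (-1)) (.v 2)) (.add (.mul (.c (-1)) (.v 3)) (.v 5))),
      (.add (.c (1)) (.mul (.c (-1)) (.v 5))),
      (.add (.v 2) (.add (.v 3) (.mul (.c (-1)) (.v 7)))),
      (.add (.c (13)) (.mul (.c (-20)) (.v 7)))])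
    (p := .mul (.c 400000000) (.add (.add (.add (.add (.c (398)) (.mul (.c (1938)) (.v 2))) (.add (.mul (.c (1500)) (.v 3)) (.mul (.c (-1500)) (.mul (.v 2) (.v 2))))) (.add (.add (.mul (.c (-1026)) (.v 5)) (.mul (.c (-375)) (.v 7))) (.add (.mul (.c (-500)) (.mul (.mul (.v 2) (.v 2)) (.v 2))) (.add (.mul (.c (1500)) (.mul (.v 3) (.v 3))) (.mul (.c (-1500)) (.mul (.mul (.v 2) (.v 2)) (.v 3))))))) (.add (.add (.add (.mul (.c (-1500)) (.mul (.v 3) (.v 5))) (.mul (.c (-1500)) (.mul (.mul (.v 2) (.v 3)) (.v 3)))) (.add (.mul (.c (1500)) (.mul (.mul (.v 2) (.v 2)) (.v 5))) (.mul (.c (1500)) (.mul (.v 5) (.v 5))))) (.add (.add (.mul (.c (-500)) (.mul (.mul (.v 3) (.v 3)) (.v 3))) (.mul (.c (1500)) (.mul (.mul (.v 2) (.v 3)) (.v 5)))) (.add (.mul (.c (-750)) (.mul (.v 7) (.v 7))) (.add (.mul (.c (-1500)) (.mul (.mul (.v 2) (.v 5)) (.v 5))) (.mul (.c (125)) (.mul (.mul (.v 7) (.v 7)) (.v 7)))))))))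
    (e := (.add (.add (.add (.add (.mul (.g 8) (.add (.add (.add (.mul (.g 1) (.add (.add (.mul (.g 1) (.add (.mul (.g 3) (.pp [(1, 305791800000)])) (.add (.mul (.g 4) (.pp [(1, 8355000000)])) (.mul (.g 5) (.pp [(1, 393468000000)]))))) (.mul (.g 0) (.add (.mul (.g 0) (.pp [(1, 718066200000)])) (.mul (.g 4) (.pp [(1, 161639760000)]))))) (.add (.mul (.g 6) (.add (.mul (.g 3) (.pp [(1, 135048600000)])) (.mul (.g 8) (.pp [(1, 134964600000)])))) (.add (.mul (.g 7) (.mul (.g 9) (.pp [(1, 17649690000)]))) (.mul (.g 8) (.mul (.g 8) (.pp [(1, 147505200000)]))))))) (.mul (.g 7) (.add (.add (.pp [(1, 233175600000)]) (.mul (.pp [(1, 9543060)]) (.sq [(1, -23), (2, -60), (3, 81), (5, 32), (7, 100)]))) (.add (.mul (.pp [(1, 9048600)]) (.sq [(1, -52), (2, 6), (3, -100), (5, 49), (7, 95)])) (.add (.mul (.g 2) (.add (.mul (.g 0) (.pp [(1, 196856400000)])) (.mul (.g 2) (.pp [(1, 53103600000)])))) (.mul (.g 7) (.add (.mul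 (.g 4) (.pp [(1, 53261280000)])) (.mul (.g 5) (.pp [(1, 198758400000)]))))))))) (.add (.mul (.g 0) (.add (.mul (.g 4) (.add (.mul (.g 2) (.pp [(1, 22971720000)])) (.mul (.g 9) (.pp [(1, 1682808000)])))) (.add (.mul (.g 0) (.mul (.g 8) (.pp [(1, 14526600000)]))) (.mul (.g 6) (.pp [(1, 368400600000)]))))) (.mul (.g 8) (.add (.mul (.pp [(1, 7997820)]) (.sq [(1, 17), (2, 5), (3, 100), (5, -34), (7, -45)])) (.add (.mul (.pp [(1, 7213860)]) (.sq [(1, 100), (2, -28), (3, -28), (5, 89), (7, 11)])) (.mul (.g 6) (.mul (.g 9) (.pp [(1, 6499500000)])))))))) (.add (.add (.mul (.g 3) (.add (.pp [(1, 489765000000)]) (.mul (.g 9) (.pp [(1, 5414010000)])))) (.mul (.g 2) (.mul (.g 4) (.mul (.g 4) (.pp [(1, 17411808000)]))))) (.add (.mul (.g 5) (.mul (.pp [(1, 4142520)]) (.sq [(1, -7), (2, 86), (3, 60), (5, 100), (7, 27)]))) (.add (.mul (.g 6) (.mul (.pp [(1, 8585940)]) (.sq [(1, 12), (2, 9), (3, 100), (5, 13), (7, -50)])))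 (.mul (.g 9) (.mul (.pp [(1, 796179)]) (.sq [(1, 28), (2, 100), (3, -55), (5, -44), (7, -19)])))))))) (.mul (.g 0) (.add (.add (.mul (.g 1) (.add (.add (.mul (.pp [(1, 2997900)]) (.sq [(1, 1), (2, -34), (3, 100), (5, 13), (7, -84)])) (.mul (.g 3) (.add (.mul (.g 1) (.pp [(1, 64233000000)])) (.add (.mul (.g 3) (.pp [(1, 80577000000)])) (.mul (.g 4) (.pp [(1, 109476000000)])))))) (.add (.mul (.g 5) (.add (.pp [(1, 20631600000)]) (.mul (.g 1) (.pp [(1, 21078600000)])))) (.mul (.g 4) (.mul (.g 7) (.pp [(1, 2088960000)])))))) (.mul (.g 4) (.add (.pp [(1, 54330360000)]) (.add (.mul (.g 2) (.add (.mul (.g 5) (.pp [(1, 44760960000)])) (.mul (.g 6) (.pp [(1, 22197240000)])))) (.mul (.g 3) (.mul (.g 4) (.pp [(1, 1230576000)]))))))) (.add (.mul (.g 0) (.add (.mul (.g 2) (.mul (.g 5) (.pp [(1, 253082400000)]))) (.add (.mul (.g 6) (.pp [(1, 11233800000)])) (.mul (.g 9) (.mul (.g 9) (.pp [(1, 376864500)])))))) (.add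 (.mul (.g 7) (.add (.pp [(1, 70735800000)]) (.mul (.g 6) (.add (.mul (.g 6) (.pp [(1, 344025000000)])) (.mul (.g 7) (.pp [(1, 243895200000)])))))) (.mul (.g 9) (.pp [(1, 1394940000)]))))))) (.add (.mul (.g 3) (.add (.add (.mul (.g 1) (.add (.mul (.g 1) (.add (.mul (.g 7) (.pp [(1, 267429000000)])) (.mul (.g 9) (.pp [(1, 2246670000)])))) (.add (.mul (.g 4) (.mul (.g 4) (.pp [(1, 21061224000)]))) (.mul (.g 6) (.mul (.g 6) (.pp [(1, 122440800000)])))))) (.mul (.g 3) (.add (.mul (.pp [(1, 98820)]) (.sq [(1, 12), (2, 54), (3, -31), (5, 18), (7, 100)])) (.mul (.g 3) (.add (.mul (.g 3) (.pp [(1, 9198600000)])) (.mul (.g 4) (.pp [(1, 24755400000)]))))))) (.add (.mul (.g 6) (.add (.mul (.pp [(1, 25091400)]) (.sq [(1, 13), (2, 2), (3, 100), (5, -28), (7, -6)])) (.add (.mul (.pp [(1, 6977400)]) (.sq [(1, 42), (2, 100), (3, -33), (5, -60), (7, -6)])) (.mul (.pp [(1, 3523620)]) (.sq [(1, 83), (2, 100), (3, 100), (5,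 100), (7, 100)]))))) (.add (.mul (.g 7) (.mul (.g 7) (.add (.pp [(1, 237878400000)]) (.mul (.g 4) (.pp [(1, 77626800000)]))))) (.mul (.g 9) (.mul (.g 9) (.mul (.g 9) (.pp [(1, 4126275)])))))))) (.mul (.g 5) (.add (.mul (.g 5) (.add (.mul (.pp [(1, 31111440)]) (.sq [(1, -5), (2, 18), (3, 100), (5, 32), (7, -37)])) (.mul (.pp [(1, 17167860)]) (.sq [(1, -41), (2, -2), (3, -8), (5, 100), (7, -9)])))) (.mul (.g 4) (.mul (.pp [(1, 6373944)]) (.sq [(1, -41), (2, -5), (3, -4), (5, 100), (7, -9)]))))))) (.add (.add (.mul (.g 6) (.add (.mul (.g 6) (.add (.mul (.g 1) (.mul (.g 1) (.pp [(1, 83846400000)]))) (.mul (.g 6) (.mul (.g 7) (.pp [(1, 90689400000)]))))) (.mul (.g 9) (.mul (.pp [(1, 1121376)]) (.sq [(1, -15), (2, 10), (3, -2), (5, 100), (7, 71)]))))) (.mul (.g 1) (.mul (.g 1) (.mul (.g 1) (.mul (.g 4) (.pp [(1, 10764960000)])))))) (.add (.mul (.g 2) (.mul (.g 9) (.mul (.pp [(1, 157404)]) (.sq [(1, -21), (2,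 2), (3, -5), (5, 100), (7, 68)])))) (.mul (.g 7) (.mul (.g 7) (.mul (.pp [(1, 9839760)]) (.sq [(1, 40), (2, 47), (3, 100), (5, -96), (7, -49)]))))))) (.pp [(1, 81675625748), (2, 5549484), (3, 5851668), (4, 6118020), (5, 5302068), (6, 6876636), (7, 5780517), (8, 5740600), (9, 6879864), (10, 6851556), (12, 5794800), (14, 6548724), (15, 5988828), (16, 5806320), (18, 5596869), (20, 6496992), (21, 5434980), (24, 5784840), (25, 7330080), (27, 5630149), (28, 7611480), (30, 5494200), (35, 6539664), (36, 6608520), (40, 5780580), (42, 7464522), (45, 5008068), (49, 6117060), (50, 5027928), (54, 7600320), (56, 6691980), (60, 5399340), (63, 6045957), (70, 5612472), (75, 6454008), (81, 6462720), (84, 6750180), (90, 5250060), (98, 5385033), (100, 6730920), (105, 7099608), (125, 5013120), (126, 5918220), (135, 5514900), (140, 5548260), (147, 6742263), (150, 7315020), (175, 3912072), (189, 6335220), (196, 6121920), (210,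 6495960), (225, 7143360), (245, 5570328), (250, 5952420), (294, 7581720), (315, 6442380), (343, 5983847), (350, 5353500), (375, 5550180), (441, 6932700), (490, 6428040), (525, 4623540), (625, 6171840), (686, 6243660), (735, 5451000), (875, 6682140), (1029, 5858460), (1225, 6264300), (1715, 5763600), (2401, 6525060)])))
    (by decide +kernel) (yv_nonneg hd ht hq hw (le_refl 0) (le_refl 0) (le_refl 0) (le_refl 0) (le_refl 0))
    (by
      simp only [List.forall_mem_cons, exadd, exsub, exmul, exc, exv2, exv3, exv5, exv7]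
      push_cast
      refine ⟨?_, ?_, ?_, ?_, ?_, ?_, ?_, ?_, ?_, ?_, fun _ hh => absurd hh List.not_mem_nil⟩
      · linarith only [hd]
      · linarith only [ht]
      · linarith only [hq]
      · linarith only [hw]
      · linarith only [hd1]
      · linarith only [ht1]
      · linarith only [hq1]
      · linarith only [hq2]
      · linarith only [hwt]
      · linarith only [hw1]
    )
  simp only [exadd, exsub, exmul, exc, exv2, exv3, exv5, exv7] at h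
  push_cast at h
  linarith only [h]

theorem x4zm {d a b : ℝ} (hd : 0 ≤ d) (ha : 0 ≤ a) (hb : 0 ≤ b) (hd1 : 0 ≤ 3 / 5 - d) (ha1 : 0 ≤ d - a) (hb1 : 0 ≤ d - b) (hab : 0 ≤ -d + a + b) :
    0 ≤ 199 / 750 + 99 / 125 * d - 217 / 500 * a - 3 / 4 * b - 2 * d ^ 2 + d * a + d * b + 1 / 2 * a ^ 2 + a * b + 1 / 2 * b ^ 2 - 1 / 6 * d ^ 3 + 3 / 4 * d ^ 2 * a + 3 / 4 * d ^ 2 * b - 3 / 4 * d * a ^ 2 - d * a * b - 3 / 4 * d * b ^ 2 - 1 / 12 * a ^ 3 - 1 / 12 * b ^ 3 := by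
  have h := cert (y := yv d a b 0 0 0 0 0 0)
    (gs := [(.v 2),
      (.v 3),
      (.v 5),
      (.add (.c (3)) (.mul (.c (-5)) (.v 2))),
      (.add (.v 2) (.mul (.c (-1)) (.v 3))),
      (.add (.v 2) (.mul (.c (-1)) (.v 5))),
      (.add (.mul (.c (-1)) (.v 2)) (.add (.v 3) (.v 5)))])
    (p := .mul (.c 1250000) (.add (.add (.add (.add (.c (398)) (.mul (.c (1188)) (.v 2))) (.add (.mul (.c (-651)) (.v 3)) (.mul (.c (-3000)) (.mul (.v 2) (.v 2))))) (.add (.add (.mul (.c (-1125)) (.v 5)) (.mul (.c (1500)) (.mul (.v 2) (.v 3)))) (.add (.mul (.c (-250)) (.mul (.mul (.v 2) (.v 2)) (.v 2))) (.add (.mul (.c (750)) (.mul (.v 3) (.v 3))) (.mul (.c (1500)) (.mul (.v 2) (.v 5))))))) (.add (.add (.add (.mul (.c (1125)) (.mul (.mul (.v 2) (.v 2)) (.v 3))) (.mul (.c (1500)) (.mul (.v 3) (.v 5)))) (.add (.mul (.c (-1125)) (.mul (.mul (.v 2) (.v 3)) (.v 3))) (.mul (.c (1125)) (.mul (.mul (.v 2) (.v 2)) (.v 5)))))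 (.add (.add (.mul (.c (750)) (.mul (.v 5) (.v 5))) (.mul (.c (-125)) (.mul (.mul (.v 3) (.v 3)) (.v 3)))) (.add (.mul (.c (-1500)) (.mul (.mul (.v 2) (.v 3)) (.v 5))) (.add (.mul (.c (-1125)) (.mul (.mul (.v 2) (.v 5)) (.v 5))) (.mul (.c (-125)) (.mul (.mul (.v 5) (.v 5)) (.v 5)))))))))
    (e := (.add (.add (.add (.mul (.g 3) (.add (.add (.pp [(1, 85294500)]) (.add (.mul (.g 3) (.add (.add (.mul (.g 3) (.add (.mul (.g 3) (.pp [(1, 1675152)])) (.mul (.g 4) (.pp [(1, 10516020)])))) (.mul (.g 5) (.add (.pp [(1, 52875675)]) (.mul (.g 5) (.pp [(1, 9253725)]))))) (.add (.mul (.g 2) (.mul (.g 2) (.pp [(1, 10782450)]))) (.mul (.g 6) (.mul (.g 6) (.pp [(1, 52394925)])))))) (.mul (.g 1) (.add (.mul (.g 0) (.mul (.g 1) (.pp [(1, 332783250)]))) (.add (.mul (.g 2) (.mul (.g 2) (.pp [(1, 242682750)]))) (.mul (.g 4) (.mul (.g 4) (.pp [(1, 20232750)])))))))) (.add (.mul (.g 0) (.mul (.g 0) (.mul (.g 0) (.pp [(1, 424875)]))))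 (.add (.mul (.g 4) (.pp [(1, 375278250)])) (.mul (.g 5) (.pp [(1, 339205125)])))))) (.mul (.g 6) (.add (.add (.pp [(1, 87226875)]) (.mul (.g 6) (.add (.pp [(1, 465935625)]) (.add (.mul (.g 6) (.add (.add (.pp [(1, 180191250)]) (.mul (.g 1) (.pp [(1, 202213125)]))) (.add (.mul (.g 2) (.pp [(1, 50553750)])) (.mul (.g 4) (.pp [(1, 353893125)]))))) (.mul (.g 5) (.pp [(1, 634320000)])))))) (.add (.mul (.g 0) (.add (.pp [(1, 453898125)]) (.mul (.g 0) (.mul (.g 5) (.pp [(1, 1406426250)]))))) (.mul (.g 4) (.mul (.g 4) (.pp [(1, 93727500)]))))))) (.add (.mul (.g 1) (.add (.pp [(1, 508771875)]) (.add (.mul (.g 4) (.add (.pp [(1, 9375)]) (.add (.mul (.g 1) (.add (.pp [(1, 490886250)]) (.mul (.g 4) (.pp [(1, 151661250)])))) (.mul (.g 0) (.pp [(1, 1014823125)]))))) (.mul (.g 1) (.mul (.g 5) (.mul (.g 5) (.pp [(1, 303358125)]))))))) (.mul (.g 5) (.add (.mul (.g 2) (.add (.pp [(1, 180335625)]) (.add (.mul (.g 2) (.mul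 (.g 2) (.pp [(1, 134846250)]))) (.mul (.g 5) (.pp [(1, 297860625)]))))) (.add (.mul (.g 4) (.mul (.g 4) (.mul (.g 4) (.pp [(1, 404465625)])))) (.mul (.g 5) (.mul (.g 5) (.mul (.g 5) (.pp [(1, 84273750)]))))))))) (.pp [(1, 105929188), (2, 17715), (3, 18540), (4, 19275), (5, 19575), (6, 18450), (8, 15250), (9, 19425), (10, 17325), (12, 21375), (15, 20100), (16, 20625), (18, 17625), (20, 21000), (24, 18750), (25, 20100), (27, 19250), (30, 18000), (36, 18750), (40, 15000), (45, 18750), (50, 18000), (54, 18750), (60, 20625), (75, 18000), (81, 18750), (90, 15000), (100, 24375), (125, 18125), (135, 20625), (150, 16875), (225, 20625), (250, 16875), (375, 18750), (625, 18750)])))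
    (by decide +kernel) (yv_nonneg hd ha hb (le_refl 0) (le_refl 0) (le_refl 0) (le_refl 0) (le_refl 0) (le_refl 0))
    (by
      simp only [List.forall_mem_cons, exadd, exsub, exmul, exc, exv2, exv3, exv5]
      push_cast
      refine ⟨?_, ?_, ?_, ?_, ?_, ?_, ?_, fun _ hh => absurd hh List.not_mem_nil⟩
      · linarith only [hd]
      · linarith only [ha]
      · linarith only [hb]
      · linarith only [hd1]
      · linarith only [ha1]
      · linarith only [hb1]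
      · linarith only [hab]
    )
  simp only [exadd, exsub, exmul, exc, exv2, exv3, exv5] at h
  push_cast at h
  linarith only [h]

theorem x4ml {d a b : ℝ} (hd : 0 ≤ d) (ha : 0 ≤ a) (hb : 0 ≤ b) (hd1 : 0 ≤ 3 / 5 - d) (ha1 : 0 ≤ d - a) (hb1 : 0 ≤ d - b) (hab : 0 ≤ -d + a + b) :
    0 ≤ 218 / 375 + 277 / 250 * d - 533 / 500 * a - 533 / 500 * b - 2 * d ^ 2 + d * a + d * b + 1 / 2 * a ^ 2 + a * b + 1 / 2 * b ^ 2 - 1 / 6 * d ^ 3 + 3 / 4 * d ^ 2 * a + 3 / 4 * d ^ 2 * b - 3 / 4 * d * a ^ 2 - d * a * b - 3 / 4 * d * b ^ 2 - 1 / 12 * a ^ 3 - 1 / 12 * b ^ 3 := by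
  have h := cert (y := yv d a b 0 0 0 0 0 0)
    (gs := [(.v 2),
      (.v 3),
      (.v 5),
      (.add (.c (3)) (.mul (.c (-5)) (.v 2))),
      (.add (.v 2) (.mul (.c (-1)) (.v 3))),
      (.add (.v 2) (.mul (.c (-1)) (.v 5))),
      (.add (.mul (.c (-1)) (.v 2)) (.add (.v 3) (.v 5)))])
    (p := .mul (.c 1250000) (.add (.add (.add (.add (.c (872)) (.mul (.c (1662)) (.v 2))) (.add (.mul (.c (-1599)) (.v 3)) (.mul (.c (-3000)) (.mul (.v 2) (.v 2))))) (.add (.add (.mul (.c (-1599)) (.v 5)) (.mul (.c (1500)) (.mul (.v 2) (.v 3)))) (.add (.mul (.c (-250)) (.mul (.mul (.v 2) (.v 2)) (.v 2))) (.add (.mul (.c (750)) (.mul (.v 3) (.v 3))) (.mul (.c (1500)) (.mul (.v 2) (.v 5))))))) (.add (.add (.add (.mul (.c (1125)) (.mul (.mul (.v 2) (.v 2)) (.v 3))) (.mul (.c (1500)) (.mul (.v 3) (.v 5)))) (.add (.mul (.c (-1125)) (.mul (.mul (.v 2) (.v 3)) (.v 3))) (.mul (.c (1125)) (.mul (.mul (.v 2) (.v 2)) (.v 5)))))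 (.add (.add (.mul (.c (750)) (.mul (.v 5) (.v 5))) (.mul (.c (-125)) (.mul (.mul (.v 3) (.v 3)) (.v 3)))) (.add (.mul (.c (-1500)) (.mul (.mul (.v 2) (.v 3)) (.v 5))) (.add (.mul (.c (-1125)) (.mul (.mul (.v 2) (.v 5)) (.v 5))) (.mul (.c (-125)) (.mul (.mul (.v 5) (.v 5)) (.v 5)))))))))
    (e := (.add (.add (.add (.mul (.g 3) (.add (.add (.mul (.g 3) (.add (.add (.pp [(1, 23013900)]) (.mul (.g 3) (.add (.mul (.g 3) (.pp [(1, 2277108)])) (.mul (.g 4) (.pp [(1, 23252865)]))))) (.add (.mul (.g 5) (.add (.pp [(1, 139517175)]) (.mul (.g 5) (.pp [(1, 9237150)])))) (.add (.mul (.g 4) (.mul (.g 4) (.pp [(1, 59335350)]))) (.mul (.g 6) (.mul (.g 6) (.pp [(1, 4692450)]))))))) (.add (.mul (.g 5) (.add (.pp [(1, 247704750)]) (.add (.mul (.g 5) (.add (.pp [(1, 251301375)]) (.mul (.g 5) (.pp [(1, 5346375)])))) (.mul (.g 4) (.pp [(1, 312013125)]))))) (.mul (.g 4) (.add (.pp [(1, 456980625)]) (.mul (.g 4) (.pp [(1, 101006625)]))))))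 (.add (.mul (.g 6) (.mul (.g 6) (.add (.pp [(1, 19403625)]) (.mul (.g 6) (.pp [(1, 11133375)]))))) (.add (.mul (.g 0) (.mul (.g 1) (.mul (.g 1) (.pp [(1, 325496625)])))) (.mul (.g 2) (.mul (.g 2) (.mul (.g 2) (.pp [(1, 12375)])))))))) (.mul (.g 6) (.add (.mul (.g 6) (.add (.mul (.g 4) (.add (.pp [(1, 33406875)]) (.mul (.g 6) (.pp [(1, 2221875)])))) (.mul (.g 5) (.add (.pp [(1, 33406875)]) (.mul (.g 6) (.pp [(1, 13359375)])))))) (.add (.mul (.g 0) (.add (.mul (.g 0) (.mul (.g 5) (.pp [(1, 361578750)]))) (.add (.mul (.g 2) (.pp [(1, 143340000)])) (.mul (.g 4) (.pp [(1, 49560000)]))))) (.mul (.g 1) (.mul (.g 1) (.mul (.g 1) (.pp [(1, 20006250)])))))))) (.add (.mul (.g 1) (.add (.mul (.g 4) (.add (.mul (.g 1) (.pp [(1, 156262500)])) (.add (.mul (.g 4) (.mul (.g 4) (.pp [(1, 17803125)]))) (.mul (.g 5) (.mul (.g 5) (.pp [(1, 33414375)])))))) (.mul (.g 2) (.mul (.g 2) (.add (.mul (.g 1) (.pp [(1, 80139375)]))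 (.mul (.g 2) (.pp [(1, 42281250)]))))))) (.mul (.g 5) (.add (.mul (.g 2) (.mul (.g 2) (.add (.pp [(1, 140261250)]) (.mul (.g 5) (.pp [(1, 13340625)]))))) (.mul (.g 4) (.pp [(1, 738056250)])))))) (.pp [(1, 698429152), (2, 17265), (3, 19230), (4, 20550), (5, 18825), (6, 17625), (8, 17500), (9, 19050), (10, 19425), (12, 22500), (15, 18525), (16, 16875), (18, 15750), (20, 19125), (24, 20625), (25, 18600), (27, 19250), (30, 14625), (36, 20625), (40, 24375), (45, 20250), (50, 17250), (54, 16875), (60, 15000), (75, 20250), (81, 18750), (90, 18750), (100, 15000), (125, 20000), (135, 18750), (150, 20625), (225, 18750), (250, 18750), (375, 18750), (625, 18750)])))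
    (by decide +kernel) (yv_nonneg hd ha hb (le_refl 0) (le_refl 0) (le_refl 0) (le_refl 0) (le_refl 0) (le_refl 0))
    (by
      simp only [List.forall_mem_cons, exadd, exsub, exmul, exc, exv2, exv3, exv5]
      push_cast
      refine ⟨?_, ?_, ?_, ?_, ?_, ?_, ?_, fun _ hh => absurd hh List.not_mem_nil⟩
      · linarith only [hd]
      · linarith only [ha]
      · linarith only [hb]
      · linarith only [hd1]
      · linarith only [ha1]
      · linarith only [hb1]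
      · linarith only [hab]
    )
  simp only [exadd, exsub, exmul, exc, exv2, exv3, exv5] at h
  push_cast at h
  linarith only [h]

theorem x5N {d a b : ℝ} (h1 : 0 ≤ d) (ha : 0 ≤ a) (hb : 0 ≤ b) (h2 : 0 ≤ 3 / 5 - d) (h3 : 0 ≤ -d + a) (h4 : 0 ≤ -d + b) (h5 : 0 ≤ 1 - a - b) :
    0 ≤ 161 / 1500 + 741 / 500 * d - 241 / 500 * a - 76 / 125 * b - d ^ 2 + a ^ 2 + a * b + b ^ 2 - 1 / 3 * d ^ 3 + d ^ 2 * a + d ^ 2 * b - d * a ^ 2 - d * a * b - d * b ^ 2 := by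
  have h := cert (y := yv d a b 0 0 0 0 0 0)
    (gs := [(.v 2),
      (.v 3),
      (.v 5),
      (.add (.c (3)) (.mul (.c (-5)) (.v 2))),
      (.add (.mul (.c (-1)) (.v 2)) (.v 3)),
      (.add (.mul (.c (-1)) (.v 2)) (.v 5)),
      (.add (.c (1)) (.add (.mul (.c (-1)) (.v 3)) (.mul (.c (-1)) (.v 5))))])
    (p := .mul (.c 500000000) (.add (.add (.add (.c (161)) (.add (.mul (.c (2223)) (.v 2)) (.mul (.c (-723)) (.v 3)))) (.add (.add (.mul (.c (-1500)) (.mul (.v 2) (.v 2))) (.mul (.c (-912)) (.v 5))) (.add (.mul (.c (-500)) (.mul (.mul (.v 2) (.v 2)) (.v 2))) (.mul (.c (1500)) (.mul (.v 3) (.v 3)))))) (.add (.add (.mul (.c (1500)) (.mul (.mul (.v 2) (.v 2)) (.v 3))) (.add (.mul (.c (1500)) (.mul (.v 3) (.v 5))) (.mul (.c (-1500)) (.mul (.mul (.v 2) (.v 3)) (.v 3))))) (.add (.add (.mul (.c (1500)) (.mul (.mul (.v 2) (.v 2)) (.v 5))) (.mul (.c (1500)) (.mul (.v 5) (.v 5)))) (.add (.mul (.c (-1500)) (.mul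 (.mul (.v 2) (.v 3)) (.v 5))) (.mul (.c (-1500)) (.mul (.mul (.v 2) (.v 5)) (.v 5))))))))
    (e := (.add (.add (.add (.add (.mul (.pp [(1, 19448775)]) (.sq [(1, -29), (3, 22), (5, 100)])) (.mul (.pp [(1, 48498300)]) (.sq [(1, -3), (3, 50), (5, -12)]))) (.add (.mul (.pp [(1, 17499450)]) (.sq [(1, -23), (5, 100)])) (.add (.mul (.pp [(1, 141100200)]) (.sq [(1, -15), (3, 50), (5, 33)])) (.mul (.g 0) (.add (.add (.pp [(1, 635149500000)]) (.mul (.g 6) (.add (.add (.pp [(1, 447121500000)]) (.mul (.g 5) (.add (.pp [(1, 285367500000)]) (.mul (.g 5) (.pp [(1, 208496250000)]))))) (.add (.mul (.g 6) (.add (.mul (.g 4) (.pp [(1, 349019250000)])) (.mul (.g 6) (.pp [(1, 78088500000)])))) (.mul (.g 1) (.mul (.g 3) (.pp [(1, 3223350000)]))))))) (.add (.mul (.g 4) (.add (.pp [(1, 212741250000)]) (.add (.mul (.g 4) (.pp [(1, 102772500000)])) (.mul (.g 5) (.mul (.g 5) (.pp [(1, 277943250000)])))))) (.add (.mul (.g 0) (.add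 (.mul (.g 3) (.mul (.g 3) (.pp [(1, 9550980000)]))) (.mul (.g 5) (.pp [(1, 274746750000)])))) (.mul (.g 1) (.mul (.g 5) (.mul (.g 5) (.pp [(1, 87189750000)]))))))))))) (.add (.add (.mul (.g 4) (.add (.add (.mul (.g 1) (.add (.mul (.pp [(1, 32727600000)]) (.sq [(1, -1), (5, 5)])) (.mul (.g 1) (.mul (.g 1) (.pp [(1, 69281250000)]))))) (.mul (.g 2) (.add (.mul (.pp [(1, 10639725)]) (.sq [(1, -27), (5, 100)])) (.mul (.g 4) (.mul (.g 4) (.pp [(1, 347398500000)])))))) (.add (.mul (.g 4) (.mul (.g 4) (.mul (.g 4) (.pp [(1, 39161250000)])))) (.mul (.g 6) (.mul (.pp [(1, 40107150)]) (.sq [(1, -27), (3, 52), (5, 100)])))))) (.mul (.g 3) (.add (.mul (.g 3) (.add (.mul (.pp [(1, 1566852)]) (.sq [(1, -3), (3, 50), (5, -12)])) (.mul (.pp [(1, 817290)]) (.sq [(1, -23), (5, 100)])))) (.add (.mul (.g 2) (.mul (.pp [(1, 425310)]) (.sq [(1, -27), (3, 61), (5, 100)]))) (.mul (.g 6) (.mul (.pp [(1, 493920)]) (.sq [(1, -27),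 (3, 100), (5, 73)]))))))) (.add (.mul (.g 5) (.add (.mul (.pp [(1, 8382600)]) (.sq [(1, -23), (3, -18), (5, 100)])) (.add (.mul (.g 1) (.add (.mul (.pp [(1, 29468325)]) (.sq [(1, -27), (5, 100)])) (.mul (.g 1) (.mul (.g 1) (.pp [(1, 178161000000)]))))) (.mul (.g 6) (.mul (.pp [(1, 750)]) (.sq [(1, -31), (3, 61), (5, 100)])))))) (.add (.mul (.g 2) (.add (.mul (.pp [(1, 44100000)]) (.sq [(1, -8), (3, 50), (5, 7)])) (.mul (.pp [(1, 1904700)]) (.sq [(1, -27), (3, 61), (5, 100)])))) (.mul (.g 6) (.mul (.pp [(1, 20626050)]) (.sq [(1, -27), (3, 100), (5, 73)]))))))) (.pp [(1, 2567715283), (2, 7509240), (3, 7582440), (4, 7978050), (5, 7556394), (6, 6858525), (8, 7400000), (9, 7488450), (10, 6940095), (12, 7140000), (15, 7218150), (16, 7500000), (18, 8490450), (20, 7766400), (24, 8250000), (25, 7563048), (27, 7489200), (30, 8854200), (36, 6750000), (40, 8250000), (45, 7564920), (50, 7587240), (54, 7975650), (60,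 5310000), (75, 6942990), (81, 7233600), (90, 7198200), (100, 6832800), (125, 7169490), (135, 7384350), (150, 7491600), (225, 7800750), (250, 8001600), (375, 7650000), (625, 7500000)])))
    (by decide +kernel) (yv_nonneg h1 ha hb (le_refl 0) (le_refl 0) (le_refl 0) (le_refl 0) (le_refl 0) (le_refl 0))
    (by
      simp only [List.forall_mem_cons, exadd, exsub, exmul, exc, exv2, exv3, exv5]
      push_cast
      refine ⟨?_, ?_, ?_, ?_, ?_, ?_, ?_, fun _ hh => absurd hh List.not_mem_nil⟩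
      · linarith only [h1]
      · linarith only [ha]
      · linarith only [hb]
      · linarith only [h2]
      · linarith only [h3]
      · linarith only [h4]
      · linarith only [h5]
    )
  simp only [exadd, exsub, exmul, exc, exv2, exv3, exv5] at h
  push_cast at h
  linarith only [h]

theorem x5P1 {d a b : ℝ} (h1 : 0 ≤ d) (ha : 0 ≤ a) (hb : 0 ≤ b) (h2 : 0 ≤ 3 / 5 - d) (h4 : 0 ≤ d - a) (h5 : 0 ≤ -d + a + b) (h6 : 0 ≤ 1 - b) :
    0 ≤ 161 / 1500 + 154 / 125 * d - 29 / 125 * a - 76 / 125 * b - 3 / 2 * d ^ 2 + d * a + 1 / 2 * a ^ 2 + a * b + b ^ 2 - 1 / 4 * d ^ 3 + 3 / 4 * d ^ 2 * a + d ^ 2 * b - 3 / 4 * d * a ^ 2 - d * a * b - d * b ^ 2 - 1 / 12 * a ^ 3 := by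
  have h := cert (y := yv d a b 0 0 0 0 0 0)
    (gs := [(.v 2),
      (.v 3),
      (.v 5),
      (.add (.c (3)) (.mul (.c (-5)) (.v 2))),
      (.add (.v 2) (.mul (.c (-1)) (.v 3))),
      (.add (.mul (.c (-1)) (.v 2)) (.add (.v 3) (.v 5))),
      (.add (.c (1)) (.mul (.c (-1)) (.v 5)))])
    (p := .mul (.c 10000000) (.add (.add (.add (.add (.c (161)) (.mul (.c (1848)) (.v 2))) (.add (.mul (.c (-348)) (.v 3)) (.mul (.c (-2250)) (.mul (.v 2) (.v 2))))) (.add (.add (.mul (.c (-912)) (.v 5)) (.mul (.c (1500)) (.mul (.v 2) (.v 3)))) (.add (.mul (.c (-375)) (.mul (.mul (.v 2) (.v 2)) (.v 2))) (.mul (.c (750)) (.mul (.v 3) (.v 3)))))) (.add (.add (.add (.mul (.c (1125)) (.mul (.mul (.v 2) (.v 2)) (.v 3))) (.mul (.c (1500)) (.mul (.v 3) (.v 5)))) (.add (.mul (.c (-1125)) (.mul (.mul (.v 2) (.v 3)) (.v 3))) (.mul (.c (1500)) (.mul (.mul (.v 2) (.v 2)) (.v 5))))) (.add (.add (.mul (.c (1500)) (.mul (.v 5) (.v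 5))) (.mul (.c (-125)) (.mul (.mul (.v 3) (.v 3)) (.v 3)))) (.add (.mul (.c (-1500)) (.mul (.mul (.v 2) (.v 3)) (.v 5))) (.mul (.c (-1500)) (.mul (.mul (.v 2) (.v 5)) (.v 5))))))))
    (e := (.add (.add (.add (.mul (.g 3) (.add (.add (.mul (.g 0) (.add (.pp [(1, 702789000)]) (.add (.mul (.g 5) (.add (.mul (.g 0) (.pp [(1, 105735000)])) (.mul (.g 5) (.pp [(1, 370185000)])))) (.mul (.g 6) (.mul (.g 6) (.pp [(1, 194457000)])))))) (.add (.mul (.g 1) (.add (.mul (.g 1) (.pp [(1, 1658850000)])) (.add (.mul (.g 2) (.mul (.g 2) (.pp [(1, 378045000)]))) (.mul (.g 3) (.mul (.g 3) (.pp [(1, 5646120)])))))) (.mul (.g 4) (.mul (.g 4) (.add (.pp [(1, 1608333000)]) (.mul (.g 5) (.pp [(1, 185064000)]))))))) (.add (.mul (.g 3) (.mul (.pp [(1, 301632)]) (.sq [(1, -6), (5, 25)]))) (.add (.mul (.g 5) (.mul (.pp [(1, 957312)]) (.sq [(1, -17), (5, 50)]))) (.mul (.g 6) (.mul (.pp [(1, 11593110)]) (.sq [(1, -3), (5, 10)])))))))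 (.add (.mul (.g 6) (.add (.add (.mul (.pp [(1, 109818900)]) (.sq [(1, -3), (5, 10)])) (.mul (.g 0) (.add (.mul (.g 5) (.add (.mul (.g 5) (.pp [(1, 224745000)])) (.mul (.g 6) (.pp [(1, 12904110000)])))) (.add (.mul (.g 0) (.mul (.g 0) (.pp [(1, 2023260000)]))) (.mul (.g 6) (.mul (.g 6) (.pp [(1, 3785520000)]))))))) (.add (.mul (.g 4) (.add (.pp [(1, 9428100000)]) (.mul (.g 6) (.add (.mul (.g 5) (.pp [(1, 1527675000)])) (.mul (.g 6) (.pp [(1, 4251975000)])))))) (.add (.mul (.g 1) (.mul (.g 2) (.mul (.g 2) (.pp [(1, 3191490000)])))) (.mul (.g 5) (.mul (.pp [(1, 375)]) (.sq [(1, -9), (5, 20)]))))))) (.mul (.g 1) (.add (.add (.pp [(1, 9217455000)]) (.mul (.g 1) (.add (.mul (.g 2) (.add (.mul (.g 0) (.pp [(1, 2551335000)])) (.mul (.g 4) (.pp [(1, 1401720000)])))) (.mul (.g 1) (.mul (.g 1) (.pp [(1, 308235000)])))))) (.add (.mul (.g 4) (.mul (.g 4) (.mul (.g 4) (.pp [(1, 775575000)])))) (.mul (.g 5) (.mul (.g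 5) (.mul (.g 5) (.pp [(1, 467190000)]))))))))) (.add (.mul (.g 4) (.add (.mul (.g 5) (.add (.pp [(1, 774030000)]) (.mul (.g 5) (.pp [(1, 1805340000)])))) (.mul (.g 2) (.mul (.g 2) (.mul (.g 4) (.pp [(1, 125940000)])))))) (.add (.mul (.g 0) (.add (.mul (.g 0) (.mul (.g 0) (.mul (.g 0) (.pp [(1, 396780000)])))) (.mul (.g 5) (.pp [(1, 9287895000)])))) (.mul (.g 2) (.mul (.pp [(1, 2911818)]) (.sq [(1, -17), (5, 50)])))))) (.pp [(1, 210887162), (2, 139389), (3, 154881), (4, 156360), (5, 148989), (6, 125040), (8, 162000), (9, 156000), (10, 165315), (12, 132000), (15, 136575), (16, 150000), (18, 171000), (20, 135000), (24, 165000), (25, 150375), (27, 148000), (30, 192000), (36, 120000), (40, 150000), (45, 138000), (50, 135000), (54, 165000), (60, 150000), (75, 165000), (81, 150000), (90, 150000), (100, 165000), (125, 153000), (135, 150000), (150, 105000), (225, 165000), (250, 150000), (375, 150000), (625, 150000)])))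
    (by decide +kernel) (yv_nonneg h1 ha hb (le_refl 0) (le_refl 0) (le_refl 0) (le_refl 0) (le_refl 0) (le_refl 0))
    (by
      simp only [List.forall_mem_cons, exadd, exsub, exmul, exc, exv2, exv3, exv5]
      push_cast
      refine ⟨?_, ?_, ?_, ?_, ?_, ?_, ?_, fun _ hh => absurd hh List.not_mem_nil⟩
      · linarith only [h1]
      · linarith only [ha]
      · linarith only [hb]
      · linarith only [h2]
      · linarith only [h4]
      · linarith only [h5]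
      · linarith only [h6]
    )
  simp only [exadd, exsub, exmul, exc, exv2, exv3, exv5] at h
  push_cast at h
  linarith only [h]

theorem x5Q1 {d t b w : ℝ} (h1 : 0 ≤ d) (ht : 0 ≤ t) (hb : 0 ≤ b) (hw : 0 ≤ w) (h2 : 0 ≤ 3 / 5 - d) (h4 : 0 ≤ 1 - d - t) (h5 : 0 ≤ -d - t + b) (h6 : 0 ≤ 1 - b) (h7 : 0 ≤ d + t - w) (h8 : 0 ≤ 13 / 20 - w) :
    0 ≤ 161 / 1500 + 741 / 500 * d + 241 / 500 * t - 76 / 125 * b - 1 / 4 * w - d ^ 2 + t ^ 2 - t * b + b ^ 2 - 1 / 2 * w ^ 2 - 1 / 3 * d ^ 3 - d ^ 2 * t + d ^ 2 * b - d * t ^ 2 + d * t * b - d * b ^ 2 - 1 / 3 * t ^ 3 + 1 / 12 * w ^ 3 := by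
  have h := cert (y := yv d t b w 0 0 0 0 0)
    (gs := [(.v 2),
      (.v 3),
      (.v 5),
      (.v 7),
      (.add (.c (3)) (.mul (.c (-5)) (.v 2))),
      (.add (.c (1)) (.add (.mul (.c (-1)) (.v 2)) (.mul (.c (-1)) (.v 3)))),
      (.add (.mul (.c (-1)) (.v 2)) (.add (.mul (.c (-1)) (.v 3)) (.v 5))),
      (.add (.c (1)) (.mul (.c (-1)) (.v 5))),
      (.add (.v 2) (.add (.v 3) (.mul (.c (-1)) (.v 7)))),
      (.add (.c (13)) (.mul (.c (-20)) (.v 7)))])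
    (p := .mul (.c 8000000000) (.add (.add (.add (.add (.c (161)) (.mul (.c (2223)) (.v 2))) (.add (.mul (.c (723)) (.v 3)) (.mul (.c (-1500)) (.mul (.v 2) (.v 2))))) (.add (.add (.mul (.c (-912)) (.v 5)) (.mul (.c (-375)) (.v 7))) (.add (.mul (.c (-500)) (.mul (.mul (.v 2) (.v 2)) (.v 2))) (.add (.mul (.c (1500)) (.mul (.v 3) (.v 3))) (.mul (.c (-1500)) (.mul (.mul (.v 2) (.v 2)) (.v 3))))))) (.add (.add (.add (.mul (.c (-1500)) (.mul (.v 3) (.v 5))) (.mul (.c (-1500)) (.mul (.mul (.v 2) (.v 3)) (.v 3)))) (.add (.mul (.c (1500)) (.mul (.mul (.v 2) (.v 2)) (.v 5))) (.mul (.c (1500)) (.mul (.v 5) (.v 5))))) (.add (.add (.mul (.c (-500)) (.mul (.mul (.v 3) (.v 3)) (.v 3))) (.mul (.c (1500)) (.mul (.mul (.v 2) (.v 3)) (.v 5)))) (.add (.mul (.c (-750)) (.mul (.v 7) (.v 7))) (.add (.mul (.c (-1500)) (.mul (.mul (.v 2) (.v 5)) (.v 5))) (.mul (.c (125)) (.mul (.mul (.v 7) (.v 7)) (.v 7)))))))))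
    (e := (.add (.add (.add (.add (.mul (.g 0) (.add (.add (.mul (.g 7) (.add (.add (.mul (.pp [(1, 151473600)]) (.sq [(1, -1), (2, -1), (3, -4), (5, 100), (7, 2)])) (.add (.mul (.pp [(1, 531364800)]) (.sq [(1, -8), (2, -77), (3, 100), (5, 1), (7, 47)])) (.mul (.g 1) (.add (.mul (.g 0) (.pp [(1, 8330712000000)])) (.add (.mul (.g 1) (.pp [(1, 2497032000000)])) (.mul (.g 7) (.pp [(1, 5866332000000)]))))))) (.add (.add (.mul (.g 6) (.add (.pp [(1, 23291400000000)]) (.add (.mul (.g 6) (.pp [(1, 17586216000000)])) (.mul (.g 7) (.pp [(1, 8065992000000)]))))) (.mul (.g 0) (.mul (.g 2) (.pp [(1, 4190292000000)])))) (.add (.mul (.g 3) (.mul (.g 9) (.pp [(1, 442440600000)]))) (.mul (.g 7) (.mul (.g 7) (.pp [(1, 13839720000000)]))))))) (.add (.mul (.g 9) (.add (.add (.mul (.pp [(1, 40549200)]) (.sq [(1, 1), (2, -37), (3, 50), (7, -11)])) (.add (.mul (.g 8) (.add (.mul (.g 2) (.pp [(1, 303571200000)])) (.add (.mul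 (.g 3) (.pp [(1, 122344800000)])) (.mul (.g 4) (.pp [(1, 441555240000)]))))) (.mul (.g 0) (.add (.mul (.g 1) (.pp [(1, 857718600000)])) (.mul (.g 2) (.pp [(1, 312598200000)])))))) (.add (.mul (.g 1) (.mul (.g 1) (.pp [(1, 294502800000)]))) (.add (.mul (.g 3) (.mul (.g 9) (.pp [(1, 37622280000)]))) (.mul (.g 4) (.pp [(1, 20810160000)])))))) (.mul (.g 6) (.add (.add (.mul (.pp [(1, 13486800)]) (.sq [(2, 100), (3, 15), (5, -4), (7, -49)])) (.mul (.pp [(1, 265795200)]) (.sq [(1, 2), (2, 50), (3, -39), (5, -42), (7, 49)]))) (.add (.mul (.g 2) (.add (.mul (.g 4) (.pp [(1, 622723200000)])) (.mul (.g 6) (.pp [(1, 14762328000000)])))) (.add (.mul (.g 1) (.mul (.g 3) (.pp [(1, 6020184000000)]))) (.mul (.g 8) (.pp [(1, 593652000000)])))))))) (.add (.mul (.g 0) (.add (.mul (.g 4) (.add (.pp [(1, 815061600000)]) (.mul (.g 4) (.pp [(1, 151280640000)])))) (.add (.mul (.g 1) (.mul (.g 8) (.pp [(1, 2908476000000)])))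 (.mul (.g 3) (.mul (.g 5) (.pp [(1, 14697684000000)])))))) (.add (.mul (.g 1) (.add (.mul (.pp [(1, 273327600)]) (.sq [(1, 1), (2, -34), (3, 100), (5, 13), (7, -84)])) (.mul (.g 5) (.add (.mul (.g 4) (.pp [(1, 974011200000)])) (.mul (.g 5) (.pp [(1, 1165068000000)])))))) (.mul (.g 2) (.mul (.g 5) (.mul (.g 5) (.pp [(1, 2548332000000)])))))))) (.mul (.g 8) (.add (.add (.mul (.g 7) (.add (.add (.mul (.pp [(1, 443358000)]) (.sq [(1, -52), (2, 6), (3, -100), (5, 49), (7, 95)])) (.mul (.pp [(1, 165397200)]) (.sq [(1, -23), (2, -60), (3, 81), (5, 32), (7, 100)]))) (.add (.mul (.g 7) (.add (.mul (.g 4) (.pp [(1, 855086400000)])) (.mul (.g 6) (.pp [(1, 4934988000000)])))) (.add (.mul (.g 1) (.mul (.g 9) (.pp [(1, 620526000000)]))) (.mul (.g 3) (.pp [(1, 17105892000000)])))))) (.add (.mul (.g 6) (.add (.mul (.pp [(1, 1011331200)]) (.sq [(1, -11), (2, 20), (3, 26), (5, 50), (7, 32)])) (.add (.mul (.pp [(1, 97898400)])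 (.sq [(1, 39), (2, -48), (3, -5), (5, -41), (7, -100)])) (.mul (.g 8) (.add (.mul (.g 1) (.pp [(1, 3617064000000)])) (.mul (.g 8) (.pp [(1, 2571684000000)]))))))) (.mul (.g 3) (.add (.mul (.pp [(1, 224198400)]) (.sq [(1, 9), (2, 100), (3, -34), (5, 17), (7, -73)])) (.add (.mul (.g 1) (.mul (.g 3) (.pp [(1, 3406188000000)]))) (.mul (.g 4) (.mul (.g 8) (.pp [(1, 3357691200000)])))))))) (.add (.mul (.g 9) (.add (.mul (.pp [(1, 8194140)]) (.sq [(1, 30), (2, -25), (3, 100), (5, -78), (7, -97)])) (.mul (.pp [(1, 94588380)]) (.sq [(1, 28), (2, 100), (3, -55), (5, -44), (7, -19)])))) (.add (.mul (.g 1) (.mul (.g 5) (.mul (.g 5) (.pp [(1, 6727032000000)])))) (.mul (.g 2) (.mul (.pp [(1, 697039200)]) (.sq [(1, 25), (2, -30), (3, 1), (5, -40), (7, -100)])))))))) (.add (.mul (.g 3) (.add (.add (.mul (.g 1) (.add (.mul (.g 6) (.add (.mul (.g 1) (.pp [(1, 691644000000)])) (.mul (.g 6) (.pp [(1, 891408000000)])))) (.mul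 (.g 3) (.mul (.g 9) (.pp [(1, 10066200000)]))))) (.mul (.g 3) (.add (.mul (.pp [(1, 375044400)]) (.sq [(1, -37), (3, -22), (5, 100), (7, -22)])) (.mul (.g 3) (.mul (.g 9) (.pp [(1, 34418400000)])))))) (.add (.mul (.g 2) (.mul (.pp [(1, 425194800)]) (.sq [(1, -24), (3, -31), (5, 100), (7, -31)]))) (.add (.mul (.g 5) (.mul (.pp [(1, 196682400)]) (.sq [(1, -37), (3, -2), (5, 100), (7, -25)]))) (.mul (.g 9) (.mul (.pp [(1, 2850480)]) (.sq [(1, 27), (2, 55), (3, 13), (5, -73), (7, 100)]))))))) (.mul (.g 4) (.add (.mul (.g 4) (.mul (.pp [(1, 175896192)]) (.sq [(1, -12), (3, -16), (5, 50), (7, -15)]))) (.add (.mul (.g 7) (.mul (.pp [(1, 171159600)]) (.sq [(1, -27), (3, -27), (5, 100), (7, -27)]))) (.mul (.g 9) (.mul (.pp [(1, 848640)]) (.sq [(1, -15), (2, -2), (3, 50), (5, 1), (7, 42)])))))))) (.add (.add (.mul (.g 5) (.add (.mul (.pp [(1, 317976000)]) (.sq [(1, -43), (2, -3), (3, -12), (5, 100), (7, -17)]))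 (.mul (.g 5) (.mul (.pp [(1, 11367600)]) (.sq [(1, -41), (2, 2), (3, -10), (5, 100), (7, -16)]))))) (.mul (.g 6) (.add (.mul (.pp [(1, 201438000)]) (.sq [(2, 100), (3, 64), (5, -59), (7, 18)])) (.mul (.g 6) (.mul (.pp [(1, 452373600)]) (.sq [(1, -37), (2, -22), (3, 18), (5, 100), (7, -14)])))))) (.add (.mul (.g 9) (.add (.mul (.pp [(1, 1630800)]) (.sq [(1, -15), (2, 12), (3, 88), (5, -42), (7, 100)])) (.mul (.g 9) (.mul (.pp [(1, 264609)]) (.sq [(1, 15), (2, 100), (3, -67), (5, -25), (7, -21)]))))) (.mul (.g 2) (.mul (.g 7) (.mul (.pp [(1, 452385600)]) (.sq [(1, -36), (2, -51), (3, 1), (5, 100), (7, -50)]))))))) (.pp [(1, 56387267143), (2, 118430280), (3, 122470698), (4, 122474160), (5, 126216750), (6, 132155640), (7, 118180350), (8, 123858500), (9, 123116463), (10, 121825800), (12, 124607700), (14, 114468840), (15, 109112010), (16, 120100800), (18, 131964660), (20, 101828400), (21, 115650546), (24, 118891200),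 (25, 114831015), (27, 117220100), (28, 132032100), (30, 83617200), (35, 130440630), (36, 110396400), (40, 134174400), (42, 107223600), (45, 108454800), (49, 115578639), (50, 133451280), (54, 110394000), (56, 109801200), (60, 117000000), (63, 116851260), (70, 113268480), (75, 136403280), (81, 117544800), (84, 149739600), (90, 116653200), (98, 134970480), (100, 101229600), (105, 118255200), (125, 114642000), (126, 150010800), (135, 126435600), (140, 139464000), (147, 139516800), (150, 119029200), (175, 114709560), (189, 131197200), (196, 92001600), (210, 115723200), (225, 118826400), (245, 117639120), (250, 130923600), (294, 114013200), (315, 101083200), (343, 125282800), (350, 121094400), (375, 127520400), (441, 131220000), (490, 121743600), (525, 128198400), (625, 120000000), (686, 117794400), (735, 111774000), (875, 118719600), (1029, 106430400), (1225, 118011600), (1715, 122030400), (2401, 117387600)])))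
    (by decide +kernel) (yv_nonneg h1 ht hb hw (le_refl 0) (le_refl 0) (le_refl 0) (le_refl 0) (le_refl 0))
    (by
      simp only [List.forall_mem_cons, exadd, exsub, exmul, exc, exv2, exv3, exv5, exv7]
      push_cast
      refine ⟨?_, ?_, ?_, ?_, ?_, ?_, ?_, ?_, ?_, ?_, fun _ hh => absurd hh List.not_mem_nil⟩
      · linarith only [h1]
      · linarith only [ht]
      · linarith only [hb]
      · linarith only [hw]
      · linarith only [h2]
      · linarith only [h4]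
      · linarith only [h5]
      · linarith only [h6]
      · linarith only [h7]
      · linarith only [h8]
    )
  simp only [exadd, exsub, exmul, exc, exv2, exv3, exv5, exv7] at h
  push_cast at h
  linarith only [h]

theorem x5P2 {d a b : ℝ} (h1 : 0 ≤ d) (ha : 0 ≤ a) (hb : 0 ≤ b) (h2 : 0 ≤ 3 / 5 - d) (h4 : 0 ≤ d - a) (h5 : 0 ≤ -d + a + b) (h6 : 0 ≤ 1 - b) :
    0 ≤ 161 / 1500 + 154 / 125 * d - 179 / 500 * a - 241 / 500 * b - 3 / 2 * d ^ 2 + d * a + 1 / 2 * a ^ 2 + a * b + b ^ 2 - 1 / 4 * d ^ 3 + 3 / 4 * d ^ 2 * a + d ^ 2 * b - 3 / 4 * d * a ^ 2 - d * a * b - d * b ^ 2 - 1 / 12 * a ^ 3 := by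
  have h := cert (y := yv d a b 0 0 0 0 0 0)
    (gs := [(.v 2),
      (.v 3),
      (.v 5),
      (.add (.c (3)) (.mul (.c (-5)) (.v 2))),
      (.add (.v 2) (.mul (.c (-1)) (.v 3))),
      (.add (.mul (.c (-1)) (.v 2)) (.add (.v 3) (.v 5))),
      (.add (.c (1)) (.mul (.c (-1)) (.v 5)))])
    (p := .mul (.c 6250000) (.add (.add (.add (.add (.c (161)) (.mul (.c (1848)) (.v 2))) (.add (.mul (.c (-537)) (.v 3)) (.mul (.c (-2250)) (.mul (.v 2) (.v 2))))) (.add (.add (.mul (.c (-723)) (.v 5)) (.mul (.c (1500)) (.mul (.v 2) (.v 3)))) (.add (.mul (.c (-375)) (.mul (.mul (.v 2) (.v 2)) (.v 2))) (.mul (.c (750)) (.mul (.v 3) (.v 3)))))) (.add (.add (.add (.mul (.c (1125)) (.mul (.mul (.v 2) (.v 2)) (.v 3))) (.mul (.c (1500)) (.mul (.v 3) (.v 5)))) (.add (.mul (.c (-1125)) (.mul (.mul (.v 2) (.v 3)) (.v 3))) (.mul (.c (1500)) (.mul (.mul (.v 2) (.v 2)) (.v 5))))) (.add (.add (.mul (.c (1500)) (.mul (.v 5) (.v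 5))) (.mul (.c (-125)) (.mul (.mul (.v 3) (.v 3)) (.v 3)))) (.add (.mul (.c (-1500)) (.mul (.mul (.v 2) (.v 3)) (.v 5))) (.mul (.c (-1500)) (.mul (.mul (.v 2) (.v 5)) (.v 5))))))))
    (e := (.add (.add (.add (.mul (.pp [(1, 7002795)]) (.sq [(1, -6), (5, 25)])) (.add (.mul (.g 6) (.add (.add (.mul (.g 6) (.add (.mul (.g 6) (.add (.add (.pp [(1, 11071875)]) (.mul (.g 0) (.pp [(1, 5380162500)]))) (.add (.mul (.g 4) (.pp [(1, 2653537500)])) (.mul (.g 5) (.pp [(1, 3656250)]))))) (.add (.mul (.g 0) (.add (.mul (.g 0) (.pp [(1, 3085368750)])) (.mul (.g 5) (.pp [(1, 13852462500)])))) (.mul (.g 4) (.mul (.g 4) (.pp [(1, 6577228125)])))))) (.mul (.g 4) (.add (.add (.pp [(1, 1200825000)]) (.mul (.g 1) (.mul (.g 1) (.pp [(1, 1502456250)])))) (.add (.mul (.g 2) (.mul (.g 2) (.pp [(1, 5808243750)]))) (.mul (.g 4) (.mul (.g 5) (.pp [(1, 3615459375)]))))))) (.add (.mul (.g 1) (.mul (.g 2) (.add (.mul (.g 1) (.pp [(1,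 9538912500)])) (.mul (.g 2) (.pp [(1, 10214175000)]))))) (.mul (.g 0) (.mul (.g 0) (.mul (.g 0) (.pp [(1, 623859375)]))))))) (.mul (.g 1) (.add (.add (.mul (.g 1) (.add (.mul (.g 1) (.mul (.g 1) (.pp [(1, 416071875)]))) (.add (.mul (.g 3) (.pp [(1, 1124458125)])) (.mul (.g 4) (.mul (.g 5) (.pp [(1, 4115175000)])))))) (.mul (.g 3) (.mul (.g 3) (.add (.mul (.g 3) (.pp [(1, 18309600)])) (.mul (.g 5) (.pp [(1, 24939375)])))))) (.add (.mul (.g 2) (.mul (.g 2) (.pp [(1, 3543600000)]))) (.add (.mul (.g 4) (.pp [(1, 5487656250)])) (.mul (.g 5) (.mul (.g 5) (.mul (.g 5) (.pp [(1, 1741687500)])))))))))) (.add (.mul (.g 3) (.add (.add (.mul (.pp [(1, 1605708)]) (.sq [(1, -6), (5, 25)])) (.mul (.g 0) (.add (.pp [(1, 995128125)]) (.mul (.g 0) (.mul (.g 3) (.pp [(1, 74886375)])))))) (.add (.mul (.g 3) (.mul (.pp [(1, 349371)]) (.sq [(1, -6), (5, 25)]))) (.mul (.g 4) (.mul (.g 4) (.mul (.g 4) (.pp [(1, 964783125)])))))))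 (.add (.mul (.g 5) (.add (.mul (.g 5) (.add (.mul (.g 0) (.mul (.g 0) (.pp [(1, 994340625)]))) (.add (.mul (.g 4) (.mul (.g 4) (.pp [(1, 494371875)]))) (.mul (.g 5) (.mul (.g 5) (.pp [(1, 3562500)])))))) (.mul (.g 0) (.pp [(1, 5885493750)])))) (.mul (.g 4) (.mul (.g 4) (.add (.mul (.g 2) (.mul (.g 2) (.pp [(1, 836193750)]))) (.mul (.g 4) (.mul (.g 4) (.pp [(1, 1459378125)]))))))))) (.pp [(1, 456464837), (2, 94995), (3, 97050), (4, 88725), (5, 86775), (6, 94125), (8, 91875), (9, 99375), (10, 99000), (12, 78750), (15, 76875), (16, 103125), (18, 95625), (20, 91875), (24, 56250), (25, 91875), (27, 96250), (30, 112500), (36, 159375), (40, 75000), (45, 84375), (50, 93750), (54, 46875), (60, 168750), (75, 112500), (81, 103125), (90, 9375), (100, 121875), (125, 103125), (135, 121875), (150, 18750), (225, 140625), (250, 75000), (375, 112500), (625, 93750)])))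
    (by decide +kernel) (yv_nonneg h1 ha hb (le_refl 0) (le_refl 0) (le_refl 0) (le_refl 0) (le_refl 0) (le_refl 0))
    (by
      simp only [List.forall_mem_cons, exadd, exsub, exmul, exc, exv2, exv3, exv5]
      push_cast
      refine ⟨?_, ?_, ?_, ?_, ?_, ?_, ?_, fun _ hh => absurd hh List.not_mem_nil⟩
      · linarith only [h1]
      · linarith only [ha]
      · linarith only [hb]
      · linarith only [h2]
      · linarith only [h4]
      · linarith only [h5]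
      · linarith only [h6]
    )
  simp only [exadd, exsub, exmul, exc, exv2, exv3, exv5] at h
  push_cast at h
  linarith only [h]

theorem x5Q2 {d t b w : ℝ} (h1 : 0 ≤ d) (ht : 0 ≤ t) (hb : 0 ≤ b) (hw : 0 ≤ w) (h2 : 0 ≤ 3 / 5 - d) (h4 : 0 ≤ 1 - d - t) (h5 : 0 ≤ -d - t + b) (h6 : 0 ≤ 1 - b) (h7 : 0 ≤ d + t - w) (h8 : 0 ≤ 13 / 20 - w) :
    0 ≤ 161 / 1500 + 741 / 500 * d + 76 / 125 * t - 241 / 500 * b - 1 / 4 * w - d ^ 2 + t ^ 2 - t * b + b ^ 2 - 1 / 2 * w ^ 2 - 1 / 3 * d ^ 3 - d ^ 2 * t + d ^ 2 * b - d * t ^ 2 + d * t * b - d * b ^ 2 - 1 / 3 * t ^ 3 + 1 / 12 * w ^ 3 := by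
  have h := cert (y := yv d t b w 0 0 0 0 0)
    (gs := [(.v 2),
      (.v 3),
      (.v 5),
      (.v 7),
      (.add (.c (3)) (.mul (.c (-5)) (.v 2))),
      (.add (.c (1)) (.add (.mul (.c (-1)) (.v 2)) (.mul (.c (-1)) (.v 3)))),
      (.add (.mul (.c (-1)) (.v 2)) (.add (.mul (.c (-1)) (.v 3)) (.v 5))),
      (.add (.c (1)) (.mul (.c (-1)) (.v 5))),
      (.add (.v 2) (.add (.v 3) (.mul (.c (-1)) (.v 7)))),
      (.add (.c (13)) (.mul (.c (-20)) (.v 7)))])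
    (p := .mul (.c 100000000) (.add (.add (.add (.add (.c (161)) (.mul (.c (2223)) (.v 2))) (.add (.mul (.c (912)) (.v 3)) (.mul (.c (-1500)) (.mul (.v 2) (.v 2))))) (.add (.add (.mul (.c (-723)) (.v 5)) (.mul (.c (-375)) (.v 7))) (.add (.mul (.c (-500)) (.mul (.mul (.v 2) (.v 2)) (.v 2))) (.add (.mul (.c (1500)) (.mul (.v 3) (.v 3))) (.mul (.c (-1500)) (.mul (.mul (.v 2) (.v 2)) (.v 3))))))) (.add (.add (.add (.mul (.c (-1500)) (.mul (.v 3) (.v 5))) (.mul (.c (-1500)) (.mul (.mul (.v 2) (.v 3)) (.v 3)))) (.add (.mul (.c (1500)) (.mul (.mul (.v 2) (.v 2)) (.v 5))) (.mul (.c (1500)) (.mul (.v 5) (.v 5))))) (.add (.add (.mul (.c (-500)) (.mul (.mul (.v 3) (.v 3)) (.v 3))) (.mul (.c (1500)) (.mul (.mul (.v 2) (.v 3)) (.v 5)))) (.add (.mul (.c (-750)) (.mul (.v 7) (.v 7))) (.add (.mul (.c (-1500)) (.mul (.mul (.v 2) (.v 5)) (.v 5))) (.mul (.c (125)) (.mul (.mul (.v 7) (.v 7)) (.v 7)))))))))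
    (e := (.add (.add (.add (.add (.mul (.g 8) (.add (.add (.mul (.g 0) (.add (.add (.mul (.pp [(1, 2155665)]) (.sq [(1, 1), (2, -46), (3, 100), (5, 9), (7, -21)])) (.mul (.g 0) (.add (.mul (.g 1) (.pp [(1, 196426350000)])) (.add (.mul (.g 6) (.pp [(1, 11365800000)])) (.mul (.g 8) (.pp [(1, 14359200000)])))))) (.add (.mul (.g 4) (.add (.mul (.g 1) (.pp [(1, 27095190000)])) (.mul (.g 9) (.pp [(1, 130140000)])))) (.mul (.g 2) (.mul (.g 7) (.pp [(1, 108084900000)])))))) (.add (.mul (.g 3) (.add (.add (.pp [(1, 79325100000)]) (.mul (.g 1) (.add (.mul (.g 1) (.pp [(1, 52507500000)])) (.add (.mul (.g 6) (.pp [(1, 80762700000)])) (.mul (.g 8) (.pp [(1, 34531950000)])))))) (.add (.mul (.g 2) (.mul (.g 3) (.pp [(1, 19311600000)]))) (.mul (.g 9) (.pp [(1, 2762850000)]))))) (.mul (.g 7) (.add (.add (.mul (.pp [(1, 1304400)]) (.sq [(1, -52), (2, 6), (3, -100), (5, 49), (7, 95)])) (.mul (.pp [(1, 4884330)]) (.sq [(1,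 -23), (2, -60), (3, 81), (5, 32), (7, 100)]))) (.add (.mul (.g 2) (.add (.mul (.g 5) (.pp [(1, 31328250000)])) (.mul (.g 6) (.pp [(1, 21951750000)])))) (.mul (.g 1) (.mul (.g 9) (.pp [(1, 2899852500)])))))))) (.add (.add (.mul (.g 8) (.add (.add (.mul (.pp [(1, 1873200)]) (.sq [(1, 100), (2, -28), (3, -28), (5, 89), (7, 11)])) (.mul (.pp [(1, 6333585)]) (.sq [(1, 17), (2, 5), (3, 100), (5, -34), (7, -45)]))) (.add (.mul (.pp [(1, 227865)]) (.sq [(1, 89), (2, -86), (3, -89), (5, -100), (7, -97)])) (.add (.mul (.pp [(1, 1469400)]) (.sq [(1, 53), (2, -65), (3, -2), (5, -31), (7, 100)])) (.mul (.g 6) (.mul (.g 9) (.pp [(1, 1217130000)]))))))) (.mul (.g 2) (.add (.mul (.pp [(1, 950565)]) (.sq [(1, -16), (2, 100), (3, -39), (7, 37)])) (.mul (.g 4) (.mul (.g 4) (.pp [(1, 3277356000)])))))) (.add (.mul (.g 6) (.add (.pp [(1, 22207350000)]) (.mul (.pp [(1, 6358935)]) (.sq [(1, 12), (2, 9), (3, 100), (5, 13), (7,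 -50)])))) (.mul (.g 5) (.mul (.pp [(1, 4153605)]) (.sq [(1, 100), (2, 19), (3, 42), (5, -46), (7, 44)]))))))) (.mul (.g 0) (.add (.add (.mul (.g 1) (.add (.add (.mul (.pp [(1, 1413135)]) (.sq [(1, 1), (2, -34), (3, 100), (5, 13), (7, -84)])) (.mul (.g 3) (.add (.mul (.g 2) (.pp [(1, 55900800000)])) (.mul (.g 4) (.pp [(1, 1815030000)]))))) (.add (.mul (.g 5) (.add (.pp [(1, 12895050000)]) (.mul (.g 1) (.pp [(1, 60583950000)])))) (.mul (.g 4) (.mul (.g 7) (.pp [(1, 1614600000)])))))) (.add (.mul (.g 6) (.add (.add (.mul (.pp [(1, 2208630)]) (.sq [(1, 100), (2, 83), (3, 83), (5, -17), (7, 50)])) (.mul (.g 7) (.add (.mul (.g 6) (.pp [(1, 141670050000)])) (.mul (.g 7) (.pp [(1, 84142200000)]))))) (.add (.mul (.g 0) (.pp [(1, 49280700000)])) (.mul (.g 2) (.mul (.g 4) (.pp [(1, 7340160000)])))))) (.mul (.g 0) (.add (.mul (.g 3) (.add (.pp [(1, 13909200000)]) (.mul (.g 0) (.pp [(1, 42646350000)])))) (.mul (.g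 2) (.mul (.g 5) (.pp [(1, 80649300000)]))))))) (.add (.mul (.g 4) (.add (.pp [(1, 11138130000)]) (.mul (.g 2) (.mul (.g 5) (.pp [(1, 4179120000)]))))) (.add (.mul (.g 7) (.pp [(1, 76691700000)])) (.mul (.g 9) (.pp [(1, 3593775000)]))))))) (.add (.mul (.g 3) (.add (.add (.mul (.g 6) (.add (.mul (.pp [(1, 514920)]) (.sq [(1, 83), (2, 100), (3, 100), (5, 100), (7, 100)])) (.add (.mul (.pp [(1, 128595)]) (.sq [(1, 42), (2, 100), (3, -33), (5, -60), (7, -6)])) (.mul (.g 6) (.add (.mul (.g 1) (.pp [(1, 99768600000)])) (.mul (.g 7) (.pp [(1, 20610150000)]))))))) (.mul (.g 1) (.add (.mul (.pp [(1, 23325)]) (.sq [(1, 4), (2, 100), (3, -62), (5, -20), (7, 31)])) (.mul (.g 1) (.mul (.g 2) (.pp [(1, 11033700000)])))))) (.add (.mul (.g 3) (.mul (.g 3) (.add (.mul (.g 2) (.pp [(1, 14026500000)])) (.mul (.g 9) (.pp [(1, 1494585000)]))))) (.add (.mul (.g 5) (.mul (.pp [(1, 274935)]) (.sq [(1, -7), (2, 5), (3, 100), (5,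 -20), (7, 38)]))) (.mul (.g 7) (.mul (.g 7) (.pp [(1, 32260200000)]))))))) (.mul (.g 6) (.add (.mul (.g 6) (.add (.mul (.g 6) (.add (.pp [(1, 4502850000)]) (.mul (.g 7) (.pp [(1, 54845850000)])))) (.add (.mul (.g 1) (.mul (.g 1) (.pp [(1, 20124000000)]))) (.mul (.g 2) (.pp [(1, 27071250000)]))))) (.mul (.g 9) (.mul (.pp [(1, 350004)]) (.sq [(1, -15), (2, 10), (3, -2), (5, 100), (7, 73)]))))))) (.add (.add (.mul (.g 5) (.add (.mul (.g 5) (.add (.mul (.pp [(1, 472035)]) (.sq [(1, -5), (2, 18), (3, 100), (5, 32), (7, -37)])) (.mul (.pp [(1, 1067805)]) (.sq [(1, -40), (3, -9), (5, 100), (7, -12)])))) (.add (.mul (.g 1) (.mul (.pp [(1, 12273240)]) (.sq [(1, -3), (2, -25), (3, 41), (5, -13), (7, 50)]))) (.mul (.g 2) (.mul (.pp [(1, 2126940)]) (.sq [(1, -7), (2, -8), (3, -6), (5, 100), (7, 23)])))))) (.mul (.g 1) (.add (.mul (.g 1) (.mul (.g 7) (.mul (.g 9) (.pp [(1, 4469362500)])))) (.mul (.g 4) (.mul (.pp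 [(1, 241356)]) (.sq [(1, -1), (2, 100), (3, -45), (5, 9), (7, -98)])))))) (.add (.mul (.g 2) (.mul (.g 4) (.mul (.pp [(1, 73356)]) (.sq [(1, -7), (2, -5), (3, -5), (5, 100), (7, 13)])))) (.mul (.g 7) (.mul (.g 7) (.mul (.pp [(1, 5950980)]) (.sq [(1, 40), (2, 47), (3, 100), (5, -96), (7, -49)]))))))) (.pp [(1, 4858143125), (2, 1497780), (3, 1573452), (4, 1356210), (5, 1388508), (6, 1442610), (7, 1382205), (8, 1334485), (9, 1545210), (10, 1711290), (12, 1153365), (14, 1454730), (15, 1447374), (16, 1617765), (18, 1355658), (20, 1688490), (21, 1343427), (24, 1530240), (25, 1700880), (27, 1477618), (28, 1532340), (30, 1584660), (35, 1664466), (36, 1583115), (40, 1593645), (42, 1520916), (45, 1459932), (49, 1597275), (50, 1157460), (54, 1516470), (56, 1318995), (60, 1597305), (63, 1473276), (70, 1650030), (75, 1459032), (81, 1548390), (84, 1751175), (90, 1251765), (98, 1715418), (100, 1648950), (105, 1621476),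 (125, 1439760), (126, 1820895), (135, 1306245), (140, 1611255), (147, 1672656), (150, 1985910), (175, 1394460), (189, 1809555), (196, 1475745), (210, 1261170), (225, 1904775), (245, 1403640), (250, 1357755), (294, 1195485), (315, 1337910), (343, 1300280), (350, 1465560), (375, 1174305), (441, 1295250), (490, 1292865), (525, 1503105), (625, 1618320), (686, 1542735), (735, 1425045), (875, 1479855), (1029, 1623465), (1225, 1600260), (1715, 1651185), (2401, 1551390)])))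
    (by decide +kernel) (yv_nonneg h1 ht hb hw (le_refl 0) (le_refl 0) (le_refl 0) (le_refl 0) (le_refl 0))
    (by
      simp only [List.forall_mem_cons, exadd, exsub, exmul, exc, exv2, exv3, exv5, exv7]
      push_cast
      refine ⟨?_, ?_, ?_, ?_, ?_, ?_, ?_, ?_, ?_, ?_, fun _ hh => absurd hh List.not_mem_nil⟩
      · linarith only [h1]
      · linarith only [ht]
      · linarith only [hb]
      · linarith only [hw]
      · linarith only [h2]
      · linarith only [h4]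
      · linarith only [h5]
      · linarith only [h6]
      · linarith only [h7]
      · linarith only [h8]
    )
  simp only [exadd, exsub, exmul, exc, exv2, exv3, exv5, exv7] at h
  push_cast at h
  linarith only [h]

theorem x5P3 {d a b : ℝ} (h1 : 0 ≤ d) (ha : 0 ≤ a) (hb : 0 ≤ b) (h2 : 0 ≤ 3 / 5 - d) (h4 : 0 ≤ d - a) (h5 : 0 ≤ -d + a + b) (h6 : 0 ≤ 1 - b) :
    0 ≤ 749 / 1500 + 203 / 125 * d - 571 / 500 * a - 437 / 500 * b - 3 / 2 * d ^ 2 + d * a + 1 / 2 * a ^ 2 + a * b + b ^ 2 - 1 / 4 * d ^ 3 + 3 / 4 * d ^ 2 * a + d ^ 2 * b - 3 / 4 * d * a ^ 2 - d * a * b - d * b ^ 2 - 1 / 12 * a ^ 3 := by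
  have h := cert (y := yv d a b 0 0 0 0 0 0)
    (gs := [(.v 2),
      (.v 3),
      (.v 5),
      (.add (.c (3)) (.mul (.c (-5)) (.v 2))),
      (.add (.v 2) (.mul (.c (-1)) (.v 3))),
      (.add (.mul (.c (-1)) (.v 2)) (.add (.v 3) (.v 5))),
      (.add (.c (1)) (.mul (.c (-1)) (.v 5)))])
    (p := .mul (.c 50000) (.add (.add (.add (.add (.c (749)) (.mul (.c (2436)) (.v 2))) (.add (.mul (.c (-1713)) (.v 3)) (.mul (.c (-2250)) (.mul (.v 2) (.v 2))))) (.add (.add (.mul (.c (-1311)) (.v 5)) (.mul (.c (1500)) (.mul (.v 2) (.v 3)))) (.add (.mul (.c (-375)) (.mul (.mul (.v 2) (.v 2)) (.v 2))) (.mul (.c (750)) (.mul (.v 3) (.v 3)))))) (.add (.add (.add (.mul (.c (1125)) (.mul (.mul (.v 2) (.v 2)) (.v 3))) (.mul (.c (1500)) (.mul (.v 3) (.v 5)))) (.add (.mul (.c (-1125)) (.mul (.mul (.v 2) (.v 3)) (.v 3))) (.mul (.c (1500)) (.mul (.mul (.v 2) (.v 2)) (.v 5))))) (.add (.add (.mul (.c (1500)) (.mul (.v 5) (.v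 5))) (.mul (.c (-125)) (.mul (.mul (.v 3) (.v 3)) (.v 3)))) (.add (.mul (.c (-1500)) (.mul (.mul (.v 2) (.v 3)) (.v 5))) (.mul (.c (-1500)) (.mul (.mul (.v 2) (.v 5)) (.v 5))))))))
    (e := (.add (.add (.add (.mul (.g 6) (.add (.add (.mul (.g 6) (.add (.add (.mul (.g 6) (.add (.add (.mul (.g 3) (.pp [(1, 4280490)])) (.mul (.g 4) (.pp [(1, 17205825)]))) (.add (.mul (.g 5) (.pp [(1, 2709825)])) (.mul (.g 6) (.pp [(1, 7434075)]))))) (.mul (.g 1) (.add (.mul (.g 1) (.pp [(1, 15948975)])) (.mul (.g 5) (.pp [(1, 29927625)]))))) (.add (.mul (.g 0) (.mul (.g 3) (.pp [(1, 3189390)]))) (.mul (.g 4) (.mul (.g 4) (.pp [(1, 5795025)])))))) (.mul (.g 4) (.add (.mul (.g 1) (.mul (.g 1) (.pp [(1, 39207900)]))) (.add (.mul (.g 3) (.mul (.g 3) (.pp [(1, 175956)]))) (.mul (.g 4) (.mul (.g 4) (.pp [(1, 1490400)]))))))) (.add (.mul (.g 0) (.add (.mul (.g 1) (.mul (.g 3) (.pp [(1, 850335)]))) (.mul (.g 2) (.mul (.g 5) (.pp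 [(1, 22506975)]))))) (.mul (.g 5) (.mul (.g 5) (.mul (.g 5) (.pp [(1, 15261150)]))))))) (.mul (.g 0) (.add (.add (.pp [(1, 37686225)]) (.mul (.g 3) (.add (.add (.pp [(1, 3432180)]) (.mul (.g 0) (.add (.mul (.g 2) (.pp [(1, 850935)])) (.mul (.g 3) (.pp [(1, 239277)]))))) (.add (.mul (.g 1) (.mul (.g 1) (.pp [(1, 2393520)]))) (.mul (.g 5) (.mul (.g 5) (.pp [(1, 5661945)]))))))) (.add (.mul (.g 2) (.mul (.g 2) (.mul (.g 2) (.pp [(1, 931650)])))) (.mul (.g 4) (.mul (.g 4) (.mul (.g 4) (.pp [(1, 710700)])))))))) (.add (.mul (.g 1) (.add (.mul (.g 1) (.add (.add (.mul (.g 1) (.mul (.g 1) (.pp [(1, 5981925)]))) (.mul (.g 2) (.mul (.g 2) (.pp [(1, 23927175)])))) (.add (.mul (.g 3) (.pp [(1, 4150725)])) (.mul (.g 5) (.mul (.g 5) (.pp [(1, 4378200)])))))) (.add (.mul (.g 2) (.mul (.g 2) (.mul (.g 2) (.pp [(1, 2221050)])))) (.mul (.g 4) (.pp [(1, 26624550)]))))) (.add (.mul (.g 4) (.add (.add (.pp [(1, 20333475)])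 (.mul (.g 3) (.pp [(1, 16412550)]))) (.add (.mul (.g 4) (.mul (.g 4) (.mul (.g 4) (.pp [(1, 1037175)])))) (.mul (.g 5) (.mul (.g 5) (.mul (.g 5) (.pp [(1, 11398125)]))))))) (.mul (.g 5) (.add (.mul (.g 2) (.mul (.g 2) (.mul (.g 2) (.pp [(1, 10536150)])))) (.mul (.g 3) (.mul (.g 5) (.mul (.g 5) (.pp [(1, 6395445)]))))))))) (.pp [(1, 17174455), (2, 786), (3, 729), (4, 762), (5, 885), (6, 690), (8, 660), (9, 750), (10, 594), (12, 990), (15, 771), (16, 825), (18, 585), (20, 855), (24, 525), (25, 615), (27, 815), (30, 600), (36, 1050), (40, 675), (45, 795), (50, 825), (54, 525), (60, 900), (75, 795), (81, 825), (90, 600), (100, 825), (125, 810), (135, 825), (150, 675), (225, 825), (250, 675), (375, 750), (625, 750)])))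
    (by decide +kernel) (yv_nonneg h1 ha hb (le_refl 0) (le_refl 0) (le_refl 0) (le_refl 0) (le_refl 0) (le_refl 0))
    (by
      simp only [List.forall_mem_cons, exadd, exsub, exmul, exc, exv2, exv3, exv5]
      push_cast
      refine ⟨?_, ?_, ?_, ?_, ?_, ?_, ?_, fun _ hh => absurd hh List.not_mem_nil⟩
      · linarith only [h1]
      · linarith only [ha]
      · linarith only [hb]
      · linarith only [h2]
      · linarith only [h4]
      · linarith only [h5]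
      · linarith only [h6]
    )
  simp only [exadd, exsub, exmul, exc, exv2, exv3, exv5] at h
  push_cast at h
  linarith only [h]

theorem x5Q3 {d t b w : ℝ} (h1 : 0 ≤ d) (ht : 0 ≤ t) (hb : 0 ≤ b) (hw : 0 ≤ w) (h2 : 0 ≤ 3 / 5 - d) (h4 : 0 ≤ 1 - d - t) (h5 : 0 ≤ -d - t + b) (h6 : 0 ≤ 1 - b) (h7 : 0 ≤ d + t - w) (h8 : 0 ≤ 13 / 20 - w) :
    0 ≤ 749 / 1500 + 937 / 500 * d + 174 / 125 * t - 437 / 500 * b - 1 / 4 * w - d ^ 2 + t ^ 2 - t * b + b ^ 2 - 1 / 2 * w ^ 2 - 1 / 3 * d ^ 3 - d ^ 2 * t + d ^ 2 * b - d * t ^ 2 + d * t * b - d * b ^ 2 - 1 / 3 * t ^ 3 + 1 / 12 * w ^ 3 := by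
  have h := cert (y := yv d t b w 0 0 0 0 0)
    (gs := [(.v 2),
      (.v 3),
      (.v 5),
      (.v 7),
      (.add (.c (3)) (.mul (.c (-5)) (.v 2))),
      (.add (.c (1)) (.add (.mul (.c (-1)) (.v 2)) (.mul (.c (-1)) (.v 3)))),
      (.add (.mul (.c (-1)) (.v 2)) (.add (.mul (.c (-1)) (.v 3)) (.v 5))),
      (.add (.c (1)) (.mul (.c (-1)) (.v 5))),
      (.add (.v 2) (.add (.v 3) (.mul (.c (-1)) (.v 7)))),
      (.add (.c (13)) (.mul (.c (-20)) (.v 7)))])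
    (p := .mul (.c 400000000) (.add (.add (.add (.add (.c (749)) (.mul (.c (2811)) (.v 2))) (.add (.mul (.c (2088)) (.v 3)) (.mul (.c (-1500)) (.mul (.v 2) (.v 2))))) (.add (.add (.mul (.c (-1311)) (.v 5)) (.mul (.c (-375)) (.v 7))) (.add (.mul (.c (-500)) (.mul (.mul (.v 2) (.v 2)) (.v 2))) (.add (.mul (.c (1500)) (.mul (.v 3) (.v 3))) (.mul (.c (-1500)) (.mul (.mul (.v 2) (.v 2)) (.v 3))))))) (.add (.add (.add (.mul (.c (-1500)) (.mul (.v 3) (.v 5))) (.mul (.c (-1500)) (.mul (.mul (.v 2) (.v 3)) (.v 3)))) (.add (.mul (.c (1500)) (.mul (.mul (.v 2) (.v 2)) (.v 5))) (.mul (.c (1500)) (.mul (.v 5) (.v 5))))) (.add (.add (.mul (.c (-500)) (.mul (.mul (.v 3) (.v 3)) (.v 3))) (.mul (.c (1500)) (.mul (.mul (.v 2) (.v 3)) (.v 5)))) (.add (.mul (.c (-750)) (.mul (.v 7) (.v 7))) (.add (.mul (.c (-1500)) (.mul (.mul (.v 2) (.v 5)) (.v 5))) (.mul (.c (125)) (.mul (.mul (.v 7) (.v 7)) (.v 7)))))))))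
    (e := (.add (.add (.add (.mul (.g 8) (.add (.add (.mul (.g 1) (.add (.add (.mul (.pp [(1, 61235460)]) (.sq [(1, -66), (2, -14), (3, -47), (5, 68), (7, 100)])) (.mul (.g 1) (.add (.add (.mul (.g 0) (.pp [(1, 188618400000)])) (.mul (.g 3) (.pp [(1, 1435447200000)]))) (.add (.mul (.g 6) (.pp [(1, 871569000000)])) (.mul (.g 8) (.pp [(1, 351654600000)])))))) (.add (.mul (.g 3) (.add (.pp [(1, 110701800000)]) (.add (.mul (.g 7) (.pp [(1, 1684209000000)])) (.mul (.g 8) (.pp [(1, 76280400000)]))))) (.add (.mul (.g 0) (.mul (.g 0) (.pp [(1, 528498600000)]))) (.mul (.g 7) (.mul (.g 9) (.pp [(1, 34846410000)]))))))) (.add (.mul (.g 7) (.add (.add (.pp [(1, 122269200000)]) (.mul (.pp [(1, 14695680)]) (.sq [(1, -64), (2, -96), (3, 6), (5, 100), (7, -31)]))) (.add (.mul (.g 6) (.add (.mul (.g 2) (.pp [(1, 909174600000)])) (.mul (.g 7) (.pp [(1, 545567400000)])))) (.add (.mul (.g 0) (.mul (.g 9) (.pp [(1, 25629060000)])))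 (.mul (.g 3) (.mul (.g 4) (.pp [(1, 87588960000)]))))))) (.mul (.g 0) (.add (.mul (.pp [(1, 17051640)]) (.sq [(1, 44), (2, 48), (3, -100), (5, -51), (7, 29)])) (.add (.mul (.g 0) (.mul (.g 2) (.pp [(1, 219951000000)]))) (.mul (.g 3) (.pp [(1, 1131048600000)]))))))) (.add (.add (.mul (.g 8) (.add (.mul (.pp [(1, 5010300)]) (.sq [(1, 100), (2, -28), (3, -28), (5, 89), (7, 11)])) (.add (.mul (.pp [(1, 22545480)]) (.sq [(1, 76), (2, -29), (3, 100), (5, -80), (7, -66)])) (.mul (.g 5) (.mul (.g 8) (.pp [(1, 50892000000)])))))) (.mul (.g 3) (.mul (.g 3) (.mul (.g 4) (.pp [(1, 120471840000)]))))) (.add (.mul (.g 5) (.mul (.pp [(1, 491880)]) (.sq [(1, -17), (2, -75), (3, 38), (5, 36), (7, 100)]))) (.mul (.g 6) (.mul (.pp [(1, 82328880)]) (.sq [(1, -11), (2, 20), (3, 26), (5, 50), (7, 32)]))))))) (.add (.mul (.g 0) (.add (.add (.mul (.g 1) (.add (.mul (.g 2) (.add (.mul (.g 2) (.pp [(1, 217757400000)])) (.add (.mul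 (.g 5) (.pp [(1, 231444600000)])) (.mul (.g 9) (.pp [(1, 38785860000)]))))) (.add (.mul (.g 1) (.mul (.g 1) (.pp [(1, 63396000000)]))) (.mul (.g 3) (.mul (.g 4) (.pp [(1, 15261960000)])))))) (.add (.mul (.g 7) (.add (.mul (.g 3) (.add (.mul (.g 3) (.pp [(1, 194209800000)])) (.mul (.g 9) (.pp [(1, 81003150000)])))) (.add (.mul (.g 0) (.mul (.g 2) (.pp [(1, 82185600000)]))) (.mul (.g 5) (.mul (.g 7) (.pp [(1, 152259600000)])))))) (.mul (.g 5) (.add (.pp [(1, 344076600000)]) (.mul (.pp [(1, 69720)]) (.sq [(1, 51), (2, 100), (3, 100), (5, 100), (7, 70)])))))) (.add (.add (.mul (.g 6) (.add (.pp [(1, 25072800000)]) (.mul (.g 0) (.pp [(1, 17256000000)])))) (.mul (.g 9) (.add (.mul (.pp [(1, 8089932)]) (.sq [(1, -44), (2, -15), (3, 11), (5, 7), (7, 50)])) (.mul (.g 9) (.mul (.g 9) (.pp [(1, 700350)])))))) (.add (.mul (.g 3) (.mul (.g 3) (.pp [(1, 251175000000)]))) (.mul (.g 4) (.pp [(1, 73443000000)])))))) (.mul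 (.g 3) (.add (.add (.mul (.pp [(1, 17147400)]) (.sq [(2, -47), (3, 70), (5, -31), (7, 100)])) (.add (.mul (.g 9) (.add (.mul (.g 1) (.add (.mul (.g 7) (.pp [(1, 80774700000)])) (.mul (.g 9) (.pp [(1, 3268617000)])))) (.add (.mul (.g 3) (.add (.mul (.g 3) (.pp [(1, 5027640000)])) (.mul (.g 4) (.pp [(1, 1950948000)])))) (.mul (.g 4) (.mul (.g 7) (.pp [(1, 3457164000)])))))) (.mul (.g 3) (.add (.mul (.pp [(1, 1414320)]) (.sq [(1, 100), (2, 76), (3, -70), (5, -3), (7, 35)])) (.mul (.g 3) (.mul (.g 7) (.pp [(1, 127470600000)]))))))) (.add (.mul (.g 1) (.mul (.g 1) (.mul (.g 6) (.pp [(1, 636466800000)])))) (.add (.mul (.g 5) (.mul (.pp [(1, 58970700)]) (.sq [(1, -16), (2, -37), (3, 100), (5, -35), (7, 83)]))) (.mul (.g 7) (.mul (.pp [(1, 4994640)]) (.sq [(1, 43), (2, -55), (3, 77), (5, 17), (7, 100)]))))))))) (.add (.add (.mul (.g 1) (.add (.mul (.g 7) (.add (.pp [(1, 180941400000)]) (.add (.mul (.g 7) (.mul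 (.g 7) (.pp [(1, 303409200000)]))) (.mul (.g 9) (.mul (.g 9) (.pp [(1, 2456691000)])))))) (.add (.mul (.g 1) (.add (.mul (.g 1) (.mul (.g 4) (.pp [(1, 12678000000)]))) (.mul (.g 6) (.mul (.g 9) (.pp [(1, 48735210000)]))))) (.mul (.g 6) (.mul (.g 6) (.mul (.g 9) (.pp [(1, 4236330000)]))))))) (.mul (.g 5) (.add (.add (.mul (.g 2) (.mul (.pp [(1, 96019680)]) (.sq [(1, -4), (2, 50), (3, 37), (5, 19), (7, 19)]))) (.mul (.g 4) (.mul (.pp [(1, 1836684)]) (.sq [(1, -35), (2, 15), (3, 75), (5, 100), (7, -46)])))) (.add (.mul (.g 5) (.mul (.pp [(1, 6139620)]) (.sq [(1, 39), (2, -40), (3, -100), (5, -87), (7, 20)]))) (.add (.mul (.g 6) (.mul (.pp [(1, 1055280)]) (.sq [(1, -15), (2, -4), (3, 100), (5, 86), (7, -43)]))) (.mul (.g 7) (.mul (.pp [(1, 18693240)]) (.sq [(1, -84), (2, -68), (3, 4), (5, 100), (7, 49)])))))))) (.add (.mul (.g 6) (.mul (.g 6) (.add (.mul (.pp [(1, 22948380)]) (.sq [(1, -17), (2, -21), (3,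 64), (5, 100), (7, -47)])) (.add (.mul (.pp [(1, 13685820)]) (.sq [(1, 24), (2, -15), (3, 84), (5, -32), (7, 100)])) (.mul (.g 6) (.mul (.g 7) (.pp [(1, 243504000000)]))))))) (.mul (.g 9) (.mul (.pp [(1, 84231)]) (.sq [(2, -58), (3, 97), (5, -15), (7, -100)])))))) (.pp [(1, 151612322840), (2, 5284074), (3, 5905860), (4, 5998788), (5, 6005880), (6, 5373384), (7, 6451080), (8, 5756620), (9, 5778753), (10, 7565796), (12, 5733060), (14, 6363120), (15, 5700330), (16, 5683500), (18, 5707644), (20, 6213360), (21, 6161880), (24, 4842540), (25, 5988165), (27, 5741620), (28, 5240700), (30, 5901336), (35, 5385240), (36, 5096820), (40, 6439440), (42, 6386400), (45, 6177960), (49, 5579688), (50, 4658196), (54, 6218640), (56, 6012780), (60, 7349040), (63, 5948820), (70, 7206120), (75, 5985720), (81, 6280860), (84, 6045300), (90, 7149600), (98, 7571712), (100, 5432880), (105, 7124760), (125, 6356160), (126, 5818920),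 (135, 6240000), (140, 5020560), (147, 5356152), (150, 4040040), (175, 5952480), (189, 6199140), (196, 5834880), (210, 3986520), (225, 4839840), (245, 5686080), (250, 6323520), (294, 5565600), (315, 4751400), (343, 5831540), (350, 7527780), (375, 6419040), (441, 6130680), (490, 5093400), (525, 7166340), (625, 5920320), (686, 6187740), (735, 7481640), (875, 5670960), (1029, 6542340), (1225, 5849400), (1715, 5795640), (2401, 5900820)])))
    (by decide +kernel) (yv_nonneg h1 ht hb hw (le_refl 0) (le_refl 0) (le_refl 0) (le_refl 0) (le_refl 0))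
    (by
      simp only [List.forall_mem_cons, exadd, exsub, exmul, exc, exv2, exv3, exv5, exv7]
      push_cast
      refine ⟨?_, ?_, ?_, ?_, ?_, ?_, ?_, ?_, ?_, ?_, fun _ hh => absurd hh List.not_mem_nil⟩
      · linarith only [h1]
      · linarith only [ht]
      · linarith only [hb]
      · linarith only [hw]
      · linarith only [h2]
      · linarith only [h4]
      · linarith only [h5]
      · linarith only [h6]
      · linarith only [h7]
      · linarith only [h8]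
    )
  simp only [exadd, exsub, exmul, exc, exv2, exv3, exv5, exv7] at h
  push_cast at h
  linarith only [h]

theorem x5T12 {d a b : ℝ} (h1 : 0 ≤ d) (ha : 0 ≤ a) (hb : 0 ≤ b) (h2 : 0 ≤ 3 / 5 - d) (h4 : 0 ≤ d - a) (h6 : 0 ≤ d - b) (h7 : 0 ≤ -d + a + b) :
    0 ≤ 161 / 1500 + 491 / 500 * d - 29 / 125 * a - 179 / 500 * b - 2 * d ^ 2 + d * a + d * b + 1 / 2 * a ^ 2 + a * b + 1 / 2 * b ^ 2 - 1 / 6 * d ^ 3 + 3 / 4 * d ^ 2 * a + 3 / 4 * d ^ 2 * b - 3 / 4 * d * a ^ 2 - d * a * b - 3 / 4 * d * b ^ 2 - 1 / 12 * a ^ 3 - 1 / 12 * b ^ 3 := by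
  have h := cert (y := yv d a b 0 0 0 0 0 0)
    (gs := [(.v 2),
      (.v 3),
      (.v 5),
      (.add (.c (3)) (.mul (.c (-5)) (.v 2))),
      (.add (.v 2) (.mul (.c (-1)) (.v 3))),
      (.add (.v 2) (.mul (.c (-1)) (.v 5))),
      (.add (.mul (.c (-1)) (.v 2)) (.add (.v 3) (.v 5)))])
    (p := .mul (.c 250000) (.add (.add (.add (.add (.c (161)) (.mul (.c (1473)) (.v 2))) (.add (.mul (.c (-348)) (.v 3)) (.mul (.c (-3000)) (.mul (.v 2) (.v 2))))) (.add (.add (.mul (.c (-537)) (.v 5)) (.mul (.c (1500)) (.mul (.v 2) (.v 3)))) (.add (.mul (.c (-250)) (.mul (.mul (.v 2) (.v 2)) (.v 2))) (.add (.mul (.c (750)) (.mul (.v 3) (.v 3))) (.mul (.c (1500)) (.mul (.v 2) (.v 5))))))) (.add (.add (.add (.mul (.c (1125)) (.mul (.mul (.v 2) (.v 2)) (.v 3))) (.mul (.c (1500)) (.mul (.v 3) (.v 5)))) (.add (.mul (.c (-1125)) (.mul (.mul (.v 2) (.v 3)) (.v 3))) (.mul (.c (1125)) (.mul (.mul (.v 2) (.v 2)) (.v 5))))) (.add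 (.add (.mul (.c (750)) (.mul (.v 5) (.v 5))) (.mul (.c (-125)) (.mul (.mul (.v 3) (.v 3)) (.v 3)))) (.add (.mul (.c (-1500)) (.mul (.mul (.v 2) (.v 3)) (.v 5))) (.add (.mul (.c (-1125)) (.mul (.mul (.v 2) (.v 5)) (.v 5))) (.mul (.c (-125)) (.mul (.mul (.v 5) (.v 5)) (.v 5)))))))))
    (e := (.add (.add (.add (.mul (.g 3) (.add (.add (.mul (.g 3) (.add (.mul (.g 3) (.mul (.g 4) (.pp [(1, 833391)]))) (.add (.mul (.g 5) (.mul (.g 5) (.pp [(1, 2083935)]))) (.mul (.g 6) (.mul (.g 6) (.pp [(1, 6250335)])))))) (.add (.mul (.g 0) (.mul (.g 0) (.add (.pp [(1, 37507875)]) (.mul (.g 0) (.pp [(1, 1161150)]))))) (.mul (.g 2) (.mul (.g 2) (.add (.pp [(1, 50006175)]) (.mul (.g 2) (.pp [(1, 13893300)]))))))) (.add (.add (.mul (.g 4) (.add (.pp [(1, 70497000)]) (.mul (.g 4) (.mul (.g 4) (.pp [(1, 37042950)]))))) (.mul (.g 1) (.mul (.g 1) (.mul (.g 1) (.pp [(1, 26625450)]))))) (.add (.mul (.g 5) (.pp [(1, 93747525)]))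 (.mul (.g 6) (.mul (.g 6) (.mul (.g 6) (.pp [(1, 1050)])))))))) (.add (.mul (.g 4) (.add (.mul (.g 1) (.add (.pp [(1, 149949375)]) (.add (.mul (.g 0) (.pp [(1, 427138500)])) (.mul (.g 1) (.mul (.g 1) (.pp [(1, 17367375)])))))) (.add (.mul (.g 4) (.add (.mul (.g 0) (.mul (.g 0) (.pp [(1, 295186500)]))) (.add (.mul (.g 2) (.mul (.g 2) (.pp [(1, 1125)]))) (.mul (.g 4) (.mul (.g 4) (.pp [(1, 17364375)])))))) (.mul (.g 6) (.mul (.g 6) (.add (.pp [(1, 4500)]) (.mul (.g 6) (.pp [(1, 1125)])))))))) (.mul (.g 5) (.add (.mul (.g 5) (.add (.mul (.g 5) (.add (.pp [(1, 72932250)]) (.add (.mul (.g 2) (.pp [(1, 138907875)])) (.mul (.g 5) (.pp [(1, 86815125)]))))) (.mul (.g 1) (.mul (.g 1) (.pp [(1, 1125)]))))) (.add (.mul (.g 6) (.add (.mul (.g 6) (.add (.pp [(1, 4500)]) (.mul (.g 6) (.pp [(1, 1125)])))) (.mul (.g 0) (.mul (.g 0) (.pp [(1, 312535500)]))))) (.mul (.g 2) (.pp [(1, 183715125)]))))))) (.add (.mul (.g 6)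 (.add (.pp [(1, 146988750)]) (.add (.mul (.g 0) (.pp [(1, 135050625)])) (.mul (.g 6) (.pp [(1, 131245125)]))))) (.add (.mul (.g 2) (.mul (.g 2) (.add (.pp [(1, 14939250)]) (.mul (.g 2) (.mul (.g 2) (.pp [(1, 52089750)])))))) (.mul (.g 1) (.mul (.g 1) (.pp [(1, 149947500)])))))) (.pp [(1, 40250000), (2, 3618), (3, 3807), (4, 3855), (5, 3825), (6, 3495), (8, 4100), (9, 3735), (10, 3735), (12, 3975), (15, 3720), (16, 4125), (18, 3450), (20, 3600), (24, 1500), (25, 3795), (27, 3850), (30, 3000), (36, 6375), (40, 3000), (45, 4050), (50, 3675), (54, 2250), (60, 7500), (75, 4050), (81, 4125), (90, 1125), (100, 4875), (125, 3700), (135, 4500), (150, 1125), (225, 4500), (250, 3000), (375, 4500), (625, 4125)])))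
    (by decide +kernel) (yv_nonneg h1 ha hb (le_refl 0) (le_refl 0) (le_refl 0) (le_refl 0) (le_refl 0) (le_refl 0))
    (by
      simp only [List.forall_mem_cons, exadd, exsub, exmul, exc, exv2, exv3, exv5]
      push_cast
      refine ⟨?_, ?_, ?_, ?_, ?_, ?_, ?_, fun _ hh => absurd hh List.not_mem_nil⟩
      · linarith only [h1]
      · linarith only [ha]
      · linarith only [hb]
      · linarith only [h2]
      · linarith only [h4]
      · linarith only [h6]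
      · linarith only [h7]
    )
  simp only [exadd, exsub, exmul, exc, exv2, exv3, exv5] at h
  push_cast at h
  linarith only [h]

theorem x5T13 {d a b : ℝ} (h1 : 0 ≤ d) (ha : 0 ≤ a) (hb : 0 ≤ b) (h2 : 0 ≤ 3 / 5 - d) (h4 : 0 ≤ d - a) (h6 : 0 ≤ d - b) (h7 : 0 ≤ -d + a + b) :
    0 ≤ 749 / 1500 + 687 / 500 * d - 78 / 125 * a - 571 / 500 * b - 2 * d ^ 2 + d * a + d * b + 1 / 2 * a ^ 2 + a * b + 1 / 2 * b ^ 2 - 1 / 6 * d ^ 3 + 3 / 4 * d ^ 2 * a + 3 / 4 * d ^ 2 * b - 3 / 4 * d * a ^ 2 - d * a * b - 3 / 4 * d * b ^ 2 - 1 / 12 * a ^ 3 - 1 / 12 * b ^ 3 := by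
  have h := cert (y := yv d a b 0 0 0 0 0 0)
    (gs := [(.v 2),
      (.v 3),
      (.v 5),
      (.add (.c (3)) (.mul (.c (-5)) (.v 2))),
      (.add (.v 2) (.mul (.c (-1)) (.v 3))),
      (.add (.v 2) (.mul (.c (-1)) (.v 5))),
      (.add (.mul (.c (-1)) (.v 2)) (.add (.v 3) (.v 5)))])
    (p := .mul (.c 1250000) (.add (.add (.add (.add (.c (749)) (.mul (.c (2061)) (.v 2))) (.add (.mul (.c (-936)) (.v 3)) (.mul (.c (-3000)) (.mul (.v 2) (.v 2))))) (.add (.add (.mul (.c (-1713)) (.v 5)) (.mul (.c (1500)) (.mul (.v 2) (.v 3)))) (.add (.mul (.c (-250)) (.mul (.mul (.v 2) (.v 2)) (.v 2))) (.add (.mul (.c (750)) (.mul (.v 3) (.v 3))) (.mul (.c (1500)) (.mul (.v 2) (.v 5))))))) (.add (.add (.add (.mul (.c (1125)) (.mul (.mul (.v 2) (.v 2)) (.v 3))) (.mul (.c (1500)) (.mul (.v 3) (.v 5)))) (.add (.mul (.c (-1125)) (.mul (.mul (.v 2) (.v 3)) (.v 3))) (.mul (.c (1125)) (.mul (.mul (.v 2) (.v 2)) (.v 5)))))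 (.add (.add (.mul (.c (750)) (.mul (.v 5) (.v 5))) (.mul (.c (-125)) (.mul (.mul (.v 3) (.v 3)) (.v 3)))) (.add (.mul (.c (-1500)) (.mul (.mul (.v 2) (.v 3)) (.v 5))) (.add (.mul (.c (-1125)) (.mul (.mul (.v 2) (.v 5)) (.v 5))) (.mul (.c (-125)) (.mul (.mul (.v 5) (.v 5)) (.v 5)))))))))
    (e := (.add (.add (.add (.mul (.g 3) (.add (.add (.mul (.g 3) (.add (.add (.mul (.g 3) (.add (.mul (.g 3) (.pp [(1, 2195322)])) (.mul (.g 4) (.pp [(1, 19966890)])))) (.mul (.g 5) (.add (.pp [(1, 75803625)]) (.mul (.g 5) (.pp [(1, 31647225)]))))) (.add (.mul (.g 2) (.mul (.g 2) (.pp [(1, 180675)]))) (.add (.mul (.g 4) (.mul (.g 4) (.pp [(1, 66097875)]))) (.mul (.g 6) (.mul (.g 6) (.pp [(1, 30674625)]))))))) (.mul (.g 1) (.add (.pp [(1, 150139125)]) (.add (.mul (.g 1) (.add (.pp [(1, 11831250)]) (.mul (.g 1) (.pp [(1, 485882250)])))) (.mul (.g 5) (.mul (.g 5) (.pp [(1, 2513625)]))))))) (.add (.mul (.g 0) (.mul (.g 0)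 (.mul (.g 0) (.pp [(1, 106654125)])))) (.add (.mul (.g 4) (.pp [(1, 360443625)])) (.mul (.g 5) (.pp [(1, 239350875)])))))) (.mul (.g 5) (.add (.add (.pp [(1, 740983125)]) (.add (.mul (.g 4) (.add (.pp [(1, 68094375)]) (.mul (.g 4) (.mul (.g 4) (.pp [(1, 7524375)]))))) (.mul (.g 5) (.mul (.g 5) (.add (.pp [(1, 152488125)]) (.mul (.g 5) (.pp [(1, 433125)]))))))) (.add (.mul (.g 6) (.add (.mul (.g 0) (.mul (.g 0) (.pp [(1, 1558906875)]))) (.mul (.g 6) (.pp [(1, 3780000)])))) (.add (.mul (.g 1) (.mul (.g 1) (.mul (.g 1) (.pp [(1, 811468125)])))) (.mul (.g 2) (.mul (.g 2) (.mul (.g 2) (.pp [(1, 1695000)]))))))))) (.add (.mul (.g 1) (.add (.mul (.g 1) (.add (.mul (.g 1) (.mul (.g 6) (.pp [(1, 811443750)]))) (.add (.mul (.g 2) (.mul (.g 2) (.pp [(1, 6256875)]))) (.mul (.g 4) (.pp [(1, 1644733125)]))))) (.add (.mul (.g 2) (.add (.pp [(1, 848748750)]) (.mul (.g 4) (.pp [(1, 27056250)])))) (.mul (.g 4) (.mul (.g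 4) (.mul (.g 4) (.pp [(1, 808955625)]))))))) (.mul (.g 6) (.add (.mul (.g 6) (.add (.pp [(1, 31035000)]) (.add (.mul (.g 2) (.mul (.g 2) (.pp [(1, 1243125)]))) (.mul (.g 4) (.mul (.g 6) (.pp [(1, 2506875)])))))) (.add (.mul (.g 2) (.pp [(1, 343923750)])) (.mul (.g 4) (.mul (.g 4) (.pp [(1, 30817500)])))))))) (.pp [(1, 758428918), (2, 18600), (3, 19530), (4, 19800), (5, 18375), (6, 16725), (8, 20875), (9, 18750), (10, 18300), (12, 16875), (15, 19875), (16, 18750), (18, 20625), (20, 16500), (24, 15000), (25, 18525), (27, 18875), (30, 18000), (36, 22500), (40, 15000), (45, 18750), (50, 21375), (54, 16875), (60, 28125), (75, 19125), (81, 18750), (90, 11250), (100, 22500), (125, 18125), (135, 20625), (150, 13125), (225, 20625), (250, 16875), (375, 20625), (625, 18750)])))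
    (by decide +kernel) (yv_nonneg h1 ha hb (le_refl 0) (le_refl 0) (le_refl 0) (le_refl 0) (le_refl 0) (le_refl 0))
    (by
      simp only [List.forall_mem_cons, exadd, exsub, exmul, exc, exv2, exv3, exv5]
      push_cast
      refine ⟨?_, ?_, ?_, ?_, ?_, ?_, ?_, fun _ hh => absurd hh List.not_mem_nil⟩
      · linarith only [h1]
      · linarith only [ha]
      · linarith only [hb]
      · linarith only [h2]
      · linarith only [h4]
      · linarith only [h6]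
      · linarith only [h7]
    )
  simp only [exadd, exsub, exmul, exc, exv2, exv3, exv5] at h
  push_cast at h
  linarith only [h]

theorem x5T23 {d a b : ℝ} (h1 : 0 ≤ d) (ha : 0 ≤ a) (hb : 0 ≤ b) (h2 : 0 ≤ 3 / 5 - d) (h4 : 0 ≤ d - a) (h6 : 0 ≤ d - b) (h7 : 0 ≤ -d + a + b) :
    0 ≤ 469 / 750 + 3 / 2 * d - 219 / 250 * a - 317 / 250 * b - 2 * d ^ 2 + d * a + d * b + 1 / 2 * a ^ 2 + a * b + 1 / 2 * b ^ 2 - 1 / 6 * d ^ 3 + 3 / 4 * d ^ 2 * a + 3 / 4 * d ^ 2 * b - 3 / 4 * d * a ^ 2 - d * a * b - 3 / 4 * d * b ^ 2 - 1 / 12 * a ^ 3 - 1 / 12 * b ^ 3 := by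
  have h := cert (y := yv d a b 0 0 0 0 0 0)
    (gs := [(.v 2),
      (.v 3),
      (.v 5),
      (.add (.c (3)) (.mul (.c (-5)) (.v 2))),
      (.add (.v 2) (.mul (.c (-1)) (.v 3))),
      (.add (.v 2) (.mul (.c (-1)) (.v 5))),
      (.add (.mul (.c (-1)) (.v 2)) (.add (.v 3) (.v 5)))])
    (p := .mul (.c 250000) (.add (.add (.add (.add (.c (938)) (.mul (.c (2250)) (.v 2))) (.add (.mul (.c (-1314)) (.v 3)) (.mul (.c (-3000)) (.mul (.v 2) (.v 2))))) (.add (.add (.mul (.c (-1902)) (.v 5)) (.mul (.c (1500)) (.mul (.v 2) (.v 3)))) (.add (.mul (.c (-250)) (.mul (.mul (.v 2) (.v 2)) (.v 2))) (.add (.mul (.c (750)) (.mul (.v 3) (.v 3))) (.mul (.c (1500)) (.mul (.v 2) (.v 5))))))) (.add (.add (.add (.mul (.c (1125)) (.mul (.mul (.v 2) (.v 2)) (.v 3))) (.mul (.c (1500)) (.mul (.v 3) (.v 5)))) (.add (.mul (.c (-1125)) (.mul (.mul (.v 2) (.v 3)) (.v 3))) (.mul (.c (1125)) (.mul (.mul (.v 2) (.v 2)) (.v 5)))))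 (.add (.add (.mul (.c (750)) (.mul (.v 5) (.v 5))) (.mul (.c (-125)) (.mul (.mul (.v 3) (.v 3)) (.v 3)))) (.add (.mul (.c (-1500)) (.mul (.mul (.v 2) (.v 3)) (.v 5))) (.add (.mul (.c (-1125)) (.mul (.mul (.v 2) (.v 5)) (.v 5))) (.mul (.c (-125)) (.mul (.mul (.v 5) (.v 5)) (.v 5)))))))))
    (e := (.add (.add (.add (.mul (.g 5) (.add (.add (.pp [(1, 104230875)]) (.add (.mul (.g 5) (.add (.mul (.g 1) (.add (.mul (.g 1) (.pp [(1, 1037625)])) (.mul (.g 3) (.pp [(1, 829200)])))) (.add (.mul (.g 5) (.add (.pp [(1, 33750000)]) (.mul (.g 5) (.pp [(1, 516000)])))) (.mul (.g 3) (.mul (.g 3) (.pp [(1, 6665895)])))))) (.mul (.g 6) (.add (.mul (.g 6) (.add (.pp [(1, 9958875)]) (.mul (.g 6) (.pp [(1, 7432875)])))) (.mul (.g 0) (.mul (.g 0) (.pp [(1, 329126625)]))))))) (.add (.mul (.g 2) (.add (.pp [(1, 18696375)]) (.mul (.g 2) (.mul (.g 2) (.pp [(1, 8296125)]))))) (.add (.mul (.g 3) (.add (.pp [(1, 77258850)]) (.mul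 (.g 3) (.pp [(1, 15499605)])))) (.mul (.g 4) (.pp [(1, 82597500)])))))) (.mul (.g 4) (.add (.mul (.g 1) (.add (.pp [(1, 135770625)]) (.mul (.g 1) (.add (.pp [(1, 32081625)]) (.add (.mul (.g 1) (.pp [(1, 14183250)])) (.mul (.g 4) (.pp [(1, 20922000)]))))))) (.add (.mul (.g 3) (.add (.pp [(1, 67416225)]) (.add (.mul (.g 3) (.add (.mul (.g 3) (.pp [(1, 4676115)])) (.mul (.g 4) (.pp [(1, 12271350)])))) (.mul (.g 4) (.pp [(1, 22208400)]))))) (.mul (.g 6) (.add (.mul (.g 4) (.mul (.g 4) (.pp [(1, 13828500)]))) (.mul (.g 6) (.pp [(1, 7471500)])))))))) (.add (.mul (.g 3) (.add (.add (.mul (.g 3) (.add (.mul (.g 3) (.mul (.g 3) (.pp [(1, 447243)]))) (.mul (.g 6) (.mul (.g 6) (.pp [(1, 6499230)]))))) (.mul (.g 0) (.mul (.g 1) (.mul (.g 1) (.pp [(1, 89742450)]))))) (.add (.mul (.g 2) (.mul (.g 2) (.mul (.g 2) (.pp [(1, 1385325)])))) (.mul (.g 6) (.mul (.g 6) (.mul (.g 6) (.pp [(1, 2766450)]))))))) (.add (.mul (.g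 6) (.add (.mul (.g 6) (.add (.pp [(1, 87706125)]) (.mul (.g 1) (.mul (.g 6) (.pp [(1, 7086000)]))))) (.mul (.g 2) (.mul (.g 2) (.mul (.g 2) (.pp [(1, 15209250)])))))) (.mul (.g 0) (.add (.mul (.g 0) (.mul (.g 0) (.mul (.g 0) (.pp [(1, 5111625)])))) (.mul (.g 1) (.mul (.g 1) (.pp [(1, 84121500)])))))))) (.pp [(1, 198273317), (2, 3570), (3, 3780), (4, 3900), (5, 3870), (6, 3315), (8, 3725), (9, 4080), (10, 3225), (12, 3675), (15, 4110), (16, 3750), (18, 3600), (20, 4200), (24, 4125), (25, 4125), (27, 3775), (30, 3600), (36, 3000), (40, 3750), (45, 3825), (50, 3675), (54, 4125), (60, 3000), (75, 3600), (81, 3750), (90, 5250), (100, 3000), (125, 3550), (135, 3375), (150, 4875), (225, 3000), (250, 4500), (375, 3375), (625, 3750)])))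
    (by decide +kernel) (yv_nonneg h1 ha hb (le_refl 0) (le_refl 0) (le_refl 0) (le_refl 0) (le_refl 0) (le_refl 0))
    (by
      simp only [List.forall_mem_cons, exadd, exsub, exmul, exc, exv2, exv3, exv5]
      push_cast
      refine ⟨?_, ?_, ?_, ?_, ?_, ?_, ?_, fun _ hh => absurd hh List.not_mem_nil⟩
      · linarith only [h1]
      · linarith only [ha]
      · linarith only [hb]
      · linarith only [h2]
      · linarith only [h4]
      · linarith only [h6]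
      · linarith only [h7]
    )
  simp only [exadd, exsub, exmul, exc, exv2, exv3, exv5] at h
  push_cast at h
  linarith only [h]

theorem x7N {d a b : ℝ} (h1 : 0 ≤ d) (ha : 0 ≤ a) (hb : 0 ≤ b) (h2 : 0 ≤ 3 / 5 - d) (h3 : 0 ≤ -d + a) (h4 : 0 ≤ -d + b) (h5 : 0 ≤ 1 - a - b) :
    0 ≤ 89 / 150 + 1839 / 1000 * d - 281 / 200 * a - 311 / 250 * b - d ^ 2 + a ^ 2 + a * b + b ^ 2 - 1 / 3 * d ^ 3 + d ^ 2 * a + d ^ 2 * b - d * a ^ 2 - d * a * b - d * b ^ 2 := by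
  have h := cert (y := yv d a b 0 0 0 0 0 0)
    (gs := [(.v 2),
      (.v 3),
      (.v 5),
      (.add (.c (3)) (.mul (.c (-5)) (.v 2))),
      (.add (.mul (.c (-1)) (.v 2)) (.v 3)),
      (.add (.mul (.c (-1)) (.v 2)) (.v 5)),
      (.add (.c (1)) (.add (.mul (.c (-1)) (.v 3)) (.mul (.c (-1)) (.v 5))))])
    (p := .mul (.c 50000000) (.add (.add (.add (.c (1780)) (.add (.mul (.c (5517)) (.v 2)) (.mul (.c (-4215)) (.v 3)))) (.add (.add (.mul (.c (-3000)) (.mul (.v 2) (.v 2))) (.mul (.c (-3732)) (.v 5))) (.add (.mul (.c (-1000)) (.mul (.mul (.v 2) (.v 2)) (.v 2))) (.mul (.c (3000)) (.mul (.v 3) (.v 3)))))) (.add (.add (.mul (.c (3000)) (.mul (.mul (.v 2) (.v 2)) (.v 3))) (.add (.mul (.c (3000)) (.mul (.v 3) (.v 5))) (.mul (.c (-3000)) (.mul (.mul (.v 2) (.v 3)) (.v 3))))) (.add (.add (.mul (.c (3000)) (.mul (.mul (.v 2) (.v 2)) (.v 5))) (.mul (.c (3000)) (.mul (.v 5) (.v 5)))) (.add (.mul (.c (-3000))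 (.mul (.mul (.v 2) (.v 3)) (.v 5))) (.mul (.c (-3000)) (.mul (.mul (.v 2) (.v 5)) (.v 5))))))))
    (e := (.add (.add (.add (.mul (.pp [(1, 6723060)]) (.sq [(1, -59), (3, 42), (5, 100)])) (.add (.mul (.g 0) (.add (.add (.pp [(1, 120531450000)]) (.add (.mul (.g 5) (.add (.add (.pp [(1, 71034000000)]) (.mul (.g 5) (.add (.pp [(1, 785100000)]) (.add (.mul (.g 5) (.pp [(1, 8512500000)])) (.mul (.g 6) (.pp [(1, 47931000000)])))))) (.add (.mul (.g 0) (.add (.mul (.g 4) (.pp [(1, 21279900000)])) (.mul (.g 6) (.pp [(1, 116239800000)])))) (.mul (.g 6) (.mul (.g 6) (.pp [(1, 32061450000)])))))) (.mul (.g 6) (.add (.add (.pp [(1, 180550800000)]) (.mul (.g 0) (.mul (.g 4) (.pp [(1, 100584300000)])))) (.add (.mul (.g 3) (.mul (.g 3) (.pp [(1, 6926094000)]))) (.mul (.g 6) (.pp [(1, 41048700000)]))))))) (.add (.mul (.g 0) (.add (.pp [(1, 45773550000)]) (.mul (.g 3) (.pp [(1, 12541410000)])))) (.add (.mul (.g 4) (.add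 (.mul (.g 2) (.pp [(1, 2363700000)])) (.mul (.g 3) (.mul (.g 4) (.pp [(1, 2553750000)]))))) (.mul (.g 1) (.mul (.g 1) (.mul (.g 1) (.pp [(1, 58394850000)])))))))) (.mul (.g 4) (.add (.add (.mul (.pp [(1, 4882080)]) (.sq [(1, 2), (3, -35), (5, 50)])) (.add (.mul (.pp [(1, 7454100)]) (.sq [(1, -77), (3, 100), (5, 73)])) (.mul (.g 3) (.add (.mul (.pp [(1, 2532624)]) (.sq [(1, -77), (3, 100), (5, 73)])) (.mul (.pp [(1, 750528)]) (.sq [(1, 2), (3, -35), (5, 50)])))))) (.add (.mul (.g 6) (.add (.mul (.pp [(1, 5051835)]) (.sq [(1, -47), (3, 100), (5, -1)])) (.mul (.g 6) (.mul (.g 6) (.pp [(1, 13274100000)]))))) (.add (.mul (.g 2) (.mul (.pp [(1, 1153440)]) (.sq [(1, -4), (3, -69), (5, 100)]))) (.mul (.g 4) (.mul (.pp [(1, 1418505)]) (.sq [(1, -41), (3, 100), (5, -28)]))))))))) (.add (.add (.mul (.g 6) (.add (.mul (.pp [(1, 34812960)]) (.sq [(1, -21), (3, 50), (5, -13)])) (.add (.mul (.g 6) (.mul (.g 6) (.add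 (.mul (.g 2) (.pp [(1, 69233550000)])) (.add (.mul (.g 5) (.pp [(1, 5146050000)])) (.mul (.g 6) (.pp [(1, 49605900000)])))))) (.mul (.g 5) (.mul (.pp [(1, 51621120)]) (.sq [(1, -12), (3, 25), (5, -3)])))))) (.mul (.g 2) (.mul (.g 2) (.mul (.pp [(1, 2523690)]) (.sq [(1, -55), (3, 38), (5, 100)]))))) (.add (.mul (.g 3) (.mul (.pp [(1, 308247)]) (.sq [(1, -23), (3, 100), (5, -98)]))) (.mul (.g 5) (.mul (.pp [(1, 42142800)]) (.sq [(1, -6), (3, 25), (5, -17)])))))) (.pp [(1, 149424791), (2, 1429554), (3, 1345161), (4, 1334055), (5, 1432692), (6, 1790295), (8, 1450000), (9, 1723530), (10, 1731531), (12, 1638600), (15, 1693449), (16, 1350000), (18, 1129800), (20, 1759560), (24, 1650000), (25, 1500546), (27, 1383600), (30, 1080870), (36, 1266000), (40, 1650000), (45, 1266930), (50, 1255713), (54, 1734000), (60, 1416000), (75, 1516947), (81, 1500000), (90, 1668840), (100, 1275600), (125, 1641600), (135, 1583160),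 (150, 1653405), (225, 1572555), (250, 1658085), (375, 1329915), (625, 1390080)])))
    (by decide +kernel) (yv_nonneg h1 ha hb (le_refl 0) (le_refl 0) (le_refl 0) (le_refl 0) (le_refl 0) (le_refl 0))
    (by
      simp only [List.forall_mem_cons, exadd, exsub, exmul, exc, exv2, exv3, exv5]
      push_cast
      refine ⟨?_, ?_, ?_, ?_, ?_, ?_, ?_, fun _ hh => absurd hh List.not_mem_nil⟩
      · linarith only [h1]
      · linarith only [ha]
      · linarith only [hb]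
      · linarith only [h2]
      · linarith only [h3]
      · linarith only [h4]
      · linarith only [h5]
    )
  simp only [exadd, exsub, exmul, exc, exv2, exv3, exv5] at h
  push_cast at h
  linarith only [h]

theorem x7P1 {d a b : ℝ} (h1 : 0 ≤ d) (ha : 0 ≤ a) (hb : 0 ≤ b) (h2 : 0 ≤ 3 / 5 - d) (h4 : 0 ≤ d - a) (h5 : 0 ≤ -d + a + b) (h6 : 0 ≤ 1 - b) :
    0 ≤ 89 / 150 + 1589 / 1000 * d - 231 / 200 * a - 311 / 250 * b - 3 / 2 * d ^ 2 + d * a + 1 / 2 * a ^ 2 + a * b + b ^ 2 - 1 / 4 * d ^ 3 + 3 / 4 * d ^ 2 * a + d ^ 2 * b - 3 / 4 * d * a ^ 2 - d * a * b - d * b ^ 2 - 1 / 12 * a ^ 3 := by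
  have h := cert (y := yv d a b 0 0 0 0 0 0)
    (gs := [(.v 2),
      (.v 3),
      (.v 5),
      (.add (.c (3)) (.mul (.c (-5)) (.v 2))),
      (.add (.v 2) (.mul (.c (-1)) (.v 3))),
      (.add (.mul (.c (-1)) (.v 2)) (.add (.v 3) (.v 5))),
      (.add (.c (1)) (.mul (.c (-1)) (.v 5)))])
    (p := .mul (.c 125000) (.add (.add (.add (.add (.c (1780)) (.mul (.c (4767)) (.v 2))) (.add (.mul (.c (-3465)) (.v 3)) (.mul (.c (-4500)) (.mul (.v 2) (.v 2))))) (.add (.add (.mul (.c (-3732)) (.v 5)) (.mul (.c (3000)) (.mul (.v 2) (.v 3)))) (.add (.mul (.c (-750)) (.mul (.mul (.v 2) (.v 2)) (.v 2))) (.mul (.c (1500)) (.mul (.v 3) (.v 3)))))) (.add (.add (.add (.mul (.c (2250)) (.mul (.mul (.v 2) (.v 2)) (.v 3))) (.mul (.c (3000)) (.mul (.v 3) (.v 5)))) (.add (.mul (.c (-2250)) (.mul (.mul (.v 2) (.v 3)) (.v 3))) (.mul (.c (3000)) (.mul (.mul (.v 2) (.v 2)) (.v 5))))) (.add (.add (.mul (.c (3000)) (.mul (.v 5)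 (.v 5))) (.mul (.c (-250)) (.mul (.mul (.v 3) (.v 3)) (.v 3)))) (.add (.mul (.c (-3000)) (.mul (.mul (.v 2) (.v 3)) (.v 5))) (.mul (.c (-3000)) (.mul (.mul (.v 2) (.v 5)) (.v 5))))))))
    (e := (.add (.add (.add (.mul (.g 6) (.add (.add (.mul (.g 6) (.add (.add (.mul (.g 4) (.add (.mul (.g 4) (.pp [(1, 139087500)])) (.add (.mul (.g 5) (.pp [(1, 274530000)])) (.mul (.g 6) (.pp [(1, 262262625)]))))) (.mul (.g 0) (.add (.mul (.g 3) (.pp [(1, 37134000)])) (.mul (.g 5) (.pp [(1, 28480125)]))))) (.add (.mul (.g 6) (.add (.mul (.g 3) (.pp [(1, 56917500)])) (.mul (.g 5) (.pp [(1, 45753750)])))) (.mul (.g 1) (.mul (.g 1) (.pp [(1, 185680125)])))))) (.mul (.g 0) (.add (.pp [(1, 284446500)]) (.mul (.g 2) (.mul (.g 5) (.pp [(1, 398668500)])))))) (.add (.mul (.g 4) (.add (.mul (.g 1) (.mul (.g 1) (.pp [(1, 43312125)]))) (.mul (.g 4) (.mul (.g 4) (.pp [(1, 21438000)]))))) (.mul (.g 5) (.mul (.g 5) (.mul (.g 5) (.pp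 [(1, 16162500)]))))))) (.add (.mul (.g 3) (.add (.add (.mul (.g 0) (.add (.add (.pp [(1, 15526800)]) (.mul (.g 1) (.mul (.g 1) (.pp [(1, 1446375)])))) (.add (.mul (.g 2) (.mul (.g 2) (.pp [(1, 4217925)]))) (.add (.mul (.g 3) (.mul (.g 3) (.pp [(1, 181533)]))) (.mul (.g 5) (.mul (.g 5) (.pp [(1, 4330425)]))))))) (.mul (.g 1) (.mul (.g 1) (.add (.pp [(1, 34039725)]) (.mul (.g 5) (.pp [(1, 3000)])))))) (.add (.mul (.g 4) (.add (.pp [(1, 38418975)]) (.mul (.g 4) (.pp [(1, 27108075)])))) (.mul (.g 5) (.mul (.g 5) (.mul (.g 5) (.pp [(1, 5774925)]))))))) (.mul (.g 1) (.add (.mul (.g 1) (.add (.mul (.g 1) (.mul (.g 1) (.pp [(1, 3610125)]))) (.add (.mul (.g 2) (.mul (.g 2) (.pp [(1, 42720750)]))) (.mul (.g 4) (.mul (.g 4) (.pp [(1, 7215000)])))))) (.add (.mul (.g 2) (.mul (.g 2) (.mul (.g 2) (.pp [(1, 114468000)])))) (.mul (.g 4) (.pp [(1, 46185000)]))))))) (.add (.mul (.g 4) (.add (.pp [(1, 101362875)]) (.add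 (.mul (.g 4) (.mul (.g 4) (.mul (.g 4) (.pp [(1, 5368125)])))) (.mul (.g 5) (.mul (.g 5) (.mul (.g 5) (.pp [(1, 16197000)]))))))) (.add (.mul (.g 2) (.mul (.g 2) (.add (.mul (.g 2) (.mul (.g 2) (.pp [(1, 57795375)]))) (.mul (.g 5) (.mul (.g 5) (.pp [(1, 4117500)])))))) (.mul (.g 0) (.mul (.g 0) (.mul (.g 0) (.mul (.g 0) (.pp [(1, 26294250)])))))))) (.pp [(1, 51747500), (2, 3534), (3, 3675), (4, 4230), (5, 3750), (6, 3450), (8, 3450), (9, 3975), (10, 4500), (12, 3975), (15, 3375), (16, 3750), (18, 3300), (20, 3975), (24, 4125), (25, 3750), (27, 3850), (30, 2850), (36, 3375), (40, 4125), (45, 4425), (50, 2400), (54, 4125), (60, 3000), (75, 4800), (81, 3750), (90, 4500), (100, 3000), (125, 3975), (135, 3375), (150, 5250), (225, 2625), (250, 4875), (375, 2625), (625, 3375)])))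
    (by decide +kernel) (yv_nonneg h1 ha hb (le_refl 0) (le_refl 0) (le_refl 0) (le_refl 0) (le_refl 0) (le_refl 0))
    (by
      simp only [List.forall_mem_cons, exadd, exsub, exmul, exc, exv2, exv3, exv5]
      push_cast
      refine ⟨?_, ?_, ?_, ?_, ?_, ?_, ?_, fun _ hh => absurd hh List.not_mem_nil⟩
      · linarith only [h1]
      · linarith only [ha]
      · linarith only [hb]
      · linarith only [h2]
      · linarith only [h4]
      · linarith only [h5]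
      · linarith only [h6]
    )
  simp only [exadd, exsub, exmul, exc, exv2, exv3, exv5] at h
  push_cast at h
  linarith only [h]

theorem x7Q1 {d t b w : ℝ} (h1 : 0 ≤ d) (ht : 0 ≤ t) (hb : 0 ≤ b) (hw : 0 ≤ w) (h2 : 0 ≤ 3 / 5 - d) (h4 : 0 ≤ 1 - d - t) (h5 : 0 ≤ -d - t + b) (h6 : 0 ≤ 1 - b) (h7 : 0 ≤ d + t - w) (h8 : 0 ≤ 13 / 20 - w) :
    0 ≤ 89 / 150 + 1839 / 1000 * d + 281 / 200 * t - 311 / 250 * b - 1 / 4 * w - d ^ 2 + t ^ 2 - t * b + b ^ 2 - 1 / 2 * w ^ 2 - 1 / 3 * d ^ 3 - d ^ 2 * t + d ^ 2 * b - d * t ^ 2 + d * t * b - d * b ^ 2 - 1 / 3 * t ^ 3 + 1 / 12 * w ^ 3 := by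
  have h := cert (y := yv d t b w 0 0 0 0 0)
    (gs := [(.v 2),
      (.v 3),
      (.v 5),
      (.v 7),
      (.add (.c (3)) (.mul (.c (-5)) (.v 2))),
      (.add (.c (1)) (.add (.mul (.c (-1)) (.v 2)) (.mul (.c (-1)) (.v 3)))),
      (.add (.mul (.c (-1)) (.v 2)) (.add (.mul (.c (-1)) (.v 3)) (.v 5))),
      (.add (.c (1)) (.mul (.c (-1)) (.v 5))),
      (.add (.v 2) (.add (.v 3) (.mul (.c (-1)) (.v 7)))),
      (.add (.c (13)) (.mul (.c (-20)) (.v 7)))])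
    (p := .mul (.c 2000000000) (.add (.add (.add (.add (.c (1780)) (.mul (.c (5517)) (.v 2))) (.add (.mul (.c (4215)) (.v 3)) (.mul (.c (-3000)) (.mul (.v 2) (.v 2))))) (.add (.add (.mul (.c (-3732)) (.v 5)) (.mul (.c (-750)) (.v 7))) (.add (.mul (.c (-1000)) (.mul (.mul (.v 2) (.v 2)) (.v 2))) (.add (.mul (.c (3000)) (.mul (.v 3) (.v 3))) (.mul (.c (-3000)) (.mul (.mul (.v 2) (.v 2)) (.v 3))))))) (.add (.add (.add (.mul (.c (-3000)) (.mul (.v 3) (.v 5))) (.mul (.c (-3000)) (.mul (.mul (.v 2) (.v 3)) (.v 3)))) (.add (.mul (.c (3000)) (.mul (.mul (.v 2) (.v 2)) (.v 5))) (.mul (.c (3000)) (.mul (.v 5) (.v 5))))) (.add (.add (.mul (.c (-1000)) (.mul (.mul (.v 3) (.v 3)) (.v 3))) (.mul (.c (3000)) (.mul (.mul (.v 2) (.v 3)) (.v 5)))) (.add (.mul (.c (-1500)) (.mul (.v 7) (.v 7))) (.add (.mul (.c (-3000)) (.mul (.mul (.v 2) (.v 5)) (.v 5))) (.mul (.c (250)) (.mul (.mul (.v 7) (.v 7)) (.v 7)))))))))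
    (e := (.add (.add (.add (.add (.mul (.g 1) (.add (.add (.mul (.g 8) (.add (.add (.mul (.g 1) (.add (.add (.mul (.g 1) (.pp [(1, 927504000000)])) (.mul (.g 4) (.pp [(1, 1217121600000)]))) (.add (.mul (.g 5) (.pp [(1, 4566726000000)])) (.add (.mul (.g 6) (.pp [(1, 1023912000000)])) (.mul (.g 9) (.pp [(1, 15071400000)])))))) (.mul (.g 6) (.add (.add (.mul (.g 3) (.pp [(1, 5593794000000)])) (.mul (.g 5) (.pp [(1, 816762000000)]))) (.add (.mul (.g 6) (.pp [(1, 582552000000)])) (.mul (.g 8) (.pp [(1, 4569084000000)])))))) (.add (.mul (.g 0) (.add (.mul (.g 0) (.pp [(1, 19550694000000)])) (.add (.mul (.g 3) (.pp [(1, 2433024000000)])) (.mul (.g 4) (.pp [(1, 2757112800000)]))))) (.mul (.g 3) (.mul (.g 8) (.pp [(1, 380850000000)])))))) (.add (.mul (.g 0) (.add (.add (.mul (.g 4) (.add (.mul (.g 2) (.pp [(1, 210826800000)])) (.add (.mul (.g 7) (.pp [(1, 637197600000)])) (.mul (.g 9) (.pp [(1, 4142340000)])))))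 (.mul (.g 1) (.mul (.g 1) (.pp [(1, 2549970000000)])))) (.add (.mul (.g 2) (.mul (.g 3) (.pp [(1, 5803134000000)]))) (.add (.mul (.g 5) (.pp [(1, 1529052000000)])) (.mul (.g 6) (.pp [(1, 2698758000000)])))))) (.mul (.g 1) (.add (.mul (.g 1) (.add (.mul (.g 4) (.pp [(1, 509982000000)])) (.mul (.g 5) (.pp [(1, 1925292000000)])))) (.add (.mul (.g 3) (.add (.mul (.g 2) (.pp [(1, 2826558000000)])) (.mul (.g 6) (.pp [(1, 2501916000000)])))) (.mul (.g 5) (.mul (.g 6) (.pp [(1, 5375640000000)])))))))) (.add (.mul (.g 6) (.add (.mul (.pp [(1, 10218000)]) (.sq [(1, 78), (2, 100), (3, 70), (5, 39), (7, 70)])) (.mul (.g 6) (.add (.mul (.g 3) (.pp [(1, 2785584000000)])) (.mul (.g 9) (.pp [(1, 148120500000)])))))) (.add (.mul (.g 3) (.mul (.g 5) (.mul (.g 5) (.pp [(1, 59592000000)])))) (.mul (.g 7) (.pp [(1, 3793794000000)])))))) (.mul (.g 0) (.add (.add (.mul (.g 4) (.add (.mul (.g 2) (.add (.mul (.g 5) (.pp [(1,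 763195200000)])) (.add (.mul (.g 6) (.pp [(1, 16335600000)])) (.mul (.g 8) (.pp [(1, 1444638000000)]))))) (.mul (.g 3) (.mul (.g 4) (.pp [(1, 24829200000)]))))) (.add (.mul (.g 0) (.add (.pp [(1, 286746000000)]) (.add (.mul (.g 0) (.mul (.g 6) (.pp [(1, 2141046000000)]))) (.mul (.g 8) (.mul (.g 9) (.pp [(1, 18316800000)])))))) (.mul (.g 5) (.add (.pp [(1, 4462302000000)]) (.mul (.g 7) (.mul (.g 7) (.pp [(1, 54786000000)]))))))) (.add (.add (.mul (.g 8) (.add (.mul (.pp [(1, 609154200)]) (.sq [(1, 1), (2, -46), (3, 100), (5, 9), (7, -21)])) (.mul (.pp [(1, 121995000)]) (.sq [(1, 100), (2, -29), (3, -29), (5, 87), (7, -29)])))) (.mul (.g 3) (.mul (.g 3) (.mul (.g 3) (.pp [(1, 255690000000)]))))) (.add (.mul (.g 6) (.mul (.g 7) (.pp [(1, 3699624000000)]))) (.mul (.g 9) (.pp [(1, 73097100000)]))))))) (.add (.mul (.g 3) (.add (.add (.mul (.g 9) (.add (.pp [(1, 26605800000)]) (.add (.mul (.g 2) (.mul (.g 9)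 (.pp [(1, 408810000)]))) (.mul (.g 3) (.mul (.g 3) (.pp [(1, 17735700000)])))))) (.mul (.g 5) (.add (.mul (.pp [(1, 140880000)]) (.sq [(1, -7), (2, 5), (3, 100), (5, -20), (7, 38)])) (.mul (.g 6) (.mul (.g 8) (.pp [(1, 237720000000)])))))) (.add (.mul (.g 3) (.mul (.pp [(1, 34860600)]) (.sq [(1, 12), (2, 54), (3, -31), (5, 18), (7, 100)]))) (.add (.mul (.g 7) (.pp [(1, 3819606000000)])) (.mul (.g 8) (.pp [(1, 3099294000000)])))))) (.mul (.g 6) (.add (.mul (.g 6) (.add (.add (.pp [(1, 441342000000)]) (.mul (.pp [(1, 10682400)]) (.sq [(1, 100), (2, -74), (3, -39), (5, 51), (7, -3)]))) (.add (.mul (.pp [(1, 10688400)]) (.sq [(1, 29), (2, -10), (3, 83), (5, -27), (7, 100)])) (.add (.mul (.g 4) (.mul (.g 5) (.pp [(1, 109830000000)]))) (.mul (.g 6) (.mul (.g 7) (.pp [(1, 35634000000)]))))))) (.add (.mul (.g 2) (.mul (.g 4) (.mul (.g 5) (.pp [(1, 139966800000)])))) (.mul (.g 9) (.mul (.pp [(1, 579570)]) (.sq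 [(1, -17), (2, 100), (3, 56), (5, -83), (7, -2)])))))))) (.add (.add (.mul (.g 8) (.add (.mul (.g 2) (.add (.mul (.pp [(1, 188594400)]) (.sq [(1, -16), (2, 100), (3, -39), (7, 37)])) (.add (.mul (.pp [(1, 32178000)]) (.sq [(1, 100), (2, 81), (3, 22), (5, -38), (7, -38)])) (.mul (.g 4) (.mul (.g 4) (.pp [(1, 143166720000)])))))) (.mul (.g 7) (.add (.pp [(1, 5384856000000)]) (.mul (.pp [(1, 24738600)]) (.sq [(1, -53), (2, 100), (3, 45), (5, 87), (7, -7)])))))) (.mul (.g 5) (.add (.mul (.g 2) (.mul (.pp [(1, 750681600)]) (.sq [(1, -4), (2, 50), (3, 37), (5, 19), (7, 19)]))) (.add (.mul (.g 5) (.mul (.pp [(1, 434269200)]) (.sq [(1, -5), (2, 18), (3, 100), (5, 32), (7, -37)]))) (.mul (.g 7) (.mul (.pp [(1, 45081600)]) (.sq [(1, -84), (2, -68), (3, 4), (5, 100), (7, 49)]))))))) (.add (.mul (.g 7) (.mul (.g 7) (.pp [(1, 3129732000000)]))) (.mul (.g 9) (.mul (.g 9) (.mul (.pp [(1, 34299)]) (.sq [(1, 15), (2,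 100), (3, -67), (5, -25), (7, -21)]))))))) (.pp [(1, 100011280925), (2, 56311290), (3, 61009200), (4, 66774600), (5, 55841760), (6, 60357360), (7, 59132130), (8, 57894400), (9, 55074501), (10, 68341020), (12, 61106400), (14, 56002080), (15, 63396210), (16, 59034600), (18, 59684760), (20, 49269600), (21, 59198646), (24, 48012600), (25, 62781105), (27, 58572760), (28, 65110800), (30, 55909440), (35, 61524570), (36, 39676200), (40, 69496800), (42, 58844160), (45, 59686080), (49, 59285829), (50, 55805490), (54, 42580200), (56, 60966600), (60, 76899600), (63, 61273680), (70, 63832920), (75, 58183650), (81, 51882000), (84, 61551600), (90, 78670200), (98, 60492240), (100, 52435200), (105, 65564760), (125, 58946310), (126, 58240200), (135, 67067400), (140, 53709600), (147, 59967360), (150, 44691600), (175, 61999080), (189, 64728000), (196, 57481200), (210, 53337600), (225, 50464800), (245, 62690760), (250, 72040200),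 (294, 57362400), (315, 58696200), (343, 60726080), (350, 56064600), (375, 71439000), (441, 51676200), (490, 61108200), (525, 59343000), (625, 57234000), (686, 56991600), (735, 60259800), (875, 57897600), (1029, 63120000), (1225, 60297600), (1715, 57199800), (2401, 57656400)])))
    (by decide +kernel) (yv_nonneg h1 ht hb hw (le_refl 0) (le_refl 0) (le_refl 0) (le_refl 0) (le_refl 0))
    (by
      simp only [List.forall_mem_cons, exadd, exsub, exmul, exc, exv2, exv3, exv5, exv7]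
      push_cast
      refine ⟨?_, ?_, ?_, ?_, ?_, ?_, ?_, ?_, ?_, ?_, fun _ hh => absurd hh List.not_mem_nil⟩
      · linarith only [h1]
      · linarith only [ht]
      · linarith only [hb]
      · linarith only [hw]
      · linarith only [h2]
      · linarith only [h4]
      · linarith only [h5]
      · linarith only [h6]
      · linarith only [h7]
      · linarith only [h8]
    )
  simp only [exadd, exsub, exmul, exc, exv2, exv3, exv5, exv7] at h
  push_cast at h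
  linarith only [h]

theorem x7P2 {d a b : ℝ} (h1 : 0 ≤ d) (ha : 0 ≤ a) (hb : 0 ≤ b) (h2 : 0 ≤ 3 / 5 - d) (h4 : 0 ≤ d - a) (h5 : 0 ≤ -d + a + b) (h6 : 0 ≤ 1 - b) :
    0 ≤ 89 / 150 + 1589 / 1000 * d - 497 / 500 * a - 281 / 200 * b - 3 / 2 * d ^ 2 + d * a + 1 / 2 * a ^ 2 + a * b + b ^ 2 - 1 / 4 * d ^ 3 + 3 / 4 * d ^ 2 * a + d ^ 2 * b - 3 / 4 * d * a ^ 2 - d * a * b - d * b ^ 2 - 1 / 12 * a ^ 3 := by
  have h := cert (y := yv d a b 0 0 0 0 0 0)
    (gs := [(.v 2),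
      (.v 3),
      (.v 5),
      (.add (.c (3)) (.mul (.c (-5)) (.v 2))),
      (.add (.v 2) (.mul (.c (-1)) (.v 3))),
      (.add (.mul (.c (-1)) (.v 2)) (.add (.v 3) (.v 5))),
      (.add (.c (1)) (.mul (.c (-1)) (.v 5)))])
    (p := .mul (.c 5000) (.add (.add (.add (.add (.c (1780)) (.mul (.c (4767)) (.v 2))) (.add (.mul (.c (-2982)) (.v 3)) (.mul (.c (-4500)) (.mul (.v 2) (.v 2))))) (.add (.add (.mul (.c (-4215)) (.v 5)) (.mul (.c (3000)) (.mul (.v 2) (.v 3)))) (.add (.mul (.c (-750)) (.mul (.mul (.v 2) (.v 2)) (.v 2))) (.mul (.c (1500)) (.mul (.v 3) (.v 3)))))) (.add (.add (.add (.mul (.c (2250)) (.mul (.mul (.v 2) (.v 2)) (.v 3))) (.mul (.c (3000)) (.mul (.v 3) (.v 5)))) (.add (.mul (.c (-2250)) (.mul (.mul (.v 2) (.v 3)) (.v 3))) (.mul (.c (3000)) (.mul (.mul (.v 2) (.v 2)) (.v 5))))) (.add (.add (.mul (.c (3000)) (.mul (.v 5) (.v 5))) (.mul (.c (-250)) (.mul (.mul (.v 3) (.v 3)) (.v 3)))) (.add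 (.mul (.c (-3000)) (.mul (.mul (.v 2) (.v 3)) (.v 5))) (.mul (.c (-3000)) (.mul (.mul (.v 2) (.v 5)) (.v 5))))))))
    (e := (.add (.add (.add (.mul (.g 4) (.add (.add (.pp [(1, 730890)]) (.add (.mul (.g 4) (.add (.add (.pp [(1, 219525)]) (.mul (.g 1) (.add (.mul (.g 1) (.pp [(1, 2371410)])) (.mul (.g 2) (.pp [(1, 5927535)]))))) (.add (.mul (.g 3) (.add (.mul (.g 2) (.pp [(1, 2194779)])) (.mul (.g 3) (.pp [(1, 228180)])))) (.add (.mul (.g 4) (.mul (.g 4) (.pp [(1, 764670)]))) (.mul (.g 5) (.mul (.g 6) (.pp [(1, 1873305)]))))))) (.mul (.g 0) (.add (.mul (.g 1) (.mul (.g 1) (.pp [(1, 4743570)]))) (.mul (.g 2) (.mul (.g 2) (.pp [(1, 8437980)]))))))) (.add (.mul (.g 3) (.add (.pp [(1, 2699415)]) (.mul (.g 3) (.pp [(1, 147561)])))) (.add (.mul (.g 6) (.add (.mul (.g 1) (.mul (.g 1) (.pp [(1, 3123450)]))) (.mul (.g 6) (.mul (.g 6) (.pp [(1, 8394240)]))))) (.mul (.g 5) (.mul (.g 5) (.mul (.g 5) (.pp [(1, 3136230)]))))))))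 (.mul (.g 6) (.add (.mul (.g 6) (.add (.add (.mul (.g 6) (.add (.mul (.g 3) (.pp [(1, 2422233)])) (.add (.mul (.g 5) (.pp [(1, 3641280)])) (.mul (.g 6) (.pp [(1, 1039770)]))))) (.mul (.g 0) (.mul (.g 3) (.pp [(1, 771639)])))) (.add (.mul (.g 1) (.mul (.g 1) (.pp [(1, 4218765)]))) (.add (.mul (.g 2) (.pp [(1, 1242780)])) (.mul (.g 5) (.mul (.g 5) (.pp [(1, 370470)]))))))) (.add (.mul (.g 0) (.add (.pp [(1, 16703955)]) (.mul (.g 2) (.mul (.g 2) (.pp [(1, 3061005)]))))) (.mul (.g 1) (.mul (.g 2) (.mul (.g 2) (.pp [(1, 9050460)])))))))) (.add (.mul (.g 3) (.add (.mul (.g 0) (.add (.add (.pp [(1, 672330)]) (.mul (.g 0) (.mul (.g 0) (.pp [(1, 354300)])))) (.add (.mul (.g 1) (.pp [(1, 787719)])) (.mul (.g 5) (.mul (.g 5) (.pp [(1, 72204)])))))) (.mul (.g 1) (.mul (.g 1) (.add (.mul (.g 2) (.pp [(1, 240231)])) (.mul (.g 3) (.pp [(1, 70830)]))))))) (.add (.mul (.g 2) (.add (.mul (.g 1) (.mul (.g 2) (.pp [(1, 6690195)])))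 (.mul (.g 5) (.mul (.g 5) (.mul (.g 5) (.pp [(1, 2230875)])))))) (.mul (.g 0) (.mul (.g 0) (.mul (.g 0) (.mul (.g 5) (.pp [(1, 1200555)])))))))) (.pp [(1, 593531), (2, 159), (3, 144), (4, 135), (5, 117), (6, 168), (8, 168), (9, 150), (10, 114), (12, 129), (15, 180), (16, 135), (18, 153), (20, 132), (24, 165), (25, 213), (27, 145), (30, 180), (36, 150), (40, 180), (45, 135), (50, 201), (54, 150), (60, 75), (75, 105), (81, 150), (90, 210), (100, 135), (125, 99), (135, 135), (150, 180), (225, 135), (250, 135), (375, 165), (625, 165)])))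
    (by decide +kernel) (yv_nonneg h1 ha hb (le_refl 0) (le_refl 0) (le_refl 0) (le_refl 0) (le_refl 0) (le_refl 0))
    (by
      simp only [List.forall_mem_cons, exadd, exsub, exmul, exc, exv2, exv3, exv5]
      push_cast
      refine ⟨?_, ?_, ?_, ?_, ?_, ?_, ?_, fun _ hh => absurd hh List.not_mem_nil⟩
      · linarith only [h1]
      · linarith only [ha]
      · linarith only [hb]
      · linarith only [h2]
      · linarith only [h4]
      · linarith only [h5]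
      · linarith only [h6]
    )
  simp only [exadd, exsub, exmul, exc, exv2, exv3, exv5] at h
  push_cast at h
  linarith only [h]

theorem x7Q2 {d t b w : ℝ} (h1 : 0 ≤ d) (ht : 0 ≤ t) (hb : 0 ≤ b) (hw : 0 ≤ w) (h2 : 0 ≤ 3 / 5 - d) (h4 : 0 ≤ 1 - d - t) (h5 : 0 ≤ -d - t + b) (h6 : 0 ≤ 1 - b) (h7 : 0 ≤ d + t - w) (h8 : 0 ≤ 13 / 20 - w) :
    0 ≤ 89 / 150 + 1839 / 1000 * d + 311 / 250 * t - 281 / 200 * b - 1 / 4 * w - d ^ 2 + t ^ 2 - t * b + b ^ 2 - 1 / 2 * w ^ 2 - 1 / 3 * d ^ 3 - d ^ 2 * t + d ^ 2 * b - d * t ^ 2 + d * t * b - d * b ^ 2 - 1 / 3 * t ^ 3 + 1 / 12 * w ^ 3 := by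
  have h := cert (y := yv d t b w 0 0 0 0 0)
    (gs := [(.v 2),
      (.v 3),
      (.v 5),
      (.v 7),
      (.add (.c (3)) (.mul (.c (-5)) (.v 2))),
      (.add (.c (1)) (.add (.mul (.c (-1)) (.v 2)) (.mul (.c (-1)) (.v 3)))),
      (.add (.mul (.c (-1)) (.v 2)) (.add (.mul (.c (-1)) (.v 3)) (.v 5))),
      (.add (.c (1)) (.mul (.c (-1)) (.v 5))),
      (.add (.v 2) (.add (.v 3) (.mul (.c (-1)) (.v 7)))),
      (.add (.c (13)) (.mul (.c (-20)) (.v 7)))])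
    (p := .mul (.c 200000000) (.add (.add (.add (.add (.c (1780)) (.mul (.c (5517)) (.v 2))) (.add (.mul (.c (3732)) (.v 3)) (.mul (.c (-3000)) (.mul (.v 2) (.v 2))))) (.add (.add (.mul (.c (-4215)) (.v 5)) (.mul (.c (-750)) (.v 7))) (.add (.mul (.c (-1000)) (.mul (.mul (.v 2) (.v 2)) (.v 2))) (.add (.mul (.c (3000)) (.mul (.v 3) (.v 3))) (.mul (.c (-3000)) (.mul (.mul (.v 2) (.v 2)) (.v 3))))))) (.add (.add (.add (.mul (.c (-3000)) (.mul (.v 3) (.v 5))) (.mul (.c (-3000)) (.mul (.mul (.v 2) (.v 3)) (.v 3)))) (.add (.mul (.c (3000)) (.mul (.mul (.v 2) (.v 2)) (.v 5))) (.mul (.c (3000)) (.mul (.v 5) (.v 5))))) (.add (.add (.mul (.c (-1000)) (.mul (.mul (.v 3) (.v 3)) (.v 3))) (.mul (.c (3000)) (.mul (.mul (.v 2) (.v 3)) (.v 5)))) (.add (.mul (.c (-1500)) (.mul (.v 7) (.v 7))) (.add (.mul (.c (-3000)) (.mul (.mul (.v 2) (.v 5)) (.v 5))) (.mul (.c (250)) (.mul (.mul (.v 7) (.v 7)) (.v 7)))))))))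
    (e := (.add (.add (.add (.mul (.g 8) (.add (.add (.add (.mul (.pp [(1, 8333580)]) (.sq [(2, -4), (3, -81), (5, 100), (7, 82)])) (.mul (.g 1) (.add (.add (.mul (.g 1) (.add (.mul (.g 1) (.pp [(1, 102922800000)])) (.add (.mul (.g 3) (.pp [(1, 117415200000)])) (.mul (.g 6) (.pp [(1, 64258200000)]))))) (.add (.mul (.g 8) (.add (.mul (.g 3) (.pp [(1, 83850000000)])) (.add (.mul (.g 6) (.pp [(1, 302569200000)])) (.mul (.g 8) (.pp [(1, 298992600000)]))))) (.mul (.g 0) (.add (.mul (.g 0) (.pp [(1, 1101410400000)])) (.mul (.g 4) (.pp [(1, 250520160000)])))))) (.add (.mul (.g 3) (.mul (.g 6) (.pp [(1, 602472600000)]))) (.add (.mul (.g 5) (.mul (.g 5) (.pp [(1, 135577800000)]))) (.mul (.g 7) (.mul (.g 9) (.pp [(1, 39938430000)])))))))) (.add (.mul (.g 0) (.add (.add (.mul (.g 0) (.add (.mul (.g 6) (.pp [(1, 325971600000)])) (.mul (.g 8) (.pp [(1, 11325000000)])))) (.mul (.g 2) (.add (.mul (.g 5) (.pp [(1, 338958000000)]))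 (.mul (.g 9) (.pp [(1, 6173790000)]))))) (.add (.mul (.g 4) (.mul (.g 9) (.pp [(1, 629454000)]))) (.mul (.g 6) (.pp [(1, 97396200000)]))))) (.mul (.g 7) (.add (.add (.pp [(1, 402476400000)]) (.mul (.pp [(1, 11116260)]) (.sq [(1, -23), (2, -60), (3, 81), (5, 32), (7, 100)]))) (.add (.mul (.g 7) (.add (.mul (.g 3) (.pp [(1, 12031200000)])) (.mul (.g 4) (.pp [(1, 25226760000)])))) (.mul (.g 6) (.mul (.g 6) (.pp [(1, 18241200000)])))))))) (.add (.add (.mul (.g 9) (.add (.add (.mul (.pp [(1, 1435215)]) (.sq [(1, 28), (2, 100), (3, -55), (5, -44), (7, -19)])) (.mul (.pp [(1, 12102)]) (.sq [(1, 83), (2, 89), (3, 64), (5, 100), (7, 56)]))) (.add (.mul (.g 3) (.pp [(1, 10572210000)])) (.mul (.g 6) (.mul (.g 8) (.pp [(1, 1981890000)])))))) (.mul (.g 8) (.add (.mul (.pp [(1, 184380)]) (.sq [(1, -16), (2, 2), (3, 39), (5, 52), (7, 100)])) (.mul (.pp [(1, 2718120)]) (.sq [(1, 100), (2, -28), (3, -28), (5, 89), (7,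 11)]))))) (.add (.mul (.g 3) (.pp [(1, 353767800000)])) (.mul (.g 6) (.mul (.pp [(1, 55061400)]) (.sq [(1, 12), (2, 9), (3, 100), (5, 13), (7, -50)]))))))) (.add (.mul (.g 7) (.add (.add (.mul (.g 1) (.add (.add (.pp [(1, 229812600000)]) (.mul (.pp [(1, 42261360)]) (.sq [(1, -77), (2, -42), (3, 29), (5, 100), (7, -13)]))) (.add (.mul (.g 1) (.add (.mul (.g 3) (.pp [(1, 393439800000)])) (.mul (.g 9) (.pp [(1, 30248580000)])))) (.add (.mul (.g 0) (.mul (.g 4) (.pp [(1, 42608160000)]))) (.mul (.g 7) (.mul (.g 7) (.pp [(1, 286840800000)]))))))) (.mul (.g 7) (.add (.mul (.pp [(1, 9076920)]) (.sq [(1, -75), (2, -5), (3, 100), (5, 94), (7, 94)])) (.add (.mul (.g 3) (.add (.pp [(1, 178855800000)]) (.mul (.g 9) (.pp [(1, 10827810000)])))) (.mul (.g 7) (.add (.mul (.g 0) (.pp [(1, 374130000000)])) (.mul (.g 2) (.pp [(1, 101620200000)])))))))) (.add (.mul (.g 6) (.add (.mul (.pp [(1, 58505640)]) (.sq [(1, -56),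 (2, -100), (3, -53), (5, 73), (7, 7)])) (.mul (.g 3) (.add (.mul (.g 2) (.pp [(1, 11991000000)])) (.mul (.g 3) (.pp [(1, 147249000000)])))))) (.add (.mul (.g 5) (.add (.mul (.pp [(1, 17733780)]) (.sq [(1, -84), (2, -68), (3, 4), (5, 100), (7, 49)])) (.mul (.pp [(1, 23027460)]) (.sq [(1, -75), (2, 8), (3, -19), (5, 100), (7, -88)])))) (.mul (.g 0) (.pp [(1, 485883000000)])))))) (.mul (.g 3) (.add (.add (.mul (.g 1) (.add (.mul (.g 0) (.add (.mul (.g 2) (.pp [(1, 207148800000)])) (.mul (.g 4) (.pp [(1, 304865040000)])))) (.add (.mul (.g 1) (.mul (.g 9) (.pp [(1, 9688590000)]))) (.mul (.g 5) (.mul (.g 6) (.pp [(1, 54190200000)])))))) (.mul (.g 3) (.mul (.g 3) (.add (.mul (.g 4) (.pp [(1, 5898840000)])) (.mul (.g 9) (.pp [(1, 665010000)])))))) (.add (.mul (.g 6) (.add (.mul (.pp [(1, 23067960)]) (.sq [(1, 42), (2, 100), (3, -33), (5, -60), (7, -6)])) (.mul (.pp [(1, 734820)]) (.sq [(1, 83), (2, 100), (3,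 100), (5, 100), (7, 100)])))) (.add (.mul (.g 0) (.mul (.g 0) (.mul (.g 0) (.pp [(1, 133910400000)])))) (.mul (.g 4) (.mul (.pp [(1, 10999020)]) (.sq [(1, 2), (2, -75), (3, 100), (5, 7), (7, -17)]))))))))) (.add (.mul (.g 0) (.add (.mul (.g 5) (.add (.mul (.g 0) (.add (.mul (.g 0) (.pp [(1, 48270600000)])) (.mul (.g 2) (.pp [(1, 426058200000)])))) (.add (.mul (.g 1) (.pp [(1, 41082600000)])) (.mul (.g 2) (.mul (.g 4) (.pp [(1, 208645800000)])))))) (.add (.mul (.g 1) (.mul (.pp [(1, 360)]) (.sq [(1, 1), (2, -34), (3, 100), (5, 13), (7, -84)]))) (.mul (.g 2) (.mul (.g 4) (.mul (.g 6) (.pp [(1, 14309640000)]))))))) (.add (.mul (.g 6) (.add (.mul (.g 6) (.add (.mul (.pp [(1, 36523980)]) (.sq [(1, 50), (2, 100), (3, 9), (5, -64), (7, 34)])) (.mul (.g 1) (.add (.mul (.g 1) (.pp [(1, 374572200000)])) (.mul (.g 9) (.pp [(1, 11238720000)])))))) (.mul (.g 2) (.mul (.pp [(1, 18358440)]) (.sq [(1, -45), (2, -60),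 (3, -24), (5, 100), (7, -11)]))))) (.mul (.g 1) (.mul (.g 1) (.mul (.g 4) (.mul (.g 9) (.pp [(1, 742644000)])))))))) (.pp [(1, 50283310820), (2, 5548866), (3, 5625306), (4, 5959956), (5, 4453140), (6, 6028572), (7, 5970354), (8, 5368354), (9, 6226356), (10, 7812600), (12, 4779162), (14, 5379528), (15, 7330320), (16, 5629800), (18, 4811457), (20, 8535360), (21, 5630148), (24, 6024000), (25, 8320560), (27, 5521369), (28, 6462258), (30, 7844280), (35, 5930520), (36, 7548480), (40, 6061080), (42, 5685906), (45, 6217140), (49, 6435516), (50, 3639720), (54, 6799680), (56, 6036060), (60, 6226920), (63, 5015733), (70, 6054720), (75, 4868280), (81, 6109560), (84, 4364880), (90, 6861120), (98, 5876577), (100, 5097480), (105, 6546840), (125, 4466040), (126, 4100700), (135, 6665280), (140, 5037120), (147, 6599967), (150, 4571160), (175, 6100380), (189, 5130060), (196, 5852040), (210, 6012000), (225, 5145660), (245,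 4759980), (250, 6947040), (294, 6546840), (315, 6466980), (343, 5953271), (350, 6360180), (375, 6560880), (441, 6981240), (490, 6596580), (525, 6347880), (625, 6468360), (686, 6100440), (735, 5717820), (875, 5633160), (1029, 5889540), (1225, 6487080), (1715, 5984880), (2401, 6217740)])))
    (by decide +kernel) (yv_nonneg h1 ht hb hw (le_refl 0) (le_refl 0) (le_refl 0) (le_refl 0) (le_refl 0))
    (by
      simp only [List.forall_mem_cons, exadd, exsub, exmul, exc, exv2, exv3, exv5, exv7]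
      push_cast
      refine ⟨?_, ?_, ?_, ?_, ?_, ?_, ?_, ?_, ?_, ?_, fun _ hh => absurd hh List.not_mem_nil⟩
      · linarith only [h1]
      · linarith only [ht]
      · linarith only [hb]
      · linarith only [hw]
      · linarith only [h2]
      · linarith only [h4]
      · linarith only [h5]
      · linarith only [h6]
      · linarith only [h7]
      · linarith only [h8]
    )
  simp only [exadd, exsub, exmul, exc, exv2, exv3, exv5, exv7] at h
  push_cast at h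
  linarith only [h]

theorem x7P3 {d a b : ℝ} (h1 : 0 ≤ d) (ha : 0 ≤ a) (hb : 0 ≤ b) (h2 : 0 ≤ 3 / 5 - d) (h4 : 0 ≤ d - a) (h5 : 0 ≤ -d + a + b) (h6 : 0 ≤ 1 - b) :
    0 ≤ 131 / 375 + 269 / 200 * d - 253 / 500 * a - 1161 / 1000 * b - 3 / 2 * d ^ 2 + d * a + 1 / 2 * a ^ 2 + a * b + b ^ 2 - 1 / 4 * d ^ 3 + 3 / 4 * d ^ 2 * a + d ^ 2 * b - 3 / 4 * d * a ^ 2 - d * a * b - d * b ^ 2 - 1 / 12 * a ^ 3 := by
  have h := cert (y := yv d a b 0 0 0 0 0 0)
    (gs := [(.v 2),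
      (.v 3),
      (.v 5),
      (.add (.c (3)) (.mul (.c (-5)) (.v 2))),
      (.add (.v 2) (.mul (.c (-1)) (.v 3))),
      (.add (.mul (.c (-1)) (.v 2)) (.add (.v 3) (.v 5))),
      (.add (.c (1)) (.mul (.c (-1)) (.v 5)))])
    (p := .mul (.c 250000000) (.add (.add (.add (.add (.c (1048)) (.mul (.c (4035)) (.v 2))) (.add (.mul (.c (-1518)) (.v 3)) (.mul (.c (-4500)) (.mul (.v 2) (.v 2))))) (.add (.add (.mul (.c (-3483)) (.v 5)) (.mul (.c (3000)) (.mul (.v 2) (.v 3)))) (.add (.mul (.c (-750)) (.mul (.mul (.v 2) (.v 2)) (.v 2))) (.mul (.c (1500)) (.mul (.v 3) (.v 3)))))) (.add (.add (.add (.mul (.c (2250)) (.mul (.mul (.v 2) (.v 2)) (.v 3))) (.mul (.c (3000)) (.mul (.v 3) (.v 5)))) (.add (.mul (.c (-2250)) (.mul (.mul (.v 2) (.v 3)) (.v 3))) (.mul (.c (3000)) (.mul (.mul (.v 2) (.v 2)) (.v 5))))) (.add (.add (.mul (.c (3000)) (.mul (.v 5) (.v 5))) (.mul (.c (-250)) (.mul (.mul (.v 3) (.v 3)) (.v 3))))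 (.add (.mul (.c (-3000)) (.mul (.mul (.v 2) (.v 3)) (.v 5))) (.mul (.c (-3000)) (.mul (.mul (.v 2) (.v 5)) (.v 5))))))))
    (e := (.add (.add (.add (.mul (.g 1) (.add (.add (.pp [(1, 249027000000)]) (.add (.mul (.g 1) (.add (.add (.mul (.g 2) (.add (.pp [(1, 102263250000)]) (.mul (.g 3) (.pp [(1, 4191450000)])))) (.mul (.g 0) (.mul (.g 3) (.pp [(1, 23735850000)])))) (.add (.mul (.g 1) (.mul (.g 1) (.pp [(1, 59320500000)]))) (.mul (.g 4) (.mul (.g 6) (.pp [(1, 516510750000)])))))) (.mul (.g 5) (.mul (.g 5) (.add (.mul (.g 3) (.pp [(1, 47464050000)])) (.add (.mul (.g 4) (.pp [(1, 78810750000)])) (.mul (.g 6) (.pp [(1, 69391500000)])))))))) (.add (.mul (.g 2) (.mul (.g 2) (.add (.pp [(1, 309439500000)]) (.mul (.g 6) (.pp [(1, 269388000000)]))))) (.add (.mul (.g 0) (.mul (.g 3) (.pp [(1, 75189900000)]))) (.mul (.g 4) (.pp [(1, 132099000000)])))))) (.add (.mul (.g 0) (.add (.add (.mul (.g 6) (.add (.pp [(1,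 302964000000)]) (.add (.mul (.g 6) (.add (.mul (.g 3) (.pp [(1, 20415000000)])) (.mul (.g 5) (.pp [(1, 923568000000)])))) (.mul (.g 2) (.mul (.g 2) (.pp [(1, 208642500000)])))))) (.mul (.g 0) (.mul (.g 0) (.add (.mul (.g 0) (.pp [(1, 89716500000)])) (.mul (.g 2) (.pp [(1, 20927250000)])))))) (.add (.mul (.g 3) (.add (.pp [(1, 33131550000)]) (.mul (.g 3) (.mul (.g 3) (.pp [(1, 243162000)]))))) (.mul (.g 2) (.mul (.g 2) (.mul (.g 4) (.pp [(1, 92515500000)]))))))) (.mul (.g 4) (.add (.mul (.g 4) (.add (.mul (.g 3) (.add (.mul (.g 2) (.pp [(1, 62088150000)])) (.mul (.g 4) (.pp [(1, 15762150000)])))) (.add (.mul (.g 6) (.add (.mul (.g 5) (.pp [(1, 289506000000)])) (.mul (.g 6) (.pp [(1, 507091500000)])))) (.mul (.g 4) (.mul (.g 4) (.pp [(1, 19482000000)])))))) (.add (.mul (.g 3) (.pp [(1, 122776050000)])) (.mul (.g 6) (.mul (.g 6) (.mul (.g 6) (.pp [(1, 338772000000)]))))))))) (.add (.mul (.g 2) (.add (.mul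 (.pp [(1, 36654675)]) (.sq [(1, -59), (5, 100)])) (.mul (.g 6) (.mul (.pp [(1, 750)]) (.sq [(1, -41), (5, 100)]))))) (.add (.mul (.g 3) (.add (.mul (.g 3) (.mul (.pp [(1, 1357491)]) (.sq [(1, -47), (5, 100)]))) (.mul (.g 5) (.mul (.pp [(1, 7523235)]) (.sq [(1, -59), (5, 100)]))))) (.mul (.g 6) (.mul (.pp [(1, 236906100)]) (.sq [(1, -31), (5, 50)])))))) (.pp [(1, 7344959329), (2, 6897675), (3, 8006895), (4, 7024350), (5, 8083170), (6, 7955175), (8, 8100000), (9, 7500000), (10, 8924175), (12, 7200000), (15, 6519000), (16, 7500000), (18, 7650000), (20, 7800000), (24, 5250000), (25, 6744750), (27, 7550000), (30, 7335000), (36, 11250000), (40, 7500000), (45, 7650000), (50, 5985000), (54, 5250000), (60, 9000000), (75, 7800000), (81, 8250000), (90, 5250000), (100, 7500000), (125, 7800000), (135, 8250000), (150, 6750000), (225, 8250000), (250, 8250000), (375, 7500000), (625, 7500000)])))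
    (by decide +kernel) (yv_nonneg h1 ha hb (le_refl 0) (le_refl 0) (le_refl 0) (le_refl 0) (le_refl 0) (le_refl 0))
    (by
      simp only [List.forall_mem_cons, exadd, exsub, exmul, exc, exv2, exv3, exv5]
      push_cast
      refine ⟨?_, ?_, ?_, ?_, ?_, ?_, ?_, fun _ hh => absurd hh List.not_mem_nil⟩
      · linarith only [h1]
      · linarith only [ha]
      · linarith only [hb]
      · linarith only [h2]
      · linarith only [h4]
      · linarith only [h5]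
      · linarith only [h6]
    )
  simp only [exadd, exsub, exmul, exc, exv2, exv3, exv5] at h
  push_cast at h
  linarith only [h]

theorem x7Q3 {d t b w : ℝ} (h1 : 0 ≤ d) (ht : 0 ≤ t) (hb : 0 ≤ b) (hw : 0 ≤ w) (h2 : 0 ≤ 3 / 5 - d) (h4 : 0 ≤ 1 - d - t) (h5 : 0 ≤ -d - t + b) (h6 : 0 ≤ 1 - b) (h7 : 0 ≤ d + t - w) (h8 : 0 ≤ 13 / 20 - w) :
    0 ≤ 131 / 375 + 319 / 200 * d + 189 / 250 * t - 1161 / 1000 * b - 1 / 4 * w - d ^ 2 + t ^ 2 - t * b + b ^ 2 - 1 / 2 * w ^ 2 - 1 / 3 * d ^ 3 - d ^ 2 * t + d ^ 2 * b - d * t ^ 2 + d * t * b - d * b ^ 2 - 1 / 3 * t ^ 3 + 1 / 12 * w ^ 3 := by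
  have h := cert (y := yv d t b w 0 0 0 0 0)
    (gs := [(.v 2),
      (.v 3),
      (.v 5),
      (.v 7),
      (.add (.c (3)) (.mul (.c (-5)) (.v 2))),
      (.add (.c (1)) (.add (.mul (.c (-1)) (.v 2)) (.mul (.c (-1)) (.v 3)))),
      (.add (.mul (.c (-1)) (.v 2)) (.add (.mul (.c (-1)) (.v 3)) (.v 5))),
      (.add (.c (1)) (.mul (.c (-1)) (.v 5))),
      (.add (.v 2) (.add (.v 3) (.mul (.c (-1)) (.v 7)))),
      (.add (.c (13)) (.mul (.c (-20)) (.v 7)))])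
    (p := .mul (.c 1000000000) (.add (.add (.add (.add (.c (1048)) (.mul (.c (4785)) (.v 2))) (.add (.mul (.c (2268)) (.v 3)) (.mul (.c (-3000)) (.mul (.v 2) (.v 2))))) (.add (.add (.mul (.c (-3483)) (.v 5)) (.mul (.c (-750)) (.v 7))) (.add (.mul (.c (-1000)) (.mul (.mul (.v 2) (.v 2)) (.v 2))) (.add (.mul (.c (3000)) (.mul (.v 3) (.v 3))) (.mul (.c (-3000)) (.mul (.mul (.v 2) (.v 2)) (.v 3))))))) (.add (.add (.add (.mul (.c (-3000)) (.mul (.v 3) (.v 5))) (.mul (.c (-3000)) (.mul (.mul (.v 2) (.v 3)) (.v 3)))) (.add (.mul (.c (3000)) (.mul (.mul (.v 2) (.v 2)) (.v 5))) (.mul (.c (3000)) (.mul (.v 5) (.v 5))))) (.add (.add (.mul (.c (-1000)) (.mul (.mul (.v 3) (.v 3)) (.v 3))) (.mul (.c (3000)) (.mul (.mul (.v 2) (.v 3)) (.v 5)))) (.add (.mul (.c (-1500)) (.mul (.v 7) (.v 7))) (.add (.mul (.c (-3000)) (.mul (.mul (.v 2) (.v 5)) (.v 5))) (.mul (.c (250)) (.mul (.mul (.v 7) (.v 7)) (.v 7)))))))))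
    (e := (.add (.add (.add (.add (.mul (.pp [(1, 47656800)]) (.sq [(1, -52), (2, 2), (3, -50), (5, 100), (7, -13)])) (.mul (.g 8) (.add (.add (.mul (.g 7) (.add (.add (.pp [(1, 159693000000)]) (.add (.mul (.pp [(1, 83610600)]) (.sq [(1, -52), (2, 6), (3, -100), (5, 49), (7, 95)])) (.mul (.pp [(1, 22051800)]) (.sq [(1, -53), (2, 100), (3, 45), (5, 87), (7, -7)])))) (.add (.add (.mul (.pp [(1, 153898800)]) (.sq [(1, 17), (2, -6), (5, 50), (7, -19)])) (.mul (.g 3) (.add (.mul (.g 2) (.pp [(1, 984693000000)])) (.mul (.g 5) (.pp [(1, 1739781000000)]))))) (.add (.mul (.g 7) (.add (.mul (.g 5) (.pp [(1, 1828167000000)])) (.mul (.g 6) (.pp [(1, 615741000000)])))) (.mul (.g 1) (.pp [(1, 1447551000000)])))))) (.add (.mul (.g 8) (.add (.add (.mul (.pp [(1, 23538000)]) (.sq [(1, 89), (2, -86), (3, -89), (5, -100), (7, -97)])) (.mul (.pp [(1, 8233200)]) (.sq [(1, 17), (2, 5), (3, 100), (5, -34), (7, -45)]))) (.add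 (.mul (.pp [(1, 89079000)]) (.sq [(1, 19), (2, 100), (3, -24), (5, -1), (7, 10)])) (.add (.mul (.g 8) (.add (.mul (.g 3) (.pp [(1, 594726000000)])) (.add (.mul (.g 6) (.pp [(1, 722994000000)])) (.mul (.g 8) (.pp [(1, 347646000000)]))))) (.mul (.g 3) (.mul (.g 5) (.pp [(1, 1205055000000)]))))))) (.mul (.g 1) (.add (.mul (.g 1) (.add (.mul (.g 4) (.pp [(1, 331510200000)])) (.add (.mul (.g 5) (.pp [(1, 2027373000000)])) (.mul (.g 6) (.pp [(1, 407895000000)]))))) (.add (.mul (.g 0) (.add (.mul (.g 0) (.pp [(1, 886884000000)])) (.mul (.g 4) (.pp [(1, 487498800000)])))) (.mul (.g 5) (.mul (.g 5) (.pp [(1, 2435628000000)])))))))) (.add (.add (.mul (.g 3) (.add (.pp [(1, 235605000000)]) (.add (.mul (.g 2) (.mul (.g 3) (.pp [(1, 1136196000000)]))) (.mul (.g 9) (.pp [(1, 102993450000)]))))) (.mul (.g 4) (.add (.mul (.pp [(1, 18581520)]) (.sq [(1, 1), (2, -63), (3, -15), (5, 20), (7, 100)])) (.mul (.g 0) (.pp [(1,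 486668400000)]))))) (.add (.mul (.g 6) (.add (.mul (.pp [(1, 4805700)]) (.sq [(1, -23), (2, 100), (3, -30), (5, -8), (7, -60)])) (.mul (.pp [(1, 55512900)]) (.sq [(1, 35), (2, -42), (3, -2), (5, -41), (7, -100)])))) (.mul (.g 2) (.mul (.pp [(1, 8879100)]) (.sq [(1, -16), (2, 100), (3, -39), (7, 37)])))))))) (.add (.mul (.g 0) (.add (.add (.mul (.g 7) (.add (.add (.pp [(1, 1224378000000)]) (.add (.mul (.pp [(1, 2544300)]) (.sq [(3, -4), (5, 100), (7, 3)])) (.mul (.pp [(1, 8703900)]) (.sq [(1, -8), (2, -77), (3, 100), (5, 1), (7, 47)])))) (.add (.add (.mul (.g 1) (.add (.mul (.g 2) (.pp [(1, 27159000000)])) (.mul (.g 9) (.pp [(1, 90971250000)])))) (.mul (.g 6) (.add (.mul (.g 6) (.pp [(1, 950289000000)])) (.mul (.g 7) (.pp [(1, 934068000000)]))))) (.add (.mul (.g 0) (.mul (.g 9) (.pp [(1, 94923750000)]))) (.mul (.g 4) (.pp [(1, 192180600000)])))))) (.add (.mul (.g 9) (.add (.add (.mul (.pp [(1, 331200)])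 (.sq [(1, 78), (2, 80), (3, 80), (5, 100), (7, 47)])) (.mul (.g 3) (.add (.mul (.g 3) (.pp [(1, 77680350000)])) (.mul (.g 6) (.pp [(1, 93056400000)]))))) (.add (.mul (.g 1) (.mul (.g 1) (.pp [(1, 13268700000)]))) (.mul (.g 5) (.pp [(1, 116782950000)]))))) (.mul (.g 0) (.add (.mul (.pp [(1, 161100)]) (.sq [(1, 37), (2, 68), (3, -28), (5, 22), (7, 100)])) (.add (.mul (.g 2) (.mul (.g 5) (.pp [(1, 256437000000)]))) (.mul (.g 4) (.mul (.g 4) (.pp [(1, 9403800000)])))))))) (.add (.add (.mul (.g 1) (.add (.mul (.pp [(1, 1584600)]) (.sq [(1, 60), (2, 19), (3, 52), (5, 17), (7, 100)])) (.mul (.pp [(1, 11776500)]) (.sq [(1, 1), (2, -34), (3, 100), (5, 13), (7, -84)])))) (.mul (.g 5) (.add (.pp [(1, 498279000000)]) (.mul (.pp [(1, 9176700)]) (.sq [(1, 51), (2, 100), (3, 100), (5, 100), (7, 70)]))))) (.add (.mul (.g 6) (.add (.mul (.pp [(1, 31086600)]) (.sq [(2, 100), (3, 15), (5, -4), (7, -49)])) (.mul (.pp [(1,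 1797600)]) (.sq [(1, 2), (2, 50), (3, -39), (5, -42), (7, 49)])))) (.mul (.g 4) (.mul (.pp [(1, 680100)]) (.sq [(1, 64), (2, -36), (3, 47), (5, -17), (7, 100)]))))))) (.mul (.g 9) (.add (.add (.mul (.pp [(1, 399975)]) (.sq [(1, 21), (3, 88), (5, -100), (7, 88)])) (.mul (.g 7) (.add (.mul (.pp [(1, 251070)]) (.sq [(1, -85), (3, 53), (5, 100), (7, 53)])) (.mul (.pp [(1, 7107855)]) (.sq [(1, 41), (2, 9), (3, 14), (5, -78), (7, 100)]))))) (.add (.mul (.g 1) (.mul (.pp [(1, 1425150)]) (.sq [(1, -23), (2, 4), (3, 51), (5, 2), (7, 100)]))) (.add (.mul (.g 4) (.mul (.pp [(1, 98817)]) (.sq [(1, 21), (3, 88), (5, -100), (7, 88)]))) (.mul (.g 6) (.mul (.pp [(1, 5098620)]) (.sq [(1, -23), (3, -44), (5, 50), (7, -44)]))))))))) (.add (.add (.mul (.g 3) (.add (.mul (.pp [(1, 3910200)]) (.sq [(1, -56), (2, -18), (3, -17), (5, 100), (7, -35)])) (.add (.mul (.g 5) (.mul (.pp [(1, 132848100)]) (.sq [(1, -53), (2, -19),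 (3, -18), (5, 100), (7, -38)]))) (.mul (.g 7) (.mul (.pp [(1, 66192300)]) (.sq [(1, -45), (3, -36), (5, 100), (7, -36)])))))) (.mul (.g 7) (.add (.mul (.g 6) (.mul (.pp [(1, 8267100)]) (.sq [(1, -71), (2, 1), (3, -13), (5, 100), (7, -12)]))) (.mul (.g 7) (.mul (.pp [(1, 8264100)]) (.sq [(1, -46), (3, -37), (5, 100), (7, -37)])))))) (.add (.mul (.g 1) (.mul (.pp [(1, 231245100)]) (.sq [(1, -53), (2, -3), (3, -27), (5, 100), (7, -30)]))) (.add (.mul (.g 2) (.mul (.pp [(1, 47032500)]) (.sq [(1, -42), (2, -25), (3, -24), (5, 100), (7, -49)]))) (.mul (.g 5) (.mul (.g 5) (.mul (.pp [(1, 164596500)]) (.sq [(1, -66), (2, -2), (3, -19), (5, 100), (7, -22)])))))))) (.pp [(1, 1764507877), (2, 27133815), (3, 29006262), (4, 29521845), (5, 29882565), (6, 27306300), (7, 32519832), (8, 28631360), (9, 28057938), (10, 31482030), (12, 26273160), (14, 28238160), (15, 31657140), (16, 32877600), (18, 27761280), (20, 24227115),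 (21, 30044736), (24, 40203000), (25, 29388300), (27, 28787210), (28, 31173240), (30, 23730780), (35, 25327860), (36, 45994200), (40, 29983200), (42, 34341960), (45, 31622070), (49, 29136558), (50, 29205540), (54, 37701600), (56, 33956100), (60, 37328100), (63, 34603800), (70, 32280600), (75, 29222640), (81, 29843100), (84, 24922500), (90, 35121600), (98, 32793480), (100, 35667300), (105, 32419860), (125, 31317660), (126, 19593600), (135, 33582000), (140, 26318700), (147, 29284320), (150, 32914500), (175, 31686600), (189, 28961400), (196, 32598600), (210, 29496600), (225, 30000900), (245, 31037130), (250, 27147000), (294, 32265000), (315, 25978500), (343, 29853280), (350, 33302100), (375, 29255100), (441, 28404000), (490, 30858900), (525, 29753700), (625, 30000000), (686, 28393200), (735, 30240300), (875, 29128500), (1029, 29526000), (1225, 29429700), (1715, 29800500), (2401, 30828000)])))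
    (by decide +kernel) (yv_nonneg h1 ht hb hw (le_refl 0) (le_refl 0) (le_refl 0) (le_refl 0) (le_refl 0))
    (by
      simp only [List.forall_mem_cons, exadd, exsub, exmul, exc, exv2, exv3, exv5, exv7]
      push_cast
      refine ⟨?_, ?_, ?_, ?_, ?_, ?_, ?_, ?_, ?_, ?_, fun _ hh => absurd hh List.not_mem_nil⟩
      · linarith only [h1]
      · linarith only [ht]
      · linarith only [hb]
      · linarith only [hw]
      · linarith only [h2]
      · linarith only [h4]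
      · linarith only [h5]
      · linarith only [h6]
      · linarith only [h7]
      · linarith only [h8]
    )
  simp only [exadd, exsub, exmul, exc, exv2, exv3, exv5, exv7] at h
  push_cast at h
  linarith only [h]

theorem x7T12 {d a b : ℝ} (h1 : 0 ≤ d) (ha : 0 ≤ a) (hb : 0 ≤ b) (h2 : 0 ≤ 3 / 5 - d) (h4 : 0 ≤ d - a) (h6 : 0 ≤ d - b) (h7 : 0 ≤ -d + a + b) :
    0 ≤ 89 / 150 + 1339 / 1000 * d - 231 / 200 * a - 497 / 500 * b - 2 * d ^ 2 + d * a + d * b + 1 / 2 * a ^ 2 + a * b + 1 / 2 * b ^ 2 - 1 / 6 * d ^ 3 + 3 / 4 * d ^ 2 * a + 3 / 4 * d ^ 2 * b - 3 / 4 * d * a ^ 2 - d * a * b - 3 / 4 * d * b ^ 2 - 1 / 12 * a ^ 3 - 1 / 12 * b ^ 3 := by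
  have h := cert (y := yv d a b 0 0 0 0 0 0)
    (gs := [(.v 2),
      (.v 3),
      (.v 5),
      (.add (.c (3)) (.mul (.c (-5)) (.v 2))),
      (.add (.v 2) (.mul (.c (-1)) (.v 3))),
      (.add (.v 2) (.mul (.c (-1)) (.v 5))),
      (.add (.mul (.c (-1)) (.v 2)) (.add (.v 3) (.v 5)))])
    (p := .mul (.c 125000) (.add (.add (.add (.add (.c (1780)) (.mul (.c (4017)) (.v 2))) (.add (.mul (.c (-3465)) (.v 3)) (.mul (.c (-6000)) (.mul (.v 2) (.v 2))))) (.add (.add (.mul (.c (-2982)) (.v 5)) (.mul (.c (3000)) (.mul (.v 2) (.v 3)))) (.add (.mul (.c (-500)) (.mul (.mul (.v 2) (.v 2)) (.v 2))) (.add (.mul (.c (1500)) (.mul (.v 3) (.v 3))) (.mul (.c (3000)) (.mul (.v 2) (.v 5))))))) (.add (.add (.add (.mul (.c (2250)) (.mul (.mul (.v 2) (.v 2)) (.v 3))) (.mul (.c (3000)) (.mul (.v 3) (.v 5)))) (.add (.mul (.c (-2250)) (.mul (.mul (.v 2) (.v 3)) (.v 3))) (.mul (.c (2250)) (.mul (.mul (.v 2) (.v 2)) (.v 5)))))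 (.add (.add (.mul (.c (1500)) (.mul (.v 5) (.v 5))) (.mul (.c (-250)) (.mul (.mul (.v 3) (.v 3)) (.v 3)))) (.add (.mul (.c (-3000)) (.mul (.mul (.v 2) (.v 3)) (.v 5))) (.add (.mul (.c (-2250)) (.mul (.mul (.v 2) (.v 5)) (.v 5))) (.mul (.c (-250)) (.mul (.mul (.v 5) (.v 5)) (.v 5)))))))))
    (e := (.add (.add (.add (.mul (.g 3) (.add (.add (.mul (.g 3) (.add (.add (.mul (.g 3) (.add (.pp [(1, 118524)]) (.add (.mul (.g 3) (.pp [(1, 532890)])) (.mul (.g 4) (.pp [(1, 4392081)]))))) (.mul (.g 5) (.add (.pp [(1, 33060810)]) (.mul (.g 5) (.pp [(1, 5224350)]))))) (.add (.mul (.g 4) (.mul (.g 4) (.pp [(1, 12127830)]))) (.mul (.g 6) (.mul (.g 6) (.pp [(1, 434250)])))))) (.add (.mul (.g 5) (.add (.pp [(1, 25068825)]) (.add (.mul (.g 5) (.add (.pp [(1, 45522975)]) (.mul (.g 1) (.pp [(1, 5988600)])))) (.mul (.g 4) (.pp [(1, 46357125)]))))) (.mul (.g 0) (.add (.mul (.g 0) (.mul (.g 0) (.pp [(1, 16452075)]))) (.mul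 (.g 1) (.mul (.g 1) (.pp [(1, 70296150)]))))))) (.add (.mul (.g 4) (.add (.pp [(1, 104847525)]) (.mul (.g 4) (.pp [(1, 18475275)])))) (.add (.mul (.g 2) (.mul (.g 2) (.mul (.g 2) (.pp [(1, 3992850)])))) (.mul (.g 6) (.mul (.g 6) (.mul (.g 6) (.pp [(1, 8979375)])))))))) (.mul (.g 4) (.add (.add (.mul (.g 1) (.add (.mul (.g 1) (.add (.pp [(1, 58332375)]) (.mul (.g 1) (.pp [(1, 17460375)])))) (.add (.mul (.g 2) (.pp [(1, 81239250)])) (.mul (.g 4) (.mul (.g 4) (.pp [(1, 7480875)])))))) (.mul (.g 2) (.mul (.g 2) (.pp [(1, 99205125)])))) (.add (.mul (.g 4) (.pp [(1, 19011750)])) (.add (.mul (.g 5) (.pp [(1, 228108375)])) (.mul (.g 6) (.mul (.g 6) (.mul (.g 6) (.pp [(1, 4986750)]))))))))) (.add (.mul (.g 2) (.mul (.g 2) (.add (.add (.mul (.g 1) (.add (.mul (.g 1) (.pp [(1, 59859375)])) (.mul (.g 2) (.pp [(1, 49885875)])))) (.mul (.g 0) (.pp [(1, 27838500)]))) (.add (.mul (.g 2) (.mul (.g 2) (.pp [(1, 14964000)])))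 (.mul (.g 5) (.pp [(1, 70311000)])))))) (.mul (.g 6) (.add (.mul (.g 5) (.add (.mul (.g 0) (.mul (.g 0) (.pp [(1, 171393000)]))) (.mul (.g 6) (.mul (.g 6) (.pp [(1, 14967750)]))))) (.add (.mul (.g 1) (.mul (.g 1) (.mul (.g 1) (.pp [(1, 29924250)])))) (.mul (.g 6) (.mul (.g 6) (.pp [(1, 140625)])))))))) (.pp [(1, 176135762), (2, 3813), (3, 3762), (4, 3465), (5, 3765), (6, 3780), (8, 4325), (9, 3705), (10, 3975), (12, 3000), (15, 3750), (16, 4125), (18, 4200), (20, 2625), (24, 3375), (25, 3675), (27, 3625), (30, 5475), (36, 4500), (40, 3375), (45, 3000), (50, 4500), (54, 3375), (60, 3750), (75, 3075), (81, 3750), (90, 3375), (100, 4125), (125, 3700), (135, 3750), (150, 3375), (225, 4125), (250, 3375), (375, 4125), (625, 3750)])))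
    (by decide +kernel) (yv_nonneg h1 ha hb (le_refl 0) (le_refl 0) (le_refl 0) (le_refl 0) (le_refl 0) (le_refl 0))
    (by
      simp only [List.forall_mem_cons, exadd, exsub, exmul, exc, exv2, exv3, exv5]
      push_cast
      refine ⟨?_, ?_, ?_, ?_, ?_, ?_, ?_, fun _ hh => absurd hh List.not_mem_nil⟩
      · linarith only [h1]
      · linarith only [ha]
      · linarith only [hb]
      · linarith only [h2]
      · linarith only [h4]
      · linarith only [h6]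
      · linarith only [h7]
    )
  simp only [exadd, exsub, exmul, exc, exv2, exv3, exv5] at h
  push_cast at h
  linarith only [h]

theorem x7T13 {d a b : ℝ} (h1 : 0 ≤ d) (ha : 0 ≤ a) (hb : 0 ≤ b) (h2 : 0 ≤ 3 / 5 - d) (h4 : 0 ≤ d - a) (h6 : 0 ≤ d - b) (h7 : 0 ≤ -d + a + b) :
    0 ≤ 131 / 375 + 219 / 200 * d - 911 / 1000 * a - 253 / 500 * b - 2 * d ^ 2 + d * a + d * b + 1 / 2 * a ^ 2 + a * b + 1 / 2 * b ^ 2 - 1 / 6 * d ^ 3 + 3 / 4 * d ^ 2 * a + 3 / 4 * d ^ 2 * b - 3 / 4 * d * a ^ 2 - d * a * b - 3 / 4 * d * b ^ 2 - 1 / 12 * a ^ 3 - 1 / 12 * b ^ 3 := by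
  have h := cert (y := yv d a b 0 0 0 0 0 0)
    (gs := [(.v 2),
      (.v 3),
      (.v 5),
      (.add (.c (3)) (.mul (.c (-5)) (.v 2))),
      (.add (.v 2) (.mul (.c (-1)) (.v 3))),
      (.add (.v 2) (.mul (.c (-1)) (.v 5))),
      (.add (.mul (.c (-1)) (.v 2)) (.add (.v 3) (.v 5)))])
    (p := .mul (.c 625000) (.add (.add (.add (.add (.c (1048)) (.mul (.c (3285)) (.v 2))) (.add (.mul (.c (-2733)) (.v 3)) (.mul (.c (-6000)) (.mul (.v 2) (.v 2))))) (.add (.add (.mul (.c (-1518)) (.v 5)) (.mul (.c (3000)) (.mul (.v 2) (.v 3)))) (.add (.mul (.c (-500)) (.mul (.mul (.v 2) (.v 2)) (.v 2))) (.add (.mul (.c (1500)) (.mul (.v 3) (.v 3))) (.mul (.c (3000)) (.mul (.v 2) (.v 5))))))) (.add (.add (.add (.mul (.c (2250)) (.mul (.mul (.v 2) (.v 2)) (.v 3))) (.mul (.c (3000)) (.mul (.v 3) (.v 5)))) (.add (.mul (.c (-2250)) (.mul (.mul (.v 2) (.v 3)) (.v 3))) (.mul (.c (2250)) (.mul (.mul (.v 2) (.v 2)) (.v 5)))))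 (.add (.add (.mul (.c (1500)) (.mul (.v 5) (.v 5))) (.mul (.c (-250)) (.mul (.mul (.v 3) (.v 3)) (.v 3)))) (.add (.mul (.c (-3000)) (.mul (.mul (.v 2) (.v 3)) (.v 5))) (.add (.mul (.c (-2250)) (.mul (.mul (.v 2) (.v 5)) (.v 5))) (.mul (.c (-250)) (.mul (.mul (.v 5) (.v 5)) (.v 5)))))))))
    (e := (.add (.add (.add (.mul (.g 3) (.add (.add (.pp [(1, 40042125)]) (.add (.mul (.g 1) (.add (.pp [(1, 5800500)]) (.add (.mul (.g 1) (.add (.pp [(1, 326604375)]) (.mul (.g 0) (.pp [(1, 220135500)])))) (.mul (.g 5) (.mul (.g 5) (.pp [(1, 35055750)])))))) (.mul (.g 3) (.add (.mul (.g 5) (.add (.pp [(1, 141378375)]) (.mul (.g 5) (.pp [(1, 54599775)])))) (.add (.mul (.g 3) (.mul (.g 3) (.pp [(1, 1378953)]))) (.mul (.g 6) (.mul (.g 6) (.pp [(1, 30881100)])))))))) (.add (.mul (.g 4) (.add (.pp [(1, 559828500)]) (.mul (.g 2) (.mul (.g 4) (.pp [(1, 5836500)]))))) (.add (.mul (.g 0) (.mul (.g 0) (.mul (.g 0) (.pp [(1, 190195500)]))))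 (.mul (.g 6) (.mul (.g 6) (.mul (.g 6) (.pp [(1, 9930000)])))))))) (.mul (.g 4) (.add (.add (.pp [(1, 46059375)]) (.mul (.g 1) (.add (.pp [(1, 979822500)]) (.mul (.g 1) (.add (.pp [(1, 35049375)]) (.mul (.g 5) (.pp [(1, 2910000)]))))))) (.add (.mul (.g 4) (.mul (.g 4) (.add (.pp [(1, 144596250)]) (.add (.mul (.g 4) (.pp [(1, 14610000)])) (.mul (.g 5) (.pp [(1, 227801250)])))))) (.mul (.g 6) (.mul (.g 6) (.add (.pp [(1, 6414375)]) (.mul (.g 6) (.pp [(1, 108050625)]))))))))) (.add (.mul (.g 2) (.add (.pp [(1, 323636250)]) (.add (.mul (.g 2) (.add (.mul (.g 0) (.add (.pp [(1, 866911875)]) (.mul (.g 2) (.pp [(1, 103610625)])))) (.add (.mul (.g 5) (.add (.pp [(1, 91987500)]) (.mul (.g 2) (.pp [(1, 54035625)])))) (.mul (.g 1) (.mul (.g 1) (.pp [(1, 270118125)])))))) (.mul (.g 5) (.pp [(1, 491407500)]))))) (.mul (.g 6) (.add (.mul (.g 5) (.add (.mul (.g 6) (.add (.pp [(1, 94070625)]) (.mul (.g 5) (.pp [(1, 54016875)]))))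 (.mul (.g 0) (.mul (.g 0) (.pp [(1, 2285934375)]))))) (.add (.mul (.g 1) (.mul (.g 1) (.mul (.g 1) (.pp [(1, 93423750)])))) (.mul (.g 6) (.pp [(1, 659561250)]))))))) (.pp [(1, 423178432), (2, 19995), (3, 18375), (4, 18075), (5, 19125), (6, 19800), (8, 18625), (9, 18225), (10, 19500), (12, 19875), (15, 17700), (16, 16875), (18, 16500), (20, 18000), (24, 24375), (25, 18375), (27, 20000), (30, 19500), (36, 13125), (40, 24375), (45, 19875), (50, 20625), (54, 22500), (60, 7500), (75, 18375), (81, 16875), (90, 24375), (100, 13125), (125, 18125), (135, 16875), (150, 26250), (225, 16875), (250, 20625), (375, 16875), (625, 18750)])))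
    (by decide +kernel) (yv_nonneg h1 ha hb (le_refl 0) (le_refl 0) (le_refl 0) (le_refl 0) (le_refl 0) (le_refl 0))
    (by
      simp only [List.forall_mem_cons, exadd, exsub, exmul, exc, exv2, exv3, exv5]
      push_cast
      refine ⟨?_, ?_, ?_, ?_, ?_, ?_, ?_, fun _ hh => absurd hh List.not_mem_nil⟩
      · linarith only [h1]
      · linarith only [ha]
      · linarith only [hb]
      · linarith only [h2]
      · linarith only [h4]
      · linarith only [h6]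
      · linarith only [h7]
    )
  simp only [exadd, exsub, exmul, exc, exv2, exv3, exv5] at h
  push_cast at h
  linarith only [h]

theorem x7T23 {d a b : ℝ} (h1 : 0 ≤ d) (ha : 0 ≤ a) (hb : 0 ≤ b) (h2 : 0 ≤ 3 / 5 - d) (h4 : 0 ≤ d - a) (h6 : 0 ≤ d - b) (h7 : 0 ≤ -d + a + b) :
    0 ≤ 113 / 600 + 467 / 500 * d - 589 / 1000 * a - 69 / 200 * b - 2 * d ^ 2 + d * a + d * b + 1 / 2 * a ^ 2 + a * b + 1 / 2 * b ^ 2 - 1 / 6 * d ^ 3 + 3 / 4 * d ^ 2 * a + 3 / 4 * d ^ 2 * b - 3 / 4 * d * a ^ 2 - d * a * b - 3 / 4 * d * b ^ 2 - 1 / 12 * a ^ 3 - 1 / 12 * b ^ 3 := by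
  have h := cert (y := yv d a b 0 0 0 0 0 0)
    (gs := [(.v 2),
      (.v 3),
      (.v 5),
      (.add (.c (3)) (.mul (.c (-5)) (.v 2))),
      (.add (.v 2) (.mul (.c (-1)) (.v 3))),
      (.add (.v 2) (.mul (.c (-1)) (.v 5))),
      (.add (.mul (.c (-1)) (.v 2)) (.add (.v 3) (.v 5)))])
    (p := .mul (.c 625000) (.add (.add (.add (.add (.c (565)) (.mul (.c (2802)) (.v 2))) (.add (.mul (.c (-1767)) (.v 3)) (.mul (.c (-6000)) (.mul (.v 2) (.v 2))))) (.add (.add (.mul (.c (-1035)) (.v 5)) (.mul (.c (3000)) (.mul (.v 2) (.v 3)))) (.add (.mul (.c (-500)) (.mul (.mul (.v 2) (.v 2)) (.v 2))) (.add (.mul (.c (1500)) (.mul (.v 3) (.v 3))) (.mul (.c (3000)) (.mul (.v 2) (.v 5))))))) (.add (.add (.add (.mul (.c (2250)) (.mul (.mul (.v 2) (.v 2)) (.v 3))) (.mul (.c (3000)) (.mul (.v 3) (.v 5)))) (.add (.mul (.c (-2250)) (.mul (.mul (.v 2) (.v 3)) (.v 3))) (.mul (.c (2250)) (.mul (.mul (.v 2) (.v 2)) (.v 5)))))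 (.add (.add (.mul (.c (1500)) (.mul (.v 5) (.v 5))) (.mul (.c (-250)) (.mul (.mul (.v 3) (.v 3)) (.v 3)))) (.add (.mul (.c (-3000)) (.mul (.mul (.v 2) (.v 3)) (.v 5))) (.add (.mul (.c (-2250)) (.mul (.mul (.v 2) (.v 5)) (.v 5))) (.mul (.c (-250)) (.mul (.mul (.v 5) (.v 5)) (.v 5)))))))))
    (e := (.add (.add (.add (.mul (.g 3) (.add (.add (.mul (.g 3) (.add (.mul (.g 3) (.add (.mul (.g 3) (.pp [(1, 625878)])) (.mul (.g 4) (.pp [(1, 2084325)])))) (.add (.mul (.g 5) (.add (.pp [(1, 18791250)]) (.mul (.g 5) (.pp [(1, 15636675)])))) (.mul (.g 6) (.mul (.g 6) (.pp [(1, 15631875)])))))) (.add (.mul (.g 2) (.add (.mul (.g 2) (.add (.pp [(1, 124915500)]) (.mul (.g 2) (.pp [(1, 12375)])))) (.mul (.g 1) (.pp [(1, 187437375)])))) (.mul (.g 4) (.add (.pp [(1, 431400375)]) (.mul (.g 4) (.mul (.g 4) (.pp [(1, 115793250)]))))))) (.add (.add (.mul (.g 5) (.add (.pp [(1, 271896750)]) (.mul (.g 5) (.mul (.g 5) (.pp [(1,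 4125)]))))) (.mul (.g 0) (.mul (.g 0) (.mul (.g 0) (.pp [(1, 92726625)]))))) (.add (.mul (.g 1) (.mul (.g 1) (.mul (.g 1) (.pp [(1, 63705750)])))) (.mul (.g 6) (.mul (.g 6) (.mul (.g 6) (.pp [(1, 5625)])))))))) (.mul (.g 6) (.add (.add (.pp [(1, 246084375)]) (.mul (.g 6) (.add (.pp [(1, 515647500)]) (.add (.mul (.g 4) (.add (.pp [(1, 22500)]) (.mul (.g 6) (.pp [(1, 5625)])))) (.mul (.g 5) (.add (.pp [(1, 22500)]) (.mul (.g 6) (.pp [(1, 1875)])))))))) (.add (.mul (.g 0) (.add (.pp [(1, 1311558750)]) (.mul (.g 0) (.mul (.g 5) (.pp [(1, 781689375)]))))) (.mul (.g 5) (.mul (.g 5) (.mul (.g 5) (.pp [(1, 5625)])))))))) (.add (.mul (.g 4) (.add (.mul (.g 4) (.add (.add (.pp [(1, 281146875)]) (.mul (.g 0) (.mul (.g 0) (.pp [(1, 825108750)])))) (.add (.mul (.g 2) (.mul (.g 2) (.pp [(1, 5625)]))) (.mul (.g 4) (.mul (.g 4) (.pp [(1, 86821875)])))))) (.mul (.g 1) (.add (.mul (.g 0) (.pp [(1, 1979493750)])) (.mul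 (.g 1) (.mul (.g 1) (.pp [(1, 86835000)]))))))) (.mul (.g 2) (.add (.pp [(1, 91833750)]) (.mul (.g 5) (.add (.pp [(1, 234330000)]) (.mul (.g 2) (.add (.pp [(1, 156286875)]) (.mul (.g 2) (.pp [(1, 9375)])))))))))) (.pp [(1, 302428882), (2, 19095), (3, 18525), (4, 19125), (5, 18375), (6, 18000), (8, 19000), (9, 18750), (10, 18900), (12, 18000), (15, 19125), (16, 16875), (18, 21375), (20, 17250), (24, 20625), (25, 19050), (27, 18125), (30, 20625), (36, 16875), (40, 24375), (45, 16875), (50, 20625), (54, 18750), (60, 11250), (75, 16875), (81, 18750), (90, 22500), (100, 9375), (125, 17750), (135, 18750), (150, 28125), (225, 16875), (250, 24375), (375, 16875), (625, 16875)])))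
    (by decide +kernel) (yv_nonneg h1 ha hb (le_refl 0) (le_refl 0) (le_refl 0) (le_refl 0) (le_refl 0) (le_refl 0))
    (by
      simp only [List.forall_mem_cons, exadd, exsub, exmul, exc, exv2, exv3, exv5]
      push_cast
      refine ⟨?_, ?_, ?_, ?_, ?_, ?_, ?_, fun _ hh => absurd hh List.not_mem_nil⟩
      · linarith only [h1]
      · linarith only [ha]
      · linarith only [hb]
      · linarith only [h2]
      · linarith only [h4]
      · linarith only [h6]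
      · linarith only [h7]
    )
  simp only [exadd, exsub, exmul, exc, exv2, exv3, exv5] at h
  push_cast at h
  linarith only [h]

theorem x8n {d q : ℝ} (hd : 0 ≤ d) (hq : 0 ≤ q) (hd1 : 0 ≤ 3 / 5 - d) (hdq : 0 ≤ -d + q) (hq1 : 0 ≤ 1 - q) (hlo : 0 ≤ -9 / 25 + d) :
    0 ≤ -173 / 750 + 1589 / 1000 * d - 339 / 1000 * q - 3 / 4 * d ^ 2 + 3 / 4 * q ^ 2 - 1 / 12 * d ^ 3 + 1 / 2 * d ^ 2 * q - 3 / 4 * d * q ^ 2 := by
  have h := cert (y := yv d q 0 0 0 0 0 0 0)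
    (gs := [(.v 2),
      (.v 3),
      (.add (.c (3)) (.mul (.c (-5)) (.v 2))),
      (.add (.mul (.c (-1)) (.v 2)) (.v 3)),
      (.add (.c (1)) (.mul (.c (-1)) (.v 3))),
      (.add (.c (-9)) (.mul (.c (25)) (.v 2)))])
    (p := .mul (.c 625000) (.add (.add (.add (.c (-692)) (.mul (.c (4767)) (.v 2))) (.add (.mul (.c (-1017)) (.v 3)) (.mul (.c (-2250)) (.mul (.v 2) (.v 2))))) (.add (.add (.mul (.c (-250)) (.mul (.mul (.v 2) (.v 2)) (.v 2))) (.mul (.c (2250)) (.mul (.v 3) (.v 3)))) (.add (.mul (.c (1500)) (.mul (.mul (.v 2) (.v 2)) (.v 3))) (.mul (.c (-2250)) (.mul (.mul (.v 2) (.v 3)) (.v 3)))))))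
    (e := (.add (.add (.mul (.g 3) (.add (.mul (.g 3) (.add (.pp [(1, 640740000)]) (.add (.mul (.g 3) (.add (.pp [(1, 312481875)]) (.mul (.g 4) (.pp [(1, 11250)])))) (.mul (.g 0) (.mul (.g 0) (.pp [(1, 15000)])))))) (.mul (.g 1) (.add (.pp [(1, 171673125)]) (.mul (.g 4) (.add (.mul (.g 1) (.pp [(1, 312549375)])) (.mul (.g 4) (.pp [(1, 312541875)])))))))) (.mul (.g 5) (.add (.add (.pp [(1, 44228250)]) (.mul (.g 1) (.add (.pp [(1, 39371850)]) (.mul (.g 4) (.add (.pp [(1, 31255275)]) (.mul (.g 1) (.pp [(1, 2400)]))))))) (.add (.mul (.g 2) (.add (.pp [(1, 15176355)]) (.mul (.g 2) (.mul (.g 2) (.pp [(1, 27771)]))))) (.mul (.g 0) (.mul (.g 0) (.mul (.g 0) (.pp [(1, 3470025)])))))))) (.pp [(1, 382064188), (2, 18960), (3, 19125), (4, 17775), (6, 16875), (8, 19100), (9, 19125), (12, 20625), (16, 18750), (18, 16875), (24, 18750), (27, 19650), (36, 18750), (54, 18750), (81, 18750)])))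
    (by decide +kernel) (yv_nonneg hd hq (le_refl 0) (le_refl 0) (le_refl 0) (le_refl 0) (le_refl 0) (le_refl 0) (le_refl 0))
    (by
      simp only [List.forall_mem_cons, exadd, exsub, exmul, exc, exv2, exv3]
      push_cast
      refine ⟨?_, ?_, ?_, ?_, ?_, ?_, fun _ hh => absurd hh List.not_mem_nil⟩
      · linarith only [hd]
      · linarith only [hq]
      · linarith only [hd1]
      · linarith only [hdq]
      · linarith only [hq1]
      · linarith only [hlo]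
    )
  simp only [exadd, exsub, exmul, exc, exv2, exv3] at h
  push_cast at h
  linarith only [h]

theorem x8z1 {d q : ℝ} (hd : 0 ≤ d) (hq : 0 ≤ q) (hd1 : 0 ≤ 3 / 5 - d) (hdq : 0 ≤ d - q) (hlo : 0 ≤ -9 / 25 + d) :
    0 ≤ -173 / 750 + 1339 / 1000 * d - 89 / 1000 * q - 5 / 4 * d ^ 2 + d * q + 1 / 4 * q ^ 2 + 1 / 4 * d ^ 2 * q - 1 / 2 * d * q ^ 2 - 1 / 12 * q ^ 3 := by
  have h := cert (y := yv d q 0 0 0 0 0 0 0)
    (gs := [(.v 2),
      (.v 3),
      (.add (.c (3)) (.mul (.c (-5)) (.v 2))),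
      (.add (.v 2) (.mul (.c (-1)) (.v 3))),
      (.add (.c (-9)) (.mul (.c (25)) (.v 2)))])
    (p := .mul (.c 3125000) (.add (.add (.add (.c (-692)) (.mul (.c (4017)) (.v 2))) (.add (.mul (.c (-267)) (.v 3)) (.mul (.c (-3750)) (.mul (.v 2) (.v 2))))) (.add (.add (.mul (.c (3000)) (.mul (.v 2) (.v 3))) (.mul (.c (750)) (.mul (.v 3) (.v 3)))) (.add (.mul (.c (750)) (.mul (.mul (.v 2) (.v 2)) (.v 3))) (.add (.mul (.c (-1500)) (.mul (.mul (.v 2) (.v 3)) (.v 3))) (.mul (.c (-250)) (.mul (.mul (.v 3) (.v 3)) (.v 3))))))))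
    (e := (.add (.add (.mul (.g 1) (.add (.add (.mul (.g 1) (.add (.mul (.g 1) (.add (.mul (.g 1) (.pp [(1, 813600000)])) (.mul (.g 2) (.pp [(1, 325503750)])))) (.add (.mul (.g 2) (.pp [(1, 1171921875)])) (.mul (.g 3) (.pp [(1, 2050771875)]))))) (.mul (.g 0) (.add (.pp [(1, 6412190625)]) (.mul (.g 0) (.mul (.g 0) (.pp [(1, 1627209375)])))))) (.add (.mul (.g 3) (.add (.pp [(1, 1172109375)]) (.mul (.g 3) (.mul (.g 3) (.pp [(1, 813693750)]))))) (.mul (.g 4) (.pp [(1, 127876125)]))))) (.mul (.g 4) (.add (.pp [(1, 45083250)]) (.add (.mul (.g 2) (.add (.pp [(1, 93751725)]) (.add (.mul (.g 2) (.mul (.g 2) (.pp [(1, 260403)]))) (.mul (.g 3) (.pp [(1, 11719200)]))))) (.mul (.g 3) (.mul (.g 3) (.mul (.g 3) (.pp [(1, 32546625)])))))))) (.pp [(1, 837823754), (2, 93480), (3, 91725), (4, 87825), (6, 100875), (8, 99375), (9, 93750), (12, 91125), (16, 93750), (18, 96375), (24, 93750), (27, 91000), (36, 84375), (54, 103125),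 (81, 93750)])))
    (by decide +kernel) (yv_nonneg hd hq (le_refl 0) (le_refl 0) (le_refl 0) (le_refl 0) (le_refl 0) (le_refl 0) (le_refl 0))
    (by
      simp only [List.forall_mem_cons, exadd, exsub, exmul, exc, exv2, exv3]
      push_cast
      refine ⟨?_, ?_, ?_, ?_, ?_, fun _ hh => absurd hh List.not_mem_nil⟩
      · linarith only [hd]
      · linarith only [hq]
      · linarith only [hd1]
      · linarith only [hdq]
      · linarith only [hlo]
    )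
  simp only [exadd, exsub, exmul, exc, exv2, exv3] at h
  push_cast at h
  linarith only [h]

theorem x8z2 {d t w : ℝ} (hd : 0 ≤ d) (ht : 0 ≤ t) (hw : 0 ≤ w) (hd1 : 0 ≤ 3 / 5 - d) (ht1 : 0 ≤ 1 - d - t) (hwt : 0 ≤ d + t - w) (hw1 : 0 ≤ 13 / 20 - w) (hlo : 0 ≤ -9 / 25 + d) :
    0 ≤ -173 / 750 + 1589 / 1000 * d + 339 / 1000 * t - 1 / 4 * w - 3 / 4 * d ^ 2 + 3 / 4 * t ^ 2 - 1 / 2 * w ^ 2 - 1 / 12 * d ^ 3 - 1 / 2 * d ^ 2 * t - 3 / 4 * d * t ^ 2 - 1 / 3 * t ^ 3 + 1 / 12 * w ^ 3 := by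
  have h := cert (y := yv d t w 0 0 0 0 0 0)
    (gs := [(.v 2),
      (.v 3),
      (.v 5),
      (.add (.c (3)) (.mul (.c (-5)) (.v 2))),
      (.add (.c (1)) (.add (.mul (.c (-1)) (.v 2)) (.mul (.c (-1)) (.v 3)))),
      (.add (.v 2) (.add (.v 3) (.mul (.c (-1)) (.v 5)))),
      (.add (.c (13)) (.mul (.c (-20)) (.v 5))),
      (.add (.c (-9)) (.mul (.c (25)) (.v 2)))])
    (p := .mul (.c 250000000) (.add (.add (.add (.c (-692)) (.add (.mul (.c (4767)) (.v 2)) (.mul (.c (1017)) (.v 3)))) (.add (.mul (.c (-2250)) (.mul (.v 2) (.v 2))) (.add (.mul (.c (-750)) (.v 5)) (.mul (.c (-250)) (.mul (.mul (.v 2) (.v 2)) (.v 2)))))) (.add (.add (.mul (.c (2250)) (.mul (.v 3) (.v 3))) (.add (.mul (.c (-1500)) (.mul (.mul (.v 2) (.v 2)) (.v 3))) (.mul (.c (-2250)) (.mul (.mul (.v 2) (.v 3)) (.v 3))))) (.add (.mul (.c (-1500)) (.mul (.v 5) (.v 5))) (.add (.mul (.c (-1000)) (.mul (.mul (.v 3) (.v 3)) (.v 3))) (.mul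 (.c (250)) (.mul (.mul (.v 5) (.v 5)) (.v 5))))))))
    (e := (.add (.add (.mul (.g 5) (.add (.add (.pp [(1, 149941500000)]) (.add (.mul (.g 5) (.add (.add (.mul (.g 5) (.add (.add (.pp [(1, 100677000000)]) (.mul (.g 1) (.pp [(1, 63807750000)]))) (.add (.mul (.g 4) (.pp [(1, 167211000000)])) (.mul (.g 6) (.pp [(1, 985612500)]))))) (.mul (.g 0) (.mul (.g 0) (.pp [(1, 51732750000)])))) (.add (.mul (.g 2) (.pp [(1, 110911500000)])) (.add (.mul (.g 4) (.mul (.g 4) (.pp [(1, 353310750000)]))) (.mul (.g 7) (.pp [(1, 848160000)])))))) (.mul (.g 0) (.add (.mul (.g 0) (.add (.mul (.g 3) (.pp [(1, 4675200000)])) (.mul (.g 4) (.pp [(1, 128905500000)])))) (.mul (.g 1) (.mul (.g 4) (.pp [(1, 341473500000)]))))))) (.add (.mul (.g 1) (.mul (.g 1) (.mul (.g 4) (.pp [(1, 249915000000)])))) (.add (.mul (.g 2) (.pp [(1, 248860500000)])) (.mul (.g 3) (.pp [(1, 11020500000)])))))) (.add (.mul (.g 6) (.add (.add (.pp [(1,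 2550600000)]) (.mul (.g 2) (.add (.add (.pp [(1, 9326062500)]) (.mul (.g 2) (.add (.mul (.g 0) (.pp [(1, 5404087500)])) (.mul (.g 2) (.pp [(1, 985987500)]))))) (.add (.mul (.g 1) (.mul (.g 1) (.pp [(1, 5112262500)]))) (.mul (.g 6) (.pp [(1, 548660625)])))))) (.add (.mul (.g 0) (.add (.pp [(1, 5095275000)]) (.add (.mul (.g 1) (.mul (.g 1) (.pp [(1, 1652587500)]))) (.mul (.g 4) (.mul (.g 6) (.pp [(1, 32647500)])))))) (.add (.mul (.g 1) (.mul (.g 6) (.mul (.g 6) (.pp [(1, 5534250)])))) (.mul (.g 4) (.mul (.g 4) (.mul (.g 4) (.pp [(1, 8310075000)])))))))) (.mul (.g 7) (.add (.add (.mul (.g 3) (.add (.pp [(1, 149208000)]) (.mul (.g 3) (.add (.mul (.g 2) (.pp [(1, 15481200)])) (.mul (.g 7) (.pp [(1, 881472)])))))) (.mul (.g 0) (.add (.mul (.g 0) (.mul (.g 1) (.pp [(1, 359010000)]))) (.mul (.g 2) (.mul (.g 2) (.pp [(1, 2020200000)])))))) (.add (.mul (.g 4) (.add (.pp [(1, 30655140000)]) (.mul (.g 4) (.mul (.g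 4) (.pp [(1, 3973260000)]))))) (.mul (.g 1) (.mul (.g 1) (.mul (.g 1) (.pp [(1, 192210000)]))))))))) (.pp [(1, 852847912), (2, 6621060), (3, 6897750), (4, 8579700), (5, 8019075), (6, 8497500), (8, 6732500), (9, 7785000), (10, 6126000), (12, 6007500), (15, 6915000), (16, 7500000), (18, 5880000), (20, 9457500), (24, 7500000), (25, 7965000), (27, 7062500), (30, 10575000), (36, 7500000), (40, 7500000), (45, 8475000), (50, 7275000), (54, 7500000), (60, 7500000), (75, 7312500), (81, 7500000), (90, 7500000), (100, 6750000), (125, 7375000), (135, 7500000), (150, 6750000), (225, 7500000), (250, 7500000), (375, 7500000), (625, 7500000)])))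
    (by decide +kernel) (yv_nonneg hd ht hw (le_refl 0) (le_refl 0) (le_refl 0) (le_refl 0) (le_refl 0) (le_refl 0))
    (by
      simp only [List.forall_mem_cons, exadd, exsub, exmul, exc, exv2, exv3, exv5]
      push_cast
      refine ⟨?_, ?_, ?_, ?_, ?_, ?_, ?_, ?_, fun _ hh => absurd hh List.not_mem_nil⟩
      · linarith only [hd]
      · linarith only [ht]
      · linarith only [hw]
      · linarith only [hd1]
      · linarith only [ht1]
      · linarith only [hwt]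
      · linarith only [hw1]
      · linarith only [hlo]
    )
  simp only [exadd, exsub, exmul, exc, exv2, exv3, exv5] at h
  push_cast at h
  linarith only [h]

theorem x8m1 {d m q : ℝ} (hd : 0 ≤ d) (hm : 0 ≤ m) (hq : 0 ≤ q) (hd1 : 0 ≤ 3 / 5 - d) (hm1 : 0 ≤ d - m) (hq1 : 0 ≤ -d + m + q) (hq2 : 0 ≤ 1 - q) (hlo : 0 ≤ -9 / 25 + d) :
    0 ≤ 29 / 1500 + 1589 / 1000 * d - 3 / 4 * m - 839 / 1000 * q - 3 / 2 * d ^ 2 + d * m + 1 / 2 * m ^ 2 + m * q + q ^ 2 - 1 / 4 * d ^ 3 + 3 / 4 * d ^ 2 * m + d ^ 2 * q - 3 / 4 * d * m ^ 2 - d * m * q - d * q ^ 2 - 1 / 12 * m ^ 3 := by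
  have h := cert (y := yv d m q 0 0 0 0 0 0)
    (gs := [(.v 2),
      (.v 3),
      (.v 5),
      (.add (.c (3)) (.mul (.c (-5)) (.v 2))),
      (.add (.v 2) (.mul (.c (-1)) (.v 3))),
      (.add (.mul (.c (-1)) (.v 2)) (.add (.v 3) (.v 5))),
      (.add (.c (1)) (.mul (.c (-1)) (.v 5))),
      (.add (.c (-9)) (.mul (.c (25)) (.v 2)))])
    (p := .mul (.c 3125000) (.add (.add (.add (.add (.c (58)) (.mul (.c (4767)) (.v 2))) (.add (.mul (.c (-2250)) (.v 3)) (.mul (.c (-4500)) (.mul (.v 2) (.v 2))))) (.add (.add (.mul (.c (-2517)) (.v 5)) (.mul (.c (3000)) (.mul (.v 2) (.v 3)))) (.add (.mul (.c (-750)) (.mul (.mul (.v 2) (.v 2)) (.v 2))) (.mul (.c (1500)) (.mul (.v 3) (.v 3)))))) (.add (.add (.add (.mul (.c (2250)) (.mul (.mul (.v 2) (.v 2)) (.v 3))) (.mul (.c (3000)) (.mul (.v 3) (.v 5)))) (.add (.mul (.c (-2250)) (.mul (.mul (.v 2) (.v 3)) (.v 3))) (.mul (.c (3000)) (.mul (.mul (.v 2) (.v 2)) (.v 5)))))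 (.add (.add (.mul (.c (3000)) (.mul (.v 5) (.v 5))) (.mul (.c (-250)) (.mul (.mul (.v 3) (.v 3)) (.v 3)))) (.add (.mul (.c (-3000)) (.mul (.mul (.v 2) (.v 3)) (.v 5))) (.mul (.c (-3000)) (.mul (.mul (.v 2) (.v 5)) (.v 5))))))))
    (e := (.add (.add (.add (.mul (.g 7) (.add (.add (.mul (.g 3) (.add (.add (.pp [(1, 110474700)]) (.mul (.g 6) (.add (.mul (.g 0) (.pp [(1, 25006575)])) (.add (.mul (.g 5) (.pp [(1, 7353450)])) (.mul (.g 6) (.pp [(1, 2629275)])))))) (.add (.mul (.g 2) (.add (.mul (.g 2) (.pp [(1, 14218800)])) (.mul (.g 7) (.pp [(1, 1000383)])))) (.mul (.g 1) (.mul (.g 1) (.pp [(1, 3750)])))))) (.mul (.g 4) (.add (.mul (.g 4) (.add (.mul (.g 1) (.pp [(1, 41704500)])) (.add (.mul (.g 2) (.pp [(1, 185919750)])) (.mul (.g 5) (.pp [(1, 141384750)]))))) (.mul (.g 1) (.pp [(1, 338291250)]))))) (.add (.mul (.g 5) (.add (.pp [(1, 16589250)]) (.add (.mul (.g 5) (.mul (.g 7) (.pp [(1, 1207110)]))) (.mul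 (.g 6) (.mul (.g 6) (.pp [(1, 69040500)])))))) (.add (.mul (.g 2) (.mul (.g 6) (.add (.pp [(1, 136635750)]) (.mul (.g 2) (.pp [(1, 106274625)]))))) (.mul (.g 1) (.pp [(1, 428196750)])))))) (.mul (.g 5) (.add (.mul (.g 5) (.add (.mul (.g 5) (.add (.add (.mul (.g 3) (.pp [(1, 196530000)])) (.mul (.g 4) (.pp [(1, 611690625)]))) (.add (.mul (.g 5) (.pp [(1, 2375334375)])) (.mul (.g 6) (.pp [(1, 3486684375)]))))) (.add (.mul (.g 2) (.add (.mul (.g 3) (.pp [(1, 75556875)])) (.mul (.g 4) (.pp [(1, 1751034375)])))) (.mul (.g 4) (.pp [(1, 3209812500)]))))) (.mul (.g 1) (.add (.mul (.g 1) (.mul (.g 4) (.pp [(1, 1797525000)]))) (.mul (.g 6) (.mul (.g 6) (.pp [(1, 1113000000)])))))))) (.add (.mul (.g 6) (.mul (.g 6) (.add (.mul (.g 6) (.add (.mul (.g 3) (.pp [(1, 235620000)])) (.add (.mul (.g 4) (.pp [(1, 2208365625)])) (.mul (.g 6) (.pp [(1, 982818750)]))))) (.mul (.g 1) (.mul (.g 1) (.pp [(1, 432112500)]))))))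 (.add (.mul (.g 2) (.add (.mul (.g 1) (.mul (.g 1) (.mul (.g 4) (.pp [(1, 631106250)])))) (.mul (.g 2) (.mul (.g 2) (.mul (.g 2) (.pp [(1, 128437500)])))))) (.mul (.g 4) (.mul (.g 4) (.mul (.g 4) (.mul (.g 4) (.pp [(1, 33796875)])))))))) (.pp [(1, 1545378575), (2, 99000), (3, 97275), (4, 89715), (5, 88731), (6, 96570), (8, 89250), (9, 91590), (10, 89985), (12, 94125), (15, 79155), (16, 84375), (18, 97125), (20, 105375), (24, 131250), (25, 107340), (27, 91375), (30, 94500), (36, 37500), (40, 112500), (45, 96750), (50, 88125), (54, 131250), (60, 46875), (75, 109500), (81, 84375), (90, 131250), (100, 65625), (125, 82875), (135, 84375), (150, 131250), (225, 75000), (250, 112500), (375, 75000), (625, 93750)])))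
    (by decide +kernel) (yv_nonneg hd hm hq (le_refl 0) (le_refl 0) (le_refl 0) (le_refl 0) (le_refl 0) (le_refl 0))
    (by
      simp only [List.forall_mem_cons, exadd, exsub, exmul, exc, exv2, exv3, exv5]
      push_cast
      refine ⟨?_, ?_, ?_, ?_, ?_, ?_, ?_, ?_, fun _ hh => absurd hh List.not_mem_nil⟩
      · linarith only [hd]
      · linarith only [hm]
      · linarith only [hq]
      · linarith only [hd1]
      · linarith only [hm1]
      · linarith only [hq1]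
      · linarith only [hq2]
      · linarith only [hlo]
    )
  simp only [exadd, exsub, exmul, exc, exv2, exv3, exv5] at h
  push_cast at h
  linarith only [h]

theorem x8m2 {d t q w : ℝ} (hd : 0 ≤ d) (ht : 0 ≤ t) (hq : 0 ≤ q) (hw : 0 ≤ w) (hd1 : 0 ≤ 3 / 5 - d) (ht1 : 0 ≤ 1 - d - t) (hq1 : 0 ≤ -d - t + q) (hq2 : 0 ≤ 1 - q) (hwt : 0 ≤ d + t - w) (hw1 : 0 ≤ 13 / 20 - w) (hlo : 0 ≤ -9 / 25 + d) :
    0 ≤ 29 / 1500 + 1839 / 1000 * d + t - 839 / 1000 * q - 1 / 4 * w - d ^ 2 + t ^ 2 - t * q + q ^ 2 - 1 / 2 * w ^ 2 - 1 / 3 * d ^ 3 - d ^ 2 * t + d ^ 2 * q - d * t ^ 2 + d * t * q - d * q ^ 2 - 1 / 3 * t ^ 3 + 1 / 12 * w ^ 3 := by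
  have h := cert (y := yv d t q w 0 0 0 0 0)
    (gs := [(.v 2),
      (.v 3),
      (.v 5),
      (.v 7),
      (.add (.c (3)) (.mul (.c (-5)) (.v 2))),
      (.add (.c (1)) (.add (.mul (.c (-1)) (.v 2)) (.mul (.c (-1)) (.v 3)))),
      (.add (.mul (.c (-1)) (.v 2)) (.add (.mul (.c (-1)) (.v 3)) (.v 5))),
      (.add (.c (1)) (.mul (.c (-1)) (.v 5))),
      (.add (.v 2) (.add (.v 3) (.mul (.c (-1)) (.v 7)))),
      (.add (.c (13)) (.mul (.c (-20)) (.v 7))),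
      (.add (.c (-9)) (.mul (.c (25)) (.v 2)))])
    (p := .mul (.c 20000000000) (.add (.add (.add (.add (.c (58)) (.mul (.c (5517)) (.v 2))) (.add (.mul (.c (3000)) (.v 3)) (.mul (.c (-3000)) (.mul (.v 2) (.v 2))))) (.add (.add (.mul (.c (-2517)) (.v 5)) (.mul (.c (-750)) (.v 7))) (.add (.mul (.c (-1000)) (.mul (.mul (.v 2) (.v 2)) (.v 2))) (.add (.mul (.c (3000)) (.mul (.v 3) (.v 3))) (.mul (.c (-3000)) (.mul (.mul (.v 2) (.v 2)) (.v 3))))))) (.add (.add (.add (.mul (.c (-3000)) (.mul (.v 3) (.v 5))) (.mul (.c (-3000)) (.mul (.mul (.v 2) (.v 3)) (.v 3)))) (.add (.mul (.c (3000)) (.mul (.mul (.v 2) (.v 2)) (.v 5))) (.mul (.c (3000)) (.mul (.v 5) (.v 5))))) (.add (.add (.mul (.c (-1000)) (.mul (.mul (.v 3) (.v 3)) (.v 3))) (.mul (.c (3000)) (.mul (.mul (.v 2) (.v 3)) (.v 5)))) (.add (.mul (.c (-1500)) (.mul (.v 7) (.v 7))) (.add (.mul (.c (-3000)) (.mul (.mul (.v 2) (.v 5)) (.v 5))) (.mul (.c (250)) (.mul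 (.mul (.v 7) (.v 7)) (.v 7)))))))))
    (e := (.add (.add (.add (.mul (.g 8) (.add (.add (.add (.mul (.g 3) (.add (.add (.pp [(1, 38791440000000)]) (.add (.mul (.pp [(1, 553146000)]) (.sq [(1, -83), (2, -13), (3, 100), (5, -31), (7, -12)])) (.mul (.pp [(1, 39792000)]) (.sq [(1, -4), (2, 100), (3, 60), (5, 29), (7, -55)])))) (.add (.mul (.pp [(1, 74190000)]) (.sq [(1, 100), (2, -40), (3, 69), (5, 8)])) (.add (.mul (.g 10) (.add (.mul (.g 0) (.pp [(1, 533892000000)])) (.mul (.g 4) (.pp [(1, 141870720000)])))) (.mul (.g 9) (.pp [(1, 558609000000)])))))) (.mul (.g 0) (.add (.mul (.g 2) (.add (.mul (.g 4) (.pp [(1, 1086684000000)])) (.add (.mul (.g 5) (.pp [(1, 10002360000000)])) (.mul (.g 7) (.pp [(1, 5963700000000)]))))) (.add (.mul (.g 0) (.mul (.g 1) (.pp [(1, 2186340000000)]))) (.mul (.g 4) (.mul (.g 8) (.pp [(1, 18916752000000)]))))))) (.add (.mul (.g 1) (.add (.pp [(1, 10632480000000)]) (.add (.mul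 (.g 9) (.add (.pp [(1, 439599000000)]) (.mul (.g 9) (.pp [(1, 6064500000)])))) (.mul (.g 1) (.mul (.g 6) (.pp [(1, 4242960000000)])))))) (.mul (.g 8) (.add (.add (.mul (.pp [(1, 629556000)]) (.sq [(1, -87), (2, -38), (3, 100), (5, -4), (7, -2)])) (.mul (.pp [(1, 140262000)]) (.sq [(1, 100), (2, -28), (3, -28), (5, 89), (7, 11)]))) (.add (.mul (.g 2) (.pp [(1, 2603160000000)])) (.mul (.g 10) (.mul (.g 10) (.pp [(1, 146584800000)])))))))) (.add (.add (.mul (.g 4) (.add (.pp [(1, 6187356000000)]) (.mul (.pp [(1, 132200400)]) (.sq [(1, 61), (2, -100), (3, 6), (5, 16), (7, 77)])))) (.mul (.g 5) (.add (.pp [(1, 1495200000000)]) (.mul (.pp [(1, 229578000)]) (.sq [(1, -100), (2, 8), (3, -71), (5, -84), (7, 35)]))))) (.add (.mul (.g 7) (.add (.pp [(1, 5830260000000)]) (.mul (.pp [(1, 54810000)]) (.sq [(1, -53), (2, 100), (3, 45), (5, 87), (7, -7)])))) (.add (.mul (.g 10) (.add (.mul (.pp [(1, 7782240)]) (.sq [(1,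 88), (2, 34), (3, -100), (7, -37)])) (.mul (.pp [(1, 40369680)]) (.sq [(1, -54), (2, 100), (3, 42), (5, 82), (7, -61)])))) (.mul (.g 6) (.mul (.pp [(1, 163752000)]) (.sq [(1, -11), (2, 20), (3, 26), (5, 50), (7, 32)])))))))) (.add (.mul (.g 10) (.add (.add (.mul (.g 3) (.add (.add (.mul (.g 0) (.add (.mul (.g 5) (.pp [(1, 4205532000000)])) (.mul (.g 6) (.pp [(1, 4788000000)])))) (.mul (.g 4) (.add (.mul (.g 5) (.pp [(1, 696436320000)])) (.mul (.g 10) (.pp [(1, 3122592000)]))))) (.add (.mul (.g 3) (.mul (.g 7) (.pp [(1, 264177600000)]))) (.mul (.g 10) (.pp [(1, 25327296000)]))))) (.add (.mul (.g 1) (.add (.pp [(1, 640562400000)]) (.add (.mul (.g 0) (.mul (.g 9) (.pp [(1, 470563800000)]))) (.mul (.g 1) (.mul (.g 2) (.pp [(1, 185515200000)])))))) (.mul (.g 4) (.add (.mul (.pp [(1, 4243872)]) (.sq [(1, 55), (2, -62), (3, -15), (5, 7), (7, 100)])) (.mul (.g 4) (.mul (.g 9) (.pp [(1, 19076097600)]))))))) (.add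 (.mul (.g 6) (.add (.pp [(1, 2124612000000)]) (.mul (.pp [(1, 2937600)]) (.sq [(1, -100), (2, -61), (3, -74), (5, 11), (7, -43)])))) (.add (.mul (.g 0) (.mul (.g 5) (.mul (.g 9) (.pp [(1, 532299000000)])))) (.mul (.g 7) (.mul (.pp [(1, 10329600)]) (.sq [(1, 1), (2, -63), (3, 51), (5, 14), (7, 100)]))))))) (.mul (.g 6) (.add (.mul (.g 6) (.add (.add (.pp [(1, 9515700000000)]) (.mul (.pp [(1, 6216000)]) (.sq [(1, 100), (2, -74), (3, -39), (5, 51), (7, -3)]))) (.add (.mul (.pp [(1, 3252000)]) (.sq [(1, 45), (2, 26), (3, 100), (5, -32), (7, 20)])) (.add (.mul (.g 5) (.pp [(1, 303540000000)])) (.mul (.g 6) (.mul (.g 7) (.pp [(1, 20100000000)]))))))) (.add (.mul (.g 4) (.add (.mul (.pp [(1, 819600)]) (.sq [(1, 100), (2, -90), (3, -65), (5, 86), (7, -9)])) (.mul (.g 2) (.add (.pp [(1, 10987428000000)]) (.mul (.g 4) (.pp [(1, 21372000000)])))))) (.mul (.g 1) (.add (.mul (.pp [(1, 175932000)]) (.sq [(1, 78), (2,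 100), (3, 70), (5, 39), (7, 70)])) (.mul (.pp [(1, 17244000)]) (.sq [(1, -57), (2, -97), (3, 66), (5, -19), (7, 100)]))))))))) (.add (.add (.mul (.g 1) (.add (.add (.mul (.g 7) (.add (.pp [(1, 13619460000000)]) (.add (.mul (.pp [(1, 209760000)]) (.sq [(1, -28), (2, -27), (3, 8), (5, 41), (7, 100)])) (.mul (.g 0) (.mul (.g 2) (.pp [(1, 1865280000000)])))))) (.mul (.g 1) (.add (.pp [(1, 6290880000000)]) (.mul (.g 5) (.mul (.g 9) (.pp [(1, 133926000000)])))))) (.add (.mul (.g 0) (.mul (.pp [(1, 113916000)]) (.sq [(1, -39), (2, -73), (3, 73), (5, 21), (7, 100)]))) (.mul (.g 9) (.mul (.g 9) (.pp [(1, 28315350000)])))))) (.mul (.g 7) (.add (.mul (.g 0) (.mul (.g 0) (.add (.mul (.g 2) (.pp [(1, 2364000000000)])) (.mul (.g 9) (.pp [(1, 397662000000)]))))) (.add (.mul (.g 5) (.mul (.pp [(1, 22662000)]) (.sq [(1, -46), (2, 61), (3, 100), (5, 69), (7, -49)]))) (.mul (.g 7) (.pp [(1, 15232500000000)])))))) (.add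 (.mul (.g 4) (.add (.mul (.g 4) (.mul (.pp [(1, 22496640)]) (.sq [(1, 10), (2, -30), (3, 50), (5, 22), (7, -21)]))) (.mul (.g 5) (.mul (.pp [(1, 144225600)]) (.sq [(1, -6), (2, -9), (3, 50), (5, 49), (7, 15)]))))) (.mul (.g 9) (.add (.mul (.pp [(1, 51268200)]) (.sq [(2, 100), (3, -66), (5, -19), (7, -61)])) (.mul (.g 9) (.mul (.pp [(1, 212595)]) (.sq [(1, 44), (2, 100), (3, -72), (5, -21), (7, -46)])))))))) (.pp [(1, 6208008169520), (2, 597643680), (3, 599412240), (4, 634098576), (5, 578593320), (6, 706516560), (7, 615690480), (8, 641921200), (9, 641211360), (10, 654350088), (12, 777539760), (14, 551437200), (15, 613547520), (16, 536784000), (18, 771764880), (20, 458309520), (21, 520718640), (24, 459336000), (25, 609183861), (27, 650600080), (28, 632554080), (30, 383566560), (35, 585584700), (36, 553008000), (40, 637266000), (42, 603029760), (45, 487377360), (49, 601943820), (50, 727353120), (54, 661014000),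 (56, 639726000), (60, 642342000), (63, 650163840), (70, 498964320), (75, 609780480), (81, 640770000), (84, 644118000), (90, 572532000), (98, 569118720), (100, 511890000), (105, 568049760), (125, 548689200), (126, 627276000), (135, 558954000), (140, 738660000), (147, 600402240), (150, 611640000), (175, 642051720), (189, 638292000), (196, 555360000), (210, 635232000), (225, 692622000), (245, 649130880), (250, 646140000), (294, 658614000), (315, 575286000), (343, 611284640), (350, 550890000), (375, 607788000), (441, 591966000), (490, 565650000), (525, 554478000), (625, 602136000), (686, 624750000), (735, 564792000), (875, 587766000), (1029, 595410000), (1225, 604818000), (1715, 601194000), (2401, 593490000)])))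
    (by decide +kernel) (yv_nonneg hd ht hq hw (le_refl 0) (le_refl 0) (le_refl 0) (le_refl 0) (le_refl 0))
    (by
      simp only [List.forall_mem_cons, exadd, exsub, exmul, exc, exv2, exv3, exv5, exv7]
      push_cast
      refine ⟨?_, ?_, ?_, ?_, ?_, ?_, ?_, ?_, ?_, ?_, ?_, fun _ hh => absurd hh List.not_mem_nil⟩
      · linarith only [hd]
      · linarith only [ht]
      · linarith only [hq]
      · linarith only [hw]
      · linarith only [hd1]
      · linarith only [ht1]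
      · linarith only [hq1]
      · linarith only [hq2]
      · linarith only [hwt]
      · linarith only [hw1]
      · linarith only [hlo]
    )
  simp only [exadd, exsub, exmul, exc, exv2, exv3, exv5, exv7] at h
  push_cast at h
  linarith only [h]

theorem x8zm {d a b : ℝ} (hd : 0 ≤ d) (ha : 0 ≤ a) (hb : 0 ≤ b) (hd1 : 0 ≤ 3 / 5 - d) (ha1 : 0 ≤ d - a) (hb1 : 0 ≤ d - b) (hab : 0 ≤ -d + a + b) (hlo : 0 ≤ -9 / 25 + d) :
    0 ≤ 29 / 1500 + 1339 / 1000 * d - 589 / 1000 * a - 3 / 4 * b - 2 * d ^ 2 + d * a + d * b + 1 / 2 * a ^ 2 + a * b + 1 / 2 * b ^ 2 - 1 / 6 * d ^ 3 + 3 / 4 * d ^ 2 * a + 3 / 4 * d ^ 2 * b - 3 / 4 * d * a ^ 2 - d * a * b - 3 / 4 * d * b ^ 2 - 1 / 12 * a ^ 3 - 1 / 12 * b ^ 3 := by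
  have h := cert (y := yv d a b 0 0 0 0 0 0)
    (gs := [(.v 2),
      (.v 3),
      (.v 5),
      (.add (.c (3)) (.mul (.c (-5)) (.v 2))),
      (.add (.v 2) (.mul (.c (-1)) (.v 3))),
      (.add (.v 2) (.mul (.c (-1)) (.v 5))),
      (.add (.mul (.c (-1)) (.v 2)) (.add (.v 3) (.v 5))),
      (.add (.c (-9)) (.mul (.c (25)) (.v 2)))])
    (p := .mul (.c 3125000) (.add (.add (.add (.add (.c (58)) (.mul (.c (4017)) (.v 2))) (.add (.mul (.c (-1767)) (.v 3)) (.mul (.c (-6000)) (.mul (.v 2) (.v 2))))) (.add (.add (.mul (.c (-2250)) (.v 5)) (.mul (.c (3000)) (.mul (.v 2) (.v 3)))) (.add (.mul (.c (-500)) (.mul (.mul (.v 2) (.v 2)) (.v 2))) (.add (.mul (.c (1500)) (.mul (.v 3) (.v 3))) (.mul (.c (3000)) (.mul (.v 2) (.v 5))))))) (.add (.add (.add (.mul (.c (2250)) (.mul (.mul (.v 2) (.v 2)) (.v 3))) (.mul (.c (3000)) (.mul (.v 3) (.v 5)))) (.add (.mul (.c (-2250)) (.mul (.mul (.v 2) (.v 3)) (.v 3))) (.mul (.c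 (2250)) (.mul (.mul (.v 2) (.v 2)) (.v 5))))) (.add (.add (.mul (.c (1500)) (.mul (.v 5) (.v 5))) (.mul (.c (-250)) (.mul (.mul (.v 3) (.v 3)) (.v 3)))) (.add (.mul (.c (-3000)) (.mul (.mul (.v 2) (.v 3)) (.v 5))) (.add (.mul (.c (-2250)) (.mul (.mul (.v 2) (.v 5)) (.v 5))) (.mul (.c (-250)) (.mul (.mul (.v 5) (.v 5)) (.v 5)))))))))
    (e := (.add (.add (.add (.mul (.g 3) (.add (.add (.mul (.g 7) (.add (.add (.pp [(1, 40267125)]) (.mul (.g 2) (.mul (.g 2) (.pp [(1, 51350775)])))) (.add (.mul (.g 3) (.mul (.g 3) (.pp [(1, 130896)]))) (.add (.mul (.g 5) (.pp [(1, 14540025)])) (.mul (.g 6) (.pp [(1, 188138025)])))))) (.add (.mul (.g 3) (.add (.mul (.g 4) (.mul (.g 4) (.pp [(1, 352887000)]))) (.add (.mul (.g 5) (.mul (.g 5) (.pp [(1, 244030500)]))) (.mul (.g 6) (.mul (.g 6) (.pp [(1, 346294125)])))))) (.mul (.g 0) (.mul (.g 0) (.mul (.g 0) (.pp [(1, 398949375)])))))) (.add (.add (.mul (.g 1) (.mul (.g 1)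 (.mul (.g 1) (.pp [(1, 1571298750)])))) (.mul (.g 4) (.pp [(1, 147414375)]))) (.add (.mul (.g 5) (.pp [(1, 693333750)])) (.mul (.g 6) (.mul (.g 6) (.mul (.g 6) (.pp [(1, 1969038750)])))))))) (.mul (.g 5) (.add (.add (.pp [(1, 264196875)]) (.mul (.g 5) (.add (.add (.pp [(1, 578034375)]) (.mul (.g 5) (.add (.mul (.g 4) (.pp [(1, 5268843750)])) (.mul (.g 5) (.pp [(1, 1604653125)]))))) (.add (.mul (.g 1) (.mul (.g 1) (.pp [(1, 2417006250)]))) (.mul (.g 2) (.pp [(1, 2172262500)])))))) (.add (.mul (.g 6) (.add (.mul (.g 6) (.add (.pp [(1, 8860725000)]) (.mul (.g 6) (.pp [(1, 11456409375)])))) (.mul (.g 0) (.mul (.g 0) (.pp [(1, 23453765625)]))))) (.mul (.g 4) (.pp [(1, 2775768750)])))))) (.add (.mul (.g 1) (.add (.mul (.g 1) (.add (.mul (.g 2) (.add (.pp [(1, 2541637500)]) (.mul (.g 2) (.pp [(1, 3069300000)])))) (.add (.mul (.g 1) (.mul (.g 1) (.pp [(1, 137400000)]))) (.mul (.g 4) (.mul (.g 4) (.pp [(1, 2847600000)]))))))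 (.add (.mul (.g 4) (.add (.pp [(1, 1788150000)]) (.mul (.g 6) (.pp [(1, 11402362500)])))) (.mul (.g 2) (.mul (.g 2) (.mul (.g 2) (.pp [(1, 4807218750)]))))))) (.mul (.g 6) (.add (.mul (.g 6) (.add (.pp [(1, 182925000)]) (.mul (.g 6) (.mul (.g 6) (.pp [(1, 4813800000)]))))) (.add (.mul (.g 2) (.mul (.g 2) (.mul (.g 2) (.pp [(1, 5037853125)])))) (.mul (.g 4) (.mul (.g 4) (.mul (.g 4) (.pp [(1, 7798903125)]))))))))) (.pp [(1, 1300270103), (2, 89310), (3, 94800), (4, 96900), (5, 94125), (6, 94125), (8, 93875), (9, 94875), (10, 102000), (12, 99375), (15, 87000), (16, 93750), (18, 82500), (20, 86250), (24, 75000), (25, 89925), (27, 100000), (30, 82500), (36, 131250), (40, 84375), (45, 101250), (50, 94500), (54, 65625), (60, 159375), (75, 101250), (81, 103125), (90, 28125), (100, 121875), (125, 96250), (135, 112500), (150, 28125), (225, 121875), (250, 65625), (375, 112500), (625, 103125)])))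
    (by decide +kernel) (yv_nonneg hd ha hb (le_refl 0) (le_refl 0) (le_refl 0) (le_refl 0) (le_refl 0) (le_refl 0))
    (by
      simp only [List.forall_mem_cons, exadd, exsub, exmul, exc, exv2, exv3, exv5]
      push_cast
      refine ⟨?_, ?_, ?_, ?_, ?_, ?_, ?_, ?_, fun _ hh => absurd hh List.not_mem_nil⟩
      · linarith only [hd]
      · linarith only [ha]
      · linarith only [hb]
      · linarith only [hd1]
      · linarith only [ha1]
      · linarith only [hb1]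
      · linarith only [hab]
      · linarith only [hlo]
    )
  simp only [exadd, exsub, exmul, exc, exv2, exv3, exv5] at h
  push_cast at h
  linarith only [h]

theorem x8ml {d a b : ℝ} (hd : 0 ≤ d) (ha : 0 ≤ a) (hb : 0 ≤ b) (hd1 : 0 ≤ 3 / 5 - d) (ha1 : 0 ≤ d - a) (hb1 : 0 ≤ d - b) (hab : 0 ≤ -d + a + b) (hlo : 0 ≤ -9 / 25 + d) :
    0 ≤ 541 / 3000 + 3 / 2 * d - 911 / 1000 * a - 911 / 1000 * b - 2 * d ^ 2 + d * a + d * b + 1 / 2 * a ^ 2 + a * b + 1 / 2 * b ^ 2 - 1 / 6 * d ^ 3 + 3 / 4 * d ^ 2 * a + 3 / 4 * d ^ 2 * b - 3 / 4 * d * a ^ 2 - d * a * b - 3 / 4 * d * b ^ 2 - 1 / 12 * a ^ 3 - 1 / 12 * b ^ 3 := by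
  have h := cert (y := yv d a b 0 0 0 0 0 0)
    (gs := [(.v 2),
      (.v 3),
      (.v 5),
      (.add (.c (3)) (.mul (.c (-5)) (.v 2))),
      (.add (.v 2) (.mul (.c (-1)) (.v 3))),
      (.add (.v 2) (.mul (.c (-1)) (.v 5))),
      (.add (.mul (.c (-1)) (.v 2)) (.add (.v 3) (.v 5))),
      (.add (.c (-9)) (.mul (.c (25)) (.v 2)))])
    (p := .mul (.c 3125000) (.add (.add (.add (.add (.c (541)) (.mul (.c (4500)) (.v 2))) (.add (.mul (.c (-2733)) (.v 3)) (.mul (.c (-6000)) (.mul (.v 2) (.v 2))))) (.add (.add (.mul (.c (-2733)) (.v 5)) (.mul (.c (3000)) (.mul (.v 2) (.v 3)))) (.add (.mul (.c (-500)) (.mul (.mul (.v 2) (.v 2)) (.v 2))) (.add (.mul (.c (1500)) (.mul (.v 3) (.v 3))) (.mul (.c (3000)) (.mul (.v 2) (.v 5))))))) (.add (.add (.add (.mul (.c (2250)) (.mul (.mul (.v 2) (.v 2)) (.v 3))) (.mul (.c (3000)) (.mul (.v 3) (.v 5)))) (.add (.mul (.c (-2250)) (.mul (.mul (.v 2) (.v 3)) (.v 3))) (.mul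 (.c (2250)) (.mul (.mul (.v 2) (.v 2)) (.v 5))))) (.add (.add (.mul (.c (1500)) (.mul (.v 5) (.v 5))) (.mul (.c (-250)) (.mul (.mul (.v 3) (.v 3)) (.v 3)))) (.add (.mul (.c (-3000)) (.mul (.mul (.v 2) (.v 3)) (.v 5))) (.add (.mul (.c (-2250)) (.mul (.mul (.v 2) (.v 5)) (.v 5))) (.mul (.c (-250)) (.mul (.mul (.v 5) (.v 5)) (.v 5)))))))))
    (e := (.add (.add (.mul (.g 4) (.add (.add (.pp [(1, 4087500)]) (.add (.mul (.g 4) (.add (.add (.mul (.g 3) (.add (.pp [(1, 1497005625)]) (.add (.mul (.g 3) (.pp [(1, 73524750)])) (.mul (.g 4) (.pp [(1, 266465625)]))))) (.mul (.g 1) (.add (.pp [(1, 315393750)]) (.mul (.g 1) (.pp [(1, 2158565625)]))))) (.add (.mul (.g 2) (.pp [(1, 891946875)])) (.mul (.g 4) (.mul (.g 5) (.pp [(1, 688303125)])))))) (.mul (.g 3) (.add (.pp [(1, 465631875)]) (.mul (.g 5) (.pp [(1, 1518277500)])))))) (.add (.add (.mul (.g 6) (.add (.pp [(1, 465337500)]) (.mul (.g 6) (.mul (.g 6) (.pp [(1,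 229462500)]))))) (.mul (.g 1) (.mul (.g 1) (.mul (.g 1) (.pp [(1, 1929196875)]))))) (.add (.mul (.g 2) (.mul (.g 2) (.mul (.g 2) (.pp [(1, 321103125)])))) (.mul (.g 5) (.pp [(1, 5619084375)])))))) (.add (.mul (.g 5) (.add (.add (.mul (.g 5) (.add (.add (.mul (.g 1) (.add (.pp [(1, 891946875)]) (.mul (.g 1) (.pp [(1, 413062500)])))) (.mul (.g 3) (.add (.pp [(1, 1663668750)]) (.mul (.g 3) (.pp [(1, 11034375)]))))) (.add (.mul (.g 2) (.mul (.g 5) (.pp [(1, 275334375)]))) (.mul (.g 6) (.mul (.g 6) (.pp [(1, 275240625)])))))) (.mul (.g 6) (.add (.pp [(1, 333675000)]) (.mul (.g 0) (.add (.mul (.g 0) (.pp [(1, 1102143750)])) (.mul (.g 6) (.pp [(1, 1101675000)]))))))) (.add (.mul (.g 2) (.mul (.g 2) (.pp [(1, 483993750)]))) (.mul (.g 3) (.pp [(1, 466995000)]))))) (.mul (.g 7) (.add (.add (.mul (.g 3) (.add (.add (.pp [(1, 19876875)]) (.mul (.g 2) (.mul (.g 2) (.pp [(1, 1103850)])))) (.add (.mul (.g 3) (.mul (.g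 3) (.pp [(1, 918246)]))) (.mul (.g 6) (.pp [(1, 142871175)]))))) (.mul (.g 6) (.add (.pp [(1, 364690500)]) (.mul (.g 6) (.mul (.g 6) (.pp [(1, 33038625)])))))) (.add (.mul (.g 0) (.mul (.g 0) (.mul (.g 0) (.pp [(1, 87204750)])))) (.mul (.g 2) (.mul (.g 2) (.pp [(1, 4381500)])))))))) (.pp [(1, 2450434403), (2, 85710), (3, 94350), (4, 116025), (5, 96225), (6, 83250), (8, 74000), (9, 97875), (10, 82125), (12, 111000), (15, 95625), (16, 103125), (18, 74625), (20, 105375), (24, 103125), (25, 96825), (27, 100750), (30, 89250), (36, 84375), (40, 103125), (45, 96000), (50, 88875), (54, 93750), (60, 46875), (75, 96000), (81, 93750), (90, 131250), (100, 84375), (125, 91375), (135, 84375), (150, 121875), (225, 84375), (250, 103125), (375, 84375), (625, 93750)])))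
    (by decide +kernel) (yv_nonneg hd ha hb (le_refl 0) (le_refl 0) (le_refl 0) (le_refl 0) (le_refl 0) (le_refl 0))
    (by
      simp only [List.forall_mem_cons, exadd, exsub, exmul, exc, exv2, exv3, exv5]
      push_cast
      refine ⟨?_, ?_, ?_, ?_, ?_, ?_, ?_, ?_, fun _ hh => absurd hh List.not_mem_nil⟩
      · linarith only [hd]
      · linarith only [ha]
      · linarith only [hb]
      · linarith only [hd1]
      · linarith only [ha1]
      · linarith only [hb1]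
      · linarith only [hab]
      · linarith only [hlo]
    )
  simp only [exadd, exsub, exmul, exc, exv2, exv3, exv5] at h
  push_cast at h
  linarith only [h]

theorem x9n {d q : ℝ} (hd : 0 ≤ d) (hq : 0 ≤ q) (hd1 : 0 ≤ 3 / 5 - d) (hdq : 0 ≤ -d + q) (hq1 : 0 ≤ 1 - q) (hlo : 0 ≤ -9 / 25 + d) :
    0 ≤ -2 / 75 + 7 / 4 * d - 41 / 50 * q - 3 / 4 * d ^ 2 + 3 / 4 * q ^ 2 - 1 / 12 * d ^ 3 + 1 / 2 * d ^ 2 * q - 3 / 4 * d * q ^ 2 := by
  have h := cert (y := yv d q 0 0 0 0 0 0 0)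
    (gs := [(.v 2),
      (.v 3),
      (.add (.c (3)) (.mul (.c (-5)) (.v 2))),
      (.add (.mul (.c (-1)) (.v 2)) (.v 3)),
      (.add (.c (1)) (.mul (.c (-1)) (.v 3))),
      (.add (.c (-9)) (.mul (.c (25)) (.v 2)))])
    (p := .mul (.c 6250000) (.add (.add (.add (.c (-8)) (.mul (.c (525)) (.v 2))) (.add (.mul (.c (-246)) (.v 3)) (.mul (.c (-225)) (.mul (.v 2) (.v 2))))) (.add (.add (.mul (.c (-25)) (.mul (.mul (.v 2) (.v 2)) (.v 2))) (.mul (.c (225)) (.mul (.v 3) (.v 3)))) (.add (.mul (.c (150)) (.mul (.mul (.v 2) (.v 2)) (.v 3))) (.mul (.c (-225)) (.mul (.mul (.v 2) (.v 3)) (.v 3)))))))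
    (e := (.add (.add (.mul (.g 5) (.add (.add (.pp [(1, 39048075)]) (.mul (.g 3) (.add (.pp [(1, 39373875)]) (.add (.mul (.g 3) (.add (.mul (.g 1) (.pp [(1, 19441500)])) (.mul (.g 2) (.pp [(1, 3911550)])))) (.mul (.g 5) (.pp [(1, 930234)])))))) (.add (.mul (.g 4) (.add (.pp [(1, 91938825)]) (.mul (.g 2) (.mul (.g 4) (.pp [(1, 5848155)]))))) (.add (.mul (.g 0) (.mul (.g 0) (.mul (.g 0) (.pp [(1, 4917525)])))) (.mul (.g 1) (.mul (.g 1) (.mul (.g 1) (.pp [(1, 52575)])))))))) (.add (.mul (.g 4) (.mul (.g 4) (.add (.mul (.g 4) (.add (.mul (.g 0) (.pp [(1, 312016875)])) (.add (.mul (.g 3) (.pp [(1, 1288590000)])) (.mul (.g 4) (.pp [(1, 922586250)]))))) (.mul (.g 0) (.mul (.g 2) (.pp [(1, 779250)])))))) (.mul (.g 3) (.mul (.g 3) (.mul (.g 3) (.mul (.g 3) (.pp [(1, 365985000)]))))))) (.pp [(1, 364196035), (2, 18354), (3, 21126), (4, 19050), (6, 18675), (8, 17975), (9, 14535), (12, 18000), (16, 20625), (18, 20025),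 (24, 15000), (27, 21675), (36, 24375), (54, 15000), (81, 18750)])))
    (by decide +kernel) (yv_nonneg hd hq (le_refl 0) (le_refl 0) (le_refl 0) (le_refl 0) (le_refl 0) (le_refl 0) (le_refl 0))
    (by
      simp only [List.forall_mem_cons, exadd, exsub, exmul, exc, exv2, exv3]
      push_cast
      refine ⟨?_, ?_, ?_, ?_, ?_, ?_, fun _ hh => absurd hh List.not_mem_nil⟩
      · linarith only [hd]
      · linarith only [hq]
      · linarith only [hd1]
      · linarith only [hdq]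
      · linarith only [hq1]
      · linarith only [hlo]
    )
  simp only [exadd, exsub, exmul, exc, exv2, exv3] at h
  push_cast at h
  linarith only [h]

theorem x9z1 {d q : ℝ} (hd : 0 ≤ d) (hq : 0 ≤ q) (hd1 : 0 ≤ 3 / 5 - d) (hdq : 0 ≤ d - q) (hlo : 0 ≤ -9 / 25 + d) :
    0 ≤ -2 / 75 + 3 / 2 * d - 57 / 100 * q - 5 / 4 * d ^ 2 + d * q + 1 / 4 * q ^ 2 + 1 / 4 * d ^ 2 * q - 1 / 2 * d * q ^ 2 - 1 / 12 * q ^ 3 := by
  have h := cert (y := yv d q 0 0 0 0 0 0 0)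
    (gs := [(.v 2),
      (.v 3),
      (.add (.c (3)) (.mul (.c (-5)) (.v 2))),
      (.add (.v 2) (.mul (.c (-1)) (.v 3))),
      (.add (.c (-9)) (.mul (.c (25)) (.v 2)))])
    (p := .mul (.c 31250000) (.add (.add (.add (.c (-8)) (.mul (.c (450)) (.v 2))) (.add (.mul (.c (-171)) (.v 3)) (.mul (.c (-375)) (.mul (.v 2) (.v 2))))) (.add (.add (.mul (.c (300)) (.mul (.v 2) (.v 3))) (.mul (.c (75)) (.mul (.v 3) (.v 3)))) (.add (.mul (.c (75)) (.mul (.mul (.v 2) (.v 2)) (.v 3))) (.add (.mul (.c (-150)) (.mul (.mul (.v 2) (.v 3)) (.v 3))) (.mul (.c (-25)) (.mul (.mul (.v 3) (.v 3)) (.v 3))))))))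
    (e := (.add (.add (.mul (.g 3) (.add (.add (.mul (.g 2) (.add (.pp [(1, 562578750)]) (.add (.mul (.g 3) (.add (.pp [(1, 1093899375)]) (.add (.mul (.g 2) (.pp [(1, 52071000)])) (.mul (.g 3) (.pp [(1, 260448750)]))))) (.mul (.g 2) (.mul (.g 2) (.pp [(1, 41669175)])))))) (.mul (.g 1) (.add (.pp [(1, 1406681250)]) (.mul (.g 1) (.mul (.g 1) (.pp [(1, 434240625)])))))) (.add (.mul (.g 0) (.mul (.g 0) (.mul (.g 0) (.pp [(1, 4775343750)])))) (.mul (.g 3) (.mul (.g 3) (.mul (.g 3) (.pp [(1, 434146875)]))))))) (.mul (.g 4) (.add (.pp [(1, 91776000)]) (.add (.mul (.g 2) (.add (.pp [(1, 89255550)]) (.add (.mul (.g 0) (.mul (.g 0) (.pp [(1, 3750)]))) (.mul (.g 4) (.pp [(1, 1000263)]))))) (.mul (.g 1) (.pp [(1, 281226750)])))))) (.pp [(1, 2742819941), (2, 91590), (3, 94725), (4, 105375), (6, 91875), (8, 88125), (9, 94125), (12, 99375), (16, 93750), (18, 88125), (24, 103125), (27, 96250), (36, 75000), (54, 103125),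 (81, 93750)])))
    (by decide +kernel) (yv_nonneg hd hq (le_refl 0) (le_refl 0) (le_refl 0) (le_refl 0) (le_refl 0) (le_refl 0) (le_refl 0))
    (by
      simp only [List.forall_mem_cons, exadd, exsub, exmul, exc, exv2, exv3]
      push_cast
      refine ⟨?_, ?_, ?_, ?_, ?_, fun _ hh => absurd hh List.not_mem_nil⟩
      · linarith only [hd]
      · linarith only [hq]
      · linarith only [hd1]
      · linarith only [hdq]
      · linarith only [hlo]
    )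
  simp only [exadd, exsub, exmul, exc, exv2, exv3] at h
  push_cast at h
  linarith only [h]

theorem x9z2 {d t w : ℝ} (hd : 0 ≤ d) (ht : 0 ≤ t) (hw : 0 ≤ w) (hd1 : 0 ≤ 3 / 5 - d) (ht1 : 0 ≤ 1 - d - t) (hwt : 0 ≤ d + t - w) (hw1 : 0 ≤ 13 / 20 - w) (hlo : 0 ≤ -9 / 25 + d) :
    0 ≤ -2 / 75 + 7 / 4 * d + 41 / 50 * t - 1 / 4 * w - 3 / 4 * d ^ 2 + 3 / 4 * t ^ 2 - 1 / 2 * w ^ 2 - 1 / 12 * d ^ 3 - 1 / 2 * d ^ 2 * t - 3 / 4 * d * t ^ 2 - 1 / 3 * t ^ 3 + 1 / 12 * w ^ 3 := by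
  have h := cert (y := yv d t w 0 0 0 0 0 0)
    (gs := [(.v 2),
      (.v 3),
      (.v 5),
      (.add (.c (3)) (.mul (.c (-5)) (.v 2))),
      (.add (.c (1)) (.add (.mul (.c (-1)) (.v 2)) (.mul (.c (-1)) (.v 3)))),
      (.add (.v 2) (.add (.v 3) (.mul (.c (-1)) (.v 5)))),
      (.add (.c (13)) (.mul (.c (-20)) (.v 5))),
      (.add (.c (-9)) (.mul (.c (25)) (.v 2)))])
    (p := .mul (.c 125000000) (.add (.add (.add (.c (-8)) (.add (.mul (.c (525)) (.v 2)) (.mul (.c (246)) (.v 3)))) (.add (.mul (.c (-225)) (.mul (.v 2) (.v 2))) (.add (.mul (.c (-75)) (.v 5)) (.mul (.c (-25)) (.mul (.mul (.v 2) (.v 2)) (.v 2)))))) (.add (.add (.mul (.c (225)) (.mul (.v 3) (.v 3))) (.add (.mul (.c (-150)) (.mul (.mul (.v 2) (.v 2)) (.v 3))) (.mul (.c (-225)) (.mul (.mul (.v 2) (.v 3)) (.v 3))))) (.add (.mul (.c (-150)) (.mul (.v 5) (.v 5))) (.add (.mul (.c (-100)) (.mul (.mul (.v 3) (.v 3)) (.v 3))) (.mul (.c (25)) (.mul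 (.mul (.v 5) (.v 5)) (.v 5))))))))
    (e := (.add (.add (.mul (.g 5) (.add (.add (.pp [(1, 10676700000)]) (.add (.mul (.g 2) (.add (.add (.pp [(1, 15839700000)]) (.mul (.g 6) (.add (.pp [(1, 184185000)]) (.mul (.g 2) (.pp [(1, 76951875)]))))) (.add (.mul (.g 4) (.mul (.g 4) (.pp [(1, 1535512500)]))) (.mul (.g 5) (.mul (.g 5) (.pp [(1, 3393037500)])))))) (.mul (.g 5) (.add (.mul (.g 0) (.add (.mul (.g 0) (.pp [(1, 5506125000)])) (.mul (.g 5) (.pp [(1, 112500)])))) (.add (.mul (.g 4) (.mul (.g 4) (.pp [(1, 592462500)]))) (.mul (.g 5) (.mul (.g 5) (.pp [(1, 1853625000)])))))))) (.add (.mul (.g 3) (.add (.mul (.g 0) (.pp [(1, 7731345000)])) (.mul (.g 3) (.mul (.g 3) (.pp [(1, 98906100)]))))) (.add (.mul (.g 4) (.add (.pp [(1, 1722750000)]) (.mul (.g 1) (.pp [(1, 31356450000)])))) (.mul (.g 7) (.pp [(1, 1018155000)])))))) (.add (.mul (.g 7) (.add (.mul (.g 4) (.add (.pp [(1, 839742000)]) (.mul (.g 4) (.add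 (.mul (.g 2) (.pp [(1, 440506500)])) (.add (.mul (.g 4) (.pp [(1, 491878500)])) (.mul (.g 7) (.pp [(1, 26732040)]))))))) (.add (.mul (.g 6) (.add (.mul (.g 6) (.add (.mul (.g 3) (.pp [(1, 110130)])) (.mul (.g 6) (.pp [(1, 6129)])))) (.add (.mul (.g 0) (.mul (.g 0) (.pp [(1, 17385525)]))) (.mul (.g 2) (.pp [(1, 13759425)]))))) (.mul (.g 3) (.add (.pp [(1, 76096800)]) (.mul (.g 3) (.pp [(1, 20701920)]))))))) (.mul (.g 1) (.add (.add (.mul (.g 1) (.add (.mul (.g 1) (.add (.add (.mul (.g 0) (.pp [(1, 18126187500)])) (.mul (.g 1) (.pp [(1, 13167600000)]))) (.add (.mul (.g 2) (.pp [(1, 3670500000)])) (.mul (.g 4) (.pp [(1, 15614062500)]))))) (.mul (.g 6) (.pp [(1, 1334553750)])))) (.mul (.g 2) (.add (.pp [(1, 3119512500)]) (.mul (.g 2) (.mul (.g 6) (.pp [(1, 61295625)])))))) (.add (.mul (.g 0) (.mul (.g 0) (.mul (.g 3) (.pp [(1, 991642500)])))) (.mul (.g 4) (.pp [(1, 8335275000)]))))))) (.pp [(1, 13174470287),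 (2, 440655), (3, 398280), (4, 276435), (5, 373185), (6, 263520), (8, 455875), (9, 338010), (10, 364875), (12, 541500), (15, 378000), (16, 375000), (18, 486000), (20, 361500), (24, 375000), (25, 374100), (27, 406000), (30, 342000), (36, 375000), (40, 300000), (45, 358500), (50, 388125), (54, 375000), (60, 225000), (75, 382500), (81, 375000), (90, 300000), (100, 450000), (125, 386375), (135, 375000), (150, 487500), (225, 412500), (250, 337500), (375, 337500), (625, 375000)])))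
    (by decide +kernel) (yv_nonneg hd ht hw (le_refl 0) (le_refl 0) (le_refl 0) (le_refl 0) (le_refl 0) (le_refl 0))
    (by
      simp only [List.forall_mem_cons, exadd, exsub, exmul, exc, exv2, exv3, exv5]
      push_cast
      refine ⟨?_, ?_, ?_, ?_, ?_, ?_, ?_, ?_, fun _ hh => absurd hh List.not_mem_nil⟩
      · linarith only [hd]
      · linarith only [ht]
      · linarith only [hw]
      · linarith only [hd1]
      · linarith only [ht1]
      · linarith only [hwt]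
      · linarith only [hw1]
      · linarith only [hlo]
    )
  simp only [exadd, exsub, exmul, exc, exv2, exv3, exv5] at h
  push_cast at h
  linarith only [h]

theorem x9m1 {d m q : ℝ} (hd : 0 ≤ d) (hm : 0 ≤ m) (hq : 0 ≤ q) (hd1 : 0 ≤ 3 / 5 - d) (hm1 : 0 ≤ d - m) (hq1 : 0 ≤ -d + m + q) (hq2 : 0 ≤ 1 - q) (hlo : 0 ≤ -9 / 25 + d) :
    0 ≤ 67 / 300 + 7 / 4 * d - 3 / 4 * m - 33 / 25 * q - 3 / 2 * d ^ 2 + d * m + 1 / 2 * m ^ 2 + m * q + q ^ 2 - 1 / 4 * d ^ 3 + 3 / 4 * d ^ 2 * m + d ^ 2 * q - 3 / 4 * d * m ^ 2 - d * m * q - d * q ^ 2 - 1 / 12 * m ^ 3 := by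
  have h := cert (y := yv d m q 0 0 0 0 0 0)
    (gs := [(.v 2),
      (.v 3),
      (.v 5),
      (.add (.c (3)) (.mul (.c (-5)) (.v 2))),
      (.add (.v 2) (.mul (.c (-1)) (.v 3))),
      (.add (.mul (.c (-1)) (.v 2)) (.add (.v 3) (.v 5))),
      (.add (.c (1)) (.mul (.c (-1)) (.v 5))),
      (.add (.c (-9)) (.mul (.c (25)) (.v 2)))])
    (p := .mul (.c 6250000) (.add (.add (.add (.add (.c (67)) (.mul (.c (525)) (.v 2))) (.add (.mul (.c (-225)) (.v 3)) (.mul (.c (-450)) (.mul (.v 2) (.v 2))))) (.add (.add (.mul (.c (-396)) (.v 5)) (.mul (.c (300)) (.mul (.v 2) (.v 3)))) (.add (.mul (.c (-75)) (.mul (.mul (.v 2) (.v 2)) (.v 2))) (.mul (.c (150)) (.mul (.v 3) (.v 3)))))) (.add (.add (.add (.mul (.c (225)) (.mul (.mul (.v 2) (.v 2)) (.v 3))) (.mul (.c (300)) (.mul (.v 3) (.v 5)))) (.add (.mul (.c (-225)) (.mul (.mul (.v 2) (.v 3)) (.v 3))) (.mul (.c (300)) (.mul (.mul (.v 2) (.v 2)) (.v 5))))) (.add (.add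 (.mul (.c (300)) (.mul (.v 5) (.v 5))) (.mul (.c (-25)) (.mul (.mul (.v 3) (.v 3)) (.v 3)))) (.add (.mul (.c (-300)) (.mul (.mul (.v 2) (.v 3)) (.v 5))) (.mul (.c (-300)) (.mul (.mul (.v 2) (.v 5)) (.v 5))))))))
    (e := (.add (.add (.add (.mul (.g 6) (.add (.mul (.g 6) (.add (.add (.mul (.g 6) (.add (.add (.mul (.g 2) (.pp [(1, 730773750)])) (.mul (.g 3) (.pp [(1, 361787250)]))) (.add (.mul (.g 4) (.pp [(1, 67218750)])) (.mul (.g 6) (.pp [(1, 238173750)]))))) (.mul (.g 4) (.add (.pp [(1, 1233264375)]) (.mul (.g 5) (.pp [(1, 982563750)]))))) (.add (.mul (.g 1) (.mul (.g 1) (.pp [(1, 1063610625)]))) (.add (.mul (.g 3) (.mul (.g 7) (.pp [(1, 8443995)]))) (.mul (.g 5) (.mul (.g 5) (.pp [(1, 332589375)]))))))) (.add (.mul (.g 7) (.add (.add (.pp [(1, 60391875)]) (.mul (.g 0) (.mul (.g 3) (.pp [(1, 358275)])))) (.add (.mul (.g 1) (.mul (.g 1) (.pp [(1, 2250)]))) (.mul (.g 2) (.mul (.g 5) (.pp [(1, 70950450)]))))))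 (.mul (.g 1) (.add (.mul (.g 4) (.mul (.g 4) (.pp [(1, 111174375)]))) (.mul (.g 5) (.mul (.g 5) (.pp [(1, 528813750)])))))))) (.mul (.g 1) (.add (.add (.mul (.g 1) (.add (.mul (.g 1) (.add (.mul (.g 0) (.pp [(1, 22338750)])) (.mul (.g 4) (.pp [(1, 22400625)])))) (.add (.mul (.g 3) (.pp [(1, 120376500)])) (.mul (.g 4) (.pp [(1, 730599375)]))))) (.mul (.g 2) (.mul (.g 2) (.add (.mul (.g 4) (.pp [(1, 454974375)])) (.add (.mul (.g 5) (.pp [(1, 138991875)])) (.mul (.g 7) (.pp [(1, 15204900)]))))))) (.add (.mul (.g 0) (.pp [(1, 622138125)])) (.add (.mul (.g 4) (.mul (.g 4) (.mul (.g 4) (.pp [(1, 137610000)])))) (.mul (.g 7) (.pp [(1, 12141000)]))))))) (.add (.mul (.g 7) (.add (.add (.mul (.g 3) (.add (.add (.pp [(1, 10664700)]) (.mul (.g 0) (.mul (.g 0) (.pp [(1, 179460)])))) (.add (.mul (.g 2) (.mul (.g 2) (.pp [(1, 3106335)]))) (.mul (.g 5) (.mul (.g 7) (.pp [(1, 14337)])))))) (.mul (.g 4) (.add (.mul (.g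 4) (.mul (.g 4) (.pp [(1, 1237650)]))) (.mul (.g 5) (.pp [(1, 18081525)]))))) (.add (.mul (.g 2) (.mul (.g 2) (.mul (.g 2) (.pp [(1, 5651475)])))) (.mul (.g 5) (.mul (.g 5) (.mul (.g 5) (.pp [(1, 8532900)]))))))) (.mul (.g 5) (.mul (.g 5) (.mul (.g 5) (.mul (.g 5) (.pp [(1, 159991875)]))))))) (.pp [(1, 154676140), (2, 20166), (3, 18234), (4, 18510), (5, 20004), (6, 17010), (8, 20175), (9, 20775), (10, 14610), (12, 17250), (15, 20325), (16, 18750), (18, 19500), (20, 16800), (24, 16875), (25, 17085), (27, 18500), (30, 25275), (36, 22500), (40, 18750), (45, 13050), (50, 23025), (54, 16875), (60, 20625), (75, 15225), (81, 18750), (90, 15000), (100, 20625), (125, 19575), (135, 20625), (150, 15000), (225, 22500), (250, 16875), (375, 20625), (625, 18750)])))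
    (by decide +kernel) (yv_nonneg hd hm hq (le_refl 0) (le_refl 0) (le_refl 0) (le_refl 0) (le_refl 0) (le_refl 0))
    (by
      simp only [List.forall_mem_cons, exadd, exsub, exmul, exc, exv2, exv3, exv5]
      push_cast
      refine ⟨?_, ?_, ?_, ?_, ?_, ?_, ?_, ?_, fun _ hh => absurd hh List.not_mem_nil⟩
      · linarith only [hd]
      · linarith only [hm]
      · linarith only [hq]
      · linarith only [hd1]
      · linarith only [hm1]
      · linarith only [hq1]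
      · linarith only [hq2]
      · linarith only [hlo]
    )
  simp only [exadd, exsub, exmul, exc, exv2, exv3, exv5] at h
  push_cast at h
  linarith only [h]

theorem x9m2 {d t q w : ℝ} (hd : 0 ≤ d) (ht : 0 ≤ t) (hq : 0 ≤ q) (hw : 0 ≤ w) (hd1 : 0 ≤ 3 / 5 - d) (ht1 : 0 ≤ 1 - d - t) (hq1 : 0 ≤ -d - t + q) (hq2 : 0 ≤ 1 - q) (hwt : 0 ≤ d + t - w) (hw1 : 0 ≤ 13 / 20 - w) (hlo : 0 ≤ -9 / 25 + d) :
    0 ≤ 67 / 300 + 2 * d + t - 33 / 25 * q - 1 / 4 * w - d ^ 2 + t ^ 2 - t * q + q ^ 2 - 1 / 2 * w ^ 2 - 1 / 3 * d ^ 3 - d ^ 2 * t + d ^ 2 * q - d * t ^ 2 + d * t * q - d * q ^ 2 - 1 / 3 * t ^ 3 + 1 / 12 * w ^ 3 := by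
  have h := cert (y := yv d t q w 0 0 0 0 0)
    (gs := [(.v 2),
      (.v 3),
      (.v 5),
      (.v 7),
      (.add (.c (3)) (.mul (.c (-5)) (.v 2))),
      (.add (.c (1)) (.add (.mul (.c (-1)) (.v 2)) (.mul (.c (-1)) (.v 3)))),
      (.add (.mul (.c (-1)) (.v 2)) (.add (.mul (.c (-1)) (.v 3)) (.v 5))),
      (.add (.c (1)) (.mul (.c (-1)) (.v 5))),
      (.add (.v 2) (.add (.v 3) (.mul (.c (-1)) (.v 7)))),
      (.add (.c (13)) (.mul (.c (-20)) (.v 7))),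
      (.add (.c (-9)) (.mul (.c (25)) (.v 2)))])
    (p := .mul (.c 10000000000) (.add (.add (.add (.add (.c (67)) (.mul (.c (600)) (.v 2))) (.add (.mul (.c (300)) (.v 3)) (.mul (.c (-300)) (.mul (.v 2) (.v 2))))) (.add (.add (.mul (.c (-396)) (.v 5)) (.mul (.c (-75)) (.v 7))) (.add (.mul (.c (-100)) (.mul (.mul (.v 2) (.v 2)) (.v 2))) (.add (.mul (.c (300)) (.mul (.v 3) (.v 3))) (.mul (.c (-300)) (.mul (.mul (.v 2) (.v 2)) (.v 3))))))) (.add (.add (.add (.mul (.c (-300)) (.mul (.v 3) (.v 5))) (.mul (.c (-300)) (.mul (.mul (.v 2) (.v 3)) (.v 3)))) (.add (.mul (.c (300)) (.mul (.mul (.v 2) (.v 2)) (.v 5))) (.mul (.c (300)) (.mul (.v 5) (.v 5))))) (.add (.add (.mul (.c (-100)) (.mul (.mul (.v 3) (.v 3)) (.v 3))) (.mul (.c (300)) (.mul (.mul (.v 2) (.v 3)) (.v 5)))) (.add (.mul (.c (-150)) (.mul (.v 7) (.v 7))) (.add (.mul (.c (-300)) (.mul (.mul (.v 2) (.v 5)) (.v 5))) (.mul (.c (25)) (.mul (.mul (.v 7)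 (.v 7)) (.v 7)))))))))
    (e := (.add (.add (.add (.mul (.g 8) (.add (.add (.add (.mul (.g 3) (.add (.add (.pp [(1, 1111800000000)]) (.add (.mul (.pp [(1, 20003100)]) (.sq [(1, -2), (2, 15), (3, -27), (5, 96), (7, 100)])) (.mul (.g 6) (.add (.mul (.g 1) (.pp [(1, 574347000000)])) (.mul (.g 8) (.pp [(1, 265134000000)])))))) (.add (.mul (.g 0) (.mul (.g 10) (.pp [(1, 10550160000)]))) (.add (.mul (.g 3) (.mul (.g 7) (.pp [(1, 1293636000000)]))) (.mul (.g 9) (.pp [(1, 83092050000)])))))) (.mul (.g 7) (.add (.add (.pp [(1, 1252125000000)]) (.add (.mul (.pp [(1, 16729200)]) (.sq [(1, 14), (2, 100), (3, -56), (5, -25), (7, -90)])) (.mul (.g 1) (.mul (.g 8) (.pp [(1, 220443000000)]))))) (.add (.mul (.g 2) (.mul (.g 2) (.pp [(1, 824544000000)]))) (.add (.mul (.g 4) (.mul (.g 7) (.pp [(1, 15211200000)]))) (.mul (.g 9) (.mul (.g 10) (.pp [(1, 2014836000)])))))))) (.add (.mul (.g 10) (.add (.add (.mul (.pp [(1,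 1266216)]) (.sq [(1, -100), (2, 55), (3, 38), (5, -100), (7, 25)])) (.mul (.pp [(1, 237744)]) (.sq [(1, 100), (2, 39), (3, -94), (5, -12), (7, -33)]))) (.add (.mul (.g 2) (.mul (.g 4) (.pp [(1, 3590904000)]))) (.mul (.g 6) (.pp [(1, 11638320000)]))))) (.mul (.g 5) (.add (.mul (.pp [(1, 7910100)]) (.sq [(1, 100), (2, 19), (3, 42), (5, -46), (7, 44)])) (.add (.mul (.pp [(1, 3935700)]) (.sq [(1, 25), (2, -15), (3, 100), (5, 16), (7, 20)])) (.mul (.g 2) (.mul (.g 9) (.pp [(1, 64853250000)])))))))) (.add (.add (.mul (.g 1) (.add (.pp [(1, 1087764000000)]) (.mul (.g 9) (.mul (.g 9) (.pp [(1, 1084642500)]))))) (.mul (.g 6) (.add (.mul (.pp [(1, 8271900)]) (.sq [(1, 100), (2, -7), (3, 68), (5, 94), (7, -52)])) (.mul (.g 6) (.mul (.g 9) (.pp [(1, 11738400000)])))))) (.add (.mul (.g 8) (.add (.mul (.pp [(1, 33992400)]) (.sq [(1, -10), (2, 43), (3, 6), (5, 100), (7, -74)])) (.mul (.pp [(1, 9597900)]) (.sq [(1, -100),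 (2, -61), (3, 97), (5, 14), (7, -38)])))) (.add (.mul (.g 0) (.mul (.pp [(1, 29328300)]) (.sq [(1, 100), (2, -71), (3, 16), (5, -84), (7, 82)]))) (.mul (.g 4) (.mul (.g 4) (.mul (.g 4) (.pp [(1, 2685480000)]))))))))) (.mul (.g 7) (.add (.add (.mul (.g 6) (.add (.add (.mul (.pp [(1, 9130800)]) (.sq [(1, 65), (2, 81), (3, -99), (5, -41), (7, 100)])) (.mul (.pp [(1, 916200)]) (.sq [(1, -56), (2, -100), (3, -53), (5, 73), (7, 7)]))) (.add (.mul (.g 6) (.add (.mul (.g 5) (.pp [(1, 17580000000)])) (.mul (.g 6) (.pp [(1, 145899000000)])))) (.add (.mul (.g 9) (.add (.mul (.g 3) (.pp [(1, 110275050000)])) (.mul (.g 9) (.pp [(1, 3421282500)])))) (.mul (.g 7) (.mul (.g 10) (.pp [(1, 27562200000)]))))))) (.add (.mul (.g 3) (.add (.add (.mul (.pp [(1, 48983100)]) (.sq [(1, -3), (2, 55), (3, -93), (5, 26), (7, -100)])) (.mul (.g 0) (.mul (.g 4) (.pp [(1, 396237600000)])))) (.add (.mul (.g 1) (.mul (.g 9) (.pp [(1,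 90830100000)]))) (.mul (.g 2) (.mul (.g 10) (.pp [(1, 72501480000)])))))) (.mul (.g 7) (.add (.pp [(1, 1934667000000)]) (.add (.mul (.pp [(1, 18798300)]) (.sq [(1, -75), (2, -6), (3, 100), (5, 94), (7, 94)])) (.mul (.g 1) (.mul (.g 9) (.pp [(1, 103294200000)])))))))) (.add (.add (.mul (.g 10) (.add (.pp [(1, 9301560000)]) (.mul (.pp [(1, 978996)]) (.sq [(2, -63), (3, 36), (5, 13), (7, 100)])))) (.mul (.g 0) (.mul (.pp [(1, 61591500)]) (.sq [(1, 1), (3, -45), (5, 100), (7, -54)])))) (.add (.mul (.g 4) (.mul (.pp [(1, 13675860)]) (.sq [(1, 21), (2, -61), (3, 12), (5, -49), (7, 100)]))) (.mul (.g 9) (.mul (.pp [(1, 11786640)]) (.sq [(1, 5), (2, 1), (3, 50), (5, 5), (7, -47)])))))))) (.add (.mul (.g 9) (.add (.add (.mul (.g 6) (.add (.add (.mul (.pp [(1, 596400)]) (.sq [(1, -11), (2, -16), (3, 89), (5, -65), (7, 100)])) (.mul (.pp [(1, 46033440)]) (.sq [(1, -1), (2, -12), (3, 25), (5, 4), (7, -23)]))) (.add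 (.mul (.pp [(1, 6907950)]) (.sq [(1, -17), (2, 100), (3, 56), (5, -83), (7, -2)])) (.add (.mul (.pp [(1, 993090)]) (.sq [(1, -18), (2, -22), (3, 68), (5, 79), (7, 100)])) (.mul (.g 3) (.mul (.g 6) (.pp [(1, 78441750000)]))))))) (.mul (.g 1) (.add (.pp [(1, 14967150000)]) (.add (.mul (.pp [(1, 371025)]) (.sq [(1, 95), (2, 100), (3, 62), (5, 100), (7, 62)])) (.mul (.g 1) (.mul (.g 4) (.pp [(1, 7310070000)]))))))) (.add (.mul (.g 0) (.add (.mul (.g 0) (.mul (.g 3) (.pp [(1, 23284650000)]))) (.mul (.g 4) (.pp [(1, 7093740000)])))) (.add (.mul (.g 5) (.add (.mul (.pp [(1, 253770)]) (.sq [(1, 100), (2, -77), (3, -73), (5, 11), (7, -45)])) (.mul (.pp [(1, 326820)]) (.sq [(1, 3), (2, 6), (3, 83), (5, 50), (7, 100)])))) (.mul (.g 10) (.add (.pp [(1, 2700612000)]) (.mul (.g 4) (.mul (.g 4) (.pp [(1, 59300640)]))))))))) (.mul (.g 10) (.add (.add (.mul (.g 6) (.add (.mul (.pp [(1, 122160)]) (.sq [(1, -100), (2, -61),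 (3, -74), (5, 11), (7, -43)])) (.add (.mul (.g 1) (.pp [(1, 12040440000)])) (.mul (.g 2) (.mul (.g 10) (.pp [(1, 140611200)])))))) (.mul (.g 0) (.add (.pp [(1, 428160000)]) (.mul (.g 3) (.pp [(1, 4193760000)]))))) (.add (.mul (.g 4) (.add (.mul (.pp [(1, 96)]) (.sq [(1, 56), (2, -59), (3, -9), (5, 4), (7, 100)])) (.mul (.g 2) (.mul (.g 10) (.pp [(1, 99840)]))))) (.mul (.g 5) (.pp [(1, 110116680000)]))))))) (.pp [(1, 27827870212), (2, 27360834), (3, 32627229), (4, 28558458), (5, 32598666), (6, 24421200), (7, 29675400), (8, 27724466), (9, 29808366), (10, 33083964), (12, 29214414), (14, 38065800), (15, 23799660), (16, 29613300), (18, 31819710), (20, 36578148), (21, 33034020), (24, 29607300), (25, 25253898), (27, 32591162), (28, 26204280), (30, 39591144), (35, 24887880), (36, 30961500), (40, 30344100), (42, 20907672), (45, 32083452), (49, 30521070), (50, 26831946), (54, 30282000), (56, 29650500), (60, 34476900),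 (63, 16509432), (70, 26274468), (75, 35776650), (81, 29314500), (84, 22561800), (90, 34935300), (98, 27733818), (100, 28674000), (105, 34333476), (125, 33050064), (126, 23839500), (135, 31735800), (140, 28225800), (147, 30019830), (150, 28942800), (175, 36844416), (189, 29476500), (196, 36306600), (210, 24821400), (225, 28719000), (245, 29897328), (250, 30150600), (294, 41603400), (315, 33126300), (343, 27567856), (350, 27642600), (375, 27175800), (441, 32782800), (490, 35849400), (525, 25969800), (625, 28525800), (686, 26696400), (735, 30430200), (875, 31598400), (1029, 30564600), (1225, 26466600), (1715, 31579200), (2401, 29250000)])))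
    (by decide +kernel) (yv_nonneg hd ht hq hw (le_refl 0) (le_refl 0) (le_refl 0) (le_refl 0) (le_refl 0))
    (by
      simp only [List.forall_mem_cons, exadd, exsub, exmul, exc, exv2, exv3, exv5, exv7]
      push_cast
      refine ⟨?_, ?_, ?_, ?_, ?_, ?_, ?_, ?_, ?_, ?_, ?_, fun _ hh => absurd hh List.not_mem_nil⟩
      · linarith only [hd]
      · linarith only [ht]
      · linarith only [hq]
      · linarith only [hw]
      · linarith only [hd1]
      · linarith only [ht1]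
      · linarith only [hq1]
      · linarith only [hq2]
      · linarith only [hwt]
      · linarith only [hw1]
      · linarith only [hlo]
    )
  simp only [exadd, exsub, exmul, exc, exv2, exv3, exv5, exv7] at h
  push_cast at h
  linarith only [h]

theorem x9zm {d a b : ℝ} (hd : 0 ≤ d) (ha : 0 ≤ a) (hb : 0 ≤ b) (hd1 : 0 ≤ 3 / 5 - d) (ha1 : 0 ≤ d - a) (hb1 : 0 ≤ d - b) (hab : 0 ≤ -d + a + b) (hlo : 0 ≤ -9 / 25 + d) :
    0 ≤ 67 / 300 + 3 / 2 * d - 107 / 100 * a - 3 / 4 * b - 2 * d ^ 2 + d * a + d * b + 1 / 2 * a ^ 2 + a * b + 1 / 2 * b ^ 2 - 1 / 6 * d ^ 3 + 3 / 4 * d ^ 2 * a + 3 / 4 * d ^ 2 * b - 3 / 4 * d * a ^ 2 - d * a * b - 3 / 4 * d * b ^ 2 - 1 / 12 * a ^ 3 - 1 / 12 * b ^ 3 := by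
  have h := cert (y := yv d a b 0 0 0 0 0 0)
    (gs := [(.v 2),
      (.v 3),
      (.v 5),
      (.add (.c (3)) (.mul (.c (-5)) (.v 2))),
      (.add (.v 2) (.mul (.c (-1)) (.v 3))),
      (.add (.v 2) (.mul (.c (-1)) (.v 5))),
      (.add (.mul (.c (-1)) (.v 2)) (.add (.v 3) (.v 5))),
      (.add (.c (-9)) (.mul (.c (25)) (.v 2)))])
    (p := .mul (.c 31250000) (.add (.add (.add (.add (.c (67)) (.mul (.c (450)) (.v 2))) (.add (.mul (.c (-321)) (.v 3)) (.mul (.c (-600)) (.mul (.v 2) (.v 2))))) (.add (.add (.mul (.c (-225)) (.v 5)) (.mul (.c (300)) (.mul (.v 2) (.v 3)))) (.add (.mul (.c (-50)) (.mul (.mul (.v 2) (.v 2)) (.v 2))) (.add (.mul (.c (150)) (.mul (.v 3) (.v 3))) (.mul (.c (300)) (.mul (.v 2) (.v 5))))))) (.add (.add (.add (.mul (.c (225)) (.mul (.mul (.v 2) (.v 2)) (.v 3))) (.mul (.c (300)) (.mul (.v 3) (.v 5)))) (.add (.mul (.c (-225)) (.mul (.mul (.v 2) (.v 3)) (.v 3))) (.mul (.c (225))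 (.mul (.mul (.v 2) (.v 2)) (.v 5))))) (.add (.add (.mul (.c (150)) (.mul (.v 5) (.v 5))) (.mul (.c (-25)) (.mul (.mul (.v 3) (.v 3)) (.v 3)))) (.add (.mul (.c (-300)) (.mul (.mul (.v 2) (.v 3)) (.v 5))) (.add (.mul (.c (-225)) (.mul (.mul (.v 2) (.v 5)) (.v 5))) (.mul (.c (-25)) (.mul (.mul (.v 5) (.v 5)) (.v 5)))))))))
    (e := (.add (.add (.add (.mul (.g 3) (.add (.add (.mul (.g 3) (.add (.add (.mul (.g 3) (.mul (.g 7) (.pp [(1, 109203)]))) (.mul (.g 4) (.mul (.g 4) (.pp [(1, 283642500)])))) (.add (.mul (.g 5) (.mul (.g 5) (.pp [(1, 120417750)]))) (.mul (.g 6) (.mul (.g 6) (.pp [(1, 110299500)])))))) (.add (.mul (.g 4) (.add (.pp [(1, 2012169375)]) (.mul (.g 4) (.mul (.g 4) (.pp [(1, 1499124375)]))))) (.mul (.g 5) (.add (.pp [(1, 981395625)]) (.mul (.g 5) (.pp [(1, 214102500)])))))) (.add (.add (.mul (.g 6) (.add (.mul (.g 6) (.mul (.g 6) (.pp [(1, 24065625)]))) (.mul (.g 7) (.pp [(1, 93680850)]))))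 (.mul (.g 0) (.mul (.g 0) (.mul (.g 0) (.pp [(1, 274535625)]))))) (.add (.mul (.g 1) (.mul (.g 1) (.mul (.g 1) (.pp [(1, 259393125)])))) (.mul (.g 7) (.pp [(1, 7337325)])))))) (.mul (.g 2) (.add (.add (.mul (.g 2) (.add (.add (.mul (.g 2) (.add (.mul (.g 5) (.pp [(1, 5990625)])) (.mul (.g 7) (.pp [(1, 1670250)])))) (.mul (.g 0) (.pp [(1, 122081250)]))) (.add (.mul (.g 1) (.mul (.g 1) (.pp [(1, 180356250)]))) (.mul (.g 5) (.pp [(1, 730162500)]))))) (.mul (.g 5) (.add (.pp [(1, 1726106250)]) (.mul (.g 5) (.mul (.g 5) (.pp [(1, 24131250)])))))) (.add (.mul (.g 1) (.mul (.g 4) (.pp [(1, 2973993750)]))) (.add (.mul (.g 6) (.mul (.g 6) (.mul (.g 6) (.pp [(1, 30028125)])))) (.mul (.g 7) (.pp [(1, 173085750)]))))))) (.add (.mul (.g 4) (.add (.add (.pp [(1, 1465453125)]) (.mul (.g 4) (.add (.mul (.g 4) (.add (.mul (.g 4) (.pp [(1, 2076281250)])) (.mul (.g 5) (.pp [(1, 120206250)])))) (.mul (.g 6) (.pp [(1, 2865646875)])))))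 (.add (.mul (.g 1) (.add (.pp [(1, 2552831250)]) (.mul (.g 1) (.mul (.g 1) (.pp [(1, 2106403125)]))))) (.mul (.g 6) (.mul (.g 6) (.mul (.g 6) (.pp [(1, 90178125)]))))))) (.mul (.g 6) (.add (.mul (.g 5) (.add (.mul (.g 0) (.mul (.g 0) (.pp [(1, 5876165625)]))) (.mul (.g 6) (.pp [(1, 108346875)])))) (.add (.mul (.g 1) (.mul (.g 1) (.mul (.g 1) (.pp [(1, 120206250)])))) (.mul (.g 6) (.pp [(1, 3694753125)]))))))) (.pp [(1, 2318394104), (2, 96255), (3, 94200), (4, 90450), (5, 91575), (6, 82125), (8, 95375), (9, 100125), (10, 101625), (12, 118125), (15, 102750), (16, 93750), (18, 75000), (20, 99375), (24, 84375), (25, 90375), (27, 100000), (30, 63750), (36, 93750), (40, 84375), (45, 103125), (50, 86250), (54, 93750), (60, 121875), (75, 103125), (81, 93750), (90, 84375), (100, 93750), (125, 94750), (135, 93750), (150, 84375), (225, 93750), (250, 93750), (375, 93750), (625, 93750)])))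
    (by decide +kernel) (yv_nonneg hd ha hb (le_refl 0) (le_refl 0) (le_refl 0) (le_refl 0) (le_refl 0) (le_refl 0))
    (by
      simp only [List.forall_mem_cons, exadd, exsub, exmul, exc, exv2, exv3, exv5]
      push_cast
      refine ⟨?_, ?_, ?_, ?_, ?_, ?_, ?_, ?_, fun _ hh => absurd hh List.not_mem_nil⟩
      · linarith only [hd]
      · linarith only [ha]
      · linarith only [hb]
      · linarith only [hd1]
      · linarith only [ha1]
      · linarith only [hb1]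
      · linarith only [hab]
      · linarith only [hlo]
    )
  simp only [exadd, exsub, exmul, exc, exv2, exv3, exv5] at h
  push_cast at h
  linarith only [h]

theorem x9ml {d a b : ℝ} (hd : 0 ≤ d) (ha : 0 ≤ a) (hb : 0 ≤ b) (hd1 : 0 ≤ 3 / 5 - d) (ha1 : 0 ≤ d - a) (hb1 : 0 ≤ d - b) (hab : 0 ≤ -d + a + b) (hlo : 0 ≤ -9 / 25 + d) :
    0 ≤ -29 / 300 + 59 / 50 * d - 43 / 100 * a - 43 / 100 * b - 2 * d ^ 2 + d * a + d * b + 1 / 2 * a ^ 2 + a * b + 1 / 2 * b ^ 2 - 1 / 6 * d ^ 3 + 3 / 4 * d ^ 2 * a + 3 / 4 * d ^ 2 * b - 3 / 4 * d * a ^ 2 - d * a * b - 3 / 4 * d * b ^ 2 - 1 / 12 * a ^ 3 - 1 / 12 * b ^ 3 := by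
  have h := cert (y := yv d a b 0 0 0 0 0 0)
    (gs := [(.v 2),
      (.v 3),
      (.v 5),
      (.add (.c (3)) (.mul (.c (-5)) (.v 2))),
      (.add (.v 2) (.mul (.c (-1)) (.v 3))),
      (.add (.v 2) (.mul (.c (-1)) (.v 5))),
      (.add (.mul (.c (-1)) (.v 2)) (.add (.v 3) (.v 5))),
      (.add (.c (-9)) (.mul (.c (25)) (.v 2)))])
    (p := .mul (.c 6250000) (.add (.add (.add (.add (.c (-29)) (.mul (.c (354)) (.v 2))) (.add (.mul (.c (-129)) (.v 3)) (.mul (.c (-600)) (.mul (.v 2) (.v 2))))) (.add (.add (.mul (.c (-129)) (.v 5)) (.mul (.c (300)) (.mul (.v 2) (.v 3)))) (.add (.mul (.c (-50)) (.mul (.mul (.v 2) (.v 2)) (.v 2))) (.add (.mul (.c (150)) (.mul (.v 3) (.v 3))) (.mul (.c (300)) (.mul (.v 2) (.v 5))))))) (.add (.add (.add (.mul (.c (225)) (.mul (.mul (.v 2) (.v 2)) (.v 3))) (.mul (.c (300)) (.mul (.v 3) (.v 5)))) (.add (.mul (.c (-225)) (.mul (.mul (.v 2) (.v 3)) (.v 3))) (.mul (.c (225))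 (.mul (.mul (.v 2) (.v 2)) (.v 5))))) (.add (.add (.mul (.c (150)) (.mul (.v 5) (.v 5))) (.mul (.c (-25)) (.mul (.mul (.v 3) (.v 3)) (.v 3)))) (.add (.mul (.c (-300)) (.mul (.mul (.v 2) (.v 3)) (.v 5))) (.add (.mul (.c (-225)) (.mul (.mul (.v 2) (.v 5)) (.v 5))) (.mul (.c (-25)) (.mul (.mul (.v 5) (.v 5)) (.v 5)))))))))
    (e := (.add (.add (.add (.mul (.g 6) (.add (.add (.mul (.g 6) (.add (.add (.pp [(1, 656235000)]) (.mul (.g 6) (.add (.mul (.g 3) (.pp [(1, 7875)])) (.add (.mul (.g 4) (.pp [(1, 9375)])) (.mul (.g 5) (.pp [(1, 9375)])))))) (.add (.mul (.g 3) (.mul (.g 3) (.pp [(1, 31251675)]))) (.mul (.g 5) (.pp [(1, 45000)]))))) (.mul (.g 4) (.add (.pp [(1, 1240276875)]) (.add (.mul (.g 1) (.add (.pp [(1, 45000)]) (.mul (.g 4) (.pp [(1, 16875)])))) (.mul (.g 0) (.mul (.g 0) (.pp [(1, 781400625)]))))))) (.add (.mul (.g 5) (.add (.mul (.g 0) (.mul (.g 0) (.pp [(1, 781314375)]))) (.mul (.g 2) (.mul (.g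 5) (.pp [(1, 16875)]))))) (.add (.mul (.g 7) (.add (.pp [(1, 45328200)]) (.mul (.g 3) (.pp [(1, 18503730)])))) (.mul (.g 1) (.pp [(1, 1015248750)])))))) (.mul (.g 7) (.add (.pp [(1, 7012425)]) (.add (.mul (.g 3) (.add (.add (.pp [(1, 11101560)]) (.add (.mul (.g 3) (.add (.mul (.g 4) (.pp [(1, 1250361)])) (.mul (.g 5) (.pp [(1, 1250439)])))) (.mul (.g 0) (.mul (.g 0) (.pp [(1, 6252405)]))))) (.add (.mul (.g 2) (.mul (.g 2) (.pp [(1, 135)]))) (.add (.mul (.g 4) (.pp [(1, 240)])) (.mul (.g 5) (.mul (.g 5) (.pp [(1, 540)]))))))) (.mul (.g 1) (.mul (.g 4) (.pp [(1, 25001175)]))))))) (.add (.mul (.g 2) (.add (.mul (.g 2) (.add (.mul (.g 5) (.add (.pp [(1, 156247500)]) (.mul (.g 2) (.pp [(1, 26250)])))) (.mul (.g 1) (.mul (.g 1) (.pp [(1, 33750)]))))) (.mul (.g 0) (.mul (.g 5) (.pp [(1, 625111875)]))))) (.mul (.g 4) (.add (.mul (.g 1) (.mul (.g 1) (.add (.pp [(1, 156247500)]) (.mul (.g 1) (.pp [(1, 26250)])))))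 (.mul (.g 5) (.pp [(1, 225011250)])))))) (.pp [(1, 181603945), (2, 18945), (3, 18789), (4, 17865), (5, 18951), (6, 21870), (8, 19225), (9, 17475), (10, 20070), (12, 18525), (15, 16725), (16, 20625), (18, 18000), (20, 19575), (24, 13125), (25, 18150), (27, 18875), (30, 17250), (36, 24375), (40, 13125), (45, 19125), (50, 19500), (54, 16875), (60, 30000), (75, 19125), (81, 18750), (90, 11250), (100, 22500), (125, 18875), (135, 20625), (150, 11250), (225, 22500), (250, 16875), (375, 20625), (625, 18750)])))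
    (by decide +kernel) (yv_nonneg hd ha hb (le_refl 0) (le_refl 0) (le_refl 0) (le_refl 0) (le_refl 0) (le_refl 0))
    (by
      simp only [List.forall_mem_cons, exadd, exsub, exmul, exc, exv2, exv3, exv5]
      push_cast
      refine ⟨?_, ?_, ?_, ?_, ?_, ?_, ?_, ?_, fun _ hh => absurd hh List.not_mem_nil⟩
      · linarith only [hd]
      · linarith only [ha]
      · linarith only [hb]
      · linarith only [hd1]
      · linarith only [ha1]
      · linarith only [hb1]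
      · linarith only [hab]
      · linarith only [hlo]
    )
  simp only [exadd, exsub, exmul, exc, exv2, exv3, exv5] at h
  push_cast at h
  linarith only [h]


end Pool.Agent.Helper74.TS.RX
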