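import Pool.Agent.Helper74.TS.RowGen
import Pool.Agent.Helper74.TS.RX

/-!
# More bounds for a good class
-/

set_option autoImplicit false

namespace Pool.Agent.Helper74.TS

open Pool.Agent.Helper84.TS Pool.Agent.Helper23.TS Pool.Agent.Helper36.TS Pool.Agent.Helper44.TS
open Pool.Agent.Helper74.TS.RX

theorem xx2 : RG (fun _ _ _ _ => True)
    (fun d _ b c => (4 / 5) + (-4 / 5) * d + (8 / 25) * b + (12 / 25) * c) where
  none d a b h0 h1 h2 h3 h4 hD := by
    beta_reduce at hD ⊢
    have := x2N (d := d) (a := a) (b := b) h0 (by linarith) (by linarith) (by linarith)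
      (by linarith) (by linarith) (by linarith)
    unfold bs
    linarith
  one1 := by
    refine ⟨fun d a b h0 h1 h2 h3 h4 h5 hD => ?_, fun d t b w h0 h1 h2 h3 h4 h5 h6 h7 h8 hD => ?_⟩
    · beta_reduce at hD ⊢
      have := x2P1 (d := d) (a := a) (b := b) h0 h2 (by linarith) (by linarith) (by linarith)
        (by linarith) (by linarith)
      unfold bs bb
      linarith
    · beta_reduce at hD ⊢
      have := x2Q1 (d := d) (t := t) (b := b) (w := w) h0 h2 (by linarith) h6 (by linarith)
        (by linarith) (by linarith) (by linarith) (by linarith) (by linarith)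
      unfold bs bb
      linarith
  one2 := by
    refine ⟨fun d a b h0 h1 h2 h3 h4 h5 hD => ?_, fun d t b w h0 h1 h2 h3 h4 h5 h6 h7 h8 hD => ?_⟩
    · beta_reduce at hD ⊢
      have := x2P2 (d := d) (a := a) (b := b) h0 h2 (by linarith) (by linarith) (by linarith)
        (by linarith) (by linarith)
      unfold bs bb
      linarith
    · beta_reduce at hD ⊢
      have := x2Q2 (d := d) (t := t) (b := b) (w := w) h0 h2 (by linarith) h6 (by linarith)
        (by linarith) (by linarith) (by linarith) (by linarith) (by linarith)
      unfold bs bb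
      linarith
  one3 := by
    refine ⟨fun d a b h0 h1 h2 h3 h4 h5 hD => ?_, fun d t b w h0 h1 h2 h3 h4 h5 h6 h7 h8 hD => ?_⟩
    · beta_reduce at hD ⊢
      have := x2P3 (d := d) (a := a) (b := b) h0 h2 (by linarith) (by linarith) (by linarith)
        (by linarith) (by linarith)
      unfold bs bb
      linarith
    · beta_reduce at hD ⊢
      have := x2Q3 (d := d) (t := t) (b := b) (w := w) h0 h2 (by linarith) h6 (by linarith)
        (by linarith) (by linarith) (by linarith) (by linarith) (by linarith)
      unfold bs bb
      linarith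
  two12 := by
    intro d a b h0 h1 h2 h3 h4 h5 h6 hD
    beta_reduce at hD ⊢
    have := x2T12 (d := d) (a := a) (b := b) h0 h2 h4 (by linarith) (by linarith) (by linarith)
      (by linarith)
    unfold bs bb
    linarith
  two13 := by
    intro d a b h0 h1 h2 h3 h4 h5 h6 hD
    beta_reduce at hD ⊢
    have := x2T13 (d := d) (a := a) (b := b) h0 h2 h4 (by linarith) (by linarith) (by linarith)
      (by linarith)
    unfold bs bb
    linarith
  two23 := by
    intro d a b h0 h1 h2 h3 h4 h5 h6 hD
    beta_reduce at hD ⊢
    have := x2T23 (d := d) (a := a) (b := b) h0 h2 h4 (by linarith) (by linarith) (by linarith)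
      (by linarith)
    unfold bs bb
    linarith
  three d a b h1 h2 h3 h4 h5 h6 h7 hD := by
    beta_reduce at hD ⊢
    linarith

theorem xx3 : RLc (99 / 125) (221 / 500) (63 / 500) (3 / 20) where
  n d q h0 h h1 h2 h3 := by
    have := x3n (d := d) (q := q) h0 (by linarith) (by linarith) (by linarith) (by linarith) (by linarith)
    unfold bs
    linarith
  z1 d q h0 h h1 h2 h3 := by
    have := x3z1 (d := d) (q := q) h0 h2 (by linarith) (by linarith) (by linarith)
    unfold bs bb
    linarith
  z2 d t w h0 h h1 h2 h3 h4 h5 h6 := by
    have := x3z2 (d := d) (t := t) (w := w) h0 h2 h4 (by linarith) (by linarith) (by linarith)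
      (by linarith) (by linarith)
    unfold bs bb
    linarith
  m1 d m q h0 h h1 h2 h3 h4 h5 := by
    have := x3m1 (d := d) (m := m) (q := q) h0 h2 (by linarith) (by linarith) (by linarith)
      (by linarith) (by linarith) (by linarith)
    unfold bs bb
    linarith
  m2 d t q w h0 h h1 h2 h3 h4 h5 h6 h7 h8 := by
    have := x3m2 (d := d) (t := t) (q := q) (w := w) h0 h2 (by linarith) h6 (by linarith)
      (by linarith) (by linarith) (by linarith) (by linarith) (by linarith) (by linarith)
    unfold bs bb
    linarith
  zm d a b h0 h h1 h2 h3 h4 h5 h6 := by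
    have := x3zm (d := d) (a := a) (b := b) h0 h2 h4 (by linarith) (by linarith) (by linarith)
      (by linarith) (by linarith)
    unfold bs bb
    linarith
  ml d a b h0 h h1 h2 h3 h4 h5 h6 := by
    have := x3ml (d := d) (a := a) (b := b) h0 h2 h4 (by linarith) (by linarith) (by linarith)
      (by linarith) (by linarith)
    unfold bs bb
    linarith
  zml d q h1 h2 h3 h4 := by linarith

theorem xx4 : RLc (233 / 250) (177 / 250) (79 / 250) (0) where
  n d q h0 _ h1 h2 h3 := by
    have := x4n (d := d) (q := q) h0 (by linarith) (by linarith) (by linarith) (by linarith)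
    unfold bs
    linarith
  z1 d q h0 _ h1 h2 h3 := by
    have := x4z1 (d := d) (q := q) h0 h2 (by linarith) (by linarith)
    unfold bs bb
    linarith
  z2 d t w h0 _ h1 h2 h3 h4 h5 h6 := by
    have := x4z2 (d := d) (t := t) (w := w) h0 h2 h4 (by linarith) (by linarith) (by linarith)
      (by linarith)
    unfold bs bb
    linarith
  m1 d m q h0 _ h1 h2 h3 h4 h5 := by
    have := x4m1 (d := d) (m := m) (q := q) h0 h2 (by linarith) (by linarith) (by linarith)
      (by linarith) (by linarith)
    unfold bs bb
    linarith
  m2 d t q w h0 _ h1 h2 h3 h4 h5 h6 h7 h8 := by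
    have := x4m2 (d := d) (t := t) (q := q) (w := w) h0 h2 (by linarith) h6 (by linarith)
      (by linarith) (by linarith) (by linarith) (by linarith) (by linarith)
    unfold bs bb
    linarith
  zm d a b h0 _ h1 h2 h3 h4 h5 h6 := by
    have := x4zm (d := d) (a := a) (b := b) h0 h2 h4 (by linarith) (by linarith) (by linarith)
      (by linarith)
    unfold bs bb
    linarith
  ml d a b h0 _ h1 h2 h3 h4 h5 h6 := by
    have := x4ml (d := d) (a := a) (b := b) h0 h2 h4 (by linarith) (by linarith) (by linarith)
      (by linarith)
    unfold bs bb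
    linarith
  zml d q h1 h2 h3 h4 := by linarith

theorem xx5 : RG (fun _ _ _ _ => True)
    (fun d a _ c => (583 / 500) + (-63 / 500) * d + (63 / 500) * a + (-49 / 125) * c) where
  none d a b h0 h1 h2 h3 h4 hD := by
    beta_reduce at hD ⊢
    have := x5N (d := d) (a := a) (b := b) h0 (by linarith) (by linarith) (by linarith)
      (by linarith) (by linarith) (by linarith)
    unfold bs
    linarith
  one1 := by
    refine ⟨fun d a b h0 h1 h2 h3 h4 h5 hD => ?_, fun d t b w h0 h1 h2 h3 h4 h5 h6 h7 h8 hD => ?_⟩
    · beta_reduce at hD ⊢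
      have := x5P1 (d := d) (a := a) (b := b) h0 h2 (by linarith) (by linarith) (by linarith)
        (by linarith) (by linarith)
      unfold bs bb
      linarith
    · beta_reduce at hD ⊢
      have := x5Q1 (d := d) (t := t) (b := b) (w := w) h0 h2 (by linarith) h6 (by linarith)
        (by linarith) (by linarith) (by linarith) (by linarith) (by linarith)
      unfold bs bb
      linarith
  one2 := by
    refine ⟨fun d a b h0 h1 h2 h3 h4 h5 hD => ?_, fun d t b w h0 h1 h2 h3 h4 h5 h6 h7 h8 hD => ?_⟩
    · beta_reduce at hD ⊢
      have := x5P2 (d := d) (a := a) (b := b) h0 h2 (by linarith) (by linarith) (by linarith)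
        (by linarith) (by linarith)
      unfold bs bb
      linarith
    · beta_reduce at hD ⊢
      have := x5Q2 (d := d) (t := t) (b := b) (w := w) h0 h2 (by linarith) h6 (by linarith)
        (by linarith) (by linarith) (by linarith) (by linarith) (by linarith)
      unfold bs bb
      linarith
  one3 := by
    refine ⟨fun d a b h0 h1 h2 h3 h4 h5 hD => ?_, fun d t b w h0 h1 h2 h3 h4 h5 h6 h7 h8 hD => ?_⟩
    · beta_reduce at hD ⊢
      have := x5P3 (d := d) (a := a) (b := b) h0 h2 (by linarith) (by linarith) (by linarith)
        (by linarith) (by linarith)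
      unfold bs bb
      linarith
    · beta_reduce at hD ⊢
      have := x5Q3 (d := d) (t := t) (b := b) (w := w) h0 h2 (by linarith) h6 (by linarith)
        (by linarith) (by linarith) (by linarith) (by linarith) (by linarith)
      unfold bs bb
      linarith
  two12 := by
    intro d a b h0 h1 h2 h3 h4 h5 h6 hD
    beta_reduce at hD ⊢
    have := x5T12 (d := d) (a := a) (b := b) h0 h2 h4 (by linarith) (by linarith) (by linarith)
      (by linarith)
    unfold bs bb
    linarith
  two13 := by
    intro d a b h0 h1 h2 h3 h4 h5 h6 hD
    beta_reduce at hD ⊢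
    have := x5T13 (d := d) (a := a) (b := b) h0 h2 h4 (by linarith) (by linarith) (by linarith)
      (by linarith)
    unfold bs bb
    linarith
  two23 := by
    intro d a b h0 h1 h2 h3 h4 h5 h6 hD
    beta_reduce at hD ⊢
    have := x5T23 (d := d) (a := a) (b := b) h0 h2 h4 (by linarith) (by linarith) (by linarith)
      (by linarith)
    unfold bs bb
    linarith
  three d a b h1 h2 h3 h4 h5 h6 h7 hD := by
    beta_reduce at hD ⊢
    linarith

theorem xx7 : RG (fun _ _ _ _ => True)
    (fun d _ b c => (171 / 200) + (-283 / 500) * d + (161 / 1000) * b + (81 / 200) * c) where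
  none d a b h0 h1 h2 h3 h4 hD := by
    beta_reduce at hD ⊢
    have := x7N (d := d) (a := a) (b := b) h0 (by linarith) (by linarith) (by linarith)
      (by linarith) (by linarith) (by linarith)
    unfold bs
    linarith
  one1 := by
    refine ⟨fun d a b h0 h1 h2 h3 h4 h5 hD => ?_, fun d t b w h0 h1 h2 h3 h4 h5 h6 h7 h8 hD => ?_⟩
    · beta_reduce at hD ⊢
      have := x7P1 (d := d) (a := a) (b := b) h0 h2 (by linarith) (by linarith) (by linarith)
        (by linarith) (by linarith)
      unfold bs bb
      linarith
    · beta_reduce at hD ⊢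
      have := x7Q1 (d := d) (t := t) (b := b) (w := w) h0 h2 (by linarith) h6 (by linarith)
        (by linarith) (by linarith) (by linarith) (by linarith) (by linarith)
      unfold bs bb
      linarith
  one2 := by
    refine ⟨fun d a b h0 h1 h2 h3 h4 h5 hD => ?_, fun d t b w h0 h1 h2 h3 h4 h5 h6 h7 h8 hD => ?_⟩
    · beta_reduce at hD ⊢
      have := x7P2 (d := d) (a := a) (b := b) h0 h2 (by linarith) (by linarith) (by linarith)
        (by linarith) (by linarith)
      unfold bs bb
      linarith
    · beta_reduce at hD ⊢
      have := x7Q2 (d := d) (t := t) (b := b) (w := w) h0 h2 (by linarith) h6 (by linarith)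
        (by linarith) (by linarith) (by linarith) (by linarith) (by linarith)
      unfold bs bb
      linarith
  one3 := by
    refine ⟨fun d a b h0 h1 h2 h3 h4 h5 hD => ?_, fun d t b w h0 h1 h2 h3 h4 h5 h6 h7 h8 hD => ?_⟩
    · beta_reduce at hD ⊢
      have := x7P3 (d := d) (a := a) (b := b) h0 h2 (by linarith) (by linarith) (by linarith)
        (by linarith) (by linarith)
      unfold bs bb
      linarith
    · beta_reduce at hD ⊢
      have := x7Q3 (d := d) (t := t) (b := b) (w := w) h0 h2 (by linarith) h6 (by linarith)
        (by linarith) (by linarith) (by linarith) (by linarith) (by linarith)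
      unfold bs bb
      linarith
  two12 := by
    intro d a b h0 h1 h2 h3 h4 h5 h6 hD
    beta_reduce at hD ⊢
    have := x7T12 (d := d) (a := a) (b := b) h0 h2 h4 (by linarith) (by linarith) (by linarith)
      (by linarith)
    unfold bs bb
    linarith
  two13 := by
    intro d a b h0 h1 h2 h3 h4 h5 h6 hD
    beta_reduce at hD ⊢
    have := x7T13 (d := d) (a := a) (b := b) h0 h2 h4 (by linarith) (by linarith) (by linarith)
      (by linarith)
    unfold bs bb
    linarith
  two23 := by
    intro d a b h0 h1 h2 h3 h4 h5 h6 hD
    beta_reduce at hD ⊢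
    have := x7T23 (d := d) (a := a) (b := b) h0 h2 h4 (by linarith) (by linarith) (by linarith)
      (by linarith)
    unfold bs bb
    linarith
  three d a b h1 h2 h3 h4 h5 h6 h7 hD := by
    beta_reduce at hD ⊢
    linarith

theorem xx8 : RLc (343 / 500) (161 / 1000) (161 / 1000) (9 / 25) where
  n d q h0 h h1 h2 h3 := by
    have := x8n (d := d) (q := q) h0 (by linarith) (by linarith) (by linarith) (by linarith) (by linarith)
    unfold bs
    linarith
  z1 d q h0 h h1 h2 h3 := by
    have := x8z1 (d := d) (q := q) h0 h2 (by linarith) (by linarith) (by linarith)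
    unfold bs bb
    linarith
  z2 d t w h0 h h1 h2 h3 h4 h5 h6 := by
    have := x8z2 (d := d) (t := t) (w := w) h0 h2 h4 (by linarith) (by linarith) (by linarith)
      (by linarith) (by linarith)
    unfold bs bb
    linarith
  m1 d m q h0 h h1 h2 h3 h4 h5 := by
    have := x8m1 (d := d) (m := m) (q := q) h0 h2 (by linarith) (by linarith) (by linarith)
      (by linarith) (by linarith) (by linarith)
    unfold bs bb
    linarith
  m2 d t q w h0 h h1 h2 h3 h4 h5 h6 h7 h8 := by
    have := x8m2 (d := d) (t := t) (q := q) (w := w) h0 h2 (by linarith) h6 (by linarith)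
      (by linarith) (by linarith) (by linarith) (by linarith) (by linarith) (by linarith)
    unfold bs bb
    linarith
  zm d a b h0 h h1 h2 h3 h4 h5 h6 := by
    have := x8zm (d := d) (a := a) (b := b) h0 h2 h4 (by linarith) (by linarith) (by linarith)
      (by linarith) (by linarith)
    unfold bs bb
    linarith
  ml d a b h0 h h1 h2 h3 h4 h5 h6 := by
    have := x8ml (d := d) (a := a) (b := b) h0 h2 h4 (by linarith) (by linarith) (by linarith)
      (by linarith) (by linarith)
    unfold bs bb
    linarith
  zml d q h1 h2 h3 h4 := by linarith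

theorem xx9 : RLc (89 / 100) (0) (-8 / 25) (9 / 25) where
  n d q h0 h h1 h2 h3 := by
    have := x9n (d := d) (q := q) h0 (by linarith) (by linarith) (by linarith) (by linarith) (by linarith)
    unfold bs
    linarith
  z1 d q h0 h h1 h2 h3 := by
    have := x9z1 (d := d) (q := q) h0 h2 (by linarith) (by linarith) (by linarith)
    unfold bs bb
    linarith
  z2 d t w h0 h h1 h2 h3 h4 h5 h6 := by
    have := x9z2 (d := d) (t := t) (w := w) h0 h2 h4 (by linarith) (by linarith) (by linarith)
      (by linarith) (by linarith)
    unfold bs bb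
    linarith
  m1 d m q h0 h h1 h2 h3 h4 h5 := by
    have := x9m1 (d := d) (m := m) (q := q) h0 h2 (by linarith) (by linarith) (by linarith)
      (by linarith) (by linarith) (by linarith)
    unfold bs bb
    linarith
  m2 d t q w h0 h h1 h2 h3 h4 h5 h6 h7 h8 := by
    have := x9m2 (d := d) (t := t) (q := q) (w := w) h0 h2 (by linarith) h6 (by linarith)
      (by linarith) (by linarith) (by linarith) (by linarith) (by linarith) (by linarith)
    unfold bs bb
    linarith
  zm d a b h0 h h1 h2 h3 h4 h5 h6 := by
    have := x9zm (d := d) (a := a) (b := b) h0 h2 h4 (by linarith) (by linarith) (by linarith)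
      (by linarith) (by linarith)
    unfold bs bb
    linarith
  ml d a b h0 h h1 h2 h3 h4 h5 h6 := by
    have := x9ml (d := d) (a := a) (b := b) h0 h2 h4 (by linarith) (by linarith) (by linarith)
      (by linarith) (by linarith)
    unfold bs bb
    linarith
  zml d q h1 h2 h3 h4 := by linarith

end Pool.Agent.Helper74.TS
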