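import Pool.Agent.Helper74.TS.OneLowD
import Pool.Agent.Helper74.TS.RowNum2

/-!
# `CaseOneLow`, `S = {p, r}`: bounds for the heights

In the case `OL2B` (`S = {p, r}`, `r` lowest in the column `s`) the sum is at most `613/200` if
`3/20 ≤ d_p` or `9/25 ≤ d_s`. The number `u^r_s ≤ d_p + d_r - 9/20` is `cap_rs`.
-/

set_option autoImplicit false

namespace Pool.Agent.Helper74.TS

open Pool.Agent.Helper84.TS Pool.Agent.Helper23.TS Pool.Agent.Helper36.TS Pool.Agent.Helper44.TS

section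

variable {A : Fin 4 → Fin 4 → Option (Fin 4 → ℝ)} {P : Fin 4 → Fin 4 → ℝ} {a p r s : Fin 4}

/-- the entry of `r` in the column `s` -/
theorem OLB.cap_rs (h : OLB A P a) (hn : [a, p, r, s].Nodup) (hp : 9 / 20 ≤ -P p a)
    (hr : 9 / 20 ≤ -P r a) (ho : -P r s ≤ -P p s) :
    -P r s ≤ (P p p - 1) + (P r r - 1) - 9 / 20 := by
  have h1 := h.pair hn
  have h2 : 9 / 20 ≤ min (-P p a) (-P r a) := le_min hp hr
  rw [min_eq_right ho] at h1
  linarith

/-- a bound for `p` -/
theorem OLB.row_p (h : OLB A P a) {x : Fin 4} (hx : x ≠ a) (hlo : 3 / 20 ≤ P x x - 1) :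
    VV A x ≤ 423 / 500 - 12 / 25 * (P x x - 1) := by
  have d1 := h.hd x hx
  have d0 := h.d0 hx
  rcases le_total (P x x - 1) (3 / 10) with h1 | h1
  · rcases good_or h.of (i := x) ⟨P x, h.mn x hx, d1, fun j F => h.hw x j F hx⟩ (h.mn x hx)
      with h2 | h2
    · nlinarith [mul_nonneg (by linarith : 0 ≤ (P x x - 1) - 3 / 20)
        (by linarith : 0 ≤ 3 / 5 - (P x x - 1))]
    · linarith
  · have := h.row3 hx h1
    linarith

theorem OLB.rowx2 (h : OLB A P a) {x i j k : Fin 4} (hx : x ≠ a) (hn : [x, i, j, k].Nodup) :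
    VV A x ≤ 4 / 5 - 4 / 5 * (P x x - 1) + 8 / 25 * (-P x j) + 12 / 25 * (-P x k) := by
  have := row_gen xx2 h.of hn (h.mn x hx) (h.hd x hx) (fun j F => h.hw x j F hx) trivial
  linarith

theorem OLB.rowx5 (h : OLB A P a) {x i j k : Fin 4} (hx : x ≠ a) (hn : [x, i, j, k].Nodup) :
    VV A x ≤ 583 / 500 - 63 / 500 * (P x x - 1) + 63 / 500 * (-P x i) - 49 / 125 * (-P x k) := by
  have := row_gen xx5 h.of hn (h.mn x hx) (h.hd x hx) (fun j F => h.hw x j F hx) trivial
  linarith

theorem OLB.rowx7 (h : OLB A P a) {x i j k : Fin 4} (hx : x ≠ a) (hn : [x, i, j, k].Nodup) :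
    VV A x ≤ 171 / 200 - 283 / 500 * (P x x - 1) + 161 / 1000 * (-P x j)
      + 81 / 200 * (-P x k) := by
  have := row_gen xx7 h.of hn (h.mn x hx) (h.hd x hx) (fun j F => h.hw x j F hx) trivial
  linarith

theorem OLB.rowx3 (h : OLB A P a) {x z : Fin 4} (hx : x ≠ a) (hz : z ≠ x)
    (hlo : 3 / 20 ≤ P x x - 1) :
    VV A x ≤ 99 / 125 - 221 / 500 * (P x x - 1) + 63 / 500 * (-P x z) :=
  row_lin xx3 h.of hz (h.mn x hx) (h.hd x hx) hlo fun j F => h.hw x j F hx

theorem OLB.rowx4 (h : OLB A P a) {x z : Fin 4} (hx : x ≠ a) (hz : z ≠ x) :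
    VV A x ≤ 233 / 250 - 177 / 250 * (P x x - 1) + 79 / 250 * (-P x z) :=
  row_lin xx4 h.of hz (h.mn x hx) (h.hd x hx) (h.d0 hx) fun j F => h.hw x j F hx

theorem OLB.rowx8 (h : OLB A P a) {x z : Fin 4} (hx : x ≠ a) (hz : z ≠ x)
    (hlo : 9 / 25 ≤ P x x - 1) :
    VV A x ≤ 343 / 500 - 161 / 1000 * (P x x - 1) + 161 / 1000 * (-P x z) :=
  row_lin xx8 h.of hz (h.mn x hx) (h.hd x hx) hlo fun j F => h.hw x j F hx

theorem OLB.rowx9 (h : OLB A P a) {x z : Fin 4} (hx : x ≠ a) (hz : z ≠ x)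
    (hlo : 9 / 25 ≤ P x x - 1) : VV A x ≤ 89 / 100 - 8 / 25 * (-P x z) := by
  have := row_lin xx9 h.of hz (h.mn x hx) (h.hd x hx) hlo fun j F => h.hw x j F hx
  linarith

/-- the height of `p` is small -/
theorem OLB.two_dp (h : OLB A P a) (hn : [a, p, r, s].Nodup) (hp : 9 / 20 ≤ -P p a)
    (hr : 9 / 20 ≤ -P r a) (hs : -P s a < 9 / 20) (ho : -P r s ≤ -P p s)
    (hd : 3 / 20 ≤ P p p - 1) : ∑ i, VV A i ≤ 613 / 200 := by
  have n := nodup_ne hn
  have e : ∑ i, VV A i = VV A a + VV A p + VV A r + VV A s := sum4 hn _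
  have n1 : [a, p, s, r].Nodup := by
    clear * - hn; revert hn; revert a p r s; decide
  have n2 : [a, r, s, p].Nodup := by
    clear * - hn; revert hn; revert a p r s; decide
  have nr : [r, a, p, s].Nodup := by
    clear * - hn; revert hn; revert a p r s; decide
  have ns : [s, a, p, r].Nodup := by
    clear * - hn; revert hn; revert a p r s; decide
  have hrp : r ≠ p := by
    clear * - hn; revert hn; revert a p r s; decide
  have hrs : r ≠ s := by
    clear * - hn; revert hn; revert a p r s; decide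
  have ha := h.low_le
  have dr := h.d0 n.2.1
  have ds := h.d0 n.2.2
  have dp1 := h.hd p n.1
  have c1 := h.cap_rs hn hp hr ho
  have c2 := h.pair n1
  rw [min_eq_right (by linarith : -P s a ≤ -P p a)] at c2
  have c3 := h.pair n2
  rw [min_eq_right (by linarith : -P s a ≤ -P r a)] at c3
  have vp := h.row_p n.1 hd
  have vs := h.row1 n.2.2 n.2.2.symm
  rw [e]
  rcases le_total (-P r p) (-P s p) with h3 | h3
  · rw [min_eq_left h3] at c3
    have vr := h.rowx2 n.2.1 nr
    linarith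
  · rw [min_eq_right h3] at c3
    have es := h.sum (x := s) (y := p) (z := r) (by
      clear * - hn; revert hn; revert a p r s; decide)
    rcases le_total (-P p r) (-P s r) with h2 | h2
    · rw [min_eq_left h2] at c2
      have vp' := h.rowx3 n.1 hrp hd
      have vr := h.rowx4 n.2.1 hrs.symm
      have vs' := h.rowx5 n.2.2 ns
      linarith
    · rw [min_eq_right h2] at c2
      have vr := h.row1 n.2.1 hrs.symm
      linarith

/-- the height of `s` is small -/
theorem OLB.two_ds (h : OLB A P a) (hn : [a, p, r, s].Nodup) (hp : 9 / 20 ≤ -P p a)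
    (hr : 9 / 20 ≤ -P r a) (hs : -P s a < 9 / 20) (ho : -P r s ≤ -P p s)
    (hd : 9 / 25 ≤ P s s - 1) : ∑ i, VV A i ≤ 613 / 200 := by
  have n := nodup_ne hn
  have e : ∑ i, VV A i = VV A a + VV A p + VV A r + VV A s := sum4 hn _
  have n2 : [a, r, s, p].Nodup := by
    clear * - hn; revert hn; revert a p r s; decide
  have nr : [r, a, p, s].Nodup := by
    clear * - hn; revert hn; revert a p r s; decide
  have hrs : r ≠ s := by
    clear * - hn; revert hn; revert a p r s; decide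
  have ha := h.low_le
  have dp := h.d0 n.1
  have dr := h.d0 n.2.1
  have dp1 := h.hd p n.1
  have ds1 := h.hd s n.2.2
  have c1 := h.cap_rs hn hp hr ho
  have c3 := h.pair n2
  rw [min_eq_right (by linarith : -P s a ≤ -P r a)] at c3
  have vp : VV A p ≤ 1 - 81 / 200 * (P p p - 1) := by
    rcases h.lin_or n.1 with h1 | h1 <;> linarith
  rw [e]
  rcases le_total (-P r p) (-P s p) with h3 | h3
  · rw [min_eq_left h3] at c3
    have vr := h.rowx7 n.2.1 nr
    have vs := h.rowx8 n.2.2 n.2.2.symm hd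
    linarith
  · rw [min_eq_right h3] at c3
    have es := h.sum (x := s) (y := p) (z := r) (by
      clear * - hn; revert hn; revert a p r s; decide)
    have vr := h.row1 n.2.1 hrs.symm
    have vs := h.rowx9 n.2.2 hrs hd
    linarith

end

/-- `OL2B` with small heights of `p` and `s` -/
def OL2C : Prop := ∀ (A : Fin 4 → Fin 4 → Option (Fin 4 → ℝ)) (P : Fin 4 → Fin 4 → ℝ)
  (a p r s : Fin 4), OLB A P a → [a, p, r, s].Nodup → Hsm P p r s → InS A P a p → InS A P a r →
  ¬ InS A P a s → -P s a < 9 / 20 → -P r s ≤ -P p s → P p p - 1 < 3 / 20 → P s s - 1 < 9 / 25 →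
  -P r s ≤ (P p p - 1) + (P r r - 1) - 9 / 20 → ∑ i, VV A i ≤ 613 / 200

theorem ol2B_of_C (H : OL2C) : OL2B := by
  intro A P a p r s h hn hsm kp kr ks hs ho
  have hp := kp.big h
  have hr := kr.big h
  rcases le_or_gt (3 / 20) (P p p - 1) with h1 | h1
  · exact h.two_dp hn hp.le hr.le hs ho h1
  rcases le_or_gt (9 / 25) (P s s - 1) with h2 | h2
  · exact h.two_ds hn hp.le hr.le hs ho h2
  · exact H A P a p r s h hn hsm kp kr ks hs ho h1 h2 (h.cap_rs hn hp.le hr.le ho)

end Pool.Agent.Helper74.TS
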