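import Pool.Agent.Helper84.TS.Cases
import Pool.Agent.Helper90.TS.FarLike

/-!
# `CaseOneLow`: the split by the kinds of the far cells of the low class

`a`: the class of kind `R2`; `p`, `r`, `s`: the three good classes with main cells `P p`, `P r`, `P s`;
`u^x_m = -P x m`, `d_x = P x x - 1`. A far cell `C = (a; z)` with `d_C < 11/20` is of kind B on the row
`x` if its cap is violated; then `u^x_a ≥ 1 - d_C > 9/20`. `S` is the set of the rows that see a cell of
kind B. The case `S = {p}` is split by the orders in the columns.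
-/

set_option autoImplicit false

namespace Pool.Agent.Helper74.TS

open Pool.Agent.Helper84.TS Pool.Agent.Helper23.TS Pool.Agent.Helper36.TS Pool.Agent.Helper90.TS

/-- the family of `CaseOneLow`: `a` is the low class -/
structure OLB (A : Fin 4 → Fin 4 → Option (Fin 4 → ℝ)) (P : Fin 4 → Fin 4 → ℝ) (a : Fin 4) :
    Prop where
  of : OF A
  low : R2 A a
  mn : ∀ x, x ≠ a → A x x = some (P x)
  hd : ∀ x, x ≠ a → P x x - 1 < 3 / 5
  hw : ∀ x j F, x ≠ a → j ≠ x → A x j = some F → 2 + F j ≤ 13 / 20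

/-- the far cell `C = (a; z)` with `d_C < 11/20` is of kind B on the row `x` (`y` the third row) -/
structure KB (A : Fin 4 → Fin 4 → Option (Fin 4 → ℝ)) (P : Fin 4 → Fin 4 → ℝ) (a z x y : Fin 4)
    (C : Fin 4 → ℝ) : Prop where
  hn : [a, z, x, y].Nodup
  hC : A a z = some C
  hd : C a - 1 < 11 / 20
  cap : (C y + (C a - 1)) + (P x x - 1) < -P x z

/-- the row `x` sees a cell of kind B -/
def InS (A : Fin 4 → Fin 4 → Option (Fin 4 → ℝ)) (P : Fin 4 → Fin 4 → ℝ) (a x : Fin 4) : Prop :=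
  ∃ z y C, KB A P a z x y C

section

variable {A : Fin 4 → Fin 4 → Option (Fin 4 → ℝ)} {P : Fin 4 → Fin 4 → ℝ} {a : Fin 4}

/-- the consequences of kind B -/
theorem KB.out (h : OLB A P a) {z x y : Fin 4} {C : Fin 4 → ℝ} (k : KB A P a z x y C) :
    -P x z + -P x y ≤ (C a - 1) + (P x x - 1) ∧ 1 - (C a - 1) ≤ -P x a ∧ 0 ≤ C a - 1 := by
  have hza : z ≠ a := (nodup_ne k.hn).1
  have hxa : x ≠ a := (nodup_ne k.hn).2.1
  have hnx : [x, z, a, y].Nodup := by
    have := k.hn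
    clear * - this; revert this; revert a z x y; decide
  have hzx : z ≠ x := (nodup_ne hnx).1
  have hs : Sep C (P x) := h.of.sep a z x x C (P x) k.hC (h.mn x hxa)
    (fun e => hxa (by rw [Prod.mk.injEq] at e; exact e.1.symm))
  have hcC := h.of.cell a z C k.hC
  have hcx := h.of.cell x x _ (h.mn x hxa)
  have h1 := h.of.main x _ (h.mn x hxa) z hzx
  have h2 := h.of.far a z C hza k.hC
  have h0 := (cell_lin hcC k.hn).2.1
  rcases wk_cap_le hcC hcx k.hn hs (by linarith) with h3 | h3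
  · exact absurd h3 (not_le.2 k.cap)
  · exact ⟨h3.1, h3.2, by linarith⟩

/-- a row of `S` has a large entry in the column `a` -/
theorem InS.big (h : OLB A P a) {x : Fin 4} (k : InS A P a x) : 9 / 20 < -P x a := by
  obtain ⟨z, y, C, k⟩ := k
  have := k.out h
  have := k.hd
  linarith

theorem notInS {x : Fin 4} (k : ¬ InS A P a x) {z y : Fin 4} (hn : [a, z, x, y].Nodup)
    {C : Fin 4 → ℝ} (hC : A a z = some C) (hd : C a - 1 < 11 / 20) :
    -P x z ≤ (C y + (C a - 1)) + (P x x - 1) := by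
  by_contra hcon
  exact k ⟨z, y, C, hn, hC, hd, not_le.1 hcon⟩

/-- the pair inequality of two rows -/
theorem OLB.pair (h : OLB A P a) {x y z : Fin 4} (hn : [a, x, y, z].Nodup) :
    min (-P x a) (-P y a) + min (-P x z) (-P y z) ≤ (P x x - 1) + (P y y - 1) := by
  have n := nodup_ne hn
  have hn' : [x, y, a, z].Nodup := by
    clear * - hn; revert hn; revert a x y z; decide
  have hxy : x ≠ y := by
    clear * - hn; revert hn; revert a x y z; decide
  have hs : Sep (P x) (P y) := h.of.sep x x y y (P x) (P y) (h.mn x n.1) (h.mn y n.2.1)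
    (fun e => hxy (by rw [Prod.mk.injEq] at e; exact e.1))
  have := (sep_min (h.of.cell x x _ (h.mn x n.1)) (h.of.cell y y _ (h.mn y n.2.1)) hn').1 hs
  linarith

/-- the three entries of a row have the sum `1 + d` -/
theorem OLB.sum (h : OLB A P a) {x y z : Fin 4} (hn : [a, x, y, z].Nodup) :
    -P x a + -P x y + -P x z = 1 + (P x x - 1) := by
  have n := nodup_ne hn
  have hn' : [x, a, y, z].Nodup := by
    clear * - hn; revert hn; revert a x y z; decide
  have := (cell_lin (h.of.cell x x _ (h.mn x n.1)) hn').1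
  linarith

end

/-! ### The cases -/

/-- `S` is empty -/
def OL0 : Prop := ∀ (A : Fin 4 → Fin 4 → Option (Fin 4 → ℝ)) (P : Fin 4 → Fin 4 → ℝ)
  (a p r s : Fin 4), OLB A P a → [a, p, r, s].Nodup → (∀ x, ¬ InS A P a x) →
  ∑ i, VV A i ≤ 613 / 200

/-- `S = {p}`, the entry of `r` in the column `a` is larger than the one of `p` -/
def OL1n : Prop := ∀ (A : Fin 4 → Fin 4 → Option (Fin 4 → ℝ)) (P : Fin 4 → Fin 4 → ℝ)
  (a p r s : Fin 4), OLB A P a → [a, p, r, s].Nodup → InS A P a p → ¬ InS A P a r →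
  ¬ InS A P a s → -P p a < -P r a → ∑ i, VV A i ≤ 613 / 200

/-- `S = {p}`, `p` is largest in the column `a`, `r` and `s` are of kind A -/
def OL1AA : Prop := ∀ (A : Fin 4 → Fin 4 → Option (Fin 4 → ℝ)) (P : Fin 4 → Fin 4 → ℝ)
  (a p r s : Fin 4), OLB A P a → [a, p, r, s].Nodup → InS A P a p → ¬ InS A P a r →
  ¬ InS A P a s → -P r a ≤ -P p a → -P s a ≤ -P p a → -P p s ≤ -P r s → -P p r ≤ -P s r →
  ∑ i, VV A i ≤ 613 / 200

/-- `S = {p}`, `p` is largest in the column `a`, `r` is of kind B and `s` of kind A -/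
def OL1BA : Prop := ∀ (A : Fin 4 → Fin 4 → Option (Fin 4 → ℝ)) (P : Fin 4 → Fin 4 → ℝ)
  (a p r s : Fin 4), OLB A P a → [a, p, r, s].Nodup → InS A P a p → ¬ InS A P a r →
  ¬ InS A P a s → -P r a ≤ -P p a → -P s a ≤ -P p a → -P r s ≤ -P p s → -P p r ≤ -P s r →
  ∑ i, VV A i ≤ 613 / 200

/-- `S = {p}`, `p` is largest in the column `a`, `r` and `s` are of kind B -/
def OL1BB : Prop := ∀ (A : Fin 4 → Fin 4 → Option (Fin 4 → ℝ)) (P : Fin 4 → Fin 4 → ℝ)
  (a p r s : Fin 4), OLB A P a → [a, p, r, s].Nodup → InS A P a p → ¬ InS A P a r →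
  ¬ InS A P a s → -P r a ≤ -P p a → -P s a ≤ -P p a → -P r s ≤ -P p s → -P s r ≤ -P p r →
  ∑ i, VV A i ≤ 613 / 200

/-- `S = {p, r}` -/
def OL2 : Prop := ∀ (A : Fin 4 → Fin 4 → Option (Fin 4 → ℝ)) (P : Fin 4 → Fin 4 → ℝ)
  (a p r s : Fin 4), OLB A P a → [a, p, r, s].Nodup → InS A P a p → InS A P a r →
  ¬ InS A P a s → -P r a ≤ -P p a → ∑ i, VV A i ≤ 613 / 200

/-- `S = {p, r, s}` -/
def OL3 : Prop := ∀ (A : Fin 4 → Fin 4 → Option (Fin 4 → ℝ)) (P : Fin 4 → Fin 4 → ℝ)
  (a p r s : Fin 4), OLB A P a → [a, p, r, s].Nodup → InS A P a p → InS A P a r →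
  InS A P a s → -P s a ≤ -P r a → -P r a ≤ -P p a → ∑ i, VV A i ≤ 613 / 200

private theorem sw1 : ∀ {a p r s : Fin 4}, [a, p, r, s].Nodup → [a, p, s, r].Nodup := by decide

private theorem sw2 : ∀ {a p r s : Fin 4}, [a, p, r, s].Nodup → [a, r, p, s].Nodup := by decide

/-- a class of the family is not seen as a row if it is `a` -/
theorem not_inS_self {A : Fin 4 → Fin 4 → Option (Fin 4 → ℝ)} {P : Fin 4 → Fin 4 → ℝ} {a : Fin 4} :
    ¬ InS A P a a := by
  rintro ⟨z, y, C, k⟩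
  exact (nodup_ne k.hn).2.1 rfl

section

variable {A : Fin 4 → Fin 4 → Option (Fin 4 → ℝ)} {P : Fin 4 → Fin 4 → ℝ} {a : Fin 4}

/-- the case `S = {p}` -/
theorem one_case (h1n : OL1n) (hAA : OL1AA) (hBA : OL1BA) (hBB : OL1BB) (h : OLB A P a)
    {p r s : Fin 4} (hn : [a, p, r, s].Nodup) (kp : InS A P a p) (kr : ¬ InS A P a r)
    (ks : ¬ InS A P a s) : ∑ i, VV A i ≤ 613 / 200 := by
  rcases lt_or_ge (-P p a) (-P r a) with h1 | h1
  · exact h1n A P a p r s h hn kp kr ks h1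
  rcases lt_or_ge (-P p a) (-P s a) with h2 | h2
  · exact h1n A P a p s r h (sw1 hn) kp ks kr h2
  rcases le_total (-P p s) (-P r s) with h3 | h3 <;> rcases le_total (-P p r) (-P s r) with h4 | h4
  · exact hAA A P a p r s h hn kp kr ks h1 h2 h3 h4
  · exact hBA A P a p s r h (sw1 hn) kp ks kr h2 h1 h4 h3
  · exact hBA A P a p r s h hn kp kr ks h1 h2 h3 h4
  · exact hBB A P a p r s h hn kp kr ks h1 h2 h3 h4

/-- the case `S = {p, r}` -/
theorem two_case (h2 : OL2) (h : OLB A P a) {p r s : Fin 4} (hn : [a, p, r, s].Nodup)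
    (kp : InS A P a p) (kr : InS A P a r) (ks : ¬ InS A P a s) : ∑ i, VV A i ≤ 613 / 200 := by
  rcases le_total (-P r a) (-P p a) with h1 | h1
  · exact h2 A P a p r s h hn kp kr ks h1
  · exact h2 A P a r p s h (sw2 hn) kr kp ks h1

/-- the case `S = {p, r, s}` -/
theorem three_case (h3 : OL3) (h : OLB A P a) {p r s : Fin 4} (hn : [a, p, r, s].Nodup)
    (kp : InS A P a p) (kr : InS A P a r) (ks : InS A P a s) : ∑ i, VV A i ≤ 613 / 200 := by
  rcases le_total (-P r a) (-P p a) with h1 | h1 <;> rcases le_total (-P s a) (-P r a) with h2 | h2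
    <;> rcases le_total (-P s a) (-P p a) with h4 | h4
  · exact h3 A P a p r s h hn kp kr ks h2 h1
  · exact h3 A P a p r s h hn kp kr ks h2 h1
  · exact h3 A P a p s r h (sw1 hn) kp ks kr h2 h4
  · exact h3 A P a s p r h (sw2 (sw1 hn)) ks kp kr h1 h4
  · exact h3 A P a r p s h (sw2 hn) kr kp ks h4 h1
  · exact h3 A P a r s p h (sw1 (sw2 hn)) kr ks kp h4 h2
  · exact h3 A P a s r p h (sw1 (sw2 (sw1 hn))) ks kr kp h1 h2
  · exact h3 A P a s r p h (sw1 (sw2 (sw1 hn))) ks kr kp h1 h2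

/-- **All cases.** -/
theorem ol_all (h0 : OL0) (h1n : OL1n) (hAA : OL1AA) (hBA : OL1BA) (hBB : OL1BB) (h2 : OL2)
    (h3 : OL3) (h : OLB A P a) {b c l : Fin 4} (hn : [a, b, c, l].Nodup) :
    ∑ i, VV A i ≤ 613 / 200 := by
  by_cases kb : InS A P a b <;> by_cases kc : InS A P a c <;> by_cases kl : InS A P a l
  · exact three_case h3 h hn kb kc kl
  · exact two_case h2 h hn kb kc kl
  · exact two_case h2 h (sw1 hn) kb kl kc
  · exact one_case h1n hAA hBA hBB h hn kb kc kl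
  · exact two_case h2 h (sw1 (sw2 hn)) kc kl kb
  · exact one_case h1n hAA hBA hBB h (sw2 hn) kc kb kl
  · exact one_case h1n hAA hBA hBB h (sw2 (sw1 hn)) kl kb kc
  · refine h0 A P a b c l h hn fun x hx => ?_
    rcases mem4 hn x with rfl | rfl | rfl | rfl
    · exact not_inS_self hx
    · exact kb hx
    · exact kc hx
    · exact kl hx

end

/-- **`CaseOneLow` from its cases.** -/
theorem caseOneLow_of (h0 : OL0) (h1n : OL1n) (hAA : OL1AA) (hBA : OL1BA) (hBB : OL1BB)
    (h2 : OL2) (h3 : OL3) : CaseOneLow := by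
  classical
  intro A hA a b c l hn ha hb hc hl
  have hgood : ∀ x, x ≠ a → Good A x := by
    intro x hx
    rcases mem4 hn x with rfl | rfl | rfl | rfl
    · exact absurd rfl hx
    · exact hb
    · exact hc
    · exact hl
  obtain ⟨P, hP⟩ : ∃ P : Fin 4 → Fin 4 → ℝ, ∀ x, x ≠ a → A x x = some (P x) ∧ P x x - 1 < 3 / 5 ∧
      ∀ j F, j ≠ x → A x j = some F → 2 + F j ≤ 13 / 20 := by
    refine ⟨fun x => if hx : x = a then 0 else (hgood x hx).choose, fun x hx => ?_⟩
    simp only [dif_neg hx]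
    exact (hgood x hx).choose_spec
  exact ol_all h0 h1n hAA hBA hBB h2 h3
    ⟨hA, ha, fun x hx => (hP x hx).1, fun x hx => (hP x hx).2.1,
      fun x j F hx hj hF => (hP x hx).2.2 j F hj hF⟩ hn

end Pool.Agent.Helper74.TS
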