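import Pool.Agent.Helper83.TS.Defs

/-!
# Lemmas on the volume of a far cell and on slots, for the generic column
-/

set_option autoImplicit false

namespace Pool.Agent.Helper74.TS

open Pool.Agent.Helper36.TS Pool.Agent.Helper83.TS

/-- the far cell has `w ≤ 13/20` and `w ≤ s ≤ 1` -/
structure Dm (w s : ℝ) : Prop where
  w0 : 0 ≤ w
  w1 : w ≤ 13 / 20
  ws : w ≤ s
  s1 : s ≤ 1

/-- an entry with its multiplier -/
structure En (c d u : ℝ) : Prop where
  hc : 0 ≤ c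
  d0 : 0 ≤ d
  d1 : d ≤ 3 / 5
  lo : -(1 - d) ≤ u
  hi : u ≤ 1

/-! ### The volume -/

/-- (a) -/
theorem vl_a {w A B : ℝ} (hA : 0 ≤ A) (hAB : A ≤ B) (hAw : A ≤ w) (hs : w ≤ A + B) :
    vl w A B ≤ w * A * B - w ^ 2 * A / 3 := by
  obtain ⟨p, hp⟩ : ∃ p, p = w - A := ⟨_, rfl⟩
  obtain ⟨q, hq⟩ : ∃ q, q = max (w - B) 0 := ⟨_, rfl⟩
  have p0 : 0 ≤ p := by linarith
  have q0 : 0 ≤ q := by rw [hq]; exact le_max_right _ _
  have qp : q ≤ p := by rw [hq]; exact max_le (by linarith) p0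
  have pq : p + q ≤ w := by
    rw [hq]
    rcases le_total (w - B) 0 with h | h
    · rw [max_eq_right h]; linarith
    · rw [max_eq_left h]; linarith
  have h1 : p ^ 3 + q ^ 3 ≤ p * (p + q) ^ 2 := by
    nlinarith [mul_nonneg (mul_nonneg q0 q0) (sub_nonneg.2 qp), mul_nonneg (mul_nonneg p0 p0) q0,
      mul_nonneg (mul_nonneg p0 q0) q0]
  have h2 : p * (p + q) ^ 2 ≤ p * w ^ 2 :=
    mul_le_mul_of_nonneg_left (pow_le_pow_left₀ (by linarith) pq 2) p0
  rw [vl, ← hp, ← hq, max_eq_left p0]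
  have h3 : p * w ^ 2 = w ^ 3 - w ^ 2 * A := by rw [hp]; ring
  linarith

/-- (a), the other variable -/
theorem vl_a' {w A B : ℝ} (hB : 0 ≤ B) (hAB : B ≤ A) (hBw : B ≤ w) (hs : w ≤ A + B) :
    vl w A B ≤ w * A * B - w ^ 2 * B / 3 := by
  have := vl_a hB hAB hBw (by linarith : w ≤ B + A)
  rw [vl_comm w B A] at this
  linarith

/-- (b) -/
theorem vl_b {w A B : ℝ} (hA : w ≤ A) (hB : w ≤ B) : vl w A B = w * A * B - w ^ 3 / 3 := by
  rw [vl, max_eq_right (by linarith : w - A ≤ 0), max_eq_right (by linarith : w - B ≤ 0)]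
  ring

/-- (c) the second part -/
theorem wA_vm {w A : ℝ} (w0 : 0 ≤ w) (w1 : w ≤ 13 / 20) (hAw : A ≤ w) :
    w * A * (1 + w - A) - w ^ 2 * A / 3 ≤ vm w := by
  have h1 : 0 ≤ w * ((1 - w) / 2 + (w - A)) ^ 2 - w * (w * (w - A) / 3) := by
    have h2 : 0 ≤ ((1 - w) / 2 + (w - A)) ^ 2 - w * (w - A) / 3 := by
      nlinarith [sq_nonneg ((1 - w) / 2 - (w - A)), mul_nonneg (sub_nonneg.2 hAw)
        (by linarith : 0 ≤ 13 / 20 - w), mul_nonneg w0 (sub_nonneg.2 hAw)]
    have := mul_nonneg w0 h2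
    linarith
  unfold vm
  nlinarith [h1]

/-- (c) -/
theorem vl_vm {w A B : ℝ} (w0 : 0 ≤ w) (w1 : w ≤ 13 / 20) (hA : 0 ≤ A) (hB : 0 ≤ B)
    (hs : w ≤ A + B) (h : A + B ≤ 1 + w) : vl w A B ≤ vm w := by
  rcases le_total w A with h1 | h1
  · rcases le_total w B with h2 | h2
    · rw [vl_b h1 h2, vm]
      have h3 : A * B ≤ (1 + w) ^ 2 / 4 := by nlinarith [sq_nonneg (A - B)]
      have := mul_le_mul_of_nonneg_left h3 w0
      linarith
    · have h3 := vl_a' (w := w) hB (h2.trans h1) h2 hs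
      have h4 := wA_vm w0 w1 h2
      have h5 : w * B * A ≤ w * B * (1 + w - B) :=
        mul_le_mul_of_nonneg_left (by linarith) (mul_nonneg w0 hB)
      linarith
  · rcases le_total A B with h2 | h2
    · have h3 := vl_a (w := w) hA h2 h1 hs
      have h4 := wA_vm w0 w1 h1
      have h5 : w * A * B ≤ w * A * (1 + w - A) :=
        mul_le_mul_of_nonneg_left (by linarith) (mul_nonneg w0 hA)
      linarith
    · have h3 := vl_a' (w := w) hB h2 (h2.trans h1) hs
      have h4 := wA_vm w0 w1 (h2.trans h1)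
      have h5 : w * B * A ≤ w * B * (1 + w - B) :=
        mul_le_mul_of_nonneg_left (by linarith) (mul_nonneg w0 hB)
      linarith

private theorem cube_conv74' (x y : ℝ) :
    (max x 0) ^ 3 - (max y 0) ^ 3 ≤ 3 * (max x 0) ^ 2 * (x - y) := by
  rcases le_total x 0 with hx | hx
  · rw [max_eq_right hx]
    have := pow_nonneg (le_max_right y 0) 3
    nlinarith
  · rw [max_eq_left hx]
    rcases le_total y 0 with hy | hy
    · rw [max_eq_right hy]
      nlinarith [mul_nonneg (mul_nonneg hx hx) (neg_nonneg.2 hy), mul_nonneg hx (mul_nonneg hx hx)]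
    · rw [max_eq_left hy]
      nlinarith [mul_nonneg hx (sq_nonneg (x - y)), mul_nonneg hy (sq_nonneg (x - y))]

/-- (d) convexity in the second variable -/
theorem vl_conv {w A B t1 t2 K r W' : ℝ} (h1 : t1 ≤ B) (h2 : B ≤ t2)
    (e1 : vl w A t1 - K * (r + t1) ≤ W') (e2 : vl w A t2 - K * (r + t2) ≤ W') :
    vl w A B - K * (r + B) ≤ W' := by
  have c1 := cube_conv74' (w - B) (w - t1)
  have c2 := cube_conv74' (w - B) (w - t2)
  rcases le_total 0 (w * A - (max (w - B) 0) ^ 2 - K) with h | h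
  · have h3 := mul_nonneg h (sub_nonneg.2 h2)
    refine le_trans ?_ e2
    unfold vl
    nlinarith
  · have h3 := mul_nonneg (neg_nonneg.2 h) (sub_nonneg.2 h1)
    refine le_trans ?_ e1
    unfold vl
    nlinarith

/-- (d) convexity in the first variable -/
theorem vl_conv' {w A B t1 t2 K r W' : ℝ} (h1 : t1 ≤ A) (h2 : A ≤ t2)
    (e1 : vl w t1 B - K * (r + t1) ≤ W') (e2 : vl w t2 B - K * (r + t2) ≤ W') :
    vl w A B - K * (r + A) ≤ W' := by
  rw [vl_comm] at e1 e2 ⊢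
  exact vl_conv h1 h2 e1 e2

/-- (e) -/
theorem vl_e {w A : ℝ} (hA : 0 ≤ A) (hAw : A ≤ w) : vl w A (w - A) = 0 := by
  rw [vl, max_eq_left (by linarith : 0 ≤ w - A), max_eq_left (by linarith : 0 ≤ w - (w - A))]
  ring

theorem vl_zero : vl 0 0 0 = 0 := by
  simp [vl]

/-- (f) -/
theorem vl_f {w A B : ℝ} (w0 : 0 ≤ w) (w1 : w ≤ 13 / 20) (hA : 0 ≤ A) (hB : 1 ≤ B)
    (h : A + B ≤ 1 + w) : vl w A B ≤ w * w - w ^ 3 / 3 := by
  have hAw : A ≤ w := by linarith
  have h1 := vl_a (w := w) hA (by linarith) hAw (by linarith)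
  have h2 : w * A * B ≤ w * A * (1 + w - A) :=
    mul_le_mul_of_nonneg_left (by linarith) (mul_nonneg w0 hA)
  have h3 : 0 ≤ w * (w - A) * (1 - A - w / 3) :=
    mul_nonneg (mul_nonneg w0 (by linarith)) (by linarith)
  nlinarith [h3]

/-! ### Slots -/

theorem st_zero (c d : ℝ) : st c d 0 = 0 := by
  simp [st]

/-- (g) -/
theorem sx_le_st {c d u : ℝ} (e : En c d u) : sx c d u ≤ st c d (max u 0) := by
  have hc := e.hc
  have lo := e.lo
  rcases le_total u 0 with h | h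
  · rw [max_eq_right h, st_zero, sx_of_nonpos h]
    nlinarith [mul_nonneg hc (neg_nonneg.2 h),
      mul_nonneg (sq_nonneg u) (by linarith : 0 ≤ 1 - d + u),
      mul_nonneg (sq_nonneg u) (by linarith : 0 ≤ 1 - d)]
  · rw [max_eq_left h, sx_of_nonneg h e.hi, st]

theorem sx_eq_st {c d u : ℝ} (h : 0 ≤ u) (h1 : u ≤ 1) : sx c d u = st c d u := by
  rw [sx_of_nonneg h h1, st]

/-- (g), second part (any sign of the multiplier) -/
theorem sx_le_lin {c d u : ℝ} (lo : -(1 - d) ≤ u) (h : u ≤ 0) : sx c d u ≤ c * u := by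
  rw [sx_of_nonpos h]
  nlinarith [mul_nonneg (sq_nonneg u) (by linarith : 0 ≤ 1 - d + u),
    mul_nonneg (sq_nonneg u) (by linarith : 0 ≤ 1 - d)]

/-- (h) -/
theorem sx_le_mj {X d u D s : ℝ} (hD : 0 ≤ D) (hs0 : 0 ≤ s) (hs : s = D - u) (hu : u ≤ 1) :
    sx X d u ≤ mj X (1 - d) D s := by
  have e : D - s = u := by linarith
  rw [mj, e, sx_of_le hu]
  have h1 : (max (-u) 0) ^ 3 ≤ u ^ 2 * s := by
    rcases le_total (-u) 0 with h | h
    · rw [max_eq_right h]
      have := mul_nonneg (sq_nonneg u) hs0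
      simpa using this
    · rw [max_eq_left h]
      nlinarith [mul_nonneg (sq_nonneg u) (by linarith : 0 ≤ s + u)]
  linarith

end Pool.Agent.Helper74.TS
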