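import Pool.Agent.Helper36.TS.FrameG

/-!
# The volume of a far cell and the slots of a column, in real variables

`vl w A B` is the volume of a far cell with `A = 1 - al`, `B = 1 - be` (`al`, `be` the caps).
-/

set_option autoImplicit false

namespace Pool.Agent.Helper74.TS

open Pool.Agent.Helper84.TS Pool.Agent.Helper23.TS Pool.Agent.Helper36.TS

/-- the volume of a far cell -/
noncomputable def vl (w A B : ℝ) : ℝ :=
  w * A * B - w ^ 3 / 3 + ((max (w - A) 0) ^ 3 + (max (w - B) 0) ^ 3) / 3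

theorem vl_comm (w A B : ℝ) : vl w A B = vl w B A := by
  unfold vl
  ring

/-- the volume of a cell of a column -/
theorem farC_vl {f w d al be ui ux uy di dx dy s t : ℝ}
    (F : FarC f w d al be ui ux uy di dx dy s t) :
    f = vl w (1 - al) (1 - be) ∧ 0 < 1 - al ∧ 0 < 1 - be ∧ w < (1 - al) + (1 - be) ∧
      (1 - al) + (1 - be) ≤ 1 + w ∧ d = 1 + w - (1 - al) - (1 - be) := by
  have h1 := F.sum
  have h2 := F.d0
  have h3 := F.d1
  have h4 := F.al1
  have h5 := F.be1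
  refine ⟨?_, by linarith, by linarith, by linarith, by linarith, by linarith⟩
  rw [F.vol, vl, show d - al = w - (1 - be) by linarith, show d - be = w - (1 - al) by linarith]
  ring

private theorem cube_conv74 (x y : ℝ) :
    (max x 0) ^ 3 - (max y 0) ^ 3 ≤ 3 * (max x 0) ^ 2 * (x - y) := by
  rcases le_total x 0 with hx | hx
  · rw [max_eq_right hx]
    have := pow_nonneg (le_max_right y 0) 3
    nlinarith
  · rw [max_eq_left hx]
    rcases le_total y 0 with hy | hy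
    · rw [max_eq_right hy]
      nlinarith [mul_nonneg (mul_nonneg hx hx) (neg_nonneg.2 hy), mul_nonneg hx (mul_nonneg hx hx)]
    · rw [max_eq_left hy]
      nlinarith [mul_nonneg hx (sq_nonneg (x - y)), mul_nonneg hy (sq_nonneg (x - y))]

private theorem cube_mono74 {x y : ℝ} (h : x ≤ y) : (max x 0) ^ 3 ≤ (max y 0) ^ 3 :=
  pow_le_pow_left₀ (le_max_right x 0) (max_le_max h le_rfl) 3

/-- `vl` is increasing in the second variable -/
theorem vl_mono_r {w A B B' : ℝ} (hw : 0 ≤ w) (hA : 0 ≤ A) (hB : 0 ≤ B) (hs : w ≤ A + B)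
    (h : B ≤ B') : vl w A B ≤ vl w A B' := by
  have h1 := cube_conv74 (w - B) (w - B')
  have h2 : (max (w - B) 0) ^ 2 ≤ w * A := by
    rcases le_total (w - B) 0 with h3 | h3
    · rw [max_eq_right h3]
      have := mul_nonneg hw hA
      nlinarith
    · rw [max_eq_left h3]
      nlinarith [mul_nonneg hw (by linarith : 0 ≤ A + B - w), mul_nonneg hB h3]
  have h3 : 3 * (max (w - B) 0) ^ 2 * (w - B - (w - B')) ≤ 3 * (w * A) * (B' - B) := by
    have := mul_le_mul_of_nonneg_right h2 (sub_nonneg.2 h)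
    nlinarith
  unfold vl
  nlinarith

theorem vl_mono_l {w A A' B : ℝ} (hw : 0 ≤ w) (hA : 0 ≤ A) (hB : 0 ≤ B) (hs : w ≤ A + B)
    (h : A ≤ A') : vl w A B ≤ vl w A' B := by
  rw [vl_comm w A B, vl_comm w A' B]
  exact vl_mono_r hw hB hA (by linarith) h

/-- `vl` grows at most with the slope `w * A` in the second variable (no condition) -/
theorem vl_lip_r {w A B B' : ℝ} (h : B ≤ B') : vl w A B' ≤ vl w A B + w * A * (B' - B) := by
  have h1 : (max (w - B') 0) ^ 3 ≤ (max (w - B) 0) ^ 3 := cube_mono74 (by linarith)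
  unfold vl
  nlinarith

theorem vl_lip_l {w A A' B : ℝ} (h : A ≤ A') : vl w A' B ≤ vl w A B + w * B * (A' - A) := by
  rw [vl_comm w A B, vl_comm w A' B]
  exact vl_lip_r h

/-- `vl w A B ≤ w * A * B` -/
theorem vl_le {w A B : ℝ} (hw : 0 ≤ w) (hA : 0 ≤ A) (hB : 0 ≤ B) (hs : w ≤ A + B) :
    vl w A B ≤ w * A * B := by
  have key : (max (w - A) 0) ^ 3 + (max (w - B) 0) ^ 3 ≤ w ^ 3 := by
    have h1 := le_max_right (w - A) 0
    have h2 := le_max_right (w - B) 0
    have h3 : max (w - A) 0 ≤ w := max_le (by linarith) hw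
    have h4 : max (w - B) 0 ≤ w := max_le (by linarith) hw
    have h5 : max (w - A) 0 + max (w - B) 0 ≤ w := by
      rcases le_total (w - A) 0 with h | h
      · rw [max_eq_right h]; linarith
      · rcases le_total (w - B) 0 with h' | h'
        · rw [max_eq_right h']; linarith
        · rw [max_eq_left h, max_eq_left h']; linarith
    have h6 : (max (w - A) 0) ^ 3 + (max (w - B) 0) ^ 3 ≤
        (max (w - A) 0 + max (w - B) 0) ^ 3 := by
      nlinarith [mul_nonneg (mul_nonneg h1 h2) h1, mul_nonneg (mul_nonneg h1 h2) h2]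
    exact h6.trans (pow_le_pow_left₀ (by linarith) h5 3)
  unfold vl
  linarith

/-- the cubes removed if `A ≥ r w` and `B ≥ s w` -/
theorem vl_le_of {w A B r s : ℝ} (hw : 0 ≤ w) (hr : r ≤ 1) (hs : s ≤ 1) (hA : r * w ≤ A)
    (hB : s * w ≤ B) :
    vl w A B ≤ w * A * B - (1 - (1 - r) ^ 3 - (1 - s) ^ 3) / 3 * w ^ 3 := by
  have h1 : (max (w - A) 0) ^ 3 ≤ ((1 - r) * w) ^ 3 := by
    refine pow_le_pow_left₀ (le_max_right _ _) (max_le (by linarith) ?_) 3
    exact mul_nonneg (by linarith) hw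
  have h2 : (max (w - B) 0) ^ 3 ≤ ((1 - s) * w) ^ 3 := by
    refine pow_le_pow_left₀ (le_max_right _ _) (max_le (by linarith) ?_) 3
    exact mul_nonneg (by linarith) hw
  rw [mul_pow] at h1 h2
  unfold vl
  linarith

/-! ### Slots -/

theorem sx_sub (c K d u : ℝ) : sx (c - K) d u = sx c d u - K * u := by
  unfold sx
  ring

/-- for `b ≥ 0` the slot has no negative cube -/
theorem sx_of_nonneg {c d u : ℝ} (h0 : 0 ≤ u) (h1 : u ≤ 1) :
    sx c d u = c * u - (1 - d) * u ^ 2 / 2 := by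
  rw [sx_of_le h1, max_eq_right (by linarith : -u ≤ 0)]
  ring

theorem sx_of_nonpos {c d u : ℝ} (h0 : u ≤ 0) :
    sx c d u = c * u - (1 - d) * u ^ 2 / 2 - u ^ 3 / 3 := by
  rw [sx_of_le (by linarith), max_eq_left (by linarith : 0 ≤ -u)]
  ring

private theorem sx_nonpos74 {c d u : ℝ} (hc : 0 ≤ c) (h0 : u ≤ 0) (h1 : -(1 - d) ≤ u) :
    sx c d u ≤ 0 := by
  rw [sx_of_nonpos h0]
  nlinarith [mul_nonneg hc (neg_nonneg.2 h0), mul_nonneg (sq_nonneg u) (by linarith : 0 ≤ 1 - d + u),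
    mul_nonneg (sq_nonneg u) (by linarith : 0 ≤ 1 - d)]

/-- **monotonicity of the slot** up to the threshold `c / (1 - d)` -/
theorem sx_mono {c d u b : ℝ} (hc : 0 ≤ c) (he0 : 0 ≤ 1 - d) (hu : -(1 - d) ≤ u) (hu1 : u ≤ 1)
    (hub : u ≤ b) (hb : (1 - d) * b ≤ c) : sx c d u ≤ sx c d b := by
  rcases le_total b 0 with hb0 | hb0
  · -- both nonpositive
    have hu0 : u ≤ 0 := hub.trans hb0
    rw [sx_of_nonpos hu0, sx_of_nonpos hb0]
    have h1 : 0 ≤ c + (1 - d) * (-u + -b) / 2 - (u ^ 2 + u * b + b ^ 2) / 3 := by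
      nlinarith [mul_nonneg (neg_nonneg.2 hu0) (by linarith : 0 ≤ 1 - d + u),
        mul_nonneg (neg_nonneg.2 hb0) (by linarith : 0 ≤ 1 - d + b),
        mul_nonneg (neg_nonneg.2 hu0) (by linarith : 0 ≤ 1 - d + b),
        mul_nonneg (neg_nonneg.2 hb0) (by linarith : 0 ≤ 1 - d + u)]
    nlinarith [mul_nonneg (sub_nonneg.2 hub) h1]
  · have hbb : 0 ≤ sx c d b := by
      rw [sx, max_eq_right (by linarith : -b ≤ 0)]
      rcases le_total b 1 with hb1 | hb1
      · rw [max_eq_right (by linarith : b - 1 ≤ 0)]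
        nlinarith [mul_nonneg hb0 (sub_nonneg.2 hb), mul_nonneg hb0 hc]
      · rw [max_eq_left (by linarith : 0 ≤ b - 1)]
        nlinarith [mul_nonneg hb0 (sub_nonneg.2 hb), mul_nonneg hb0 hc,
          mul_nonneg he0 (sq_nonneg (b - 1))]
    rcases le_total u 0 with hu0 | hu0
    · exact (sx_nonpos74 hc hu0 hu).trans hbb
    · rw [sx_of_nonneg hu0 hu1]
      have h1d : 0 ≤ (b - u) * (c - (1 - d) * b) := mul_nonneg (by linarith) (by linarith)
      rw [sx, max_eq_right (by linarith : -b ≤ 0)]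
      rcases le_total b 1 with hb1 | hb1
      · rw [max_eq_right (by linarith : b - 1 ≤ 0)]
        nlinarith [mul_nonneg he0 (sq_nonneg (b - u))]
      · rw [max_eq_left (by linarith : 0 ≤ b - 1)]
        nlinarith [mul_nonneg he0 (sq_nonneg (b - u)), mul_nonneg he0 (sq_nonneg (b - 1))]

/-- **the free slot** -/
theorem sx_free {c d u b : ℝ} (hd : 0 ≤ 1 - d) (hu : -(1 - d) ≤ u) (hu1 : u ≤ 1) (hb0 : 0 ≤ b)
    (hb : (1 - d) * b = c) : sx c d u ≤ sx c d b := by
  have hc : 0 ≤ c := by rw [← hb]; exact mul_nonneg hd hb0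
  rcases le_total u b with h | h
  · exact sx_mono hc hd hu hu1 h hb.le
  · have hu0 : 0 ≤ u := hb0.trans h
    rw [sx_of_nonneg hu0 hu1, sx_of_nonneg hb0 (by linarith), ← hb]
    nlinarith [mul_nonneg hd (sq_nonneg (u - b))]

/-- the free slot if the threshold is above `1` -/
theorem sx_free_one {c d u : ℝ} (hc : 1 - d ≤ c) (hd : 0 ≤ 1 - d) (hu : -(1 - d) ≤ u)
    (hu1 : u ≤ 1) : sx c d u ≤ sx c d 1 :=
  sx_mono (by linarith) hd hu hu1 hu1 (by linarith)

/-- the free slot as a number -/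
theorem sx_free_num {c d u : ℝ} (hd : 0 < 1 - d) (hc : 0 ≤ c) (hu : -(1 - d) ≤ u) (hu1 : u ≤ 1) :
    sx c d u ≤ c ^ 2 / (2 * (1 - d)) := by
  rcases le_total u 0 with h | h
  · exact (sx_nonpos74 hc h hu).trans (by positivity)
  · rw [sx_of_nonneg h hu1, le_div_iff₀ (by linarith)]
    nlinarith [sq_nonneg (c - (1 - d) * u)]

/-- the slack of a pair of kind B, in terms of the far cell -/
theorem slack_kindB {f w d al be ui ux uy di dx dy s t : ℝ}
    (F : FarC f w d al be ui ux uy di dx dy s t) (hdi : 0 ≤ di) (hux : ux ≤ 1)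
    (hown : w ≤ -ui + max (di - d) 0) (hB : di - d + (min ux (2 - w) - min ui ux) ≤ s) :
    ux + (1 - al) + (1 - be) - 1 ≤ s := by
  have h1 := F.w1
  have h2 := F.sum
  have h3 := F.d0
  rw [min_eq_left (by linarith : ux ≤ 2 - w)] at hB
  have h4 := min_le_left ui ux
  rcases le_total (di - d) 0 with h | h
  · rw [max_eq_right h] at hown
    linarith
  · rw [max_eq_left h] at hown
    linarith

/-- **kind B with a multiple `L` of the slack**: it acts like the cap `b` with `(1-d) b = c - L`. -/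
theorem sx_kindB {c d u b A B L s : ℝ} (hd : 0 ≤ 1 - d) (hu : -(1 - d) ≤ u) (hu1 : u ≤ 1)
    (hs : u + A + B - 1 ≤ s) (hL : 0 ≤ L) (hb0 : 0 ≤ b) (hb : (1 - d) * b = c - L) :
    sx c d u - L * s ≤ sx c d b - L * (b + A + B - 1) := by
  have h1 := sx_free hd hu hu1 hb0 hb
  rw [sx_sub, sx_sub] at h1
  have h2 := mul_le_mul_of_nonneg_left hs hL
  nlinarith

/-- the same, with the own cap `b = 1 - B + d`: nothing is lost but `L (A + d)` -/
theorem sx_kindB_cap {c d u A B L s : ℝ} (hd : 0 ≤ 1 - d) (hu : -(1 - d) ≤ u) (hu1 : u ≤ 1)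
    (hs : u + A + B - 1 ≤ s) (hL : 0 ≤ L) (hb0 : 0 ≤ 1 - B + d)
    (hb : (1 - d) * (1 - B + d) = c - L) :
    sx c d u - L * s ≤ sx c d (1 - B + d) - L * (A + d) := by
  have h1 := sx_kindB hd hu hu1 hs hL hb0 hb
  nlinarith

/-- the free slot at a point `T ≤ 1 + d` (in terms of `B`): either `(1-d)(1-T+d) = c`, or `T = d` and
`1 - d ≤ c` -/
structure Thr (c d T : ℝ) : Prop where
  le : (1 - d) * (1 - T + d) ≤ c
  nn : T ≤ 1 + d
  free : ∀ u, -(1 - d) ≤ u → u ≤ 1 → sx c d u ≤ sx c d (1 - T + d)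

theorem thr_of_eq {c d T : ℝ} (hd : 0 ≤ 1 - d) (hT : T ≤ 1 + d) (h : (1 - d) * (1 - T + d) = c) :
    Thr c d T :=
  ⟨h.le, hT, fun _ h1 h2 => sx_free hd h1 h2 (by linarith) h⟩

theorem thr_one {c d : ℝ} (hd : 0 ≤ 1 - d) (hc : 1 - d ≤ c) : Thr c d d := by
  refine ⟨by linarith, by linarith, fun u h1 h2 => ?_⟩
  rw [show 1 - d + d = (1 : ℝ) by ring]
  exact sx_free_one hc hd h1 h2

/-- there is always a threshold in `[d, 1 + d]` -/
theorem exists_thr {c d : ℝ} (hd : 0 < 1 - d) (hc : 0 ≤ c) :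
    ∃ T, Thr c d T ∧ d ≤ T ∧ T ≤ 1 + d ∧ (T = d ∨ (1 - d) * (1 - T + d) = c) := by
  rcases le_total (1 - d) c with h | h
  · exact ⟨d, thr_one hd.le h, le_rfl, by linarith, Or.inl rfl⟩
  · have h1 : (1 - d) * (1 - (1 + d - c / (1 - d)) + d) = c := by
      field_simp
      ring
    have h2 : 0 ≤ c / (1 - d) := div_nonneg hc hd.le
    have h3 : c / (1 - d) ≤ 1 := (div_le_one hd).2 h
    exact ⟨1 + d - c / (1 - d), thr_of_eq hd.le (by linarith) h1, by linarith, by linarith,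
      Or.inr h1⟩

/-- **A capped slot and the volume**, kind A: both are bounded at `max B T`. -/
theorem slotA {c d u w A B T : ℝ} (hc : 0 ≤ c) (hu : -(1 - d) ≤ u) (hu1 : u ≤ 1)
    (hT : Thr c d T) (hd : 0 ≤ 1 - d) (hcap : u ≤ 1 - B + d) (hw : 0 ≤ w) (hA : 0 ≤ A)
    (hB : 0 ≤ B) (hs : w ≤ A + B) :
    sx c d u ≤ sx c d (1 - max B T + d) ∧ vl w A B ≤ vl w A (max B T) := by
  refine ⟨?_, vl_mono_r hw hA hB hs (le_max_left _ _)⟩
  rcases le_total B T with h | h
  · rw [max_eq_right h]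
    exact hT.free u hu hu1
  · rw [max_eq_left h]
    refine sx_mono hc hd hu hu1 hcap ?_
    have := mul_le_mul_of_nonneg_left (by linarith : 1 - B + d ≤ 1 - T + d) hd
    exact this.trans hT.le

/-- **A slot of kind B and the volume**: `K` the full multiple of the slack, `T` the threshold of
`c`, `T'` the threshold of `c - K`. Some multiple `L` in `[0, K]` bounds slot and volume together at
a point `B'` with `T ≤ B' ≤ T'`. -/
theorem slotB {c d u w A B T T' K s : ℝ} (hu : -(1 - d) ≤ u) (hu1 : u ≤ 1)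
    (hT : Thr c d T) (hd : 0 ≤ 1 - d) (hd0 : 0 ≤ d) (hs : u + A + B - 1 ≤ s)
    (hw : 0 ≤ w) (hA : 0 ≤ A) (hB : 0 ≤ B) (hsum : w ≤ A + B) (hK : 0 ≤ K)
    (hT1 : (1 - d) * (1 - T' + d) = c - K) (hT2 : T' ≤ 1 + d) (hTT : T ≤ T')
    (hfull : T' ≤ B → (w * A - K) * (B - T') ≤ K * (A + d)) :
    ∃ L B', 0 ≤ L ∧ L ≤ K ∧ T ≤ B' ∧ B' ≤ T' ∧ (B' = B ∨ (B ≤ T ∧ B' = T) ∨ (T' ≤ B ∧ B' = T')) ∧
      sx c d u + vl w A B - L * s ≤ sx c d (1 - B' + d) + vl w A B' := by
  rcases le_total B T with h | h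
  · refine ⟨0, T, le_rfl, hK, le_rfl, hTT, Or.inr (Or.inl ⟨h, rfl⟩), ?_⟩
    have h1 := hT.free u hu hu1
    have h2 := vl_mono_r hw hA hB hsum h
    linarith
  · rcases le_total B T' with h' | h'
    · refine ⟨c - (1 - d) * (1 - B + d), B, ?_, ?_, h, h', Or.inl rfl, ?_⟩
      · have := mul_le_mul_of_nonneg_left (by linarith : 1 - B + d ≤ 1 - T + d) hd
        have := hT.le
        linarith
      · have := mul_le_mul_of_nonneg_left (by linarith : 1 - T' + d ≤ 1 - B + d) hd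
        linarith
      · have hL : 0 ≤ c - (1 - d) * (1 - B + d) := by
          have := mul_le_mul_of_nonneg_left (by linarith : 1 - B + d ≤ 1 - T + d) hd
          have := hT.le
          linarith
        have h1 := sx_kindB_cap hd hu hu1 hs hL (by linarith : 0 ≤ 1 - B + d)
          (by ring : (1 - d) * (1 - B + d) = c - (c - (1 - d) * (1 - B + d)))
        have h2 := mul_nonneg hL (by linarith : 0 ≤ A + d)
        linarith
    · refine ⟨K, T', hK, le_rfl, hTT, le_rfl, Or.inr (Or.inr ⟨h', rfl⟩), ?_⟩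
      have h1 := sx_kindB hd hu hu1 hs hK (by linarith : 0 ≤ 1 - T' + d) hT1
      have h2 := vl_lip_r (w := w) (A := A) h'
      have h3 := hfull h'
      nlinarith

/-- the own entry `u ≤ b` where `b = d - w` for a main row cell: the slot is monotone if
`(1 - d) * (d - w) ≤ c` -/
theorem sx_own {c d u w : ℝ} (hc : 0 ≤ c) (hu : -(1 - d) ≤ u) (hu1 : u ≤ 1) (h : u ≤ d - w)
    (hw : 0 ≤ w) (hd : 0 ≤ 1 - d) (hcd : (1 - d) * d ≤ c) : sx c d u ≤ sx c d (d - w) :=
  sx_mono hc hd hu hu1 h (by nlinarith [mul_nonneg hd hw])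

/-- a slot with a small negative multiplier: the chord bound. `-g = c ≤ 0`, `u ≤ b`. -/
theorem sx_neg_mult {g d u : ℝ} (hg : 0 ≤ g) (hd : 0 < 1 - d) (hu : -(1 - d) ≤ u) (hu1 : u ≤ 1) :
    sx (-g) d u ≤ 3 * g ^ 2 / (2 * (1 - d)) := by
  rcases le_total u 0 with h | h
  · rw [sx_of_nonpos h, le_div_iff₀ (by linarith)]
    nlinarith [sq_nonneg (3 * g + (1 - d) * u), mul_nonneg (mul_nonneg (sq_nonneg u)
      (by linarith : 0 ≤ 1 - d + u)) hd.le]
  · rw [sx_of_nonneg h hu1]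
    have : -g * u - (1 - d) * u ^ 2 / 2 ≤ 0 := by
      nlinarith [mul_nonneg hg h, mul_nonneg hd.le (sq_nonneg u)]
    exact this.trans (by positivity)

/-- the own slot with any multiplier: if `u ≤ b ≤ 0` and the slope at `b` and at `-(1-d)` are fine -/
theorem sx_mono_neg {c d u b : ℝ} (hu : -(1 - d) ≤ u) (hub : u ≤ b) (hb : b ≤ 0)
    (h : 0 ≤ c + (1 - d) * (-b) / 2 - b ^ 2 / 3 + -u * ((1 - d) / 6 - -b / 3)) :
    sx c d u ≤ sx c d b := by
  have hu0 : u ≤ 0 := hub.trans hb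
  rw [sx_of_nonpos hu0, sx_of_nonpos hb]
  have h1 : 0 ≤ c + (1 - d) * (-u + -b) / 2 - (u ^ 2 + u * b + b ^ 2) / 3 := by
    nlinarith [mul_nonneg (neg_nonneg.2 hu0) (by linarith : 0 ≤ 1 - d + u)]
  nlinarith [mul_nonneg (sub_nonneg.2 hub) h1]

end Pool.Agent.Helper74.TS
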