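import Pool.Agent.Helper74.TS.Ram

/-!
# TS-BLK: decomposition into monochromatic transitive blocks

PROOF. Induction on `N`: the first `N` blocks cover `N t` vertices, so at least `6 ^ (6 t)` vertices are not covered if
`(N + 1) t + 6 ^ (6 t) ≤ card V`; apply `ramsey` to the complement of the union (`Fin.snoc` or `Fin.cons`).
-/

set_option autoImplicit false

namespace Pool.Agent.Helper74.TS

open Finset Classical

theorem blocks {V : Type} [Fintype V] {T : V → V → St} (hT : IsCT T) (t N : ℕ)
    (h : N * t + 6 ^ (6 * t) ≤ Fintype.card V) : ∃ (q : Fin N → Fin t → V) (χ : Fin N → Fin 3),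
      Function.Injective (fun p : Fin N × Fin t => q p.1 p.2) ∧
      ∀ i a b, a < b → T (q i a) (q i b) = (χ i, true) := by
  induction N with
  | zero =>
    refine ⟨fun i => i.elim0, fun i => i.elim0, ?_, fun i => i.elim0⟩
    rintro ⟨i, a⟩
    exact i.elim0
  | succ N ih =>
    obtain ⟨q, χ, hq, hT'⟩ := ih (le_trans (by nlinarith) h)
    have hcard : (univ.image (fun p : Fin N × Fin t => q p.1 p.2)).card = N * t := by
      rw [Finset.card_image_of_injective _ hq]
      simp
    have hW : 6 ^ (6 * t) ≤ ((univ.image (fun p : Fin N × Fin t => q p.1 p.2))ᶜ).card := by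
      rw [Finset.card_compl, hcard]
      have : (N + 1) * t = N * t + t := by ring
      omega
    obtain ⟨k, q', hq', hmem, hst⟩ := ramsey hT t _ hW
    have hne : ∀ i a b, q' a ≠ q i b := by
      intro i a b heq
      have h1 := hmem a
      rw [Finset.mem_compl, Finset.mem_image] at h1
      exact h1 ⟨(i, b), Finset.mem_univ _, heq.symm⟩
    refine ⟨Fin.cons q' q, Fin.cons k χ, ?_, ?_⟩
    · rintro ⟨i, a⟩ ⟨j, b⟩ heq
      simp only at heq
      refine Fin.cases ?_ (fun i' => ?_) i heq <;> refine Fin.cases ?_ (fun j' => ?_) j
      · intro heq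
        simp only [Fin.cons_zero] at heq
        rw [hq' heq]
      · intro heq
        simp only [Fin.cons_zero, Fin.cons_succ] at heq
        exact absurd heq (hne _ _ _)
      · intro heq
        simp only [Fin.cons_zero, Fin.cons_succ] at heq
        exact absurd heq.symm (hne _ _ _)
      · intro heq
        simp only [Fin.cons_succ] at heq
        have h2 := hq (a₁ := (i', a)) (a₂ := (j', b)) heq
        rw [Prod.mk.injEq] at h2
        rw [h2.1, h2.2]
    · intro i
      refine Fin.cases ?_ (fun i' => ?_) i
      · intro a b hab
        simp only [Fin.cons_zero]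
        exact hst a b hab
      · intro a b hab
        simp only [Fin.cons_succ]
        exact hT' i' a b hab

end Pool.Agent.Helper74.TS
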