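import Pool.Agent.Helper74.TS.Defs

/-!
# TS-CNT: product bound with disjoint constraints on triples

PROOF. First show by induction on `F` (for all `P`): the number of `f` with `f i ∈ P i` for all `i` and
`(f p.1, f p.2.1, f p.2.2) ∈ G p` for all `p ∈ F` is at most `63 ^ F.card * ∏ i ∈ univ \ U F, (P i).card`, `U F` = union of the sets
`{p.1, p.2.1, p.2.2}`. Empty `F`: `Fintype.card_piFinset`. `insert p F`: the functions are partitioned by the value `(x, y, z) ∈ G p` of
`(f p.1, f p.2.1, f p.2.2)`; for each value apply the induction hypothesis to `F` and the family `P` with `P p.1`, `P p.2.1`, `P p.2.2` replaced by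
`{x}`, `{y}`, `{z}` (these three indices are not in `U F`, so the product over `univ \ U F` has three factors `1` and the factors `i ∈ univ \ U (insert p F)`).
Then: `|U F| = 3 |F|`, `(P i).card ≤ 4` for `i ∉ M`, `(P i).card ≤ 6 ≤ 8 = 4 * 2` for `i ∈ M`, so the product is at most
`4 ^ (card ι - 3 |F|) * 2 ^ M.card`, and `63 ^ |F| * 4 ^ (card ι - 3 |F|) * 64 ^ |F| = 63 ^ |F| * 4 ^ card ι`.
-/

set_option autoImplicit false

namespace Pool.Agent.Helper74.TS

open Finset Classical

private noncomputable def h31_U {ι : Type} (F : Finset (ι × ι × ι)) : Finset ι :=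
  F.biUnion fun p => {p.1, p.2.1, p.2.2}

private lemma h31_aux {ι : Type} [Fintype ι] (G : ι × ι × ι → Finset (St × St × St))
    (F : Finset (ι × ι × ι)) : (∀ p ∈ F, (G p).card ≤ 63) → ∀ P : ι → Finset St,
    (univ.filter (fun f : ι → St => (∀ i, f i ∈ P i) ∧ ∀ p ∈ F, (f p.1, f p.2.1, f p.2.2) ∈ G p)).card ≤
      63 ^ F.card * ∏ i ∈ univ \ h31_U F, (P i).card := by
  induction F using Finset.induction_on with
  | empty =>
    intro _ P
    have h1 : (univ.filter (fun f : ι → St => (∀ i, f i ∈ P i) ∧
        ∀ p ∈ (∅ : Finset (ι × ι × ι)), (f p.1, f p.2.1, f p.2.2) ∈ G p)) = Fintype.piFinset P := by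
      ext f
      rw [Finset.mem_filter, Fintype.mem_piFinset]
      constructor
      · exact fun h => h.2.1
      · exact fun h => ⟨Finset.mem_univ _, h, fun p hp => absurd hp (Finset.notMem_empty p)⟩
    have h2 : h31_U (∅ : Finset (ι × ι × ι)) = ∅ := rfl
    rw [h1, Fintype.card_piFinset, h2, Finset.sdiff_empty, Finset.card_empty, pow_zero, one_mul]
  | insert p F hp ih =>
    intro hG P
    set P' : St × St × St → ι → Finset St := fun q i =>
      if i = p.1 then {q.1} else if i = p.2.1 then {q.2.1} else if i = p.2.2 then {q.2.2} else P i with hP'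
    set A : St × St × St → Finset (ι → St) := fun q =>
      univ.filter (fun f : ι → St => (∀ i, f i ∈ P' q i) ∧ ∀ r ∈ F, (f r.1, f r.2.1, f r.2.2) ∈ G r) with hA
    have hsub : (univ.filter (fun f : ι → St => (∀ i, f i ∈ P i) ∧
        ∀ r ∈ insert p F, (f r.1, f r.2.1, f r.2.2) ∈ G r)) ⊆ (G p).biUnion A := by
      intro f hf
      rw [Finset.mem_filter] at hf
      obtain ⟨-, hf1, hf2⟩ := hf
      rw [Finset.mem_biUnion]
      refine ⟨(f p.1, f p.2.1, f p.2.2), hf2 p (Finset.mem_insert_self _ _), ?_⟩
      rw [hA, Finset.mem_filter]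
      refine ⟨Finset.mem_univ _, fun i => ?_, fun r hr => hf2 r (Finset.mem_insert_of_mem hr)⟩
      rw [hP']
      by_cases h1 : i = p.1
      · simp only [h1, if_true, Finset.mem_singleton]
      · by_cases h2 : i = p.2.1
        · simp only [if_neg h1]
          rw [if_pos h2, h2, Finset.mem_singleton]
        · by_cases h3 : i = p.2.2
          · simp only [if_neg h1, if_neg h2]
            rw [if_pos h3, h3, Finset.mem_singleton]
          · simp only [if_neg h1, if_neg h2, if_neg h3]
            exact hf1 i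
    have hU : h31_U (insert p F) = {p.1, p.2.1, p.2.2} ∪ h31_U F := by
      unfold h31_U
      rw [Finset.biUnion_insert]
    have hprod : ∀ q, ∏ i ∈ univ \ h31_U F, (P' q i).card = ∏ i ∈ univ \ h31_U (insert p F), (P i).card := by
      intro q
      have hs : univ \ h31_U (insert p F) ⊆ univ \ h31_U F := by
        apply Finset.sdiff_subset_sdiff subset_rfl
        rw [hU]
        exact Finset.subset_union_right
      rw [← Finset.prod_subset hs]
      · refine Finset.prod_congr rfl fun i hi => ?_
        rw [Finset.mem_sdiff, hU, Finset.mem_union, not_or] at hi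
        have h1 := hi.2.1
        simp only [Finset.mem_insert, Finset.mem_singleton, not_or] at h1
        rw [hP']
        simp only [if_neg h1.1, if_neg h1.2.1, if_neg h1.2.2]
      · intro i hi hi'
        rw [Finset.mem_sdiff] at hi hi'
        have h1 : i ∈ h31_U (insert p F) := by
          by_contra h
          exact hi' ⟨Finset.mem_univ _, h⟩
        rw [hU, Finset.mem_union] at h1
        have h2 := h1.resolve_right hi.2
        simp only [Finset.mem_insert, Finset.mem_singleton] at h2
        rw [hP']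
        simp only
        split_ifs with a b c
        · exact Finset.card_singleton _
        · exact Finset.card_singleton _
        · exact Finset.card_singleton _
        · exact absurd h2 (by tauto)
    calc (univ.filter (fun f : ι → St => (∀ i, f i ∈ P i) ∧
        ∀ r ∈ insert p F, (f r.1, f r.2.1, f r.2.2) ∈ G r)).card ≤ ((G p).biUnion A).card :=
          Finset.card_le_card hsub
      _ ≤ ∑ q ∈ G p, (A q).card := Finset.card_biUnion_le
      _ ≤ ∑ q ∈ G p, 63 ^ F.card * ∏ i ∈ univ \ h31_U (insert p F), (P i).card := by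
          refine Finset.sum_le_sum fun q _ => ?_
          rw [← hprod q]
          exact ih (fun r hr => hG r (Finset.mem_insert_of_mem hr)) (P' q)
      _ = (G p).card * (63 ^ F.card * ∏ i ∈ univ \ h31_U (insert p F), (P i).card) := by
          rw [Finset.sum_const, smul_eq_mul]
      _ ≤ 63 * (63 ^ F.card * ∏ i ∈ univ \ h31_U (insert p F), (P i).card) :=
          Nat.mul_le_mul_right _ (hG p (Finset.mem_insert_self _ _))
      _ = 63 ^ (insert p F).card * ∏ i ∈ univ \ h31_U (insert p F), (P i).card := by
          rw [Finset.card_insert_of_notMem hp, pow_succ']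
          ring

theorem count_core {ι : Type} [Fintype ι] (P : ι → Finset St) (F : Finset (ι × ι × ι))
    (G : ι × ι × ι → Finset (St × St × St)) (h1 : ∀ p ∈ F, p.1 ≠ p.2.1 ∧ p.2.1 ≠ p.2.2 ∧ p.1 ≠ p.2.2)
    (hd : ∀ p ∈ F, ∀ r ∈ F, p ≠ r → Disjoint ({p.1, p.2.1, p.2.2} : Finset ι) {r.1, r.2.1, r.2.2})
    (hG : ∀ p ∈ F, (G p).card ≤ 63) (M : Finset ι) (hM : ∀ i, i ∉ M → (P i).card ≤ 4) :
    (univ.filter (fun f : ι → St => (∀ i, f i ∈ P i) ∧ ∀ p ∈ F, (f p.1, f p.2.1, f p.2.2) ∈ G p)).card * 64 ^ F.card ≤
      63 ^ F.card * 4 ^ Fintype.card ι * 2 ^ M.card := by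
  have hU : (h31_U F).card = 3 * F.card := by
    unfold h31_U
    rw [Finset.card_biUnion hd, Finset.sum_congr rfl (fun p hp => ?_), Finset.sum_const, smul_eq_mul, mul_comm]
    obtain ⟨a, b, c⟩ := h1 p hp
    exact Finset.card_eq_three.2 ⟨_, _, _, a, c, b, rfl⟩
  have hcard : (univ \ h31_U F).card + 3 * F.card = Fintype.card ι := by
    rw [← hU, Finset.card_sdiff_add_card_eq_card (Finset.subset_univ _), Finset.card_univ]
  have hP : ∀ i, (P i).card ≤ 4 * (if i ∈ M then 2 else 1) := by
    intro i
    by_cases h : i ∈ M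
    · rw [if_pos h]
      have h2 : (P i).card ≤ Fintype.card St := Finset.card_le_univ _
      have h3 : Fintype.card St = 6 := by simp
      omega
    · rw [if_neg h]
      exact hM i h
  have hprod : ∏ i ∈ univ \ h31_U F, (P i).card ≤ 4 ^ (univ \ h31_U F).card * 2 ^ M.card := by
    calc ∏ i ∈ univ \ h31_U F, (P i).card ≤ ∏ i ∈ univ \ h31_U F, 4 * (if i ∈ M then 2 else 1) :=
          Finset.prod_le_prod' fun i _ => hP i
      _ = 4 ^ (univ \ h31_U F).card * ∏ i ∈ univ \ h31_U F, (if i ∈ M then 2 else 1) := by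
          rw [Finset.prod_mul_distrib, Finset.prod_const]
      _ ≤ 4 ^ (univ \ h31_U F).card * 2 ^ M.card := by
          refine Nat.mul_le_mul_left _ ?_
          rw [← Finset.prod_filter, Finset.prod_const]
          refine Nat.pow_le_pow_right (by norm_num) (Finset.card_le_card ?_)
          intro i hi
          exact (Finset.mem_filter.1 hi).2
  have haux := h31_aux G F hG P
  calc _ ≤ (63 ^ F.card * ∏ i ∈ univ \ h31_U F, (P i).card) * 64 ^ F.card := Nat.mul_le_mul_right _ haux
    _ ≤ (63 ^ F.card * (4 ^ (univ \ h31_U F).card * 2 ^ M.card)) * 64 ^ F.card :=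
        Nat.mul_le_mul_right _ (Nat.mul_le_mul_left _ hprod)
    _ = 63 ^ F.card * 4 ^ Fintype.card ι * 2 ^ M.card := by
        have e : (64 : ℕ) ^ F.card = 4 ^ (3 * F.card) := by
          rw [pow_mul]
          norm_num
        rw [← hcard, pow_add, e]
        ring

end Pool.Agent.Helper74.TS
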