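import Pool.Agent.Helper74.TS.Defs

/-!
# TS-THR: thresholds

PROOF. `θ₁` = the first `a` with `T w (q a) = (χ + 1, true)` (`t` if there is none), `θ₂` = the first `a` with
`T w (q a) = (χ + 2, true)`. The states of colour `χ` are always allowed. If `T w (q b) = (χ + 1, true)` then `θ₁ ≤ b`. If
`T w (q b) = (χ + 2, false)` then `b < θ₁`: otherwise `a = θ₁ ≤ b`, `a ≠ b`, and `w → q a → q b → w` has colours `χ + 1, χ, χ + 2`
(`T (q b) w = (χ + 2, true)`), a rainbow triangle. In the same way for `θ₂` with `χ + 1` and `χ + 2` exchanged.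
-/

set_option autoImplicit false

namespace Pool.Agent.Helper74.TS

open Finset Classical

/-- the first place where a property holds -/
private theorem thr_first {t : ℕ} (p : Fin t → Prop) :
    ∃ θ : Fin (t + 1), ∀ b : Fin t, (b : ℕ) < θ ↔ ∀ a : Fin t, a ≤ b → ¬ p a := by
  by_cases h : ∃ k : ℕ, ∃ a : Fin t, (a : ℕ) = k ∧ p a
  · obtain ⟨a, ha, hpa⟩ := Nat.find_spec h
    refine ⟨⟨Nat.find h, by rw [← ha]; exact Nat.lt_succ_of_lt a.2⟩, fun b => ?_⟩
    constructor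
    · intro hb c hc hpc
      have h1 : Nat.find h ≤ (c : ℕ) := Nat.find_min' h ⟨c, rfl, hpc⟩
      have h2 : (c : ℕ) ≤ b := hc
      have h3 : (b : ℕ) < Nat.find h := hb
      omega
    · intro hb
      by_contra hcon
      have h3 : Nat.find h ≤ (b : ℕ) := not_lt.1 hcon
      exact hb a (Fin.le_def.2 (by rw [ha]; exact h3)) hpa
  · refine ⟨Fin.last t, fun b => ?_⟩
    constructor
    · intro _ c _ hpc
      exact h ⟨c, c, rfl, hpc⟩
    · intro _
      exact b.2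

/-- the rainbow triangle `w → q a → q b → w` is excluded -/
private theorem thr_tri {V : Type} {T : V → V → St} (hT : IsCT T) (hR : RF T) {t : ℕ} (χ : Fin 3) (q : Fin t → V)
    (hq : Function.Injective q) (hc : ∀ a b, a < b → T (q a) (q b) = (χ, true)) (w : V) (hw : ∀ a, w ≠ q a)
    (i j : Fin 3) (h1 : i ≠ χ) (h2 : χ ≠ j) (h3 : i ≠ j) (a b : Fin t) (hab : a ≤ b)
    (ha : T w (q a) = (i, true)) (hb : T w (q b) = (j, false)) : False := by
  have hne : a ≠ b := by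
    rintro rfl
    rw [ha] at hb
    simp at hb
  have hlt : a < b := lt_of_le_of_ne hab hne
  have hbw : T (q b) w = (j, true) := by
    rw [hT.2 w (q b) (hw b), hb]
    rfl
  refine hR w (q a) (q b) (hw a) (fun h => hne (hq h)) (hw b) ?_
  rw [ha, hc a b hlt, hbw]
  exact ⟨rfl, rfl, rfl, h1, h2, h3⟩

theorem thresholds {V : Type} {T : V → V → St} (hT : IsCT T) (hR : RF T) {t : ℕ} (χ : Fin 3) (q : Fin t → V)
    (hq : Function.Injective q) (hc : ∀ a b, a < b → T (q a) (q b) = (χ, true)) (w : V) (hw : ∀ a, w ≠ q a) :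
    ∃ θ₁ θ₂ : Fin (t + 1), ∀ b : Fin t, T w (q b) ∈ Al χ (decide ((b : ℕ) < θ₁)) (decide ((b : ℕ) < θ₂)) := by
  obtain ⟨θ₁, h₁⟩ := thr_first (fun a => T w (q a) = (χ + 1, true))
  obtain ⟨θ₂, h₂⟩ := thr_first (fun a => T w (q a) = (χ + 2, true))
  refine ⟨θ₁, θ₂, fun b => ?_⟩
  have hχ : ∀ χ : Fin 3, χ + 1 ≠ χ ∧ χ + 2 ≠ χ ∧ χ + 1 ≠ χ + 2 := by decide
  obtain ⟨e1, e2, e3⟩ := hχ χ
  have hcase : ∀ c χ : Fin 3, c = χ ∨ c = χ + 1 ∨ c = χ + 2 := by decide
  rcases hs : T w (q b) with ⟨c, d⟩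
  unfold Al
  simp only [Finset.mem_insert, Finset.mem_singleton]
  rcases hcase c χ with rfl | rfl | rfl
  · cases d
    · exact Or.inr (Or.inl rfl)
    · exact Or.inl rfl
  · cases d
    · -- `(χ + 1, false)`: `b < θ₂`
      have hb : (b : ℕ) < θ₂ := (h₂ b).2 fun a hab ha =>
        thr_tri hT hR χ q hq hc w hw (χ + 2) (χ + 1) e2 e1.symm e3.symm a b hab ha hs
      refine Or.inr (Or.inr (Or.inr ?_))
      simp [hb]
    · have hb : ¬ (b : ℕ) < θ₁ := fun h => (h₁ b).1 h b le_rfl hs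
      refine Or.inr (Or.inr (Or.inl ?_))
      simp [hb]
  · cases d
    · have hb : (b : ℕ) < θ₁ := (h₁ b).2 fun a hab ha =>
        thr_tri hT hR χ q hq hc w hw (χ + 1) (χ + 2) e1 e2.symm e3 a b hab ha hs
      refine Or.inr (Or.inr (Or.inl ?_))
      simp [hb]
    · have hb : ¬ (b : ℕ) < θ₂ := fun h => (h₂ b).1 h b le_rfl hs
      refine Or.inr (Or.inr (Or.inr ?_))
      simp [hb]

end Pool.Agent.Helper74.TS
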