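import Pool.Agent.Helper74.TS.Fam
import Pool.Agent.Helper74.TS.Cnt
import Pool.Agent.Helper74.TS.Blk
import Pool.Agent.Helper74.TS.Thr

/-!
# TS-CLA: the number of tournaments with two deficient colours, fixed parameters

Data: blocks `q`, their colours `χ`, thresholds `θ`, the four sets and the two colours. The container `Pc D u v`.
-/

set_option autoImplicit false

namespace Pool.Agent.Helper74.TS

open Finset Classical

/-- the data of a container -/
structure Dt (n N t : ℕ) where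
  q : Fin N → Fin t → Fin n
  χ : Fin N → Fin 3
  θ : Fin n → Fin N → Fin (t + 1) × Fin (t + 1)
  X : Finset (Fin n)
  Y : Finset (Fin n)
  X' : Finset (Fin n)
  Y' : Finset (Fin n)
  k : Fin 3
  k' : Fin 3

/-- the conditions on the state `s` of `(u, v)` seen from `u` -/
def Dt.Ok {n N t : ℕ} (D : Dt n N t) (u v : Fin n) (s : St) : Prop :=
  (∀ i a j b, i ≠ j → D.q i a = u → D.q j b = v →
    s ∈ Al (D.χ j) (decide ((b : ℕ) < (D.θ u j).1)) (decide ((b : ℕ) < (D.θ u j).2))) ∧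
  (u ∈ D.X → v ∈ D.Y → s ≠ (D.k, true)) ∧ (u ∈ D.X' → v ∈ D.Y' → s ≠ (D.k', true))

/-- the container -/
noncomputable def Dt.P {n N t : ℕ} (D : Dt n N t) (u v : Fin n) : Finset St :=
  univ.filter (fun s => D.Ok u v s ∧ D.Ok v u (rv s))

/-- pairs which are not in distinct blocks -/
def Dt.M {n N t : ℕ} (D : Dt n N t) (u v : Fin n) : Prop := ¬ ∃ i a j b, i ≠ j ∧ D.q i a = u ∧ D.q j b = v

/-- the good data -/
def Dt.Good {n N t : ℕ} (d : ℕ) (D : Dt n N t) : Prop :=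
  Function.Injective (fun p : Fin N × Fin t => D.q p.1 p.2) ∧ d ≤ D.X.card ∧ d ≤ D.Y.card ∧
    d ≤ D.X'.card ∧ d ≤ D.Y'.card ∧ D.k ≠ D.k'

/-- the tournaments in the container -/
noncomputable def Dt.S {n N t : ℕ} (D : Dt n N t) : Finset (Fin n → Fin n → St) :=
  univ.filter (fun T => IsCT T ∧ RF T ∧ ∀ u v, u ≠ v → T u v ∈ D.P u v)

private lemma P_symm {n N t : ℕ} (D : Dt n N t) (u v : Fin n) (s : St) : s ∈ D.P u v ↔ rv s ∈ D.P v u := by
  unfold Dt.P
  rw [mem_filter, mem_filter, rv_rv]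
  constructor
  · rintro ⟨-, h1, h2⟩
    exact ⟨mem_univ _, h2, h1⟩
  · rintro ⟨-, h1, h2⟩
    exact ⟨mem_univ _, h2, h1⟩

private lemma M_symm {n N t : ℕ} (D : Dt n N t) (u v : Fin n) (h : D.M u v) : D.M v u := by
  rintro ⟨i, a, j, b, hij, h1, h2⟩
  exact h ⟨j, b, i, a, hij.symm, h2, h1⟩

private lemma P_small {n N t : ℕ} (D : Dt n N t) (u v : Fin n) (h : ¬ D.M u v) : Small (D.P u v) := by
  unfold Dt.M at h
  rw [not_not] at h
  obtain ⟨i, a, j, b, hij, h1, h2⟩ := h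
  refine ⟨D.χ j, decide ((b : ℕ) < (D.θ u j).1), decide ((b : ℕ) < (D.θ u j).2), fun s hs => ?_⟩
  unfold Dt.P at hs
  rw [mem_filter] at hs
  exact hs.2.1.1 i a j b hij h1 h2

private lemma M_card {n N t : ℕ} (d : ℕ) (D : Dt n N t) (hD : D.Good d) :
    (univ.filter (fun z : Fin n × Fin n => D.M z.1 z.2)).card ≤ N * t * t + 2 * n * (n - N * t) := by
  set C : Finset (Fin n) := univ.image (fun p : Fin N × Fin t => D.q p.1 p.2) with hC
  have hCc : C.card = N * t := by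
    rw [hC, card_image_of_injective _ hD.1, card_univ, Fintype.card_prod, Fintype.card_fin, Fintype.card_fin]
  have hCc' : Cᶜ.card = n - N * t := by rw [card_compl, hCc, Fintype.card_fin]
  have hsub : univ.filter (fun z : Fin n × Fin n => D.M z.1 z.2) ⊆
      (univ.image (fun p : Fin N × Fin t × Fin t => (D.q p.1 p.2.1, D.q p.1 p.2.2))) ∪
        (Cᶜ ×ˢ (univ : Finset (Fin n)) ∪ (univ : Finset (Fin n)) ×ˢ Cᶜ) := by
    rintro ⟨u, v⟩ hz
    rw [mem_filter] at hz
    have hM := hz.2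
    rw [mem_union, mem_union, mem_product, mem_product, mem_compl, mem_compl]
    by_cases hu : u ∈ C
    · by_cases hv : v ∈ C
      · left
        rw [hC, mem_image] at hu hv
        obtain ⟨⟨i, a⟩, -, hu⟩ := hu
        obtain ⟨⟨j, b⟩, -, hv⟩ := hv
        by_cases hij : i = j
        · subst hij
          rw [mem_image]
          exact ⟨(i, a, b), mem_univ _, by rw [← hu, ← hv]⟩
        · exact absurd ⟨i, a, j, b, hij, hu, hv⟩ hM
      · right; right
        exact ⟨mem_univ _, hv⟩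
    · right; left
      exact ⟨hu, mem_univ _⟩
  refine (card_le_card hsub).trans ((card_union_le _ _).trans ?_)
  have h1 : (univ.image (fun p : Fin N × Fin t × Fin t => (D.q p.1 p.2.1, D.q p.1 p.2.2))).card ≤ N * t * t := by
    refine card_image_le.trans ?_
    rw [card_univ, Fintype.card_prod, Fintype.card_prod, Fintype.card_fin, Fintype.card_fin, mul_assoc]
  have h2 : (Cᶜ ×ˢ (univ : Finset (Fin n)) ∪ (univ : Finset (Fin n)) ×ˢ Cᶜ).card ≤ 2 * n * (n - N * t) := by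
    refine (card_union_le _ _).trans ?_
    rw [card_product, card_product, hCc', card_univ, Fintype.card_fin]
    apply le_of_eq
    ring
  omega

private lemma RB_comm {x y z : St} (h : RB x y z) : RB x z y :=
  ⟨h.1, h.2.2.1, h.2.1, h.2.2.2.2.2, h.2.2.2.2.1.symm, h.2.2.2.1⟩

private lemma pow_cancel {a K f g : ℕ} (hfg : g ≤ f) (h : a * 64 ^ f ≤ 63 ^ f * K) : a * 64 ^ g ≤ 63 ^ g * K := by
  obtain ⟨e, rfl⟩ := Nat.exists_eq_add_of_le hfg
  have h1 : a * 64 ^ g * 64 ^ e ≤ 63 ^ g * K * 64 ^ e := by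
    calc a * 64 ^ g * 64 ^ e = a * 64 ^ (g + e) := by rw [pow_add]; ring
      _ ≤ 63 ^ (g + e) * K := h
      _ = 63 ^ g * K * 63 ^ e := by rw [pow_add]; ring
      _ ≤ 63 ^ g * K * 64 ^ e := Nat.mul_le_mul_left _ (Nat.pow_le_pow_left (by norm_num) e)
  exact Nat.le_of_mul_le_mul_right h1 (by positivity)

private lemma core' {ι : Type} [Fintype ι] (P : ι → Finset St) (F : Finset (ι × ι × ι))
    (G : ι × ι × ι → Finset (St × St × St)) (h1 : ∀ p ∈ F, p.1 ≠ p.2.1 ∧ p.2.1 ≠ p.2.2 ∧ p.1 ≠ p.2.2)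
    (hd : ∀ p ∈ F, ∀ r ∈ F, p ≠ r → ∀ e, (e = p.1 ∨ e = p.2.1 ∨ e = p.2.2) → ¬ (e = r.1 ∨ e = r.2.1 ∨ e = r.2.2))
    (hG : ∀ p ∈ F, (G p).card ≤ 63) (M : Finset ι) (hM : ∀ i, i ∉ M → (P i).card ≤ 4) :
    ∃ W : Finset (ι → St), (∀ f : ι → St, (∀ i, f i ∈ P i) → (∀ p ∈ F, (f p.1, f p.2.1, f p.2.2) ∈ G p) → f ∈ W) ∧
      W.card * 64 ^ F.card ≤ 63 ^ F.card * 4 ^ Fintype.card ι * 2 ^ M.card := by
  refine ⟨_, fun f hf hf' => ?_, count_core P F G h1 (fun p hp r hr hpr => ?_) hG M hM⟩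
  · rw [mem_filter]
    exact ⟨mem_univ _, hf, hf'⟩
  · rw [Finset.disjoint_left]
    intro e he he'
    simp only [mem_insert, mem_singleton] at he he'
    exact hd p hp r hr hpr e he he'

private lemma S_bound {n N t d g m : ℕ} (hd : 64 ≤ d) (hm : N * t * t + 2 * n * (n - N * t) ≤ m)
    (hg : 32 * (m + 6 * g) ≤ d ^ 2) (D : Dt n N t) (hD : D.Good d) :
    D.S.card * 64 ^ g ≤ 63 ^ g * 4 ^ n.choose 2 * 2 ^ m := by
  obtain ⟨hinj, hX, hY, hX', hY', hk⟩ := hD
  have hMc := (M_card d D ⟨hinj, hX, hY, hX', hY', hk⟩).trans hm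
  obtain ⟨F, hF1, hF2, hF3⟩ := family D.P (P_symm D) D.M (M_symm D) (fun u v _ h => P_small D u v h) d hd
    D.k D.k' hk D.X D.Y D.X' D.Y' hX hY hX' hY'
    (fun u hu v hv _ hmem => by
      unfold Dt.P at hmem
      rw [mem_filter] at hmem
      exact hmem.2.1.2.1 hu hv rfl)
    (fun u hu v hv _ hmem => by
      unfold Dt.P at hmem
      rw [mem_filter] at hmem
      exact hmem.2.1.2.2 hu hv rfl)
  have hgF : g ≤ F.card := by
    have h1 : 32 * (m + 6 * g) ≤ 32 * (m + 6 * F.card) := hg.trans (hF3.trans (by omega))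
    omega
  -- the family on `E n`
  let φ : {p : Fin n × Fin n × Fin n // p ∈ F} → E n × E n × E n := fun p =>
    (⟨(p.1.1, p.1.2.1), (hF1 p.1 p.2).1⟩, ⟨(p.1.2.1, p.1.2.2), (hF1 p.1 p.2).2.1⟩,
      ⟨(p.1.1, p.1.2.2), (hF1 p.1 p.2).1.trans (hF1 p.1 p.2).2.1⟩)
  have hφ : Function.Injective φ := by
    rintro ⟨⟨a, b, c⟩, hp⟩ ⟨⟨a', b', c'⟩, hp'⟩ h
    simp only [φ, Prod.mk.injEq, Subtype.mk.injEq] at h
    obtain ⟨⟨rfl, rfl⟩, ⟨-, rfl⟩, -⟩ := h
    rfl
  set F' : Finset (E n × E n × E n) := F.attach.image φ with hF'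
  have hF'c : F'.card = F.card := by rw [hF', card_image_of_injective _ hφ, card_attach]
  let G : E n × E n × E n → Finset (St × St × St) := fun p =>
    (Gd (D.P p.1.1.1 p.1.1.2) (D.P p.2.1.1.1 p.2.1.1.2) (D.P p.2.2.1.2 p.2.2.1.1)).image
      (fun x => (x.1, x.2.1, rv x.2.2))
  set M' : Finset (E n) := univ.filter (fun e => D.M e.1.1 e.1.2) with hM'
  have hM'c : M'.card ≤ m := by
    refine le_trans ?_ hMc
    refine card_le_card_of_injOn (fun e => (e.1 : Fin n × Fin n)) (fun e he => ?_)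
      (fun e _ e' _ h => Subtype.ext h)
    rw [hM', mem_coe, mem_filter] at he
    rw [mem_coe, mem_filter]
    exact ⟨mem_univ _, he.2⟩
  obtain ⟨W, hW, hcore⟩ := core' (ι := E n) (fun e => D.P e.1.1 e.1.2) F' G
    (by
      intro p hp
      rw [hF', mem_image] at hp
      obtain ⟨p, -, rfl⟩ := hp
      have h1 := (hF1 p.1 p.2).1
      have h2 := (hF1 p.1 p.2).2.1
      refine ⟨fun h => ?_, fun h => ?_, fun h => ?_⟩
      · have := congrArg (fun e : E n => e.1.1) h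
        exact h1.ne this
      · have := congrArg (fun e : E n => e.1.1) h
        exact h1.ne this.symm
      · have := congrArg (fun e : E n => e.1.2) h
        exact h2.ne this)
    (by
      intro p hp r hr hpr
      rw [hF', mem_image] at hp hr
      obtain ⟨p, -, rfl⟩ := hp
      obtain ⟨r, -, rfl⟩ := hr
      have hne : p.1 ≠ r.1 := fun h => hpr (congrArg φ (Subtype.ext h))
      have hdis := hF2 p.1 p.2 r.1 r.2 hne
      rw [Finset.disjoint_left] at hdis
      intro e he he'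
      refine hdis (a := e.1) ?_ ?_
      · unfold pr
        simp only [mem_insert, mem_singleton]
        rcases he with rfl | rfl | rfl
        · exact Or.inl rfl
        · exact Or.inr (Or.inl rfl)
        · exact Or.inr (Or.inr rfl)
      · unfold pr
        simp only [mem_insert, mem_singleton]
        rcases he' with rfl | rfl | rfl
        · exact Or.inl rfl
        · exact Or.inr (Or.inl rfl)
        · exact Or.inr (Or.inr rfl))
    (by
      intro p hp
      rw [hF', mem_image] at hp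
      obtain ⟨p, -, rfl⟩ := hp
      exact card_image_le.trans (hF1 p.1 p.2).2.2.2.2.2)
    M'
    (by
      intro e he
      have h1 : ¬ D.M e.1.1 e.1.2 := fun h => he (by rw [hM', mem_filter]; exact ⟨mem_univ _, h⟩)
      obtain ⟨χ, b₁, b₂, hs⟩ := P_small D _ _ h1
      exact (card_le_card hs).trans (Al_card χ b₁ b₂).le)
  have hle : D.S.card ≤ W.card := by
    refine card_le_card_of_injOn (fun T => fun e : E n => T e.1.1 e.1.2) (fun T hT => ?_) (fun T hT T' hT' h => ?_)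
    · unfold Dt.S at hT
      rw [mem_coe, mem_filter] at hT
      obtain ⟨-, hCT, hRF, hTP⟩ := hT
      rw [mem_coe]
      refine hW _ (fun e => hTP _ _ e.2.ne) (fun p hp => ?_)
      rw [hF', mem_image] at hp
      obtain ⟨⟨⟨a, b, c⟩, hpF⟩, -, rfl⟩ := hp
      have h1 : a < b := (hF1 _ hpF).1
      have h2 : b < c := (hF1 _ hpF).2.1
      have h3 : a < c := h1.trans h2
      show (T a b, T b c, T a c) ∈ (Gd (D.P a b) (D.P b c) (D.P c a)).image (fun x => (x.1, x.2.1, rv x.2.2))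
      rw [mem_image]
      refine ⟨(T a b, T b c, T c a), ?_, ?_⟩
      · unfold Gd
        rw [mem_filter, mem_product, mem_product]
        refine ⟨⟨hTP _ _ h1.ne, hTP _ _ h2.ne, hTP _ _ h3.ne'⟩, hRF a b c h1.ne h2.ne h3.ne, fun hrb => ?_⟩
        have e1 : rv (T a b) = T b a := (hCT.2 a b h1.ne).symm
        have e2 : rv (T b c) = T c b := (hCT.2 b c h2.ne).symm
        have e3 : rv (T c a) = T a c := (hCT.2 c a h3.ne').symm
        simp only [e1, e2, e3] at hrb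
        exact hRF b a c h1.ne' h3.ne h2.ne (RB_comm hrb)
      · show (T a b, T b c, rv (T c a)) = (T a b, T b c, T a c)
        rw [hCT.2 c a h3.ne']
    · unfold Dt.S at hT hT'
      rw [mem_coe, mem_filter] at hT hT'
      obtain ⟨f, hf⟩ := exists_toT hT.2.1
      obtain ⟨f', hf'⟩ := exists_toT hT'.2.1
      have : f = f' := by
        funext e
        have h1 := congrFun h e
        simp only [← hf, ← hf'] at h1
        rw [toT_lt f e.2, toT_lt f' e.2] at h1
        exact h1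
      rw [← hf, ← hf', this]
  rw [hF'c, card_E] at hcore
  have h5 : D.S.card * 64 ^ F.card ≤ 63 ^ F.card * (4 ^ n.choose 2 * 2 ^ m) := by
    calc D.S.card * 64 ^ F.card ≤ W.card * 64 ^ F.card := Nat.mul_le_mul_right _ hle
      _ ≤ 63 ^ F.card * 4 ^ n.choose 2 * 2 ^ M'.card := hcore
      _ ≤ 63 ^ F.card * 4 ^ n.choose 2 * 2 ^ m :=
          Nat.mul_le_mul_left _ (Nat.pow_le_pow_right (by norm_num) hM'c)
      _ = 63 ^ F.card * (4 ^ n.choose 2 * 2 ^ m) := by ring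
  have h6 := pow_cancel hgF h5
  rw [mul_assoc]
  exact h6

private lemma exists_data {n N t d : ℕ} (h1 : N * t + 6 ^ (6 * t) ≤ n) {T : Fin n → Fin n → St} (hT : T ∈ CD n d) :
    ∃ D : Dt n N t, D.Good d ∧ T ∈ D.S := by
  unfold CD at hT
  rw [mem_filter, mem_CR] at hT
  obtain ⟨⟨hCT, hRF⟩, k, k', hk, ⟨X, Y, -, hX, hY, hXY⟩, ⟨X', Y', -, hX', hY', hXY'⟩⟩ := hT
  obtain ⟨q, χ, hinj, hch⟩ := blocks hCT t N (by rw [Fintype.card_fin]; exact h1)
  have hθ : ∀ w j, ∃ θ : Fin (t + 1) × Fin (t + 1), (∀ a, w ≠ q j a) →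
      ∀ b : Fin t, T w (q j b) ∈ Al (χ j) (decide ((b : ℕ) < θ.1)) (decide ((b : ℕ) < θ.2)) := by
    intro w j
    by_cases hw : ∀ a, w ≠ q j a
    · obtain ⟨θ₁, θ₂, h⟩ := thresholds hCT hRF (χ j) (q j)
        (fun a b hab => (Prod.mk.inj (hinj (a₁ := (j, a)) (a₂ := (j, b)) hab)).2) (hch j) w hw
      exact ⟨(θ₁, θ₂), fun _ => h⟩
    · exact ⟨(0, 0), fun h => absurd h hw⟩
  choose θ hθ using hθ
  let D : Dt n N t := ⟨q, χ, θ, X, Y, X', Y', k, k'⟩
  have hOk : ∀ u v, D.Ok u v (T u v) := by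
    intro u v
    refine ⟨fun i a j b hij hu hv => ?_, fun hu hv => hXY u hu v hv, fun hu hv => hXY' u hu v hv⟩
    have hu' : q i a = u := hu
    have hv' : q j b = v := hv
    have h2 := hθ u j (fun a' h => hij (Prod.mk.inj (hinj (a₁ := (i, a)) (a₂ := (j, a')) (hu'.trans h))).1) b
    rw [hv'] at h2
    exact h2
  refine ⟨D, ⟨hinj, hX, hY, hX', hY', hk⟩, ?_⟩
  unfold Dt.S
  rw [mem_filter]
  refine ⟨mem_univ _, hCT, hRF, fun u v huv => ?_⟩
  unfold Dt.P
  rw [mem_filter, ← hCT.2 u v huv]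
  exact ⟨mem_univ _, hOk u v, hOk v u⟩

theorem claimA_fixed (n t N d g m : ℕ) (h1 : N * t + 6 ^ (6 * t) ≤ n) (hd : 64 ≤ d)
    (hm : N * t * t + 2 * n * (n - N * t) ≤ m) (hg : 32 * (m + 6 * g) ≤ d ^ 2) :
    (CD n d).card * 64 ^ g ≤ 63 ^ g * 4 ^ n.choose 2 * 2 ^ m *
      (n ^ (N * t) * 3 ^ N * ((t + 1) * (t + 1)) ^ (n * N) * (2 ^ n) ^ 4 * 9) := by
  let Pr : Type := (Fin N → Fin t → Fin n) × (Fin N → Fin 3) × (Fin n → Fin N → Fin (t + 1) × Fin (t + 1)) ×
    Finset (Fin n) × Finset (Fin n) × Finset (Fin n) × Finset (Fin n) × Fin 3 × Fin 3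
  let mk : Pr → Dt n N t := fun p =>
    ⟨p.1, p.2.1, p.2.2.1, p.2.2.2.1, p.2.2.2.2.1, p.2.2.2.2.2.1, p.2.2.2.2.2.2.1, p.2.2.2.2.2.2.2.1, p.2.2.2.2.2.2.2.2⟩
  have hsub : CD n d ⊆ ((univ : Finset Pr).filter (fun p => (mk p).Good d)).biUnion (fun p => (mk p).S) := by
    intro T hT
    obtain ⟨D, hD, hTD⟩ := exists_data h1 hT
    rw [mem_biUnion]
    exact ⟨(D.q, D.χ, D.θ, D.X, D.Y, D.X', D.Y', D.k, D.k'), by rw [mem_filter]; exact ⟨mem_univ _, hD⟩, hTD⟩
  have hcard : Fintype.card Pr = n ^ (N * t) * 3 ^ N * ((t + 1) * (t + 1)) ^ (n * N) * (2 ^ n) ^ 4 * 9 := by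
    simp only [Pr, Fintype.card_prod, Fintype.card_fun, Fintype.card_fin, Fintype.card_finset]
    rw [← pow_mul, ← pow_mul, mul_comm t N, mul_comm N n]
    ring
  calc (CD n d).card * 64 ^ g
      ≤ (((univ : Finset Pr).filter (fun p => (mk p).Good d)).biUnion (fun p => (mk p).S)).card * 64 ^ g :=
        Nat.mul_le_mul_right _ (card_le_card hsub)
    _ ≤ (∑ p ∈ (univ : Finset Pr).filter (fun p => (mk p).Good d), (mk p).S.card) * 64 ^ g :=
        Nat.mul_le_mul_right _ card_biUnion_le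
    _ = ∑ p ∈ (univ : Finset Pr).filter (fun p => (mk p).Good d), (mk p).S.card * 64 ^ g := by rw [sum_mul]
    _ ≤ ∑ p ∈ (univ : Finset Pr).filter (fun p => (mk p).Good d), 63 ^ g * 4 ^ n.choose 2 * 2 ^ m := by
        refine sum_le_sum fun p hp => ?_
        rw [mem_filter] at hp
        exact S_bound hd hm hg (mk p) hp.2
    _ = ((univ : Finset Pr).filter (fun p => (mk p).Good d)).card * (63 ^ g * 4 ^ n.choose 2 * 2 ^ m) := by
        rw [sum_const, smul_eq_mul]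
    _ ≤ Fintype.card Pr * (63 ^ g * 4 ^ n.choose 2 * 2 ^ m) :=
        Nat.mul_le_mul_right _ ((card_le_card (filter_subset _ _)).trans (le_of_eq card_univ))
    _ = _ := by rw [hcard, mul_comm]

end Pool.Agent.Helper74.TS
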