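import Pool.Agent.Helper74.TS.Defs

/-!
# TS-CNN: three triangles with a common vertex in a dense graph

PROOF. Let `D` be the set of the vertices `u` with more than `d / 8` (natural division is allowed, or `8 * deg > d`) vertices `w` with `M u w`. Then
`D.card * d ≤ 8 * (number of pairs) ≤ d ^ 2 / 4`, so `4 * D.card ≤ d`. Choose `v ∉ D`; `a ∈ X`, `a ∉ D`, `a ≠ v`, not `M v a`
(`d - d/4 - 1 - d/8 > 0`); `a' ∈ X'`, `a' ∉ D`, `a' ≠ v`, `a' ≠ a`, not `M v a'`, not `M a a'`; `b ∈ Y`, `b ≠ v`, `b ≠ a`, not `M v b`, not `M a b`;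
`b' ∈ Y'`, `b' ≠ v`, `b' ≠ a'`, not `M v b'`, not `M a' b'`.
-/

set_option autoImplicit false

namespace Pool.Agent.Helper74.TS

open Finset Classical

theorem connect {V : Type} [Fintype V] (M : V → V → Prop) (d : ℕ) (hd : 64 ≤ d)
    (hM : 32 * (univ.filter (fun p : V × V => M p.1 p.2)).card ≤ d ^ 2)
    (X Y X' Y' : Finset V) (hX : d ≤ X.card) (hY : d ≤ Y.card) (hX' : d ≤ X'.card) (hY' : d ≤ Y'.card) :
    ∃ v a b a' b', a ∈ X ∧ b ∈ Y ∧ a' ∈ X' ∧ b' ∈ Y' ∧ v ≠ a ∧ v ≠ b ∧ a ≠ b ∧ v ≠ a' ∧ v ≠ b' ∧ a' ≠ b' ∧ a ≠ a' ∧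
      ¬ M v a ∧ ¬ M v b ∧ ¬ M a b ∧ ¬ M v a' ∧ ¬ M v b' ∧ ¬ M a' b' ∧ ¬ M a a' := by
  set out : V → Finset V := fun u => univ.filter (fun w => M u w) with hout
  set D : Finset V := univ.filter (fun u => d < 8 * (out u).card) with hD
  have hsum : ∑ u, (out u).card = (univ.filter (fun p : V × V => M p.1 p.2)).card := by
    rw [← Finset.card_sigma]
    refine Finset.card_bij (fun p _ => (p.1, p.2)) ?_ ?_ ?_
    · rintro ⟨u, w⟩ h
      simp only [hout, Finset.mem_sigma, Finset.mem_filter, Finset.mem_univ, true_and] at h ⊢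
      exact h
    · rintro ⟨u, w⟩ _ ⟨u', w'⟩ _ h
      simp only [Prod.mk.injEq] at h
      obtain ⟨rfl, rfl⟩ := h
      rfl
    · rintro ⟨u, w⟩ h
      simp only [Finset.mem_filter, Finset.mem_univ, true_and] at h
      exact ⟨⟨u, w⟩, by simp [hout, h], rfl⟩
  have hDc : 4 * D.card ≤ d := by
    have h1 : D.card * d ≤ 8 * ∑ u ∈ D, (out u).card := by
      rw [Finset.mul_sum, ← smul_eq_mul, ← Finset.sum_const]
      refine Finset.sum_le_sum (fun u hu => ?_)
      rw [hD, Finset.mem_filter] at hu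
      exact hu.2.le
    have h2 : ∑ u ∈ D, (out u).card ≤ ∑ u, (out u).card :=
      Finset.sum_le_sum_of_subset (Finset.subset_univ D)
    rw [hsum] at h2
    have h3 : 4 * D.card * d ≤ d * d := by nlinarith
    exact Nat.le_of_mul_le_mul_right h3 (by omega)
  have hsm : ∀ u, u ∉ D → 8 * (out u).card ≤ d := by
    intro u hu
    rw [hD, Finset.mem_filter] at hu
    push Not at hu
    exact hu (Finset.mem_univ u)
  have pick : ∀ (Z B : Finset V), d ≤ Z.card → B.card < d → ∃ z ∈ Z, z ∉ B := fun Z B hZ hB =>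
    Finset.exists_mem_notMem_of_card_lt_card (hB.trans_le hZ)
  have hmem : ∀ u w, w ∉ out u → ¬ M u w := by
    intro u w h hM
    exact h (by simp [hout, hM])
  obtain ⟨v, -, hvD⟩ := pick X D hX (by omega)
  have hv := hsm v hvD
  have c1 : (D ∪ insert v (out v)).card < d := by
    have := Finset.card_union_le D (insert v (out v))
    have := Finset.card_insert_le v (out v)
    omega
  obtain ⟨a, haX, ha⟩ := pick X _ hX c1
  rw [Finset.mem_union, Finset.mem_insert, not_or, not_or] at ha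
  obtain ⟨haD, hav, hva⟩ := ha
  have hao := hsm a haD
  have c2 : (D ∪ insert v (insert a (out v ∪ out a))).card < d := by
    have := Finset.card_union_le D (insert v (insert a (out v ∪ out a)))
    have := Finset.card_insert_le v (insert a (out v ∪ out a))
    have := Finset.card_insert_le a (out v ∪ out a)
    have := Finset.card_union_le (out v) (out a)
    omega
  obtain ⟨a', haX', ha'⟩ := pick X' _ hX' c2
  rw [Finset.mem_union, Finset.mem_insert, Finset.mem_insert, Finset.mem_union, not_or, not_or, not_or,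
    not_or] at ha'
  obtain ⟨haD', hav', haa', hva', haa⟩ := ha'
  have hao' := hsm a' haD'
  have c3 : ∀ x, x ∉ D → (insert v (insert x (out v ∪ out x))).card < d := by
    intro x hx
    have hx' := hsm x hx
    have := Finset.card_insert_le v (insert x (out v ∪ out x))
    have := Finset.card_insert_le x (out v ∪ out x)
    have := Finset.card_union_le (out v) (out x)
    omega
  obtain ⟨b, hbY, hb⟩ := pick Y _ hY (c3 a haD)
  obtain ⟨b', hbY', hb'⟩ := pick Y' _ hY' (c3 a' haD')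
  rw [Finset.mem_insert, Finset.mem_insert, Finset.mem_union, not_or, not_or, not_or] at hb hb'
  obtain ⟨hbv, hba, hvb, hab⟩ := hb
  obtain ⟨hbv', hba', hvb', hab'⟩ := hb'
  exact ⟨v, a, b, a', b', haX, hbY, haX', hbY', Ne.symm hav, Ne.symm hbv, Ne.symm hba, Ne.symm hav',
    Ne.symm hbv', Ne.symm hba', Ne.symm haa', hmem _ _ hva, hmem _ _ hvb, hmem _ _ hab, hmem _ _ hva',
    hmem _ _ hvb', hmem _ _ hab', hmem _ _ haa⟩

end Pool.Agent.Helper74.TS
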