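import Mathlib

/-!
# Typical structure of 3-coloured tournaments without rainbow directed triangle (MP_fca86c_co)

Definitions of project TS. Paper proof: /team-store/helper74_fca86c_proof.md.
-/

set_option autoImplicit false

namespace Pool.Agent.Helper74.TS

open Finset Classical

/-- states of an ordered pair of vertices: the colour, and `true` if the arc goes forward -/
abbrev St : Type := Fin 3 × Bool

/-- the state seen from the other end -/
def rv (s : St) : St := (s.1, !s.2)

/-- a coloured tournament, as a matrix of states -/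
def IsCT {V : Type} (T : V → V → St) : Prop :=
  (∀ u, T u u = (0, true)) ∧ ∀ u v, u ≠ v → T v u = rv (T u v)

/-- a rainbow cyclic triangle: all three states forward, three colours -/
def RB (x y z : St) : Prop :=
  x.2 = true ∧ y.2 = true ∧ z.2 = true ∧ x.1 ≠ y.1 ∧ y.1 ≠ z.1 ∧ x.1 ≠ z.1

/-- no rainbow directed triangle -/
def RF {V : Type} (T : V → V → St) : Prop :=
  ∀ a b c, a ≠ b → b ≠ c → a ≠ c → ¬ RB (T a b) (T b c) (T c a)

/-- the coloured tournaments on `V` without rainbow directed triangle -/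
noncomputable def CR (V : Type) [Fintype V] : Finset (V → V → St) := univ.filter (fun T => IsCT T ∧ RF T)

/-- their number on `n` vertices -/
noncomputable def A (n : ℕ) : ℕ := (CR (Fin n)).card

/-- some colour is not used -/
def TwoCol {V : Type} (T : V → V → St) : Prop := ∃ k : Fin 3, ∀ u v, u ≠ v → (T u v).1 ≠ k

/-- the members of `CR` which use all three colours -/
noncomputable def CB (n : ℕ) : Finset (Fin n → Fin n → St) := (CR (Fin n)).filter (fun T => ¬ TwoCol T)

/-- colour `k` is `d`-deficient -/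
def Defi {V : Type} (d : ℕ) (k : Fin 3) (T : V → V → St) : Prop :=
  ∃ X Y : Finset V, Disjoint X Y ∧ d ≤ X.card ∧ d ≤ Y.card ∧ ∀ a ∈ X, ∀ b ∈ Y, T a b ≠ (k, true)

/-- the number of arcs of colour `k` at `v` -/
noncomputable def dg {V : Type} [Fintype V] (k : Fin 3) (T : V → V → St) (v : V) : ℕ :=
  (univ.filter (fun u => u ≠ v ∧ (T v u).1 = k)).card

/-- the unordered pairs of vertices -/
abbrev E (n : ℕ) : Type := {p : Fin n × Fin n // p.1 < p.2}

/-- the coloured tournament with given states of the pairs `u < v` -/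
def toT {n : ℕ} (f : E n → St) : Fin n → Fin n → St := fun u v =>
  if h : u < v then f ⟨(u, v), h⟩ else if h' : v < u then rv (f ⟨(v, u), h'⟩) else (0, true)

/-- the sets of four states -/
def Al (χ : Fin 3) (b₁ b₂ : Bool) : Finset St :=
  {(χ, true), (χ, false), (if b₁ then (χ + 2, false) else (χ + 1, true)),
    (if b₂ then (χ + 1, false) else (χ + 2, true))}

/-- subsets of one of the sets `Al` -/
def Small (P : Finset St) : Prop := ∃ χ b₁ b₂, P ⊆ Al χ b₁ b₂

/-- the choices in `P₁ × P₂ × P₃` which do not form a rainbow cyclic triangle in either direction -/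
noncomputable def Gd (P₁ P₂ P₃ : Finset St) : Finset (St × St × St) :=
  (P₁ ×ˢ P₂ ×ˢ P₃).filter (fun p => ¬ RB p.1 p.2.1 p.2.2 ∧ ¬ RB (rv p.1) (rv p.2.1) (rv p.2.2))

/-- the members of `CR` with two deficient colours -/
noncomputable def CD (n d : ℕ) : Finset (Fin n → Fin n → St) :=
  (CR (Fin n)).filter (fun T => ∃ k k' : Fin 3, k ≠ k' ∧ Defi d k T ∧ Defi d k' T)

/-- stage B: at most colour `k` is deficient, some vertex has at least `2 d` arcs of colour `k` -/
noncomputable def CB1 (n d : ℕ) (k : Fin 3) : Finset (Fin n → Fin n → St) :=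
  (CR (Fin n)).filter (fun T => (∀ i, i ≠ k → ¬ Defi d i T) ∧ ∃ v, 2 * d ≤ dg k T v)

/-- stage C: there is an arc of colour `k`, every vertex has less than `2 d` of them -/
noncomputable def CC1 (n d : ℕ) (k : Fin 3) : Finset (Fin n → Fin n → St) :=
  (CR (Fin n)).filter (fun T => (∃ a b, a ≠ b ∧ T a b = (k, true)) ∧ ∀ v, dg k T v < 2 * d)

lemma rv_rv (s : St) : rv (rv s) = s := by
  rcases s with ⟨c, b⟩
  simp [rv]

lemma rv_inj {s s' : St} (h : rv s = rv s') : s = s' := by rw [← rv_rv s, h, rv_rv]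

lemma mem_CR {V : Type} [Fintype V] {T : V → V → St} : T ∈ CR V ↔ IsCT T ∧ RF T := by
  simp [CR]

lemma toT_lt {n : ℕ} (f : E n → St) {u v : Fin n} (h : u < v) : toT f u v = f ⟨(u, v), h⟩ := by
  unfold toT
  rw [dif_pos h]

lemma toT_isCT {n : ℕ} (f : E n → St) : IsCT (toT f) := by
  refine ⟨fun u => ?_, fun u v huv => ?_⟩
  · unfold toT
    rw [dif_neg (lt_irrefl u), dif_neg (lt_irrefl u)]
  · rcases lt_or_gt_of_ne huv with h | h
    · unfold toT
      rw [dif_neg (asymm h), dif_pos h, dif_pos h]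
    · unfold toT
      rw [dif_pos h, dif_neg (asymm h), dif_pos h, rv_rv]

lemma toT_injective {n : ℕ} : Function.Injective (toT (n := n)) := by
  intro f g h
  funext ⟨⟨u, v⟩, huv⟩
  have h1 := congrFun (congrFun h u) v
  rw [toT_lt f huv, toT_lt g huv] at h1
  exact h1

lemma exists_toT {n : ℕ} {T : Fin n → Fin n → St} (hT : IsCT T) : ∃ f : E n → St, toT f = T := by
  refine ⟨fun e => T e.1.1 e.1.2, ?_⟩
  funext u v
  rcases lt_trichotomy u v with h | h | h
  · rw [toT_lt _ h]
  · subst h
    rw [(toT_isCT _).1 u, hT.1 u]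
  · rw [(toT_isCT _).2 v u h.ne, toT_lt _ h]
    exact (hT.2 v u h.ne).symm

lemma card_E (n : ℕ) : Fintype.card (E n) = n.choose 2 := by
  have h := Finset.card_powersetCard 2 (univ : Finset (Fin n))
  rw [Finset.card_univ, Fintype.card_fin] at h
  rw [← h, ← Finset.card_univ]
  refine Finset.card_bij (fun e _ => {e.1.1, e.1.2}) ?_ ?_ ?_
  · rintro ⟨⟨u, v⟩, huv⟩ _
    rw [Finset.mem_powersetCard]
    exact ⟨Finset.subset_univ _, Finset.card_pair huv.ne⟩
  · rintro ⟨⟨u, v⟩, huv⟩ _ ⟨⟨u', v'⟩, huv'⟩ _ h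
    simp only at h huv huv'
    have h1 : u ∈ ({u', v'} : Finset (Fin n)) := by rw [← h]; simp
    have h2 : v ∈ ({u', v'} : Finset (Fin n)) := by rw [← h]; simp
    have h3 : u' ∈ ({u, v} : Finset (Fin n)) := by rw [h]; simp
    rw [Finset.mem_insert, Finset.mem_singleton] at h1 h2 h3
    rcases h1 with h1 | h1 <;> rcases h2 with h2 | h2
    · exact absurd (h1.trans h2.symm) huv.ne
    · subst h1; subst h2; rfl
    · subst h1; subst h2
      exact absurd huv (asymm huv')
    · exact absurd (h1.trans h2.symm) huv.ne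
  · intro s hs
    rw [Finset.mem_powersetCard] at hs
    obtain ⟨x, y, hxy, rfl⟩ := Finset.card_eq_two.1 hs.2
    rcases lt_or_gt_of_ne hxy with h | h
    · exact ⟨⟨(x, y), h⟩, Finset.mem_univ _, rfl⟩
    · exact ⟨⟨(y, x), h⟩, Finset.mem_univ _, Finset.pair_comm y x⟩

end Pool.Agent.Helper74.TS
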