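import Pool.Agent.Helper74.TS.Defs

/-!
# TS-TRI: the finite check

PROOF of `small_rv`: `image rv (Al χ b₁ b₂) = Al χ (!b₂) (!b₁)`. PROOF of `triple_check`. If some `P i` has at most `3` elements, the product has at most `3 * 4 * 4 = 48` elements. Otherwise
`P i = Al ..` for all `i` (four elements each), and it is a finite check (`12 ^ 3` triples): `decide` or the argument: if `Gd` has 64 elements there is no
rainbow choice. Let `X i`, `Y i` be the sets of colours of the forward and of the backward states of `P i`; `(|X i|, |Y i|)` is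
`(1, 3)`, `(3, 1)` or `(2, 2)` with `X i = Y i`. A transversal of `X 1, X 2, X 3` (or of the `Y i`) is a rainbow choice. If `|X 1| = 3` then
`X 2 = X 3` is one point, so `|Y 2| = |Y 3| = 3`, a contradiction. So all are two-element sets without transversal, hence equal.
(For `decide` the predicate `RB` has to be decidable: give an instance for it. The instance in `Gd` is the classical one, use `convert`, `filter_congr_decidable` or work with elements.
Keep the number of cases of one `decide` small, e.g. use the symmetry under the colours or functions on `Fin 12`.)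
-/

set_option autoImplicit false

namespace Pool.Agent.Helper74.TS

open Finset Classical

theorem Al_card (χ : Fin 3) (b₁ b₂ : Bool) : (Al χ b₁ b₂).card = 4 := by
  revert χ b₁ b₂
  decide

private lemma h75_Al_mem : ∀ (χ : Fin 3) (b₁ b₂ : Bool) (s : St), rv s ∈ Al χ b₁ b₂ → s ∈ Al χ (!b₂) (!b₁) := by
  decide

/-- the colours of the forward states -/
private def h75_fw (a : Fin 3 × Bool × Bool) (c : Fin 3) : Bool :=
  decide (c = a.1) || (!a.2.1 && decide (c = a.1 + 1)) || (!a.2.2 && decide (c = a.1 + 2))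

/-- the colours of the backward states -/
private def h75_bw (a : Fin 3 × Bool × Bool) (c : Fin 3) : Bool :=
  decide (c = a.1) || (a.2.1 && decide (c = a.1 + 2)) || (a.2.2 && decide (c = a.1 + 1))

private lemma h75_mem_fw : ∀ (χ : Fin 3) (b₁ b₂ : Bool) (c : Fin 3),
    ((c, true) ∈ Al χ b₁ b₂ ↔ h75_fw (χ, b₁, b₂) c = true) := by
  decide

private lemma h75_mem_bw : ∀ (χ : Fin 3) (b₁ b₂ : Bool) (c : Fin 3),
    ((c, false) ∈ Al χ b₁ b₂ ↔ h75_bw (χ, b₁, b₂) c = true) := by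
  decide

/-- a transversal -/
private def h75_tr (f g h : Fin 3 → Bool) : Bool :=
  (f 0 && g 1 && h 2) || (f 0 && g 2 && h 1) || (f 1 && g 0 && h 2) || (f 1 && g 2 && h 0) ||
    (f 2 && g 0 && h 1) || (f 2 && g 1 && h 0)

/-- all colours except `k` -/
private def h75_ex (a : Fin 3 × Bool × Bool) (k : Fin 3) : Bool :=
  (h75_fw a 0 == decide (0 ≠ k)) && (h75_fw a 1 == decide (1 ≠ k)) && (h75_fw a 2 == decide (2 ≠ k)) &&
    (h75_bw a 0 == decide (0 ≠ k)) && (h75_bw a 1 == decide (1 ≠ k)) && (h75_bw a 2 == decide (2 ≠ k))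

private def h75_ck (a b c : Fin 3 × Bool × Bool) : Bool :=
  h75_tr (h75_fw a) (h75_fw b) (h75_fw c) || h75_tr (h75_bw a) (h75_bw b) (h75_bw c) ||
    (h75_ex a 0 && h75_ex b 0 && h75_ex c 0) || (h75_ex a 1 && h75_ex b 1 && h75_ex c 1) ||
    (h75_ex a 2 && h75_ex b 2 && h75_ex c 2)

private lemma h75_all : ∀ a b c : Fin 3 × Bool × Bool, h75_ck a b c = true := by
  decide +kernel

private lemma h75_tr_spec {f g h : Fin 3 → Bool} (H : h75_tr f g h = true) :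
    ∃ x y z : Fin 3, x ≠ y ∧ y ≠ z ∧ x ≠ z ∧ f x = true ∧ g y = true ∧ h z = true := by
  unfold h75_tr at H
  simp only [Bool.or_eq_true, Bool.and_eq_true] at H
  rcases H with ((((H | H) | H) | H) | H) | H
  · exact ⟨0, 1, 2, by decide, by decide, by decide, H.1.1, H.1.2, H.2⟩
  · exact ⟨0, 2, 1, by decide, by decide, by decide, H.1.1, H.1.2, H.2⟩
  · exact ⟨1, 0, 2, by decide, by decide, by decide, H.1.1, H.1.2, H.2⟩
  · exact ⟨1, 2, 0, by decide, by decide, by decide, H.1.1, H.1.2, H.2⟩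
  · exact ⟨2, 0, 1, by decide, by decide, by decide, H.1.1, H.1.2, H.2⟩
  · exact ⟨2, 1, 0, by decide, by decide, by decide, H.1.1, H.1.2, H.2⟩

private lemma h75_ex_spec : ∀ (χ : Fin 3) (b₁ b₂ : Bool) (k : Fin 3), h75_ex (χ, b₁, b₂) k = true →
    Al χ b₁ b₂ = univ.filter (fun s => s.1 ≠ k) := by
  decide

private lemma h75_Gd_le {P₁ P₂ P₃ : Finset St} (h₁ : P₁.card = 4) (h₂ : P₂.card = 4) (h₃ : P₃.card = 4)
    {x y z : St} (hx : x ∈ P₁) (hy : y ∈ P₂) (hz : z ∈ P₃)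
    (h : RB x y z ∨ RB (rv x) (rv y) (rv z)) : (Gd P₁ P₂ P₃).card ≤ 63 := by
  have hp : (x, y, z) ∈ P₁ ×ˢ P₂ ×ˢ P₃ := by
    simp only [Finset.mem_product]
    exact ⟨hx, hy, hz⟩
  have hsub : Gd P₁ P₂ P₃ ⊆ (P₁ ×ˢ P₂ ×ˢ P₃).erase (x, y, z) := by
    intro p hp'
    unfold Gd at hp'
    rw [Finset.mem_filter] at hp'
    refine Finset.mem_erase.2 ⟨?_, hp'.1⟩
    rintro rfl
    rcases h with h | h
    · exact hp'.2.1 h
    · exact hp'.2.2 h
  have h1 := Finset.card_le_card hsub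
  rw [Finset.card_erase_of_mem hp, Finset.card_product, Finset.card_product, h₁, h₂, h₃] at h1
  omega

private lemma h75_Gd_prod (P₁ P₂ P₃ : Finset St) : (Gd P₁ P₂ P₃).card ≤ P₁.card * (P₂.card * P₃.card) := by
  unfold Gd
  refine (Finset.card_filter_le _ _).trans ?_
  rw [Finset.card_product, Finset.card_product]

/-- `Small` does not depend on the direction -/
theorem small_rv {P Q : Finset St} (h : ∀ s, s ∈ P ↔ rv s ∈ Q) (hP : Small P) : Small Q := by
  obtain ⟨χ, b₁, b₂, hP⟩ := hP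
  refine ⟨χ, !b₂, !b₁, fun s hs => ?_⟩
  refine h75_Al_mem χ b₁ b₂ s (hP ?_)
  rw [h (rv s), rv_rv]
  exact hs

theorem triple_check {P₁ P₂ P₃ : Finset St} (h₁ : Small P₁) (h₂ : Small P₂) (h₃ : Small P₃) :
    (Gd P₁ P₂ P₃).card ≤ 63 ∨ ∃ k : Fin 3, P₁ = univ.filter (fun s => s.1 ≠ k) ∧
      P₂ = univ.filter (fun s => s.1 ≠ k) ∧ P₃ = univ.filter (fun s => s.1 ≠ k) := by
  obtain ⟨χ₁, b₁, c₁, h₁⟩ := h₁
  obtain ⟨χ₂, b₂, c₂, h₂⟩ := h₂
  obtain ⟨χ₃, b₃, c₃, h₃⟩ := h₃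
  have k1 := Finset.card_le_card h₁
  have k2 := Finset.card_le_card h₂
  have k3 := Finset.card_le_card h₃
  rw [Al_card] at k1 k2 k3
  have hprod := h75_Gd_prod P₁ P₂ P₃
  by_cases hc1 : P₁.card ≤ 3
  · left
    have : P₁.card * (P₂.card * P₃.card) ≤ 3 * (4 * 4) := Nat.mul_le_mul hc1 (Nat.mul_le_mul k2 k3)
    omega
  by_cases hc2 : P₂.card ≤ 3
  · left
    have : P₁.card * (P₂.card * P₃.card) ≤ 4 * (3 * 4) := Nat.mul_le_mul k1 (Nat.mul_le_mul hc2 k3)
    omega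
  by_cases hc3 : P₃.card ≤ 3
  · left
    have : P₁.card * (P₂.card * P₃.card) ≤ 4 * (4 * 3) := Nat.mul_le_mul k1 (Nat.mul_le_mul k2 hc3)
    omega
  have e1 : P₁ = Al χ₁ b₁ c₁ := Finset.eq_of_subset_of_card_le h₁ (by rw [Al_card]; omega)
  have e2 : P₂ = Al χ₂ b₂ c₂ := Finset.eq_of_subset_of_card_le h₂ (by rw [Al_card]; omega)
  have e3 : P₃ = Al χ₃ b₃ c₃ := Finset.eq_of_subset_of_card_le h₃ (by rw [Al_card]; omega)
  subst e1 e2 e3
  have hck := h75_all (χ₁, b₁, c₁) (χ₂, b₂, c₂) (χ₃, b₃, c₃)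
  unfold h75_ck at hck
  simp only [Bool.or_eq_true, Bool.and_eq_true] at hck
  rcases hck with (((h | h) | h) | h) | h
  · left
    obtain ⟨x, y, z, hxy, hyz, hxz, hx, hy, hz⟩ := h75_tr_spec h
    exact h75_Gd_le (Al_card _ _ _) (Al_card _ _ _) (Al_card _ _ _) ((h75_mem_fw _ _ _ x).2 hx)
      ((h75_mem_fw _ _ _ y).2 hy) ((h75_mem_fw _ _ _ z).2 hz) (Or.inl ⟨rfl, rfl, rfl, hxy, hyz, hxz⟩)
  · left
    obtain ⟨x, y, z, hxy, hyz, hxz, hx, hy, hz⟩ := h75_tr_spec h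
    exact h75_Gd_le (Al_card _ _ _) (Al_card _ _ _) (Al_card _ _ _) ((h75_mem_bw _ _ _ x).2 hx)
      ((h75_mem_bw _ _ _ y).2 hy) ((h75_mem_bw _ _ _ z).2 hz) (Or.inr ⟨rfl, rfl, rfl, hxy, hyz, hxz⟩)
  · exact Or.inr ⟨0, h75_ex_spec _ _ _ _ h.1.1, h75_ex_spec _ _ _ _ h.1.2, h75_ex_spec _ _ _ _ h.2⟩
  · exact Or.inr ⟨1, h75_ex_spec _ _ _ _ h.1.1, h75_ex_spec _ _ _ _ h.1.2, h75_ex_spec _ _ _ _ h.2⟩
  · exact Or.inr ⟨2, h75_ex_spec _ _ _ _ h.1.1, h75_ex_spec _ _ _ _ h.1.2, h75_ex_spec _ _ _ _ h.2⟩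

end Pool.Agent.Helper74.TS
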