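import Pool.Agent.Helper74.TS.Cnn
import Pool.Agent.Helper74.TS.Tri

/-!
# TS-FAM: many edge-disjoint bad triples

PROOF. Call `(x, y, z)`, `x < y < z`, bad if no pair is in `M` and `(Gd (P x y) (P y z) (P z x)).card ≤ 63`. Let `F` be a set of bad triples with
pairwise disjoint `pr`, of maximal cardinality. Suppose `32 (#M + 6 |F|) < d ^ 2`. Let `M' u w` be `M u w`, or `(u, w)` or `(w, u)` belongs to
some `pr p`, `p ∈ F`; `#M' ≤ #M + 6 |F|`. Apply `connect` to `M'`. Each triangle `{x, y, z}` (distinct vertices, no pair in `M'`, in one of the orders, `M'` is symmetric) of the three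
triangles `v a b`, `v a' b'`, `v a a'` is not bad (otherwise, sorted, it could be added to `F`: its pairs are not in the `pr p`), so by
`triple_check` there is `κ` with `P x y = P y z = P z x = {s | s.1 ≠ κ}`; this set is invariant under `rv`, so it is also `P y x` etc. The pairs `v a` and `v a'`
are in two triangles each, so the `κ` of the three triangles are the same. `(k, true) ∉ P a b` gives `k = κ`, `(k', true) ∉ P a' b'` gives `k' = κ`, a contradiction.
-/

set_option autoImplicit false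

namespace Pool.Agent.Helper74.TS

open Finset Classical

/-- the three pairs of a triple -/
def pr {n : ℕ} (p : Fin n × Fin n × Fin n) : Finset (Fin n × Fin n) :=
  {(p.1, p.2.1), (p.2.1, p.2.2), (p.1, p.2.2)}

private def f53U (κ : Fin 3) : Finset St := univ.filter (fun s => s.1 ≠ κ)

private theorem f53U_inj {κ κ' : Fin 3} (h : f53U κ = f53U κ') : κ = κ' := by
  by_contra hne
  have h1 : (κ, true) ∈ f53U κ' := by
    unfold f53U
    rw [mem_filter]
    exact ⟨mem_univ _, hne⟩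
  rw [← h] at h1
  unfold f53U at h1
  rw [mem_filter] at h1
  exact h1.2 rfl

private theorem f53U_notMem {κ k : Fin 3} (h : (k, true) ∉ f53U κ) : k = κ := by
  by_contra hne
  exact h (by unfold f53U; rw [mem_filter]; exact ⟨mem_univ _, hne⟩)

private theorem f53U_rv {n : ℕ} {P : Fin n → Fin n → Finset St} (hP : ∀ u v s, s ∈ P u v ↔ rv s ∈ P v u)
    {κ : Fin 3} {u v : Fin n} (h : P u v = f53U κ) : P v u = f53U κ := by
  ext s
  rw [hP v u s, h]
  unfold f53U rv
  simp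

theorem family {n : ℕ} (P : Fin n → Fin n → Finset St) (hP : ∀ u v s, s ∈ P u v ↔ rv s ∈ P v u)
    (M : Fin n → Fin n → Prop) (hM : ∀ u v, M u v → M v u) (hS : ∀ u v, u ≠ v → ¬ M u v → Small (P u v))
    (d : ℕ) (hd : 64 ≤ d) (k k' : Fin 3) (hk : k ≠ k') (X Y X' Y' : Finset (Fin n))
    (hX : d ≤ X.card) (hY : d ≤ Y.card) (hX' : d ≤ X'.card) (hY' : d ≤ Y'.card)
    (h1 : ∀ u ∈ X, ∀ v ∈ Y, u ≠ v → (k, true) ∉ P u v)
    (h2 : ∀ u ∈ X', ∀ v ∈ Y', u ≠ v → (k', true) ∉ P u v) :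
    ∃ F : Finset (Fin n × Fin n × Fin n),
      (∀ p ∈ F, p.1 < p.2.1 ∧ p.2.1 < p.2.2 ∧ ¬ M p.1 p.2.1 ∧ ¬ M p.2.1 p.2.2 ∧ ¬ M p.1 p.2.2 ∧
        (Gd (P p.1 p.2.1) (P p.2.1 p.2.2) (P p.2.2 p.1)).card ≤ 63) ∧
      (∀ p ∈ F, ∀ r ∈ F, p ≠ r → Disjoint (pr p) (pr r)) ∧
      d ^ 2 ≤ 32 * ((univ.filter (fun z : Fin n × Fin n => M z.1 z.2)).card + 6 * F.card) := by
  obtain ⟨Bd, hBd⟩ : ∃ Bd : Fin n × Fin n × Fin n → Prop, Bd = fun p => p.1 < p.2.1 ∧ p.2.1 < p.2.2 ∧ ¬ M p.1 p.2.1 ∧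
    ¬ M p.2.1 p.2.2 ∧ ¬ M p.1 p.2.2 ∧ (Gd (P p.1 p.2.1) (P p.2.1 p.2.2) (P p.2.2 p.1)).card ≤ 63 := ⟨_, rfl⟩
  obtain ⟨Ok, hOk⟩ : ∃ Ok : Finset (Fin n × Fin n × Fin n) → Prop, Ok = fun F => (∀ p ∈ F, Bd p) ∧
    (∀ p ∈ F, ∀ r ∈ F, p ≠ r → Disjoint (pr p) (pr r)) := ⟨_, rfl⟩
  have hne : (univ.filter Ok).Nonempty := by
    refine ⟨∅, ?_⟩
    rw [mem_filter, hOk]
    exact ⟨mem_univ _, by simp, by simp⟩
  obtain ⟨F, hF, hmax⟩ := exists_max_image (univ.filter Ok) Finset.card hne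
  rw [mem_filter] at hF
  have hF2 := hF.2
  rw [hOk] at hF2
  obtain ⟨hF3, hF4⟩ := hF2
  refine ⟨F, fun p hp => ?_, hF4, ?_⟩
  · have h := hF3 p hp
    rw [hBd] at h
    exact h
  by_contra hcon
  rw [not_le] at hcon
  obtain ⟨M', hM'⟩ : ∃ M' : Fin n → Fin n → Prop, M' = fun u w => M u w ∨ ∃ p ∈ F, (u, w) ∈ pr p ∨ (w, u) ∈ pr p := ⟨_, rfl⟩
  have hMs : ∀ u w, M' u w → M' w u := by
    intro u w h
    rw [hM'] at h ⊢
    rcases h with h | ⟨p, hp, h⟩
    · exact Or.inl (hM _ _ h)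
    · exact Or.inr ⟨p, hp, h.symm⟩
  have hpr : ∀ p : Fin n × Fin n × Fin n, (pr p).card ≤ 3 := by
    intro p
    unfold pr
    exact card_le_three
  have hcard : (univ.filter (fun z : Fin n × Fin n => M' z.1 z.2)).card ≤
      (univ.filter (fun z : Fin n × Fin n => M z.1 z.2)).card + 6 * F.card := by
    have h1 : univ.filter (fun z : Fin n × Fin n => M' z.1 z.2) ⊆ univ.filter (fun z : Fin n × Fin n => M z.1 z.2) ∪
        F.biUnion (fun p => pr p ∪ (pr p).image Prod.swap) := by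
      intro z hz
      rw [mem_filter, hM'] at hz
      rw [mem_union, mem_filter, mem_biUnion]
      rcases hz.2 with h | ⟨p, hp, h⟩
      · exact Or.inl ⟨mem_univ _, h⟩
      · refine Or.inr ⟨p, hp, ?_⟩
        rw [mem_union, mem_image]
        rcases h with h | h
        · exact Or.inl h
        · exact Or.inr ⟨(z.2, z.1), h, rfl⟩
    refine (card_le_card h1).trans ((card_union_le _ _).trans (Nat.add_le_add_left ?_ _))
    refine (card_biUnion_le_card_mul F _ 6 ?_).trans (by rw [mul_comm])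
    intro p _
    have h2 := card_union_le (pr p) ((pr p).image Prod.swap)
    have h3 : ((pr p).image Prod.swap).card ≤ (pr p).card := card_image_le
    have h4 := hpr p
    omega
  obtain ⟨v, a, b, a', b', haX, hbY, haX', hbY', h_va, h_vb, h_ab, h_va', h_vb', h_ab', h_aa', mva, mvb, mab, mva', mvb', mab',
    maa'⟩ := connect M' d hd (by omega) X Y X' Y' hX hY hX' hY'
  have hnM : ∀ u w, ¬ M' u w → ¬ M u w := fun u w h hm => h (by rw [hM']; exact Or.inl hm)
  have tri0 : ∀ x y z : Fin n, x < y → y < z → ¬ M' x y → ¬ M' y z → ¬ M' x z →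
      ∃ κ, P x y = f53U κ ∧ P y z = f53U κ ∧ P x z = f53U κ := by
    intro x y z hxy hyz mxy myz mxz
    have hxz : x < z := hxy.trans hyz
    rcases triple_check (hS x y hxy.ne (hnM _ _ mxy)) (hS y z hyz.ne (hnM _ _ myz))
      (hS z x hxz.ne' (fun h => hnM _ _ mxz (hM _ _ h))) with h | ⟨κ, k1, k2, k3⟩
    · exfalso
      have hin : ∀ p ∈ F, ∀ q ∈ pr (x, y, z), q ∉ pr p := by
        intro p hp q hq hqp
        unfold pr at hq
        rw [mem_insert, mem_insert, mem_singleton] at hq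
        rcases hq with rfl | rfl | rfl
        · exact mxy (by rw [hM']; exact Or.inr ⟨p, hp, Or.inl hqp⟩)
        · exact myz (by rw [hM']; exact Or.inr ⟨p, hp, Or.inl hqp⟩)
        · exact mxz (by rw [hM']; exact Or.inr ⟨p, hp, Or.inl hqp⟩)
      have hself : (x, y) ∈ pr (x, y, z) := by unfold pr; simp
      have hnot : (x, y, z) ∉ F := fun h => hin _ h _ hself hself
      have hOk' : Ok (insert (x, y, z) F) := by
        rw [hOk]
        refine ⟨?_, ?_⟩
        · intro p hp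
          rw [mem_insert] at hp
          rcases hp with rfl | hp
          · rw [hBd]
            exact ⟨hxy, hyz, hnM _ _ mxy, hnM _ _ myz, hnM _ _ mxz, h⟩
          · exact hF3 p hp
        · intro p hp r hr hpr'
          rw [mem_insert] at hp hr
          rcases hp with rfl | hp
          · rcases hr with rfl | hr
            · exact absurd rfl hpr'
            · rw [Finset.disjoint_left]
              intro q hq
              exact hin r hr q hq
          · rcases hr with rfl | hr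
            · rw [Finset.disjoint_right]
              intro q hq
              exact hin p hp q hq
            · exact hF4 p hp r hr hpr'
      have h5 := hmax (insert (x, y, z) F) (by rw [mem_filter]; exact ⟨mem_univ _, hOk'⟩)
      rw [card_insert_of_notMem hnot] at h5
      omega
    · exact ⟨κ, k1, k2, f53U_rv hP k3⟩
  have tri : ∀ x y z : Fin n, x ≠ y → y ≠ z → x ≠ z → ¬ M' x y → ¬ M' y z → ¬ M' x z →
      ∃ κ, P x y = f53U κ ∧ P y z = f53U κ ∧ P x z = f53U κ := by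
    intro x y z hxy hyz hxz mxy myz mxz
    have myx : ¬ M' y x := fun h => mxy (hMs _ _ h)
    have mzy : ¬ M' z y := fun h => myz (hMs _ _ h)
    have mzx : ¬ M' z x := fun h => mxz (hMs _ _ h)
    rcases lt_or_gt_of_ne hxy with h1 | h1
    · rcases lt_or_gt_of_ne hyz with h2 | h2
      · exact tri0 x y z h1 h2 mxy myz mxz
      · rcases lt_or_gt_of_ne hxz with h3 | h3
        · obtain ⟨κ, k1, k2, k3⟩ := tri0 x z y h3 h2 mxz mzy mxy
          exact ⟨κ, k3, f53U_rv hP k2, k1⟩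
        · obtain ⟨κ, k1, k2, k3⟩ := tri0 z x y h3 h1 mzx mxy mzy
          exact ⟨κ, k2, f53U_rv hP k3, f53U_rv hP k1⟩
    · rcases lt_or_gt_of_ne hyz with h2 | h2
      · rcases lt_or_gt_of_ne hxz with h3 | h3
        · obtain ⟨κ, k1, k2, k3⟩ := tri0 y x z h1 h3 myx mxz myz
          exact ⟨κ, f53U_rv hP k1, k3, k2⟩
        · obtain ⟨κ, k1, k2, k3⟩ := tri0 y z x h2 h3 myz mzx myx
          exact ⟨κ, f53U_rv hP k3, k1, f53U_rv hP k2⟩
      · obtain ⟨κ, k1, k2, k3⟩ := tri0 z y x h2 h1 mzy myx mzx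
        exact ⟨κ, f53U_rv hP k2, f53U_rv hP k1, f53U_rv hP k3⟩
  obtain ⟨κ₁, p1, p2, p3⟩ := tri v a b h_va h_ab h_vb mva mab mvb
  obtain ⟨κ₂, q1, q2, q3⟩ := tri v a' b' h_va' h_ab' h_vb' mva' mab' mvb'
  obtain ⟨κ₃, r1, r2, r3⟩ := tri v a a' h_va h_aa' h_va' mva maa' mva'
  have e1 : κ₁ = κ₃ := f53U_inj (p1.symm.trans r1)
  have e2 : κ₂ = κ₃ := f53U_inj (q1.symm.trans r3)
  have e3 : k = κ₁ := f53U_notMem (by rw [← p2]; exact h1 a haX b hbY h_ab)
  have e4 : k' = κ₂ := f53U_notMem (by rw [← q2]; exact h2 a' haX' b' hbY' h_ab')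
  exact hk (by rw [e3, e4, e1, e2])

end Pool.Agent.Helper74.TS
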