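import Pool.Agent.Helper74.TS.Defs

/-!
# TS-LOW: lower bound for `A n`, number of two-coloured tournaments

PROOF. `A_lower`: the functions `f : E n → St` with values of colour `≠ 2` (four states) give `4 ^ card (E n)` members `toT f` of
`CR (Fin n)` (`toT_injective`, `toT_isCT`; only two colours occur off the diagonal, so there is no rainbow triangle; `card_E`).
`two_upper`: for fixed `k` the members without colour `k` are images under `toT` of functions with values in the four states of colour
`≠ k` (`exists_toT`); union over the three `k`.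
-/

set_option autoImplicit false

namespace Pool.Agent.Helper74.TS

open Finset Classical

/-- the states of colour different from `k` -/
private def low_Q (k : Fin 3) : Finset St := univ.filter (fun s : St => s.1 ≠ k)

private lemma low_Q_card (k : Fin 3) : (low_Q k).card = 4 := by
  unfold low_Q
  fin_cases k <;> decide

/-- the functions with values of colour different from `k` -/
private noncomputable def low_F (n : ℕ) (k : Fin 3) : Finset (E n → St) := Fintype.piFinset fun _ => low_Q k

private lemma low_F_card (n : ℕ) (k : Fin 3) : (low_F n k).card = 4 ^ n.choose 2 := by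
  unfold low_F
  rw [Fintype.card_piFinset, Finset.prod_const, low_Q_card, Finset.card_univ, card_E]

private lemma low_mem_F {n : ℕ} {k : Fin 3} {f : E n → St} : f ∈ low_F n k ↔ ∀ e, (f e).1 ≠ k := by
  unfold low_F
  rw [Fintype.mem_piFinset]
  exact forall_congr' fun e => by simp [low_Q]

private lemma low_col {n : ℕ} {k : Fin 3} {f : E n → St} (hf : f ∈ low_F n k) {u v : Fin n} (huv : u ≠ v) :
    (toT f u v).1 ≠ k := by
  rw [low_mem_F] at hf
  rcases lt_or_gt_of_ne huv with h | h
  · rw [toT_lt f h]
    exact hf _
  · rw [(toT_isCT f).2 v u h.ne, toT_lt f h]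
    exact hf _

theorem A_lower (n : ℕ) : 4 ^ n.choose 2 ≤ A n := by
  rw [← low_F_card n 2, ← Finset.card_image_of_injective (low_F n 2) toT_injective]
  unfold A
  refine Finset.card_le_card fun T hT => ?_
  rw [Finset.mem_image] at hT
  obtain ⟨f, hf, rfl⟩ := hT
  rw [mem_CR]
  refine ⟨toT_isCT f, fun a b c hab hbc hac h => ?_⟩
  obtain ⟨-, -, -, h1, h2, h3⟩ := h
  have e1 := low_col hf hab
  have e2 := low_col hf hbc
  have e3 := low_col hf hac.symm
  generalize (toT f a b).1 = x at *
  generalize (toT f b c).1 = y at *
  generalize (toT f c a).1 = z at *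
  fin_cases x <;> fin_cases y <;> fin_cases z <;> simp_all

theorem two_upper (n : ℕ) : ((CR (Fin n)).filter (fun T => TwoCol T)).card ≤ 3 * 4 ^ n.choose 2 := by
  have hsub : (CR (Fin n)).filter (fun T => TwoCol T) ⊆
      (univ : Finset (Fin 3)).biUnion (fun k => (low_F n k).image toT) := by
    intro T hT
    rw [Finset.mem_filter, mem_CR] at hT
    obtain ⟨⟨hT1, -⟩, k, hk⟩ := hT
    obtain ⟨f, rfl⟩ := exists_toT hT1
    rw [Finset.mem_biUnion]
    refine ⟨k, Finset.mem_univ k, Finset.mem_image_of_mem _ ?_⟩
    rw [low_mem_F]
    rintro ⟨⟨u, v⟩, huv⟩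
    have := hk u v huv.ne
    rw [toT_lt f huv] at this
    exact this
  refine (Finset.card_le_card hsub).trans (Finset.card_biUnion_le.trans ?_)
  refine (Finset.sum_le_sum fun k _ => Finset.card_image_le).trans ?_
  rw [Finset.sum_congr rfl fun k _ => low_F_card n k, Finset.sum_const, Finset.card_univ, Fintype.card_fin, smul_eq_mul]

end Pool.Agent.Helper74.TS
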