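import Mathlib

/-!
# TS-NUM: numbers for Claim A

PROOF. `N = (n - R) / t`, so `N t + R ≤ n < N t + R + t`, `m = n t + 2 n (R + t)`, `d = n / 400 + 1` (so `400 d > n`), `g = (d ^ 2 / 32 - m) / 6`:
for large `n`, `m ≤ d ^ 2 / 32` and `32 (m + 6 g) ≤ d ^ 2`, `g ≥ d ^ 2 / 192 - m - 1 ≥ n ^ 2 / (192 * 160000) - C n`. `63 ^ 45 * 2 ≤ 64 ^ 45`, so `63 ^ g * 2 ^ (g / 45) ≤ 64 ^ g`.
It remains to see that `m + n + n (Nat.log 2 n + 1) + 2 N + 80 n N + 4 n + 4 ≤ g / 45` for large `n`: `n ^ (N t) ≤ n ^ n ≤ 2 ^ (n * (Nat.log 2 n + 1))`, `3 ^ N ≤ 2 ^ (2 N)`,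
`((t + 1) (t + 1)) ^ (n N) = 2 ^ (80 n N)`, `N ≤ n / t`, `9 ≤ 2 ^ 4`; `80 n ^ 2 / t + n (log₂ n + 1) + C n ≤ n ^ 2 / (45 * 192 * 160000) - C' n` for large `n`, because
`80 / t < 10 ^ (-10)` and `1 / (45 * 192 * 160000) > 7 * 10 ^ (-10)`.
-/

set_option autoImplicit false

namespace Pool.Agent.Helper74.TS

private lemma num_log (L : ℕ) (hL : 80 ≤ L) : 12441600000 * (L + 1) ≤ 2 ^ L := by
  induction L, hL using Nat.le_induction with
  | base => norm_num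
  | succ L _ ih =>
    rw [pow_succ]
    omega

private lemma num_pow (g : ℕ) : 63 ^ g * 2 ^ (g / 45) ≤ 64 ^ g := by
  have h1 : (63 ^ 45 * 2 : ℕ) ≤ 64 ^ 45 := by norm_num
  have h2 : g = 45 * (g / 45) + g % 45 := (Nat.div_add_mod g 45).symm
  calc 63 ^ g * 2 ^ (g / 45) = (63 ^ 45 * 2) ^ (g / 45) * 63 ^ (g % 45) := by
        conv_lhs => rw [h2]
        rw [pow_add, pow_mul, mul_pow]
        have h3 : (45 * (g / 45) + g % 45) / 45 = g / 45 := by omega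
        rw [h3]
        ring
    _ ≤ (64 ^ 45) ^ (g / 45) * 64 ^ (g % 45) :=
        Nat.mul_le_mul (Nat.pow_le_pow_left h1 _) (Nat.pow_le_pow_left (by norm_num) _)
    _ = 64 ^ g := by
        conv_rhs => rw [h2]
        rw [pow_add, pow_mul]

theorem num_aux (t R : ℕ) (ht : t + 1 = 2 ^ 40) : ∃ n₀ : ℕ, ∀ n ≥ n₀, ∃ N m g : ℕ, N * t + R ≤ n ∧
    N * t * t + 2 * n * (n - N * t) ≤ m ∧ 32 * (m + 6 * g) ≤ (n / 400 + 1) ^ 2 ∧
    63 ^ g * 2 ^ m * (n ^ (N * t) * 3 ^ N * ((t + 1) * (t + 1)) ^ (n * N) * (2 ^ n) ^ 4 * 9) * 2 ^ n ≤ 64 ^ g := by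
  refine ⟨2 ^ 80 + 10 ^ 12 * (3 * t + 2 * R + 20), fun n hn => ?_⟩
  have ht' : t = 1099511627775 := by
    have : (2 : ℕ) ^ 40 = 1099511627776 := by norm_num
    omega
  have hn80 : 2 ^ 80 ≤ n := le_trans (Nat.le_add_right _ _) hn
  have hn1 : 10 ^ 12 * (3 * t + 2 * R + 20) ≤ n := le_trans (Nat.le_add_left _ _) hn
  have hRn : R ≤ n := by omega
  have hn0 : 1 ≤ n := le_trans Nat.one_le_two_pow hn80
  set N := (n - R) / t with hN
  set L := Nat.log 2 n with hL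
  set d := n / 400 + 1 with hd
  set m := n * t + 2 * n * (R + t) with hm
  set g := (d ^ 2 / 32 - m) / 6 with hg
  set q := g / 45 with hq
  have hNt : N * t ≤ n - R := Nat.div_mul_le_self _ _
  have hNt' : n - R < N * t + t := by
    have h1 := Nat.div_add_mod (n - R) t
    have h2 : (n - R) % t < t := Nat.mod_lt _ (by omega)
    rw [← hN] at h1
    have h3 : t * N = N * t := mul_comm _ _
    omega
  have hNn : N * t ≤ n := by omega
  -- large numbers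
  have F1 : 10 ^ 12 * m + 20 * 10 ^ 12 * n ≤ n * n := by
    calc 10 ^ 12 * m + 20 * 10 ^ 12 * n = 10 ^ 12 * (3 * t + 2 * R + 20) * n := by rw [hm]; ring
      _ ≤ n * n := Nat.mul_le_mul_right n hn1
  have F2 : 1099511627775 * (n * N) ≤ n * n := by
    calc 1099511627775 * (n * N) = n * (N * t) := by rw [ht']; ring
      _ ≤ n * n := Nat.mul_le_mul_left n hNn
  have hL80 : 80 ≤ L := Nat.le_log_of_pow_le (by norm_num) hn80
  have F3 : 12441600000 * (n * (L + 1)) ≤ n * n := by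
    calc 12441600000 * (n * (L + 1)) = n * (12441600000 * (L + 1)) := by ring
      _ ≤ n * 2 ^ L := Nat.mul_le_mul_left n (num_log L hL80)
      _ ≤ n * n := Nat.mul_le_mul_left n (Nat.pow_log_le_self 2 (by omega))
  have F4 : n * n ≤ 160000 * (d * d) := by
    have h1 : n ≤ 400 * d := by omega
    calc n * n ≤ (400 * d) * (400 * d) := Nat.mul_le_mul h1 h1
      _ = 160000 * (d * d) := by ring
  have hNn2 : N ≤ n := by
    calc N = N * 1 := (mul_one _).symm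
      _ ≤ N * t := Nat.mul_le_mul_left N (by omega)
      _ ≤ n := hNn
  have hmd : 32 * m ≤ d * d := by omega
  have hdd : d ^ 2 = d * d := sq d
  have F5 : d * d ≤ 8640 * q + 8639 + 32 * m := by
    rw [hdd] at hg
    omega
  refine ⟨N, m, g, by omega, ?_, ?_, ?_⟩
  · have h1 : n - N * t ≤ R + t := by omega
    rw [hm]
    exact Nat.add_le_add (Nat.mul_le_mul_right t hNn) (Nat.mul_le_mul_left (2 * n) h1)
  · rw [hdd] at hg ⊢
    omega
  · have hX : m + n * (L + 1) + 2 * N + 80 * (n * N) + 5 * n + 4 ≤ q := by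
      set P := n * n
      set A := n * (L + 1)
      set B := n * N
      set D := d * d
      omega
    have p1 : n ^ (N * t) ≤ 2 ^ (n * (L + 1)) := by
      calc n ^ (N * t) ≤ n ^ n := Nat.pow_le_pow_right hn0 hNn
        _ ≤ (2 ^ (L + 1)) ^ n := Nat.pow_le_pow_left (Nat.lt_pow_succ_log_self (by norm_num) n).le n
        _ = 2 ^ (n * (L + 1)) := by rw [← pow_mul, mul_comm]
    have p2 : 3 ^ N ≤ 2 ^ (2 * N) := by
      rw [pow_mul]
      exact Nat.pow_le_pow_left (by norm_num) N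
    have p3 : ((t + 1) * (t + 1)) ^ (n * N) = 2 ^ (80 * (n * N)) := by
      rw [ht, ← pow_add, ← pow_mul]
    have p4 : (2 ^ n) ^ 4 = 2 ^ (4 * n) := by rw [← pow_mul, mul_comm]
    have p5 : (9 : ℕ) ≤ 2 ^ 4 := by norm_num
    have p6 : n ^ (N * t) * 3 ^ N * ((t + 1) * (t + 1)) ^ (n * N) * (2 ^ n) ^ 4 * 9 ≤
        2 ^ (n * (L + 1)) * 2 ^ (2 * N) * 2 ^ (80 * (n * N)) * 2 ^ (4 * n) * 2 ^ 4 := by
      rw [p3, p4]
      exact Nat.mul_le_mul (Nat.mul_le_mul_right _ (Nat.mul_le_mul_right _ (Nat.mul_le_mul p1 p2))) p5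
    calc 63 ^ g * 2 ^ m * (n ^ (N * t) * 3 ^ N * ((t + 1) * (t + 1)) ^ (n * N) * (2 ^ n) ^ 4 * 9) * 2 ^ n
        ≤ 63 ^ g * 2 ^ m * (2 ^ (n * (L + 1)) * 2 ^ (2 * N) * 2 ^ (80 * (n * N)) * 2 ^ (4 * n) * 2 ^ 4) * 2 ^ n :=
          Nat.mul_le_mul_right _ (Nat.mul_le_mul_left _ p6)
      _ = 63 ^ g * 2 ^ (m + n * (L + 1) + 2 * N + 80 * (n * N) + 5 * n + 4) := by
          rw [show m + n * (L + 1) + 2 * N + 80 * (n * N) + 5 * n + 4 =
            m + n * (L + 1) + 2 * N + 80 * (n * N) + 4 * n + 4 + n by ring]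
          simp only [pow_add]
          ring
      _ ≤ 63 ^ g * 2 ^ q := Nat.mul_le_mul_left _ (Nat.pow_le_pow_right (by norm_num) hX)
      _ ≤ 64 ^ g := num_pow g

end Pool.Agent.Helper74.TS
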