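import Mathlib

/-!
# TS-REC: the recursion

PROOF. `w n → 0`, so there is `n₁ ≥ n₀` with `w n ≤ 1 / 4` for `n ≥ n₁` (`C` may be replaced by `max C 0`). Let `K ≥ 7` be an upper bound of the `a n`, `n ≤ n₁ + 1`. By induction
`a n ≤ K` for all `n`: `a (n + 2) ≤ 3 + (1 / 4) (1 + 2 K) ≤ K`. So `b (n + 2) ≤ C (98 / 100) ^ n (1 + 2 K) ≤ (99 / 100) ^ (n + 2)` for large `n`.
-/

set_option autoImplicit false

namespace Pool.Agent.Helper74.TS

theorem recur (a b w : ℕ → ℝ) (h1 : ∀ n, 0 ≤ b n) (h2 : ∀ n, 0 ≤ a n ∧ a n ≤ 3 + b n)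
    (n₀ : ℕ) (h3 : ∀ n ≥ n₀, b (n + 2) ≤ w n * (1 + a (n + 1) + a n))
    (C : ℝ) (hw : ∀ n, w n ≤ C * (98 / 100) ^ n) : ∃ n₁ : ℕ, ∀ n ≥ n₁, b n ≤ (99 / 100) ^ n := by
  set D : ℝ := max C 0 with hD
  have hD0 : 0 ≤ D := le_max_right _ _
  have hwD : ∀ n, w n ≤ D * (98 / 100) ^ n := fun n =>
    (hw n).trans (mul_le_mul_of_nonneg_right (le_max_left _ _) (by positivity))
  -- a geometric sequence becomes small
  have hsmall : ∀ (E q ε : ℝ), 0 ≤ q → q < 1 → 0 < ε → ∃ m : ℕ, ∀ n ≥ m, E * q ^ n ≤ ε := by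
    intro E q ε hq0 hq1 hε
    have ht : Filter.Tendsto (fun n : ℕ => E * q ^ n) Filter.atTop (nhds (E * 0)) :=
      (tendsto_pow_atTop_nhds_zero_of_lt_one hq0 hq1).const_mul E
    rw [mul_zero] at ht
    have he := (ht.eventually (gt_mem_nhds hε))
    obtain ⟨m, hm⟩ := Filter.eventually_atTop.1 he
    exact ⟨m, fun n hn => (hm n hn).le⟩
  obtain ⟨m1, hm1⟩ := hsmall D (98 / 100) (1 / 4) (by norm_num) (by norm_num) (by norm_num)
  set n1 : ℕ := max n₀ m1 with hn1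
  set K : ℝ := 7 + ∑ i ∈ Finset.range (n1 + 2), a i with hK
  have hK7 : 7 ≤ K := by
    have : 0 ≤ ∑ i ∈ Finset.range (n1 + 2), a i := Finset.sum_nonneg fun i _ => (h2 i).1
    linarith
  have hstep : ∀ m, n1 ≤ m → a m ≤ K → a (m + 1) ≤ K → b (m + 2) ≤ D * (98 / 100) ^ m * (1 + 2 * K) := by
    intro m hm ha1 ha2
    have e1 := h3 m ((le_max_left _ _).trans hm)
    have hX : 0 ≤ 1 + a (m + 1) + a m := by linarith [(h2 m).1, (h2 (m + 1)).1]
    have e2 : w m * (1 + a (m + 1) + a m) ≤ D * (98 / 100) ^ m * (1 + a (m + 1) + a m) :=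
      mul_le_mul_of_nonneg_right (hwD m) hX
    have e3 : D * (98 / 100) ^ m * (1 + a (m + 1) + a m) ≤ D * (98 / 100) ^ m * (1 + 2 * K) :=
      mul_le_mul_of_nonneg_left (by linarith) (by positivity)
    linarith
  have haK : ∀ n, a n ≤ K := by
    intro n
    induction n using Nat.strong_induction_on with
    | _ n ih =>
      by_cases hn : n < n1 + 2
      · have : a n ≤ ∑ i ∈ Finset.range (n1 + 2), a i :=
          Finset.single_le_sum (fun i _ => (h2 i).1) (Finset.mem_range.2 hn)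
        linarith
      · obtain ⟨m, rfl⟩ : ∃ m, n = m + 2 := ⟨n - 2, by omega⟩
        have hm : n1 ≤ m := by omega
        have e1 := hstep m hm (ih m (by omega)) (ih (m + 1) (by omega))
        have e2 := hm1 m ((le_max_right _ _).trans hm)
        have e3 : D * (98 / 100) ^ m * (1 + 2 * K) ≤ 1 / 4 * (1 + 2 * K) :=
          mul_le_mul_of_nonneg_right e2 (by linarith)
        have e4 := (h2 (m + 2)).2
        linarith
  obtain ⟨m2, hm2⟩ := hsmall (D * (1 + 2 * K)) (98 / 99) ((99 / 100) ^ 2) (by norm_num) (by norm_num)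
    (by norm_num)
  refine ⟨max n1 m2 + 2, fun n hn => ?_⟩
  obtain ⟨m, rfl⟩ : ∃ m, n = m + 2 := ⟨n - 2, by omega⟩
  have hm : max n1 m2 ≤ m := by omega
  have e1 := hstep m ((le_max_left _ _).trans hm) (haK m) (haK (m + 1))
  have e2 := hm2 m ((le_max_right _ _).trans hm)
  have e3 : ((98 : ℝ) / 100) ^ m = (98 / 99) ^ m * (99 / 100) ^ m := by
    rw [← mul_pow]
    norm_num
  have e4 : (0 : ℝ) ≤ (99 / 100) ^ m := by positivity
  calc b (m + 2) ≤ D * (98 / 100) ^ m * (1 + 2 * K) := e1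
    _ = (D * (1 + 2 * K) * (98 / 99) ^ m) * (99 / 100) ^ m := by rw [e3]; ring
    _ ≤ (99 / 100) ^ 2 * (99 / 100) ^ m := mul_le_mul_of_nonneg_right e2 e4
    _ = (99 / 100) ^ (m + 2) := by rw [← pow_add, add_comm]

end Pool.Agent.Helper74.TS
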