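import Pool.Agent.Helper74.TS.Res

/-!
# TS-STB: stage B

PROOF. Let `T ∈ CB1 (n + 1) d k`, `v` with `2 d ≤ dg k T v`, `s u = T v u` (`u ≠ v`). Call a state `x` large if at least `d` vertices `u ≠ v` have
`T v u = x`. If `(j, true)` and `(i, false)` are large, `i ≠ j`, and the third colour `l` is `≠ k`, then `l` is not deficient, so there are
`a` with `T v a = (j, true)` and `b` with `T v b = (i, false)`, `T a b = (l, true)` (take `X`, `Y` the two sets, disjoint): `v → a → b → v` is rainbow.
So: at least one of `(k, true)`, `(k, false)` is large (`2 d ≤ dg`). Let `i`, `j` be the other colours. If `(k, true)` is large, then `(i, false)` and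
`(j, false)` are not large (third colour `j`, `i`); if moreover `(k, false)` is not large we have three non-large states; if `(k, false)` is large too then
`(i, true)`, `(j, true)` are not large. If `(k, false)` is large and `(k, true)` not, then `(i, true)`, `(j, true)`, `(k, true)` are not large. So there is a set `L` of three states such
that fewer than `3 d` of the `u ≠ v` have `T v u ∉ L`. For fixed `v` and `L` (at most `20` sets `L`): `markov` with `w x = 1` for `x ∈ L`, `1 / 6` otherwise,
`c = (1 / 6) ^ (3 d)`, `∑ w = 3 + 3 / 6 = 7 / 2`; then `extend_one`; union over `L` and over `v`.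
-/

set_option autoImplicit false

namespace Pool.Agent.Helper74.TS

open Finset Classical

/-- the state `x` is seen by `v` less than `d` times -/
private def NLs (d : ℕ) {n : ℕ} (T : Fin n → Fin n → St) (v : Fin n) (x : St) : Prop :=
  (univ.filter (fun u => u ≠ v ∧ T v u = x)).card < d

private lemma stb_key {n d : ℕ} {T : Fin n → Fin n → St} (hT : T ∈ CR (Fin n)) (v : Fin n) {i j l : Fin 3}
    (hij : i ≠ j) (hli : l ≠ i) (hlj : l ≠ j) (hl : ¬ Defi d l T) (h1 : ¬ NLs d T v (j, true))
    (h2 : ¬ NLs d T v (i, false)) : False := by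
  rw [mem_CR] at hT
  obtain ⟨hC, hR⟩ := hT
  unfold NLs at h1 h2
  rw [not_lt] at h1 h2
  apply hl
  refine ⟨univ.filter (fun u => u ≠ v ∧ T v u = (j, true)), univ.filter (fun u => u ≠ v ∧ T v u = (i, false)),
    ?_, h1, h2, ?_⟩
  · rw [Finset.disjoint_left]
    intro u hu hu'
    rw [mem_filter] at hu hu'
    have := hu.2.2.symm.trans hu'.2.2
    exact absurd (congrArg Prod.snd this) (by simp)
  · intro a ha b hb hab
    rw [mem_filter] at ha hb
    have hne : a ≠ b := by
      rintro rfl
      have := ha.2.2.symm.trans hb.2.2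
      exact absurd (congrArg Prod.snd this) (by simp)
    have hbv : T b v = (i, true) := by
      rw [hC.2 v b hb.2.1.symm, hb.2.2]
      rfl
    refine hR v a b ha.2.1.symm hne hb.2.1.symm ?_
    rw [ha.2.2, hab, hbv]
    exact ⟨rfl, rfl, rfl, hlj.symm, hli, hij.symm⟩

/-- the three possible sets of rare states -/
private def stbM (k : Fin 3) : Fin 3 → Finset St
  | 0 => {(k + 1, false), (k + 2, false), (k, false)}
  | 1 => {(k + 1, false), (k + 2, false), (k + 1, true)}
  | 2 => {(k + 1, true), (k + 2, true), (k, true)}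

private lemma stbM_card (k c : Fin 3) : (stbM k c).card = 3 := by
  revert k c
  decide

private lemma stb_k (k : Fin 3) : k + 1 ≠ k ∧ k + 2 ≠ k ∧ k + 1 ≠ k + 2 := by
  revert k
  decide

private lemma stb_sets {n d : ℕ} {k : Fin 3} {T : Fin n → Fin n → St} (hT : T ∈ CR (Fin n))
    (hD : ∀ i, i ≠ k → ¬ Defi d i T) (v : Fin n) (hv : 2 * d ≤ dg k T v) :
    ∃ c : Fin 3, ∀ x ∈ stbM k c, NLs d T v x := by
  have k1 : k + 1 ≠ k := stb_k k |>.1
  have k2 : k + 2 ≠ k := stb_k k |>.2.1
  have k12 : k + 1 ≠ k + 2 := stb_k k |>.2.2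
  have hlarge : ¬ NLs d T v (k, true) ∨ ¬ NLs d T v (k, false) := by
    by_contra hcon
    rw [not_or, not_not, not_not] at hcon
    obtain ⟨h1, h2⟩ := hcon
    unfold NLs at h1 h2
    have h3 : dg k T v ≤ (univ.filter (fun u => u ≠ v ∧ T v u = (k, true))).card +
        (univ.filter (fun u => u ≠ v ∧ T v u = (k, false))).card := by
      have e : dg k T v = (univ.filter (fun u => u ≠ v ∧ (T v u).1 = k)).card := by
        unfold dg
        congr
      rw [e]
      refine le_trans (Finset.card_le_card ?_) (Finset.card_union_le _ _)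
      intro u hu
      obtain ⟨_, hu1, hu2⟩ := Finset.mem_filter.1 hu
      rw [mem_union, mem_filter, mem_filter]
      rcases hb : (T v u).2 with _ | _
      · exact Or.inr ⟨mem_univ _, hu1, Prod.ext hu2 hb⟩
      · exact Or.inl ⟨mem_univ _, hu1, Prod.ext hu2 hb⟩
    omega
  by_cases ht : NLs d T v (k, true)
  · -- `(k, false)` is large
    have hf : ¬ NLs d T v (k, false) := by
      rcases hlarge with h | h
      · exact absurd ht h
      · exact h
    refine ⟨2, ?_⟩
    intro x hx
    simp only [stbM, mem_insert, mem_singleton] at hx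
    rcases hx with rfl | rfl | rfl
    · by_contra hc
      exact stb_key hT v k1.symm k2 k12.symm (hD _ k2) hc hf
    · by_contra hc
      exact stb_key hT v k2.symm k1 k12 (hD _ k1) hc hf
    · exact ht
  · have hi1 : NLs d T v (k + 1, false) := by
      by_contra hc
      exact stb_key hT v k1 k12.symm k2 (hD _ k2) ht hc
    have hi2 : NLs d T v (k + 2, false) := by
      by_contra hc
      exact stb_key hT v k2 k12 k1 (hD _ k1) ht hc
    by_cases hf : NLs d T v (k, false)
    · refine ⟨0, ?_⟩
      intro x hx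
      simp only [stbM, mem_insert, mem_singleton] at hx
      rcases hx with rfl | rfl | rfl
      · exact hi1
      · exact hi2
      · exact hf
    · refine ⟨1, ?_⟩
      intro x hx
      simp only [stbM, mem_insert, mem_singleton] at hx
      rcases hx with rfl | rfl | rfl
      · exact hi1
      · exact hi2
      · by_contra hc
        exact stb_key hT v k1.symm k2 k12.symm (hD _ k2) hc hf

/-- the state vectors with at most `3 d` states in `M` -/
private noncomputable def stbS (n d : ℕ) (v : Fin (n + 1)) (M : Finset St) :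
    Finset ({u : Fin (n + 1) // u ≠ v} → St) :=
  univ.filter (fun s => (univ.filter (fun u => s u ∈ M)).card ≤ 3 * d)

private lemma stbS_card (n d : ℕ) (v : Fin (n + 1)) (M : Finset St) (hM : M.card = 3) :
    ((stbS n d v M).card : ℝ) ≤ 6 ^ (3 * d) * (7 / 2) ^ n := by
  set w : St → ℝ := fun x => if x ∈ M then 1 / 6 else 1 with hw
  have hw0 : ∀ x, 0 ≤ w x := by
    intro x
    rw [hw]
    simp only
    split_ifs <;> norm_num
  have hS : ∀ s ∈ stbS n d v M, ((1 : ℝ) / 6) ^ (3 * d) ≤ ∏ u, w (s u) := by
    intro s hs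
    unfold stbS at hs
    rw [mem_filter] at hs
    have e : ∏ u, w (s u) = ((1 : ℝ) / 6) ^ (univ.filter (fun u => s u ∈ M)).card := by
      rw [hw]
      simp only
      rw [Finset.prod_ite, Finset.prod_const, Finset.prod_const, one_pow, mul_one]
    rw [e]
    exact pow_le_pow_of_le_one (by norm_num) (by norm_num) hs.2
  have hsum : ∑ x, w x = 7 / 2 := by
    rw [hw]
    simp only
    rw [Finset.sum_ite, Finset.sum_const, Finset.sum_const]
    have h1 : (univ.filter (fun x : St => x ∈ M)).card = 3 := by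
      rw [Finset.filter_mem_eq_inter, Finset.univ_inter, hM]
    have h2 : (univ.filter (fun x : St => x ∉ M)).card = 3 := by
      have h3 := Finset.card_filter_add_card_filter_not (s := (univ : Finset St)) (p := fun x => x ∈ M)
      rw [h1] at h3
      have h4 : (univ : Finset St).card = 6 := by
        rw [Finset.card_univ, Fintype.card_prod, Fintype.card_fin, Fintype.card_bool]
      rw [h4] at h3
      omega
    rw [h1, h2]
    norm_num
  have h := markov w hw0 _ (stbS n d v M) hS
  rw [hsum] at h
  have hcard : Fintype.card {u : Fin (n + 1) // u ≠ v} = n := by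
    rw [Fintype.card_subtype_compl, Fintype.card_fin, Fintype.card_subtype_eq]
    omega
  rw [hcard] at h
  have h6 : (6 : ℝ) ^ (3 * d) * (1 / 6) ^ (3 * d) = 1 := by
    rw [← mul_pow]
    norm_num
  calc ((stbS n d v M).card : ℝ) = 6 ^ (3 * d) * ((1 / 6) ^ (3 * d) * (stbS n d v M).card) := by
        rw [← mul_assoc, h6, one_mul]
    _ ≤ 6 ^ (3 * d) * (7 / 2) ^ n := mul_le_mul_of_nonneg_left h (by positivity)

private lemma stb_memS {n d : ℕ} {T : Fin (n + 1) → Fin (n + 1) → St} {v : Fin (n + 1)} {M : Finset St}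
    (hM : M.card = 3) (h : ∀ x ∈ M, NLs d T v x) :
    (fun u : {u : Fin (n + 1) // u ≠ v} => T v u.1) ∈ stbS n d v M := by
  unfold stbS
  rw [mem_filter]
  refine ⟨mem_univ _, ?_⟩
  have h1 : (univ.filter (fun u : {u : Fin (n + 1) // u ≠ v} => T v u.1 ∈ M)).card ≤
      (M.biUnion (fun x => univ.filter (fun u => u ≠ v ∧ T v u = x))).card := by
    refine Finset.card_le_card_of_injOn (fun u => u.1) ?_ ?_
    · intro u hu
      rw [Finset.mem_coe, mem_filter] at hu
      rw [Finset.mem_coe, mem_biUnion]
      exact ⟨T v u.1, hu.2, mem_filter.2 ⟨mem_univ _, u.2, rfl⟩⟩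
    · intro u _ u' _ huu
      exact Subtype.ext huu
  refine h1.trans ((Finset.card_biUnion_le_card_mul _ _ d fun x hx => ?_).trans (by rw [hM]))
  have := h x hx
  unfold NLs at this
  exact this.le

theorem stageB (n d : ℕ) (hd : 1 ≤ d) (k : Fin 3) :
    ((CB1 (n + 1) d k).card : ℝ) ≤ (n + 1) * A n * (20 * 6 ^ (3 * d)) * (7 / 2) ^ n := by
  have hsub : CB1 (n + 1) d k ⊆ (univ : Finset (Fin (n + 1) × Fin 3)).biUnion (fun z =>
      (CR (Fin (n + 1))).filter (fun T => (fun u : {u : Fin (n + 1) // u ≠ z.1} => T z.1 u.1) ∈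
        stbS n d z.1 (stbM k z.2))) := by
    intro T hT
    unfold CB1 at hT
    rw [mem_filter] at hT
    obtain ⟨hT, hD, v, hv⟩ := hT
    obtain ⟨c, hc⟩ := stb_sets hT hD v hv
    rw [mem_biUnion]
    refine ⟨(v, c), mem_univ _, ?_⟩
    rw [mem_filter]
    exact ⟨hT, stb_memS (stbM_card k c) hc⟩
  have h1 : ((CB1 (n + 1) d k).card : ℝ) ≤ ∑ z : Fin (n + 1) × Fin 3,
      (((CR (Fin (n + 1))).filter (fun T => (fun u : {u : Fin (n + 1) // u ≠ z.1} => T z.1 u.1) ∈
        stbS n d z.1 (stbM k z.2))).card : ℝ) := by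
    have h := (Finset.card_le_card hsub).trans Finset.card_biUnion_le
    exact_mod_cast h
  have h2 : ∀ z ∈ (univ : Finset (Fin (n + 1) × Fin 3)),
      (((CR (Fin (n + 1))).filter (fun T => (fun u : {u : Fin (n + 1) // u ≠ z.1} => T z.1 u.1) ∈
        stbS n d z.1 (stbM k z.2))).card : ℝ) ≤ A n * (6 ^ (3 * d) * (7 / 2) ^ n) := by
    intro z _
    have h3 := extend_one n z.1 (stbS n d z.1 (stbM k z.2))
    have h4 : (((CR (Fin (n + 1))).filter (fun T => (fun u : {u : Fin (n + 1) // u ≠ z.1} => T z.1 u.1) ∈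
        stbS n d z.1 (stbM k z.2))).card : ℝ) ≤ A n * (stbS n d z.1 (stbM k z.2)).card := by
      exact_mod_cast h3
    exact h4.trans (mul_le_mul_of_nonneg_left (stbS_card n d z.1 _ (stbM_card k z.2)) (Nat.cast_nonneg _))
  refine h1.trans ((Finset.sum_le_sum h2).trans ?_)
  rw [Finset.sum_const, Finset.card_univ, Fintype.card_prod, Fintype.card_fin, Fintype.card_fin, nsmul_eq_mul]
  push_cast
  have hA : (0 : ℝ) ≤ A n := Nat.cast_nonneg _
  have h6 : (0 : ℝ) ≤ 6 ^ (3 * d) * (7 / 2) ^ n := by positivity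
  have hn : (0 : ℝ) ≤ (n : ℝ) + 1 := by positivity
  nlinarith [mul_nonneg hn (mul_nonneg hA h6)]

end Pool.Agent.Helper74.TS
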