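import Pool.Agent.Helper74.TS.Res

/-!
# TS-STC: stage C

PROOF. Let `T ∈ CC1 (n + 2) d k`, `T a b = (k, true)`. For `u ≠ a, b` let `s u = (T a u, T b u)`. If neither state has colour `k`, then `s u` is not
`((i, false), (j, true))` with `i ≠ j` (`b → u → a` has colours `j`, `i`, `a → b` has colour `k`: rainbow), so it is one of `14` values. At most
`dg k T a + dg k T b ≤ 4 d` of the `u` have a state of colour `k`. `markov` with `w x = 1` for the `14` values, `1 / 20` for the `20` values with
a state of colour `k`, `0` for the two excluded values, `c = (1 / 20) ^ (4 d)`, `∑ w = 15`; then `extend_two` with `x = (k, true)`; union over `(a, b)`.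
-/

set_option autoImplicit false

namespace Pool.Agent.Helper74.TS

open Finset Classical

/-- a state of colour `k` -/
private def stc_k (k : Fin 3) (x : St × St) : Prop := x.1.1 = k ∨ x.2.1 = k

private instance (k : Fin 3) (x : St × St) : Decidable (stc_k k x) := by unfold stc_k; infer_instance

/-- excluded pairs -/
private def stc_e (k : Fin 3) (x : St × St) : Prop :=
  x.1.2 = false ∧ x.2.2 = true ∧ x.1.1 ≠ x.2.1 ∧ x.1.1 ≠ k ∧ x.2.1 ≠ k

private instance (k : Fin 3) (x : St × St) : Decidable (stc_e k x) := by unfold stc_e; infer_instance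

/-- the weight -/
private noncomputable def stc_w (k : Fin 3) (x : St × St) : ℝ :=
  if stc_k k x then 1 / 20 else if stc_e k x then 0 else 1

private lemma stc_card20 (k : Fin 3) : (univ.filter (fun x : St × St => stc_k k x)).card = 20 := by
  revert k
  decide

private lemma stc_card14 (k : Fin 3) : (univ.filter (fun x : St × St => ¬ stc_k k x ∧ ¬ stc_e k x)).card = 14 := by
  revert k
  decide

private lemma stc_sum (k : Fin 3) : ∑ x : St × St, stc_w k x = 15 := by
  have e : ∀ x : St × St, stc_w k x = (if stc_k k x then (1 / 20 : ℝ) else 0) + (if ¬ stc_k k x ∧ ¬ stc_e k x then 1 else 0) := by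
    intro x
    unfold stc_w
    by_cases h1 : stc_k k x
    · simp [h1]
    · by_cases h2 : stc_e k x
      · simp [h1, h2]
      · simp [h1, h2]
  rw [Finset.sum_congr rfl (fun x _ => e x), Finset.sum_add_distrib, ← Finset.sum_filter, ← Finset.sum_filter,
    Finset.sum_const, Finset.sum_const, stc_card20, stc_card14]
  norm_num

/-- the state vectors allowed in stage C -/
private noncomputable def stc_S {W : Type} [Fintype W] (k : Fin 3) (d : ℕ) : Finset (W → St × St) :=
  univ.filter (fun s => (∀ u, ¬ stc_e k (s u)) ∧ (univ.filter (fun u => stc_k k (s u))).card ≤ 4 * d)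

private lemma stc_mem {W : Type} [Fintype W] {k : Fin 3} {d : ℕ} {s : W → St × St} (h1 : ∀ u, ¬ stc_e k (s u))
    (h2 : (univ.filter (fun u => stc_k k (s u))).card ≤ 4 * d) : s ∈ stc_S k d := by
  unfold stc_S
  rw [Finset.mem_filter]
  exact ⟨Finset.mem_univ _, h1, h2⟩

private lemma stc_Scard {W : Type} [Fintype W] (k : Fin 3) (d : ℕ) :
    ((stc_S (W := W) k d).card : ℝ) ≤ 20 ^ (4 * d) * 15 ^ Fintype.card W := by
  have h := markov (W := W) (stc_w k) (fun x => by unfold stc_w; split_ifs <;> norm_num) ((1 / 20) ^ (4 * d)) (stc_S k d)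
    (fun s hs => by
      unfold stc_S at hs
      obtain ⟨h1, h2⟩ := (Finset.mem_filter.1 hs).2
      have e : ∀ u, stc_w k (s u) = if stc_k k (s u) then (1 / 20 : ℝ) else 1 := by
        intro u
        unfold stc_w
        rw [if_neg (h1 u)]
      rw [Finset.prod_congr rfl (fun u _ => e u), Finset.prod_ite, Finset.prod_const, Finset.prod_const, one_pow, mul_one]
      exact pow_le_pow_of_le_one (by norm_num) (by norm_num) h2)
  rw [stc_sum] at h
  have h20 : (0 : ℝ) < 20 ^ (4 * d) := by positivity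
  have e2 : (20 : ℝ) ^ (4 * d) * (1 / 20) ^ (4 * d) = 1 := by
    rw [← mul_pow]
    norm_num
  calc ((stc_S (W := W) k d).card : ℝ) = 20 ^ (4 * d) * ((1 / 20) ^ (4 * d) * (stc_S (W := W) k d).card) := by
        rw [← mul_assoc, e2, one_mul]
    _ ≤ _ := mul_le_mul_of_nonneg_left h h20.le

private lemma stc_W {n : ℕ} (a b : Fin (n + 2)) (hab : a ≠ b) :
    Fintype.card {u : Fin (n + 2) // u ≠ a ∧ u ≠ b} = n := by
  rw [Fintype.card_subtype]
  have h : (univ.filter (fun u : Fin (n + 2) => u ≠ a ∧ u ≠ b)) = (univ.erase a).erase b := by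
    ext u
    simp only [Finset.mem_filter, Finset.mem_univ, true_and, Finset.mem_erase, and_true]
    tauto
  rw [h, Finset.card_erase_of_mem (by simp [hab.symm]), Finset.card_erase_of_mem (Finset.mem_univ _), Finset.card_univ, Fintype.card_fin]
  rfl

theorem stageC (n d : ℕ) (k : Fin 3) :
    ((CC1 (n + 2) d k).card : ℝ) ≤ (n + 2) ^ 2 * A n * 20 ^ (4 * d) * 15 ^ n := by
  set P : Finset (Fin (n + 2) × Fin (n + 2)) := univ.filter (fun p => p.1 ≠ p.2) with hP
  have hsub : CC1 (n + 2) d k ⊆ P.biUnion (fun p => (CR (Fin (n + 2))).filter (fun T => T p.1 p.2 = (k, true) ∧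
      (fun u : {u : Fin (n + 2) // u ≠ p.1 ∧ u ≠ p.2} => (T p.1 u.1, T p.2 u.1)) ∈ stc_S k d)) := by
    intro T hT
    unfold CC1 at hT
    obtain ⟨hCR, ⟨a, b, hab, hk⟩, hdg⟩ := Finset.mem_filter.1 hT
    obtain ⟨hct, hrf⟩ := mem_CR.1 hCR
    rw [Finset.mem_biUnion]
    refine ⟨(a, b), Finset.mem_filter.2 ⟨Finset.mem_univ _, hab⟩, Finset.mem_filter.2 ⟨hCR, hk, ?_⟩⟩
    refine stc_mem ?_ ?_
    · rintro ⟨u, hua, hub⟩ ⟨h1, h2, h3, h4, h5⟩
      simp only at h1 h2 h3 h4 h5 hua hub
      refine hrf a b u hab (Ne.symm hub) (Ne.symm hua) ⟨?_, h2, ?_, ?_, ?_, ?_⟩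
      · rw [hk]
      · rw [hct.2 a u (Ne.symm hua)]
        simp [rv, h1]
      · rw [hk]
        exact Ne.symm h5
      · rw [hct.2 a u (Ne.symm hua)]
        simp only [rv]
        exact Ne.symm h3
      · rw [hct.2 a u (Ne.symm hua), hk]
        simp only [rv]
        exact Ne.symm h4
    · have h1 : (univ.filter (fun u : {u : Fin (n + 2) // u ≠ a ∧ u ≠ b} => stc_k k (T a u.1, T b u.1))).card ≤
          dg k T a + dg k T b := by
        have h2 : ((univ.filter (fun u : {u : Fin (n + 2) // u ≠ a ∧ u ≠ b} => stc_k k (T a u.1, T b u.1))).map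
            (Function.Embedding.subtype _)) ⊆
            (univ.filter (fun u => u ≠ a ∧ (T a u).1 = k)) ∪ (univ.filter (fun u => u ≠ b ∧ (T b u).1 = k)) := by
          intro u hu
          obtain ⟨⟨u', hua, hub⟩, hu', rfl⟩ := Finset.mem_map.1 hu
          have h3 := (Finset.mem_filter.1 hu').2
          rw [Finset.mem_union, Finset.mem_filter, Finset.mem_filter]
          rcases h3 with h3 | h3
          · exact Or.inl ⟨Finset.mem_univ _, hua, h3⟩
          · exact Or.inr ⟨Finset.mem_univ _, hub, h3⟩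
        have h4 := (Finset.card_le_card h2).trans (Finset.card_union_le _ _)
        rw [Finset.card_map] at h4
        have e1 : ∀ v, (univ.filter (fun u => u ≠ v ∧ (T v u).1 = k)).card = dg k T v := by
          intro v
          unfold dg
          congr 1
          ext u
          simp only [Finset.mem_filter]
        rw [e1, e1] at h4
        exact h4
      have ha := hdg a
      have hb := hdg b
      exact h1.trans (by omega)
  have hcard : ∀ p ∈ P, (((CR (Fin (n + 2))).filter (fun T => T p.1 p.2 = (k, true) ∧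
      (fun u : {u : Fin (n + 2) // u ≠ p.1 ∧ u ≠ p.2} => (T p.1 u.1, T p.2 u.1)) ∈ stc_S k d)).card : ℝ) ≤
      A n * (20 ^ (4 * d) * 15 ^ n) := by
    intro p hp
    have hp' : p.1 ≠ p.2 := (Finset.mem_filter.1 hp).2
    have h1 := extend_two n p.1 p.2 hp' (k, true) (stc_S k d)
    have h2 := stc_Scard (W := {u : Fin (n + 2) // u ≠ p.1 ∧ u ≠ p.2}) k d
    rw [stc_W p.1 p.2 hp'] at h2
    refine (by exact_mod_cast h1 : _ ≤ ((A n * (stc_S k d).card : ℕ) : ℝ)).trans ?_
    push_cast
    exact mul_le_mul_of_nonneg_left h2 (by positivity)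
  have hPc : (P.card : ℝ) ≤ (n + 2) ^ 2 := by
    have : P.card ≤ (n + 2) ^ 2 := by
      refine (Finset.card_filter_le _ _).trans ?_
      rw [Finset.card_univ, Fintype.card_prod, Fintype.card_fin]
      exact le_of_eq (by ring)
    exact_mod_cast this
  calc ((CC1 (n + 2) d k).card : ℝ) ≤ ((P.biUnion (fun p => (CR (Fin (n + 2))).filter (fun T => T p.1 p.2 = (k, true) ∧
      (fun u : {u : Fin (n + 2) // u ≠ p.1 ∧ u ≠ p.2} => (T p.1 u.1, T p.2 u.1)) ∈ stc_S k d))).card : ℝ) := by
        exact_mod_cast Finset.card_le_card hsub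
    _ ≤ ∑ p ∈ P, (((CR (Fin (n + 2))).filter (fun T => T p.1 p.2 = (k, true) ∧
      (fun u : {u : Fin (n + 2) // u ≠ p.1 ∧ u ≠ p.2} => (T p.1 u.1, T p.2 u.1)) ∈ stc_S k d)).card : ℝ) := by
        exact_mod_cast Finset.card_biUnion_le
    _ ≤ P.card • (A n * (20 ^ (4 * d) * 15 ^ n) : ℝ) := Finset.sum_le_card_nsmul _ _ _ hcard
    _ ≤ (n + 2) ^ 2 * (A n * (20 ^ (4 * d) * 15 ^ n)) := by
        rw [nsmul_eq_mul]
        exact mul_le_mul_of_nonneg_right hPc (by positivity)
    _ = _ := by ring

end Pool.Agent.Helper74.TS
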