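import Mathlib

/-!
# TS-WB: a numerical bound

PROOF. With `d = (n + 2) / 400 + 1`: to stay with integer exponents use `(15 / 16) ^ 100 * 20 ≤ (97 / 100) ^ 100` and `(7 / 8) ^ 400 * 6 ^ 3 ≤ (97 / 100) ^ 400` (`norm_num`); write
`n + 2 = 400 e + r`, `r < 400`, `d = e + 1`: `20 ^ (4 d) (15 / 16) ^ (n + 2) ≤ 20 ^ 4 (97 / 100) ^ (400 e) ≤ C (97 / 100) ^ n`, the same for the other term. Finally
`n ^ 2 (97 / 100) ^ n ≤ C (98 / 100) ^ n` (`tendsto_pow_const_mul_const_pow_of_abs_lt_one` or similar: a convergent sequence is bounded).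
-/

set_option autoImplicit false

namespace Pool.Agent.Helper74.TS

private theorem wb_geo (q A : ℝ) (c k : ℕ) (hk : 0 < k) (hq0 : 0 < q) (hq1 : q ≤ 1) (hq : q ^ k * c ≤ (97 / 100) ^ k)
    (hA : A * (97 / 100) ^ k = 1) (n : ℕ) :
    (c : ℝ) ^ ((n + 2) / k) * q ^ (n + 2) ≤ (97 / 100) ^ n * A := by
  obtain ⟨e, r, hr, hn⟩ : ∃ e r, r < k ∧ n + 2 = k * e + r :=
    ⟨(n + 2) / k, (n + 2) % k, Nat.mod_lt _ hk, (Nat.div_add_mod _ _).symm⟩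
  have he : (n + 2) / k = e := by
    rw [hn, Nat.mul_add_div hk, Nat.div_eq_of_lt hr, add_zero]
  have hA0 : 0 < A := by
    by_contra h
    have : A * (97 / 100) ^ k ≤ 0 := mul_nonpos_of_nonpos_of_nonneg (not_lt.mp h) (by positivity)
    linarith
  rw [he, hn, pow_add, pow_mul]
  have h1 : (c : ℝ) ^ e * ((q ^ k) ^ e * q ^ r) ≤ ((97 / 100 : ℝ) ^ k) ^ e := by
    calc (c : ℝ) ^ e * ((q ^ k) ^ e * q ^ r) ≤ (c : ℝ) ^ e * ((q ^ k) ^ e * 1) := by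
          gcongr
          exact pow_le_one₀ hq0.le hq1
      _ = (q ^ k * c) ^ e := by rw [mul_one, mul_comm, mul_pow]
      _ ≤ _ := by gcongr
  refine h1.trans ?_
  have h2 : ((97 / 100 : ℝ) ^ k) ^ e = ((97 / 100 : ℝ) ^ k) ^ e * (A * (97 / 100) ^ k) := by rw [hA, mul_one]
  rw [h2, ← pow_mul]
  have h3 : (97 / 100 : ℝ) ^ (k * e) * (A * (97 / 100) ^ k) = (97 / 100 : ℝ) ^ (k * e + k) * A := by
    rw [pow_add]; ring
  rw [h3]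
  have h4 : (97 / 100 : ℝ) ^ (k * e + k) ≤ (97 / 100) ^ n :=
    pow_le_pow_of_le_one (by norm_num) (by norm_num) (by omega)
  gcongr

private theorem wb_num1 : (15 / 16 : ℝ) ^ 400 * (160000 : ℕ) ≤ (97 / 100) ^ 400 := by
  have h : (15 / 16 : ℝ) ^ 100 * 20 ≤ (97 / 100) ^ 100 := by norm_num
  calc (15 / 16 : ℝ) ^ 400 * (160000 : ℕ) = ((15 / 16 : ℝ) ^ 100 * 20) ^ 4 := by
        rw [mul_pow, ← pow_mul]
        have : ((160000 : ℕ) : ℝ) = 20 ^ 4 := by norm_num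
        rw [this]
    _ ≤ ((97 / 100 : ℝ) ^ 100) ^ 4 := by gcongr
    _ = _ := by rw [← pow_mul]

private theorem wb_num2 : (7 / 8 : ℝ) ^ 400 * (216 : ℕ) ≤ (97 / 100) ^ 400 := by
  have h : (7 / 8 : ℝ) ^ 100 * 6 ≤ (97 / 100) ^ 100 := by norm_num
  calc (7 / 8 : ℝ) ^ 400 * (216 : ℕ) ≤ (7 / 8 : ℝ) ^ 400 * 6 ^ 4 := by
        apply mul_le_mul_of_nonneg_left _ (pow_nonneg (by norm_num) _)
        norm_num
    _ = ((7 / 8 : ℝ) ^ 100 * 6) ^ 4 := by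
        rw [mul_pow, ← pow_mul]
    _ ≤ ((97 / 100 : ℝ) ^ 100) ^ 4 := by gcongr
    _ = _ := by rw [← pow_mul]

private theorem wb_bdd : ∃ B : ℝ, 0 ≤ B ∧ ∀ n : ℕ, ((n : ℝ) + 2) ^ 2 * (97 / 100) ^ n ≤ B * (98 / 100) ^ n := by
  have h1 : Filter.Tendsto (fun n : ℕ => (n : ℝ) ^ 2 * (97 / 98 : ℝ) ^ n) Filter.atTop (nhds 0) :=
    tendsto_pow_const_mul_const_pow_of_abs_lt_one 2 (by rw [abs_of_pos (by norm_num)]; norm_num)
  obtain ⟨B, hB⟩ := h1.bddAbove_range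
  have hB' : ∀ n : ℕ, (n : ℝ) ^ 2 * (97 / 98 : ℝ) ^ n ≤ B := fun n => hB ⟨n, rfl⟩
  have hB0 : 0 ≤ B := by
    have := hB' 0
    simpa using this
  refine ⟨9 * B + 4, by positivity, fun n => ?_⟩
  have e1 : (97 / 100 : ℝ) ^ n = (97 / 98) ^ n * (98 / 100) ^ n := by
    rw [← mul_pow]
    norm_num
  have h2 : ((n : ℝ) + 2) ^ 2 ≤ 9 * (n : ℝ) ^ 2 + 4 := by
    rcases Nat.eq_zero_or_pos n with h | h
    · subst h; norm_num
    · have : (1 : ℝ) ≤ n := by exact_mod_cast h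
      nlinarith
  have h3 : (97 / 98 : ℝ) ^ n ≤ 1 := pow_le_one₀ (by norm_num) (by norm_num)
  have h4 : ((n : ℝ) + 2) ^ 2 * (97 / 98) ^ n ≤ 9 * B + 4 := by
    calc ((n : ℝ) + 2) ^ 2 * (97 / 98) ^ n ≤ (9 * (n : ℝ) ^ 2 + 4) * (97 / 98) ^ n := by gcongr
      _ = 9 * ((n : ℝ) ^ 2 * (97 / 98) ^ n) + 4 * (97 / 98) ^ n := by ring
      _ ≤ 9 * B + 4 * 1 := by
          gcongr
          exact hB' n
      _ = _ := by ring
  rw [e1, ← mul_assoc]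
  gcongr

theorem w_bound : ∃ C : ℝ, ∀ n : ℕ, (1 / 2 : ℝ) ^ (n + 2) +
    60 * (n + 2) * 6 ^ (3 * ((n + 2) / 400 + 1)) * (7 / 8) ^ (n + 1) +
    3 * (n + 2) ^ 2 * 20 ^ (4 * ((n + 2) / 400 + 1)) * (15 / 16) ^ n ≤ C * (98 / 100) ^ n := by
  obtain ⟨B, hB0, hB⟩ := wb_bdd
  have hP : (0 : ℝ) < (97 / 100 : ℝ) ^ 400 := pow_pos (by norm_num) _
  obtain ⟨A, hA0, hA⟩ : ∃ A : ℝ, 0 < A ∧ A * (97 / 100) ^ 400 = 1 :=
    ⟨((97 / 100 : ℝ) ^ 400)⁻¹, inv_pos.mpr hP, inv_mul_cancel₀ hP.ne'⟩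
  refine ⟨1 + 60 * 216 * 2 * A * B + 3 * 160000 * 2 * A * B, fun n => ?_⟩
  have g1 := wb_geo (7 / 8) A 216 400 (by norm_num) (by norm_num) (by norm_num) wb_num2 hA n
  have g2 := wb_geo (15 / 16) A 160000 400 (by norm_num) (by norm_num) (by norm_num) wb_num1 hA n
  clear hA hP
  have e1 : (6 : ℝ) ^ (3 * ((n + 2) / 400 + 1)) = 216 * ((216 : ℕ) : ℝ) ^ ((n + 2) / 400) := by
    rw [pow_mul, pow_succ]
    norm_num
    ring
  have e2 : (20 : ℝ) ^ (4 * ((n + 2) / 400 + 1)) = 160000 * ((160000 : ℕ) : ℝ) ^ ((n + 2) / 400) := by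
    rw [pow_mul, pow_succ]
    norm_num
    ring
  have e3 : (7 / 8 : ℝ) ^ (n + 1) ≤ 2 * (7 / 8) ^ (n + 2) := by
    rw [pow_succ (7 / 8 : ℝ) (n + 1)]
    have : 0 < (7 / 8 : ℝ) ^ (n + 1) := by positivity
    linarith
  have e4 : (15 / 16 : ℝ) ^ n ≤ 2 * (15 / 16) ^ (n + 2) := by
    rw [pow_add]
    have : 0 < (15 / 16 : ℝ) ^ n := by positivity
    norm_num
    linarith
  have hn0 : (0 : ℝ) ≤ n := Nat.cast_nonneg n
  have hp97 : 0 < (97 / 100 : ℝ) ^ n := by positivity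
  have hp98 : 0 < (98 / 100 : ℝ) ^ n := by positivity
  have hBn := hB n
  have t1 : (1 / 2 : ℝ) ^ (n + 2) ≤ (98 / 100) ^ n := by
    calc (1 / 2 : ℝ) ^ (n + 2) ≤ (1 / 2) ^ n := pow_le_pow_of_le_one (by norm_num) (by norm_num) (by omega)
      _ ≤ _ := pow_le_pow_left₀ (by norm_num) (by norm_num) n
  have t2 : 60 * ((n : ℝ) + 2) * 6 ^ (3 * ((n + 2) / 400 + 1)) * (7 / 8) ^ (n + 1) ≤
      60 * 216 * 2 * A * B * (98 / 100) ^ n := by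
    rw [e1]
    calc 60 * ((n : ℝ) + 2) * (216 * ((216 : ℕ) : ℝ) ^ ((n + 2) / 400)) * (7 / 8) ^ (n + 1)
        ≤ 60 * ((n : ℝ) + 2) * (216 * ((216 : ℕ) : ℝ) ^ ((n + 2) / 400)) * (2 * (7 / 8) ^ (n + 2)) := by
          gcongr
      _ = 60 * 216 * 2 * ((n : ℝ) + 2) * (((216 : ℕ) : ℝ) ^ ((n + 2) / 400) * (7 / 8) ^ (n + 2)) := by ring
      _ ≤ 60 * 216 * 2 * ((n : ℝ) + 2) * ((97 / 100) ^ n * A) := by gcongr
      _ ≤ 60 * 216 * 2 * ((n : ℝ) + 2) ^ 2 * ((97 / 100) ^ n * A) := by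
          gcongr
          nlinarith
      _ = 60 * 216 * 2 * A * (((n : ℝ) + 2) ^ 2 * (97 / 100) ^ n) := by ring
      _ ≤ 60 * 216 * 2 * A * (B * (98 / 100) ^ n) := by gcongr
      _ = _ := by ring
  have t3 : 3 * ((n : ℝ) + 2) ^ 2 * 20 ^ (4 * ((n + 2) / 400 + 1)) * (15 / 16) ^ n ≤
      3 * 160000 * 2 * A * B * (98 / 100) ^ n := by
    rw [e2]
    calc 3 * ((n : ℝ) + 2) ^ 2 * (160000 * ((160000 : ℕ) : ℝ) ^ ((n + 2) / 400)) * (15 / 16) ^ n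
        ≤ 3 * ((n : ℝ) + 2) ^ 2 * (160000 * ((160000 : ℕ) : ℝ) ^ ((n + 2) / 400)) * (2 * (15 / 16) ^ (n + 2)) := by
          gcongr
      _ = 3 * 160000 * 2 * ((n : ℝ) + 2) ^ 2 *
          (((160000 : ℕ) : ℝ) ^ ((n + 2) / 400) * (15 / 16) ^ (n + 2)) := by ring
      _ ≤ 3 * 160000 * 2 * ((n : ℝ) + 2) ^ 2 * ((97 / 100) ^ n * A) := by gcongr
      _ = 3 * 160000 * 2 * A * (((n : ℝ) + 2) ^ 2 * (97 / 100) ^ n) := by ring
      _ ≤ 3 * 160000 * 2 * A * (B * (98 / 100) ^ n) := by gcongr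
      _ = _ := by ring
  calc _ ≤ (98 / 100 : ℝ) ^ n + 60 * 216 * 2 * A * B * (98 / 100) ^ n +
        3 * 160000 * 2 * A * B * (98 / 100) ^ n := add_le_add (add_le_add t1 t2) t3
    _ = _ := by ring

end Pool.Agent.Helper74.TS
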