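import Pool.Agent.Helper74.TS.ClA
import Pool.Agent.Helper74.TS.Num
import Pool.Agent.Helper74.TS.StB
import Pool.Agent.Helper74.TS.StC
import Pool.Agent.Helper74.TS.Low
import Pool.Agent.Helper74.TS.Rec
import Pool.Agent.Helper74.TS.Wb

/-!
# TS-FIN: assembly
-/

set_option autoImplicit false

namespace Pool.Agent.Helper74.TS

open Finset Classical

private lemma arith1 {c x g6 f m X n2 : ℕ} (h1 : c * x ≤ g6 * f * m * X) (h2 : g6 * m * X * n2 ≤ x) (hx : 0 < x) :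
    c * n2 ≤ f := by
  have h3 : c * n2 * x ≤ f * x := by
    calc c * n2 * x = (c * x) * n2 := by ring
      _ ≤ (g6 * f * m * X) * n2 := Nat.mul_le_mul_right _ h1
      _ = f * (g6 * m * X * n2) := by ring
      _ ≤ f * x := Nat.mul_le_mul_left _ h2
  exact Nat.le_of_mul_le_mul_right h3 hx

theorem claimA : ∃ n₀ : ℕ, ∀ n ≥ n₀, (CD n (n / 400 + 1)).card * 2 ^ n ≤ 4 ^ n.choose 2 := by
  obtain ⟨t, ht⟩ : ∃ t : ℕ, t + 1 = 2 ^ 40 := ⟨2 ^ 40 - 1, by norm_num⟩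
  obtain ⟨R, hR⟩ : ∃ R : ℕ, R = 6 ^ (6 * t) := ⟨_, rfl⟩
  obtain ⟨n₁, h⟩ := num_aux t R ht
  refine ⟨n₁ + 400 * 64, fun n hn => ?_⟩
  obtain ⟨N, m, g, h1, hm, hg, hfin⟩ := h n (le_trans (Nat.le_add_right _ _) hn)
  rw [hR] at h1
  have hd : 64 ≤ n / 400 + 1 := by
    have : 400 * 64 ≤ n := le_trans (Nat.le_add_left _ _) hn
    omega
  have h2 := claimA_fixed n t N (n / 400 + 1) g m h1 hd hm hg
  exact arith1 h2 hfin (by positivity)

theorem CB_subset (n d : ℕ) : CB n ⊆ CD n d ∪ univ.biUnion (fun k => CB1 n d k ∪ CC1 n d k) := by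
  intro T hT
  unfold CB at hT
  rw [mem_filter] at hT
  obtain ⟨hCR, hT2⟩ := hT
  rw [mem_union]
  by_cases h : ∃ k k' : Fin 3, k ≠ k' ∧ Defi d k T ∧ Defi d k' T
  · left
    unfold CD
    rw [mem_filter]
    exact ⟨hCR, h⟩
  · right
    obtain ⟨k, hk⟩ : ∃ k : Fin 3, ∀ i, i ≠ k → ¬ Defi d i T := by
      by_cases h' : ∃ k, Defi d k T
      · obtain ⟨k, hk⟩ := h'
        exact ⟨k, fun i hi hid => h ⟨i, k, hi, hid, hk⟩⟩
      · exact ⟨0, fun i _ hid => h' ⟨i, hid⟩⟩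
    rw [mem_biUnion]
    refine ⟨k, mem_univ _, ?_⟩
    rw [mem_union]
    by_cases hv : ∃ v, 2 * d ≤ dg k T v
    · left
      unfold CB1
      rw [mem_filter]
      exact ⟨hCR, hk, hv⟩
    · right
      unfold CC1
      rw [mem_filter]
      refine ⟨hCR, ?_, fun v => ?_⟩
      · unfold TwoCol at hT2
        push Not at hT2
        obtain ⟨u, v, huv, huk⟩ := hT2 k
        have hct := (mem_CR.1 hCR).1
        rcases hs : T u v with ⟨c, b⟩
        rw [hs] at huk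
        simp only at huk
        subst huk
        cases b with
        | true => exact ⟨u, v, huv, hs⟩
        | false =>
          refine ⟨v, u, huv.symm, ?_⟩
          rw [hct.2 u v huv, hs]
          rfl
      · by_contra hc
        exact hv ⟨v, not_lt.1 hc⟩

private lemma CB_card (n d : ℕ) : ((CB n).card : ℝ) ≤ (CD n d).card + ∑ k : Fin 3, (((CB1 n d k).card : ℝ) + (CC1 n d k).card) := by
  have h1 : (CB n).card ≤ (CD n d).card + ∑ k : Fin 3, ((CB1 n d k).card + (CC1 n d k).card) := by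
    refine (card_le_card (CB_subset n d)).trans ((card_union_le _ _).trans ?_)
    refine Nat.add_le_add_left (card_biUnion_le.trans (sum_le_sum fun k _ => card_union_le _ _)) _
  calc ((CB n).card : ℝ) ≤ (((CD n d).card + ∑ k : Fin 3, ((CB1 n d k).card + (CC1 n d k).card) : ℕ) : ℝ) := by
        exact_mod_cast h1
    _ = _ := by push_cast; rfl

private lemma A_le (n : ℕ) : A n ≤ 3 * 4 ^ n.choose 2 + (CB n).card := by
  unfold A CB
  rw [← card_filter_add_card_filter_not (s := CR (Fin n)) (fun T => TwoCol T)]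
  exact Nat.add_le_add_right (two_upper n) _

private lemma ch1 (n : ℕ) : (n + 1).choose 2 = n.choose 2 + n := by
  rw [Nat.choose_succ_succ' n 1, Nat.choose_one_right, add_comm]

theorem main : ∃ n₀ : ℕ, ∀ n ≥ n₀, ((CB n).card : ℝ) ≤ (99 / 100) ^ n * ((CR (Fin n)).card : ℝ) := by
  obtain ⟨n₀, hA⟩ := claimA
  obtain ⟨C, hC⟩ := w_bound
  set a : ℕ → ℝ := fun n => (A n : ℝ) / 4 ^ n.choose 2 with ha
  set b : ℕ → ℝ := fun n => ((CB n).card : ℝ) / 4 ^ n.choose 2 with hb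
  have hpos : ∀ n : ℕ, (0 : ℝ) < 4 ^ n.choose 2 := fun n => by positivity
  have haA : ∀ n, (A n : ℝ) = a n * 4 ^ n.choose 2 := fun n => by
    rw [ha]
    simp only
    rw [div_mul_cancel₀ _ (hpos n).ne']
  have hbB : ∀ n, ((CB n).card : ℝ) = b n * 4 ^ n.choose 2 := fun n => by
    rw [hb]
    simp only
    rw [div_mul_cancel₀ _ (hpos n).ne']
  have ha0 : ∀ n, 0 ≤ a n := fun n => div_nonneg (Nat.cast_nonneg _) (hpos n).le
  have hb0 : ∀ n, 0 ≤ b n := fun n => div_nonneg (Nat.cast_nonneg _) (hpos n).le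
  have hab : ∀ n, a n ≤ 3 + b n := fun n => by
    have h1 : (A n : ℝ) ≤ 3 * 4 ^ n.choose 2 + (CB n).card := by exact_mod_cast A_le n
    rw [haA, hbB, ← add_mul] at h1
    exact le_of_mul_le_mul_right h1 (hpos n)
  have hrec : ∀ n ≥ n₀, b (n + 2) ≤ ((1 / 2 : ℝ) ^ (n + 2) +
      60 * (n + 2) * 6 ^ (3 * ((n + 2) / 400 + 1)) * (7 / 8) ^ (n + 1) +
      3 * (n + 2) ^ 2 * 20 ^ (4 * ((n + 2) / 400 + 1)) * (15 / 16) ^ n) * (1 + a (n + 1) + a n) := by
    intro n hn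
    obtain ⟨d, hd⟩ : ∃ d : ℕ, d = (n + 2) / 400 + 1 := ⟨_, rfl⟩
    have hA' := hA (n + 2) (by omega)
    rw [← hd] at hA' ⊢
    have hCD : ((CD (n + 2) d).card : ℝ) ≤ (1 / 2) ^ (n + 2) * 4 ^ (n + 2).choose 2 := by
      have h1 : ((CD (n + 2) d).card : ℝ) * 2 ^ (n + 2) ≤ 4 ^ (n + 2).choose 2 := by exact_mod_cast hA'
      have h2 : (1 / 2 : ℝ) ^ (n + 2) * 2 ^ (n + 2) = 1 := by rw [← mul_pow]; norm_num
      calc ((CD (n + 2) d).card : ℝ) = (1 / 2 : ℝ) ^ (n + 2) * (((CD (n + 2) d).card : ℝ) * 2 ^ (n + 2)) := by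
            rw [mul_comm ((CD (n + 2) d).card : ℝ), ← mul_assoc, h2, one_mul]
        _ ≤ _ := mul_le_mul_of_nonneg_left h1 (by positivity)
    have hB : ∀ k, ((CB1 (n + 2) d k).card : ℝ) ≤
        20 * (n + 2) * 6 ^ (3 * d) * (7 / 8) ^ (n + 1) * a (n + 1) * 4 ^ (n + 2).choose 2 := by
      intro k
      have h1 := stageB (n + 1) d (by omega) k
      have h2 : (4 : ℝ) ^ (n + 2).choose 2 = 4 ^ (n + 1).choose 2 * 4 ^ (n + 1) := by rw [ch1 (n + 1), pow_add]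
      have h3 : (7 / 8 : ℝ) ^ (n + 1) * 4 ^ (n + 1) = (7 / 2) ^ (n + 1) := by rw [← mul_pow]; norm_num
      refine h1.trans (le_of_eq ?_)
      rw [haA, h2, ← h3]
      push_cast
      ring
    have hCC : ∀ k, ((CC1 (n + 2) d k).card : ℝ) ≤
        (n + 2) ^ 2 * 20 ^ (4 * d) * (15 / 16) ^ n * a n * 4 ^ (n + 2).choose 2 := by
      intro k
      have h1 := stageC n d k
      have h2 : (4 : ℝ) ^ (n + 2).choose 2 = 4 ^ n.choose 2 * (16 ^ n * 4) := by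
        rw [ch1 (n + 1), ch1 n, pow_add, pow_add, pow_succ, mul_assoc, ← mul_assoc (4 ^ n), ← mul_pow]
        norm_num
      have h3 : (15 / 16 : ℝ) ^ n * 16 ^ n = 15 ^ n := by rw [← mul_pow]; norm_num
      refine h1.trans ?_
      rw [haA, h2, ← h3]
      have h4 : (0 : ℝ) ≤ (n + 2) ^ 2 * (a n * 4 ^ n.choose 2) * 20 ^ (4 * d) * ((15 / 16) ^ n * 16 ^ n) := by
        have := ha0 n
        positivity
      nlinarith [h4]
    have hS := CB_card (n + 2) d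
    have hsum : ∑ k : Fin 3, (((CB1 (n + 2) d k).card : ℝ) + (CC1 (n + 2) d k).card) ≤
        ∑ _k : Fin 3, ((20 * (n + 2) * 6 ^ (3 * d) * (7 / 8) ^ (n + 1) * a (n + 1) * 4 ^ (n + 2).choose 2) +
          ((n + 2) ^ 2 * 20 ^ (4 * d) * (15 / 16) ^ n * a n * 4 ^ (n + 2).choose 2) : ℝ) :=
      sum_le_sum fun k _ => add_le_add (hB k) (hCC k)
    rw [sum_const, card_univ, Fintype.card_fin, nsmul_eq_mul] at hsum
    have hfin : b (n + 2) * 4 ^ (n + 2).choose 2 ≤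
        ((1 / 2 : ℝ) ^ (n + 2) + 60 * (n + 2) * 6 ^ (3 * d) * (7 / 8) ^ (n + 1) * a (n + 1) +
          3 * (n + 2) ^ 2 * 20 ^ (4 * d) * (15 / 16) ^ n * a n) * 4 ^ (n + 2).choose 2 := by
      rw [← hbB]
      refine hS.trans ((add_le_add hCD hsum).trans (le_of_eq ?_))
      push_cast
      ring
    have hfin2 := le_of_mul_le_mul_right hfin (hpos (n + 2))
    refine hfin2.trans ?_
    obtain ⟨x, hx⟩ : ∃ x : ℝ, x = (1 / 2 : ℝ) ^ (n + 2) := ⟨_, rfl⟩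
    obtain ⟨y, hy⟩ : ∃ y : ℝ, y = 60 * (n + 2) * 6 ^ (3 * d) * (7 / 8) ^ (n + 1) := ⟨_, rfl⟩
    obtain ⟨z, hz⟩ : ∃ z : ℝ, z = 3 * (n + 2) ^ 2 * 20 ^ (4 * d) * (15 / 16) ^ n := ⟨_, rfl⟩
    have hx0 : 0 ≤ x := by rw [hx]; positivity
    have hy0 : 0 ≤ y := by rw [hy]; positivity
    have hz0 : 0 ≤ z := by rw [hz]; positivity
    rw [← hx, ← hy, ← hz]
    have e1 := ha0 n
    have e2 := ha0 (n + 1)
    nlinarith [mul_nonneg hx0 e1, mul_nonneg hx0 e2, mul_nonneg hy0 e1, mul_nonneg hz0 e2]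
  obtain ⟨n₁, h⟩ := recur a b _ hb0 (fun n => ⟨ha0 n, hab n⟩) n₀ hrec C hC
  refine ⟨n₁, fun n hn => ?_⟩
  have h1 : (4 : ℝ) ^ n.choose 2 ≤ (CR (Fin n)).card := by exact_mod_cast A_lower n
  rw [hbB]
  calc b n * 4 ^ n.choose 2 ≤ (99 / 100) ^ n * 4 ^ n.choose 2 := mul_le_mul_of_nonneg_right (h n hn) (hpos n).le
    _ ≤ _ := mul_le_mul_of_nonneg_left h1 (by positivity)

end Pool.Agent.Helper74.TS
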