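import Pool.Agent.Helper83.Cert.Check

set_option autoImplicit false
set_option maxRecDepth 100000
set_option linter.unusedSimpArgs false

namespace Pool.Agent.Helper74.TS.GL

open Pool.Agent.Helper83.Cert

theorem p1a {d t : ℝ} (hd : 0 ≤ d) (ht : 0 ≤ t) (htd : 0 ≤ d - t) (hd1 : 0 ≤ 11 / 50 - d) :
    0 ≤ 1 / 12 - 5 / 12 * d + 1 / 4 * t + 2 / 3 * d ^ 2 - 3 / 2 * d * t + 1 / 4 * t ^ 2 - 1 / 3 * d ^ 3 + d ^ 2 * t - 3 / 4 * d * t ^ 2 + 1 / 12 * t ^ 3 := by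
  have h := cert (y := yv d t 0 0 0 0 0 0 0)
    (gs := [(.v 2),
      (.v 3),
      (.add (.v 2) (.mul (.c (-1)) (.v 3))),
      (.add (.c (11)) (.mul (.c (-50)) (.v 2)))])
    (p := .mul (.c 625000000) (.add (.add (.add (.c (1)) (.mul (.c (-5)) (.v 2))) (.add (.mul (.c (3)) (.v 3)) (.add (.mul (.c (8)) (.mul (.v 2) (.v 2))) (.mul (.c (-18)) (.mul (.v 2) (.v 3)))))) (.add (.add (.mul (.c (-4)) (.mul (.mul (.v 2) (.v 2)) (.v 2))) (.mul (.c (3)) (.mul (.v 3) (.v 3)))) (.add (.mul (.c (12)) (.mul (.mul (.v 2) (.v 2)) (.v 3))) (.add (.mul (.c (-9)) (.mul (.mul (.v 2) (.v 3)) (.v 3))) (.mul (.mul (.v 3) (.v 3)) (.v 3)))))))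
    (e := (.add (.add (.mul (.g 3) (.add (.add (.pp [(1, 25546800)]) (.mul (.g 1) (.add (.pp [(1, 170447700)]) (.add (.mul (.g 1) (.add (.pp [(1, 46461900)]) (.mul (.g 1) (.pp [(1, 83961750)])))) (.mul (.g 2) (.mul (.g 2) (.pp [(1, 104946900)]))))))) (.add (.mul (.g 0) (.add (.mul (.g 3) (.add (.pp [(1, 744369)]) (.mul (.g 0) (.pp [(1, 419733)])))) (.mul (.g 2) (.mul (.g 2) (.pp [(1, 20988150)]))))) (.add (.mul (.g 2) (.mul (.g 2) (.pp [(1, 111664650)]))) (.mul (.g 3) (.pp [(1, 1761639)])))))) (.add (.mul (.g 2) (.mul (.g 2) (.add (.pp [(1, 135532500)]) (.mul (.g 2) (.add (.pp [(1, 1453072500)]) (.mul (.g 1) (.pp [(1, 3148455000)]))))))) (.mul (.g 1) (.mul (.g 1) (.mul (.g 1) (.mul (.g 1) (.pp [(1, 3148380000)]))))))) (.pp [(1, 130826881), (2, 74251), (3, 75300), (4, 77057), (6, 72300), (8, 74150), (9, 75450), (12, 75900), (16, 75000), (18, 72150), (24, 75000), (27, 77350), (36, 82500), (54, 67500),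 (81, 75000)])))
    (by decide +kernel) (yv_nonneg hd ht (le_refl 0) (le_refl 0) (le_refl 0) (le_refl 0) (le_refl 0) (le_refl 0) (le_refl 0))
    (by
      simp only [List.forall_mem_cons, exadd, exsub, exmul, exc, exv2, exv3]
      push_cast
      refine ⟨?_, ?_, ?_, ?_, fun _ hh => absurd hh List.not_mem_nil⟩
      · linarith [hd]
      · linarith [ht]
      · linarith [htd]
      · linarith [hd1]
    )
  simp only [exadd, exsub, exmul, exc, exv2, exv3] at h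
  push_cast at h
  linarith [h]

theorem p1b {d t : ℝ} (hd : 0 ≤ d) (ht : 0 ≤ t) (htd : 0 ≤ d - t) (hd1 : 0 ≤ -11 / 50 + d) (hd2 : 0 ≤ 3 / 5 - d) :
    0 ≤ -779 / 3000 + 5 / 4 * d + 1 / 4 * t - 3 / 2 * d * t + 1 / 4 * t ^ 2 - 1 / 3 * d ^ 3 + d ^ 2 * t - 3 / 4 * d * t ^ 2 + 1 / 12 * t ^ 3 := by
  have h := cert (y := yv d t 0 0 0 0 0 0 0)
    (gs := [(.v 2),
      (.v 3),
      (.add (.v 2) (.mul (.c (-1)) (.v 3))),
      (.add (.c (-11)) (.mul (.c (50)) (.v 2))),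
      (.add (.c (3)) (.mul (.c (-5)) (.v 2)))])
    (p := .mul (.c 6250000) (.add (.add (.add (.c (-779)) (.mul (.c (3750)) (.v 2))) (.add (.mul (.c (750)) (.v 3)) (.mul (.c (-4500)) (.mul (.v 2) (.v 3))))) (.add (.add (.mul (.c (-1000)) (.mul (.mul (.v 2) (.v 2)) (.v 2))) (.mul (.c (750)) (.mul (.v 3) (.v 3)))) (.add (.mul (.c (3000)) (.mul (.mul (.v 2) (.v 2)) (.v 3))) (.add (.mul (.c (-2250)) (.mul (.mul (.v 2) (.v 3)) (.v 3))) (.mul (.c (250)) (.mul (.mul (.v 3) (.v 3)) (.v 3))))))))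
    (e := (.add (.add (.mul (.g 3) (.add (.mul (.g 4) (.add (.add (.pp [(1, 173567400)]) (.mul (.g 2) (.add (.pp [(1, 16052100)]) (.mul (.g 2) (.pp [(1, 109726725)]))))) (.add (.mul (.g 1) (.mul (.g 1) (.pp [(1, 62971350)]))) (.mul (.g 3) (.pp [(1, 1909524)]))))) (.add (.mul (.g 0) (.add (.mul (.g 0) (.mul (.g 0) (.pp [(1, 157419000)]))) (.mul (.g 1) (.pp [(1, 253815750)])))) (.mul (.g 2) (.add (.pp [(1, 377963250)]) (.mul (.g 1) (.pp [(1, 944213625)]))))))) (.add (.mul (.g 2) (.mul (.g 2) (.add (.mul (.g 2) (.add (.pp [(1, 869512500)]) (.add (.mul (.g 0) (.pp [(1, 19560543750)])) (.mul (.g 1) (.pp [(1, 7871137500)]))))) (.mul (.g 1) (.mul (.g 4) (.pp [(1, 810607500)])))))) (.mul (.g 1) (.mul (.g 1) (.mul (.g 1) (.mul (.g 1) (.pp [(1, 7870950000)]))))))) (.pp [(1, 165816988), (2, 189270), (3, 184950), (4, 176925), (6, 202275), (8, 192875), (9, 186600), (12, 178500), (16, 187500), (18, 183375), (24,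 168750), (27, 190000), (36, 225000), (54, 168750), (81, 187500)])))
    (by decide +kernel) (yv_nonneg hd ht (le_refl 0) (le_refl 0) (le_refl 0) (le_refl 0) (le_refl 0) (le_refl 0) (le_refl 0))
    (by
      simp only [List.forall_mem_cons, exadd, exsub, exmul, exc, exv2, exv3]
      push_cast
      refine ⟨?_, ?_, ?_, ?_, ?_, fun _ hh => absurd hh List.not_mem_nil⟩
      · linarith [hd]
      · linarith [ht]
      · linarith [htd]
      · linarith [hd1]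
      · linarith [hd2]
    )
  simp only [exadd, exsub, exmul, exc, exv2, exv3] at h
  push_cast at h
  linarith [h]

theorem p3a {d t : ℝ} (hd : 0 ≤ d) (ht : 0 ≤ t) (htd : 0 ≤ d - t) (hd1 : 0 ≤ 11 / 50 - d) :
    0 ≤ 1 / 3 - 5 / 3 * d + 3 / 4 * t + 8 / 3 * d ^ 2 - 3 * d * t + 1 / 4 * t ^ 2 - 4 / 3 * d ^ 3 + 2 * d ^ 2 * t - 3 / 4 * d * t ^ 2 + 1 / 12 * t ^ 3 := by
  have h := cert (y := yv d t 0 0 0 0 0 0 0)
    (gs := [(.v 2),
      (.v 3),
      (.add (.v 2) (.mul (.c (-1)) (.v 3))),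
      (.add (.c (11)) (.mul (.c (-50)) (.v 2)))])
    (p := .mul (.c 15625000000) (.add (.add (.add (.c (4)) (.mul (.c (-20)) (.v 2))) (.add (.mul (.c (9)) (.v 3)) (.add (.mul (.c (32)) (.mul (.v 2) (.v 2))) (.mul (.c (-36)) (.mul (.v 2) (.v 3)))))) (.add (.add (.mul (.c (-16)) (.mul (.mul (.v 2) (.v 2)) (.v 2))) (.mul (.c (3)) (.mul (.v 3) (.v 3)))) (.add (.mul (.c (24)) (.mul (.mul (.v 2) (.v 2)) (.v 3))) (.add (.mul (.c (-9)) (.mul (.mul (.v 2) (.v 3)) (.v 3))) (.mul (.mul (.v 3) (.v 3)) (.v 3)))))))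
    (e := (.add (.add (.mul (.g 1) (.add (.add (.pp [(1, 35022562500)]) (.mul (.g 1) (.add (.pp [(1, 5623312500)]) (.add (.mul (.g 1) (.add (.pp [(1, 15621750000)]) (.add (.mul (.g 2) (.pp [(1, 750000)])) (.mul (.g 3) (.pp [(1, 120000)]))))) (.mul (.g 0) (.pp [(1, 46872187500)])))))) (.add (.mul (.g 2) (.mul (.g 2) (.mul (.g 2) (.pp [(1, 1125000)])))) (.mul (.g 3) (.pp [(1, 9600048750)]))))) (.mul (.g 3) (.add (.pp [(1, 2394562500)]) (.add (.mul (.g 3) (.add (.pp [(1, 166998225)]) (.add (.mul (.g 3) (.add (.pp [(1, 500040)]) (.mul (.g 0) (.pp [(1, 27)])))) (.mul (.g 2) (.mul (.g 2) (.pp [(1, 600)])))))) (.mul (.g 2) (.mul (.g 2) (.pp [(1, 3749966250)]))))))) (.pp [(1, 15287474035), (2, 1862563), (3, 1901250), (4, 1926200), (6, 1840200), (8, 1745000), (9, 1986150), (12, 2055000), (16, 1875000), (18, 1785000), (24, 1875000), (27, 1930000), (36, 1875000), (54, 1875000), (81, 1875000)])))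
    (by decide +kernel) (yv_nonneg hd ht (le_refl 0) (le_refl 0) (le_refl 0) (le_refl 0) (le_refl 0) (le_refl 0) (le_refl 0))
    (by
      simp only [List.forall_mem_cons, exadd, exsub, exmul, exc, exv2, exv3]
      push_cast
      refine ⟨?_, ?_, ?_, ?_, fun _ hh => absurd hh List.not_mem_nil⟩
      · linarith [hd]
      · linarith [ht]
      · linarith [htd]
      · linarith [hd1]
    )
  simp only [exadd, exsub, exmul, exc, exv2, exv3] at h
  push_cast at h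
  linarith [h]

theorem p3b {d t : ℝ} (hd : 0 ≤ d) (ht : 0 ≤ t) (htd : 0 ≤ d - t) (hd1 : 0 ≤ -11 / 50 + d) (hd2 : 0 ≤ 3 / 5 - d) :
    0 ≤ -29 / 3000 + 3 / 4 * t + 2 * d ^ 2 - 3 * d * t + 1 / 4 * t ^ 2 - 4 / 3 * d ^ 3 + 2 * d ^ 2 * t - 3 / 4 * d * t ^ 2 + 1 / 12 * t ^ 3 := by
  have h := cert (y := yv d t 0 0 0 0 0 0 0)
    (gs := [(.v 2),
      (.v 3),
      (.add (.v 2) (.mul (.c (-1)) (.v 3))),
      (.add (.c (-11)) (.mul (.c (50)) (.v 2))),
      (.add (.c (3)) (.mul (.c (-5)) (.v 2)))])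
    (p := .mul (.c 6250000) (.add (.add (.add (.c (-29)) (.mul (.c (2250)) (.v 3))) (.add (.mul (.c (6000)) (.mul (.v 2) (.v 2))) (.mul (.c (-9000)) (.mul (.v 2) (.v 3))))) (.add (.add (.mul (.c (-4000)) (.mul (.mul (.v 2) (.v 2)) (.v 2))) (.mul (.c (750)) (.mul (.v 3) (.v 3)))) (.add (.mul (.c (6000)) (.mul (.mul (.v 2) (.v 2)) (.v 3))) (.add (.mul (.c (-2250)) (.mul (.mul (.v 2) (.v 3)) (.v 3))) (.mul (.c (250)) (.mul (.mul (.v 3) (.v 3)) (.v 3))))))))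
    (e := (.add (.add (.mul (.g 1) (.add (.mul (.g 2) (.add (.pp [(1, 1875881250)]) (.add (.mul (.g 2) (.add (.pp [(1, 1562006250)]) (.mul (.g 2) (.pp [(1, 56250)])))) (.mul (.g 1) (.mul (.g 1) (.pp [(1, 131250)])))))) (.add (.mul (.g 4) (.add (.pp [(1, 1555953750)]) (.mul (.g 1) (.add (.pp [(1, 2187731250)]) (.mul (.g 1) (.pp [(1, 101250)])))))) (.mul (.g 0) (.mul (.g 0) (.mul (.g 0) (.pp [(1, 5414231250)]))))))) (.mul (.g 3) (.add (.pp [(1, 59150625)]) (.add (.mul (.g 4) (.add (.pp [(1, 19417800)]) (.add (.mul (.g 2) (.add (.pp [(1, 112997025)]) (.mul (.g 4) (.pp [(1, 4331580)])))) (.mul (.g 4) (.mul (.g 4) (.pp [(1, 866346)])))))) (.mul (.g 2) (.pp [(1, 476065875)])))))) (.pp [(1, 1367499037), (2, 181710), (3, 185880), (4, 175575), (6, 203775), (8, 192500), (9, 187500), (12, 183000), (16, 187500), (18, 168750), (24, 187500), (27, 190000), (36, 168750), (54, 206250), (81, 187500)])))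
    (by decide +kernel) (yv_nonneg hd ht (le_refl 0) (le_refl 0) (le_refl 0) (le_refl 0) (le_refl 0) (le_refl 0) (le_refl 0))
    (by
      simp only [List.forall_mem_cons, exadd, exsub, exmul, exc, exv2, exv3]
      push_cast
      refine ⟨?_, ?_, ?_, ?_, ?_, fun _ hh => absurd hh List.not_mem_nil⟩
      · linarith [hd]
      · linarith [ht]
      · linarith [htd]
      · linarith [hd1]
      · linarith [hd2]
    )
  simp only [exadd, exsub, exmul, exc, exv2, exv3] at h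
  push_cast at h
  linarith [h]

theorem p2a {d w : ℝ} (hd : 0 ≤ d) (hw : 0 ≤ w) (hwd : 0 ≤ -d + w) (hw1 : 0 ≤ 13 / 20 - w) (hd1 : 0 ≤ 11 / 50 - d) :
    0 ≤ 1 / 12 - 5 / 12 * d + 1 / 4 * w + 2 / 3 * d ^ 2 - 3 / 2 * d * w + 1 / 4 * w ^ 2 + 1 / 4 * d * w ^ 2 - 1 / 4 * w ^ 3 := by
  have h := cert (y := yv d w 0 0 0 0 0 0 0)
    (gs := [(.v 2),
      (.v 3),
      (.add (.mul (.c (-1)) (.v 2)) (.v 3)),
      (.add (.c (13)) (.mul (.c (-20)) (.v 3))),
      (.add (.c (11)) (.mul (.c (-50)) (.v 2)))])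
    (p := .mul (.c 250000000000) (.add (.add (.add (.c (1)) (.mul (.c (-5)) (.v 2))) (.add (.mul (.c (3)) (.v 3)) (.mul (.c (8)) (.mul (.v 2) (.v 2))))) (.add (.add (.mul (.c (-18)) (.mul (.v 2) (.v 3))) (.mul (.c (3)) (.mul (.v 3) (.v 3)))) (.add (.mul (.c (3)) (.mul (.mul (.v 2) (.v 3)) (.v 3))) (.mul (.c (-3)) (.mul (.mul (.v 3) (.v 3)) (.v 3)))))))
    (e := (.add (.add (.mul (.g 2) (.add (.add (.pp [(1, 26181000000)]) (.mul (.g 2) (.add (.mul (.g 2) (.add (.pp [(1, 375000000000)]) (.mul (.g 2) (.pp [(1, 9000000)])))) (.mul (.g 3) (.add (.pp [(1, 56256450000)]) (.mul (.g 3) (.pp [(1, 97500)]))))))) (.add (.mul (.g 3) (.add (.pp [(1, 3192000000)]) (.mul (.g 3) (.mul (.g 3) (.pp [(1, 9375)]))))) (.mul (.g 4) (.pp [(1, 28672980000)]))))) (.mul (.g 4) (.add (.pp [(1, 17701740000)]) (.add (.mul (.g 0) (.add (.mul (.g 4) (.add (.pp [(1, 149978400)]) (.mul (.g 4) (.pp [(1, 288)])))) (.mul (.g 3) (.mul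 (.g 3) (.pp [(1, 5700)]))))) (.mul (.g 1) (.add (.pp [(1, 33351720000)]) (.mul (.g 1) (.pp [(1, 7505220000)])))))))) (.pp [(1, 55280860000), (2, 29010847), (3, 30703125), (4, 30304700), (6, 33196500), (8, 30240000), (9, 27315000), (12, 31500000), (16, 27000000), (18, 22770000), (24, 36000000), (27, 33450000), (36, 21000000), (54, 39000000), (81, 27000000)])))
    (by decide +kernel) (yv_nonneg hd hw (le_refl 0) (le_refl 0) (le_refl 0) (le_refl 0) (le_refl 0) (le_refl 0) (le_refl 0))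
    (by
      simp only [List.forall_mem_cons, exadd, exsub, exmul, exc, exv2, exv3]
      push_cast
      refine ⟨?_, ?_, ?_, ?_, ?_, fun _ hh => absurd hh List.not_mem_nil⟩
      · linarith [hd]
      · linarith [hw]
      · linarith [hwd]
      · linarith [hw1]
      · linarith [hd1]
    )
  simp only [exadd, exsub, exmul, exc, exv2, exv3] at h
  push_cast at h
  linarith [h]

theorem p2b {d w : ℝ} (hd : 0 ≤ d) (hw : 0 ≤ w) (hwd : 0 ≤ -d + w) (hw1 : 0 ≤ 13 / 20 - w) (hd1 : 0 ≤ -11 / 50 + d) (hd2 : 0 ≤ 3 / 5 - d) :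
    0 ≤ -779 / 3000 + 5 / 4 * d + 1 / 4 * w - 3 / 2 * d * w + 1 / 4 * w ^ 2 + 1 / 4 * d * w ^ 2 - 1 / 4 * w ^ 3 := by
  have h := cert (y := yv d w 0 0 0 0 0 0 0)
    (gs := [(.v 2),
      (.v 3),
      (.add (.mul (.c (-1)) (.v 2)) (.v 3)),
      (.add (.c (13)) (.mul (.c (-20)) (.v 3))),
      (.add (.c (-11)) (.mul (.c (50)) (.v 2))),
      (.add (.c (3)) (.mul (.c (-5)) (.v 2)))])
    (p := .mul (.c 25000000) (.add (.add (.c (-779)) (.add (.mul (.c (3750)) (.v 2)) (.mul (.c (750)) (.v 3)))) (.add (.add (.mul (.c (-4500)) (.mul (.v 2) (.v 3))) (.mul (.c (750)) (.mul (.v 3) (.v 3)))) (.add (.mul (.c (750)) (.mul (.mul (.v 2) (.v 3)) (.v 3))) (.mul (.c (-750)) (.mul (.mul (.v 3) (.v 3)) (.v 3)))))))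
    (e := (.add (.add (.mul (.g 2) (.add (.add (.mul (.g 2) (.add (.mul (.g 2) (.add (.mul (.g 0) (.pp [(1, 7008450000)])) (.mul (.g 3) (.pp [(1, 37500)])))) (.add (.mul (.g 3) (.pp [(1, 1147905000)])) (.mul (.g 5) (.mul (.g 5) (.pp [(1, 420537000)])))))) (.mul (.g 0) (.pp [(1, 1474500000)]))) (.add (.mul (.g 1) (.mul (.g 1) (.mul (.g 5) (.pp [(1, 1402290000)])))) (.add (.mul (.g 3) (.pp [(1, 103211250)])) (.mul (.g 4) (.pp [(1, 150426000)])))))) (.mul (.g 4) (.add (.add (.pp [(1, 601743000)]) (.mul (.g 3) (.add (.pp [(1, 92868225)]) (.mul (.g 1) (.add (.pp [(1, 7470900)]) (.mul (.g 5) (.pp [(1, 700395)]))))))) (.add (.mul (.g 0) (.mul (.g 0) (.mul (.g 0) (.pp [(1, 61492500)])))) (.mul (.g 5) (.mul (.g 5) (.mul (.g 5) (.pp [(1, 1052844)])))))))) (.pp [(1, 737023843), (2, 751260), (3, 738405), (4, 687900), (6, 758325), (8, 859500), (9, 768300), (12, 701250), (16, 675000), (18, 762000), (24, 750000),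 (27, 742500), (36, 750000), (54, 750000), (81, 750000)])))
    (by decide +kernel) (yv_nonneg hd hw (le_refl 0) (le_refl 0) (le_refl 0) (le_refl 0) (le_refl 0) (le_refl 0) (le_refl 0))
    (by
      simp only [List.forall_mem_cons, exadd, exsub, exmul, exc, exv2, exv3]
      push_cast
      refine ⟨?_, ?_, ?_, ?_, ?_, ?_, fun _ hh => absurd hh List.not_mem_nil⟩
      · linarith [hd]
      · linarith [hw]
      · linarith [hwd]
      · linarith [hw1]
      · linarith [hd1]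
      · linarith [hd2]
    )
  simp only [exadd, exsub, exmul, exc, exv2, exv3] at h
  push_cast at h
  linarith [h]


end Pool.Agent.Helper74.TS.GL
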