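import Pool.Agent.Helper90.TS.FarLike
import Pool.Agent.Helper5.TS.Gain

/-!
# Violated caps, for any two classes with main cells

The statements of `KindB.lean` for an arbitrary family: `C = (a; z)` a far cell, `x`, `y` the rows of
the column `z`, with main cells `Px`, `Py`.
-/

set_option autoImplicit false

namespace Pool.Agent.Helper74.TS

open Pool.Agent.Helper84.TS Pool.Agent.Helper23.TS Pool.Agent.Helper36.TS Pool.Agent.Helper44.TS
open Pool.Agent.Helper90.TS

section

variable {A : Fin 4 → Fin 4 → Option (Fin 4 → ℝ)} {a z x y : Fin 4} {C D Px Py : Fin 4 → ℝ}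

/-- the consequences of a violated cap -/
theorem viol_out (h : OF A) (hn : [a, z, x, y].Nodup) (hC : A a z = some C)
    (hx : A x x = some Px) (hv : (C y + (C a - 1)) + (Px x - 1) < -Px z) :
    -Px z + -Px y ≤ (C a - 1) + (Px x - 1) ∧ 1 - (C a - 1) ≤ -Px a ∧ 0 ≤ C a - 1 := by
  have hza : z ≠ a := (nodup_ne hn).1
  have hxa : x ≠ a := (nodup_ne hn).2.1
  have hzx : z ≠ x := by
    clear * - hn; revert hn; revert a z x y; decide
  have hs : Sep C Px := h.sep a z x x C Px hC hx
    (fun e => hxa (by rw [Prod.mk.injEq] at e; exact e.1.symm))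
  have hcC := h.cell a z C hC
  have hcx := h.cell x x _ hx
  have h1 := h.main x _ hx z hzx
  have h2 := h.far a z C hza hC
  have h0 := (cell_lin hcC hn).2.1
  rcases wk_cap_le hcC hcx hn hs (by linarith) with h3 | h3
  · exact absurd h3 (not_le.2 hv)
  · exact ⟨h3.1, h3.2, by linarith⟩

private theorem aux2 (h : OF A) (hn : [a, z, x, y].Nodup) (hC : A a z = some C)
    (hx : A x x = some Px) (hy : A y y = some Py)
    (kx : (C y + (C a - 1)) + (Px x - 1) < -Px z) (ky : (C x + (C a - 1)) + (Py y - 1) < -Py z)
    (ho : -Py z ≤ -Px z) : False := by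
  have n := nodup_ne hn
  have n1 : [a, z, y, x].Nodup := by
    clear * - hn; revert hn; revert a z x y; decide
  have n2 : [x, y, a, z].Nodup := by
    clear * - hn; revert hn; revert a z x y; decide
  have hzx : z ≠ x := by
    clear * - hn; revert hn; revert a z x y; decide
  have hxy : x ≠ y := by
    clear * - hn; revert hn; revert a z x y; decide
  have o1 := viol_out h hn hC hx kx
  have o2 := viol_out h n1 hC hy ky
  have hs : Sep Px Py := h.sep x x y y Px Py hx hy
    (fun e => hxy (by rw [Prod.mk.injEq] at e; exact e.1))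
  have hp := (sep_min (h.cell x x _ hx) (h.cell y y _ hy) n2).1 hs
  have hm : 1 - (C a - 1) ≤ min (-Px a) (-Py a) := le_min o1.2.1 o2.2.1
  rw [min_eq_right ho] at hp
  have c := cell_lin (h.cell a z C hC) hn
  have hf := h.far a z C n.1 hC
  have he := h.main x _ hx z hzx
  linarith

/-- **a far cell violates at most one cap** -/
theorem viol_one_row (h : OF A) (hn : [a, z, x, y].Nodup) (hC : A a z = some C)
    (hx : A x x = some Px) (hy : A y y = some Py)
    (kx : (C y + (C a - 1)) + (Px x - 1) < -Px z) :
    -Py z ≤ (C x + (C a - 1)) + (Py y - 1) := by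
  by_contra hc
  have ky := not_le.1 hc
  have n1 : [a, z, y, x].Nodup := by
    clear * - hn; revert hn; revert a z x y; decide
  rcases le_total (-Py z) (-Px z) with ho | ho
  · exact aux2 h hn hC hx hy kx ky ho
  · exact aux2 h n1 hC hy hx ky kx ho

/-- **a main cell violates at most one cap** of the far cells `C = (a; z)`, `D = (a; y)` -/
theorem viol_one_cell (h : OF A) (hn : [a, z, x, y].Nodup) (hC : A a z = some C)
    (hD : A a y = some D) (hx : A x x = some Px)
    (kx : (C y + (C a - 1)) + (Px x - 1) < -Px z) :
    -Px y ≤ (D z + (D a - 1)) + (Px x - 1) := by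
  by_contra hc
  have ky := not_le.1 hc
  have n := nodup_ne hn
  have n1 : [a, y, x, z].Nodup := by
    clear * - hn; revert hn; revert a z x y; decide
  have hzy : z ≠ y := by
    clear * - hn; revert hn; revert a z x y; decide
  have o1 := viol_out h hn hC hx kx
  have o2 := viol_out h n1 hD hx ky
  have c1 := cell_lin (h.cell a z C hC) hn
  have c2 := cell_lin (h.cell a y D hD) n1
  have d0 := (h.cell x x _ hx).one
  rcases Pool.Agent.Helper5.TS.support h hC hD n.1 n.2.2 hzy with hs | hs
  · linarith
  · linarith

end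

end Pool.Agent.Helper74.TS
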