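import Pool.Agent.Helper83.Cert.Check

set_option autoImplicit false
set_option maxRecDepth 100000

namespace Pool.Agent.Helper74.TS.RL

open Pool.Agent.Helper83.Cert

theorem r1n {d q : ℝ} (hd : 0 ≤ d) (hq : 0 ≤ q) (hd1 : 0 ≤ 3 / 5 - d) (hdq : 0 ≤ -d + q) (hq1 : 0 ≤ 1 - q) :
    0 ≤ 43 / 3000 + 111 / 100 * d - 9 / 50 * q - 3 / 4 * d ^ 2 + 3 / 4 * q ^ 2 - 1 / 12 * d ^ 3 + 1 / 2 * d ^ 2 * q - 3 / 4 * d * q ^ 2 := by
  have h := cert (y := yv d q 0 0 0 0 0 0 0)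
    (gs := [(.v 2),
      (.v 3),
      (.add (.c (3)) (.mul (.c (-5)) (.v 2))),
      (.add (.mul (.c (-1)) (.v 2)) (.v 3)),
      (.add (.c (1)) (.mul (.c (-1)) (.v 3)))])
    (p := .mul (.c 2500000) (.add (.add (.add (.c (43)) (.mul (.c (3330)) (.v 2))) (.add (.mul (.c (-540)) (.v 3)) (.mul (.c (-2250)) (.mul (.v 2) (.v 2))))) (.add (.add (.mul (.c (-250)) (.mul (.mul (.v 2) (.v 2)) (.v 2))) (.mul (.c (2250)) (.mul (.v 3) (.v 3)))) (.add (.mul (.c (1500)) (.mul (.mul (.v 2) (.v 2)) (.v 3))) (.mul (.c (-2250)) (.mul (.mul (.v 2) (.v 3)) (.v 3)))))))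
    (e := (.add (.add (.add (.mul (.pp [(1, 648)]) (.sq [(1, -6), (3, 25)])) (.mul (.pp [(1, 8998932)]) (.sq [(1, -3), (3, 25)]))) (.add (.mul (.g 0) (.add (.mul (.g 4) (.add (.add (.pp [(1, 8324925000)]) (.mul (.g 0) (.add (.mul (.g 1) (.pp [(1, 3151657500)])) (.mul (.g 2) (.pp [(1, 449113500)]))))) (.add (.mul (.g 3) (.add (.pp [(1, 4272720000)]) (.mul (.g 3) (.pp [(1, 1352505000)])))) (.mul (.g 1) (.mul (.g 4) (.pp [(1, 1352430000)])))))) (.add (.mul (.g 0) (.add (.mul (.g 0) (.mul (.g 2) (.pp [(1, 89328000)]))) (.add (.mul (.g 1) (.pp [(1, 377910000)])) (.mul (.g 3) (.mul (.g 3) (.pp [(1, 446565000)])))))) (.mul (.g 3) (.pp [(1, 2699700000)]))))) (.mul (.g 4) (.add (.mul (.pp [(1, 15)]) (.sq [(1, -13), (3, 100)])) (.mul (.g 1) (.mul (.g 1) (.mul (.g 1) (.pp [(1, 75000)])))))))) (.pp [(1, 26483749), (2, 75000), (3, 75735), (4, 79500), (6, 75000), (8, 78500), (9, 73500), (12, 63000), (16, 75000),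 (18, 75000), (24, 67500), (27, 75000), (36, 82500), (54, 75000), (81, 75000)])))
    (by decide +kernel) (yv_nonneg hd hq (le_refl 0) (le_refl 0) (le_refl 0) (le_refl 0) (le_refl 0) (le_refl 0) (le_refl 0))
    (by
      simp only [List.forall_mem_cons, exadd, exsub, exmul, exc, exv2, exv3]
      push_cast
      refine ⟨?_, ?_, ?_, ?_, ?_, fun _ hh => absurd hh List.not_mem_nil⟩
      · linarith only [hd]
      · linarith only [hq]
      · linarith only [hd1]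
      · linarith only [hdq]
      · linarith only [hq1]
    )
  simp only [exadd, exsub, exmul, exc, exv2, exv3] at h
  push_cast at h
  linarith only [h]

theorem r1z1 {d q : ℝ} (hd : 0 ≤ d) (hq : 0 ≤ q) (hd1 : 0 ≤ 3 / 5 - d) (hdq : 0 ≤ d - q) :
    0 ≤ 43 / 3000 + 43 / 50 * d + 7 / 100 * q - 5 / 4 * d ^ 2 + d * q + 1 / 4 * q ^ 2 + 1 / 4 * d ^ 2 * q - 1 / 2 * d * q ^ 2 - 1 / 12 * q ^ 3 := by
  have h := cert (y := yv d q 0 0 0 0 0 0 0)
    (gs := [(.v 2),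
      (.v 3),
      (.add (.c (3)) (.mul (.c (-5)) (.v 2))),
      (.add (.v 2) (.mul (.c (-1)) (.v 3)))])
    (p := .mul (.c 125000) (.add (.add (.add (.c (43)) (.mul (.c (2580)) (.v 2))) (.add (.mul (.c (210)) (.v 3)) (.mul (.c (-3750)) (.mul (.v 2) (.v 2))))) (.add (.add (.mul (.c (3000)) (.mul (.v 2) (.v 3))) (.mul (.c (750)) (.mul (.v 3) (.v 3)))) (.add (.mul (.c (750)) (.mul (.mul (.v 2) (.v 2)) (.v 3))) (.add (.mul (.c (-1500)) (.mul (.mul (.v 2) (.v 3)) (.v 3))) (.mul (.c (-250)) (.mul (.mul (.v 3) (.v 3)) (.v 3))))))))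
    (e := (.add (.add (.add (.mul (.g 2) (.add (.mul (.g 3) (.add (.pp [(1, 82497375)]) (.mul (.g 3) (.add (.pp [(1, 18752175)]) (.mul (.g 2) (.pp [(1, 120)])))))) (.add (.mul (.g 0) (.add (.pp [(1, 15004950)]) (.mul (.g 2) (.mul (.g 2) (.pp [(1, 277776)]))))) (.mul (.g 1) (.mul (.g 1) (.add (.pp [(1, 37504425)]) (.mul (.g 1) (.pp [(1, 2400)])))))))) (.mul (.g 1) (.add (.pp [(1, 273738375)]) (.mul (.g 3) (.add (.pp [(1, 75024750)]) (.add (.mul (.g 1) (.mul (.g 1) (.pp [(1, 1500)]))) (.mul (.g 3) (.mul (.g 3) (.pp [(1, 2250)]))))))))) (.add (.mul (.g 0) (.add (.pp [(1, 22489500)]) (.mul (.g 0) (.mul (.g 0) (.mul (.g 0) (.pp [(1, 34715250)])))))) (.mul (.g 3) (.mul (.g 3) (.mul (.g 3) (.pp [(1, 31261125)])))))) (.pp [(1, 5375000), (2, 3573), (3, 3750), (4, 3780), (6, 3585), (8, 3750), (9, 3870), (12, 4425), (16, 3750), (18, 3225), (24, 3750), (27, 3925), (36, 3750), (54, 3750), (81, 3750)])))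
    (by decide +kernel) (yv_nonneg hd hq (le_refl 0) (le_refl 0) (le_refl 0) (le_refl 0) (le_refl 0) (le_refl 0) (le_refl 0))
    (by
      simp only [List.forall_mem_cons, exadd, exsub, exmul, exc, exv2, exv3]
      push_cast
      refine ⟨?_, ?_, ?_, ?_, fun _ hh => absurd hh List.not_mem_nil⟩
      · linarith only [hd]
      · linarith only [hq]
      · linarith only [hd1]
      · linarith only [hdq]
    )
  simp only [exadd, exsub, exmul, exc, exv2, exv3] at h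
  push_cast at h
  linarith only [h]

theorem r1z2 {d t w : ℝ} (hd : 0 ≤ d) (ht : 0 ≤ t) (hw : 0 ≤ w) (hd1 : 0 ≤ 3 / 5 - d) (ht1 : 0 ≤ 1 - d - t) (hwt : 0 ≤ d + t - w) (hw1 : 0 ≤ 13 / 20 - w) :
    0 ≤ 43 / 3000 + 111 / 100 * d + 9 / 50 * t - 1 / 4 * w - 3 / 4 * d ^ 2 + 3 / 4 * t ^ 2 - 1 / 2 * w ^ 2 - 1 / 12 * d ^ 3 - 1 / 2 * d ^ 2 * t - 3 / 4 * d * t ^ 2 - 1 / 3 * t ^ 3 + 1 / 12 * w ^ 3 := by
  have h := cert (y := yv d t w 0 0 0 0 0 0)
    (gs := [(.v 2),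
      (.v 3),
      (.v 5),
      (.add (.c (3)) (.mul (.c (-5)) (.v 2))),
      (.add (.c (1)) (.add (.mul (.c (-1)) (.v 2)) (.mul (.c (-1)) (.v 3)))),
      (.add (.v 2) (.add (.v 3) (.mul (.c (-1)) (.v 5)))),
      (.add (.c (13)) (.mul (.c (-20)) (.v 5)))])
    (p := .mul (.c 160000000) (.add (.add (.add (.c (43)) (.add (.mul (.c (3330)) (.v 2)) (.mul (.c (540)) (.v 3)))) (.add (.mul (.c (-2250)) (.mul (.v 2) (.v 2))) (.add (.mul (.c (-750)) (.v 5)) (.mul (.c (-250)) (.mul (.mul (.v 2) (.v 2)) (.v 2)))))) (.add (.add (.mul (.c (2250)) (.mul (.v 3) (.v 3))) (.add (.mul (.c (-1500)) (.mul (.mul (.v 2) (.v 2)) (.v 3))) (.mul (.c (-2250)) (.mul (.mul (.v 2) (.v 3)) (.v 3))))) (.add (.mul (.c (-1500)) (.mul (.v 5) (.v 5))) (.add (.mul (.c (-1000)) (.mul (.mul (.v 3) (.v 3)) (.v 3))) (.mul (.c (250)) (.mul (.mul (.v 5) (.v 5)) (.v 5))))))))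
    (e := (.add (.add (.add (.mul (.g 0) (.add (.add (.mul (.g 3) (.add (.add (.pp [(1, 2265792000)]) (.mul (.g 0) (.add (.pp [(1, 4245888000)]) (.mul (.g 3) (.pp [(1, 191097600)]))))) (.add (.mul (.g 5) (.add (.mul (.g 1) (.pp [(1, 24960384000)])) (.mul (.g 5) (.pp [(1, 24959424000)])))) (.mul (.g 6) (.pp [(1, 873441600)]))))) (.mul (.g 4) (.add (.mul (.g 4) (.add (.pp [(1, 189504480000)]) (.add (.mul (.g 0) (.pp [(1, 21964800000)])) (.mul (.g 1) (.pp [(1, 24231840000)]))))) (.mul (.g 0) (.mul (.g 0) (.pp [(1, 50408160000)])))))) (.add (.mul (.g 6) (.add (.pp [(1, 16617984000)]) (.add (.mul (.g 2) (.add (.pp [(1, 1993344000)]) (.mul (.g 2) (.pp [(1, 6859848000)])))) (.mul (.g 0) (.mul (.g 6) (.pp [(1, 311980800)])))))) (.add (.mul (.g 1) (.mul (.g 1) (.mul (.g 1) (.pp [(1, 4782240000)])))) (.mul (.g 5) (.mul (.g 5) (.mul (.g 5) (.pp [(1, 6506400000)])))))))) (.mul (.g 5) (.add (.add (.mul (.g 2)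 (.add (.add (.pp [(1, 28831680000)]) (.mul (.g 1) (.add (.mul (.g 2) (.pp [(1, 143703360000)])) (.mul (.g 4) (.pp [(1, 106499040000)]))))) (.add (.mul (.g 6) (.add (.pp [(1, 9750600000)]) (.mul (.g 2) (.pp [(1, 888624000)])))) (.add (.mul (.g 4) (.pp [(1, 343170240000)])) (.mul (.g 5) (.mul (.g 5) (.pp [(1, 53823840000)]))))))) (.mul (.g 1) (.add (.pp [(1, 84625440000)]) (.add (.mul (.g 4) (.add (.pp [(1, 130235040000)]) (.mul (.g 5) (.pp [(1, 230688480000)])))) (.mul (.g 1) (.mul (.g 1) (.pp [(1, 88731360000)]))))))) (.add (.mul (.g 3) (.pp [(1, 28798368000)])) (.mul (.g 4) (.mul (.g 4) (.mul (.g 5) (.pp [(1, 141951840000)])))))))) (.add (.mul (.g 6) (.add (.mul (.g 2) (.mul (.g 2) (.add (.pp [(1, 2841504000)]) (.mul (.g 6) (.pp [(1, 13627200)]))))) (.add (.mul (.g 1) (.mul (.g 1) (.mul (.g 1) (.pp [(1, 1803528000)])))) (.mul (.g 6) (.mul (.g 6) (.mul (.g 6) (.pp [(1, 191223)]))))))) (.mul (.g 1)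 (.mul (.g 1) (.pp [(1, 3182880000)]))))) (.pp [(1, 1418479897), (2, 5025600), (3, 4896000), (4, 4526400), (5, 4458480), (6, 4800000), (8, 4736000), (9, 4800000), (10, 4824000), (12, 4224000), (15, 4440000), (16, 4800000), (18, 3936000), (20, 5280000), (24, 4800000), (25, 5282400), (27, 4376000), (30, 6336000), (36, 5760000), (40, 4800000), (45, 5760000), (50, 3912000), (54, 6240000), (60, 3840000), (75, 3888000), (81, 5280000), (90, 2880000), (100, 5280000), (125, 5104000), (135, 3840000), (150, 6240000), (225, 5760000), (250, 4320000), (375, 4320000), (625, 4800000)])))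
    (by decide +kernel) (yv_nonneg hd ht hw (le_refl 0) (le_refl 0) (le_refl 0) (le_refl 0) (le_refl 0) (le_refl 0))
    (by
      simp only [List.forall_mem_cons, exadd, exsub, exmul, exc, exv2, exv3, exv5]
      push_cast
      refine ⟨?_, ?_, ?_, ?_, ?_, ?_, ?_, fun _ hh => absurd hh List.not_mem_nil⟩
      · linarith only [hd]
      · linarith only [ht]
      · linarith only [hw]
      · linarith only [hd1]
      · linarith only [ht1]
      · linarith only [hwt]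
      · linarith only [hw1]
    )
  simp only [exadd, exsub, exmul, exc, exv2, exv3, exv5] at h
  push_cast at h
  linarith only [h]

theorem r1m1 {d m q : ℝ} (hd : 0 ≤ d) (hm : 0 ≤ m) (hq : 0 ≤ q) (hd1 : 0 ≤ 3 / 5 - d) (hm1 : 0 ≤ d - m) (hq1 : 0 ≤ -d + m + q) (hq2 : 0 ≤ 1 - q) :
    0 ≤ 793 / 3000 + 111 / 100 * d - 3 / 4 * m - 17 / 25 * q - 3 / 2 * d ^ 2 + d * m + 1 / 2 * m ^ 2 + m * q + q ^ 2 - 1 / 4 * d ^ 3 + 3 / 4 * d ^ 2 * m + d ^ 2 * q - 3 / 4 * d * m ^ 2 - d * m * q - d * q ^ 2 - 1 / 12 * m ^ 3 := by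
  have h := cert (y := yv d m q 0 0 0 0 0 0)
    (gs := [(.v 2),
      (.v 3),
      (.v 5),
      (.add (.c (3)) (.mul (.c (-5)) (.v 2))),
      (.add (.v 2) (.mul (.c (-1)) (.v 3))),
      (.add (.mul (.c (-1)) (.v 2)) (.add (.v 3) (.v 5))),
      (.add (.c (1)) (.mul (.c (-1)) (.v 5)))])
    (p := .mul (.c 25000) (.add (.add (.add (.add (.c (793)) (.mul (.c (3330)) (.v 2))) (.add (.mul (.c (-2250)) (.v 3)) (.mul (.c (-4500)) (.mul (.v 2) (.v 2))))) (.add (.add (.mul (.c (-2040)) (.v 5)) (.mul (.c (3000)) (.mul (.v 2) (.v 3)))) (.add (.mul (.c (-750)) (.mul (.mul (.v 2) (.v 2)) (.v 2))) (.mul (.c (1500)) (.mul (.v 3) (.v 3)))))) (.add (.add (.add (.mul (.c (2250)) (.mul (.mul (.v 2) (.v 2)) (.v 3))) (.mul (.c (3000)) (.mul (.v 3) (.v 5)))) (.add (.mul (.c (-2250)) (.mul (.mul (.v 2) (.v 3)) (.v 3))) (.mul (.c (3000)) (.mul (.mul (.v 2) (.v 2)) (.v 5))))) (.add (.add (.mul (.c (3000)) (.mul (.v 5)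 (.v 5))) (.mul (.c (-250)) (.mul (.mul (.v 3) (.v 3)) (.v 3)))) (.add (.mul (.c (-3000)) (.mul (.mul (.v 2) (.v 3)) (.v 5))) (.mul (.c (-3000)) (.mul (.mul (.v 2) (.v 5)) (.v 5))))))))
    (e := (.add (.add (.add (.mul (.g 4) (.add (.add (.pp [(1, 14342925)]) (.add (.mul (.g 4) (.add (.mul (.g 6) (.add (.mul (.g 5) (.pp [(1, 1065075)])) (.mul (.g 6) (.pp [(1, 44426700)])))) (.add (.mul (.g 0) (.mul (.g 3) (.pp [(1, 345)]))) (.mul (.g 4) (.mul (.g 4) (.pp [(1, 1385100)])))))) (.mul (.g 1) (.add (.pp [(1, 24123975)]) (.mul (.g 1) (.add (.pp [(1, 3054450)]) (.mul (.g 6) (.pp [(1, 36577125)])))))))) (.add (.add (.mul (.g 2) (.mul (.g 2) (.mul (.g 2) (.pp [(1, 3802275)])))) (.mul (.g 3) (.pp [(1, 5636025)]))) (.add (.mul (.g 5) (.mul (.g 5) (.mul (.g 5) (.pp [(1, 16973775)])))) (.mul (.g 6) (.mul (.g 6) (.mul (.g 6) (.pp [(1, 24999750)])))))))) (.add (.mul (.g 0) (.add (.add (.mul (.g 3) (.add (.pp [(1,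 4938390)]) (.add (.mul (.g 0) (.add (.mul (.g 3) (.pp [(1, 121863)])) (.mul (.g 6) (.pp [(1, 495)])))) (.mul (.g 5) (.mul (.g 5) (.pp [(1, 3657060)])))))) (.mul (.g 6) (.mul (.g 6) (.add (.mul (.g 0) (.pp [(1, 6394875)])) (.add (.mul (.g 5) (.pp [(1, 61261350)])) (.mul (.g 6) (.pp [(1, 12183300)]))))))) (.add (.mul (.g 1) (.mul (.g 2) (.mul (.g 2) (.pp [(1, 11888175)])))) (.mul (.g 5) (.pp [(1, 50287125)]))))) (.mul (.g 2) (.add (.mul (.g 2) (.mul (.g 2) (.add (.mul (.g 3) (.pp [(1, 4939110)])) (.add (.mul (.g 5) (.pp [(1, 1105425)])) (.mul (.g 6) (.pp [(1, 9180675)])))))) (.add (.mul (.g 1) (.mul (.g 1) (.add (.pp [(1, 12785700)]) (.mul (.g 3) (.pp [(1, 1095)]))))) (.mul (.g 6) (.mul (.g 6) (.mul (.g 6) (.pp [(1, 1001250)]))))))))) (.add (.mul (.g 1) (.mul (.g 1) (.add (.mul (.g 1) (.add (.mul (.g 1) (.pp [(1, 9143475)])) (.mul (.g 3) (.pp [(1, 2438760)])))) (.mul (.g 3) (.pp [(1, 5732175)])))))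 (.add (.mul (.g 5) (.mul (.g 5) (.mul (.g 5) (.add (.mul (.g 3) (.pp [(1, 4876785)])) (.add (.mul (.g 5) (.pp [(1, 6444375)])) (.mul (.g 6) (.pp [(1, 10369125)]))))))) (.mul (.g 6) (.mul (.g 6) (.mul (.g 6) (.mul (.g 6) (.pp [(1, 13000500)])))))))) (.pp [(1, 6824500), (2, 780), (3, 750), (4, 723), (5, 750), (6, 825), (8, 705), (9, 750), (10, 675), (12, 765), (15, 750), (16, 825), (18, 750), (20, 780), (24, 525), (25, 750), (27, 740), (30, 570), (36, 1050), (40, 675), (45, 900), (50, 810), (54, 525), (60, 1125), (75, 810), (81, 825), (90, 300), (100, 825), (125, 765), (135, 900), (150, 600), (225, 825), (250, 675), (375, 750), (625, 750)])))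
    (by decide +kernel) (yv_nonneg hd hm hq (le_refl 0) (le_refl 0) (le_refl 0) (le_refl 0) (le_refl 0) (le_refl 0))
    (by
      simp only [List.forall_mem_cons, exadd, exsub, exmul, exc, exv2, exv3, exv5]
      push_cast
      refine ⟨?_, ?_, ?_, ?_, ?_, ?_, ?_, fun _ hh => absurd hh List.not_mem_nil⟩
      · linarith only [hd]
      · linarith only [hm]
      · linarith only [hq]
      · linarith only [hd1]
      · linarith only [hm1]
      · linarith only [hq1]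
      · linarith only [hq2]
    )
  simp only [exadd, exsub, exmul, exc, exv2, exv3, exv5] at h
  push_cast at h
  linarith only [h]

theorem r1m2 {d t q w : ℝ} (hd : 0 ≤ d) (ht : 0 ≤ t) (hq : 0 ≤ q) (hw : 0 ≤ w) (hd1 : 0 ≤ 3 / 5 - d) (ht1 : 0 ≤ 1 - d - t) (hq1 : 0 ≤ -d - t + q) (hq2 : 0 ≤ 1 - q) (hwt : 0 ≤ d + t - w) (hw1 : 0 ≤ 13 / 20 - w) :
    0 ≤ 793 / 3000 + 34 / 25 * d + t - 17 / 25 * q - 1 / 4 * w - d ^ 2 + t ^ 2 - t * q + q ^ 2 - 1 / 2 * w ^ 2 - 1 / 3 * d ^ 3 - d ^ 2 * t + d ^ 2 * q - d * t ^ 2 + d * t * q - d * q ^ 2 - 1 / 3 * t ^ 3 + 1 / 12 * w ^ 3 := by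
  have h := cert (y := yv d t q w 0 0 0 0 0)
    (gs := [(.v 2),
      (.v 3),
      (.v 5),
      (.v 7),
      (.add (.c (3)) (.mul (.c (-5)) (.v 2))),
      (.add (.c (1)) (.add (.mul (.c (-1)) (.v 2)) (.mul (.c (-1)) (.v 3)))),
      (.add (.mul (.c (-1)) (.v 2)) (.add (.mul (.c (-1)) (.v 3)) (.v 5))),
      (.add (.c (1)) (.mul (.c (-1)) (.v 5))),
      (.add (.v 2) (.add (.v 3) (.mul (.c (-1)) (.v 7)))),
      (.add (.c (13)) (.mul (.c (-20)) (.v 7)))])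
    (p := .mul (.c 200000000) (.add (.add (.add (.add (.c (793)) (.mul (.c (4080)) (.v 2))) (.add (.mul (.c (3000)) (.v 3)) (.mul (.c (-3000)) (.mul (.v 2) (.v 2))))) (.add (.add (.mul (.c (-2040)) (.v 5)) (.mul (.c (-750)) (.v 7))) (.add (.mul (.c (-1000)) (.mul (.mul (.v 2) (.v 2)) (.v 2))) (.add (.mul (.c (3000)) (.mul (.v 3) (.v 3))) (.mul (.c (-3000)) (.mul (.mul (.v 2) (.v 2)) (.v 3))))))) (.add (.add (.add (.mul (.c (-3000)) (.mul (.v 3) (.v 5))) (.mul (.c (-3000)) (.mul (.mul (.v 2) (.v 3)) (.v 3)))) (.add (.mul (.c (3000)) (.mul (.mul (.v 2) (.v 2)) (.v 5))) (.mul (.c (3000)) (.mul (.v 5) (.v 5))))) (.add (.add (.mul (.c (-1000)) (.mul (.mul (.v 3) (.v 3)) (.v 3))) (.mul (.c (3000)) (.mul (.mul (.v 2) (.v 3)) (.v 5)))) (.add (.mul (.c (-1500)) (.mul (.v 7) (.v 7))) (.add (.mul (.c (-3000)) (.mul (.mul (.v 2) (.v 5)) (.v 5))) (.mul (.c (250)) (.mul (.mul (.v 7) (.v 7)) (.v 7)))))))))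
    (e := (.add (.add (.add (.add (.mul (.g 8) (.add (.add (.add (.mul (.g 1) (.add (.add (.mul (.g 3) (.add (.mul (.g 1) (.pp [(1, 264908400000)])) (.add (.mul (.g 3) (.pp [(1, 37084200000)])) (.mul (.g 6) (.pp [(1, 104247600000)]))))) (.mul (.g 8) (.add (.mul (.g 6) (.pp [(1, 131347800000)])) (.add (.mul (.g 8) (.pp [(1, 92235600000)])) (.mul (.g 9) (.pp [(1, 2390970000)])))))) (.add (.mul (.g 0) (.add (.mul (.g 0) (.pp [(1, 822748800000)])) (.mul (.g 4) (.pp [(1, 168606960000)])))) (.add (.mul (.g 1) (.mul (.g 5) (.pp [(1, 336998400000)]))) (.mul (.g 7) (.mul (.g 9) (.pp [(1, 17541330000)]))))))) (.mul (.g 7) (.add (.add (.pp [(1, 214450200000)]) (.mul (.pp [(1, 10273260)]) (.sq [(1, -52), (2, 6), (3, -100), (5, 49), (7, 95)]))) (.add (.mul (.pp [(1, 8780400)]) (.sq [(1, -23), (2, -60), (3, 81), (5, 32), (7, 100)])) (.add (.mul (.g 2) (.add (.mul (.g 0) (.pp [(1, 168463200000)])) (.mul (.g 2) (.pp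 [(1, 54780600000)])))) (.mul (.g 7) (.add (.mul (.g 4) (.pp [(1, 51832200000)])) (.mul (.g 5) (.pp [(1, 210799200000)]))))))))) (.add (.mul (.g 0) (.add (.mul (.g 4) (.add (.mul (.g 2) (.pp [(1, 30674880000)])) (.mul (.g 9) (.pp [(1, 2006082000)])))) (.add (.mul (.g 0) (.mul (.g 8) (.pp [(1, 6870000000)]))) (.mul (.g 6) (.pp [(1, 380434200000)]))))) (.mul (.g 8) (.add (.mul (.pp [(1, 7572900)]) (.sq [(1, 100), (2, -28), (3, -28), (5, 89), (7, 11)])) (.add (.mul (.pp [(1, 6359340)]) (.sq [(1, 17), (2, 5), (3, 100), (5, -34), (7, -45)])) (.mul (.g 6) (.mul (.g 9) (.pp [(1, 7290930000)])))))))) (.add (.add (.mul (.g 3) (.add (.pp [(1, 493059000000)]) (.mul (.g 9) (.pp [(1, 7191720000)])))) (.mul (.g 5) (.add (.mul (.pp [(1, 623700)]) (.sq [(1, 100), (2, 19), (3, 42), (5, -46), (7, 44)])) (.mul (.pp [(1, 4175400)]) (.sq [(1, -7), (2, 86), (3, 60), (5, 100), (7, 27)]))))) (.add (.mul (.g 2) (.mul (.g 4)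 (.mul (.g 4) (.pp [(1, 19491600000)])))) (.add (.mul (.g 6) (.mul (.pp [(1, 3644640)]) (.sq [(1, 12), (2, 9), (3, 100), (5, 13), (7, -50)]))) (.mul (.g 9) (.mul (.pp [(1, 990825)]) (.sq [(1, 28), (2, 100), (3, -55), (5, -44), (7, -19)])))))))) (.mul (.g 0) (.add (.add (.mul (.g 1) (.add (.add (.mul (.pp [(1, 5429520)]) (.sq [(1, 1), (2, -34), (3, 100), (5, 13), (7, -84)])) (.mul (.g 3) (.add (.mul (.g 2) (.pp [(1, 937200000)])) (.add (.mul (.g 3) (.pp [(1, 208134000000)])) (.mul (.g 4) (.pp [(1, 122475240000)])))))) (.add (.mul (.g 1) (.mul (.g 5) (.pp [(1, 7428000000)]))) (.mul (.g 4) (.mul (.g 7) (.pp [(1, 6894240000)])))))) (.mul (.g 0) (.add (.mul (.pp [(1, 817500)]) (.sq [(1, 29), (2, 100), (3, -34), (5, 71), (7, 90)])) (.add (.mul (.g 2) (.add (.mul (.g 5) (.pp [(1, 269953200000)])) (.mul (.g 7) (.pp [(1, 94676400000)])))) (.mul (.g 9) (.mul (.g 9) (.pp [(1, 412447500)]))))))) (.add (.mul (.g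 7) (.add (.pp [(1, 92056200000)]) (.mul (.g 6) (.add (.mul (.g 6) (.pp [(1, 357924600000)])) (.mul (.g 7) (.pp [(1, 252168000000)])))))) (.add (.mul (.g 4) (.add (.pp [(1, 57120000000)]) (.mul (.g 2) (.mul (.g 5) (.pp [(1, 65514360000)]))))) (.mul (.g 9) (.pp [(1, 1484520000)]))))))) (.add (.mul (.g 3) (.add (.add (.mul (.g 1) (.add (.add (.mul (.g 1) (.add (.mul (.g 4) (.pp [(1, 4158000000)])) (.mul (.g 7) (.pp [(1, 319578000000)])))) (.mul (.g 4) (.mul (.g 4) (.pp [(1, 18751560000)])))) (.add (.mul (.g 5) (.mul (.g 5) (.pp [(1, 1776600000)]))) (.mul (.g 6) (.mul (.g 6) (.pp [(1, 117510600000)])))))) (.mul (.g 6) (.add (.mul (.pp [(1, 24938040)]) (.sq [(1, 13), (2, 2), (3, 100), (5, -28), (7, -6)])) (.add (.mul (.pp [(1, 6875940)]) (.sq [(1, 42), (2, 100), (3, -33), (5, -60), (7, -6)])) (.mul (.pp [(1, 4022100)]) (.sq [(1, 83), (2, 100), (3, 100), (5, 100), (7, 100)])))))) (.add (.mul (.g 4) (.add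 (.mul (.g 3) (.mul (.g 3) (.pp [(1, 22958400000)]))) (.mul (.g 7) (.mul (.g 7) (.pp [(1, 74436480000)]))))) (.add (.mul (.g 7) (.mul (.g 7) (.pp [(1, 254331600000)]))) (.mul (.g 9) (.mul (.g 9) (.mul (.g 9) (.pp [(1, 2619225)])))))))) (.mul (.g 1) (.mul (.g 1) (.add (.mul (.g 1) (.mul (.g 4) (.pp [(1, 16561560000)]))) (.add (.mul (.g 6) (.mul (.g 6) (.pp [(1, 62274000000)]))) (.mul (.g 7) (.mul (.g 9) (.pp [(1, 703830000)]))))))))) (.add (.add (.mul (.g 5) (.add (.mul (.g 5) (.add (.mul (.pp [(1, 29583240)]) (.sq [(1, -5), (2, 18), (3, 100), (5, 32), (7, -37)])) (.mul (.pp [(1, 21337260)]) (.sq [(1, -41), (2, -2), (3, -7), (5, 100), (7, -9)])))) (.mul (.g 4) (.mul (.pp [(1, 4676988)]) (.sq [(1, -41), (2, -5), (3, -4), (5, 100), (7, -9)]))))) (.mul (.g 6) (.add (.mul (.g 6) (.mul (.g 6) (.mul (.g 7) (.pp [(1, 95785800000)])))) (.mul (.g 9) (.mul (.pp [(1, 1136109)]) (.sq [(1, -15), (2, 9), (3, -2),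 (5, 100), (7, 71)])))))) (.add (.mul (.g 2) (.mul (.g 9) (.mul (.pp [(1, 214539)]) (.sq [(1, -21), (2, 1), (3, -5), (5, 100), (7, 68)])))) (.mul (.g 7) (.mul (.g 7) (.mul (.pp [(1, 10392780)]) (.sq [(1, 40), (2, 47), (3, 100), (5, -96), (7, -49)]))))))) (.pp [(1, 81777986456), (2, 5638449), (3, 5646357), (4, 6192150), (5, 6449088), (6, 5628162), (7, 6481803), (8, 5856517), (9, 5728368), (10, 6413964), (12, 5815725), (14, 6667182), (15, 6991950), (16, 5550540), (18, 6099795), (20, 5214576), (21, 6553494), (24, 6152580), (25, 5193360), (27, 5997007), (28, 5249946), (30, 4982202), (35, 5092302), (36, 6192300), (40, 5120400), (42, 5567016), (45, 5886477), (49, 5488356), (50, 6318180), (54, 6126600), (56, 5406960), (60, 5585760), (63, 5554215), (70, 6120162), (75, 5798220), (81, 6167460), (84, 5363280), (90, 5792880), (98, 6099336), (100, 6544260), (105, 5528748), (125, 6231360), (126, 5532240), (135,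 5965200), (140, 6179160), (147, 5582046), (150, 6791160), (175, 6813300), (189, 5521680), (196, 4810740), (210, 4605000), (225, 5899260), (245, 6596055), (250, 5529420), (294, 4233660), (315, 5099280), (343, 6119225), (350, 5846520), (375, 5858700), (441, 5510040), (490, 5658420), (525, 6888480), (625, 5939520), (686, 5278800), (735, 6100380), (875, 6635700), (1029, 5650800), (1225, 6916440), (1715, 6294720), (2401, 6059100)])))
    (by decide +kernel) (yv_nonneg hd ht hq hw (le_refl 0) (le_refl 0) (le_refl 0) (le_refl 0) (le_refl 0))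
    (by
      simp only [List.forall_mem_cons, exadd, exsub, exmul, exc, exv2, exv3, exv5, exv7]
      push_cast
      refine ⟨?_, ?_, ?_, ?_, ?_, ?_, ?_, ?_, ?_, ?_, fun _ hh => absurd hh List.not_mem_nil⟩
      · linarith only [hd]
      · linarith only [ht]
      · linarith only [hq]
      · linarith only [hw]
      · linarith only [hd1]
      · linarith only [ht1]
      · linarith only [hq1]
      · linarith only [hq2]
      · linarith only [hwt]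
      · linarith only [hw1]
    )
  simp only [exadd, exsub, exmul, exc, exv2, exv3, exv5, exv7] at h
  push_cast at h
  linarith only [h]

theorem r1zm {d a b : ℝ} (hd : 0 ≤ d) (ha : 0 ≤ a) (hb : 0 ≤ b) (hd1 : 0 ≤ 3 / 5 - d) (ha1 : 0 ≤ d - a) (hb1 : 0 ≤ d - b) (hab : 0 ≤ -d + a + b) :
    0 ≤ 793 / 3000 + 43 / 50 * d - 43 / 100 * a - 3 / 4 * b - 2 * d ^ 2 + d * a + d * b + 1 / 2 * a ^ 2 + a * b + 1 / 2 * b ^ 2 - 1 / 6 * d ^ 3 + 3 / 4 * d ^ 2 * a + 3 / 4 * d ^ 2 * b - 3 / 4 * d * a ^ 2 - d * a * b - 3 / 4 * d * b ^ 2 - 1 / 12 * a ^ 3 - 1 / 12 * b ^ 3 := by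
  have h := cert (y := yv d a b 0 0 0 0 0 0)
    (gs := [(.v 2),
      (.v 3),
      (.v 5),
      (.add (.c (3)) (.mul (.c (-5)) (.v 2))),
      (.add (.v 2) (.mul (.c (-1)) (.v 3))),
      (.add (.v 2) (.mul (.c (-1)) (.v 5))),
      (.add (.mul (.c (-1)) (.v 2)) (.add (.v 3) (.v 5)))])
    (p := .mul (.c 625000) (.add (.add (.add (.add (.c (793)) (.mul (.c (2580)) (.v 2))) (.add (.mul (.c (-1290)) (.v 3)) (.mul (.c (-6000)) (.mul (.v 2) (.v 2))))) (.add (.add (.mul (.c (-2250)) (.v 5)) (.mul (.c (3000)) (.mul (.v 2) (.v 3)))) (.add (.mul (.c (-500)) (.mul (.mul (.v 2) (.v 2)) (.v 2))) (.add (.mul (.c (1500)) (.mul (.v 3) (.v 3))) (.mul (.c (3000)) (.mul (.v 2) (.v 5))))))) (.add (.add (.add (.mul (.c (2250)) (.mul (.mul (.v 2) (.v 2)) (.v 3))) (.mul (.c (3000)) (.mul (.v 3) (.v 5)))) (.add (.mul (.c (-2250)) (.mul (.mul (.v 2) (.v 3)) (.v 3))) (.mul (.c (2250)) (.mul (.mul (.v 2) (.v 2)) (.v 5)))))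 (.add (.add (.mul (.c (1500)) (.mul (.v 5) (.v 5))) (.mul (.c (-250)) (.mul (.mul (.v 3) (.v 3)) (.v 3)))) (.add (.mul (.c (-3000)) (.mul (.mul (.v 2) (.v 3)) (.v 5))) (.add (.mul (.c (-2250)) (.mul (.mul (.v 2) (.v 5)) (.v 5))) (.mul (.c (-250)) (.mul (.mul (.v 5) (.v 5)) (.v 5)))))))))
    (e := (.add (.add (.add (.mul (.g 3) (.add (.add (.pp [(1, 59794500)]) (.add (.mul (.g 3) (.add (.add (.mul (.g 3) (.add (.mul (.g 3) (.pp [(1, 1675152)])) (.mul (.g 4) (.pp [(1, 10516020)])))) (.mul (.g 5) (.add (.pp [(1, 52875675)]) (.mul (.g 5) (.pp [(1, 9253725)]))))) (.add (.mul (.g 2) (.mul (.g 2) (.pp [(1, 10782450)]))) (.mul (.g 6) (.mul (.g 6) (.pp [(1, 52394925)])))))) (.mul (.g 1) (.add (.mul (.g 0) (.mul (.g 1) (.pp [(1, 332783250)]))) (.add (.mul (.g 2) (.mul (.g 2) (.pp [(1, 242682750)]))) (.mul (.g 4) (.mul (.g 4) (.pp [(1, 20232750)])))))))) (.add (.mul (.g 0) (.mul (.g 0) (.mul (.g 0) (.pp [(1,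 424875)])))) (.add (.mul (.g 4) (.pp [(1, 375278250)])) (.mul (.g 5) (.pp [(1, 429984750)])))))) (.mul (.g 6) (.add (.add (.pp [(1, 359566875)]) (.mul (.g 6) (.add (.pp [(1, 465935625)]) (.add (.mul (.g 6) (.add (.add (.pp [(1, 180191250)]) (.mul (.g 0) (.pp [(1, 202213125)]))) (.add (.mul (.g 4) (.pp [(1, 202231875)])) (.mul (.g 6) (.pp [(1, 50553750)]))))) (.mul (.g 5) (.pp [(1, 634320000)])))))) (.add (.mul (.g 0) (.mul (.g 0) (.mul (.g 5) (.pp [(1, 1406426250)])))) (.mul (.g 4) (.mul (.g 4) (.pp [(1, 93727500)]))))))) (.add (.mul (.g 1) (.add (.pp [(1, 243931875)]) (.add (.mul (.g 1) (.add (.pp [(1, 453898125)]) (.add (.mul (.g 4) (.add (.pp [(1, 490886250)]) (.mul (.g 4) (.pp [(1, 151661250)])))) (.mul (.g 5) (.mul (.g 5) (.pp [(1, 303358125)])))))) (.mul (.g 4) (.add (.pp [(1, 453907500)]) (.mul (.g 0) (.pp [(1, 1014823125)]))))))) (.mul (.g 5) (.add (.mul (.g 2) (.add (.pp [(1, 180335625)])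 (.add (.mul (.g 2) (.mul (.g 2) (.pp [(1, 134846250)]))) (.mul (.g 5) (.pp [(1, 297860625)]))))) (.add (.mul (.g 4) (.mul (.g 4) (.mul (.g 4) (.pp [(1, 404465625)])))) (.mul (.g 5) (.mul (.g 5) (.mul (.g 5) (.pp [(1, 84273750)]))))))))) (.pp [(1, 180554188), (2, 18840), (3, 18540), (4, 19275), (5, 18450), (6, 18450), (8, 15250), (9, 19425), (10, 17325), (12, 21375), (15, 20100), (16, 18750), (18, 17625), (20, 21000), (24, 26250), (25, 20100), (27, 19250), (30, 18000), (36, 7500), (40, 20625), (45, 18750), (50, 18000), (54, 26250), (60, 3750), (75, 18000), (81, 16875), (90, 31875), (100, 18750), (125, 18125), (135, 15000), (150, 28125), (225, 15000), (250, 18750), (375, 16875), (625, 18750)])))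
    (by decide +kernel) (yv_nonneg hd ha hb (le_refl 0) (le_refl 0) (le_refl 0) (le_refl 0) (le_refl 0) (le_refl 0))
    (by
      simp only [List.forall_mem_cons, exadd, exsub, exmul, exc, exv2, exv3, exv5]
      push_cast
      refine ⟨?_, ?_, ?_, ?_, ?_, ?_, ?_, fun _ hh => absurd hh List.not_mem_nil⟩
      · linarith only [hd]
      · linarith only [ha]
      · linarith only [hb]
      · linarith only [hd1]
      · linarith only [ha1]
      · linarith only [hb1]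
      · linarith only [hab]
    )
  simp only [exadd, exsub, exmul, exc, exv2, exv3, exv5] at h
  push_cast at h
  linarith only [h]

theorem r1ml {d a b : ℝ} (hd : 0 ≤ d) (ha : 0 ≤ a) (hb : 0 ≤ b) (hd1 : 0 ≤ 3 / 5 - d) (ha1 : 0 ≤ d - a) (hb1 : 0 ≤ d - b) (hab : 0 ≤ -d + a + b) :
    0 ≤ 1753 / 3000 + 59 / 50 * d - 107 / 100 * a - 107 / 100 * b - 2 * d ^ 2 + d * a + d * b + 1 / 2 * a ^ 2 + a * b + 1 / 2 * b ^ 2 - 1 / 6 * d ^ 3 + 3 / 4 * d ^ 2 * a + 3 / 4 * d ^ 2 * b - 3 / 4 * d * a ^ 2 - d * a * b - 3 / 4 * d * b ^ 2 - 1 / 12 * a ^ 3 - 1 / 12 * b ^ 3 := by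
  have h := cert (y := yv d a b 0 0 0 0 0 0)
    (gs := [(.v 2),
      (.v 3),
      (.v 5),
      (.add (.c (3)) (.mul (.c (-5)) (.v 2))),
      (.add (.v 2) (.mul (.c (-1)) (.v 3))),
      (.add (.v 2) (.mul (.c (-1)) (.v 5))),
      (.add (.mul (.c (-1)) (.v 2)) (.add (.v 3) (.v 5)))])
    (p := .mul (.c 625000) (.add (.add (.add (.add (.c (1753)) (.mul (.c (3540)) (.v 2))) (.add (.mul (.c (-3210)) (.v 3)) (.mul (.c (-6000)) (.mul (.v 2) (.v 2))))) (.add (.add (.mul (.c (-3210)) (.v 5)) (.mul (.c (3000)) (.mul (.v 2) (.v 3)))) (.add (.mul (.c (-500)) (.mul (.mul (.v 2) (.v 2)) (.v 2))) (.add (.mul (.c (1500)) (.mul (.v 3) (.v 3))) (.mul (.c (3000)) (.mul (.v 2) (.v 5))))))) (.add (.add (.add (.mul (.c (2250)) (.mul (.mul (.v 2) (.v 2)) (.v 3))) (.mul (.c (3000)) (.mul (.v 3) (.v 5)))) (.add (.mul (.c (-2250)) (.mul (.mul (.v 2) (.v 3)) (.v 3))) (.mul (.c (2250)) (.mul (.mul (.v 2) (.v 2)) (.v 5)))))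 (.add (.add (.mul (.c (1500)) (.mul (.v 5) (.v 5))) (.mul (.c (-250)) (.mul (.mul (.v 3) (.v 3)) (.v 3)))) (.add (.mul (.c (-3000)) (.mul (.mul (.v 2) (.v 3)) (.v 5))) (.add (.mul (.c (-2250)) (.mul (.mul (.v 2) (.v 5)) (.v 5))) (.mul (.c (-250)) (.mul (.mul (.v 5) (.v 5)) (.v 5)))))))))
    (e := (.add (.add (.add (.mul (.g 3) (.add (.add (.mul (.g 3) (.add (.add (.pp [(1, 31650)]) (.mul (.g 3) (.add (.pp [(1, 6654855)]) (.add (.mul (.g 3) (.pp [(1, 1667967)])) (.mul (.g 4) (.pp [(1, 24314340)])))))) (.add (.mul (.g 4) (.add (.pp [(1, 6190275)]) (.mul (.g 4) (.pp [(1, 104164575)])))) (.mul (.g 5) (.add (.pp [(1, 152076225)]) (.mul (.g 5) (.pp [(1, 15794850)]))))))) (.add (.mul (.g 5) (.add (.pp [(1, 212527500)]) (.add (.mul (.g 5) (.add (.pp [(1, 265109250)]) (.add (.mul (.g 1) (.pp [(1, 57921375)])) (.mul (.g 6) (.pp [(1, 27282375)]))))) (.mul (.g 4) (.pp [(1, 398884125)]))))) (.mul (.g 0) (.add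 (.mul (.g 1) (.mul (.g 1) (.pp [(1, 188589375)]))) (.mul (.g 6) (.mul (.g 6) (.pp [(1, 19894125)]))))))) (.add (.mul (.g 4) (.add (.pp [(1, 431356500)]) (.mul (.g 4) (.mul (.g 4) (.pp [(1, 121466625)]))))) (.add (.mul (.g 1) (.mul (.g 1) (.mul (.g 1) (.pp [(1, 40977750)])))) (.mul (.g 2) (.mul (.g 2) (.mul (.g 2) (.pp [(1, 12375)])))))))) (.mul (.g 5) (.add (.mul (.g 6) (.add (.mul (.g 6) (.add (.pp [(1, 255611250)]) (.mul (.g 6) (.pp [(1, 68208750)])))) (.add (.mul (.g 0) (.mul (.g 0) (.pp [(1, 346861875)]))) (.mul (.g 4) (.mul (.g 4) (.pp [(1, 16728750)])))))) (.add (.mul (.g 2) (.mul (.g 2) (.add (.pp [(1, 67740000)]) (.mul (.g 5) (.pp [(1, 68190000)]))))) (.mul (.g 4) (.pp [(1, 678328125)])))))) (.add (.mul (.g 1) (.add (.mul (.g 4) (.add (.mul (.g 1) (.add (.mul (.g 1) (.pp [(1, 243727500)])) (.mul (.g 2) (.pp [(1, 306348750)])))) (.add (.mul (.g 0) (.mul (.g 0) (.pp [(1, 216033750)]))) (.mul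 (.g 4) (.mul (.g 6) (.pp [(1, 169931250)])))))) (.add (.mul (.g 2) (.mul (.g 2) (.mul (.g 2) (.pp [(1, 130830000)])))) (.mul (.g 6) (.mul (.g 6) (.mul (.g 6) (.pp [(1, 73779375)]))))))) (.mul (.g 6) (.mul (.g 6) (.mul (.g 6) (.pp [(1, 85198125)])))))) (.pp [(1, 780553738), (2, 19425), (3, 19155), (4, 18750), (5, 18525), (6, 16200), (8, 19750), (9, 18825), (10, 19050), (12, 19500), (15, 19500), (16, 18750), (18, 20250), (20, 14250), (24, 16875), (25, 18600), (27, 18500), (30, 22125), (36, 16875), (40, 20625), (45, 16875), (50, 21375), (54, 22500), (60, 18750), (75, 16875), (81, 16875), (90, 22500), (100, 16875), (125, 18875), (135, 16875), (150, 20625), (225, 16875), (250, 18750), (375, 16875), (625, 18750)])))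
    (by decide +kernel) (yv_nonneg hd ha hb (le_refl 0) (le_refl 0) (le_refl 0) (le_refl 0) (le_refl 0) (le_refl 0))
    (by
      simp only [List.forall_mem_cons, exadd, exsub, exmul, exc, exv2, exv3, exv5]
      push_cast
      refine ⟨?_, ?_, ?_, ?_, ?_, ?_, ?_, fun _ hh => absurd hh List.not_mem_nil⟩
      · linarith only [hd]
      · linarith only [ha]
      · linarith only [hb]
      · linarith only [hd1]
      · linarith only [ha1]
      · linarith only [hb1]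
      · linarith only [hab]
    )
  simp only [exadd, exsub, exmul, exc, exv2, exv3, exv5] at h
  push_cast at h
  linarith only [h]

theorem r2n {d q : ℝ} (hd : 0 ≤ d) (hq : 0 ≤ q) (hd1 : 0 ≤ 3 / 5 - d) (hdq : 0 ≤ -d + q) (hq1 : 0 ≤ 1 - q) :
    0 ≤ 8 / 15 + 143 / 100 * d - 6 / 5 * q - 3 / 4 * d ^ 2 + 3 / 4 * q ^ 2 - 1 / 12 * d ^ 3 + 1 / 2 * d ^ 2 * q - 3 / 4 * d * q ^ 2 := by
  have h := cert (y := yv d q 0 0 0 0 0 0 0)
    (gs := [(.v 2),
      (.v 3),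
      (.add (.c (3)) (.mul (.c (-5)) (.v 2))),
      (.add (.mul (.c (-1)) (.v 2)) (.v 3)),
      (.add (.c (1)) (.mul (.c (-1)) (.v 3)))])
    (p := .mul (.c 50000) (.add (.add (.add (.c (160)) (.mul (.c (429)) (.v 2))) (.add (.mul (.c (-360)) (.v 3)) (.mul (.c (-225)) (.mul (.v 2) (.v 2))))) (.add (.add (.mul (.c (-25)) (.mul (.mul (.v 2) (.v 2)) (.v 2))) (.mul (.c (225)) (.mul (.v 3) (.v 3)))) (.add (.mul (.c (150)) (.mul (.mul (.v 2) (.v 2)) (.v 3))) (.mul (.c (-225)) (.mul (.mul (.v 2) (.v 3)) (.v 3)))))))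
    (e := (.add (.add (.mul (.g 0) (.add (.add (.pp [(1, 4765440)]) (.mul (.g 3) (.add (.add (.mul (.g 0) (.add (.pp [(1, 2150475)]) (.mul (.g 3) (.pp [(1, 4501050)])))) (.mul (.g 1) (.pp [(1, 1400025)]))) (.add (.mul (.g 3) (.mul (.g 3) (.pp [(1, 3000645)]))) (.mul (.g 4) (.pp [(1, 15750900)])))))) (.add (.mul (.g 0) (.mul (.g 0) (.mul (.g 2) (.pp [(1, 300111)])))) (.add (.mul (.g 1) (.mul (.g 1) (.mul (.g 1) (.pp [(1, 1033275)])))) (.mul (.g 4) (.pp [(1, 21651825)])))))) (.add (.mul (.g 4) (.mul (.g 4) (.add (.mul (.g 4) (.add (.mul (.g 1) (.pp [(1, 10520295)])) (.add (.mul (.g 2) (.pp [(1, 993486)])) (.mul (.g 4) (.pp [(1, 4894770)]))))) (.mul (.g 3) (.mul (.g 3) (.pp [(1, 4500750)])))))) (.mul (.g 1) (.mul (.g 1) (.mul (.g 1) (.mul (.g 1) (.pp [(1, 1124625)]))))))) (.pp [(1, 124772), (2, 165), (3, 159), (4, 150), (6, 135), (8, 142), (9, 141), (12, 150), (16, 150), (18, 165), (24, 165), (27, 153),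 (36, 135), (54, 150), (81, 150)])))
    (by decide +kernel) (yv_nonneg hd hq (le_refl 0) (le_refl 0) (le_refl 0) (le_refl 0) (le_refl 0) (le_refl 0) (le_refl 0))
    (by
      simp only [List.forall_mem_cons, exadd, exsub, exmul, exc, exv2, exv3]
      push_cast
      refine ⟨?_, ?_, ?_, ?_, ?_, fun _ hh => absurd hh List.not_mem_nil⟩
      · linarith only [hd]
      · linarith only [hq]
      · linarith only [hd1]
      · linarith only [hdq]
      · linarith only [hq1]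
    )
  simp only [exadd, exsub, exmul, exc, exv2, exv3] at h
  push_cast at h
  linarith only [h]

theorem r2z1 {d q : ℝ} (hd : 0 ≤ d) (hq : 0 ≤ q) (hd1 : 0 ≤ 3 / 5 - d) (hdq : 0 ≤ d - q) :
    0 ≤ 8 / 15 + 59 / 50 * d - 19 / 20 * q - 5 / 4 * d ^ 2 + d * q + 1 / 4 * q ^ 2 + 1 / 4 * d ^ 2 * q - 1 / 2 * d * q ^ 2 - 1 / 12 * q ^ 3 := by
  have h := cert (y := yv d q 0 0 0 0 0 0 0)
    (gs := [(.v 2),
      (.v 3),
      (.add (.c (3)) (.mul (.c (-5)) (.v 2))),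
      (.add (.v 2) (.mul (.c (-1)) (.v 3)))])
    (p := .mul (.c 1250000) (.add (.add (.add (.c (160)) (.mul (.c (354)) (.v 2))) (.add (.mul (.c (-285)) (.v 3)) (.mul (.c (-375)) (.mul (.v 2) (.v 2))))) (.add (.add (.mul (.c (300)) (.mul (.v 2) (.v 3))) (.mul (.c (75)) (.mul (.v 3) (.v 3)))) (.add (.mul (.c (75)) (.mul (.mul (.v 2) (.v 2)) (.v 3))) (.add (.mul (.c (-150)) (.mul (.mul (.v 2) (.v 3)) (.v 3))) (.mul (.c (-25)) (.mul (.mul (.v 3) (.v 3)) (.v 3))))))))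
    (e := (.add (.add (.mul (.g 3) (.add (.add (.pp [(1, 117200625)]) (.mul (.g 2) (.add (.pp [(1, 79684425)]) (.mul (.g 3) (.add (.pp [(1, 9373500)]) (.add (.mul (.g 2) (.pp [(1, 1562880)])) (.mul (.g 3) (.pp [(1, 10417950)])))))))) (.add (.mul (.g 1) (.add (.pp [(1, 60946875)]) (.mul (.g 1) (.mul (.g 1) (.pp [(1, 19536000)]))))) (.mul (.g 3) (.mul (.g 3) (.mul (.g 3) (.pp [(1, 19532250)]))))))) (.add (.mul (.g 0) (.add (.add (.pp [(1, 33730875)]) (.mul (.g 2) (.add (.pp [(1, 15004050)]) (.mul (.g 2) (.mul (.g 2) (.pp [(1, 277761)])))))) (.add (.mul (.g 0) (.mul (.g 0) (.mul (.g 0) (.pp [(1, 28201875)])))) (.mul (.g 1) (.mul (.g 1) (.mul (.g 1) (.pp [(1, 6499500)]))))))) (.mul (.g 1) (.mul (.g 1) (.mul (.g 2) (.pp [(1, 37502250)])))))) (.pp [(1, 200000000), (2, 3528), (3, 3900), (4, 3690), (6, 3840), (8, 3825), (9, 3705), (12, 3750), (16, 3750), (18, 3600), (24, 3750), (27, 3850), (36, 3750), (54,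 3750), (81, 3750)])))
    (by decide +kernel) (yv_nonneg hd hq (le_refl 0) (le_refl 0) (le_refl 0) (le_refl 0) (le_refl 0) (le_refl 0) (le_refl 0))
    (by
      simp only [List.forall_mem_cons, exadd, exsub, exmul, exc, exv2, exv3]
      push_cast
      refine ⟨?_, ?_, ?_, ?_, fun _ hh => absurd hh List.not_mem_nil⟩
      · linarith only [hd]
      · linarith only [hq]
      · linarith only [hd1]
      · linarith only [hdq]
    )
  simp only [exadd, exsub, exmul, exc, exv2, exv3] at h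
  push_cast at h
  linarith only [h]

theorem r2z2 {d t w : ℝ} (hd : 0 ≤ d) (ht : 0 ≤ t) (hw : 0 ≤ w) (hd1 : 0 ≤ 3 / 5 - d) (ht1 : 0 ≤ 1 - d - t) (hwt : 0 ≤ d + t - w) (hw1 : 0 ≤ 13 / 20 - w) :
    0 ≤ 8 / 15 + 143 / 100 * d + 6 / 5 * t - 1 / 4 * w - 3 / 4 * d ^ 2 + 3 / 4 * t ^ 2 - 1 / 2 * w ^ 2 - 1 / 12 * d ^ 3 - 1 / 2 * d ^ 2 * t - 3 / 4 * d * t ^ 2 - 1 / 3 * t ^ 3 + 1 / 12 * w ^ 3 := by
  have h := cert (y := yv d t w 0 0 0 0 0 0)
    (gs := [(.v 2),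
      (.v 3),
      (.v 5),
      (.add (.c (3)) (.mul (.c (-5)) (.v 2))),
      (.add (.c (1)) (.add (.mul (.c (-1)) (.v 2)) (.mul (.c (-1)) (.v 3)))),
      (.add (.v 2) (.add (.v 3) (.mul (.c (-1)) (.v 5)))),
      (.add (.c (13)) (.mul (.c (-20)) (.v 5)))])
    (p := .mul (.c 80000000) (.add (.add (.add (.c (160)) (.add (.mul (.c (429)) (.v 2)) (.mul (.c (360)) (.v 3)))) (.add (.mul (.c (-225)) (.mul (.v 2) (.v 2))) (.add (.mul (.c (-75)) (.v 5)) (.mul (.c (-25)) (.mul (.mul (.v 2) (.v 2)) (.v 2)))))) (.add (.add (.mul (.c (225)) (.mul (.v 3) (.v 3))) (.add (.mul (.c (-150)) (.mul (.mul (.v 2) (.v 2)) (.v 3))) (.mul (.c (-225)) (.mul (.mul (.v 2) (.v 3)) (.v 3))))) (.add (.mul (.c (-150)) (.mul (.v 5) (.v 5))) (.add (.mul (.c (-100)) (.mul (.mul (.v 3) (.v 3)) (.v 3))) (.mul (.c (25)) (.mul (.mul (.v 5) (.v 5)) (.v 5))))))))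
    (e := (.add (.add (.add (.mul (.g 5) (.add (.add (.pp [(1, 10910760000)]) (.mul (.g 5) (.add (.add (.mul (.g 5) (.add (.add (.mul (.g 0) (.pp [(1, 72000)])) (.mul (.g 2) (.pp [(1, 5075232000)]))) (.add (.mul (.g 4) (.pp [(1, 7459728000)])) (.mul (.g 5) (.pp [(1, 3484728000)]))))) (.mul (.g 0) (.mul (.g 3) (.pp [(1, 1550620800)])))) (.add (.mul (.g 2) (.mul (.g 2) (.pp [(1, 3180576000)]))) (.mul (.g 4) (.mul (.g 4) (.pp [(1, 6757728000)]))))))) (.add (.mul (.g 0) (.add (.mul (.g 3) (.add (.pp [(1, 1938163200)]) (.mul (.g 3) (.pp [(1, 9600)])))) (.mul (.g 0) (.mul (.g 6) (.pp [(1, 775298400)]))))) (.add (.mul (.g 1) (.mul (.g 1) (.add (.pp [(1, 4651992000)]) (.mul (.g 1) (.pp [(1, 240000)]))))) (.mul (.g 3) (.pp [(1, 3865958400)])))))) (.mul (.g 1) (.add (.add (.mul (.g 1) (.add (.mul (.g 1) (.add (.mul (.g 1) (.pp [(1, 7498320000)])) (.mul (.g 4) (.pp [(1, 9856536000)])))) (.add (.mul (.g 0) (.mul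 (.g 3) (.pp [(1, 2013720000)]))) (.mul (.g 4) (.pp [(1, 17728008000)]))))) (.mul (.g 4) (.add (.pp [(1, 5211000000)]) (.mul (.g 4) (.mul (.g 4) (.pp [(1, 424992000)])))))) (.add (.mul (.g 0) (.pp [(1, 17838792000)])) (.add (.mul (.g 2) (.pp [(1, 16538928000)])) (.mul (.g 6) (.mul (.g 6) (.mul (.g 6) (.pp [(1, 298197)]))))))))) (.add (.mul (.g 2) (.add (.pp [(1, 2184336000)]) (.add (.mul (.g 2) (.add (.mul (.g 2) (.add (.mul (.g 2) (.pp [(1, 2526696000)])) (.mul (.g 3) (.pp [(1, 477100800)])))) (.mul (.g 4) (.mul (.g 4) (.pp [(1, 6757920000)]))))) (.mul (.g 6) (.add (.pp [(1, 1014877200)]) (.add (.mul (.g 0) (.mul (.g 0) (.pp [(1, 387655200)]))) (.mul (.g 6) (.mul (.g 6) (.pp [(1, 514626)]))))))))) (.mul (.g 0) (.add (.mul (.g 0) (.add (.mul (.g 0) (.mul (.g 0) (.pp [(1, 4689696000)]))) (.mul (.g 4) (.mul (.g 4) (.pp [(1, 2399760000)]))))) (.add (.mul (.g 3) (.mul (.g 3) (.mul (.g 3) (.pp [(1, 16957248)]))))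 (.mul (.g 4) (.pp [(1, 11353296000)]))))))) (.pp [(1, 12800000000), (2, 223104), (3, 233991), (4, 252480), (5, 262278), (6, 240000), (8, 229600), (9, 240000), (10, 240000), (12, 228000), (15, 245580), (16, 264000), (18, 225600), (20, 254400), (24, 312000), (25, 203640), (27, 232000), (30, 268800), (36, 336000), (40, 168000), (45, 264000), (50, 249600), (54, 288000), (60, 48000), (75, 238800), (81, 240000), (90, 72000), (100, 312000), (125, 260000), (135, 192000), (150, 360000), (225, 288000), (250, 216000), (375, 216000), (625, 240000)])))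
    (by decide +kernel) (yv_nonneg hd ht hw (le_refl 0) (le_refl 0) (le_refl 0) (le_refl 0) (le_refl 0) (le_refl 0))
    (by
      simp only [List.forall_mem_cons, exadd, exsub, exmul, exc, exv2, exv3, exv5]
      push_cast
      refine ⟨?_, ?_, ?_, ?_, ?_, ?_, ?_, fun _ hh => absurd hh List.not_mem_nil⟩
      · linarith only [hd]
      · linarith only [ht]
      · linarith only [hw]
      · linarith only [hd1]
      · linarith only [ht1]
      · linarith only [hwt]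
      · linarith only [hw1]
    )
  simp only [exadd, exsub, exmul, exc, exv2, exv3, exv5] at h
  push_cast at h
  linarith only [h]

theorem r2m1 {d m q : ℝ} (hd : 0 ≤ d) (hm : 0 ≤ m) (hq : 0 ≤ q) (hd1 : 0 ≤ 3 / 5 - d) (hm1 : 0 ≤ d - m) (hq1 : 0 ≤ -d + m + q) (hq2 : 0 ≤ 1 - q) :
    0 ≤ 47 / 60 + 143 / 100 * d - 3 / 4 * m - 17 / 10 * q - 3 / 2 * d ^ 2 + d * m + 1 / 2 * m ^ 2 + m * q + q ^ 2 - 1 / 4 * d ^ 3 + 3 / 4 * d ^ 2 * m + d ^ 2 * q - 3 / 4 * d * m ^ 2 - d * m * q - d * q ^ 2 - 1 / 12 * m ^ 3 := by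
  have h := cert (y := yv d m q 0 0 0 0 0 0)
    (gs := [(.v 2),
      (.v 3),
      (.v 5),
      (.add (.c (3)) (.mul (.c (-5)) (.v 2))),
      (.add (.v 2) (.mul (.c (-1)) (.v 3))),
      (.add (.mul (.c (-1)) (.v 2)) (.add (.v 3) (.v 5))),
      (.add (.c (1)) (.mul (.c (-1)) (.v 5)))])
    (p := .mul (.c 250000) (.add (.add (.add (.add (.c (235)) (.mul (.c (429)) (.v 2))) (.add (.mul (.c (-225)) (.v 3)) (.mul (.c (-450)) (.mul (.v 2) (.v 2))))) (.add (.add (.mul (.c (-510)) (.v 5)) (.mul (.c (300)) (.mul (.v 2) (.v 3)))) (.add (.mul (.c (-75)) (.mul (.mul (.v 2) (.v 2)) (.v 2))) (.mul (.c (150)) (.mul (.v 3) (.v 3)))))) (.add (.add (.add (.mul (.c (225)) (.mul (.mul (.v 2) (.v 2)) (.v 3))) (.mul (.c (300)) (.mul (.v 3) (.v 5)))) (.add (.mul (.c (-225)) (.mul (.mul (.v 2) (.v 3)) (.v 3))) (.mul (.c (300)) (.mul (.mul (.v 2) (.v 2)) (.v 5))))) (.add (.add (.mul (.c (300)) (.mul (.v 5) (.v 5)))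 (.mul (.c (-25)) (.mul (.mul (.v 3) (.v 3)) (.v 3)))) (.add (.mul (.c (-300)) (.mul (.mul (.v 2) (.v 3)) (.v 5))) (.mul (.c (-300)) (.mul (.mul (.v 2) (.v 5)) (.v 5))))))))
    (e := (.add (.add (.add (.mul (.g 6) (.add (.add (.mul (.g 6) (.add (.add (.mul (.g 6) (.add (.add (.mul (.g 3) (.pp [(1, 11991375)])) (.mul (.g 4) (.pp [(1, 54586050)]))) (.add (.mul (.g 5) (.pp [(1, 33207225)])) (.mul (.g 6) (.pp [(1, 22152000)]))))) (.add (.mul (.g 0) (.mul (.g 3) (.pp [(1, 4594785)]))) (.mul (.g 1) (.mul (.g 1) (.pp [(1, 28347225)]))))) (.add (.mul (.g 2) (.pp [(1, 35822400)])) (.add (.mul (.g 4) (.mul (.g 4) (.pp [(1, 4140900)]))) (.mul (.g 5) (.mul (.g 5) (.pp [(1, 5431350)]))))))) (.mul (.g 0) (.add (.pp [(1, 77303400)]) (.mul (.g 5) (.mul (.g 5) (.pp [(1, 5223600)])))))) (.add (.mul (.g 1) (.add (.mul (.g 1) (.mul (.g 4) (.pp [(1, 46561350)]))) (.mul (.g 2) (.mul (.g 2) (.pp [(1, 54734775)]))))) (.mul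 (.g 4) (.mul (.g 4) (.mul (.g 5) (.pp [(1, 40331025)]))))))) (.mul (.g 1) (.add (.add (.pp [(1, 4159725)]) (.mul (.g 3) (.add (.mul (.g 0) (.add (.pp [(1, 6934755)]) (.mul (.g 1) (.pp [(1, 3223590)])))) (.add (.mul (.g 1) (.mul (.g 2) (.pp [(1, 3581475)]))) (.mul (.g 5) (.mul (.g 5) (.pp [(1, 1075110)]))))))) (.add (.mul (.g 4) (.add (.pp [(1, 420225)]) (.add (.mul (.g 2) (.mul (.g 2) (.pp [(1, 16966125)]))) (.mul (.g 5) (.mul (.g 5) (.pp [(1, 14361825)])))))) (.add (.mul (.g 1) (.mul (.g 1) (.mul (.g 1) (.pp [(1, 3581025)])))) (.mul (.g 2) (.mul (.g 2) (.pp [(1, 27901050)])))))))) (.add (.mul (.g 4) (.add (.mul (.g 3) (.add (.pp [(1, 11437230)]) (.add (.mul (.g 4) (.add (.mul (.g 2) (.pp [(1, 6104010)])) (.mul (.g 4) (.pp [(1, 1081920)])))) (.mul (.g 3) (.pp [(1, 524436)]))))) (.add (.mul (.g 0) (.mul (.g 2) (.mul (.g 2) (.pp [(1, 9546000)])))) (.mul (.g 4) (.mul (.g 4) (.mul (.g 4) (.pp [(1, 5156925)])))))))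 (.add (.mul (.g 0) (.add (.mul (.g 0) (.mul (.g 0) (.add (.mul (.g 0) (.pp [(1, 12533175)])) (.mul (.g 5) (.pp [(1, 17904375)]))))) (.mul (.g 3) (.pp [(1, 5235960)])))) (.mul (.g 5) (.mul (.g 5) (.mul (.g 5) (.mul (.g 5) (.pp [(1, 5623125)])))))))) (.pp [(1, 623875), (2, 801), (3, 714), (4, 705), (5, 750), (6, 780), (8, 765), (9, 750), (10, 660), (12, 750), (15, 825), (16, 750), (18, 735), (20, 795), (24, 750), (25, 750), (27, 755), (30, 570), (36, 825), (40, 750), (45, 810), (50, 795), (54, 675), (60, 825), (75, 720), (81, 750), (90, 600), (100, 750), (125, 750), (135, 825), (150, 750), (225, 750), (250, 750), (375, 750), (625, 750)])))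
    (by decide +kernel) (yv_nonneg hd hm hq (le_refl 0) (le_refl 0) (le_refl 0) (le_refl 0) (le_refl 0) (le_refl 0))
    (by
      simp only [List.forall_mem_cons, exadd, exsub, exmul, exc, exv2, exv3, exv5]
      push_cast
      refine ⟨?_, ?_, ?_, ?_, ?_, ?_, ?_, fun _ hh => absurd hh List.not_mem_nil⟩
      · linarith only [hd]
      · linarith only [hm]
      · linarith only [hq]
      · linarith only [hd1]
      · linarith only [hm1]
      · linarith only [hq1]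
      · linarith only [hq2]
    )
  simp only [exadd, exsub, exmul, exc, exv2, exv3, exv5] at h
  push_cast at h
  linarith only [h]

theorem r2m2 {d t q w : ℝ} (hd : 0 ≤ d) (ht : 0 ≤ t) (hq : 0 ≤ q) (hw : 0 ≤ w) (hd1 : 0 ≤ 3 / 5 - d) (ht1 : 0 ≤ 1 - d - t) (hq1 : 0 ≤ -d - t + q) (hq2 : 0 ≤ 1 - q) (hwt : 0 ≤ d + t - w) (hw1 : 0 ≤ 13 / 20 - w) :
    0 ≤ 47 / 60 + 42 / 25 * d + t - 17 / 10 * q - 1 / 4 * w - d ^ 2 + t ^ 2 - t * q + q ^ 2 - 1 / 2 * w ^ 2 - 1 / 3 * d ^ 3 - d ^ 2 * t + d ^ 2 * q - d * t ^ 2 + d * t * q - d * q ^ 2 - 1 / 3 * t ^ 3 + 1 / 12 * w ^ 3 := by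
  have h := cert (y := yv d t q w 0 0 0 0 0)
    (gs := [(.v 2),
      (.v 3),
      (.v 5),
      (.v 7),
      (.add (.c (3)) (.mul (.c (-5)) (.v 2))),
      (.add (.c (1)) (.add (.mul (.c (-1)) (.v 2)) (.mul (.c (-1)) (.v 3)))),
      (.add (.mul (.c (-1)) (.v 2)) (.add (.mul (.c (-1)) (.v 3)) (.v 5))),
      (.add (.c (1)) (.mul (.c (-1)) (.v 5))),
      (.add (.v 2) (.add (.v 3) (.mul (.c (-1)) (.v 7)))),
      (.add (.c (13)) (.mul (.c (-20)) (.v 7)))])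
    (p := .mul (.c 2000000000) (.add (.add (.add (.add (.c (235)) (.mul (.c (504)) (.v 2))) (.add (.mul (.c (300)) (.v 3)) (.mul (.c (-300)) (.mul (.v 2) (.v 2))))) (.add (.add (.mul (.c (-510)) (.v 5)) (.mul (.c (-75)) (.v 7))) (.add (.mul (.c (-100)) (.mul (.mul (.v 2) (.v 2)) (.v 2))) (.add (.mul (.c (300)) (.mul (.v 3) (.v 3))) (.mul (.c (-300)) (.mul (.mul (.v 2) (.v 2)) (.v 3))))))) (.add (.add (.add (.mul (.c (-300)) (.mul (.v 3) (.v 5))) (.mul (.c (-300)) (.mul (.mul (.v 2) (.v 3)) (.v 3)))) (.add (.mul (.c (300)) (.mul (.mul (.v 2) (.v 2)) (.v 5))) (.mul (.c (300)) (.mul (.v 5) (.v 5))))) (.add (.add (.mul (.c (-100)) (.mul (.mul (.v 3) (.v 3)) (.v 3))) (.mul (.c (300)) (.mul (.mul (.v 2) (.v 3)) (.v 5)))) (.add (.mul (.c (-150)) (.mul (.v 7) (.v 7))) (.add (.mul (.c (-300)) (.mul (.mul (.v 2) (.v 5)) (.v 5))) (.mul (.c (25)) (.mul (.mul (.v 7) (.v 7)) (.v 7)))))))))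
    (e := (.add (.add (.add (.mul (.g 7) (.add (.add (.mul (.g 7) (.add (.add (.add (.pp [(1, 59281800000)]) (.mul (.pp [(1, 17414280)]) (.sq [(1, 40), (2, 47), (3, 100), (5, -96), (7, -49)]))) (.add (.mul (.g 3) (.add (.pp [(1, 224420400000)]) (.add (.mul (.g 5) (.pp [(1, 105048000000)])) (.mul (.g 9) (.pp [(1, 3503310000)]))))) (.mul (.g 7) (.add (.mul (.g 0) (.pp [(1, 97361400000)])) (.add (.mul (.g 2) (.pp [(1, 252091800000)])) (.mul (.g 5) (.pp [(1, 328324800000)]))))))) (.add (.add (.mul (.g 4) (.add (.mul (.g 6) (.pp [(1, 55492080000)])) (.mul (.g 8) (.pp [(1, 58218000000)])))) (.mul (.g 0) (.mul (.g 6) (.pp [(1, 553732800000)])))) (.add (.mul (.g 1) (.mul (.g 2) (.pp [(1, 174307200000)]))) (.mul (.g 5) (.mul (.g 8) (.pp [(1, 30149400000)]))))))) (.add (.mul (.g 1) (.add (.add (.mul (.pp [(1, 30913860)]) (.sq [(1, 100), (2, 31), (3, -16), (5, -52), (7, 12)])) (.mul (.g 0) (.add (.mul (.g 2)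 (.pp [(1, 96258000000)])) (.mul (.g 4) (.pp [(1, 30806760000)]))))) (.add (.mul (.g 1) (.add (.mul (.g 3) (.pp [(1, 127475400000)])) (.mul (.g 9) (.pp [(1, 12021690000)])))) (.mul (.g 8) (.mul (.g 9) (.pp [(1, 3398010000)])))))) (.mul (.g 6) (.add (.mul (.pp [(1, 3215400)]) (.sq [(1, -56), (2, -100), (3, -53), (5, 73), (7, 7)])) (.add (.mul (.pp [(1, 1899900)]) (.sq [(1, 12), (2, 100), (3, -35), (5, -10), (7, 67)])) (.mul (.g 3) (.add (.mul (.g 2) (.pp [(1, 59974200000)])) (.mul (.g 3) (.pp [(1, 73804200000)]))))))))) (.add (.add (.mul (.g 8) (.add (.pp [(1, 221677800000)]) (.add (.mul (.pp [(1, 7028520)]) (.sq [(1, -23), (2, -60), (3, 81), (5, 32), (7, 100)])) (.mul (.g 2) (.add (.mul (.g 2) (.pp [(1, 11620800000)])) (.mul (.g 4) (.pp [(1, 39840360000)]))))))) (.mul (.g 0) (.pp [(1, 601078800000)]))) (.add (.mul (.g 3) (.mul (.g 3) (.mul (.g 3) (.pp [(1, 75045600000)])))) (.mul (.g 4) (.mul (.pp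 [(1, 4734108)]) (.sq [(1, 42), (2, -5), (3, 47), (5, -48), (7, 100)]))))))) (.add (.mul (.g 8) (.add (.add (.mul (.g 1) (.add (.add (.mul (.pp [(1, 32588220)]) (.sq [(1, -20), (2, 100), (3, -46), (5, -13), (7, 11)])) (.add (.mul (.g 5) (.add (.mul (.g 1) (.pp [(1, 539241600000)])) (.add (.mul (.g 5) (.pp [(1, 358675800000)])) (.mul (.g 8) (.pp [(1, 73412400000)]))))) (.mul (.g 0) (.add (.mul (.g 0) (.pp [(1, 736577400000)])) (.mul (.g 4) (.pp [(1, 320880840000)])))))) (.add (.mul (.g 3) (.add (.mul (.g 1) (.pp [(1, 174509400000)])) (.mul (.g 8) (.pp [(1, 117826800000)])))) (.add (.mul (.g 6) (.mul (.g 6) (.pp [(1, 28338000000)]))) (.mul (.g 8) (.mul (.g 8) (.pp [(1, 163452600000)]))))))) (.add (.mul (.g 0) (.add (.mul (.g 4) (.add (.mul (.g 2) (.pp [(1, 9192240000)])) (.mul (.g 9) (.pp [(1, 692682000)])))) (.mul (.g 6) (.add (.pp [(1, 205264800000)]) (.mul (.g 0) (.pp [(1, 52051800000)])))))) (.mul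 (.g 3) (.add (.pp [(1, 261505200000)]) (.add (.mul (.g 8) (.mul (.g 8) (.pp [(1, 208200000)]))) (.mul (.g 9) (.pp [(1, 4373070000)]))))))) (.add (.add (.mul (.g 6) (.add (.mul (.pp [(1, 1919475000)]) (.sq [(1, -4), (2, -3), (3, -2), (5, 2), (7, -1)])) (.mul (.pp [(1, 2629680)]) (.sq [(1, 12), (2, 9), (3, 100), (5, 13), (7, -50)])))) (.mul (.g 2) (.mul (.pp [(1, 601260)]) (.sq [(1, -16), (2, 100), (3, -39), (7, 37)])))) (.add (.mul (.g 5) (.mul (.pp [(1, 13375020)]) (.sq [(1, 100), (2, 19), (3, 42), (5, -46), (7, 44)]))) (.mul (.g 9) (.mul (.pp [(1, 420789)]) (.sq [(1, 28), (2, 100), (3, -55), (5, -44), (7, -19)]))))))) (.mul (.g 1) (.add (.mul (.g 1) (.add (.mul (.g 5) (.add (.mul (.g 4) (.pp [(1, 4347960000)])) (.add (.mul (.g 6) (.pp [(1, 47314800000)])) (.mul (.g 9) (.pp [(1, 708960000)]))))) (.add (.mul (.g 3) (.add (.mul (.g 4) (.pp [(1, 15837480000)])) (.mul (.g 9) (.pp [(1, 3154530000)]))))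 (.mul (.g 0) (.mul (.g 1) (.pp [(1, 6000000)])))))) (.mul (.g 0) (.mul (.g 3) (.mul (.g 4) (.pp [(1, 50472720000)])))))))) (.add (.mul (.g 2) (.add (.mul (.g 4) (.add (.mul (.pp [(1, 1352988)]) (.sq [(1, 1), (2, -60), (3, 100), (5, -2), (7, -42)])) (.mul (.g 0) (.add (.mul (.g 5) (.pp [(1, 25533720000)])) (.mul (.g 6) (.pp [(1, 51772920000)])))))) (.mul (.g 6) (.add (.mul (.pp [(1, 1609440)]) (.sq [(1, -63), (2, 100), (3, 72), (5, 44), (7, 44)])) (.mul (.pp [(1, 15079560)]) (.sq [(1, 38), (2, 100), (3, -13), (5, -51), (7, 36)])))))) (.add (.mul (.g 9) (.add (.mul (.pp [(1, 629172)]) (.sq [(1, -45), (2, -3), (3, -44), (5, 100), (7, -24)])) (.add (.mul (.g 0) (.pp [(1, 17423640000)])) (.mul (.g 3) (.mul (.g 3) (.mul (.g 3) (.pp [(1, 141810000)]))))))) (.mul (.g 6) (.add (.mul (.g 0) (.mul (.pp [(1, 24608160)]) (.sq [(1, 2), (2, 50), (3, -39), (5, -42), (7, 49)]))) (.mul (.g 6) (.mul (.pp [(1, 54353280)])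 (.sq [(1, 22), (2, 50), (3, -8), (5, -35), (7, 17)])))))))) (.pp [(1, 12914699564), (2, 6153552), (3, 6561720), (4, 5688096), (5, 5981340), (6, 5608416), (7, 5510808), (8, 5172160), (9, 6143268), (10, 5426388), (12, 5397360), (14, 5903544), (15, 4616568), (16, 5661300), (18, 6177375), (20, 7808100), (21, 5961936), (24, 5978520), (25, 5864592), (27, 6095275), (28, 6595380), (30, 7870080), (35, 7061448), (36, 5857860), (40, 7331580), (42, 5181150), (45, 5823576), (49, 6033216), (50, 6035208), (54, 5292480), (56, 5518140), (60, 5958180), (63, 5267415), (70, 6077976), (75, 6864120), (81, 5751840), (84, 6272220), (90, 5958900), (98, 4998483), (100, 4216440), (105, 6326856), (125, 5976120), (126, 7174020), (135, 6160560), (140, 6592200), (147, 5804373), (150, 5076180), (175, 5448240), (189, 6317460), (196, 5672520), (210, 6028440), (225, 5884560), (245, 5965188), (250, 6463440), (294, 5983980), (315, 6516780),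 (343, 5922857), (350, 5668080), (375, 5852400), (441, 6034320), (490, 7252920), (525, 6198900), (625, 6072720), (686, 5746860), (735, 5954280), (875, 6033840), (1029, 5777280), (1225, 5873820), (1715, 6015780), (2401, 6303420)])))
    (by decide +kernel) (yv_nonneg hd ht hq hw (le_refl 0) (le_refl 0) (le_refl 0) (le_refl 0) (le_refl 0))
    (by
      simp only [List.forall_mem_cons, exadd, exsub, exmul, exc, exv2, exv3, exv5, exv7]
      push_cast
      refine ⟨?_, ?_, ?_, ?_, ?_, ?_, ?_, ?_, ?_, ?_, fun _ hh => absurd hh List.not_mem_nil⟩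
      · linarith only [hd]
      · linarith only [ht]
      · linarith only [hq]
      · linarith only [hw]
      · linarith only [hd1]
      · linarith only [ht1]
      · linarith only [hq1]
      · linarith only [hq2]
      · linarith only [hwt]
      · linarith only [hw1]
    )
  simp only [exadd, exsub, exmul, exc, exv2, exv3, exv5, exv7] at h
  push_cast at h
  linarith only [h]

theorem r2zm {d a b : ℝ} (hd : 0 ≤ d) (ha : 0 ≤ a) (hb : 0 ≤ b) (hd1 : 0 ≤ 3 / 5 - d) (ha1 : 0 ≤ d - a) (hb1 : 0 ≤ d - b) (hab : 0 ≤ -d + a + b) :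
    0 ≤ 47 / 60 + 59 / 50 * d - 29 / 20 * a - 3 / 4 * b - 2 * d ^ 2 + d * a + d * b + 1 / 2 * a ^ 2 + a * b + 1 / 2 * b ^ 2 - 1 / 6 * d ^ 3 + 3 / 4 * d ^ 2 * a + 3 / 4 * d ^ 2 * b - 3 / 4 * d * a ^ 2 - d * a * b - 3 / 4 * d * b ^ 2 - 1 / 12 * a ^ 3 - 1 / 12 * b ^ 3 := by
  have h := cert (y := yv d a b 0 0 0 0 0 0)
    (gs := [(.v 2),
      (.v 3),
      (.v 5),
      (.add (.c (3)) (.mul (.c (-5)) (.v 2))),
      (.add (.v 2) (.mul (.c (-1)) (.v 3))),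
      (.add (.v 2) (.mul (.c (-1)) (.v 5))),
      (.add (.mul (.c (-1)) (.v 2)) (.add (.v 3) (.v 5)))])
    (p := .mul (.c 6250000) (.add (.add (.add (.add (.c (235)) (.mul (.c (354)) (.v 2))) (.add (.mul (.c (-435)) (.v 3)) (.mul (.c (-600)) (.mul (.v 2) (.v 2))))) (.add (.add (.mul (.c (-225)) (.v 5)) (.mul (.c (300)) (.mul (.v 2) (.v 3)))) (.add (.mul (.c (-50)) (.mul (.mul (.v 2) (.v 2)) (.v 2))) (.add (.mul (.c (150)) (.mul (.v 3) (.v 3))) (.mul (.c (300)) (.mul (.v 2) (.v 5))))))) (.add (.add (.add (.mul (.c (225)) (.mul (.mul (.v 2) (.v 2)) (.v 3))) (.mul (.c (300)) (.mul (.v 3) (.v 5)))) (.add (.mul (.c (-225)) (.mul (.mul (.v 2) (.v 3)) (.v 3))) (.mul (.c (225)) (.mul (.mul (.v 2) (.v 2)) (.v 5))))) (.add (.add (.mul (.c (150)) (.mul (.v 5) (.v 5))) (.mul (.c (-25)) (.mul (.mul (.v 3) (.v 3)) (.v 3)))) (.add (.mul (.c (-300)) (.mul (.mul (.v 2) (.v 3)) (.v 5))) (.add (.mul (.c (-225)) (.mul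 (.mul (.v 2) (.v 5)) (.v 5))) (.mul (.c (-25)) (.mul (.mul (.v 5) (.v 5)) (.v 5)))))))))
    (e := (.add (.add (.add (.mul (.g 3) (.add (.add (.pp [(1, 173825250)]) (.add (.mul (.g 3) (.add (.add (.pp [(1, 14351325)]) (.mul (.g 5) (.add (.pp [(1, 119971650)]) (.mul (.g 5) (.pp [(1, 43711425)]))))) (.add (.mul (.g 3) (.mul (.g 3) (.pp [(1, 1134984)]))) (.mul (.g 6) (.mul (.g 6) (.pp [(1, 32188950)])))))) (.mul (.g 1) (.add (.mul (.g 1) (.add (.pp [(1, 307129125)]) (.mul (.g 0) (.pp [(1, 194239500)])))) (.mul (.g 5) (.mul (.g 5) (.pp [(1, 15366750)]))))))) (.add (.add (.mul (.g 0) (.mul (.g 0) (.mul (.g 0) (.pp [(1, 150842625)])))) (.mul (.g 4) (.pp [(1, 565713375)]))) (.add (.mul (.g 5) (.pp [(1, 108841125)])) (.mul (.g 6) (.mul (.g 6) (.mul (.g 6) (.pp [(1, 14500500)])))))))) (.mul (.g 4) (.add (.add (.pp [(1, 1021629375)]) (.mul (.g 1) (.add (.pp [(1, 921395625)]) (.add (.mul (.g 1) (.add (.pp [(1,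 15360000)]) (.mul (.g 5) (.pp [(1, 12787500)])))) (.mul (.g 4) (.mul (.g 4) (.pp [(1, 4246875)]))))))) (.add (.mul (.g 4) (.add (.mul (.g 4) (.add (.pp [(1, 156268125)]) (.mul (.g 5) (.pp [(1, 102416250)])))) (.mul (.g 2) (.mul (.g 2) (.pp [(1, 2160000)]))))) (.mul (.g 6) (.mul (.g 6) (.add (.pp [(1, 28141875)]) (.mul (.g 6) (.pp [(1, 59724375)]))))))))) (.add (.mul (.g 2) (.add (.mul (.g 2) (.add (.add (.mul (.g 0) (.add (.pp [(1, 624853125)]) (.mul (.g 2) (.pp [(1, 42592500)])))) (.mul (.g 5) (.add (.pp [(1, 125529375)]) (.mul (.g 2) (.pp [(1, 29872500)]))))) (.add (.mul (.g 1) (.mul (.g 1) (.pp [(1, 147142500)]))) (.mul (.g 6) (.mul (.g 6) (.pp [(1, 29853750)])))))) (.mul (.g 5) (.pp [(1, 393412500)])))) (.mul (.g 6) (.add (.mul (.g 5) (.add (.mul (.g 0) (.mul (.g 0) (.pp [(1, 1967876250)]))) (.mul (.g 6) (.pp [(1, 74240625)])))) (.add (.mul (.g 1) (.mul (.g 1) (.mul (.g 1) (.pp [(1, 63952500)]))))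 (.mul (.g 6) (.pp [(1, 647790000)]))))))) (.pp [(1, 726178621), (2, 19635), (3, 19500), (4, 17100), (5, 18225), (6, 18600), (8, 19000), (9, 17700), (10, 19125), (12, 19500), (15, 18900), (16, 20625), (18, 19500), (20, 19875), (24, 16875), (25, 19125), (27, 18500), (30, 16500), (36, 16875), (40, 16875), (45, 19875), (50, 19500), (54, 20625), (60, 16875), (75, 18375), (81, 18750), (90, 24375), (100, 18750), (125, 18500), (135, 16875), (150, 22500), (225, 16875), (250, 20625), (375, 16875), (625, 18750)])))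
    (by decide +kernel) (yv_nonneg hd ha hb (le_refl 0) (le_refl 0) (le_refl 0) (le_refl 0) (le_refl 0) (le_refl 0))
    (by
      simp only [List.forall_mem_cons, exadd, exsub, exmul, exc, exv2, exv3, exv5]
      push_cast
      refine ⟨?_, ?_, ?_, ?_, ?_, ?_, ?_, fun _ hh => absurd hh List.not_mem_nil⟩
      · linarith only [hd]
      · linarith only [ha]
      · linarith only [hb]
      · linarith only [hd1]
      · linarith only [ha1]
      · linarith only [hb1]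
      · linarith only [hab]
    )
  simp only [exadd, exsub, exmul, exc, exv2, exv3, exv5] at h
  push_cast at h
  linarith only [h]

theorem r2ml {d a b : ℝ} (hd : 0 ≤ d) (ha : 0 ≤ a) (hb : 0 ≤ b) (hd1 : 0 ≤ 3 / 5 - d) (ha1 : 0 ≤ d - a) (hb1 : 0 ≤ d - b) (hab : 0 ≤ -d + a + b) :
    0 ≤ 1 / 12 + 12 / 25 * d - 1 / 20 * a - 1 / 20 * b - 2 * d ^ 2 + d * a + d * b + 1 / 2 * a ^ 2 + a * b + 1 / 2 * b ^ 2 - 1 / 6 * d ^ 3 + 3 / 4 * d ^ 2 * a + 3 / 4 * d ^ 2 * b - 3 / 4 * d * a ^ 2 - d * a * b - 3 / 4 * d * b ^ 2 - 1 / 12 * a ^ 3 - 1 / 12 * b ^ 3 := by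
  have h := cert (y := yv d a b 0 0 0 0 0 0)
    (gs := [(.v 2),
      (.v 3),
      (.v 5),
      (.add (.c (3)) (.mul (.c (-5)) (.v 2))),
      (.add (.v 2) (.mul (.c (-1)) (.v 3))),
      (.add (.v 2) (.mul (.c (-1)) (.v 5))),
      (.add (.mul (.c (-1)) (.v 2)) (.add (.v 3) (.v 5)))])
    (p := .mul (.c 250000) (.add (.add (.add (.add (.c (25)) (.mul (.c (144)) (.v 2))) (.add (.mul (.c (-15)) (.v 3)) (.mul (.c (-600)) (.mul (.v 2) (.v 2))))) (.add (.add (.mul (.c (-15)) (.v 5)) (.mul (.c (300)) (.mul (.v 2) (.v 3)))) (.add (.mul (.c (-50)) (.mul (.mul (.v 2) (.v 2)) (.v 2))) (.add (.mul (.c (150)) (.mul (.v 3) (.v 3))) (.mul (.c (300)) (.mul (.v 2) (.v 5))))))) (.add (.add (.add (.mul (.c (225)) (.mul (.mul (.v 2) (.v 2)) (.v 3))) (.mul (.c (300)) (.mul (.v 3) (.v 5)))) (.add (.mul (.c (-225)) (.mul (.mul (.v 2) (.v 3)) (.v 3))) (.mul (.c (225)) (.mul (.mul (.v 2) (.v 2)) (.v 5))))) (.add (.add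 (.mul (.c (150)) (.mul (.v 5) (.v 5))) (.mul (.c (-25)) (.mul (.mul (.v 3) (.v 3)) (.v 3)))) (.add (.mul (.c (-300)) (.mul (.mul (.v 2) (.v 3)) (.v 5))) (.add (.mul (.c (-225)) (.mul (.mul (.v 2) (.v 5)) (.v 5))) (.mul (.c (-25)) (.mul (.mul (.v 5) (.v 5)) (.v 5)))))))))
    (e := (.add (.add (.add (.mul (.g 6) (.add (.add (.pp [(1, 28497750)]) (.add (.mul (.g 6) (.add (.add (.pp [(1, 3703425)]) (.mul (.g 3) (.add (.mul (.g 3) (.pp [(1, 1515009)])) (.mul (.g 6) (.pp [(1, 2649645)]))))) (.add (.mul (.g 5) (.add (.pp [(1, 7949175)]) (.mul (.g 6) (.pp [(1, 4416000)])))) (.add (.mul (.g 1) (.mul (.g 1) (.pp [(1, 7702875)]))) (.mul (.g 4) (.pp [(1, 7949175)])))))) (.mul (.g 0) (.add (.pp [(1, 33427125)]) (.mul (.g 0) (.mul (.g 5) (.pp [(1, 68983125)]))))))) (.add (.mul (.g 1) (.pp [(1, 40322250)])) (.add (.mul (.g 2) (.mul (.g 2) (.mul (.g 2) (.pp [(1, 13247250)])))) (.mul (.g 4) (.mul (.g 4) (.mul (.g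 4) (.pp [(1, 17761575)])))))))) (.mul (.g 3) (.add (.add (.mul (.g 0) (.add (.mul (.g 0) (.add (.pp [(1, 1635510)]) (.mul (.g 0) (.pp [(1, 2412030)])))) (.mul (.g 1) (.pp [(1, 16487745)])))) (.add (.mul (.g 3) (.add (.mul (.g 5) (.add (.pp [(1, 3583167)]) (.mul (.g 5) (.pp [(1, 1735884)])))) (.mul (.g 4) (.mul (.g 4) (.pp [(1, 755658)]))))) (.mul (.g 1) (.mul (.g 1) (.mul (.g 1) (.pp [(1, 5338635)])))))) (.add (.mul (.g 2) (.mul (.g 2) (.mul (.g 2) (.pp [(1, 1367010)])))) (.add (.mul (.g 4) (.pp [(1, 10749495)])) (.mul (.g 5) (.mul (.g 5) (.mul (.g 5) (.pp [(1, 2374215)]))))))))) (.add (.mul (.g 1) (.add (.mul (.g 4) (.add (.add (.pp [(1, 26962425)]) (.mul (.g 1) (.add (.pp [(1, 22266375)]) (.mul (.g 4) (.pp [(1, 10057950)]))))) (.add (.mul (.g 0) (.pp [(1, 18347025)])) (.mul (.g 2) (.mul (.g 4) (.pp [(1, 6771150)])))))) (.mul (.g 1) (.mul (.g 5) (.mul (.g 5) (.pp [(1, 5544375)])))))) (.add (.mul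 (.g 2) (.mul (.g 2) (.add (.pp [(1, 4537800)]) (.mul (.g 2) (.add (.pp [(1, 757200)]) (.mul (.g 5) (.pp [(1, 10511100)]))))))) (.mul (.g 5) (.mul (.g 5) (.mul (.g 5) (.add (.pp [(1, 3986100)]) (.mul (.g 5) (.pp [(1, 1679100)]))))))))) (.pp [(1, 6250000), (2, 762), (3, 735), (4, 696), (5, 753), (6, 846), (8, 655), (9, 747), (10, 789), (12, 750), (15, 738), (16, 825), (18, 765), (20, 900), (24, 600), (25, 738), (27, 710), (30, 750), (36, 900), (40, 675), (45, 720), (50, 660), (54, 750), (60, 900), (75, 720), (81, 750), (90, 750), (100, 750), (125, 755), (135, 675), (150, 675), (225, 750), (250, 750), (375, 750), (625, 750)])))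
    (by decide +kernel) (yv_nonneg hd ha hb (le_refl 0) (le_refl 0) (le_refl 0) (le_refl 0) (le_refl 0) (le_refl 0))
    (by
      simp only [List.forall_mem_cons, exadd, exsub, exmul, exc, exv2, exv3, exv5]
      push_cast
      refine ⟨?_, ?_, ?_, ?_, ?_, ?_, ?_, fun _ hh => absurd hh List.not_mem_nil⟩
      · linarith only [hd]
      · linarith only [ha]
      · linarith only [hb]
      · linarith only [hd1]
      · linarith only [ha1]
      · linarith only [hb1]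
      · linarith only [hab]
    )
  simp only [exadd, exsub, exmul, exc, exv2, exv3, exv5] at h
  push_cast at h
  linarith only [h]

theorem r3n {d q : ℝ} (hd : 0 ≤ d) (hq : 0 ≤ q) (hd1 : 0 ≤ 3 / 5 - d) (hdq : 0 ≤ -d + q) (hq1 : 0 ≤ 1 - q) (hlo : 0 ≤ -3 / 10 + d) :
    0 ≤ -1 / 6 + 143 / 100 * d - 1 / 2 * q - 3 / 4 * d ^ 2 + 3 / 4 * q ^ 2 - 1 / 12 * d ^ 3 + 1 / 2 * d ^ 2 * q - 3 / 4 * d * q ^ 2 := by
  have h := cert (y := yv d q 0 0 0 0 0 0 0)
    (gs := [(.v 2),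
      (.v 3),
      (.add (.c (3)) (.mul (.c (-5)) (.v 2))),
      (.add (.mul (.c (-1)) (.v 2)) (.v 3)),
      (.add (.c (1)) (.mul (.c (-1)) (.v 3))),
      (.add (.c (-3)) (.mul (.c (10)) (.v 2)))])
    (p := .mul (.c 12500000) (.add (.add (.add (.c (-50)) (.mul (.c (429)) (.v 2))) (.add (.mul (.c (-150)) (.v 3)) (.mul (.c (-225)) (.mul (.v 2) (.v 2))))) (.add (.add (.mul (.c (-25)) (.mul (.mul (.v 2) (.v 2)) (.v 2))) (.mul (.c (225)) (.mul (.v 3) (.v 3)))) (.add (.mul (.c (150)) (.mul (.mul (.v 2) (.v 2)) (.v 3))) (.mul (.c (-225)) (.mul (.mul (.v 2) (.v 3)) (.v 3)))))))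
    (e := (.add (.add (.mul (.g 5) (.add (.add (.pp [(1, 230249250)]) (.mul (.g 1) (.add (.mul (.g 1) (.add (.pp [(1, 82822500)]) (.mul (.g 4) (.pp [(1, 51042750)])))) (.mul (.g 4) (.pp [(1, 114709500)]))))) (.add (.mul (.g 2) (.add (.pp [(1, 68122575)]) (.mul (.g 2) (.mul (.g 5) (.pp [(1, 6846)]))))) (.add (.mul (.g 3) (.mul (.g 3) (.add (.mul (.g 3) (.pp [(1, 12755250)])) (.mul (.g 4) (.pp [(1, 86856375)]))))) (.mul (.g 0) (.mul (.g 0) (.mul (.g 0) (.pp [(1, 11039625)])))))))) (.add (.mul (.g 3) (.mul (.g 3) (.add (.pp [(1, 834135000)]) (.add (.mul (.g 3) (.add (.pp [(1, 669566250)]) (.mul (.g 4) (.pp [(1, 485872500)])))) (.mul (.g 1) (.mul (.g 1) (.pp [(1, 103110000)]))))))) (.mul (.g 4) (.mul (.g 4) (.mul (.g 4) (.mul (.g 4) (.pp [(1, 382728750)]))))))) (.pp [(1, 295567649), (2, 36885), (3, 43500), (4, 38325), (6, 36750), (8, 35125), (9, 28875), (12, 39375), (16, 41250), (18, 36000), (24, 33750),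 (27, 44625), (36, 37500), (54, 41250), (81, 33750)])))
    (by decide +kernel) (yv_nonneg hd hq (le_refl 0) (le_refl 0) (le_refl 0) (le_refl 0) (le_refl 0) (le_refl 0) (le_refl 0))
    (by
      simp only [List.forall_mem_cons, exadd, exsub, exmul, exc, exv2, exv3]
      push_cast
      refine ⟨?_, ?_, ?_, ?_, ?_, ?_, fun _ hh => absurd hh List.not_mem_nil⟩
      · linarith only [hd]
      · linarith only [hq]
      · linarith only [hd1]
      · linarith only [hdq]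
      · linarith only [hq1]
      · linarith only [hlo]
    )
  simp only [exadd, exsub, exmul, exc, exv2, exv3] at h
  push_cast at h
  linarith only [h]

theorem r3z1 {d q : ℝ} (hd : 0 ≤ d) (hq : 0 ≤ q) (hd1 : 0 ≤ 3 / 5 - d) (hdq : 0 ≤ d - q) (hlo : 0 ≤ -3 / 10 + d) :
    0 ≤ -1 / 6 + 59 / 50 * d - 1 / 4 * q - 5 / 4 * d ^ 2 + d * q + 1 / 4 * q ^ 2 + 1 / 4 * d ^ 2 * q - 1 / 2 * d * q ^ 2 - 1 / 12 * q ^ 3 := by
  have h := cert (y := yv d q 0 0 0 0 0 0 0)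
    (gs := [(.v 2),
      (.v 3),
      (.add (.c (3)) (.mul (.c (-5)) (.v 2))),
      (.add (.v 2) (.mul (.c (-1)) (.v 3))),
      (.add (.c (-3)) (.mul (.c (10)) (.v 2)))])
    (p := .mul (.c 12500000) (.add (.add (.add (.c (-50)) (.mul (.c (354)) (.v 2))) (.add (.mul (.c (-75)) (.v 3)) (.mul (.c (-375)) (.mul (.v 2) (.v 2))))) (.add (.add (.mul (.c (300)) (.mul (.v 2) (.v 3))) (.mul (.c (75)) (.mul (.v 3) (.v 3)))) (.add (.mul (.c (75)) (.mul (.mul (.v 2) (.v 2)) (.v 3))) (.add (.mul (.c (-150)) (.mul (.mul (.v 2) (.v 3)) (.v 3))) (.mul (.c (-25)) (.mul (.mul (.v 3) (.v 3)) (.v 3))))))))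
    (e := (.add (.add (.mul (.g 1) (.add (.add (.mul (.g 1) (.add (.mul (.g 1) (.add (.mul (.g 1) (.pp [(1, 347141250)])) (.mul (.g 2) (.pp [(1, 138881250)])))) (.add (.mul (.g 2) (.pp [(1, 479184000)])) (.mul (.g 3) (.pp [(1, 833328750)]))))) (.mul (.g 0) (.add (.pp [(1, 312251250)]) (.mul (.g 0) (.mul (.g 0) (.pp [(1, 694278750)])))))) (.add (.mul (.g 3) (.add (.pp [(1, 500088750)]) (.mul (.g 3) (.mul (.g 3) (.pp [(1, 347178750)]))))) (.mul (.g 4) (.pp [(1, 350013375)]))))) (.mul (.g 4) (.add (.pp [(1, 13115250)]) (.add (.mul (.g 2) (.add (.pp [(1, 93751650)]) (.add (.mul (.g 2) (.mul (.g 2) (.pp [(1, 277761)]))) (.mul (.g 3) (.pp [(1, 12500250)]))))) (.mul (.g 3) (.mul (.g 3) (.mul (.g 3) (.pp [(1, 34716375)])))))))) (.pp [(1, 280609241), (2, 36825), (3, 37875), (4, 37275), (6, 37500), (8, 39000), (9, 36750), (12, 40125), (16, 37500), (18, 38625), (24, 33750), (27, 35875), (36, 45000), (54, 33750),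 (81, 37500)])))
    (by decide +kernel) (yv_nonneg hd hq (le_refl 0) (le_refl 0) (le_refl 0) (le_refl 0) (le_refl 0) (le_refl 0) (le_refl 0))
    (by
      simp only [List.forall_mem_cons, exadd, exsub, exmul, exc, exv2, exv3]
      push_cast
      refine ⟨?_, ?_, ?_, ?_, ?_, fun _ hh => absurd hh List.not_mem_nil⟩
      · linarith only [hd]
      · linarith only [hq]
      · linarith only [hd1]
      · linarith only [hdq]
      · linarith only [hlo]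
    )
  simp only [exadd, exsub, exmul, exc, exv2, exv3] at h
  push_cast at h
  linarith only [h]

theorem r3z2 {d t w : ℝ} (hd : 0 ≤ d) (ht : 0 ≤ t) (hw : 0 ≤ w) (hd1 : 0 ≤ 3 / 5 - d) (ht1 : 0 ≤ 1 - d - t) (hwt : 0 ≤ d + t - w) (hw1 : 0 ≤ 13 / 20 - w) (hlo : 0 ≤ -3 / 10 + d) :
    0 ≤ -1 / 6 + 143 / 100 * d + 1 / 2 * t - 1 / 4 * w - 3 / 4 * d ^ 2 + 3 / 4 * t ^ 2 - 1 / 2 * w ^ 2 - 1 / 12 * d ^ 3 - 1 / 2 * d ^ 2 * t - 3 / 4 * d * t ^ 2 - 1 / 3 * t ^ 3 + 1 / 12 * w ^ 3 := by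
  have h := cert (y := yv d t w 0 0 0 0 0 0)
    (gs := [(.v 2),
      (.v 3),
      (.v 5),
      (.add (.c (3)) (.mul (.c (-5)) (.v 2))),
      (.add (.c (1)) (.add (.mul (.c (-1)) (.v 2)) (.mul (.c (-1)) (.v 3)))),
      (.add (.v 2) (.add (.v 3) (.mul (.c (-1)) (.v 5)))),
      (.add (.c (13)) (.mul (.c (-20)) (.v 5))),
      (.add (.c (-3)) (.mul (.c (10)) (.v 2)))])
    (p := .mul (.c 1600000000) (.add (.add (.add (.c (-50)) (.add (.mul (.c (429)) (.v 2)) (.mul (.c (150)) (.v 3)))) (.add (.mul (.c (-225)) (.mul (.v 2) (.v 2))) (.add (.mul (.c (-75)) (.v 5)) (.mul (.c (-25)) (.mul (.mul (.v 2) (.v 2)) (.v 2)))))) (.add (.add (.mul (.c (225)) (.mul (.v 3) (.v 3))) (.add (.mul (.c (-150)) (.mul (.mul (.v 2) (.v 2)) (.v 3))) (.mul (.c (-225)) (.mul (.mul (.v 2) (.v 3)) (.v 3))))) (.add (.mul (.c (-150)) (.mul (.v 5) (.v 5))) (.add (.mul (.c (-100)) (.mul (.mul (.v 3) (.v 3)) (.v 3))) (.mul (.c (25))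 (.mul (.mul (.v 5) (.v 5)) (.v 5))))))))
    (e := (.add (.add (.mul (.g 5) (.add (.add (.mul (.g 2) (.add (.add (.pp [(1, 101364960000)]) (.mul (.g 2) (.add (.mul (.g 6) (.pp [(1, 3313344000)])) (.mul (.g 7) (.pp [(1, 1087344000)]))))) (.add (.mul (.g 4) (.add (.pp [(1, 138753600000)]) (.mul (.g 5) (.pp [(1, 91988160000)])))) (.mul (.g 5) (.mul (.g 5) (.pp [(1, 52750080000)])))))) (.mul (.g 1) (.add (.pp [(1, 348237120000)]) (.add (.mul (.g 4) (.add (.pp [(1, 99705600000)]) (.mul (.g 5) (.pp [(1, 68401440000)])))) (.mul (.g 1) (.mul (.g 7) (.pp [(1, 608064000)]))))))) (.add (.mul (.g 3) (.add (.pp [(1, 20023680000)]) (.add (.mul (.g 0) (.mul (.g 0) (.pp [(1, 2000160000)]))) (.mul (.g 5) (.mul (.g 5) (.pp [(1, 8714880000)])))))) (.mul (.g 4) (.add (.pp [(1, 211758720000)]) (.mul (.g 4) (.mul (.g 5) (.pp [(1, 68396640000)])))))))) (.add (.mul (.g 6) (.add (.add (.mul (.g 2) (.add (.pp [(1, 2759016000)])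 (.add (.mul (.g 1) (.add (.pp [(1, 231744000)]) (.mul (.g 1) (.pp [(1, 1286304000)])))) (.mul (.g 2) (.mul (.g 2) (.pp [(1, 794952000)])))))) (.mul (.g 6) (.add (.mul (.g 6) (.add (.mul (.g 6) (.pp [(1, 14859)])) (.mul (.g 7) (.pp [(1, 408762)])))) (.mul (.g 0) (.mul (.g 0) (.pp [(1, 64303200)])))))) (.add (.mul (.g 7) (.add (.pp [(1, 2475902400)]) (.mul (.g 3) (.mul (.g 3) (.pp [(1, 1595520)]))))) (.add (.mul (.g 1) (.mul (.g 1) (.mul (.g 1) (.pp [(1, 202848000)])))) (.mul (.g 4) (.mul (.g 4) (.mul (.g 4) (.pp [(1, 2164032000)])))))))) (.mul (.g 7) (.add (.add (.mul (.g 4) (.add (.pp [(1, 6586320000)]) (.add (.mul (.g 4) (.add (.mul (.g 0) (.pp [(1, 1607184000)])) (.mul (.g 4) (.pp [(1, 3220368000)])))) (.mul (.g 3) (.pp [(1, 424521600)]))))) (.mul (.g 0) (.add (.mul (.g 2) (.pp [(1, 892128000)])) (.mul (.g 3) (.pp [(1, 11836800)]))))) (.add (.mul (.g 1) (.mul (.g 1) (.mul (.g 1) (.pp [(1, 130992000)]))))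 (.mul (.g 3) (.mul (.g 3) (.mul (.g 7) (.pp [(1, 522048)]))))))))) (.pp [(1, 24456040075), (2, 3781740), (3, 4521600), (4, 6664800), (5, 4545000), (6, 6576000), (8, 3200000), (9, 5424000), (10, 4882800), (12, 2160000), (15, 4128000), (16, 5280000), (18, 2880000), (20, 5184000), (24, 6240000), (25, 5491200), (27, 4256000), (30, 6720000), (36, 6240000), (40, 4320000), (45, 5856000), (50, 3768000), (54, 5280000), (60, 2880000), (75, 4080000), (81, 4800000), (90, 3840000), (100, 5760000), (125, 4600000), (135, 4800000), (150, 5760000), (225, 4800000), (250, 4800000), (375, 4800000), (625, 4800000)])))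
    (by decide +kernel) (yv_nonneg hd ht hw (le_refl 0) (le_refl 0) (le_refl 0) (le_refl 0) (le_refl 0) (le_refl 0))
    (by
      simp only [List.forall_mem_cons, exadd, exsub, exmul, exc, exv2, exv3, exv5]
      push_cast
      refine ⟨?_, ?_, ?_, ?_, ?_, ?_, ?_, ?_, fun _ hh => absurd hh List.not_mem_nil⟩
      · linarith only [hd]
      · linarith only [ht]
      · linarith only [hw]
      · linarith only [hd1]
      · linarith only [ht1]
      · linarith only [hwt]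
      · linarith only [hw1]
      · linarith only [hlo]
    )
  simp only [exadd, exsub, exmul, exc, exv2, exv3, exv5] at h
  push_cast at h
  linarith only [h]

theorem r3m1 {d m q : ℝ} (hd : 0 ≤ d) (hm : 0 ≤ m) (hq : 0 ≤ q) (hd1 : 0 ≤ 3 / 5 - d) (hm1 : 0 ≤ d - m) (hq1 : 0 ≤ -d + m + q) (hq2 : 0 ≤ 1 - q) (hlo : 0 ≤ -3 / 10 + d) :
    0 ≤ 1 / 12 + 143 / 100 * d - 3 / 4 * m - q - 3 / 2 * d ^ 2 + d * m + 1 / 2 * m ^ 2 + m * q + q ^ 2 - 1 / 4 * d ^ 3 + 3 / 4 * d ^ 2 * m + d ^ 2 * q - 3 / 4 * d * m ^ 2 - d * m * q - d * q ^ 2 - 1 / 12 * m ^ 3 := by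
  have h := cert (y := yv d m q 0 0 0 0 0 0)
    (gs := [(.v 2),
      (.v 3),
      (.v 5),
      (.add (.c (3)) (.mul (.c (-5)) (.v 2))),
      (.add (.v 2) (.mul (.c (-1)) (.v 3))),
      (.add (.mul (.c (-1)) (.v 2)) (.add (.v 3) (.v 5))),
      (.add (.c (1)) (.mul (.c (-1)) (.v 5))),
      (.add (.c (-3)) (.mul (.c (10)) (.v 2)))])
    (p := .mul (.c 25000000) (.add (.add (.add (.add (.c (25)) (.mul (.c (429)) (.v 2))) (.add (.mul (.c (-225)) (.v 3)) (.mul (.c (-450)) (.mul (.v 2) (.v 2))))) (.add (.add (.mul (.c (-300)) (.v 5)) (.mul (.c (300)) (.mul (.v 2) (.v 3)))) (.add (.mul (.c (-75)) (.mul (.mul (.v 2) (.v 2)) (.v 2))) (.mul (.c (150)) (.mul (.v 3) (.v 3)))))) (.add (.add (.add (.mul (.c (225)) (.mul (.mul (.v 2) (.v 2)) (.v 3))) (.mul (.c (300)) (.mul (.v 3) (.v 5)))) (.add (.mul (.c (-225)) (.mul (.mul (.v 2) (.v 3)) (.v 3))) (.mul (.c (300)) (.mul (.mul (.v 2) (.v 2)) (.v 5))))) (.add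 (.add (.mul (.c (300)) (.mul (.v 5) (.v 5))) (.mul (.c (-25)) (.mul (.mul (.v 3) (.v 3)) (.v 3)))) (.add (.mul (.c (-300)) (.mul (.mul (.v 2) (.v 3)) (.v 5))) (.mul (.c (-300)) (.mul (.mul (.v 2) (.v 5)) (.v 5))))))))
    (e := (.add (.add (.add (.mul (.g 7) (.add (.add (.mul (.g 3) (.add (.add (.pp [(1, 204814350)]) (.add (.mul (.g 3) (.add (.mul (.g 3) (.pp [(1, 1497702)])) (.mul (.g 6) (.pp [(1, 512100)])))) (.mul (.g 1) (.pp [(1, 119965350)])))) (.add (.mul (.g 2) (.mul (.g 2) (.pp [(1, 23644350)]))) (.add (.mul (.g 4) (.mul (.g 4) (.pp [(1, 924600)]))) (.mul (.g 6) (.mul (.g 6) (.pp [(1, 11715300)]))))))) (.mul (.g 5) (.add (.add (.mul (.g 4) (.add (.mul (.g 4) (.pp [(1, 261833250)])) (.mul (.g 6) (.pp [(1, 353762250)])))) (.mul (.g 1) (.mul (.g 1) (.pp [(1, 12772500)])))) (.add (.mul (.g 5) (.mul (.g 7) (.pp [(1, 4400775)]))) (.mul (.g 6) (.mul (.g 6) (.pp [(1, 28588500)]))))))) (.add (.mul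 (.g 1) (.add (.pp [(1, 798996750)]) (.add (.mul (.g 1) (.mul (.g 1) (.pp [(1, 15492750)]))) (.mul (.g 2) (.mul (.g 4) (.pp [(1, 246723750)])))))) (.add (.mul (.g 6) (.add (.pp [(1, 77460000)]) (.mul (.g 2) (.mul (.g 2) (.pp [(1, 87961500)]))))) (.mul (.g 0) (.mul (.g 0) (.mul (.g 0) (.pp [(1, 171682500)])))))))) (.mul (.g 4) (.add (.add (.mul (.g 1) (.add (.mul (.g 1) (.add (.mul (.g 1) (.pp [(1, 593257500)])) (.add (.mul (.g 2) (.pp [(1, 1323135000)])) (.mul (.g 6) (.pp [(1, 1324432500)]))))) (.mul (.g 5) (.mul (.g 6) (.pp [(1, 875310000)]))))) (.mul (.g 4) (.add (.mul (.g 5) (.mul (.g 5) (.pp [(1, 1991452500)]))) (.mul (.g 6) (.mul (.g 6) (.pp [(1, 1994610000)])))))) (.add (.mul (.g 5) (.mul (.g 5) (.mul (.g 5) (.pp [(1, 2063377500)])))) (.mul (.g 6) (.mul (.g 6) (.mul (.g 6) (.pp [(1, 2062627500)])))))))) (.add (.mul (.g 5) (.mul (.g 5) (.add (.mul (.g 5) (.add (.pp [(1, 974077500)]) (.add (.mul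 (.g 3) (.pp [(1, 490293000)])) (.mul (.g 5) (.pp [(1, 165000)]))))) (.mul (.g 1) (.mul (.g 1) (.pp [(1, 664935000)])))))) (.mul (.g 6) (.mul (.g 6) (.add (.mul (.g 6) (.add (.pp [(1, 796852500)]) (.add (.mul (.g 2) (.pp [(1, 240000)])) (.mul (.g 3) (.pp [(1, 609007500)]))))) (.mul (.g 1) (.mul (.g 1) (.pp [(1, 662737500)])))))))) (.pp [(1, 317412412), (2, 83400), (3, 71400), (4, 69225), (5, 68400), (6, 71400), (8, 73500), (9, 80175), (10, 71700), (12, 83250), (15, 85800), (16, 82500), (18, 62250), (20, 84000), (24, 52500), (25, 78375), (27, 81500), (30, 72750), (36, 105000), (40, 52500), (45, 68250), (50, 64500), (54, 52500), (60, 120000), (75, 65250), (81, 82500), (90, 37500), (100, 97500), (125, 79500), (135, 90000), (150, 37500), (225, 97500), (250, 67500), (375, 90000), (625, 75000)])))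
    (by decide +kernel) (yv_nonneg hd hm hq (le_refl 0) (le_refl 0) (le_refl 0) (le_refl 0) (le_refl 0) (le_refl 0))
    (by
      simp only [List.forall_mem_cons, exadd, exsub, exmul, exc, exv2, exv3, exv5]
      push_cast
      refine ⟨?_, ?_, ?_, ?_, ?_, ?_, ?_, ?_, fun _ hh => absurd hh List.not_mem_nil⟩
      · linarith only [hd]
      · linarith only [hm]
      · linarith only [hq]
      · linarith only [hd1]
      · linarith only [hm1]
      · linarith only [hq1]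
      · linarith only [hq2]
      · linarith only [hlo]
    )
  simp only [exadd, exsub, exmul, exc, exv2, exv3, exv5] at h
  push_cast at h
  linarith only [h]

theorem r3m2 {d t q w : ℝ} (hd : 0 ≤ d) (ht : 0 ≤ t) (hq : 0 ≤ q) (hw : 0 ≤ w) (hd1 : 0 ≤ 3 / 5 - d) (ht1 : 0 ≤ 1 - d - t) (hq1 : 0 ≤ -d - t + q) (hq2 : 0 ≤ 1 - q) (hwt : 0 ≤ d + t - w) (hw1 : 0 ≤ 13 / 20 - w) (hlo : 0 ≤ -3 / 10 + d) :
    0 ≤ 1 / 12 + 42 / 25 * d + t - q - 1 / 4 * w - d ^ 2 + t ^ 2 - t * q + q ^ 2 - 1 / 2 * w ^ 2 - 1 / 3 * d ^ 3 - d ^ 2 * t + d ^ 2 * q - d * t ^ 2 + d * t * q - d * q ^ 2 - 1 / 3 * t ^ 3 + 1 / 12 * w ^ 3 := by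
  have h := cert (y := yv d t q w 0 0 0 0 0)
    (gs := [(.v 2),
      (.v 3),
      (.v 5),
      (.v 7),
      (.add (.c (3)) (.mul (.c (-5)) (.v 2))),
      (.add (.c (1)) (.add (.mul (.c (-1)) (.v 2)) (.mul (.c (-1)) (.v 3)))),
      (.add (.mul (.c (-1)) (.v 2)) (.add (.mul (.c (-1)) (.v 3)) (.v 5))),
      (.add (.c (1)) (.mul (.c (-1)) (.v 5))),
      (.add (.v 2) (.add (.v 3) (.mul (.c (-1)) (.v 7)))),
      (.add (.c (13)) (.mul (.c (-20)) (.v 7))),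
      (.add (.c (-3)) (.mul (.c (10)) (.v 2)))])
    (p := .mul (.c 4000000000) (.add (.add (.add (.add (.c (25)) (.mul (.c (504)) (.v 2))) (.add (.mul (.c (300)) (.v 3)) (.mul (.c (-300)) (.mul (.v 2) (.v 2))))) (.add (.add (.mul (.c (-300)) (.v 5)) (.mul (.c (-75)) (.v 7))) (.add (.mul (.c (-100)) (.mul (.mul (.v 2) (.v 2)) (.v 2))) (.add (.mul (.c (300)) (.mul (.v 3) (.v 3))) (.mul (.c (-300)) (.mul (.mul (.v 2) (.v 2)) (.v 3))))))) (.add (.add (.add (.mul (.c (-300)) (.mul (.v 3) (.v 5))) (.mul (.c (-300)) (.mul (.mul (.v 2) (.v 3)) (.v 3)))) (.add (.mul (.c (300)) (.mul (.mul (.v 2) (.v 2)) (.v 5))) (.mul (.c (300)) (.mul (.v 5) (.v 5))))) (.add (.add (.mul (.c (-100)) (.mul (.mul (.v 3) (.v 3)) (.v 3))) (.mul (.c (300)) (.mul (.mul (.v 2) (.v 3)) (.v 5)))) (.add (.mul (.c (-150)) (.mul (.v 7) (.v 7))) (.add (.mul (.c (-300)) (.mul (.mul (.v 2) (.v 5)) (.v 5))) (.mul (.c (25)) (.mul (.mul (.v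 7) (.v 7)) (.v 7)))))))))
    (e := (.add (.add (.add (.mul (.g 7) (.add (.add (.mul (.g 7) (.add (.add (.add (.pp [(1, 8062800000)]) (.mul (.pp [(1, 9535440)]) (.sq [(1, 100), (2, 32), (3, 43), (5, -99), (7, 86)]))) (.add (.mul (.pp [(1, 3119160)]) (.sq [(1, -75), (2, -5), (3, 100), (5, 94), (7, 94)])) (.mul (.g 3) (.add (.pp [(1, 40381200000)]) (.add (.mul (.g 6) (.pp [(1, 136161600000)])) (.mul (.g 7) (.pp [(1, 80397600000)]))))))) (.add (.add (.mul (.g 7) (.add (.pp [(1, 226276800000)]) (.mul (.g 7) (.pp [(1, 18705600000)])))) (.mul (.g 1) (.pp [(1, 242160000000)]))) (.add (.mul (.g 4) (.mul (.g 8) (.pp [(1, 56013600000)]))) (.mul (.g 6) (.mul (.g 10) (.pp [(1, 62673720000)]))))))) (.mul (.g 8) (.add (.add (.pp [(1, 422451600000)]) (.mul (.pp [(1, 408240)]) (.sq [(1, -53), (2, 100), (3, 45), (5, 87), (7, -7)]))) (.add (.mul (.pp [(1, 1013520)]) (.sq [(1, -3), (2, -100), (3, 79), (5, 11), (7, 88)]))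 (.add (.mul (.g 1) (.mul (.g 9) (.pp [(1, 9242280000)]))) (.mul (.g 3) (.mul (.g 3) (.pp [(1, 61118400000)])))))))) (.add (.mul (.g 6) (.add (.mul (.pp [(1, 21495120)]) (.sq [(1, 74), (2, -40), (3, -100), (5, -86), (7, 45)])) (.add (.mul (.g 9) (.add (.mul (.g 5) (.pp [(1, 6326820000)])) (.mul (.g 9) (.pp [(1, 255225000)])))) (.mul (.g 2) (.mul (.g 10) (.pp [(1, 72441360000)])))))) (.add (.mul (.g 10) (.add (.pp [(1, 7121400000)]) (.add (.mul (.pp [(1, 573264)]) (.sq [(1, 5), (2, -74), (3, 61), (5, 5), (7, 100)])) (.mul (.g 9) (.mul (.g 10) (.pp [(1, 336949200)])))))) (.mul (.g 1) (.add (.mul (.pp [(1, 1069320)]) (.sq [(1, -24), (2, -48), (3, 45), (5, 45), (7, 100)])) (.mul (.g 1) (.mul (.g 4) (.pp [(1, 19046400000)]))))))))) (.add (.mul (.g 8) (.add (.add (.mul (.g 5) (.add (.add (.mul (.pp [(1, 6351840)]) (.sq [(1, -7), (2, 86), (3, 60), (5, 100), (7, 27)])) (.mul (.pp [(1, 4083960)]) (.sq [(1,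 -12), (2, 100), (3, -33), (5, -8), (7, -80)]))) (.add (.mul (.pp [(1, 614520)]) (.sq [(1, -100), (2, -1), (3, -93), (5, -65), (7, 59)])) (.mul (.g 2) (.add (.pp [(1, 14697600000)]) (.mul (.g 5) (.pp [(1, 30960000000)]))))))) (.add (.mul (.g 6) (.add (.add (.mul (.pp [(1, 4557720)]) (.sq [(1, -43), (2, -42), (3, -72), (5, -47), (7, 100)])) (.mul (.pp [(1, 3048720)]) (.sq [(1, -44), (2, -8), (3, 100), (5, -70), (7, 43)]))) (.add (.mul (.pp [(1, 42066720)]) (.sq [(1, -11), (2, 20), (3, 26), (5, 50), (7, 32)])) (.mul (.g 9) (.add (.mul (.g 3) (.pp [(1, 1841220000)])) (.mul (.g 6) (.pp [(1, 2351640000)]))))))) (.mul (.g 10) (.add (.mul (.pp [(1, 1218480)]) (.sq [(1, 75), (2, -54), (3, -100), (5, -68), (7, 53)])) (.add (.mul (.g 2) (.mul (.g 9) (.pp [(1, 1444332000)]))) (.mul (.g 10) (.pp [(1, 2259456000)]))))))) (.add (.add (.mul (.g 3) (.add (.pp [(1, 520041600000)]) (.mul (.g 9) (.pp [(1, 9923640000)]))))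 (.mul (.g 4) (.add (.pp [(1, 143382960000)]) (.mul (.pp [(1, 977040)]) (.sq [(1, 55), (2, -73), (3, 74), (5, 38), (7, -100)]))))) (.add (.mul (.g 1) (.pp [(1, 524992800000)])) (.mul (.g 8) (.mul (.pp [(1, 3624480)]) (.sq [(1, -20), (2, -49), (3, 100), (5, -43), (7, 37)]))))))) (.mul (.g 9) (.add (.add (.mul (.g 10) (.add (.add (.pp [(1, 5448252000)]) (.mul (.pp [(1, 151581)]) (.sq [(1, -54), (2, 100), (3, -66), (5, 61), (7, 80)]))) (.add (.mul (.g 0) (.add (.mul (.g 4) (.pp [(1, 2454220800)])) (.mul (.g 9) (.pp [(1, 41930100)])))) (.add (.mul (.g 4) (.mul (.g 4) (.pp [(1, 361652160)]))) (.mul (.g 9) (.mul (.g 10) (.pp [(1, 4368660)]))))))) (.mul (.g 1) (.add (.mul (.pp [(1, 508374)]) (.sq [(1, -19), (2, -47), (3, 34), (5, 100), (7, 80)])) (.add (.mul (.g 9) (.add (.mul (.g 2) (.pp [(1, 864069000)])) (.mul (.g 6) (.pp [(1, 17901000)])))) (.mul (.g 3) (.mul (.g 3) (.pp [(1, 2110560000)]))))))) (.add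 (.mul (.g 3) (.mul (.g 3) (.mul (.g 3) (.pp [(1, 248700000)])))) (.mul (.g 6) (.mul (.g 6) (.mul (.g 9) (.pp [(1, 106455000)]))))))))) (.add (.mul (.g 6) (.add (.mul (.pp [(1, 3586200)]) (.sq [(1, -13), (2, -39), (3, 100), (5, 18), (7, -25)])) (.add (.mul (.g 6) (.add (.mul (.pp [(1, 7892520)]) (.sq [(1, 34), (2, 31), (3, 100), (5, -27), (7, 35)])) (.add (.mul (.g 2) (.add (.pp [(1, 103624800000)]) (.mul (.g 1) (.pp [(1, 131946000000)])))) (.mul (.g 6) (.pp [(1, 262322400000)]))))) (.mul (.g 2) (.mul (.pp [(1, 6967320)]) (.sq [(1, -63), (2, 100), (3, 72), (5, 44), (7, 44)])))))) (.add (.mul (.g 10) (.add (.add (.mul (.g 3) (.add (.mul (.pp [(1, 1191192)]) (.sq [(1, 100), (2, -90), (3, 96), (5, 10), (7, -97)])) (.add (.mul (.g 3) (.mul (.g 5) (.pp [(1, 21631800000)]))) (.mul (.g 4) (.mul (.g 10) (.pp [(1, 738381600)])))))) (.mul (.g 4) (.mul (.pp [(1, 36)]) (.sq [(1, 63), (2, -58), (3, 23), (5, -6),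 (7, 100)])))) (.add (.mul (.g 5) (.mul (.pp [(1, 97392)]) (.sq [(1, -36), (2, 100), (3, -60), (5, 30), (7, 51)]))) (.mul (.g 10) (.pp [(1, 673404000)]))))) (.mul (.g 4) (.mul (.g 5) (.mul (.pp [(1, 7746240)]) (.sq [(1, -30), (2, 50), (3, -2), (5, 35), (7, 4)]))))))) (.pp [(1, 39459127396), (2, 11080032), (3, 11247426), (4, 12805608), (5, 11556684), (6, 11904420), (7, 12664848), (8, 9481280), (9, 12337536), (10, 14837304), (12, 8669922), (14, 15631272), (15, 15107388), (16, 12568320), (18, 10320972), (20, 9145608), (21, 13755792), (24, 12289920), (25, 12880083), (27, 10975568), (28, 13185960), (30, 12250536), (35, 8221080), (36, 10597800), (40, 13260240), (42, 17203440), (45, 12097728), (49, 12043056), (50, 12369870), (54, 9629520), (56, 12440760), (60, 13805760), (63, 12800976), (70, 8501280), (75, 10758480), (81, 10563120), (84, 10972320), (90, 12946080), (98, 9350064), (100, 11965320), (105, 7222080),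 (125, 11208720), (126, 11533920), (135, 13835640), (140, 13658160), (147, 10471440), (150, 11025360), (175, 14495100), (189, 13025760), (196, 10847760), (210, 13528800), (225, 11507400), (245, 11593800), (250, 11553480), (294, 10187040), (315, 13428720), (343, 12154144), (350, 11637960), (375, 11824800), (441, 10755120), (490, 14098800), (525, 13460400), (625, 12183720), (686, 12534600), (735, 13480080), (875, 11774760), (1029, 12562200), (1225, 11777160), (1715, 12197280), (2401, 12086880)])))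
    (by decide +kernel) (yv_nonneg hd ht hq hw (le_refl 0) (le_refl 0) (le_refl 0) (le_refl 0) (le_refl 0))
    (by
      simp only [List.forall_mem_cons, exadd, exsub, exmul, exc, exv2, exv3, exv5, exv7]
      push_cast
      refine ⟨?_, ?_, ?_, ?_, ?_, ?_, ?_, ?_, ?_, ?_, ?_, fun _ hh => absurd hh List.not_mem_nil⟩
      · linarith only [hd]
      · linarith only [ht]
      · linarith only [hq]
      · linarith only [hw]
      · linarith only [hd1]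
      · linarith only [ht1]
      · linarith only [hq1]
      · linarith only [hq2]
      · linarith only [hwt]
      · linarith only [hw1]
      · linarith only [hlo]
    )
  simp only [exadd, exsub, exmul, exc, exv2, exv3, exv5, exv7] at h
  push_cast at h
  linarith only [h]

theorem r3zm {d a b : ℝ} (hd : 0 ≤ d) (ha : 0 ≤ a) (hb : 0 ≤ b) (hd1 : 0 ≤ 3 / 5 - d) (ha1 : 0 ≤ d - a) (hb1 : 0 ≤ d - b) (hab : 0 ≤ -d + a + b) (hlo : 0 ≤ -3 / 10 + d) :
    0 ≤ 1 / 12 + 59 / 50 * d - 3 / 4 * a - 3 / 4 * b - 2 * d ^ 2 + d * a + d * b + 1 / 2 * a ^ 2 + a * b + 1 / 2 * b ^ 2 - 1 / 6 * d ^ 3 + 3 / 4 * d ^ 2 * a + 3 / 4 * d ^ 2 * b - 3 / 4 * d * a ^ 2 - d * a * b - 3 / 4 * d * b ^ 2 - 1 / 12 * a ^ 3 - 1 / 12 * b ^ 3 := by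
  have h := cert (y := yv d a b 0 0 0 0 0 0)
    (gs := [(.v 2),
      (.v 3),
      (.v 5),
      (.add (.c (3)) (.mul (.c (-5)) (.v 2))),
      (.add (.v 2) (.mul (.c (-1)) (.v 3))),
      (.add (.v 2) (.mul (.c (-1)) (.v 5))),
      (.add (.mul (.c (-1)) (.v 2)) (.add (.v 3) (.v 5))),
      (.add (.c (-3)) (.mul (.c (10)) (.v 2)))])
    (p := .mul (.c 12500000) (.add (.add (.add (.add (.c (25)) (.mul (.c (354)) (.v 2))) (.add (.mul (.c (-225)) (.v 3)) (.mul (.c (-600)) (.mul (.v 2) (.v 2))))) (.add (.add (.mul (.c (-225)) (.v 5)) (.mul (.c (300)) (.mul (.v 2) (.v 3)))) (.add (.mul (.c (-50)) (.mul (.mul (.v 2) (.v 2)) (.v 2))) (.add (.mul (.c (150)) (.mul (.v 3) (.v 3))) (.mul (.c (300)) (.mul (.v 2) (.v 5))))))) (.add (.add (.add (.mul (.c (225)) (.mul (.mul (.v 2) (.v 2)) (.v 3))) (.mul (.c (300)) (.mul (.v 3) (.v 5)))) (.add (.mul (.c (-225)) (.mul (.mul (.v 2) (.v 3)) (.v 3))) (.mul (.c (225))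 (.mul (.mul (.v 2) (.v 2)) (.v 5))))) (.add (.add (.mul (.c (150)) (.mul (.v 5) (.v 5))) (.mul (.c (-25)) (.mul (.mul (.v 3) (.v 3)) (.v 3)))) (.add (.mul (.c (-300)) (.mul (.mul (.v 2) (.v 3)) (.v 5))) (.add (.mul (.c (-225)) (.mul (.mul (.v 2) (.v 5)) (.v 5))) (.mul (.c (-25)) (.mul (.mul (.v 5) (.v 5)) (.v 5)))))))))
    (e := (.add (.add (.add (.mul (.g 3) (.add (.add (.mul (.g 3) (.add (.add (.mul (.g 3) (.mul (.g 7) (.pp [(1, 168027)]))) (.mul (.g 4) (.mul (.g 4) (.pp [(1, 18772050)])))) (.add (.mul (.g 5) (.mul (.g 5) (.pp [(1, 40382400)]))) (.mul (.g 6) (.mul (.g 6) (.pp [(1, 54595050)])))))) (.add (.mul (.g 1) (.add (.mul (.g 1) (.add (.pp [(1, 29866500)]) (.mul (.g 1) (.pp [(1, 136516500)])))) (.mul (.g 6) (.mul (.g 6) (.pp [(1, 51201000)]))))) (.mul (.g 5) (.add (.pp [(1, 372589500)]) (.mul (.g 5) (.add (.pp [(1, 99549750)]) (.mul (.g 2) (.pp [(1, 5679750)])))))))) (.add (.add (.mul (.g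 4) (.add (.pp [(1, 372589500)]) (.mul (.g 4) (.pp [(1, 194247000)])))) (.mul (.g 7) (.add (.pp [(1, 8471925)]) (.mul (.g 6) (.pp [(1, 87461775)]))))) (.add (.mul (.g 0) (.mul (.g 0) (.mul (.g 0) (.pp [(1, 23426250)])))) (.mul (.g 2) (.mul (.g 2) (.mul (.g 2) (.pp [(1, 28464000)])))))))) (.mul (.g 6) (.add (.add (.mul (.g 4) (.add (.add (.mul (.g 4) (.add (.pp [(1, 366686250)]) (.mul (.g 4) (.pp [(1, 426588750)])))) (.mul (.g 1) (.pp [(1, 935261250)]))) (.add (.mul (.g 5) (.pp [(1, 676297500)])) (.mul (.g 6) (.mul (.g 6) (.pp [(1, 85286250)])))))) (.mul (.g 5) (.add (.mul (.g 0) (.mul (.g 0) (.pp [(1, 1962071250)]))) (.add (.mul (.g 5) (.mul (.g 5) (.pp [(1, 85297500)]))) (.mul (.g 6) (.pp [(1, 414971250)])))))) (.add (.mul (.g 6) (.add (.pp [(1, 721518750)]) (.mul (.g 6) (.mul (.g 6) (.pp [(1, 42637500)]))))) (.mul (.g 7) (.pp [(1, 302537625)])))))) (.add (.mul (.g 4) (.add (.mul (.g 1) (.add (.pp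 [(1, 179197500)]) (.add (.mul (.g 1) (.add (.pp [(1, 307117500)]) (.mul (.g 4) (.pp [(1, 469200000)])))) (.mul (.g 2) (.mul (.g 4) (.pp [(1, 511860000)])))))) (.mul (.g 5) (.pp [(1, 1324218750)])))) (.mul (.g 2) (.mul (.g 2) (.mul (.g 5) (.mul (.g 5) (.pp [(1, 42622500)]))))))) (.pp [(1, 402357512), (2, 39300), (3, 37350), (4, 28800), (5, 37350), (6, 44925), (8, 42875), (9, 34350), (10, 45225), (12, 39750), (15, 32850), (16, 33750), (18, 31500), (20, 37500), (24, 41250), (25, 34950), (27, 40000), (30, 27750), (36, 37500), (40, 41250), (45, 42750), (50, 34500), (54, 37500), (60, 33750), (75, 42000), (81, 37500), (90, 37500), (100, 33750), (125, 40000), (135, 37500), (150, 45000), (225, 33750), (250, 37500), (375, 33750), (625, 37500)])))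
    (by decide +kernel) (yv_nonneg hd ha hb (le_refl 0) (le_refl 0) (le_refl 0) (le_refl 0) (le_refl 0) (le_refl 0))
    (by
      simp only [List.forall_mem_cons, exadd, exsub, exmul, exc, exv2, exv3, exv5]
      push_cast
      refine ⟨?_, ?_, ?_, ?_, ?_, ?_, ?_, ?_, fun _ hh => absurd hh List.not_mem_nil⟩
      · linarith only [hd]
      · linarith only [ha]
      · linarith only [hb]
      · linarith only [hd1]
      · linarith only [ha1]
      · linarith only [hb1]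
      · linarith only [hab]
      · linarith only [hlo]
    )
  simp only [exadd, exsub, exmul, exc, exv2, exv3, exv5] at h
  push_cast at h
  linarith only [h]

theorem r3ml {d a b : ℝ} (hd : 0 ≤ d) (ha : 0 ≤ a) (hb : 0 ≤ b) (hd1 : 0 ≤ 3 / 5 - d) (ha1 : 0 ≤ d - a) (hb1 : 0 ≤ d - b) (hab : 0 ≤ -d + a + b) (hlo : 0 ≤ -3 / 10 + d) :
    0 ≤ 1 / 12 + 59 / 50 * d - 3 / 4 * a - 3 / 4 * b - 2 * d ^ 2 + d * a + d * b + 1 / 2 * a ^ 2 + a * b + 1 / 2 * b ^ 2 - 1 / 6 * d ^ 3 + 3 / 4 * d ^ 2 * a + 3 / 4 * d ^ 2 * b - 3 / 4 * d * a ^ 2 - d * a * b - 3 / 4 * d * b ^ 2 - 1 / 12 * a ^ 3 - 1 / 12 * b ^ 3 := by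
  have h := cert (y := yv d a b 0 0 0 0 0 0)
    (gs := [(.v 2),
      (.v 3),
      (.v 5),
      (.add (.c (3)) (.mul (.c (-5)) (.v 2))),
      (.add (.v 2) (.mul (.c (-1)) (.v 3))),
      (.add (.v 2) (.mul (.c (-1)) (.v 5))),
      (.add (.mul (.c (-1)) (.v 2)) (.add (.v 3) (.v 5))),
      (.add (.c (-3)) (.mul (.c (10)) (.v 2)))])
    (p := .mul (.c 12500000) (.add (.add (.add (.add (.c (25)) (.mul (.c (354)) (.v 2))) (.add (.mul (.c (-225)) (.v 3)) (.mul (.c (-600)) (.mul (.v 2) (.v 2))))) (.add (.add (.mul (.c (-225)) (.v 5)) (.mul (.c (300)) (.mul (.v 2) (.v 3)))) (.add (.mul (.c (-50)) (.mul (.mul (.v 2) (.v 2)) (.v 2))) (.add (.mul (.c (150)) (.mul (.v 3) (.v 3))) (.mul (.c (300)) (.mul (.v 2) (.v 5))))))) (.add (.add (.add (.mul (.c (225)) (.mul (.mul (.v 2) (.v 2)) (.v 3))) (.mul (.c (300)) (.mul (.v 3) (.v 5)))) (.add (.mul (.c (-225)) (.mul (.mul (.v 2) (.v 3)) (.v 3))) (.mul (.c (225))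 (.mul (.mul (.v 2) (.v 2)) (.v 5))))) (.add (.add (.mul (.c (150)) (.mul (.v 5) (.v 5))) (.mul (.c (-25)) (.mul (.mul (.v 3) (.v 3)) (.v 3)))) (.add (.mul (.c (-300)) (.mul (.mul (.v 2) (.v 3)) (.v 5))) (.add (.mul (.c (-225)) (.mul (.mul (.v 2) (.v 5)) (.v 5))) (.mul (.c (-25)) (.mul (.mul (.v 5) (.v 5)) (.v 5)))))))))
    (e := (.add (.add (.add (.mul (.g 3) (.add (.add (.mul (.g 3) (.add (.add (.mul (.g 3) (.mul (.g 7) (.pp [(1, 168027)]))) (.mul (.g 4) (.mul (.g 4) (.pp [(1, 18772050)])))) (.add (.mul (.g 5) (.mul (.g 5) (.pp [(1, 40382400)]))) (.mul (.g 6) (.mul (.g 6) (.pp [(1, 54595050)])))))) (.add (.mul (.g 1) (.add (.mul (.g 1) (.add (.pp [(1, 29866500)]) (.mul (.g 1) (.pp [(1, 136516500)])))) (.mul (.g 6) (.mul (.g 6) (.pp [(1, 51201000)]))))) (.mul (.g 5) (.add (.pp [(1, 372589500)]) (.mul (.g 5) (.add (.pp [(1, 99549750)]) (.mul (.g 2) (.pp [(1, 5679750)])))))))) (.add (.add (.mul (.g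 4) (.add (.pp [(1, 372589500)]) (.mul (.g 4) (.pp [(1, 194247000)])))) (.mul (.g 7) (.add (.pp [(1, 8471925)]) (.mul (.g 6) (.pp [(1, 87461775)]))))) (.add (.mul (.g 0) (.mul (.g 0) (.mul (.g 0) (.pp [(1, 23426250)])))) (.mul (.g 2) (.mul (.g 2) (.mul (.g 2) (.pp [(1, 28464000)])))))))) (.mul (.g 6) (.add (.add (.mul (.g 4) (.add (.add (.mul (.g 4) (.add (.pp [(1, 366686250)]) (.mul (.g 4) (.pp [(1, 426588750)])))) (.mul (.g 1) (.pp [(1, 935261250)]))) (.add (.mul (.g 5) (.pp [(1, 676297500)])) (.mul (.g 6) (.mul (.g 6) (.pp [(1, 85286250)])))))) (.mul (.g 5) (.add (.mul (.g 0) (.mul (.g 0) (.pp [(1, 1962071250)]))) (.add (.mul (.g 5) (.mul (.g 5) (.pp [(1, 85297500)]))) (.mul (.g 6) (.pp [(1, 414971250)])))))) (.add (.mul (.g 6) (.add (.pp [(1, 721518750)]) (.mul (.g 6) (.mul (.g 6) (.pp [(1, 42637500)]))))) (.mul (.g 7) (.pp [(1, 302537625)])))))) (.add (.mul (.g 4) (.add (.mul (.g 1) (.add (.pp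 [(1, 179197500)]) (.add (.mul (.g 1) (.add (.pp [(1, 307117500)]) (.mul (.g 4) (.pp [(1, 469200000)])))) (.mul (.g 2) (.mul (.g 4) (.pp [(1, 511860000)])))))) (.mul (.g 5) (.pp [(1, 1324218750)])))) (.mul (.g 2) (.mul (.g 2) (.mul (.g 5) (.mul (.g 5) (.pp [(1, 42622500)]))))))) (.pp [(1, 402357512), (2, 39300), (3, 37350), (4, 28800), (5, 37350), (6, 44925), (8, 42875), (9, 34350), (10, 45225), (12, 39750), (15, 32850), (16, 33750), (18, 31500), (20, 37500), (24, 41250), (25, 34950), (27, 40000), (30, 27750), (36, 37500), (40, 41250), (45, 42750), (50, 34500), (54, 37500), (60, 33750), (75, 42000), (81, 37500), (90, 37500), (100, 33750), (125, 40000), (135, 37500), (150, 45000), (225, 33750), (250, 37500), (375, 33750), (625, 37500)])))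
    (by decide +kernel) (yv_nonneg hd ha hb (le_refl 0) (le_refl 0) (le_refl 0) (le_refl 0) (le_refl 0) (le_refl 0))
    (by
      simp only [List.forall_mem_cons, exadd, exsub, exmul, exc, exv2, exv3, exv5]
      push_cast
      refine ⟨?_, ?_, ?_, ?_, ?_, ?_, ?_, ?_, fun _ hh => absurd hh List.not_mem_nil⟩
      · linarith only [hd]
      · linarith only [ha]
      · linarith only [hb]
      · linarith only [hd1]
      · linarith only [ha1]
      · linarith only [hb1]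
      · linarith only [hab]
      · linarith only [hlo]
    )
  simp only [exadd, exsub, exmul, exc, exv2, exv3, exv5] at h
  push_cast at h
  linarith only [h]


end Pool.Agent.Helper74.TS.RL
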