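import Pool.Agent.Helper74.TS.RowLin
import Pool.Agent.Helper74.TS.RL
import Pool.Agent.Helper74.TS.GoodOr

/-!
# Three linear bounds for a good class
-/

set_option autoImplicit false

namespace Pool.Agent.Helper74.TS

open Pool.Agent.Helper84.TS Pool.Agent.Helper23.TS Pool.Agent.Helper36.TS Pool.Agent.Helper44.TS

theorem rl1 : RLc (931 / 1000) (16 / 25) (8 / 25) 0 where
  n d q h0 _ h1 h2 h3 := by
    have := RL.r1n (d := d) (q := q) h0 (by linarith) (by linarith) (by linarith) (by linarith)
    unfold bs
    linarith
  z1 d q h0 _ h1 h2 h3 := by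
    have := RL.r1z1 (d := d) (q := q) h0 h2 (by linarith) (by linarith)
    unfold bs bb
    linarith
  z2 d t w h0 _ h1 h2 h3 h4 h5 h6 := by
    have := RL.r1z2 (d := d) (t := t) (w := w) h0 h2 h4 (by linarith) (by linarith) (by linarith)
      (by linarith)
    unfold bs bb
    linarith
  m1 d m q h0 _ h1 h2 h3 h4 h5 := by
    have := RL.r1m1 (d := d) (m := m) (q := q) h0 h2 (by linarith) (by linarith) (by linarith)
      (by linarith) (by linarith)
    unfold bs bb
    linarith
  m2 d t q w h0 _ h1 h2 h3 h4 h5 h6 h7 h8 := by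
    have := RL.r1m2 (d := d) (t := t) (q := q) (w := w) h0 h2 (by linarith) h6 (by linarith)
      (by linarith) (by linarith) (by linarith) (by linarith) (by linarith)
    unfold bs bb
    linarith
  zm d a b h0 _ h1 h2 h3 h4 h5 h6 := by
    have := RL.r1zm (d := d) (a := a) (b := b) h0 h2 h4 (by linarith) (by linarith) (by linarith)
      (by linarith)
    unfold bs bb
    linarith
  ml d a b h0 _ h1 h2 h3 h4 h5 h6 := by
    have := RL.r1ml (d := d) (a := a) (b := b) h0 h2 h4 (by linarith) (by linarith) (by linarith)
      (by linarith)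
    unfold bs bb
    linarith
  zml d q h1 h2 h3 h4 := by linarith

theorem rl2 : RLc (29 / 20) (8 / 25) (-(7 / 10)) 0 where
  n d q h0 _ h1 h2 h3 := by
    have := RL.r2n (d := d) (q := q) h0 (by linarith) (by linarith) (by linarith) (by linarith)
    unfold bs
    linarith
  z1 d q h0 _ h1 h2 h3 := by
    have := RL.r2z1 (d := d) (q := q) h0 h2 (by linarith) (by linarith)
    unfold bs bb
    linarith
  z2 d t w h0 _ h1 h2 h3 h4 h5 h6 := by
    have := RL.r2z2 (d := d) (t := t) (w := w) h0 h2 h4 (by linarith) (by linarith) (by linarith)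
      (by linarith)
    unfold bs bb
    linarith
  m1 d m q h0 _ h1 h2 h3 h4 h5 := by
    have := RL.r2m1 (d := d) (m := m) (q := q) h0 h2 (by linarith) (by linarith) (by linarith)
      (by linarith) (by linarith)
    unfold bs bb
    linarith
  m2 d t q w h0 _ h1 h2 h3 h4 h5 h6 h7 h8 := by
    have := RL.r2m2 (d := d) (t := t) (q := q) (w := w) h0 h2 (by linarith) h6 (by linarith)
      (by linarith) (by linarith) (by linarith) (by linarith) (by linarith)
    unfold bs bb
    linarith
  zm d a b h0 _ h1 h2 h3 h4 h5 h6 := by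
    have := RL.r2zm (d := d) (a := a) (b := b) h0 h2 h4 (by linarith) (by linarith) (by linarith)
      (by linarith)
    unfold bs bb
    linarith
  ml d a b h0 _ h1 h2 h3 h4 h5 h6 := by
    have := RL.r2ml (d := d) (a := a) (b := b) h0 h2 h4 (by linarith) (by linarith) (by linarith)
      (by linarith)
    unfold bs bb
    linarith
  zml d q h1 h2 h3 h4 := by linarith

theorem rl3 : RLc (3 / 4) (8 / 25) 0 (3 / 10) where
  n d q h0 h h1 h2 h3 := by
    have := RL.r3n (d := d) (q := q) h0 (by linarith) (by linarith) (by linarith) (by linarith)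
      (by linarith)
    unfold bs
    linarith
  z1 d q h0 h h1 h2 h3 := by
    have := RL.r3z1 (d := d) (q := q) h0 h2 (by linarith) (by linarith) (by linarith)
    unfold bs bb
    linarith
  z2 d t w h0 h h1 h2 h3 h4 h5 h6 := by
    have := RL.r3z2 (d := d) (t := t) (w := w) h0 h2 h4 (by linarith) (by linarith) (by linarith)
      (by linarith) (by linarith)
    unfold bs bb
    linarith
  m1 d m q h0 h h1 h2 h3 h4 h5 := by
    have := RL.r3m1 (d := d) (m := m) (q := q) h0 h2 (by linarith) (by linarith) (by linarith)
      (by linarith) (by linarith) (by linarith)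
    unfold bs bb
    linarith
  m2 d t q w h0 h h1 h2 h3 h4 h5 h6 h7 h8 := by
    have := RL.r3m2 (d := d) (t := t) (q := q) (w := w) h0 h2 (by linarith) h6 (by linarith)
      (by linarith) (by linarith) (by linarith) (by linarith) (by linarith) (by linarith)
    unfold bs bb
    linarith
  zm d a b h0 h h1 h2 h3 h4 h5 h6 := by
    have := RL.r3zm (d := d) (a := a) (b := b) h0 h2 h4 (by linarith) (by linarith) (by linarith)
      (by linarith) (by linarith)
    unfold bs bb
    linarith
  ml d a b h0 h h1 h2 h3 h4 h5 h6 := by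
    have := RL.r3ml (d := d) (a := a) (b := b) h0 h2 h4 (by linarith) (by linarith) (by linarith)
      (by linarith) (by linarith)
    unfold bs bb
    linarith
  zml d q h1 h2 h3 h4 := by linarith

end Pool.Agent.Helper74.TS
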