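import Pool.Agent.Helper74.TS.OneLow
import Pool.Agent.Helper74.TS.RowNum

/-!
# `CaseOneLow`: the cases `OL3` and `OL1BB`

Both follow from linear bounds for the single classes.
-/

set_option autoImplicit false

namespace Pool.Agent.Helper74.TS

open Pool.Agent.Helper84.TS Pool.Agent.Helper23.TS Pool.Agent.Helper36.TS Pool.Agent.Helper44.TS

section

variable {A : Fin 4 → Fin 4 → Option (Fin 4 → ℝ)} {P : Fin 4 → Fin 4 → ℝ} {a : Fin 4}

/-- the low class -/
theorem OLB.low_le (h : OLB A P a) : VV A a ≤ 19 / 27 := by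
  rcases h.low with h1 | ⟨M, hM, hd⟩
  · exact far_only h.of h1
  · have := main_big_le h.of hM hd
    linarith

theorem OLB.d0 (h : OLB A P a) {x : Fin 4} (hx : x ≠ a) : 0 ≤ P x x - 1 := by
  linarith [(h.of.cell x x _ (h.mn x hx)).one]

theorem OLB.row1 (h : OLB A P a) {x z : Fin 4} (hx : x ≠ a) (hz : z ≠ x) :
    VV A x ≤ 931 / 1000 - 16 / 25 * (P x x - 1) + 8 / 25 * (-P x z) :=
  row_lin rl1 h.of hz (h.mn x hx) (h.hd x hx) (h.d0 hx) fun j F => h.hw x j F hx

theorem OLB.row2 (h : OLB A P a) {x z : Fin 4} (hx : x ≠ a) (hz : z ≠ x) :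
    VV A x ≤ 29 / 20 - 8 / 25 * (P x x - 1) + -(7 / 10) * (-P x z) :=
  row_lin rl2 h.of hz (h.mn x hx) (h.hd x hx) (h.d0 hx) fun j F => h.hw x j F hx

theorem OLB.row3 (h : OLB A P a) {x : Fin 4} (hx : x ≠ a) (hlo : 3 / 10 ≤ P x x - 1) :
    VV A x ≤ 3 / 4 - 8 / 25 * (P x x - 1) := by
  have := row_lin rl3 h.of hx.symm (h.mn x hx) (h.hd x hx) hlo fun j F => h.hw x j F hx
  linarith

/-- `good_or` in linear form -/
theorem OLB.lin_or (h : OLB A P a) {x : Fin 4} (hx : x ≠ a) :
    VV A x ≤ 1 - 19 / 15 * (P x x - 1) ∨ VV A x ≤ 657 / 1000 := by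
  have d0 := h.d0 hx
  have d1 := h.hd x hx
  rcases good_or h.of (i := x) ⟨P x, h.mn x hx, d1, fun j F => h.hw x j F hx⟩ (h.mn x hx)
    with h1 | h1
  · left
    nlinarith [mul_nonneg d0 (by linarith : 0 ≤ 3 / 5 - (P x x - 1))]
  · exact Or.inr h1

theorem OLB.entry (h : OLB A P a) {x z : Fin 4} (hx : x ≠ a) (hz : z ≠ x) : -P x z ≤ 1 :=
  h.of.main x _ (h.mn x hx) z hz

/-- heights of sum at least `9/10` -/
theorem OLB.heights (h : OLB A P a) {p r s : Fin 4} (hn : [a, p, r, s].Nodup)
    (hd : 9 / 10 ≤ (P p p - 1) + (P r r - 1) + (P s s - 1)) : ∑ i, VV A i ≤ 613 / 200 := by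
  have n := nodup_ne hn
  have e : ∑ i, VV A i = VV A a + VV A p + VV A r + VV A s := sum4 hn _
  have ha := h.low_le
  have p0 := h.d0 n.1
  have r0 := h.d0 n.2.1
  have s0 := h.d0 n.2.2
  have p1 := h.hd p n.1
  have r1 := h.hd r n.2.1
  have s1 := h.hd s n.2.2
  rw [e]
  rcases h.lin_or n.1 with hp | hp <;> rcases h.lin_or n.2.1 with hr | hr <;>
    rcases h.lin_or n.2.2 with hs | hs <;> linarith

/-- the pair of two rows with large entries in the column `a` -/
theorem OLB.big_pair (h : OLB A P a) {x y z : Fin 4} (hn : [a, x, y, z].Nodup)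
    (hx : 9 / 20 ≤ -P x a) (hy : 9 / 20 ≤ -P y a) :
    -P x z ≤ (P x x - 1) + (P y y - 1) - 9 / 20 ∨ -P y z ≤ (P x x - 1) + (P y y - 1) - 9 / 20 := by
  have h1 := h.pair hn
  have h2 : 9 / 20 ≤ min (-P x a) (-P y a) := le_min hx hy
  rcases le_total (-P x z) (-P y z) with h3 | h3
  · rw [min_eq_left h3] at h1
    left
    linarith
  · rw [min_eq_right h3] at h1
    right
    linarith

/-- a row with two low entries: the heights are large -/
theorem OLB.two_low (h : OLB A P a) {x y z : Fin 4} (hn : [a, x, y, z].Nodup)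
    (h1 : -P x z ≤ (P x x - 1) + (P y y - 1) - 9 / 20)
    (h2 : -P x y ≤ (P x x - 1) + (P z z - 1) - 9 / 20) :
    9 / 10 ≤ (P x x - 1) + (P y y - 1) + (P z z - 1) := by
  have n := nodup_ne hn
  have e := h.sum hn
  have := h.entry n.1 n.1.symm
  linarith

/-- three rows with large entries in the column `a` -/
theorem OLB.three_big (h : OLB A P a) {p r s : Fin 4} (hn : [a, p, r, s].Nodup)
    (hp : 9 / 20 ≤ -P p a) (hr : 9 / 20 ≤ -P r a) (hs : 9 / 20 ≤ -P s a) :
    ∑ i, VV A i ≤ 613 / 200 := by
  have n := nodup_ne hn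
  have e : ∑ i, VV A i = VV A a + VV A p + VV A r + VV A s := sum4 hn _
  have ha := h.low_le
  have hpr : p ≠ r := by
    clear * - hn; revert hn; revert a p r s; decide
  have hps : p ≠ s := by
    clear * - hn; revert hn; revert a p r s; decide
  have hrs : r ≠ s := by
    clear * - hn; revert hn; revert a p r s; decide
  have n1 : [a, p, s, r].Nodup := by
    clear * - hn; revert hn; revert a p r s; decide
  have n2 : [a, r, s, p].Nodup := by
    clear * - hn; revert hn; revert a p r s; decide
  have n3 : [a, r, p, s].Nodup := by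
    clear * - hn; revert hn; revert a p r s; decide
  have n4 : [a, s, p, r].Nodup := by
    clear * - hn; revert hn; revert a p r s; decide
  have q1 := h.big_pair hn hp hr
  have q2 := h.big_pair n1 hp hs
  have q3 := h.big_pair n2 hr hs
  have pr := h.row1 n.1 hpr.symm
  have ps := h.row1 n.1 hps.symm
  have rp := h.row1 n.2.1 hpr
  have rs := h.row1 n.2.1 hrs.symm
  have sp := h.row1 n.2.2 hps
  have sr := h.row1 n.2.2 hrs
  rcases q1 with q1 | q1 <;> rcases q2 with q2 | q2
  · -- `p` twice
    exact h.heights hn (by have := h.two_low hn q1 q2; linarith)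
  · rcases q3 with q3 | q3
    · rw [e]; linarith
    · -- `s` twice
      exact h.heights hn (by
        have := h.two_low (x := s) (y := p) (z := r) n4 (by linarith) (by linarith)
        linarith)
  · rcases q3 with q3 | q3
    · -- `r` twice
      exact h.heights hn (by
        have := h.two_low (x := r) (y := p) (z := s) n3 (by linarith) (by linarith)
        linarith)
    · rw [e]; linarith
  · rcases q3 with q3 | q3
    · exact h.heights hn (by
        have := h.two_low (x := r) (y := p) (z := s) n3 (by linarith) (by linarith)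
        linarith)
    · exact h.heights hn (by
        have := h.two_low (x := s) (y := p) (z := r) n4 (by linarith) (by linarith)
        linarith)

/-- the case `OL1BB`, `r` is lower than `s` in the column `a` -/
theorem OLB.bb_aux (h : OLB A P a) {p r s : Fin 4} (hn : [a, p, r, s].Nodup)
    (hs : 1 - (P p p - 1) ≤ -P s p)
    (hm : -P r a ≤ (P r r - 1) + (P s s - 1) + (P p p - 1) - 1) : ∑ i, VV A i ≤ 613 / 200 := by
  have n := nodup_ne hn
  have e : ∑ i, VV A i = VV A a + VV A p + VV A r + VV A s := sum4 hn _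
  have ha := h.low_le
  have p0 := h.d0 n.1
  have r0 := h.d0 n.2.1
  have s0 := h.d0 n.2.2
  have p1 := h.hd p n.1
  have r1 := h.hd r n.2.1
  have s1 := h.hd s n.2.2
  have hps : p ≠ s := by
    clear * - hn; revert hn; revert a p r s; decide
  have hr := h.row1 n.2.1 n.2.1.symm
  rw [e]
  rcases le_total (P p p - 1) (1 / 3) with h1 | h1
  · have h2 := h.row2 n.2.2 hps
    rcases h.lin_or n.1 with hp | hp <;> linarith
  · have h2 := h.row3 n.1 (by linarith)
    rcases h.lin_or n.2.2 with hs' | hs' <;> linarith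

end

/-- **`S = {p, r, s}`.** -/
theorem ol3 : OL3 := fun _ _ _ _ _ _ h hn kp kr ks _ _ =>
  h.three_big hn (kp.big h).le (kr.big h).le (ks.big h).le

/-- **`S = {p}`, `p` largest in the column `a`, `r` and `s` of kind B.** -/
theorem ol1BB : OL1BB := by
  intro A P a p r s h hn _ _ _ h1 h2 h3 h4
  have n1 : [a, p, s, r].Nodup := by
    clear * - hn; revert hn; revert a p r s; decide
  have n2 : [a, r, s, p].Nodup := by
    clear * - hn; revert hn; revert a p r s; decide
  have n3 : [a, r, p, s].Nodup := by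
    clear * - hn; revert hn; revert a p r s; decide
  have n4 : [a, s, p, r].Nodup := by
    clear * - hn; revert hn; revert a p r s; decide
  have q1 := h.pair hn
  rw [min_eq_right h1, min_eq_right h3] at q1
  have q2 := h.pair n1
  rw [min_eq_right h2, min_eq_right h4] at q2
  have q3 := h.pair n2
  have e1 := h.sum n3
  have e2 := h.sum n4
  have hr : 1 - (P p p - 1) ≤ -P r p := by linarith
  have hs : 1 - (P p p - 1) ≤ -P s p := by linarith
  have hm : 1 - (P p p - 1) ≤ min (-P r p) (-P s p) := le_min hr hs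
  rcases le_total (-P r a) (-P s a) with h5 | h5
  · rw [min_eq_left h5] at q3
    exact h.bb_aux hn hs (by linarith)
  · rw [min_eq_right h5] at q3
    exact h.bb_aux n1 hr (by linarith)

end Pool.Agent.Helper74.TS
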