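import Pool.Agent.Helper74.TS.OneLowC

/-!
# `CaseOneLow`: split by the columns of the witness cells

`KB A P a z x y C`: the far cell `C = (a; z)` is of kind B on the row `x`. In the case `S = {p}` there
is such a cell with `z = r` or `z = s`.
-/

set_option autoImplicit false

namespace Pool.Agent.Helper74.TS

open Pool.Agent.Helper84.TS Pool.Agent.Helper23.TS Pool.Agent.Helper36.TS Pool.Agent.Helper44.TS

/-- `OL1A`, the witness in the column `r` -/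
def OL1Ar : Prop := ∀ (A : Fin 4 → Fin 4 → Option (Fin 4 → ℝ)) (P : Fin 4 → Fin 4 → ℝ)
  (a p r s : Fin 4) (C : Fin 4 → ℝ), OLB A P a → [a, p, r, s].Nodup → Hsm P p r s →
  KB A P a r p s C → ¬ InS A P a r → ¬ InS A P a s → (-P r a < 9 / 20 ∨ -P s a < 9 / 20) →
  -P p s ≤ -P r s → -P p r ≤ -P s r → ∑ i, VV A i ≤ 613 / 200

/-- `OL1B`, the witness in the column `r` -/
def OL1Br : Prop := ∀ (A : Fin 4 → Fin 4 → Option (Fin 4 → ℝ)) (P : Fin 4 → Fin 4 → ℝ)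
  (a p r s : Fin 4) (C : Fin 4 → ℝ), OLB A P a → [a, p, r, s].Nodup → Hsm P p r s →
  KB A P a r p s C → ¬ InS A P a r → ¬ InS A P a s → (-P r a < 9 / 20 ∨ -P s a < 9 / 20) →
  -P r s ≤ -P p s → ∑ i, VV A i ≤ 613 / 200

/-- `OL1B`, the witness in the column `s` -/
def OL1Bs : Prop := ∀ (A : Fin 4 → Fin 4 → Option (Fin 4 → ℝ)) (P : Fin 4 → Fin 4 → ℝ)
  (a p r s : Fin 4) (C : Fin 4 → ℝ), OLB A P a → [a, p, r, s].Nodup → Hsm P p r s →
  KB A P a s p r C → ¬ InS A P a r → ¬ InS A P a s → (-P r a < 9 / 20 ∨ -P s a < 9 / 20) →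
  -P r s ≤ -P p s → ∑ i, VV A i ≤ 613 / 200

/-- `OL2B`, the witness of `p` in the column `r`, the witness of `r` in the column `p` -/
def OL2Brp : Prop := ∀ (A : Fin 4 → Fin 4 → Option (Fin 4 → ℝ)) (P : Fin 4 → Fin 4 → ℝ)
  (a p r s : Fin 4) (C D : Fin 4 → ℝ), OLB A P a → [a, p, r, s].Nodup → Hsm P p r s →
  KB A P a r p s C → KB A P a p r s D → ¬ InS A P a s → -P s a < 9 / 20 →
  -P r s ≤ -P p s → ∑ i, VV A i ≤ 613 / 200

/-- `OL2B`, the witness of `p` in the column `r`, the witness of `r` in the column `s` -/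
def OL2Brs : Prop := ∀ (A : Fin 4 → Fin 4 → Option (Fin 4 → ℝ)) (P : Fin 4 → Fin 4 → ℝ)
  (a p r s : Fin 4) (C D : Fin 4 → ℝ), OLB A P a → [a, p, r, s].Nodup → Hsm P p r s →
  KB A P a r p s C → KB A P a s r p D → ¬ InS A P a s → -P s a < 9 / 20 →
  -P r s ≤ -P p s → ∑ i, VV A i ≤ 613 / 200

/-- `OL2B`, the witness of `p` in the column `s`, the witness of `r` in the column `p` -/
def OL2Bsp : Prop := ∀ (A : Fin 4 → Fin 4 → Option (Fin 4 → ℝ)) (P : Fin 4 → Fin 4 → ℝ)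
  (a p r s : Fin 4) (C D : Fin 4 → ℝ), OLB A P a → [a, p, r, s].Nodup → Hsm P p r s →
  KB A P a s p r C → KB A P a p r s D → ¬ InS A P a s → -P s a < 9 / 20 →
  -P r s ≤ -P p s → ∑ i, VV A i ≤ 613 / 200

/-- `OL2B`, one witness for `p` and `r` in the column `s` -/
def OL2Bss : Prop := ∀ (A : Fin 4 → Fin 4 → Option (Fin 4 → ℝ)) (P : Fin 4 → Fin 4 → ℝ)
  (a p r s : Fin 4) (C : Fin 4 → ℝ), OLB A P a → [a, p, r, s].Nodup → Hsm P p r s →
  KB A P a s p r C → KB A P a s r p C → ¬ InS A P a s → -P s a < 9 / 20 →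
  -P r s ≤ -P p s → ∑ i, VV A i ≤ 613 / 200

/-- the column of a witness -/
theorem InS.col {A : Fin 4 → Fin 4 → Option (Fin 4 → ℝ)} {P : Fin 4 → Fin 4 → ℝ}
    {a x y z : Fin 4} (hn : [a, x, y, z].Nodup) (h : InS A P a x) :
    (∃ C, KB A P a y x z C) ∨ ∃ C, KB A P a z x y C := by
  obtain ⟨m, n, C, k⟩ := h
  have key : ∀ {a x y z m n : Fin 4}, [a, x, y, z].Nodup → [a, m, x, n].Nodup →
      (m = y ∧ n = z) ∨ (m = z ∧ n = y) := by decide
  rcases key hn k.hn with ⟨rfl, rfl⟩ | ⟨rfl, rfl⟩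
  · exact Or.inl ⟨C, k⟩
  · exact Or.inr ⟨C, k⟩

private theorem s1 : ∀ {a p r s : Fin 4}, [a, p, r, s].Nodup → [a, p, s, r].Nodup := by decide

private theorem s2 : ∀ {a p r s : Fin 4}, [a, p, r, s].Nodup → [a, r, p, s].Nodup := by decide

theorem ol1A_of (h : OL1Ar) : OL1A := by
  intro A P a p r s hb hn hs kp kr ks h1 h2 h3
  rcases kp.col hn with ⟨C, k⟩ | ⟨C, k⟩
  · exact h A P a p r s C hb hn hs k kr ks h1 h2 h3
  · exact h A P a p s r C hb (s1 hn) (by unfold Hsm at hs ⊢; linarith) k ks kr h1.symm h3 h2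

theorem ol1B_of (h : OL1Br) (h' : OL1Bs) : OL1B := by
  intro A P a p r s hb hn hs kp kr ks h1 h2
  rcases kp.col hn with ⟨C, k⟩ | ⟨C, k⟩
  · exact h A P a p r s C hb hn hs k kr ks h1 h2
  · exact h' A P a p r s C hb hn hs k kr ks h1 h2

theorem ol2B_of (h1 : OL2Brp) (h2 : OL2Brs) (h3 : OL2Bsp) (h4 : OL2Bss) : OL2B := by
  intro A P a p r s hb hn hs kp kr ks hc ho
  rcases kp.col hn with ⟨C, k⟩ | ⟨C, k⟩
  · rcases kr.col (s2 hn) with ⟨D, l⟩ | ⟨D, l⟩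
    · exact h1 A P a p r s C D hb hn hs k l ks hc ho
    · exact h2 A P a p r s C D hb hn hs k l ks hc ho
  · rcases kr.col (s2 hn) with ⟨D, l⟩ | ⟨D, l⟩
    · exact h3 A P a p r s C D hb hn hs k l ks hc ho
    · obtain rfl : C = D := by
        have e1 := k.hC
        have e2 := l.hC
        rw [e1] at e2
        exact Option.some.inj e2
      exact h4 A P a p r s C hb hn hs k l ks hc ho

/-- **`CaseOneLow` from its cases with the columns of the witnesses.** -/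
theorem caseOneLow_of_w (h0 : OL0') (hA : OL1Ar) (hBr : OL1Br) (hBs : OL1Bs) (h1 : OL2Brp)
    (h2 : OL2Brs) (h3 : OL2Bsp) (h4 : OL2Bss) : CaseOneLow :=
  caseOneLow_of' h0 (ol1A_of hA) (ol1B_of hBr hBs) (ol2B_of h1 h2 h3 h4)

end Pool.Agent.Helper74.TS
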