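import Pool.Agent.Helper74.TS.Defs

/-!
# TS-RAM: Ramsey's theorem for coloured tournaments

PROOF. Claim: for every `g : St → ℕ` and every `W` with `6 ^ (∑ s, g s) ≤ W.card` there are a state `s` and a list `l` of
elements of `W` of length `g s` with `l.Pairwise (fun x y => x ≠ y ∧ T x y = s)`. Induction on `∑ g` (generalising `g` and `W`): if some `g s = 0` take the
empty list. Otherwise pick `v ∈ W`; the sets `W_s = {u ∈ W, u ≠ v, T v u = s}` partition `W \ {v}`, so some
`W_s` has at least `6 ^ (∑ g - 1)` elements (if all had at most `6 ^ (∑ g - 1) - 1` elements, `W.card ≤ 6 * (6 ^ (∑ g - 1) - 1) + 1`).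
Apply the induction hypothesis to `W_s` and `g - 1_s`: if the answer is the state `s`, put `v` in front. Now take `g = t` constant
(`∑ g = 6 t`): a list of length `t` with state `(k, true)` (take `q i = l.get i`) or `(k, false)` (take the reversed order: `T y x = rv (T x y)`).
-/

set_option autoImplicit false

namespace Pool.Agent.Helper74.TS

open Finset Classical

private theorem ram_claim {V : Type} [Fintype V] (T : V → V → St) :
    ∀ (m : ℕ) (g : St → ℕ), ∑ s, g s = m → ∀ W : Finset V, 6 ^ m ≤ W.card →
      ∃ (s : St) (l : List V), l.length = g s ∧ (∀ x ∈ l, x ∈ W) ∧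
        l.Pairwise (fun x y => x ≠ y ∧ T x y = s) := by
  intro m
  induction m with
  | zero =>
    intro g hg W hW
    have h0 : g (0, true) = 0 := by
      have := Finset.sum_eq_zero_iff.1 hg (0, true) (Finset.mem_univ _)
      exact this
    exact ⟨(0, true), [], by simp [h0], by simp, List.Pairwise.nil⟩
  | succ m ih =>
    intro g hg W hW
    by_cases h0 : ∃ s, g s = 0
    · obtain ⟨s, hs⟩ := h0
      exact ⟨s, [], by simp [hs], by simp, List.Pairwise.nil⟩
    push Not at h0
    have hWne : W.Nonempty := by
      rw [← Finset.card_pos]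
      exact lt_of_lt_of_le (by positivity) hW
    obtain ⟨v, hv⟩ := hWne
    let Ws : St → Finset V := fun s => (W.erase v).filter (fun u => T v u = s)
    have hsum : ∑ s, (Ws s).card = (W.erase v).card :=
      (Finset.card_eq_sum_card_fiberwise (f := fun u => T v u) (s := W.erase v)
        (t := Finset.univ) (fun _ _ => Finset.mem_coe.2 (Finset.mem_univ _))).symm
    obtain ⟨s, hs⟩ : ∃ s, 6 ^ m ≤ (Ws s).card := by
      by_contra hcon
      push Not at hcon
      have h1 : ∑ s : St, (Ws s).card ≤ ∑ s : St, (6 ^ m - 1) :=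
        Finset.sum_le_sum fun s _ => by
          have := hcon s
          omega
      rw [hsum, Finset.card_erase_of_mem hv, Finset.sum_const, Finset.card_univ] at h1
      have h2 : Fintype.card St = 6 := by simp [St]
      rw [h2, smul_eq_mul] at h1
      have h3 : 0 < 6 ^ m := by positivity
      have h4 : 6 ^ (m + 1) = 6 * 6 ^ m := by ring
      omega
    have hgs : 1 ≤ g s := Nat.one_le_iff_ne_zero.2 (h0 s)
    have hg' : ∑ s', Function.update g s (g s - 1) s' = m := by
      have h1 := Finset.sum_update_of_mem (Finset.mem_univ s) g (g s - 1)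
      have h2 := Finset.add_sum_erase Finset.univ g (Finset.mem_univ s)
      rw [h1, Finset.sdiff_singleton_eq_erase]
      omega
    obtain ⟨s', l, hl1, hl2, hl3⟩ := ih _ hg' (Ws s) hs
    have hsub : ∀ x ∈ l, x ∈ W := fun x hx =>
      Finset.mem_of_mem_erase (Finset.mem_filter.1 (hl2 x hx)).1
    by_cases hss : s' = s
    · subst hss
      rw [Function.update_self] at hl1
      refine ⟨s', v :: l, ?_, ?_, ?_⟩
      · rw [List.length_cons, hl1]
        omega
      · intro x hx
        rcases List.mem_cons.1 hx with rfl | hx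
        · exact hv
        · exact hsub x hx
      · rw [List.pairwise_cons]
        refine ⟨fun x hx => ?_, hl3⟩
        have h1 := Finset.mem_filter.1 (hl2 x hx)
        exact ⟨fun h => (Finset.mem_erase.1 h1.1).1 h.symm, h1.2⟩
    · rw [Function.update_of_ne hss] at hl1
      exact ⟨s', l, hl1, hsub, hl3⟩

theorem ramsey {V : Type} [Fintype V] {T : V → V → St} (hT : IsCT T) (t : ℕ) (W : Finset V)
    (hW : 6 ^ (6 * t) ≤ W.card) : ∃ (k : Fin 3) (q : Fin t → V), Function.Injective q ∧ (∀ i, q i ∈ W) ∧
      ∀ i j, i < j → T (q i) (q j) = (k, true) := by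
  have h6 : ∑ _s : St, t = 6 * t := by
    rw [Finset.sum_const, Finset.card_univ, smul_eq_mul]
    congr 1
  obtain ⟨⟨k, b⟩, l, hl1, hl2, hl3⟩ := ram_claim T (6 * t) (fun _ => t) h6 W hW
  obtain ⟨l', h1, h2, h3⟩ : ∃ l' : List V, l'.length = t ∧ (∀ x ∈ l', x ∈ W) ∧
      l'.Pairwise (fun x y => x ≠ y ∧ T x y = (k, true)) := by
    cases b with
    | true => exact ⟨l, hl1, hl2, hl3⟩
    | false =>
      refine ⟨l.reverse, by rw [List.length_reverse, hl1],
        fun x hx => hl2 x (List.mem_reverse.1 hx), ?_⟩
      rw [List.pairwise_reverse]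
      refine hl3.imp ?_
      rintro x y ⟨hxy, hT'⟩
      refine ⟨hxy.symm, ?_⟩
      rw [hT.2 x y hxy, hT']
      rfl
  have hp := List.pairwise_iff_get.1 h3
  refine ⟨k, fun i => l'.get (Fin.cast h1.symm i), ?_, fun i => h2 _ (List.get_mem _ _), ?_⟩
  · intro i j hij
    by_contra hne
    rcases lt_or_gt_of_ne hne with h | h
    · exact (hp (Fin.cast h1.symm i) (Fin.cast h1.symm j) (by simpa using h)).1 hij
    · exact (hp (Fin.cast h1.symm j) (Fin.cast h1.symm i) (by simpa using h)).1 hij.symm
  · intro i j hij
    exact (hp (Fin.cast h1.symm i) (Fin.cast h1.symm j) (by simpa using hij)).2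

end Pool.Agent.Helper74.TS
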