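import Pool.Agent.Helper74.TS.Defs

/-!
# TS-RES: restriction to subsets, and exponential moments

PROOF of `CR_card`: transport along `Fintype.equivFin V`. `CR_restrict`: clear. `extend_one`: the map `T ↦ (T restricted to V \ {v}, u ↦ T v u)` is injective on `IsCT`.
`extend_two`: the same with two vertices `a`, `b`, `T a b` fixed.
`markov`: `∑ over all s of ∏ w (s u) = (∑ x, w x) ^ card W` (`Finset.prod_univ_sum`, `Fintype.piFinset_univ`, `Finset.sum_pow` ...), each `s` in the set contributes at least `c`.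
-/

set_option autoImplicit false

namespace Pool.Agent.Helper74.TS

open Finset Classical

private theorem res_comap {U V : Type} [Fintype U] [Fintype V] (g : U → V)
    (hg : Function.Injective g) {T : V → V → St} (hT : T ∈ CR V) :
    (fun x y => T (g x) (g y)) ∈ CR U := by
  rw [mem_CR] at hT ⊢
  obtain ⟨⟨h1, h2⟩, h3⟩ := hT
  refine ⟨⟨fun u => h1 (g u), fun u v huv => h2 (g u) (g v) fun h => huv (hg h)⟩, ?_⟩
  intro a b c hab hbc hac
  exact h3 (g a) (g b) (g c) (fun h => hab (hg h)) (fun h => hbc (hg h)) (fun h => hac (hg h))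

theorem CR_card (V : Type) [Fintype V] : (CR V).card = A (Fintype.card V) := by
  unfold A
  have e := Fintype.equivFin V
  refine Finset.card_bij' (fun T _ x y => T (e.symm x) (e.symm y)) (fun T _ u v => T (e u) (e v))
    ?_ ?_ ?_ ?_
  · intro T hT
    exact res_comap e.symm e.symm.injective hT
  · intro T hT
    exact res_comap e e.injective hT
  · intro T _
    funext u v
    simp only [Equiv.symm_apply_apply]
  · intro T _
    funext u v
    simp only [Equiv.apply_symm_apply]

theorem CR_restrict {V : Type} [Fintype V] {T : V → V → St} (hT : T ∈ CR V) (p : V → Prop) [Fintype {u // p u}] :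
    (fun x y : {u // p u} => T x.1 y.1) ∈ CR {u // p u} :=
  res_comap Subtype.val Subtype.val_injective hT

/-- the number of `T` whose state vector at `v` lies in `S` -/
theorem extend_one (n : ℕ) (v : Fin (n + 1)) (S : Finset ({u : Fin (n + 1) // u ≠ v} → St)) :
    ((CR (Fin (n + 1))).filter (fun T => (fun u : {u : Fin (n + 1) // u ≠ v} => T v u.1) ∈ S)).card ≤ A n * S.card := by
  have hcard : Fintype.card {u : Fin (n + 1) // u ≠ v} = n := by
    rw [Fintype.card_subtype_compl, Fintype.card_subtype_eq, Fintype.card_fin]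
    rfl
  have h1 : (CR {u : Fin (n + 1) // u ≠ v}).card = A n := by
    rw [CR_card, hcard]
  rw [← h1, ← Finset.card_product]
  refine Finset.card_le_card_of_injOn (fun T => ((fun x y : {u : Fin (n + 1) // u ≠ v} => T x.1 y.1),
    (fun u : {u : Fin (n + 1) // u ≠ v} => T v u.1))) ?_ ?_
  · intro T hT
    rw [Finset.mem_coe, Finset.mem_filter] at hT
    rw [Finset.mem_coe, Finset.mem_product]
    exact ⟨CR_restrict hT.1 _, hT.2⟩
  · intro T hT T' hT' h
    rw [Finset.mem_coe, Finset.mem_filter, mem_CR] at hT hT'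
    obtain ⟨⟨⟨a1, a2⟩, _⟩, _⟩ := hT
    obtain ⟨⟨⟨b1, b2⟩, _⟩, _⟩ := hT'
    simp only [Prod.mk.injEq] at h
    obtain ⟨h2, h3⟩ := h
    have key : ∀ w, w ≠ v → T v w = T' v w := fun w hw => congrFun h3 ⟨w, hw⟩
    funext u w
    by_cases hu : u = v
    · subst hu
      by_cases hw : w = u
      · subst hw
        rw [a1, b1]
      · exact key w hw
    · by_cases hw : w = v
      · subst hw
        rw [a2 w u (Ne.symm hu), b2 w u (Ne.symm hu), key u hu]
      · exact congrFun (congrFun h2 ⟨u, hu⟩) ⟨w, hw⟩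

/-- the number of `T` with given state of `(a, b)` and state vectors at `a` and `b` in `S` -/
theorem extend_two (n : ℕ) (a b : Fin (n + 2)) (hab : a ≠ b) (x : St)
    (S : Finset ({u : Fin (n + 2) // u ≠ a ∧ u ≠ b} → St × St)) :
    ((CR (Fin (n + 2))).filter (fun T => T a b = x ∧
      (fun u : {u : Fin (n + 2) // u ≠ a ∧ u ≠ b} => (T a u.1, T b u.1)) ∈ S)).card ≤ A n * S.card := by
  have hcard : Fintype.card {u : Fin (n + 2) // u ≠ a ∧ u ≠ b} = n := by
    rw [Fintype.card_subtype]
    have h1 : (univ.filter fun u : Fin (n + 2) => u ≠ a ∧ u ≠ b) = (univ.erase a).erase b := by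
      ext u
      simp only [Finset.mem_filter, Finset.mem_univ, true_and, Finset.mem_erase, and_true]
      tauto
    rw [h1, Finset.card_erase_of_mem, Finset.card_erase_of_mem (Finset.mem_univ _), Finset.card_univ,
      Fintype.card_fin]
    · rfl
    · rw [Finset.mem_erase]
      exact ⟨hab.symm, Finset.mem_univ _⟩
  have h1 : (CR {u : Fin (n + 2) // u ≠ a ∧ u ≠ b}).card = A n := by
    rw [CR_card, hcard]
  rw [← h1, ← Finset.card_product]
  refine Finset.card_le_card_of_injOn
    (fun T => ((fun x y : {u : Fin (n + 2) // u ≠ a ∧ u ≠ b} => T x.1 y.1),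
    (fun u : {u : Fin (n + 2) // u ≠ a ∧ u ≠ b} => (T a u.1, T b u.1)))) ?_ ?_
  · intro T hT
    rw [Finset.mem_coe, Finset.mem_filter] at hT
    rw [Finset.mem_coe, Finset.mem_product]
    exact ⟨CR_restrict hT.1 _, hT.2.2⟩
  · intro T hT T' hT' h
    rw [Finset.mem_coe, Finset.mem_filter, mem_CR] at hT hT'
    obtain ⟨⟨⟨a1, a2⟩, _⟩, a3, _⟩ := hT
    obtain ⟨⟨⟨b1, b2⟩, _⟩, b3, _⟩ := hT'
    simp only [Prod.mk.injEq] at h
    obtain ⟨h2, h3⟩ := h
    have key : ∀ w, w ≠ a → w ≠ b → T a w = T' a w ∧ T b w = T' b w := fun w hw hw' =>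
      Prod.ext_iff.1 (congrFun h3 ⟨w, hw, hw'⟩)
    have k1 : ∀ w, w ≠ a → T a w = T' a w := by
      intro w hw
      by_cases hw' : w = b
      · subst hw'
        rw [a3, b3]
      · exact (key w hw hw').1
    have k2 : ∀ w, w ≠ b → T b w = T' b w := by
      intro w hw
      by_cases hw' : w = a
      · subst hw'
        rw [a2 w b hab, b2 w b hab, a3, b3]
      · exact (key w hw' hw).2
    funext u w
    by_cases huw : u = w
    · subst huw
      rw [a1, b1]
    by_cases hu : u = a
    · rw [hu]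
      exact k1 w fun h => huw (hu.trans h.symm)
    by_cases hu' : u = b
    · rw [hu']
      exact k2 w fun h => huw (hu'.trans h.symm)
    by_cases hw : w = a
    · rw [a2 w u (Ne.symm huw), b2 w u (Ne.symm huw), hw, k1 u hu]
    by_cases hw' : w = b
    · rw [a2 w u (Ne.symm huw), b2 w u (Ne.symm huw), hw', k2 u hu']
    exact congrFun (congrFun h2 ⟨u, hu, hu'⟩) ⟨w, hw, hw'⟩

/-- exponential Markov inequality -/
theorem markov {W α : Type} [Fintype W] [Fintype α] (w : α → ℝ) (hw : ∀ x, 0 ≤ w x) (c : ℝ)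
    (S : Finset (W → α)) (hS : ∀ s ∈ S, c ≤ ∏ u, w (s u)) : c * S.card ≤ (∑ x, w x) ^ Fintype.card W := by
  have h1 : (∑ x, w x) ^ Fintype.card W = ∑ s : W → α, ∏ u, w (s u) := by
    have h2 := Finset.prod_univ_sum (fun _ : W => (Finset.univ : Finset α)) (fun _ x => w x)
    rw [Fintype.piFinset_univ] at h2
    rw [← h2, Finset.prod_const, Finset.card_univ]
  rw [h1]
  calc c * S.card = ∑ _s ∈ S, c := by rw [Finset.sum_const, nsmul_eq_mul, mul_comm]
    _ ≤ ∑ s ∈ S, ∏ u, w (s u) := Finset.sum_le_sum hS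
    _ ≤ ∑ s : W → α, ∏ u, w (s u) := by
        apply Finset.sum_le_sum_of_subset_of_nonneg (Finset.subset_univ _)
        intro s _ _
        exact Finset.prod_nonneg fun u _ => hw _

end Pool.Agent.Helper74.TS
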