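import Pool.Agent.Helper44.TS.MainBig
import Pool.Agent.Helper84.TS.Cases

/-!
# Linear bounds for a good class

`RLc A C B lo` is a list of polynomial inequalities; `row_lin`: if it holds, then
`VV A i ≤ A - C d + B q_j` for every good class `i` with `lo ≤ d` (`d` the height of the main cell,
`q_j` its entry in the column `j ≠ i`), with any number of far cells.
-/

set_option autoImplicit false

namespace Pool.Agent.Helper74.TS

open Pool.Agent.Helper84.TS Pool.Agent.Helper23.TS Pool.Agent.Helper36.TS Pool.Agent.Helper44.TS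

/-- the constant of a main cell -/
noncomputable def bs (d : ℝ) : ℝ := 7 / 6 - 3 / 2 * d + d ^ 2 / 2 - d ^ 3 / 6

/-- **The polynomial inequalities.** -/
structure RLc (A C B lo : ℝ) : Prop where
  n : ∀ d q : ℝ, 0 ≤ d → lo ≤ d → d ≤ 3 / 5 → d ≤ q → q ≤ 1 →
    bs d - (1 - d) * (q ^ 2 + (1 + d - q) ^ 2 / 2) / 2 ≤ A - C * d + B * q
  z1 : ∀ d q : ℝ, 0 ≤ d → lo ≤ d → d ≤ 3 / 5 → 0 ≤ q → q ≤ d →
    bs d - (1 - d) * (q ^ 2 + (1 + d - q) ^ 2 / 2) / 2 + bb (d - q) ≤ A - C * d + B * q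
  z2 : ∀ d t w : ℝ, 0 ≤ d → lo ≤ d → d ≤ 3 / 5 → 0 ≤ t → t ≤ 1 - d → 0 ≤ w → w ≤ d + t →
    w ≤ 13 / 20 →
    bs d - (1 - d) * (t ^ 2 + (1 + d + t) ^ 2 / 2) / 2 + t ^ 3 / 3 + bb w ≤ A - C * d - B * t
  m1 : ∀ d m q : ℝ, 0 ≤ d → lo ≤ d → d ≤ 3 / 5 → 0 ≤ m → m ≤ d → d - m ≤ q → q ≤ 1 →
    bs d - (1 - d) * (m ^ 2 + q ^ 2 + (1 + d - m - q) ^ 2) / 2 + bb (d - m) ≤ A - C * d + B * q
  m2 : ∀ d t q w : ℝ, 0 ≤ d → lo ≤ d → d ≤ 3 / 5 → 0 ≤ t → t ≤ 1 - d → d + t ≤ q → q ≤ 1 →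
    0 ≤ w → w ≤ d + t → w ≤ 13 / 20 →
    bs d - (1 - d) * (t ^ 2 + q ^ 2 + (1 + d + t - q) ^ 2) / 2 + t ^ 3 / 3 + bb w ≤
      A - C * d + B * q
  zm : ∀ d a b : ℝ, 0 ≤ d → lo ≤ d → d ≤ 3 / 5 → 0 ≤ a → a ≤ d → 0 ≤ b → b ≤ d → d ≤ a + b →
    bs d - (1 - d) * (a ^ 2 + b ^ 2 + (1 + d - a - b) ^ 2) / 2 + bb (d - a) + bb (d - b) ≤
      A - C * d + B * a
  ml : ∀ d a b : ℝ, 0 ≤ d → lo ≤ d → d ≤ 3 / 5 → 0 ≤ a → a ≤ d → 0 ≤ b → b ≤ d → d ≤ a + b →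
    bs d - (1 - d) * (a ^ 2 + b ^ 2 + (1 + d - a - b) ^ 2) / 2 + bb (d - a) + bb (d - b) ≤
      A - C * d + B * (1 + d - a - b)
  zml : ∀ d q : ℝ, 1 / 2 ≤ d → d ≤ 3 / 5 → 1 - d ≤ q → q ≤ d → 13 / 30 ≤ A - C * d + B * q

section

variable {A C B lo : ℝ}

/-- a far cell in the column `j` -/
theorem RLc.one_z (R : RLc A C B lo) {i j k l : Fin 4} {v : Fin 4 → ℝ} {w : ℝ} (hv : IsCell i v)
    (hn : [i, j, k, l].Nodup) (hm : ∀ m, m ≠ i → -v m ≤ 1) (hlo : lo ≤ v i - 1)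
    (hd : v i - 1 < 3 / 5) (w0 : 0 ≤ w) (w1 : w ≤ 13 / 20) (hw : w ≤ v j + (v i - 1)) :
    fcl i v + bb w ≤ A - C * (v i - 1) + B * (-v j) := by
  obtain ⟨a1, a2, a3, a4, a5, a6, a7, a8, a9⟩ := cell_lin hv hn
  obtain ⟨b1, b2, b3⟩ := main_ent hn hm
  have hk0 : v k ≤ 0 := by linarith
  have hl0 : v l ≤ 0 := by linarith
  rw [main_f hn hm, max_eq_right hk0, max_eq_right hl0]
  obtain ⟨d, hd'⟩ : ∃ d, d = v i - 1 := ⟨_, rfl⟩
  obtain ⟨r, hr⟩ : ∃ r, r = v j := ⟨_, rfl⟩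
  rw [← hd', ← hr]
  rw [← hd'] at hlo hd
  have e : v l = -(1 + d + r + v k) := by rw [hd', hr]; linarith
  rw [e]
  have hd0 : 0 ≤ d := by linarith
  have sq : 0 ≤ (1 - d) * (v k + (1 + d + r) / 2) ^ 2 :=
    mul_nonneg (by linarith) (sq_nonneg _)
  have key : (1 - d) * (r ^ 2 + (1 + d + r) ^ 2 / 2) / 2 ≤
      (1 - d) * (r ^ 2 + (v k) ^ 2 + (-(1 + d + r + v k)) ^ 2) / 2 := by nlinarith [sq]
  rcases le_total r 0 with r0 | r0
  · rw [max_eq_right r0]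
    have h1 := R.z1 d (-r) hd0 hlo hd.le (by linarith) (by linarith)
    have h2 : bb w ≤ bb (d - -r) := bb_mono w0 (by linarith) (by linarith)
    have e1 : (-r) ^ 2 + (1 + d - -r) ^ 2 / 2 = r ^ 2 + (1 + d + r) ^ 2 / 2 := by ring
    rw [e1] at h1
    unfold bs at h1
    have z3 : (0 : ℝ) ^ 3 = 0 := by norm_num
    rw [z3]
    linarith
  · rw [max_eq_left r0]
    have h1 := R.z2 d r w hd0 hlo hd.le r0 (by linarith) w0 (by linarith) w1
    unfold bs at h1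
    have z3 : (0 : ℝ) ^ 3 = 0 := by norm_num
    rw [z3]
    linarith

/-- a far cell in the column `k` -/
theorem RLc.one_m (R : RLc A C B lo) {i j k l : Fin 4} {v : Fin 4 → ℝ} {w : ℝ} (hv : IsCell i v)
    (hn : [i, j, k, l].Nodup) (hm : ∀ m, m ≠ i → -v m ≤ 1) (hlo : lo ≤ v i - 1)
    (hd : v i - 1 < 3 / 5) (w0 : 0 ≤ w) (w1 : w ≤ 13 / 20) (hw : w ≤ v k + (v i - 1)) :
    fcl i v + bb w ≤ A - C * (v i - 1) + B * (-v j) := by
  obtain ⟨a1, a2, a3, a4, a5, a6, a7, a8, a9⟩ := cell_lin hv hn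
  obtain ⟨b1, b2, b3⟩ := main_ent hn hm
  have hj0 : v j ≤ 0 := by linarith
  have hl0 : v l ≤ 0 := by linarith
  rw [main_f hn hm, max_eq_right hj0, max_eq_right hl0]
  obtain ⟨d, hd'⟩ : ∃ d, d = v i - 1 := ⟨_, rfl⟩
  obtain ⟨r, hr⟩ : ∃ r, r = v k := ⟨_, rfl⟩
  obtain ⟨q, hq⟩ : ∃ q, q = -v j := ⟨_, rfl⟩
  have ej : v j = -q := by linarith
  rw [← hd', ← hr, ej]
  rw [← hd'] at hlo hd
  have e : v l = -(1 + d + r - q) := by rw [hd', hr, hq]; linarith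
  rw [e]
  have hd0 : 0 ≤ d := by linarith
  have z3 : (0 : ℝ) ^ 3 = 0 := by norm_num
  rcases le_total r 0 with r0 | r0
  · rw [max_eq_right r0]
    have h1 := R.m1 d (-r) q hd0 hlo hd.le (by linarith) (by linarith) (by linarith) (by linarith)
    have h2 : bb w ≤ bb (d - -r) := bb_mono w0 (by linarith) (by linarith)
    have e1 : (-r) ^ 2 + q ^ 2 + (1 + d - -r - q) ^ 2 =
        (-q) ^ 2 + r ^ 2 + (-(1 + d + r - q)) ^ 2 := by ring
    rw [e1] at h1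
    unfold bs at h1
    rw [z3, neg_neg]
    linarith
  · rw [max_eq_left r0]
    have h1 := R.m2 d r q w hd0 hlo hd.le r0 (by linarith) (by linarith) (by linarith) w0
      (by linarith) w1
    have e1 : r ^ 2 + q ^ 2 + (1 + d + r - q) ^ 2 =
        (-q) ^ 2 + r ^ 2 + (-(1 + d + r - q)) ^ 2 := by ring
    rw [e1] at h1
    unfold bs at h1
    rw [z3, neg_neg]
    linarith

theorem bb_zero : bb 0 = 0 := by norm_num [bb]

/-- no far cell -/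
theorem RLc.none (R : RLc A C B lo) {i j k l : Fin 4} {v : Fin 4 → ℝ} (hv : IsCell i v)
    (hn : [i, j, k, l].Nodup) (hm : ∀ m, m ≠ i → -v m ≤ 1) (hlo : lo ≤ v i - 1)
    (hd : v i - 1 < 3 / 5) : fcl i v ≤ A - C * (v i - 1) + B * (-v j) := by
  obtain ⟨a1, a2, a3, a4, a5, a6, a7, a8, a9⟩ := cell_lin hv hn
  obtain ⟨b1, b2, b3⟩ := main_ent hn hm
  have hn' : [i, j, l, k].Nodup := perm_kl hn
  rcases le_total 0 (v j + (v i - 1)) with h1 | h1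
  · have := R.one_z hv hn hm hlo hd le_rfl (by norm_num) h1
    rw [bb_zero] at this
    linarith
  rcases le_total 0 (v k + (v i - 1)) with h2 | h2
  · have := R.one_m hv hn hm hlo hd le_rfl (by norm_num) h2
    rw [bb_zero] at this
    linarith
  rcases le_total 0 (v l + (v i - 1)) with h3 | h3
  · have := R.one_m hv hn' hm hlo hd le_rfl (by norm_num) h3
    rw [bb_zero] at this
    linarith
  · rw [main_f hn hm, max_eq_right (by linarith : v j ≤ 0), max_eq_right (by linarith : v k ≤ 0),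
      max_eq_right (by linarith : v l ≤ 0)]
    obtain ⟨d, hd'⟩ : ∃ d, d = v i - 1 := ⟨_, rfl⟩
    obtain ⟨q, hq⟩ : ∃ q, q = -v j := ⟨_, rfl⟩
    have ej : v j = -q := by linarith
    rw [← hd', ej]
    rw [← hd'] at hlo hd
    have e : v l = -(1 + d - q + v k) := by rw [hd', hq]; linarith
    rw [e]
    have hd0 : 0 ≤ d := by linarith
    have z3 : (0 : ℝ) ^ 3 = 0 := by norm_num
    have sq : 0 ≤ (1 - d) * (v k + (1 + d - q) / 2) ^ 2 :=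
      mul_nonneg (by linarith) (sq_nonneg _)
    have key : (1 - d) * (q ^ 2 + (1 + d - q) ^ 2 / 2) / 2 ≤
        (1 - d) * ((-q) ^ 2 + (v k) ^ 2 + (-(1 + d - q + v k)) ^ 2) / 2 := by nlinarith [sq]
    have h4 := R.n d q hd0 hlo hd.le (by linarith) (by linarith)
    unfold bs at h4
    rw [z3, neg_neg]
    linarith

/-- far cells in the columns `j` and `k` -/
theorem RLc.two_zm (R : RLc A C B lo) {i j k l : Fin 4} {v : Fin 4 → ℝ} {w w' : ℝ}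
    (hv : IsCell i v) (hn : [i, j, k, l].Nodup) (hm : ∀ m, m ≠ i → -v m ≤ 1)
    (hlo : lo ≤ v i - 1) (hd : v i - 1 < 3 / 5) (w0 : 0 ≤ w) (w0' : 0 ≤ w')
    (hw : w ≤ v j + (v i - 1)) (hw' : w' ≤ v k + (v i - 1)) :
    fcl i v + bb w + bb w' ≤ A - C * (v i - 1) + B * (-v j) := by
  obtain ⟨a1, a2, a3, a4, a5, a6, a7, a8, a9⟩ := cell_lin hv hn
  obtain ⟨b1, b2, b3⟩ := main_ent hn hm
  rw [main_f hn hm, max_eq_right (by linarith : v j ≤ 0), max_eq_right (by linarith : v k ≤ 0),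
    max_eq_right (by linarith : v l ≤ 0)]
  obtain ⟨d, hd'⟩ : ∃ d, d = v i - 1 := ⟨_, rfl⟩
  obtain ⟨a, ha⟩ : ∃ a, a = -v j := ⟨_, rfl⟩
  obtain ⟨b, hb⟩ : ∃ b, b = -v k := ⟨_, rfl⟩
  have ej : v j = -a := by linarith
  have ek : v k = -b := by linarith
  rw [← hd', ej, ek]
  rw [← hd'] at hlo hd
  have e : v l = -(1 + d - a - b) := by rw [hd', ha, hb]; linarith
  rw [e]
  have z3 : (0 : ℝ) ^ 3 = 0 := by norm_num
  have h1 := R.zm d a b (by linarith) hlo hd.le (by linarith) (by linarith) (by linarith)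
    (by linarith) (by linarith)
  have h2 : bb w ≤ bb (d - a) := bb_mono w0 (by linarith) (by linarith)
  have h3 : bb w' ≤ bb (d - b) := bb_mono w0' (by linarith) (by linarith)
  have e1 : a ^ 2 + b ^ 2 + (1 + d - a - b) ^ 2 =
      (-a) ^ 2 + (-b) ^ 2 + (-(1 + d - a - b)) ^ 2 := by ring
  rw [e1] at h1
  unfold bs at h1
  rw [z3, neg_neg]
  linarith

/-- far cells in the columns `k` and `l` -/
theorem RLc.two_ml (R : RLc A C B lo) {i j k l : Fin 4} {v : Fin 4 → ℝ} {w w' : ℝ}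
    (hv : IsCell i v) (hn : [i, j, k, l].Nodup) (hm : ∀ m, m ≠ i → -v m ≤ 1)
    (hlo : lo ≤ v i - 1) (hd : v i - 1 < 3 / 5) (w0 : 0 ≤ w) (w0' : 0 ≤ w')
    (hw : w ≤ v k + (v i - 1)) (hw' : w' ≤ v l + (v i - 1)) :
    fcl i v + bb w + bb w' ≤ A - C * (v i - 1) + B * (-v j) := by
  obtain ⟨a1, a2, a3, a4, a5, a6, a7, a8, a9⟩ := cell_lin hv hn
  obtain ⟨b1, b2, b3⟩ := main_ent hn hm
  rw [main_f hn hm, max_eq_right (by linarith : v j ≤ 0), max_eq_right (by linarith : v k ≤ 0),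
    max_eq_right (by linarith : v l ≤ 0)]
  obtain ⟨d, hd'⟩ : ∃ d, d = v i - 1 := ⟨_, rfl⟩
  obtain ⟨a, ha⟩ : ∃ a, a = -v k := ⟨_, rfl⟩
  obtain ⟨b, hb⟩ : ∃ b, b = -v l := ⟨_, rfl⟩
  have ek : v k = -a := by linarith
  have el : v l = -b := by linarith
  rw [← hd', ek, el]
  rw [← hd'] at hlo hd
  have e : v j = -(1 + d - a - b) := by rw [hd', ha, hb]; linarith
  rw [e]
  have z3 : (0 : ℝ) ^ 3 = 0 := by norm_num
  have h1 := R.ml d a b (by linarith) hlo hd.le (by linarith) (by linarith) (by linarith)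
    (by linarith) (by linarith)
  have h2 : bb w ≤ bb (d - a) := bb_mono w0 (by linarith) (by linarith)
  have h3 : bb w' ≤ bb (d - b) := bb_mono w0' (by linarith) (by linarith)
  have e1 : a ^ 2 + b ^ 2 + (1 + d - a - b) ^ 2 =
      (-(1 + d - a - b)) ^ 2 + (-a) ^ 2 + (-b) ^ 2 := by ring
  rw [e1] at h1
  unfold bs at h1
  rw [z3, neg_neg]
  linarith

/-- three far cells -/
theorem RLc.three (R : RLc A C B lo) {i j k l : Fin 4} {v : Fin 4 → ℝ} {w w' w'' : ℝ}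
    (hv : IsCell i v) (hn : [i, j, k, l].Nodup) (hm : ∀ m, m ≠ i → -v m ≤ 1)
    (hd : v i - 1 < 3 / 5) (w0 : 0 ≤ w) (w0' : 0 ≤ w') (w0'' : 0 ≤ w'')
    (hw : w ≤ v j + (v i - 1)) (hw' : w' ≤ v k + (v i - 1)) (hw'' : w'' ≤ v l + (v i - 1)) :
    fcl i v + bb w + bb w' + bb w'' ≤ A - C * (v i - 1) + B * (-v j) := by
  obtain ⟨a1, a2, a3, a4, a5, a6, a7, a8, a9⟩ := cell_lin hv hn
  have hf := main_d hv hm
  have hR := R.zml (v i - 1) (-v j) (by linarith) hd.le (by linarith) (by linarith)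
  obtain ⟨d, hd'⟩ : ∃ d, d = v i - 1 := ⟨_, rfl⟩
  rw [← hd'] at hd hf
  have hs : w + w' + w'' ≤ 1 / 5 := by linarith
  have hd2 : 1 / 2 ≤ d := by linarith
  have h1 := bb_add w0 w0' (by linarith)
  have h2 := bb_add (by linarith : 0 ≤ w + w') w0'' (by linarith)
  have h3 : bb (w + w' + w'') ≤ bb (1 / 5) := bb_mono (by linarith) hs (by norm_num)
  have h4 : bb (1 / 5) ≤ 1 / 10 := by unfold bb; norm_num
  have h5 : (1 - d) * (1 - 2 / 3 * d) ≤ 1 / 3 := by nlinarith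
  linarith

end

variable {A : Fin 4 → Fin 4 → Option (Fin 4 → ℝ)}

/-- a far cell of a good class -/
theorem gfar' (h : OF A) {i j : Fin 4} (hj : j ≠ i) {v F : Fin 4 → ℝ}
    (hv : A i i = some v) (hF : A i j = some F) (hw : 2 + F j ≤ 13 / 20) :
    fcl i F ≤ bb (2 + F j) ∧ 0 ≤ 2 + F j ∧ 2 + F j ≤ 13 / 20 ∧ 2 + F j ≤ v j + (v i - 1) := by
  have cF := h.cell i j F hF
  have fF := h.far i j F hj hF
  exact ⟨far_bb' cF hj fF, (far_W cF hj fF).1, hw,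
    own' (h.cell i i v hv) cF (sep' h hj.symm hv hF) hj (h.main i v hv) fF⟩

/-- **A linear bound for a good class.** -/
theorem row_lin {a c b lo : ℝ} (R : RLc a c b lo) (h : OF A) {i j : Fin 4} (hij : j ≠ i)
    {M : Fin 4 → ℝ} (hM : A i i = some M) (hd : M i - 1 < 3 / 5) (hlo : lo ≤ M i - 1)
    (hw : ∀ j F, j ≠ i → A i j = some F → 2 + F j ≤ 13 / 20) :
    VV A i ≤ a - c * (M i - 1) + b * (-M j) := by
  obtain ⟨k, l, hn⟩ := exists_rest2 hij.symm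
  have n := nodup_ne hn
  have cv := h.cell i i M hM
  have mv := h.main i M hM
  have hn' : [i, j, l, k].Nodup := perm_kl hn
  rw [Pool.Agent.Helper44.TS.VV_eq hn, hM]
  simp only [fo]
  rcases hj : A i j with _ | F <;> rcases hk : A i k with _ | G <;> rcases hl : A i l with _ | H <;>
    simp only [add_zero]
  · exact R.none cv hn mv hlo hd
  · obtain ⟨g1, g2, g3, g4⟩ := gfar' h n.2.2 hM hl (hw l H n.2.2 hl)
    have := R.one_m cv hn' mv hlo hd g2 g3 g4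
    linarith
  · obtain ⟨g1, g2, g3, g4⟩ := gfar' h n.2.1 hM hk (hw k G n.2.1 hk)
    have := R.one_m cv hn mv hlo hd g2 g3 g4
    linarith
  · obtain ⟨g1, g2, g3, g4⟩ := gfar' h n.2.1 hM hk (hw k G n.2.1 hk)
    obtain ⟨e1, e2, e3, e4⟩ := gfar' h n.2.2 hM hl (hw l H n.2.2 hl)
    have := R.two_ml cv hn mv hlo hd g2 e2 g4 e4
    linarith
  · obtain ⟨g1, g2, g3, g4⟩ := gfar' h n.1 hM hj (hw j F n.1 hj)
    have := R.one_z cv hn mv hlo hd g2 g3 g4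
    linarith
  · obtain ⟨g1, g2, g3, g4⟩ := gfar' h n.1 hM hj (hw j F n.1 hj)
    obtain ⟨e1, e2, e3, e4⟩ := gfar' h n.2.2 hM hl (hw l H n.2.2 hl)
    have := R.two_zm cv hn' mv hlo hd g2 e2 g4 e4
    linarith
  · obtain ⟨g1, g2, g3, g4⟩ := gfar' h n.1 hM hj (hw j F n.1 hj)
    obtain ⟨e1, e2, e3, e4⟩ := gfar' h n.2.1 hM hk (hw k G n.2.1 hk)
    have := R.two_zm cv hn mv hlo hd g2 e2 g4 e4
    linarith
  · obtain ⟨g1, g2, g3, g4⟩ := gfar' h n.1 hM hj (hw j F n.1 hj)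
    obtain ⟨e1, e2, e3, e4⟩ := gfar' h n.2.1 hM hk (hw k G n.2.1 hk)
    obtain ⟨f1, f2, f3, f4⟩ := gfar' h n.2.2 hM hl (hw l H n.2.2 hl)
    have := R.three cv hn mv hd g2 e2 f2 g4 e4 f4
    linarith

end Pool.Agent.Helper74.TS
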