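import Pool.Agent.Helper36.TS.Frame

/-!
# The type (2,1,1,1) is impossible: a class which is lowest in its three columns forces the sum of
the four heights to be at least 2
-/

set_option autoImplicit false

namespace Pool.Agent.Helper74.TS

open Pool.Agent.Helper84.TS Pool.Agent.Helper23.TS Pool.Agent.Helper36.TS

variable {A : Fin 4 → Fin 4 → Option (Fin 4 → ℝ)} {P : Fin 4 → Fin 4 → ℝ} {s : Fin 4 → Fin 4}

/-- If the class `i` has the lowest row entry in each of the columns `j`, `k`, `l`, then the sum of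
the heights `P m m - 1` is at least `2`. -/
theorem two_le_of_low (h : OF A) (hP : ∀ i, A i (s i) = some (P i)) {i j k l : Fin 4}
    (hn : [i, j, k, l].Nodup) (hj : -P i j ≤ -P k j ∧ -P i j ≤ -P l j)
    (hk : -P i k ≤ -P j k ∧ -P i k ≤ -P l k) (hl : -P i l ≤ -P j l ∧ -P i l ≤ -P k l) :
    2 ≤ (P i i - 1) + (P j j - 1) + (P k k - 1) + (P l l - 1) := by
  have n1 : [i, k, j, l].Nodup := by
    clear * - hn; revert hn; revert i j k l; decide
  have n2 : [i, l, j, k].Nodup := by
    clear * - hn; revert hn; revert i j k l; decide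
  have s1 := slk_nonneg h hP hn
  have s2 := slk_nonneg h hP n1
  have s3 := slk_nonneg h hP n2
  have e := (cell_lin (cellP h hP i) hn).1
  unfold slk at s1 s2 s3
  rw [min_eq_left hk.1, min_eq_left hl.1] at s1
  rw [min_eq_left hj.1, min_eq_left hl.2] at s2
  rw [min_eq_left hj.2, min_eq_left hk.2] at s3
  linarith

/-- The type `(2,1,1,1)` does not occur if the sum of the heights is less than `2`, for example if
all heights are less than `1/2`. -/
theorem not_type_2111 (h : OF A) (hP : ∀ i, A i (s i) = some (P i)) {i : Fin 4}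
    (hd : ∑ m, (P m m - 1) < 2)
    (hlow : ∀ m c, m ≠ i → c ≠ m → -P i m ≤ -P c m) : False := by
  obtain ⟨j, k, l, hn⟩ := exists_rest3 i
  have hne : i ≠ j ∧ i ≠ k ∧ i ≠ l ∧ j ≠ k ∧ j ≠ l ∧ k ≠ l := by
    simp only [List.nodup_cons, List.mem_cons, List.not_mem_nil, or_false, not_or] at hn
    exact ⟨hn.1.1, hn.1.2.1, hn.1.2.2, hn.2.1.1, hn.2.1.2, hn.2.2.1⟩
  obtain ⟨ij, ik, il, jk, jl, kl⟩ := hne
  have h1 := two_le_of_low h hP hn ⟨hlow j k ij.symm jk.symm, hlow j l ij.symm jl.symm⟩
    ⟨hlow k j ik.symm jk, hlow k l ik.symm kl.symm⟩ ⟨hlow l j il.symm jl, hlow l k il.symm kl⟩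
  rw [sum4 hn (fun m => P m m - 1)] at hd
  linarith

/-- The same for a choice `t` of the lowest classes. -/
theorem not_type_2111' (h : OF A) (hP : ∀ i, A i (s i) = some (P i)) {t : Fin 4 → Fin 4}
    (hd : ∑ m, (P m m - 1) < 2) (hl : ∀ m i, i ≠ m → -P (t m) m ≤ -P i m)
    {i : Fin 4} (ht : ∀ m, m ≠ i → t m = i) : False := by
  refine not_type_2111 h hP hd (i := i) fun m c hm hc => ?_
  have := hl m c hc
  rwa [ht m hm] at this

end Pool.Agent.Helper74.TS
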