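import Pool.Agent.Helper74.TS.Col0
import Pool.Agent.Helper44.TS.Class

/-!
# The frame with two rows

Rows: the classes `c`, `l` with their main cells `P c`, `P l`; the two other classes `a`, `b` do not
occur. `u^x_m = -P x m`. Columns `a`, `b`: two entries; columns `c`, `l`: one entry.
-/

set_option autoImplicit false

namespace Pool.Agent.Helper74.TS

open Pool.Agent.Helper84.TS Pool.Agent.Helper23.TS Pool.Agent.Helper36.TS
  Pool.Agent.Helper83.TS Pool.Agent.Helper44.TS

section

variable {A : Fin 4 → Fin 4 → Option (Fin 4 → ℝ)} {P : Fin 4 → Fin 4 → ℝ}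

/-- the column `m` with the rows `x`, `y` (own far cells included) -/
noncomputable def col2 (A : Fin 4 → Fin 4 → Option (Fin 4 → ℝ)) (P : Fin 4 → Fin 4 → ℝ)
    (nx ny k : ℝ) (m x y : Fin 4) : ℝ :=
  sx nx (P x x - 1) (-P x m) + sx ny (P y y - 1) (-P y m) - k * min (-P x m) (-P y m)
    + fo x (A x m) + fo y (A y m)

/-- the column `m` with the only row `x` (own far cell included) -/
noncomputable def col1 (A : Fin 4 → Fin 4 → Option (Fin 4 → ℝ)) (P : Fin 4 → Fin 4 → ℝ)
    (nx : ℝ) (m x : Fin 4) : ℝ :=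
  sx nx (P x x - 1) (-P x m) + fo x (A x m)

theorem col2_comm (nx ny k : ℝ) (m x y : Fin 4) : col2 A P nx ny k m x y =
    col2 A P ny nx k m y x := by
  unfold col2
  rw [min_comm]
  ring

/-- the pair inequality of the two rows -/
theorem pair_rows (h : OF A) {a b c l : Fin 4} (hn : [a, b, c, l].Nodup)
    (hc : A c c = some (P c)) (hl : A l l = some (P l)) :
    min (-P c a) (-P l a) + min (-P c b) (-P l b) ≤ (P c c - 1) + (P l l - 1) := by
  have hn' : [c, l, a, b].Nodup := by
    clear * - hn; revert hn; revert a b c l; decide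
  have hcl : c ≠ l := by
    clear * - hn; revert hn; revert a b c l; decide
  have hs : Sep (P c) (P l) := h.sep c c l l (P c) (P l) hc hl
    (fun e => hcl (by rw [Prod.mk.injEq] at e; exact e.1))
  have := (sep_min (h.cell c c _ hc) (h.cell l l _ hl) hn').1 hs
  linarith

/-- **The frame with two rows** `c`, `l`. -/
theorem two_rows (h : OF A) {a b c l : Fin 4} (hn : [a, b, c, l].Nodup)
    (hc : A c c = some (P c)) (hl : A l l = some (P l)) {nc nl k : ℝ} (hk : 0 ≤ k) :
    VV A c + VV A l ≤ rowc nc (P c c - 1) + rowc nl (P l l - 1)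
      + k * ((P c c - 1) + (P l l - 1)) + col2 A P nc nl k a c l + col2 A P nc nl k b c l
      + col1 A P nl c l + col1 A P nc l c := by
  have n1 : [c, a, b, l].Nodup := by
    clear * - hn; revert hn; revert a b c l; decide
  have n2 : [l, a, b, c].Nodup := by
    clear * - hn; revert hn; revert a b c l; decide
  have p := mul_le_mul_of_nonneg_left (pair_rows h hn hc hl) hk
  rw [Pool.Agent.Helper44.TS.VV_eq n1, Pool.Agent.Helper44.TS.VV_eq n2, hc, hl]
  have e1 : fo c (some (P c)) = fcl c (P c) := rfl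
  have e2 : fo l (some (P l)) = fcl l (P l) := rfl
  rw [e1, e2, row_sx nc (h.cell c c _ hc) n1, row_sx nl (h.cell l l _ hl) n2]
  unfold col2 col1
  linarith

/-- the bounds of the entries of a main row cell -/
structure Mr (d u : ℝ) : Prop where
  d0 : 0 ≤ d
  d1 : d < 1
  lo : -(1 - d) ≤ u
  hi : u ≤ 1

theorem mr_main (h : OF A) {x m : Fin 4} (hx : A x x = some (P x)) (hm : m ≠ x) :
    Mr (P x x - 1) (-P x m) := by
  obtain ⟨k, l, hn⟩ := exists_rest2 hm.symm
  obtain ⟨c1, c2, c3, c4, -⟩ := cell_lin (h.cell x x _ hx) hn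
  exact ⟨by linarith, by linarith, by linarith, h.main x _ hx m hm⟩

/-- the three entries of a main row cell have the sum `1 + d` -/
theorem mr_sum (h : OF A) {x j k l : Fin 4} (hn : [x, j, k, l].Nodup)
    (hx : A x x = some (P x)) : -P x j + -P x k + -P x l = 1 + (P x x - 1) := by
  have := (cell_lin (h.cell x x _ hx) hn).1
  linarith

end

/-! ### Slots under upper bounds of the entries -/

/-- the maximum of the slot under the upper bound `U` of the entry -/
noncomputable def cs (c d U : ℝ) : ℝ := sx c d (min U (min 1 (c / (1 - d))))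

section

variable {c d u U : ℝ}

theorem cs_of_le (h1 : U ≤ 1) (h2 : (1 - d) * U ≤ c) (hd : d < 1) : cs c d U = sx c d U := by
  rw [cs, min_eq_left]
  exact le_min h1 ((le_div_iff₀ (by linarith)).2 (by linarith))

/-- **A slot under the bound `U`.** -/
theorem le_cs (hc : 0 ≤ c) (e : Mr d u) (hU : u ≤ U) : sx c d u ≤ cs c d U := by
  obtain ⟨d0, d1, lo, hi⟩ := e
  have hd : 0 < 1 - d := by linarith
  rcases le_total u (c / (1 - d)) with h | h
  · refine sx_mono hc hd.le lo hi (le_min hU (le_min hi h)) ?_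
    calc (1 - d) * min U (min 1 (c / (1 - d))) ≤ (1 - d) * (c / (1 - d)) :=
          mul_le_mul_of_nonneg_left ((min_le_right _ _).trans (min_le_right _ _)) hd.le
      _ = c := by field_simp
  · have e2 : min U (min 1 (c / (1 - d))) = c / (1 - d) := by
      rw [min_eq_right (h.trans hi), min_eq_right (h.trans hU)]
    rw [cs, e2]
    exact sx_free hd.le lo hi (div_nonneg hc hd.le) (by field_simp)

/-- the free slot -/
theorem cs_le_free (hc : 0 ≤ c) (_ : 0 ≤ d) (d1 : d < 1) (hU : -(1 - d) ≤ U) :
    cs c d U ≤ c ^ 2 / (2 * (1 - d)) := by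
  have hd : 0 < 1 - d := by linarith
  refine sx_free_num hd hc ?_ ((min_le_right _ _).trans (min_le_left _ _))
  refine le_min hU (le_min (by linarith) ?_)
  exact (by linarith : -(1 - d) ≤ 0).trans (div_nonneg hc hd.le)

/-- `cs` is increasing in the bound -/
theorem cs_mono {U' : ℝ} (hc : 0 ≤ c) (d0 : 0 ≤ d) (d1 : d < 1) (hU : -(1 - d) ≤ U)
    (h : U ≤ U') : cs c d U ≤ cs c d U' := by
  have hd : 0 < 1 - d := by linarith
  have e : Mr d (min U (min 1 (c / (1 - d)))) := by
    refine ⟨d0, d1, le_min hU (le_min (by linarith) ?_),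
      (min_le_right _ _).trans (min_le_left _ _)⟩
    exact (by linarith : -(1 - d) ≤ 0).trans (div_nonneg hc hd.le)
  exact le_cs hc e ((min_le_left _ _).trans h)

/-- the maximum of a column with two entries under upper bounds of the entries -/
noncomputable def cs2 (nx ny k dx dy Ux Uy : ℝ) : ℝ :=
  max (cs nx dx Ux + cs (ny - k) dy Uy) (cs (nx - k) dx Ux + cs ny dy Uy)

/-- **A column with two entries under upper bounds of the entries.** -/
theorem le_cs2 {nx ny k dx dy ux uy Ux Uy : ℝ} (hk : 0 ≤ k) (hx : 0 ≤ nx - k) (hy : 0 ≤ ny - k)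
    (ex : Mr dx ux) (ey : Mr dy uy) (hUx : ux ≤ Ux) (hUy : uy ≤ Uy) :
    sx nx dx ux + sx ny dy uy - k * min ux uy ≤ cs2 nx ny k dx dy Ux Uy := by
  rcases le_total uy ux with h | h
  · refine le_trans ?_ (le_max_left _ _)
    have h1 := le_cs (c := nx) (by linarith) ex hUx
    have h2 := le_cs hy ey hUy
    rw [sx_sub] at h2
    rw [min_eq_right h]
    linarith
  · refine le_trans ?_ (le_max_right _ _)
    have h1 := le_cs (c := ny) (by linarith) ey hUy
    have h2 := le_cs hx ex hUx
    rw [sx_sub] at h2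
    rw [min_eq_left h]
    linarith

end

end Pool.Agent.Helper74.TS
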